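import Pool.Agent.ARC.Targets5

set_option autoImplicit false

/-!
# ARC: from a vector on an annulus to a holomorphic map from the torus (T_ASM)
-/

noncomputable section

open Filter Topology

namespace Pool.Agent.ARC

namespace ASM_

/-- The multiplicative coordinate. -/
def X (ρ : ℝ) (z : ℂ) : ℂ := Complex.exp (2 * Real.pi * Complex.I * z) / ρ

/-- The annulus. -/
def An (Q δ : ℝ) : Set ℂ := {x | Q * (1 + δ) < ‖x‖ ∧ Q * ‖x‖ < 1 - δ}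

theorem isOpen_An (Q δ : ℝ) : IsOpen (An Q δ) :=
  (isOpen_lt continuous_const continuous_norm).inter
    (isOpen_lt (continuous_const.mul continuous_norm) continuous_const)

theorem X_one (ρ : ℝ) (z : ℂ) : X ρ (z + 1) = X ρ z := by
  unfold X
  have h : 2 * (Real.pi : ℂ) * Complex.I * (z + 1) =
      2 * Real.pi * Complex.I * z + 2 * Real.pi * Complex.I := by ring
  rw [h, Complex.exp_periodic]

theorem X_add (ρ : ℝ) (τ z : ℂ) :
    X ρ (z + τ) = Complex.exp (2 * Real.pi * Complex.I * τ) * X ρ z := by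
  unfold X
  have h : 2 * (Real.pi : ℂ) * Complex.I * (z + τ) =
      2 * Real.pi * Complex.I * τ + 2 * Real.pi * Complex.I * z := by ring
  rw [h, Complex.exp_add, mul_div_assoc]

theorem X_int (ρ : ℝ) (τ z : ℂ) (k : ℤ) :
    X ρ (z + k * τ) = Complex.exp (2 * Real.pi * Complex.I * τ) ^ k * X ρ z := by
  rw [X_add, ← Complex.exp_int_mul]
  congr 2
  ring

theorem differentiable_X (ρ : ℝ) : Differentiable ℂ (X ρ) := by
  unfold X
  intro z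
  fun_prop

theorem X_ne {ρ : ℝ} (hρ : 0 < ρ) (z : ℂ) : X ρ z ≠ 0 := by
  unfold X
  apply div_ne_zero (Complex.exp_ne_zero _)
  exact_mod_cast hρ.ne'

/-- The class of the vector does not depend on the representative. -/
theorem step (hI : T_ISB) {a : ℕ} {q : ℂ} {δ : ℝ} {H : ℂ → Vec a} (hδ : 0 < δ) (hq0 : 0 < ‖q‖)
    (hq1 : ‖q‖ < 1)
    (hc : ∀ x : ℂ, 1 < ‖x‖ → ‖q‖ * ‖x‖ < 1 → ∃ c : ℂ, c ≠ 0 ∧ H x = c • H (q * x)) {y : ℂ}
    (hy : y ∈ An ‖q‖ δ) (j : ℕ) (hj : q ^ j * y ∈ An ‖q‖ δ) (p : Projectivization ℂ (Vec a)) :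
    Is (H y) p ↔ Is (H (q ^ j * y)) p := by
  match j, hj with
  | 0, _ => rw [pow_zero, one_mul]
  | 1, hj =>
    rw [pow_one] at hj ⊢
    have h1 : ‖q‖ * (1 + δ) < ‖q‖ * ‖y‖ := by
      have := hj.1
      rwa [norm_mul] at this
    have h2 : 1 + δ < ‖y‖ := lt_of_mul_lt_mul_left h1 hq0.le
    have h3 := hy.2
    obtain ⟨c, hc0, hcH⟩ := hc y (by linarith) (by linarith)
    constructor
    · intro h
      have h4 : H (q * y) = c⁻¹ • H y := by rw [hcH, smul_smul, inv_mul_cancel₀ hc0, one_smul]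
      rw [h4]
      exact (hI a).2.2.2.1 _ _ _ (inv_ne_zero hc0) h
    · intro h
      rw [hcH]
      exact (hI a).2.2.2.1 _ _ _ hc0 h
  | j + 2, hj =>
    exfalso
    have h1 : ‖q‖ * (1 + δ) < ‖q‖ ^ (j + 2) * ‖y‖ := by
      have := hj.1
      rwa [norm_mul, norm_pow] at this
    have h2 : ‖q‖ ^ (j + 2) * ‖y‖ ≤ ‖q‖ * (‖q‖ * ‖y‖) := by
      have h3 : ‖q‖ ^ (j + 2) = ‖q‖ ^ j * (‖q‖ * ‖q‖) := by ring
      have h4 : ‖q‖ ^ j ≤ 1 := pow_le_one₀ hq0.le hq1.le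
      have h5 : 0 ≤ ‖q‖ * ‖q‖ * ‖y‖ := by positivity
      calc ‖q‖ ^ (j + 2) * ‖y‖ = ‖q‖ ^ j * (‖q‖ * ‖q‖ * ‖y‖) := by rw [h3]; ring
        _ ≤ 1 * (‖q‖ * ‖q‖ * ‖y‖) := mul_le_mul_of_nonneg_right h4 h5
        _ = ‖q‖ * (‖q‖ * ‖y‖) := by ring
    have h3 := hy.2
    have h4 : ‖q‖ * (‖q‖ * ‖y‖) < ‖q‖ * (1 - δ) := mul_lt_mul_of_pos_left h3 hq0
    have h5 : ‖q‖ * (1 - δ) < ‖q‖ * (1 + δ) := mul_lt_mul_of_pos_left (by linarith) hq0
    linarith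

/-- Every orbit meets the annulus. -/
theorem exists_k {q : ℂ} {δ : ℝ} (hδ : 0 < δ) (hq0 : 0 < ‖q‖) (hq1 : ‖q‖ < 1)
    (hqδ : ‖q‖ * (1 + δ) < 1 - δ) {y : ℂ} (hy : y ≠ 0) : ∃ k : ℤ, q ^ k * y ∈ An ‖q‖ δ := by
  have hm : 0 < 1 - δ := lt_trans (mul_pos hq0 (by linarith)) hqδ
  have hy' : 0 < ‖y‖ := norm_pos_iff.2 hy
  obtain ⟨n, hn1, hn2⟩ := exists_mem_Ico_zpow (x := ‖y‖ / (1 - δ)) (y := ‖q‖⁻¹) (div_pos hy' hm)
    ((one_lt_inv₀ hq0).2 hq1)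
  have hqn : 0 < ‖q‖ ^ n := zpow_pos hq0 n
  have e1 : ‖q‖⁻¹ ^ n * ‖q‖ ^ n = 1 := by
    rw [← mul_zpow, inv_mul_cancel₀ hq0.ne', one_zpow]
  refine ⟨n, ?_, ?_⟩
  · rw [norm_mul, norm_zpow]
    have h1 : 1 - δ ≤ ‖q‖ ^ n * ‖y‖ := by
      have h2 := (le_div_iff₀ hm).1 hn1
      calc 1 - δ = ‖q‖ ^ n * (‖q‖⁻¹ ^ n * (1 - δ)) := by
            rw [← mul_assoc, mul_comm (‖q‖ ^ n), e1, one_mul]
        _ ≤ ‖q‖ ^ n * ‖y‖ := mul_le_mul_of_nonneg_left h2 hqn.le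
    linarith
  · rw [norm_mul, norm_zpow]
    have h2 := (div_lt_iff₀ hm).1 hn2
    have e2 : ‖q‖ * (‖q‖ ^ n * (‖q‖⁻¹ ^ (n + 1) * (1 - δ))) = 1 - δ := by
      rw [zpow_add₀ (inv_ne_zero hq0.ne'), zpow_one]
      calc ‖q‖ * (‖q‖ ^ n * (‖q‖⁻¹ ^ n * ‖q‖⁻¹ * (1 - δ))) =
          (‖q‖⁻¹ ^ n * ‖q‖ ^ n) * (‖q‖ * ‖q‖⁻¹) * (1 - δ) := by ring
        _ = 1 - δ := by rw [e1, mul_inv_cancel₀ hq0.ne', one_mul, one_mul]
    rw [← e2]
    exact mul_lt_mul_of_pos_left (mul_lt_mul_of_pos_left h2 hqn) hq0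

end ASM_

open ASM_ in
/-- From a vector on an annulus to a holomorphic map from the torus. -/
theorem p_ASM (h_ISB : T_ISB) : T_ASM := by
  intro a b U τ f ρ δ H hτ hf1 hfτ hfloc hρ hδ q hq hqδ hH hHU hHc
  have hqn : ‖q‖ = Real.exp (-(2 * Real.pi * τ.im)) := by
    rw [hq, Complex.norm_exp]
    congr 1
    simp
  have hq0 : 0 < ‖q‖ := by
    rw [hqn]
    exact Real.exp_pos _
  have hq1 : ‖q‖ < 1 := by
    rw [hqn, Real.exp_lt_one_iff]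
    have := Real.pi_pos
    have : 0 < 2 * Real.pi * τ.im := by positivity
    linarith
  have hqne : q ≠ 0 := norm_pos_iff.1 hq0
  have hXint : ∀ (z : ℂ) (k : ℤ), X ρ (z + k * τ) = q ^ k * X ρ z := by
    intro z k
    rw [X_int, hq]
  have hfk : ∀ (z : ℂ) (k : ℤ), f (z + k * τ) = f z := by
    intro z k
    have hper : Function.Periodic f τ := hfτ
    exact hper.int_mul k z
  -- independence of the representative
  have key : ∀ (z : ℂ) (k k' : ℤ) (p : Projectivization ℂ (Vec a)),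
      X ρ (z + k * τ) ∈ An ‖q‖ δ → X ρ (z + k' * τ) ∈ An ‖q‖ δ →
      Is (H (X ρ (z + k * τ))) p → Is (H (X ρ (z + k' * τ))) p := by
    have key1 : ∀ (z : ℂ) (k k' : ℤ) (p : Projectivization ℂ (Vec a)), k ≤ k' →
        X ρ (z + k * τ) ∈ An ‖q‖ δ → X ρ (z + k' * τ) ∈ An ‖q‖ δ →
        (Is (H (X ρ (z + k * τ))) p ↔ Is (H (X ρ (z + k' * τ))) p) := by
      intro z k k' p hkk hk hk'
      obtain ⟨j, hj⟩ := Int.le.dest hkk
      have e : X ρ (z + k' * τ) = q ^ j * X ρ (z + k * τ) := by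
        rw [hXint, hXint, ← hj, zpow_add₀ hqne, zpow_natCast]
        ring
      rw [e] at hk' ⊢
      exact step h_ISB hδ hq0 hq1 hHc hk j hk' p
    intro z k k' p hk hk' h
    rcases le_total k k' with h' | h'
    · exact (key1 z k k' p h' hk hk').1 h
    · exact (key1 z k' k p h' hk' hk).2 h
  -- existence
  have ex : ∀ z : ℂ, ∃ (k : ℤ) (y : PP a b), X ρ (z + k * τ) ∈ An ‖q‖ δ ∧ y ∈ U ∧
      Is (H (X ρ (z + k * τ))) y.1 ∧ y.2 = (f z).2 := by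
    intro z
    obtain ⟨k, hk⟩ := exists_k hδ hq0 hq1 hqδ (X_ne hρ z)
    rw [← hXint] at hk
    obtain ⟨y, hyU, hy1, hy2⟩ := hHU (z + k * τ) (X ρ (z + k * τ)) rfl hk.1.le hk.2.le
    exact ⟨k, y, hk, hyU, hy1, by rw [hy2, hfk]⟩
  choose K F hK hFU hF1 hF2 using ex
  -- the value from any representative
  have val : ∀ (z : ℂ) (k : ℤ), X ρ (z + k * τ) ∈ An ‖q‖ δ →
      Is (H (X ρ (z + k * τ))) (F z).1 := by
    intro z k hk
    exact key z (K z) k _ (hK z) hk (hF1 z)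
  have uni : ∀ (z : ℂ) (k : ℤ) (y : PP a b), X ρ (z + k * τ) ∈ An ‖q‖ δ →
      Is (H (X ρ (z + k * τ))) y.1 → y.2 = (f z).2 → F z = y := by
    intro z k y hk h1 h2
    exact Prod.ext (is_unique (val z k hk) h1) (by rw [hF2, h2])
  refine ⟨F, ?_, ?_, ?_, hFU, hF2, ?_⟩
  · intro z₀
    obtain ⟨N, G, hN, hz₀, hG, hGI⟩ := hfloc z₀
    have hXd : Differentiable ℂ fun z : ℂ => X ρ (z + (K z₀ : ℂ) * τ) := fun z =>
      (differentiable_X ρ _).comp z ((differentiableAt_id).add (differentiableAt_const _))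
    refine ⟨N ∩ (fun z : ℂ => X ρ (z + (K z₀ : ℂ) * τ)) ⁻¹' An ‖q‖ δ,
      fun z => H (X ρ (z + (K z₀ : ℂ) * τ)), G,
      hN.inter ((isOpen_An _ _).preimage hXd.continuous), ⟨hz₀, hK z₀⟩, ?_,
      hG.mono Set.inter_subset_left, ?_⟩
    · apply hH.comp hXd.differentiableOn
      rintro z ⟨-, hz⟩
      have h1 : ‖q‖ * (1 + δ) < ‖X ρ (z + (K z₀ : ℂ) * τ)‖ := hz.1
      have h2 : ‖q‖ * ‖X ρ (z + (K z₀ : ℂ) * τ)‖ < 1 - δ := hz.2
      refine ⟨?_, ?_⟩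
      · have : 0 ≤ ‖q‖ * δ := by positivity
        show ‖q‖ < ‖X ρ (z + (K z₀ : ℂ) * τ)‖
        linarith
      · show ‖q‖ * ‖X ρ (z + (K z₀ : ℂ) * τ)‖ < 1
        linarith
    · rintro z ⟨hzN, hz⟩
      refine ⟨val z (K z₀) hz, ?_⟩
      rw [hF2]
      exact hGI z hzN
  · intro z
    have e : X ρ (z + 1 + (K z : ℂ) * τ) = X ρ (z + (K z : ℂ) * τ) := by
      rw [← X_one ρ (z + (K z : ℂ) * τ)]
      congr 1
      ring
    apply uni (z + 1) (K z)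
    · rw [e]
      exact hK z
    · rw [e]
      exact hF1 z
    · rw [hF2, hf1]
  · intro z
    have e : X ρ (z + τ + ((K z - 1 : ℤ) : ℂ) * τ) = X ρ (z + (K z : ℂ) * τ) := by
      congr 1
      push_cast
      ring
    apply uni (z + τ) (K z - 1)
    · rw [e]
      exact hK z
    · rw [e]
      exact hF1 z
    · rw [hF2, hfτ]
  · intro z x hx h1 h2
    have e : X ρ (z + ((0 : ℤ) : ℂ) * τ) = x := by
      rw [Int.cast_zero, zero_mul, add_zero, hx]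
      rfl
    have h3 : X ρ (z + ((0 : ℤ) : ℂ) * τ) ∈ An ‖q‖ δ := by
      rw [e]
      exact ⟨h1, h2⟩
    have h4 := val z 0 h3
    rwa [e] at h4

end Pool.Agent.ARC
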