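import Pool.Agent.ARC.Targets2

set_option autoImplicit false

/-!
# ARC: change of the base point of a uniform bubble (BDS)
-/

noncomputable section

open Filter Topology

namespace Pool.Agent.ARC

/-- Multiplication by a scalar of modulus one moves the base point. -/
theorem BDS_norm_smul_sub {n : ℕ} (θ : ℂ) (hθ : ‖θ‖ = 1) (u v : Vec n) :
    ‖θ⁻¹ • u - v‖ = ‖u - θ • v‖ := by
  have h0 : θ ≠ 0 := by
    intro h
    rw [h, norm_zero] at hθ
    exact zero_ne_one hθ
  have : u - θ • v = θ • (θ⁻¹ • u - v) := by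
    rw [smul_sub, smul_smul, mul_inv_cancel₀ h0, one_smul]
  rw [this, norm_smul, hθ, one_mul]

theorem p_BDS : T_BDS := by
  intro a b O M ε C u₀ u₁ w₀ w₁ θ θ' hO hM hε hBD
  obtain ⟨Q, hQ, hB⟩ := hBD
  refine ⟨?_, ?_, ?_⟩
  · intro hθ hθ'
    have h0 : θ ≠ 0 := by
      intro h
      rw [h, norm_zero] at hθ
      exact zero_ne_one hθ
    have h0' : θ' ≠ 0 := by
      intro h
      rw [h, norm_zero] at hθ'
      exact zero_ne_one hθ'
    refine ⟨fun j => θ • Q j, fun j => ?_, ?_⟩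
    · rw [norm_smul, hθ, one_mul]
      exact hQ j
    · intro u e w hu he hw s t hst
      have h1 : ‖θ⁻¹ • u - u₀‖ < ε := by
        rw [BDS_norm_smul_sub θ hθ]
        exact hu
      have h2 : ‖θ⁻¹ • e‖ < ε := by
        rw [norm_smul, norm_inv, hθ, inv_one, one_mul]
        exact he
      have h3 : ‖θ'⁻¹ • w - w₀‖ < ε := by
        rw [BDS_norm_smul_sub θ' hθ']
        exact hw
      have h4 := hO θ θ' _ _ h0 h0' (hB _ _ _ h1 h2 h3 s t hst)
      have h5 : θ • (t ^ M • (θ⁻¹ • u) + (s * t ^ (M - 1)) • (θ⁻¹ • e) +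
          ∑ j ∈ Finset.Icc 2 M, (s ^ j * t ^ (M - j)) • Q j) =
          t ^ M • u + (s * t ^ (M - 1)) • e +
          ∑ j ∈ Finset.Icc 2 M, (s ^ j * t ^ (M - j)) • (θ • Q j) := by
        rw [smul_add, smul_add, Finset.smul_sum, smul_comm θ (t ^ M), smul_smul θ θ⁻¹,
          mul_inv_cancel₀ h0, one_smul, smul_comm θ (s * t ^ (M - 1)), smul_smul θ θ⁻¹,
          mul_inv_cancel₀ h0, one_smul]
        congr 1
        exact Finset.sum_congr rfl fun j _ => smul_comm _ _ _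
      have h6 : θ' • (θ'⁻¹ • w) = w := by
        rw [smul_smul, mul_inv_cancel₀ h0', one_smul]
      rw [h5, h6] at h4
      exact h4
  · intro hu₁ hw₁
    refine ⟨Q, hQ, ?_⟩
    intro u e w hu he hw s t hst
    refine hB u e w ?_ (by linarith) ?_ s t hst
    · calc ‖u - u₀‖ = ‖(u - u₁) + (u₁ - u₀)‖ := by rw [sub_add_sub_cancel]
        _ ≤ ‖u - u₁‖ + ‖u₁ - u₀‖ := norm_add_le _ _
        _ < ε := by linarith
    · calc ‖w - w₀‖ = ‖(w - w₁) + (w₁ - w₀)‖ := by rw [sub_add_sub_cancel]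
        _ ≤ ‖w - w₁‖ + ‖w₁ - w₀‖ := norm_add_le _ _
        _ < ε := by linarith
  · intro hu₁ hw₁
    have h := hB u₁ 0 w₁ hu₁ (by rw [norm_zero]; exact hε) hw₁ 0 1 (by simp)
    have hsum : (∑ j ∈ Finset.Icc 2 M, ((0 : ℂ) ^ j * (1 : ℂ) ^ (M - j)) • Q j) = 0 := by
      refine Finset.sum_eq_zero fun j hj => ?_
      have hj2 : j ≠ 0 := by
        have := (Finset.mem_Icc.mp hj).1
        omega
      rw [zero_pow hj2, zero_mul, zero_smul]
    rw [hsum, smul_zero, one_pow, one_smul, add_zero, add_zero] at h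
    exact h

end Pool.Agent.ARC
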