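import Pool.Agent.ARC.Targets

set_option autoImplicit false

/-!
# ARC: one end point can be moved
-/

noncomputable section

open Filter Topology

namespace Pool.Agent.ARC

namespace PER_

theorem form_update (p : ℕ) (c : ℕ → ℂ) (d s t : ℂ) :
    form p (Function.update c 0 d) s t = form p c s t + (d - c 0) * t ^ p := by
  unfold form
  rw [Finset.sum_range_succ', Finset.sum_range_succ' (fun i => c i * s ^ i * t ^ (p - i))]
  have h : ∀ i ∈ Finset.range p, Function.update c 0 d (i + 1) * s ^ (i + 1) * t ^ (p - (i + 1)) =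
      c (i + 1) * s ^ (i + 1) * t ^ (p - (i + 1)) := by
    intro i _
    rw [Function.update_of_ne (Nat.succ_ne_zero i)]
  rw [Finset.sum_congr rfl h, Function.update_self, pow_zero, Nat.sub_zero]
  ring

/-- The change of the forms in one factor. -/
theorem mv (frm : T_FRM) {a : ℕ} (p : ℕ) (A : Fin (a + 1) → ℕ → ℂ) (v : Vec a)
    (x x' : Projectivization ℂ (Vec a)) (ε : ℝ) (hε : 0 < ε) (hv : Is v x')
    (hx : Is (vform p A 0 1) x) (hd : ‖v - vform p A 0 1‖ < ε) (hp : 1 ≤ p ∨ x' = x) :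
    ∃ A' : Fin (a + 1) → ℕ → ℂ,
      (∀ s t : ℂ, max ‖s‖ ‖t‖ = 1 → ‖vform p A' s t - vform p A s t‖ < ε) ∧
      Is (vform p A' 0 1) x' ∧ vform p A' 1 0 = vform p A 1 0 := by
  by_cases h1 : 1 ≤ p
  · refine ⟨fun i => Function.update (A i) 0 (v i), ?_, ?_, ?_⟩
    · intro s t hst
      have h2 : vform p (fun i => Function.update (A i) 0 (v i)) s t - vform p A s t =
          t ^ p • (v - vform p A 0 1) := by
        funext i
        show form p (Function.update (A i) 0 (v i)) s t - form p (A i) s t =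
          t ^ p * (v i - form p (A i) 0 1)
        rw [form_update, (frm.2.2.1 p (A i)).1]
        ring
      rw [h2, norm_smul, norm_pow]
      have h3 : ‖t‖ ≤ 1 := hst ▸ le_max_right _ _
      have h4 : ‖t‖ ^ p ≤ 1 := pow_le_one₀ (norm_nonneg _) h3
      exact lt_of_le_of_lt (mul_le_of_le_one_left (norm_nonneg _) h4) hd
    · have h2 : vform p (fun i => Function.update (A i) 0 (v i)) 0 1 = v := by
        funext i
        show form p (Function.update (A i) 0 (v i)) 0 1 = v i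
        rw [(frm.2.2.1 p _).1, Function.update_self]
      rw [h2]
      exact hv
    · funext i
      show form p (Function.update (A i) 0 (v i)) 1 0 = form p (A i) 1 0
      rw [(frm.2.2.1 p _).2, (frm.2.2.1 p _).2, Function.update_of_ne (by omega)]
  · have h2 : x' = x := hp.resolve_left h1
    refine ⟨A, fun s t _ => by rw [sub_self, norm_zero]; exact hε, ?_, rfl⟩
    rw [h2]
    exact hx

end PER_

theorem p_PER (isb : T_ISB) (cnc : T_CNC) (frm : T_FRM) (cpt : T_CPT) : T_PER := by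
  intro a b p q U x y hU hj
  obtain ⟨A, B, h, hx1, hx2, hy1, hy2⟩ := hj
  have hC : Conic (cone U) := (cnc a b U).1
  obtain ⟨ε, hε, H⟩ := (cpt a b p q (cone U) A B hC).1 hU h
  set v0 := vform p A 0 1 with hv0
  set w0 := vform q B 0 1 with hw0
  refine ⟨{x' | ∃ (v : Vec a) (w : Vec b), Is v x'.1 ∧ Is w x'.2 ∧ ‖v - v0‖ < ε ∧ ‖w - w0‖ < ε},
    ?_, ?_, ?_⟩
  · show IsOpen (cone _)
    have hc : cone {x' : PP a b | ∃ (v : Vec a) (w : Vec b), Is v x'.1 ∧ Is w x'.2 ∧
        ‖v - v0‖ < ε ∧ ‖w - w0‖ < ε} = ⋃ (c : ℂ) (_ : c ≠ 0) (c' : ℂ) (_ : c' ≠ 0),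
        {z : Vec a × Vec b | (z.1 ≠ 0 ∧ z.2 ≠ 0) ∧ ‖c • z.1 - v0‖ < ε ∧ ‖c' • z.2 - w0‖ < ε} := by
      ext z
      simp only [Set.mem_iUnion]
      constructor
      · rintro ⟨x', ⟨v, w, hv, hw, h1, h2⟩, h3, h4⟩
        obtain ⟨c, hc, rfl⟩ := (isb a).2.2.2.2.1 _ _ _ h3 hv
        obtain ⟨c', hc', rfl⟩ := (isb b).2.2.2.2.1 _ _ _ h4 hw
        exact ⟨c, hc, c', hc', ⟨h3.1, h4.1⟩, h1, h2⟩
      · rintro ⟨c, hc, c', hc', ⟨h3, h4⟩, h1, h2⟩
        obtain ⟨p1, hp1⟩ := (isb a).2.1 z.1 h3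
        obtain ⟨p2, hp2⟩ := (isb b).2.1 z.2 h4
        exact ⟨(p1, p2), ⟨c • z.1, c' • z.2, (isb a).2.2.2.1 _ _ _ hc hp1,
          (isb b).2.2.2.1 _ _ _ hc' hp2, h1, h2⟩, hp1, hp2⟩
    rw [hc]
    refine isOpen_iUnion fun c => isOpen_iUnion fun _ => isOpen_iUnion fun c' =>
      isOpen_iUnion fun _ => ?_
    refine ((isOpen_ne_fun continuous_fst continuous_const).inter
      (isOpen_ne_fun continuous_snd continuous_const)).inter (IsOpen.inter ?_ ?_)
    · exact isOpen_lt (((continuous_fst.const_smul c).sub continuous_const).norm)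
        continuous_const
    · exact isOpen_lt (((continuous_snd.const_smul c').sub continuous_const).norm)
        continuous_const
  · refine ⟨v0, w0, hx1, hx2, ?_, ?_⟩
    · rw [sub_self, norm_zero]
      exact hε
    · rw [sub_self, norm_zero]
      exact hε
  · rintro x' ⟨v, w, hv, hw, h1, h2⟩ hp hq
    obtain ⟨A', a1, a2, a3⟩ := PER_.mv frm p A v x.1 x'.1 ε hε hv hx1 h1 hp
    obtain ⟨B', b1, b2, b3⟩ := PER_.mv frm q B w x.2 x'.2 ε hε hw hx2 h2 hq
    refine ⟨A', B', ?_, a2, b2, ?_, ?_⟩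
    · exact (cpt a b p q (cone U) A' B' hC).2 fun s t hst =>
        H s t hst _ _ (a1 s t hst) (b1 s t hst)
    · rw [a3]
      exact hy1
    · rw [b3]
      exact hy2

end Pool.Agent.ARC
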