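import Pool.Agent.ARC.Targets2
import Pool.Agent.ARC.P_PER

set_option autoImplicit false

/-!
# ARC: the set of the bubbles is open and conic
-/

noncomputable section

open Filter Topology

namespace Pool.Agent.ARC

namespace BUO_

theorem vform_zero {b : ℕ} (w : Vec b) (s t : ℂ) :
    vform 0 (fun i _ => w i) s t = w := by
  funext i
  show form 0 (fun _ => w i) s t = w i
  unfold form
  simp

theorem vform_update (frm : T_FRM) {a : ℕ} (m : ℕ) (A : Fin (a + 1) → ℕ → ℂ) (u : Vec a)
    (s t : ℂ) :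
    vform m (fun i => Function.update (A i) 0 (u i)) s t - vform m A s t =
      t ^ m • (u - vform m A 0 1) := by
  funext i
  show form m (Function.update (A i) 0 (u i)) s t - form m (A i) s t =
    t ^ m * (u i - form m (A i) 0 1)
  rw [PER_.form_update, (frm.2.2.1 m (A i)).1]
  ring

theorem vform_smul {a : ℕ} (m : ℕ) (A : Fin (a + 1) → ℕ → ℂ) (x s t : ℂ) :
    vform m (fun i k => x * A i k) s t = x • vform m A s t := by
  funext i
  show form m (fun k => x * A i k) s t = x * form m (A i) s t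
  unfold form
  rw [Finset.mul_sum]
  refine Finset.sum_congr rfl fun k _ => ?_
  ring

end BUO_

theorem p_BUO (h_CPT : T_CPT) (h_FRM : T_FRM) : T_BUO := by
  intro a b O hC hO
  refine ⟨?_, ?_, ?_⟩
  · rw [Metric.isOpen_iff]
    rintro ⟨u₀, w₀⟩ ⟨m, A, hm, hA, hmem⟩
    have hmem' : ∀ s t : ℂ, (s, t) ≠ (0, 0) →
        (vform m A s t, vform 0 (fun i _ => w₀ i) s t) ∈ O := by
      intro s t hst
      rw [BUO_.vform_zero]
      exact hmem s t hst
    obtain ⟨ε, hε, H⟩ := (h_CPT a b m 0 O A (fun i _ => w₀ i) hC).1 hO hmem'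
    refine ⟨ε, hε, ?_⟩
    rintro ⟨u, w⟩ hz
    rw [Metric.mem_ball, Prod.dist_eq, max_lt_iff, dist_eq_norm, dist_eq_norm] at hz
    refine ⟨m, fun i => Function.update (A i) 0 (u i), hm, ?_, ?_⟩
    · funext i
      show form m (Function.update (A i) 0 (u i)) 0 1 = u i
      rw [(h_FRM.2.2.1 m _).1, Function.update_self]
    · have h2 := (h_CPT a b m 0 O (fun i => Function.update (A i) 0 (u i))
        (fun i _ => w i) hC).2 ?_
      · intro s t hst
        have h3 := h2 s t hst
        rw [BUO_.vform_zero] at h3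
        exact h3
      · intro s t hst
        apply H s t hst
        · rw [BUO_.vform_update h_FRM, norm_smul, norm_pow, hA]
          have h3 : ‖t‖ ≤ 1 := hst ▸ le_max_right _ _
          have h4 : ‖t‖ ^ m ≤ 1 := pow_le_one₀ (norm_nonneg _) h3
          exact lt_of_le_of_lt (mul_le_of_le_one_left (norm_nonneg _) h4) hz.1
        · rw [BUO_.vform_zero, BUO_.vform_zero]
          exact hz.2
  · rintro x y v w hx hy ⟨m, A, hm, hA, hmem⟩
    refine ⟨m, fun i k => x * A i k, hm, ?_, ?_⟩
    · rw [BUO_.vform_smul, hA]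
    · intro s t hst
      rw [BUO_.vform_smul]
      exact hC x y _ _ hx hy (hmem s t hst)
  · rintro ⟨u, w⟩ ⟨m, A, hm, hA, hmem⟩
    have h1 := hmem 0 1 (by simp)
    rw [hA] at h1
    exact h1

end Pool.Agent.ARC
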