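import Pool.Agent.ARC.Targets

set_option autoImplicit false

/-!
# ARC-CAT: a criterion of convergence in the product of two projective spaces
-/

noncomputable section

open Filter Topology

namespace Pool.Agent.ARC

theorem p_CAT : T_CAT := by
  intro a b T l g x v w v₀ w₀ hv hw hv₀ hw₀ hg
  rw [tendsto_nhds]
  intro U hU hx
  have hU' : IsOpen (cone U) := hU
  have h0 : (v₀, w₀) ∈ cone U := ⟨x, hx, hv₀, hw₀⟩
  have ht : Tendsto (fun t => (v t, w t)) l (𝓝 (v₀, w₀)) := by
    rw [nhds_prod_eq]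
    exact hv.prodMk hw
  have he : ∀ᶠ t in l, (v t, w t) ∈ cone U := ht.eventually (hU'.mem_nhds h0)
  filter_upwards [he, hg] with t h1 h2
  obtain ⟨y, hy, h3, h4⟩ := h1
  have h5 : g t = y := Prod.ext (is_unique h2.1 h3) (is_unique h2.2 h4)
  show g t ∈ U
  rw [h5]
  exact hy

end Pool.Agent.ARC
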