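import Pool.Agent.ARC.Targets2

set_option autoImplicit false

/-!
# ARC: approximation of a continuous family on a disc (CHA)
-/

noncomputable section

open Filter Topology Polynomial

namespace Pool.Agent.ARC

namespace CHA_

/-- Scaling of the variable and of the value of a vector of polynomials. -/
def sc {a : ℕ} (c r : ℂ) (P : Fin (a + 1) → Polynomial ℂ) : Fin (a + 1) → Polynomial ℂ :=
  fun i => C c * (P i).comp (C r * X)

lemma pv_sc {a : ℕ} (c r : ℂ) (P : Fin (a + 1) → Polynomial ℂ) (x : ℂ) :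
    pv (sc c r P) x = c • pv P (r * x) := by
  ext i
  simp [pv, sc]

/-- The state of the induction on the radius. -/
def St {a b : ℕ} (O : Set (Vec a × Vec b)) (w : ℂ → Vec b) (O₀ : Set (Vec a)) (pp : ℂ → Vec a)
    (η₁ r : ℝ) : Prop :=
  ∃ (k : ℕ) (P : Fin (a + 1) → Polynomial ℂ), (∀ z : ℂ, ‖z‖ ≤ r → (pv P z, w z) ∈ O) ∧
    pv P 0 ∈ O₀ ∧ ∀ z : ℂ, ‖z‖ = r → ‖pv P z - z ^ k • pp z‖ ≤ η₁ * ‖z‖ ^ k

lemma step (h_BDS : T_BDS) {a b : ℕ} {O : Set (Vec a × Vec b)} (hc : Conic O) {M : ℕ}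
    {ε₂ C₂ η : ℝ} (hM : 2 ≤ M) (hε₂ : 0 < ε₂)
    (hG : ∀ (W : ℂ → Vec b) (L : ℂ → Vec a) (J : ℕ)
      (G P : Fin (a + 1) → Polynomial ℂ), Continuous W → (∀ x : ℂ, x ≠ 0 → x ^ J • L x = pv G x) →
      (∀ x : ℂ, ‖x‖ = 1 → BD O M ε₂ C₂ (L x) (W x)) →
      (∀ x : ℂ, ‖x‖ ≤ 1 → (pv P x, W x) ∈ O) → (∀ x : ℂ, ‖x‖ = 1 → ‖pv P x - L x‖ ≤ η) →
      ∀ R₁ : ℝ, 1 < R₁ → (∀ x : ℂ, 1 ≤ ‖x‖ → ‖x‖ ≤ R₁ → (L x, W x) ∈ O) → ∀ ε' : ℝ, 0 < ε' →
      ∃ (k : ℕ) (P' : Fin (a + 1) → Polynomial ℂ),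
        (∀ x : ℂ, ‖x‖ ≤ R₁ → (pv P' x, W x) ∈ O) ∧ ‖pv P' 0 - pv P 0‖ ≤ ε' ∧
        ∀ x : ℂ, ‖x‖ = R₁ → ‖pv P' x - x ^ k • L x‖ ≤ ε' * ‖x‖ ^ k)
    (w : ℂ → Vec b) (hw : Continuous w) (O₀ : Set (Vec a)) (hO₀ : IsOpen O₀)
    (hs : ∀ (c : ℂ) (v : Vec a), c ≠ 0 → v ∈ O₀ → c • v ∈ O₀)
    (pp L : ℂ → Vec a) (J : ℕ) (G : Fin (a + 1) → Polynomial ℂ)
    (hLG : ∀ x : ℂ, x ≠ 0 → x ^ J • L x = pv G x) (r r' : ℝ) (hr : 0 < r) (hr' : r < r')
    (η₁ ε₁ : ℝ) (hη : η₁ + ε₁ ≤ η) (hη₁ : 0 < η₁)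
    (hL1 : ∀ z : ℂ, ‖z‖ = r → ‖pp z - L z‖ ≤ ε₁) (hL2 : ∀ z : ℂ, ‖z‖ = r' → L z = pp z)
    (hBD : ∀ z : ℂ, ‖z‖ = r → BD O M ε₂ C₂ (L z) (w z))
    (hO : ∀ z : ℂ, r ≤ ‖z‖ → ‖z‖ ≤ r' → (L z, w z) ∈ O) (hS : St O w O₀ pp η₁ r) :
    St O w O₀ pp η₁ r' := by
  obtain ⟨k, P, h1, h2, h3⟩ := hS
  have hrc : (r : ℂ) ≠ 0 := by exact_mod_cast hr.ne'
  have hnr : ‖(r : ℂ)‖ = r := by rw [Complex.norm_real, Real.norm_of_nonneg hr.le]
  have hnm : ∀ x : ℂ, ‖(r : ℂ) * x‖ = r * ‖x‖ := fun x => by rw [norm_mul, hnr]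
  have hrk : (r : ℂ) ^ k ≠ 0 := pow_ne_zero _ hrc
  -- the data for the gluing step
  have hP0 : pv (sc ((r : ℂ) ^ k)⁻¹ r P) 0 ∈ O₀ := by
    rw [pv_sc, mul_zero]
    exact hs _ _ (inv_ne_zero hrk) h2
  obtain ⟨ε₃, hε₃, hball⟩ := Metric.isOpen_iff.1 hO₀ _ hP0
  have hR₁ : 1 < r' / r := by
    rw [lt_div_iff₀ hr]
    linarith
  obtain ⟨k', P', g1, g2, g3⟩ := hG (fun x => w ((r : ℂ) * x)) (fun x => x ^ k • L ((r : ℂ) * x)) J
    (fun i => X ^ k * (sc ((r : ℂ) ^ J)⁻¹ r G) i) (sc ((r : ℂ) ^ k)⁻¹ r P)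
    (hw.comp (continuous_const.mul continuous_id))
    (by
      intro x hx
      have h4 := hLG ((r : ℂ) * x) (mul_ne_zero hrc hx)
      have h5 : pv (fun i => X ^ k * (sc ((r : ℂ) ^ J)⁻¹ r G) i) x =
          x ^ k • pv (sc ((r : ℂ) ^ J)⁻¹ r G) x := by
        ext i
        simp [pv]
      rw [h5, pv_sc, ← h4, smul_smul, smul_smul, smul_smul]
      congr 1
      rw [mul_pow]
      field_simp)
    (by
      intro x hx
      have h4 := hBD ((r : ℂ) * x) (by rw [hnm, hx, mul_one])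
      have h5 := ((h_BDS a b O M ε₂ C₂ (L ((r : ℂ) * x)) (L ((r : ℂ) * x)) (w ((r : ℂ) * x))
        (w ((r : ℂ) * x)) (x ^ k) 1 hc hM hε₂ h4).1 (by rw [norm_pow, hx, one_pow]) (by simp))
      rwa [one_smul] at h5)
    (by
      intro x hx
      rw [pv_sc]
      have h4 := h1 ((r : ℂ) * x) (by
        rw [hnm]
        nlinarith [norm_nonneg x])
      have h5 := hc _ 1 _ _ (inv_ne_zero hrk) one_ne_zero h4
      rwa [one_smul] at h5)
    (by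
      intro x hx
      rw [pv_sc]
      have h4 : ‖(r : ℂ) * x‖ = r := by rw [hnm, hx, mul_one]
      have h5 := h3 _ h4
      rw [h4] at h5
      have h6 : ((r : ℂ) ^ k)⁻¹ • pv P ((r : ℂ) * x) - x ^ k • L ((r : ℂ) * x) =
          ((r : ℂ) ^ k)⁻¹ • (pv P ((r : ℂ) * x) - ((r : ℂ) * x) ^ k • pp ((r : ℂ) * x)) +
            x ^ k • (pp ((r : ℂ) * x) - L ((r : ℂ) * x)) := by
        have h7 : ((r : ℂ) ^ k)⁻¹ • (((r : ℂ) * x) ^ k • pp ((r : ℂ) * x)) = x ^ k • pp ((r : ℂ) * x) := by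
          rw [smul_smul, mul_pow, ← mul_assoc, inv_mul_cancel₀ hrk, one_mul]
        rw [smul_sub, smul_sub, h7]
        abel
      rw [h6]
      refine (norm_add_le _ _).trans ?_
      rw [norm_smul, norm_smul, norm_inv, norm_pow, norm_pow, hnr, hx, one_pow, one_mul]
      have h8 : (r ^ k)⁻¹ * ‖pv P ((r : ℂ) * x) - ((r : ℂ) * x) ^ k • pp ((r : ℂ) * x)‖ ≤ η₁ := by
        rw [inv_mul_le_iff₀ (pow_pos hr k)]
        linarith [h5]
      linarith [hL1 _ h4])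
    (r' / r) hR₁
    (by
      intro x hx1 hx2
      have h4 := hO ((r : ℂ) * x) (by rw [hnm]; nlinarith) (by
        rw [hnm]
        rw [le_div_iff₀ hr] at hx2
        linarith)
      have hx0 : x ≠ 0 := by
        intro h
        rw [h, norm_zero] at hx1
        linarith
      have h5 := hc _ 1 _ _ (pow_ne_zero k hx0) one_ne_zero h4
      rwa [one_smul] at h5)
    (min (ε₃ / 2) η₁) (lt_min (by linarith) hη₁)
  refine ⟨k + k', sc ((r : ℂ) ^ (k + k')) (r : ℂ)⁻¹ P', ?_, ?_, ?_⟩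
  · intro z hz
    have h4 := g1 ((r : ℂ)⁻¹ * z) (by
      rw [norm_mul, norm_inv, hnr, inv_mul_le_iff₀ hr, mul_div_cancel₀ _ hr.ne']
      exact hz)
    rw [mul_inv_cancel_left₀ hrc] at h4
    have h5 := hc _ 1 _ _ (pow_ne_zero (k + k') hrc) one_ne_zero h4
    rw [one_smul] at h5
    rw [pv_sc]
    exact h5
  · rw [pv_sc, mul_zero]
    refine hs _ _ (pow_ne_zero _ hrc) (hball ?_)
    rw [Metric.mem_ball, dist_eq_norm]
    exact lt_of_le_of_lt (g2.trans (min_le_left _ _)) (by linarith)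
  · intro z hz
    have h4 := g3 ((r : ℂ)⁻¹ * z) (by
      rw [norm_mul, norm_inv, hnr, hz]
      field_simp)
    rw [mul_inv_cancel_left₀ hrc] at h4
    rw [pv_sc]
    have h5 : (r : ℂ) ^ (k + k') • pv P' ((r : ℂ)⁻¹ * z) - z ^ (k + k') • pp z =
        (r : ℂ) ^ (k + k') • (pv P' ((r : ℂ)⁻¹ * z) -
          ((r : ℂ)⁻¹ * z) ^ k' • (((r : ℂ)⁻¹ * z) ^ k • L z)) := by
      rw [smul_sub, hL2 z hz, smul_smul, smul_smul]
      congr 2
      rw [mul_pow, mul_pow, inv_pow, inv_pow, pow_add, pow_add]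
      field_simp
    rw [h5, norm_smul, norm_pow, hnr]
    have h6 : r ^ (k + k') * ‖pv P' ((r : ℂ)⁻¹ * z) -
          ((r : ℂ)⁻¹ * z) ^ k' • (((r : ℂ)⁻¹ * z) ^ k • L z)‖ ≤
        r ^ (k + k') * (η₁ * ‖(r : ℂ)⁻¹ * z‖ ^ k') := by
      refine mul_le_mul_of_nonneg_left (h4.trans ?_) (pow_nonneg hr.le _)
      exact mul_le_mul_of_nonneg_right (min_le_right _ _) (pow_nonneg (norm_nonneg _) _)
    refine h6.trans ?_
    have h7 : ‖(r : ℂ)⁻¹ * z‖ = r⁻¹ * ‖z‖ := by rw [norm_mul, norm_inv, hnr]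
    rw [h7, mul_pow, inv_pow, pow_add, pow_add]
    have h8 : r ^ k * r ^ k' * (η₁ * ((r ^ k')⁻¹ * ‖z‖ ^ k')) = η₁ * (r ^ k * ‖z‖ ^ k') := by
      have : r ^ k' ≠ 0 := pow_ne_zero _ hr.ne'
      field_simp
    rw [h8]
    refine mul_le_mul_of_nonneg_left ?_ hη₁.le
    refine mul_le_mul_of_nonneg_right ?_ (pow_nonneg (norm_nonneg _) _)
    exact pow_le_pow_left₀ hr.le (by rw [hz]; exact hr'.le) _

/-- The vector polynomial in `z` and its conjugate. -/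
def pp {a : ℕ} (J : ℕ) (c : ℕ → ℕ → Vec a) (z : ℂ) : Vec a :=
  ∑ i ∈ Finset.range J, ∑ j ∈ Finset.range J, (z ^ i * (starRingEnd ℂ) z ^ j) • c i j

/-- The Laurent polynomial which agrees with `pp` on the circle of radius `r`. -/
def Lf {a : ℕ} (J : ℕ) (c : ℕ → ℕ → Vec a) (r : ℝ) (z : ℂ) : Vec a :=
  ∑ i ∈ Finset.range J, ∑ j ∈ Finset.range J, ((r : ℂ) ^ (2 * j) * z ^ i * (z ^ j)⁻¹) • c i j

/-- `z ^ J • Lf`. -/
def Gp {a : ℕ} (J : ℕ) (c : ℕ → ℕ → Vec a) (r : ℝ) (l : Fin (a + 1)) : Polynomial ℂ :=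
  ∑ i ∈ Finset.range J, ∑ j ∈ Finset.range J, C ((r : ℂ) ^ (2 * j) * c i j l) * X ^ (i + (J - j))

lemma Lf_Gp {a : ℕ} (J : ℕ) (c : ℕ → ℕ → Vec a) (r : ℝ) (z : ℂ) (hz : z ≠ 0) :
    z ^ J • Lf J c r z = pv (Gp J c r) z := by
  ext l
  simp only [Lf, Gp, pv, Pi.smul_apply, Finset.sum_apply, smul_eq_mul, eval_finsetSum, eval_mul,
    eval_C, eval_pow, eval_X, Finset.mul_sum]
  refine Finset.sum_congr rfl fun i _ => Finset.sum_congr rfl fun j hj => ?_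
  have hj' : j < J := Finset.mem_range.1 hj
  have h1 : z ^ J = z ^ (J - j) * z ^ j := by rw [← pow_add, Nat.sub_add_cancel hj'.le]
  have h2 : z ^ j ≠ 0 := pow_ne_zero _ hz
  rw [h1, pow_add]
  field_simp

lemma Lf_pp {a : ℕ} (J : ℕ) (c : ℕ → ℕ → Vec a) (r : ℝ) (z : ℂ) (hz : z ≠ 0) (h : ‖z‖ = r) :
    Lf J c r z = pp J c z := by
  unfold Lf pp
  refine Finset.sum_congr rfl fun i _ => Finset.sum_congr rfl fun j _ => ?_
  congr 1
  have h1 : (r : ℂ) ^ 2 = z * (starRingEnd ℂ) z := by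
    rw [Complex.mul_conj, Complex.normSq_eq_norm_sq, h]
    push_cast
    ring
  have h2 : z ^ j ≠ 0 := pow_ne_zero _ hz
  rw [pow_mul, h1, mul_pow]
  field_simp

lemma pp_cont {a : ℕ} (J : ℕ) (c : ℕ → ℕ → Vec a) : Continuous (pp J c) := by
  unfold pp
  have := Complex.continuous_conj
  fun_prop

lemma Lf_cont {a : ℕ} (J : ℕ) (c : ℕ → ℕ → Vec a) :
    ContinuousOn (fun q : ℝ × ℂ => Lf J c q.1 q.2) {q | q.2 ≠ 0} := by
  unfold Lf
  refine continuousOn_finsetSum _ fun i _ => continuousOn_finsetSum _ fun j _ => ?_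
  refine ContinuousOn.smul (f := fun q : ℝ × ℂ => ((q.1 : ℂ) ^ (2 * j) * q.2 ^ i * (q.2 ^ j)⁻¹))
    (g := fun _ => c i j) ?_ continuousOn_const
  refine ContinuousOn.mul ?_ ?_
  · have : Continuous (fun q : ℝ × ℂ => ((q.1 : ℂ) ^ (2 * j) * q.2 ^ i)) := by fun_prop
    exact this.continuousOn
  · refine ContinuousOn.inv₀ ?_ (fun q hq => pow_ne_zero _ hq)
    have : Continuous (fun q : ℝ × ℂ => (q.2 ^ j)) := by fun_prop
    exact this.continuousOn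

end CHA_

open CHA_ in
theorem p_CHA (h_BUO : T_BUO) (h_UNI : T_UNI) (h_BDS : T_BDS) (h_GST : T_GST) (h_APX : T_APX) :
    T_CHA := by
  intro a b O hO hc R σ w hR hσ hw hB O₀ hO₀ hs hσ0 ε hε
  obtain ⟨hB1, hB2, hB3⟩ := h_BUO a b O hc hO
  -- the compact set
  set K₀ : Set (Vec a × Vec b) := (fun z : ℂ => (σ z, w z)) '' Metric.closedBall 0 R with hK₀
  have hK₀c : IsCompact K₀ := (isCompact_closedBall (0 : ℂ) R).image (hσ.prodMk hw)
  have hK₀B : K₀ ⊆ Bub O := by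
    rintro _ ⟨z, hz, rfl⟩
    exact hB z (by simpa using hz)
  obtain ⟨ρ₀, hρ₀, hKB⟩ := hK₀c.exists_cthickening_subset_open hB1 hK₀B
  have hKc : IsCompact (Metric.cthickening ρ₀ K₀) := hK₀c.cthickening
  obtain ⟨M, ε₂, C₂, hM, hε₂, hBD⟩ := h_UNI a b O _ hO hc hKB hKc
  obtain ⟨η, hη, hG⟩ := h_GST a b O M ε₂ C₂ hO hc hM hε₂
  have hKmem : ∀ (z : ℂ) (v : Vec a), ‖z‖ ≤ R → ‖v - σ z‖ ≤ ρ₀ →
      (v, w z) ∈ Metric.cthickening ρ₀ K₀ := by
    intro z v hz hv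
    refine Metric.mem_cthickening_of_dist_le (v, w z) (σ z, w z) ρ₀ K₀ ⟨z, by simpa using hz, rfl⟩ ?_
    rw [Prod.dist_eq]
    simp only [dist_self]
    rw [dist_eq_norm]
    exact max_le hv hρ₀.le
  obtain ⟨ε₄, hε₄, hball⟩ := Metric.isOpen_iff.1 hO₀ _ hσ0
  set η₁ : ℝ := min η ε / 2 with hη₁
  have hη₁0 : 0 < η₁ := by
    have := lt_min hη hε
    linarith
  set ε₁ : ℝ := min (min (ρ₀ / 4) (η₁ / 4)) (ε₄ / 2) with hε₁
  have hε₁0 : 0 < ε₁ := lt_min (lt_min (by linarith) (by linarith)) (by linarith)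
  have hε₁a : ε₁ ≤ ρ₀ / 4 := (min_le_left _ _).trans (min_le_left _ _)
  have hε₁b : ε₁ ≤ η₁ / 4 := (min_le_left _ _).trans (min_le_right _ _)
  have hε₁c : ε₁ ≤ ε₄ / 2 := min_le_right _ _
  have hη₁a : η₁ ≤ η / 2 := by
    have := min_le_left η ε
    linarith
  have hη₁b : η₁ ≤ ε / 2 := by
    have := min_le_right η ε
    linarith
  obtain ⟨J, c, hJ⟩ := h_APX a R σ hσ ε₁ hε₁0
  have hJ' : ∀ z : ℂ, ‖z‖ ≤ R → ‖σ z - pp J c z‖ ≤ ε₁ := hJ
  -- the first radius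
  have hcont0 := (pp_cont J c).continuousAt (x := (0 : ℂ))
  obtain ⟨δ₁, hδ₁, hδ₁'⟩ := Metric.continuousAt_iff.1 hcont0 ε₁ hε₁0
  set r₀ : ℝ := min δ₁ R / 2 with hr₀
  have hr₀0 : 0 < r₀ := by
    have := lt_min hδ₁ hR
    linarith
  have hr₀R : r₀ < R := by
    have := min_le_right δ₁ R
    linarith
  have hr₀δ : r₀ < δ₁ := by
    have := min_le_left δ₁ R
    linarith
  have hp0 : ∀ z : ℂ, ‖z‖ ≤ r₀ → ‖pp J c z - pp J c 0‖ ≤ ε₁ := by
    intro z hz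
    have := hδ₁' (x := z) (by
      rw [dist_zero_right]
      linarith)
    rw [dist_eq_norm] at this
    exact this.le
  have hS0 : St O w O₀ (pp J c) η₁ r₀ := by
    refine ⟨0, fun i => C (pp J c 0 i), ?_, ?_, ?_⟩
    · intro z hz
      have h1 : pv (fun i => C (pp J c 0 i)) z = pp J c 0 := by
        ext i
        simp [pv]
      rw [h1]
      refine hB3 (hKB (hKmem z _ (hz.trans hr₀R.le) ?_))
      have h2 : pp J c 0 - σ z = -(pp J c z - pp J c 0) - (σ z - pp J c z) := by abel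
      rw [h2]
      refine (norm_sub_le _ _).trans ?_
      rw [norm_neg]
      linarith [hp0 z hz, hJ' z (hz.trans hr₀R.le)]
    · have h1 : pv (fun i => C (pp J c 0 i)) 0 = pp J c 0 := by
        ext i
        simp [pv]
      rw [h1]
      refine hball ?_
      rw [Metric.mem_ball, dist_comm, dist_eq_norm]
      have := hJ' 0 (by rw [norm_zero]; exact hR.le)
      linarith
    · intro z hz
      have h1 : pv (fun i => C (pp J c 0 i)) z = pp J c 0 := by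
        ext i
        simp [pv]
      rw [h1, pow_zero, pow_zero, one_smul, mul_one, norm_sub_rev]
      linarith [hp0 z hz.le]
  -- uniform continuity
  set Q : Set (ℝ × ℂ) := Set.Icc r₀ R ×ˢ (Metric.closedBall (0 : ℂ) R ∩ {z | r₀ ≤ ‖z‖}) with hQ
  have hQc : IsCompact Q := isCompact_Icc.prod
    ((isCompact_closedBall (0 : ℂ) R).inter_right (isClosed_le continuous_const continuous_norm))
  have hQu : UniformContinuousOn (fun q : ℝ × ℂ => Lf J c q.1 q.2) Q := by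
    refine hQc.uniformContinuousOn_of_continuous ((Lf_cont J c).mono ?_)
    rintro ⟨r, z⟩ ⟨-, -, hz⟩ h0
    simp only [Set.mem_ofPred_eq] at hz
    simp only at h0
    rw [h0, norm_zero] at hz
    linarith
  obtain ⟨δ₀, hδ₀, hδ₀'⟩ := Metric.uniformContinuousOn_iff.1 hQu ε₁ hε₁0
  have hL : ∀ (r r' : ℝ) (z : ℂ), r₀ ≤ r → r ≤ R → r₀ ≤ r' → r' ≤ R → |r - r'| < δ₀ → r₀ ≤ ‖z‖ →
      ‖z‖ ≤ R → ‖Lf J c r z - Lf J c r' z‖ ≤ ε₁ := by
    intro r r' z h1 h2 h3 h4 h5 h6 h7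
    have := hδ₀' (r, z) ⟨⟨h1, h2⟩, by simpa using h7, h6⟩ (r', z) ⟨⟨h3, h4⟩, by simpa using h7, h6⟩ (by
      rw [Prod.dist_eq]
      simp only [dist_self]
      rw [Real.dist_eq]
      exact max_lt h5 hδ₀)
    rw [dist_eq_norm] at this
    exact this.le
  -- the step
  have hstep : ∀ r r' : ℝ, r₀ ≤ r → r < r' → r' ≤ R → r' - r < δ₀ → St O w O₀ (pp J c) η₁ r →
      St O w O₀ (pp J c) η₁ r' := by
    intro r r' h1 h2 h3 h4 h5
    have hclose : ∀ z : ℂ, r ≤ ‖z‖ → ‖z‖ ≤ r' → ‖pp J c z - Lf J c r' z‖ ≤ ε₁ := by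
      intro z hz1 hz2
      have hz0 : z ≠ 0 := by
        intro h
        rw [h, norm_zero] at hz1
        linarith
      rw [← Lf_pp J c ‖z‖ z hz0 rfl]
      refine hL _ _ z (h1.trans hz1) (hz2.trans h3) (h1.trans h2.le) h3 ?_ (h1.trans hz1)
        (hz2.trans h3)
      rw [abs_lt]
      constructor <;> linarith
    have hmem : ∀ z : ℂ, r ≤ ‖z‖ → ‖z‖ ≤ r' → (Lf J c r' z, w z) ∈ Metric.cthickening ρ₀ K₀ := by
      intro z hz1 hz2
      refine hKmem z _ (hz2.trans h3) ?_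
      have h6 : Lf J c r' z - σ z = -(pp J c z - Lf J c r' z) - (σ z - pp J c z) := by abel
      rw [h6]
      refine (norm_sub_le _ _).trans ?_
      rw [norm_neg]
      linarith [hclose z hz1 hz2, hJ' z (hz2.trans h3)]
    refine step h_BDS hc hM hε₂ hG w hw O₀ hO₀ hs (pp J c) (Lf J c r') J (Gp J c r')
      (fun x hx => Lf_Gp J c r' x hx) r r' (by linarith) h2 η₁ ε₁ (by linarith) hη₁0 ?_ ?_ ?_ ?_ h5
    · intro z hz
      exact hclose z hz.ge (by rw [hz]; exact h2.le)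
    · intro z hz
      refine Lf_pp J c r' z ?_ hz
      intro h
      rw [h, norm_zero] at hz
      linarith
    · intro z hz
      exact hBD (Lf J c r' z, w z) (hmem z hz.ge (by rw [hz]; exact h2.le))
    · intro z hz1 hz2
      exact hB3 (hKB (hmem z hz1 hz2))
  -- the iteration
  obtain ⟨m, hm⟩ := exists_nat_gt ((R - r₀) / δ₀)
  have hm0 : (0 : ℝ) < m := lt_trans (div_pos (by linarith) hδ₀) hm
  have hiter : ∀ l : ℕ, l ≤ m → St O w O₀ (pp J c) η₁ (r₀ + l * ((R - r₀) / m)) := by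
    intro l
    induction l with
    | zero =>
      intro _
      simpa using hS0
    | succ l ih =>
      intro hl
      have hd : 0 < (R - r₀) / m := div_pos (by linarith) hm0
      have hd2 : (R - r₀) / m < δ₀ := by
        rw [div_lt_iff₀ hδ₀] at hm
        rw [div_lt_iff₀ hm0]
        linarith
      have h6 : ((l + 1 : ℕ) : ℝ) ≤ m := by exact_mod_cast hl
      have h7 : ((l + 1 : ℕ) : ℝ) * ((R - r₀) / m) ≤ m * ((R - r₀) / m) :=
        mul_le_mul_of_nonneg_right h6 hd.le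
      rw [mul_div_cancel₀ _ hm0.ne'] at h7
      have h8 : ((l + 1 : ℕ) : ℝ) * ((R - r₀) / m) = l * ((R - r₀) / m) + (R - r₀) / m := by
        push_cast
        ring
      have h9 : (0 : ℝ) ≤ l * ((R - r₀) / m) := mul_nonneg (Nat.cast_nonneg _) hd.le
      exact hstep (r₀ + l * ((R - r₀) / m)) _ (by linarith) (by linarith) (by linarith)
        (by linarith) (ih (by omega))
  have hSR : St O w O₀ (pp J c) η₁ R := by
    have h6 := hiter m le_rfl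
    rw [mul_div_cancel₀ _ hm0.ne'] at h6
    have h7 : r₀ + (R - r₀) = R := by ring
    rwa [h7] at h6
  obtain ⟨k, P, f1, f2, f3⟩ := hSR
  refine ⟨k, P, f1, f2, fun z hz => ?_⟩
  have h8 : pv P z - z ^ k • σ z = (pv P z - z ^ k • pp J c z) - z ^ k • (σ z - pp J c z) := by
    rw [smul_sub]
    abel
  rw [h8]
  refine (norm_sub_le _ _).trans ?_
  rw [norm_smul, norm_pow]
  have h9 := f3 z hz
  have h10 : ‖z‖ ^ k * ‖σ z - pp J c z‖ ≤ ‖z‖ ^ k * ε₁ :=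
    mul_le_mul_of_nonneg_left (hJ' z hz.le) (pow_nonneg (norm_nonneg _) _)
  have h11 : 0 ≤ ‖z‖ ^ k := pow_nonneg (norm_nonneg _) _
  nlinarith

end Pool.Agent.ARC
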