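import Pool.Agent.ARC.Targets5
import Pool.Agent.ARC.P_CHA

set_option autoImplicit false

/-!
# ARC: approximation of a continuous family on an annulus (CHB)
-/

noncomputable section

open Filter Topology Polynomial

namespace Pool.Agent.ARC

namespace CHB_

open CHA_

/-- The state of the induction on the outer radius. -/
def St {a b : ℕ} (O : Set (Vec a × Vec b)) (w : ℂ → Vec b) (pp : ℂ → Vec a)
    (J : ℕ) (R₀ η₁ r β : ℝ) (km : ℕ) : Prop :=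
  ∃ (k : ℕ) (γ : ℝ) (P : Fin (a + 1) → Polynomial ℂ), km ≤ k ∧ 0 < γ ∧
    (∀ z : ℂ, R₀ ≤ ‖z‖ → ‖z‖ ≤ r → (pv P z, w z) ∈ O) ∧
    (∀ z : ℂ, ‖z‖ = R₀ → ‖pv P z - z ^ J • pp z‖ ≤ β * ‖z‖ ^ J) ∧
    ∀ z : ℂ, ‖z‖ = r → ‖pv P z - ((γ : ℂ) * z ^ k) • pp z‖ ≤ η₁ * (γ * ‖z‖ ^ k)

lemma step (h_BDS : T_BDS) {a b : ℕ} {O : Set (Vec a × Vec b)} (hc : Conic O) {M : ℕ}
    {ε₂ C₂ η : ℝ} (hM : 2 ≤ M) (hε₂ : 0 < ε₂)
    (hG : ∀ (W : ℂ → Vec b) (L : ℂ → Vec a) (J : ℕ)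
      (G P : Fin (a + 1) → Polynomial ℂ), Continuous W → (∀ x : ℂ, x ≠ 0 → x ^ J • L x = pv G x) →
      (∀ x : ℂ, ‖x‖ = 1 → BD O M ε₂ C₂ (L x) (W x)) → ∀ R₂ : ℝ, 0 < R₂ → R₂ < 1 →
      (∀ x : ℂ, R₂ ≤ ‖x‖ → ‖x‖ ≤ 1 → (pv P x, W x) ∈ O) →
      (∀ x : ℂ, ‖x‖ = 1 → ‖pv P x - L x‖ ≤ η) →
      ∀ R₁ : ℝ, 1 < R₁ → (∀ x : ℂ, 1 ≤ ‖x‖ → ‖x‖ ≤ R₁ → (L x, W x) ∈ O) → ∀ ε' : ℝ, 0 < ε' →
      ∀ K : ℕ, ∃ (k : ℕ) (P' : Fin (a + 1) → Polynomial ℂ), K ≤ k ∧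
        (∀ x : ℂ, R₂ ≤ ‖x‖ → ‖x‖ ≤ R₁ → (pv P' x, W x) ∈ O) ∧
        (∀ x : ℂ, ‖x‖ ≤ R₂ → ‖pv P' x - pv P x‖ ≤ ε') ∧
        ∀ x : ℂ, ‖x‖ = R₁ → ‖pv P' x - x ^ k • L x‖ ≤ ε' * ‖x‖ ^ k)
    (w : ℂ → Vec b) (hw : Continuous w)
    (pp L : ℂ → Vec a) (J J' : ℕ) (G : Fin (a + 1) → Polynomial ℂ)
    (hLG : ∀ x : ℂ, x ≠ 0 → x ^ J • L x = pv G x) (R₀ r r' : ℝ) (hR₀ : 0 < R₀) (hr : R₀ < r)
    (hr' : r < r')
    (η₁ ε₁ β τ : ℝ) (hη : η₁ + ε₁ ≤ η) (hη₁ : 0 < η₁) (hτ : 0 < τ) (km km' : ℕ)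
    (hL1 : ∀ z : ℂ, ‖z‖ = r → ‖pp z - L z‖ ≤ ε₁) (hL2 : ∀ z : ℂ, ‖z‖ = r' → L z = pp z)
    (hBD : ∀ z : ℂ, ‖z‖ = r → BD O M ε₂ C₂ (L z) (w z))
    (hO : ∀ z : ℂ, r ≤ ‖z‖ → ‖z‖ ≤ r' → (L z, w z) ∈ O)
    (hS : St O w pp J' R₀ η₁ r β km) :
    St O w pp J' R₀ η₁ r' (β + τ) km' := by
  obtain ⟨k, γ, P, -, hγ, h1, h2, h3⟩ := hS
  have hr0 : 0 < r := hR₀.trans hr
  have hrc : (r : ℂ) ≠ 0 := by exact_mod_cast hr0.ne'
  have hγc : (γ : ℂ) ≠ 0 := by exact_mod_cast hγ.ne'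
  have hnr : ‖(r : ℂ)‖ = r := by rw [Complex.norm_real, Real.norm_of_nonneg hr0.le]
  have hnγ : ‖(γ : ℂ)‖ = γ := by rw [Complex.norm_real, Real.norm_of_nonneg hγ.le]
  have hnm : ∀ x : ℂ, ‖(r : ℂ) * x‖ = r * ‖x‖ := fun x => by rw [norm_mul, hnr]
  have hrk : (r : ℂ) ^ k ≠ 0 := pow_ne_zero _ hrc
  have hs0 : (γ : ℂ) * (r : ℂ) ^ k ≠ 0 := mul_ne_zero hγc hrk
  have hns : ‖(γ : ℂ) * (r : ℂ) ^ k‖ = γ * r ^ k := by rw [norm_mul, norm_pow, hnr, hnγ]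
  have hsp : 0 < γ * r ^ k := mul_pos hγ (pow_pos hr0 k)
  have hR₁ : 1 < r' / r := by
    rw [lt_div_iff₀ hr0]
    linarith
  have hR₂ : 0 < R₀ / r := div_pos hR₀ hr0
  have hR₂' : R₀ / r < 1 := by
    rw [div_lt_one hr0]
    exact hr
  have hε' : 0 < min (τ * R₀ ^ J' / (γ * r ^ k)) η₁ :=
    lt_min (div_pos (mul_pos hτ (pow_pos hR₀ _)) hsp) hη₁
  obtain ⟨k', P', g0, g1, g2, g3⟩ := hG (fun x => w ((r : ℂ) * x))
    (fun x => x ^ k • L ((r : ℂ) * x)) J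
    (fun i => X ^ k * (sc ((r : ℂ) ^ J)⁻¹ r G) i) (sc ((γ : ℂ) * (r : ℂ) ^ k)⁻¹ r P)
    (hw.comp (continuous_const.mul continuous_id))
    (by
      intro x hx
      have h4 := hLG ((r : ℂ) * x) (mul_ne_zero hrc hx)
      have h5 : pv (fun i => X ^ k * (sc ((r : ℂ) ^ J)⁻¹ r G) i) x =
          x ^ k • pv (sc ((r : ℂ) ^ J)⁻¹ r G) x := by
        ext i
        simp [pv]
      rw [h5, pv_sc, ← h4, smul_smul, smul_smul, smul_smul]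
      congr 1
      rw [mul_pow]
      field_simp)
    (by
      intro x hx
      have h4 := hBD ((r : ℂ) * x) (by rw [hnm, hx, mul_one])
      have h5 := ((h_BDS a b O M ε₂ C₂ (L ((r : ℂ) * x)) (L ((r : ℂ) * x)) (w ((r : ℂ) * x))
        (w ((r : ℂ) * x)) (x ^ k) 1 hc hM hε₂ h4).1 (by rw [norm_pow, hx, one_pow]) (by simp))
      rwa [one_smul] at h5)
    (R₀ / r) hR₂ hR₂'
    (by
      intro x hx0 hx
      rw [pv_sc]
      rw [div_le_iff₀ hr0] at hx0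
      have h4 := h1 ((r : ℂ) * x) (by rw [hnm]; linarith) (by
        rw [hnm]
        nlinarith [norm_nonneg x])
      have h5 := hc _ 1 _ _ (inv_ne_zero hs0) one_ne_zero h4
      rwa [one_smul] at h5)
    (by
      intro x hx
      rw [pv_sc]
      have h4 : ‖(r : ℂ) * x‖ = r := by rw [hnm, hx, mul_one]
      have h5 := h3 _ h4
      rw [h4] at h5
      have h6 : ((γ : ℂ) * (r : ℂ) ^ k)⁻¹ • pv P ((r : ℂ) * x) - x ^ k • L ((r : ℂ) * x) =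
          ((γ : ℂ) * (r : ℂ) ^ k)⁻¹ •
            (pv P ((r : ℂ) * x) - ((γ : ℂ) * ((r : ℂ) * x) ^ k) • pp ((r : ℂ) * x)) +
            x ^ k • (pp ((r : ℂ) * x) - L ((r : ℂ) * x)) := by
        have h7 : ((γ : ℂ) * (r : ℂ) ^ k)⁻¹ •
            (((γ : ℂ) * ((r : ℂ) * x) ^ k) • pp ((r : ℂ) * x)) = x ^ k • pp ((r : ℂ) * x) := by
          rw [smul_smul, mul_pow, ← mul_assoc, ← mul_assoc, mul_assoc (_⁻¹),
            inv_mul_cancel₀ hs0, one_mul]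
        rw [smul_sub, smul_sub, h7]
        abel
      rw [h6]
      refine (norm_add_le _ _).trans ?_
      rw [norm_smul, norm_smul, norm_inv, hns, norm_pow, hx, one_pow, one_mul]
      have h8 : (γ * r ^ k)⁻¹ *
          ‖pv P ((r : ℂ) * x) - ((γ : ℂ) * ((r : ℂ) * x) ^ k) • pp ((r : ℂ) * x)‖ ≤ η₁ := by
        rw [inv_mul_le_iff₀ hsp]
        linarith [h5]
      linarith [hL1 _ h4])
    (r' / r) hR₁
    (by
      intro x hx1 hx2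
      have h4 := hO ((r : ℂ) * x) (by rw [hnm]; nlinarith) (by
        rw [hnm]
        rw [le_div_iff₀ hr0] at hx2
        linarith)
      have hx0 : x ≠ 0 := by
        intro h
        rw [h, norm_zero] at hx1
        linarith
      have h5 := hc _ 1 _ _ (pow_ne_zero k hx0) one_ne_zero h4
      rwa [one_smul] at h5)
    (min (τ * R₀ ^ J' / (γ * r ^ k)) η₁) hε' km'
  have hni : ∀ z : ℂ, ‖(r : ℂ)⁻¹ * z‖ = ‖z‖ / r := fun z => by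
    rw [norm_mul, norm_inv, hnr, div_eq_inv_mul]
  refine ⟨k + k', γ * (r ^ k')⁻¹, sc ((γ : ℂ) * (r : ℂ) ^ k) (r : ℂ)⁻¹ P', by omega,
    mul_pos hγ (inv_pos.2 (pow_pos hr0 _)), ?_, ?_, ?_⟩
  · intro z hz0 hz
    have h4 := g1 ((r : ℂ)⁻¹ * z) (by
      rw [hni]
      exact div_le_div_of_nonneg_right hz0 hr0.le) (by
      rw [hni]
      exact div_le_div_of_nonneg_right hz hr0.le)
    rw [mul_inv_cancel_left₀ hrc] at h4
    have h5 := hc _ 1 _ _ hs0 one_ne_zero h4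
    rw [one_smul] at h5
    rw [pv_sc]
    exact h5
  · intro z hz
    have h4 := g2 ((r : ℂ)⁻¹ * z) (by rw [hni, hz])
    rw [pv_sc, mul_inv_cancel_left₀ hrc] at h4
    have h5 := h2 z hz
    have h6 : pv (sc ((γ : ℂ) * (r : ℂ) ^ k) (r : ℂ)⁻¹ P') z - z ^ J' • pp z =
        ((γ : ℂ) * (r : ℂ) ^ k) • (pv P' ((r : ℂ)⁻¹ * z) - ((γ : ℂ) * (r : ℂ) ^ k)⁻¹ • pv P z) +
          (pv P z - z ^ J' • pp z) := by
      rw [pv_sc, smul_sub, smul_inv_smul₀ hs0]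
      abel
    rw [h6]
    refine (norm_add_le _ _).trans ?_
    rw [norm_smul, hns, add_mul]
    have h7 : γ * r ^ k * ‖pv P' ((r : ℂ)⁻¹ * z) - ((γ : ℂ) * (r : ℂ) ^ k)⁻¹ • pv P z‖ ≤
        τ * ‖z‖ ^ J' := by
      rw [hz]
      have h8 := h4.trans (min_le_left _ _)
      rw [le_div_iff₀ hsp] at h8
      linarith
    linarith
  · intro z hz
    have h4 := g3 ((r : ℂ)⁻¹ * z) (by rw [hni, hz])
    rw [mul_inv_cancel_left₀ hrc] at h4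
    rw [pv_sc]
    have hrk' : (r : ℂ) ^ k' ≠ 0 := pow_ne_zero _ hrc
    have h5 : ((γ : ℂ) * (r : ℂ) ^ k) • pv P' ((r : ℂ)⁻¹ * z) -
        (((γ * (r ^ k')⁻¹ : ℝ) : ℂ) * z ^ (k + k')) • pp z =
        ((γ : ℂ) * (r : ℂ) ^ k) • (pv P' ((r : ℂ)⁻¹ * z) -
          ((r : ℂ)⁻¹ * z) ^ k' • (((r : ℂ)⁻¹ * z) ^ k • L z)) := by
      rw [smul_sub, hL2 z hz, smul_smul, smul_smul]
      congr 2
      push_cast
      rw [mul_pow, mul_pow, inv_pow, inv_pow, pow_add]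
      field_simp
    rw [h5, norm_smul, hns]
    have h6 : γ * r ^ k * ‖pv P' ((r : ℂ)⁻¹ * z) -
          ((r : ℂ)⁻¹ * z) ^ k' • (((r : ℂ)⁻¹ * z) ^ k • L z)‖ ≤
        γ * r ^ k * (η₁ * ‖(r : ℂ)⁻¹ * z‖ ^ k') := by
      refine mul_le_mul_of_nonneg_left (h4.trans ?_) hsp.le
      exact mul_le_mul_of_nonneg_right (min_le_right _ _) (pow_nonneg (norm_nonneg _) _)
    refine h6.trans ?_
    rw [hni, div_pow, pow_add]
    have h8 : γ * r ^ k * (η₁ * (‖z‖ ^ k' / r ^ k')) =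
        η₁ * (γ * (r ^ k')⁻¹ * (r ^ k * ‖z‖ ^ k')) := by
      have : r ^ k' ≠ 0 := pow_ne_zero _ hr0.ne'
      field_simp
    rw [h8]
    refine mul_le_mul_of_nonneg_left ?_ hη₁.le
    refine mul_le_mul_of_nonneg_left ?_ (mul_nonneg hγ.le (inv_nonneg.2 (pow_nonneg hr0.le _)))
    refine mul_le_mul_of_nonneg_right ?_ (pow_nonneg (norm_nonneg _) _)
    exact pow_le_pow_left₀ hr0.le (by rw [hz]; exact hr'.le) _

end CHB_

open CHA_ CHB_ in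
theorem p_CHB (h_BUO : T_BUO) (h_UNI : T_UNI) (h_BDS : T_BDS) (h_GSB : T_GSB) (h_APX : T_APX) :
    T_CHB := by
  intro a b O hO hc R₀ R σ w hR₀ hR hσ hw hB ε hε K
  obtain ⟨hB1, hB2, hB3⟩ := h_BUO a b O hc hO
  -- the compact set
  set A : Set ℂ := Metric.closedBall (0 : ℂ) R ∩ {z | R₀ ≤ ‖z‖} with hA
  have hAc : IsCompact A :=
    (isCompact_closedBall (0 : ℂ) R).inter_right (isClosed_le continuous_const continuous_norm)
  have hAm : ∀ z : ℂ, R₀ ≤ ‖z‖ → ‖z‖ ≤ R → z ∈ A := fun z h1 h2 => ⟨by simpa using h2, h1⟩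
  set K₀ : Set (Vec a × Vec b) := (fun z : ℂ => (σ z, w z)) '' A with hK₀
  have hK₀c : IsCompact K₀ := hAc.image (hσ.prodMk hw)
  have hK₀B : K₀ ⊆ Bub O := by
    rintro _ ⟨z, hz, rfl⟩
    exact hB z hz.2 (by simpa using hz.1)
  obtain ⟨ρ₀, hρ₀, hKB⟩ := hK₀c.exists_cthickening_subset_open hB1 hK₀B
  have hKc : IsCompact (Metric.cthickening ρ₀ K₀) := hK₀c.cthickening
  obtain ⟨M, ε₂, C₂, hM, hε₂, hBD⟩ := h_UNI a b O _ hO hc hKB hKc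
  obtain ⟨η, hη, hG⟩ := h_GSB a b O M ε₂ C₂ hO hc hM hε₂
  have hKmem : ∀ (z : ℂ) (v : Vec a), R₀ ≤ ‖z‖ → ‖z‖ ≤ R → ‖v - σ z‖ ≤ ρ₀ →
      (v, w z) ∈ Metric.cthickening ρ₀ K₀ := by
    intro z v hz0 hz hv
    refine Metric.mem_cthickening_of_dist_le (v, w z) (σ z, w z) ρ₀ K₀ ⟨z, hAm z hz0 hz, rfl⟩ ?_
    rw [Prod.dist_eq]
    simp only [dist_self]
    rw [dist_eq_norm]
    exact max_le hv hρ₀.le
  set η₁ : ℝ := min η ε / 2 with hη₁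
  have hη₁0 : 0 < η₁ := by
    have := lt_min hη hε
    linarith
  set ε₁ : ℝ := min (ρ₀ / 4) (η₁ / 4) with hε₁
  have hε₁0 : 0 < ε₁ := lt_min (by linarith) (by linarith)
  have hε₁a : ε₁ ≤ ρ₀ / 4 := min_le_left _ _
  have hε₁b : ε₁ ≤ η₁ / 4 := min_le_right _ _
  have hη₁a : η₁ ≤ η / 2 := by
    have := min_le_left η ε
    linarith
  have hη₁b : η₁ ≤ ε / 2 := by
    have := min_le_right η ε
    linarith
  obtain ⟨J, c, hJ⟩ := h_APX a R σ hσ ε₁ hε₁0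
  have hJ' : ∀ z : ℂ, ‖z‖ ≤ R → ‖σ z - pp J c z‖ ≤ ε₁ := hJ
  -- uniform continuity
  set Q : Set (ℝ × ℂ) := Set.Icc R₀ R ×ˢ A with hQ
  have hQc : IsCompact Q := isCompact_Icc.prod hAc
  have hQu : UniformContinuousOn (fun q : ℝ × ℂ => Lf J c q.1 q.2) Q := by
    refine hQc.uniformContinuousOn_of_continuous ((Lf_cont J c).mono ?_)
    rintro ⟨r, z⟩ ⟨-, -, hz⟩ h0
    simp only [Set.mem_ofPred_eq] at hz
    simp only at h0
    rw [h0, norm_zero] at hz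
    linarith
  obtain ⟨δ₀, hδ₀, hδ₀'⟩ := Metric.uniformContinuousOn_iff.1 hQu ε₁ hε₁0
  have hL : ∀ (r r' : ℝ) (z : ℂ), R₀ ≤ r → r ≤ R → R₀ ≤ r' → r' ≤ R → |r - r'| < δ₀ → R₀ ≤ ‖z‖ →
      ‖z‖ ≤ R → ‖Lf J c r z - Lf J c r' z‖ ≤ ε₁ := by
    intro r r' z h1 h2 h3 h4 h5 h6 h7
    have := hδ₀' (r, z) ⟨⟨h1, h2⟩, hAm z h6 h7⟩ (r', z) ⟨⟨h3, h4⟩, hAm z h6 h7⟩ (by
      rw [Prod.dist_eq]
      simp only [dist_self]
      rw [Real.dist_eq]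
      exact max_lt h5 hδ₀)
    rw [dist_eq_norm] at this
    exact this.le
  have hne : ∀ z : ℂ, R₀ ≤ ‖z‖ → z ≠ 0 := by
    intro z hz h
    rw [h, norm_zero] at hz
    linarith
  -- closeness of `Lf` with radius `s` on an annulus of width less than `δ₀`
  have hclose : ∀ (s : ℝ) (z : ℂ), R₀ ≤ s → s ≤ R → R₀ ≤ ‖z‖ → ‖z‖ ≤ R → |‖z‖ - s| < δ₀ →
      ‖pp J c z - Lf J c s z‖ ≤ ε₁ := by
    intro s z h1 h2 h3 h4 h5
    rw [← Lf_pp J c ‖z‖ z (hne z h3) rfl]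
    exact hL _ _ z h3 h4 h1 h2 h5 h3 h4
  have hmem : ∀ (s : ℝ) (z : ℂ), R₀ ≤ s → s ≤ R → R₀ ≤ ‖z‖ → ‖z‖ ≤ R → |‖z‖ - s| < δ₀ →
      (Lf J c s z, w z) ∈ Metric.cthickening ρ₀ K₀ := by
    intro s z h1 h2 h3 h4 h5
    refine hKmem z _ h3 h4 ?_
    have h6 : Lf J c s z - σ z = -(pp J c z - Lf J c s z) - (σ z - pp J c z) := by abel
    rw [h6]
    refine (norm_sub_le _ _).trans ?_
    rw [norm_neg]
    linarith [hclose s z h1 h2 h3 h4 h5, hJ' z h4]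
  -- the base
  have hS1 : ∀ r : ℝ, R₀ < r → r ≤ R → r - R₀ < δ₀ → St O w (pp J c) J R₀ η₁ r 0 J := by
    intro r h1 h2 h3
    refine ⟨J, 1, Gp J c R₀, le_rfl, one_pos, ?_, ?_, ?_⟩
    · intro z hz0 hz
      rw [← Lf_Gp J c R₀ z (hne z hz0)]
      have h4 := hB3 (hKB (hmem R₀ z le_rfl hR.le hz0 (hz.trans h2) (by
        rw [abs_lt]
        constructor <;> linarith)))
      have h5 := hc _ 1 _ _ (pow_ne_zero J (hne z hz0)) one_ne_zero h4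
      rwa [one_smul] at h5
    · intro z hz
      rw [← Lf_Gp J c R₀ z (hne z hz.ge), Lf_pp J c R₀ z (hne z hz.ge) hz, sub_self, norm_zero,
        zero_mul]
    · intro z hz
      have hz0 : R₀ ≤ ‖z‖ := by rw [hz]; exact h1.le
      rw [← Lf_Gp J c R₀ z (hne z hz0)]
      have h4 : z ^ J • Lf J c R₀ z - (((1 : ℝ) : ℂ) * z ^ J) • pp J c z =
          -(z ^ J • (pp J c z - Lf J c R₀ z)) := by
        rw [Complex.ofReal_one, one_mul, smul_sub]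
        abel
      rw [h4, norm_neg, norm_smul, norm_pow, one_mul, mul_comm]
      refine mul_le_mul_of_nonneg_right ?_ (pow_nonneg (norm_nonneg _) _)
      have h5 := hclose R₀ z le_rfl hR.le hz0 (by rw [hz]; exact h2) (by
        rw [hz, abs_lt]
        constructor <;> linarith)
      linarith
  -- the step
  have hstep : ∀ (r r' β τ : ℝ) (km : ℕ), R₀ < r → r < r' → r' ≤ R → r' - r < δ₀ → 0 < τ →
      St O w (pp J c) J R₀ η₁ r β km →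
      St O w (pp J c) J R₀ η₁ r' (β + τ) (J + K) := by
    intro r r' β τ km h1 h2 h3 h4 hτ h5
    have hab : ∀ z : ℂ, r ≤ ‖z‖ → ‖z‖ ≤ r' → |‖z‖ - r'| < δ₀ := by
      intro z hz1 hz2
      rw [abs_lt]
      constructor <;> linarith
    refine step h_BDS hc hM hε₂ hG w hw (pp J c) (Lf J c r') J J (Gp J c r')
      (fun x hx => Lf_Gp J c r' x hx) R₀ r r' hR₀ h1 h2 η₁ ε₁ β τ (by linarith) hη₁0 hτ km (J + K)
      ?_ ?_ ?_ ?_ h5
    · intro z hz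
      have hz1 : r ≤ ‖z‖ := hz.ge
      have hz2 : ‖z‖ ≤ r' := by rw [hz]; exact h2.le
      exact hclose r' z (by linarith) h3 (by linarith) (by linarith) (hab z hz1 hz2)
    · intro z hz
      exact Lf_pp J c r' z (hne z (by rw [hz]; linarith)) hz
    · intro z hz
      have hz1 : r ≤ ‖z‖ := hz.ge
      have hz2 : ‖z‖ ≤ r' := by rw [hz]; exact h2.le
      exact hBD (Lf J c r' z, w z)
        (hmem r' z (by linarith) h3 (by linarith) (by linarith) (hab z hz1 hz2))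
    · intro z hz1 hz2
      exact hB3 (hKB (hmem r' z (by linarith) h3 (by linarith) (by linarith) (hab z hz1 hz2)))
  -- the iteration
  obtain ⟨m, hm⟩ := exists_nat_gt ((R - R₀) / δ₀)
  have hm0 : (0 : ℝ) < m := lt_trans (div_pos (by linarith) hδ₀) hm
  have hm1 : (0 : ℝ) < (m : ℝ) + 1 := by linarith
  have hmn : m ≠ 0 := by
    rintro rfl
    simp at hm0
  set d : ℝ := (R - R₀) / (m + 1) with hd
  have hd0 : 0 < d := div_pos (by linarith) hm1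
  have hd1 : d < δ₀ := by
    rw [div_lt_iff₀ hδ₀] at hm
    rw [hd, div_lt_iff₀ hm1]
    nlinarith
  have hd2 : ((m : ℝ) + 1) * d = R - R₀ := by
    rw [hd, mul_div_cancel₀ _ hm1.ne']
  set τ : ℝ := ε / 2 / m with hτ
  have hτ0 : 0 < τ := div_pos (by linarith) hm0
  have hiter : ∀ l : ℕ, l ≤ m → St O w (pp J c) J R₀ η₁ (R₀ + (l + 1) * d) (l * τ)
      (if l = 0 then J else J + K) := by
    intro l
    induction l with
    | zero =>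
      intro _
      have h6 := hS1 (R₀ + d) (by linarith) (by nlinarith) (by linarith)
      simpa using h6
    | succ l ih =>
      intro hl
      have h6 : ((l + 1 : ℕ) : ℝ) + 1 ≤ m + 1 := by
        have : ((l + 1 : ℕ) : ℝ) ≤ m := by exact_mod_cast hl
        linarith
      have h7 : (((l + 1 : ℕ) : ℝ) + 1) * d ≤ (m + 1) * d := mul_le_mul_of_nonneg_right h6 hd0.le
      have h8 : (((l + 1 : ℕ) : ℝ) + 1) * d = ((l : ℝ) + 1) * d + d := by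
        push_cast
        ring
      have h9 : (0 : ℝ) < ((l : ℝ) + 1) * d := mul_pos (by positivity) hd0
      have h10 := hstep (R₀ + ((l : ℝ) + 1) * d) (R₀ + (((l + 1 : ℕ) : ℝ) + 1) * d) (l * τ) τ _
        (by linarith) (by linarith) (by linarith) (by linarith) hτ0 (ih (by omega))
      rw [if_neg (Nat.succ_ne_zero l)]
      have h11 : ((l + 1 : ℕ) : ℝ) * τ = l * τ + τ := by
        push_cast
        ring
      rw [h11]
      exact h10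
  have hSR := hiter m le_rfl
  rw [if_neg hmn, hd2] at hSR
  have h7 : R₀ + (R - R₀) = R := by ring
  rw [h7] at hSR
  obtain ⟨k, γ, P, f0, fγ, f1, f2, f3⟩ := hSR
  have hmτ : (m : ℝ) * τ = ε / 2 := by
    rw [hτ, mul_div_cancel₀ _ hm0.ne']
  rw [hmτ] at f2
  refine ⟨J, k, γ, P, f0, fγ, f1, fun z hz => ?_, fun z hz => ?_⟩
  · have h8 : pv P z - z ^ J • σ z = (pv P z - z ^ J • pp J c z) - z ^ J • (σ z - pp J c z) := by
      rw [smul_sub]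
      abel
    rw [h8]
    refine (norm_sub_le _ _).trans ?_
    rw [norm_smul, norm_pow]
    have h9 := f2 z hz
    have h10 : ‖z‖ ^ J * ‖σ z - pp J c z‖ ≤ ‖z‖ ^ J * ε₁ :=
      mul_le_mul_of_nonneg_left (hJ' z (by rw [hz]; exact hR.le)) (pow_nonneg (norm_nonneg _) _)
    have h11 : 0 ≤ ‖z‖ ^ J := pow_nonneg (norm_nonneg _) _
    nlinarith
  · have h8 : pv P z - ((γ : ℂ) * z ^ k) • σ z =
        (pv P z - ((γ : ℂ) * z ^ k) • pp J c z) - ((γ : ℂ) * z ^ k) • (σ z - pp J c z) := by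
      rw [smul_sub]
      abel
    rw [h8]
    refine (norm_sub_le _ _).trans ?_
    rw [norm_smul, norm_mul, norm_pow, Complex.norm_real, Real.norm_of_nonneg fγ.le]
    have h9 := f3 z hz
    have h11 : 0 ≤ γ * ‖z‖ ^ k := mul_nonneg fγ.le (pow_nonneg (norm_nonneg _) _)
    have h10 : γ * ‖z‖ ^ k * ‖σ z - pp J c z‖ ≤ γ * ‖z‖ ^ k * ε₁ :=
      mul_le_mul_of_nonneg_left (hJ' z hz.le) h11
    nlinarith

end Pool.Agent.ARC
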