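import Pool.Agent.ARC.Targets5

set_option autoImplicit false

/-!
# ARC, CHE: chains of elliptic curves
-/

namespace Pool.Agent.ARC

theorem p_CHE : T_CHE := by
  intro a b U
  refine ⟨fun x y h => ?_, fun x y z h1 h2 => ?_, fun V x y hUV h => ?_⟩
  · unfold ChainE at h ⊢
    induction h with
    | refl => exact Relation.ReflTransGen.refl
    | tail _ h2 ih =>
      obtain ⟨C, h3, h4, h5, h6⟩ := h2
      exact Relation.ReflTransGen.head ⟨C, h3, h4, h6, h5⟩ ih
  · exact Relation.ReflTransGen.trans h1 h2
  · unfold ChainE at h ⊢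
    induction h with
    | refl => exact Relation.ReflTransGen.refl
    | tail _ h2 ih =>
      obtain ⟨C, h3, h4, h5, h6⟩ := h2
      exact Relation.ReflTransGen.tail ih ⟨C, h3, h4.trans hUV, h5, h6⟩

end Pool.Agent.ARC
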