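import Pool.Agent.ARC.Targets

set_option autoImplicit false

/-!
# ARC: chains of rational curves are mapped to joined points
-/

namespace Pool.Agent.ARC

theorem p_CHN (h_JCU : T_JCU) (h_JTR : T_JTR) (h_SYM : T_SYM) : T_CHN := by
  intro a b c d X F f U u v hf hFX hFU hU hu hch
  have hF : HolOn F f := by
    intro x hx v₀ w₀ hv hw
    obtain ⟨O, G, H, h1, h2, h3, h4, h5⟩ := hf x (hFX hx) v₀ w₀ hv hw
    exact ⟨O, G, H, h1, h2, h3, h4, fun y hy => h5 y (hFX hy)⟩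
  have hr : Joined U (f u) (f u) := ⟨0, 0, (h_SYM c d U).2.1 (f u) (hFU ⟨u, hu, rfl⟩)⟩
  unfold ChainIn at hch
  induction hch with
  | refl => exact hr
  | tail _ hC ih =>
    obtain ⟨C, h1, h2, h3, h4⟩ := hC
    obtain ⟨p, q, hpq⟩ := ih
    obtain ⟨p', q', hpq'⟩ := h_JCU a b c d F C f U _ _ hF hFU h1 h2 h3 h4
    exact ⟨p + p', q + q', h_JTR c d p q p' q' U _ _ _ hU hpq hpq'⟩

end Pool.Agent.ARC
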