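import Pool.Agent.ARC.Targets

set_option autoImplicit false

/-!
# ARC: CHT, affine charts
-/

open Filter Topology

namespace Pool.Agent.ARC

namespace CHT_

theorem ratio (h_ISB : T_ISB) {a : ℕ} {v w : Vec a} {p : Projectivization ℂ (Vec a)}
    (i : Fin (a + 1)) (hv : Is v p) (hw : Is w p) : (w i)⁻¹ • w = (v i)⁻¹ • v := by
  obtain ⟨c, hc, rfl⟩ := (h_ISB a).2.2.2.2.1 v w p hv hw
  funext k
  simp only [Pi.smul_apply, smul_eq_mul, mul_inv]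
  field_simp

theorem ne_zero_of_is (h_ISB : T_ISB) {a : ℕ} {v w : Vec a} {p : Projectivization ℂ (Vec a)}
    {i : Fin (a + 1)} (hv : Is v p) (hw : Is w p) (hi : v i ≠ 0) : w i ≠ 0 := by
  obtain ⟨c, hc, rfl⟩ := (h_ISB a).2.2.2.2.1 v w p hv hw
  exact mul_ne_zero hc hi

end CHT_

open CHT_ in
theorem p_CHT (h_ISB : T_ISB) : T_CHT := by
  intro a b x₀
  obtain ⟨v₀, hv₀⟩ := (h_ISB a).1 x₀.1
  obtain ⟨w₀, hw₀⟩ := (h_ISB b).1 x₀.2
  obtain ⟨i, hi⟩ := Function.ne_iff.1 hv₀.1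
  obtain ⟨j, hj⟩ := Function.ne_iff.1 hw₀.1
  rw [Pi.zero_apply] at hi hj
  choose r hr using (h_ISB a).1
  choose r' hr' using (h_ISB b).1
  obtain ⟨N, hN⟩ : ∃ N : Set (PP a b), ∀ x, x ∈ N ↔ (∀ v, Is v x.1 → v i ≠ 0) ∧
      ∀ w, Is w x.2 → w j ≠ 0 :=
    ⟨{x | (∀ v, Is v x.1 → v i ≠ 0) ∧ ∀ w, Is w x.2 → w j ≠ 0}, fun x => Iff.rfl⟩
  have hcone : cone N = {z | z.1 i ≠ 0 ∧ z.2 j ≠ 0} := by
    ext z
    constructor
    · rintro ⟨x, hx, h1, h2⟩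
      exact ⟨((hN x).1 hx).1 _ h1, ((hN x).1 hx).2 _ h2⟩
    · rintro ⟨h1, h2⟩
      have h3 : z.1 ≠ 0 := fun h => h1 (by rw [h]; rfl)
      have h4 : z.2 ≠ 0 := fun h => h2 (by rw [h]; rfl)
      obtain ⟨p, hp⟩ := (h_ISB a).2.1 z.1 h3
      obtain ⟨q, hq⟩ := (h_ISB b).2.1 z.2 h4
      refine ⟨(p, q), (hN _).2 ⟨fun v hv => ne_zero_of_is h_ISB hp hv h1,
        fun w hw => ne_zero_of_is h_ISB hq hw h2⟩, hp, hq⟩
  have hopen : IsOpen {z : Vec a × Vec b | z.1 i ≠ 0 ∧ z.2 j ≠ 0} :=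
    (isOpen_ne_fun ((continuous_apply i).comp continuous_fst) continuous_const).inter
      (isOpen_ne_fun ((continuous_apply j).comp continuous_snd) continuous_const)
  have hNo : IsOpen N := by
    show IsOpen (cone N)
    rw [hcone]
    exact hopen
  refine ⟨i, j, N, fun x => (r x.1 i)⁻¹ • r x.1, fun x => (r' x.2 j)⁻¹ • r' x.2, hNo,
    (hN x₀).2 ⟨fun v hv => ne_zero_of_is h_ISB hv₀ hv hi,
      fun w hw => ne_zero_of_is h_ISB hw₀ hw hj⟩, hN, ?_, ?_, ?_⟩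
  · intro x hx
    have h1 := ((hN x).1 hx).1 _ (hr x.1)
    have h2 := ((hN x).1 hx).2 _ (hr' x.2)
    refine ⟨(h_ISB a).2.2.2.1 _ _ _ (inv_ne_zero h1) (hr x.1),
      (h_ISB b).2.2.2.1 _ _ _ (inv_ne_zero h2) (hr' x.2), ?_, ?_⟩
    · simp only [Pi.smul_apply, smul_eq_mul]
      exact inv_mul_cancel₀ h1
    · simp only [Pi.smul_apply, smul_eq_mul]
      exact inv_mul_cancel₀ h2
  · rw [continuousOn_open_iff hNo]
    intro t ht
    show IsOpen (cone _)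
    have h1 : cone (N ∩ (fun x : PP a b => (r x.1 i)⁻¹ • r x.1) ⁻¹' t) =
        {z : Vec a × Vec b | z.1 i ≠ 0 ∧ z.2 j ≠ 0} ∩ (fun z => (z.1 i)⁻¹ • z.1) ⁻¹' t := by
      rw [← hcone]
      ext z
      constructor
      · rintro ⟨x, ⟨hx, hx'⟩, h1, h2⟩
        refine ⟨⟨x, hx, h1, h2⟩, ?_⟩
        rw [Set.mem_preimage] at hx' ⊢
        rwa [ratio h_ISB i (hr x.1) h1]
      · rintro ⟨⟨x, hx, h1, h2⟩, h3⟩
        refine ⟨x, ⟨hx, ?_⟩, h1, h2⟩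
        rw [Set.mem_preimage] at h3 ⊢
        rwa [ratio h_ISB i (hr x.1) h1] at h3
    rw [h1]
    refine ContinuousOn.isOpen_inter_preimage ?_ hopen ht
    have h2 : ContinuousOn (fun z : Vec a × Vec b => (z.1 i)⁻¹) {z | z.1 i ≠ 0 ∧ z.2 j ≠ 0} :=
      ContinuousOn.inv₀ ((continuous_apply i).comp continuous_fst).continuousOn
        fun z hz => hz.1
    exact h2.smul continuous_fst.continuousOn
  · rw [continuousOn_open_iff hNo]
    intro t ht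
    show IsOpen (cone _)
    have h1 : cone (N ∩ (fun x : PP a b => (r' x.2 j)⁻¹ • r' x.2) ⁻¹' t) =
        {z : Vec a × Vec b | z.1 i ≠ 0 ∧ z.2 j ≠ 0} ∩ (fun z => (z.2 j)⁻¹ • z.2) ⁻¹' t := by
      rw [← hcone]
      ext z
      constructor
      · rintro ⟨x, ⟨hx, hx'⟩, h1, h2⟩
        refine ⟨⟨x, hx, h1, h2⟩, ?_⟩
        rw [Set.mem_preimage] at hx' ⊢
        rwa [ratio h_ISB j (hr' x.2) h2]
      · rintro ⟨⟨x, hx, h1, h2⟩, h3⟩
        refine ⟨x, ⟨hx, ?_⟩, h1, h2⟩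
        rw [Set.mem_preimage] at h3 ⊢
        rwa [ratio h_ISB j (hr' x.2) h2] at h3
    rw [h1]
    refine ContinuousOn.isOpen_inter_preimage ?_ hopen ht
    have h2 : ContinuousOn (fun z : Vec a × Vec b => (z.2 j)⁻¹) {z | z.1 i ≠ 0 ∧ z.2 j ≠ 0} :=
      ContinuousOn.inv₀ ((continuous_apply j).comp continuous_snd).continuousOn
        fun z hz => hz.2
    exact h2.smul continuous_snd.continuousOn

end Pool.Agent.ARC
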