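import Pool.Agent.ARC.Targets5

set_option autoImplicit false

/-!
# ARC: CLO, the closing condition
-/

noncomputable section

open Filter Topology

namespace Pool.Agent.ARC

namespace CLO_

/-- the square of the norm -/
def Nn {a : ℕ} (σ : ℂ → Vec a) (w : ℂ) : ℂ := ∑ i, (starRingEnd ℂ) (σ w i) * σ w i

/-- the scalar product -/
def Mm {a : ℕ} (σ : ℂ → Vec a) (q w : ℂ) : ℂ := ∑ i, (starRingEnd ℂ) (σ w i) * σ (q * w) i

theorem cont_i {a : ℕ} {σ : ℂ → Vec a} (h : Continuous σ) (i : Fin (a + 1)) :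
    Continuous fun w => σ w i := (continuous_apply i).comp h

theorem cont_N {a : ℕ} {σ : ℂ → Vec a} (h : Continuous σ) : Continuous (Nn σ) := by
  unfold Nn
  exact continuous_finsetSum _ fun i _ =>
    (Complex.continuous_conj.comp (cont_i h i)).mul (cont_i h i)

theorem cont_M {a : ℕ} {σ : ℂ → Vec a} (h : Continuous σ) (q : ℂ) : Continuous (Mm σ q) := by
  unfold Mm
  have h1 : Continuous fun w => σ (q * w) := h.comp (continuous_const.mul continuous_id)
  exact continuous_finsetSum _ fun i _ =>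
    (Complex.continuous_conj.comp (cont_i h i)).mul (cont_i h1 i)

theorem N_ne {a : ℕ} {σ : ℂ → Vec a} {w : ℂ} (h : σ w ≠ 0) : Nn σ w ≠ 0 := by
  have e : Nn σ w = ((∑ i, ‖σ w i‖ ^ 2 : ℝ) : ℂ) := by
    unfold Nn
    push_cast
    refine Finset.sum_congr rfl fun i _ => ?_
    rw [← Complex.conj_mul']
  rw [e]
  norm_cast
  intro h0
  apply h
  funext i
  have h1 := (Finset.sum_eq_zero_iff_of_nonneg (fun i _ => by positivity)).1 h0 i
    (Finset.mem_univ i)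
  simpa using h1

theorem M_eq {a : ℕ} {σ : ℂ → Vec a} {q w c : ℂ} (h : σ (q * w) = c • σ w) :
    Mm σ q w = c * Nn σ w := by
  unfold Mm Nn
  rw [h, Finset.mul_sum]
  refine Finset.sum_congr rfl fun i _ => ?_
  rw [Pi.smul_apply, smul_eq_mul]
  ring

/-- the cut-off function -/
def psi (R : ℝ) (w : ℂ) : ℝ := max 0 (min 1 ((R - ‖w‖) / (R - 1)))

theorem cont_psi (R : ℝ) : Continuous (psi R) :=
  continuous_const.max (continuous_const.min ((continuous_const.sub continuous_norm).div_const _))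

theorem psi_one {R : ℝ} (hR : 1 < R) {w : ℂ} (h : ‖w‖ = 1) : psi R w = 1 := by
  unfold psi
  rw [h, div_self (by linarith), min_self, max_eq_right zero_le_one]

theorem psi_zero {R : ℝ} {w : ℂ} (h : ‖w‖ = R) : psi R w = 0 := by
  unfold psi
  rw [h, sub_self, zero_div, min_eq_right zero_le_one, max_self]

/-- the argument -/
def arg' (R : ℝ) (q w : ℂ) : ℂ := R * (w / (‖w‖ : ℂ)) * ((‖q‖ : ℂ) / q)

theorem cont_arg (R : ℝ) (q : ℂ) : ContinuousOn (arg' R q) {w | w ≠ 0} := by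
  unfold arg'
  refine (continuousOn_const.mul (continuousOn_id.div ?_ ?_)).mul continuousOn_const
  · exact (Complex.continuous_ofReal.comp continuous_norm).continuousOn
  · intro w hw
    exact Complex.ofReal_ne_zero.2 (norm_ne_zero_iff.2 hw)

end CLO_

open CLO_

theorem p_CLO (h_LFA : T_LFA) (h_LOG : T_LOG) (h_ISB : T_ISB) (h_EXT : T_EXT) : T_CLO := by
  intro a b g q hq0 hq1 hg hper
  have hq : q ≠ 0 := norm_pos_iff.1 hq0
  obtain ⟨R, hR⟩ : ∃ R : ℝ, R = 1 / ‖q‖ := ⟨_, rfl⟩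
  have hR1 : 1 < R := by rw [hR, lt_div_iff₀ hq0]; linarith
  have hRq : R * ‖q‖ = 1 := by rw [hR, one_div, inv_mul_cancel₀ hq0.ne']
  have hRqC : (R : ℂ) * (‖q‖ : ℂ) = 1 := by exact_mod_cast hRq
  have hnorm : ∀ w : ℂ, ‖w‖ = R → ‖q * w‖ = 1 := by
    intro w hw
    rw [norm_mul, hw, mul_comm]
    exact hRq
  have hne : ∀ w : ℂ, ‖w‖ = R → w ≠ 0 := by
    intro w hw h0
    rw [h0, norm_zero] at hw
    linarith
  obtain ⟨σ₁, hσ, hIs⟩ := h_LFA a b g 1 R one_pos hR1 hg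
  have hc : ∀ w : ℂ, ‖w‖ = R → ∃ c : ℂ, c ≠ 0 ∧ σ₁ (q * w) = c • σ₁ w := by
    intro w hw
    have h1 := hIs w (by rw [hw]; exact hR1.le) hw.le
    have h2 := hIs (q * w) (by rw [hnorm w hw]) (by rw [hnorm w hw]; exact hR1.le)
    rw [hper w (hne w hw)] at h2
    exact (h_ISB a).2.2.2.2.1 _ _ _ h1 h2
  have hv : ∀ w : ℂ, ‖w‖ = R → σ₁ w ≠ 0 := by
    intro w hw
    obtain ⟨h1, -⟩ := hIs w (by rw [hw]; exact hR1.le) hw.le
    exact h1
  obtain ⟨d₁, μ₁, hμ₁, hM⟩ := h_LOG (Mm σ₁ q) R (by linarith) (cont_M hσ q) (by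
    intro w hw
    obtain ⟨c, hc0, hc1⟩ := hc w hw
    rw [M_eq hc1]
    exact mul_ne_zero hc0 (N_ne (hv w hw)))
  obtain ⟨d₂, μ₂, hμ₂, hN⟩ := h_LOG (Nn σ₁) R (by linarith) (cont_N hσ) (by
    intro w hw
    exact N_ne (hv w hw))
  have hθ : ∀ w : ℂ, ‖w‖ = R →
      σ₁ (q * w) = ((w / R) ^ (d₁ - d₂) * Complex.exp (μ₁ w - μ₂ w)) • σ₁ w := by
    intro w hw
    obtain ⟨c, -, hc1⟩ := hc w hw
    rw [hc1]
    congr 1
    have h1 := M_eq hc1
    have hN0 := N_ne (hv w hw)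
    have hwR : w / R ≠ 0 :=
      div_ne_zero (hne w hw) (Complex.ofReal_ne_zero.2 (by linarith))
    have h2 : c = Mm σ₁ q w / Nn σ₁ w := by rw [h1, mul_div_cancel_right₀ _ hN0]
    rw [h2, hM w hw, hN w hw, zpow_sub₀ hwR, Complex.exp_sub, mul_div_mul_comm]
  have hcont : ContinuousOn (fun w : ℂ =>
      Complex.exp (-(psi R w : ℂ) * (μ₁ (arg' R q w) - μ₂ (arg' R q w))) • σ₁ w)
      {w | w ≠ 0} := by
    have h1 : ContinuousOn (fun w : ℂ => -(psi R w : ℂ)) {w | w ≠ 0} :=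
      (Complex.continuous_ofReal.comp (cont_psi R)).neg.continuousOn
    have h2 : ContinuousOn (fun w : ℂ => μ₁ (arg' R q w) - μ₂ (arg' R q w)) {w | w ≠ 0} :=
      (hμ₁.sub hμ₂).comp_continuousOn (cont_arg R q)
    have h3 : ContinuousOn (fun w : ℂ =>
        Complex.exp (-(psi R w : ℂ) * (μ₁ (arg' R q w) - μ₂ (arg' R q w)))) {w | w ≠ 0} :=
      Complex.continuous_exp.comp_continuousOn (h1.mul h2)
    exact h3.smul hσ.continuousOn
  obtain ⟨σ, hσc, hσe⟩ := h_EXT a _ 1 one_pos hcont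
  refine ⟨d₁ - d₂, σ, hσc, ?_, ?_⟩
  · intro w hw1 hw2
    rw [hσe w hw1]
    refine (h_ISB a).2.2.2.1 _ _ _ (Complex.exp_ne_zero _) (hIs w hw1 ?_)
    rw [hR, le_div_iff₀ hq0, mul_comm]
    exact hw2
  · intro w hw
    have hwR : ‖w‖ = R := by
      rw [hR, eq_div_iff hq0.ne', mul_comm]
      exact hw
    have hqw := hnorm w hwR
    have e1 : arg' R q (q * w) = w := by
      unfold arg'
      rw [hqw, Complex.ofReal_one, div_one]
      have e : (R : ℂ) * (q * w) * ((‖q‖ : ℂ) / q) = ((R : ℂ) * (‖q‖ : ℂ)) * w := by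
        field_simp
      rw [e, hRqC, one_mul]
    rw [hσe w (by rw [hwR]; exact hR1.le), hσe (q * w) (by rw [hqw]), psi_one hR1 hqw,
      psi_zero hwR, e1, hθ w hwR, smul_smul]
    have e2 : w / R = (‖q‖ : ℂ) * w := by
      have hR0 : (R : ℂ) ≠ 0 := Complex.ofReal_ne_zero.2 (by linarith)
      rw [div_eq_iff hR0]
      linear_combination (-w) * hRqC
    rw [e2, Complex.ofReal_one, Complex.ofReal_zero, neg_zero, zero_mul, Complex.exp_zero,
      one_smul]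
    congr 1
    have e3 : Complex.exp (-1 * (μ₁ w - μ₂ w)) * Complex.exp (μ₁ w - μ₂ w) = 1 := by
      rw [← Complex.exp_add]
      have : -1 * (μ₁ w - μ₂ w) + (μ₁ w - μ₂ w) = 0 := by ring
      rw [this, Complex.exp_zero]
    linear_combination (((‖q‖ : ℂ) * w) ^ (d₁ - d₂)) * e3

end Pool.Agent.ARC
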