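import Pool.Agent.ARC.Targets

set_option autoImplicit false

namespace Pool.Agent.ARC

theorem p_CNC (h_ISB : T_ISB) : T_CNC := by
  intro a b U
  refine ⟨?_, ?_, ?_⟩
  · rintro x y v w hx hy ⟨z, hz, h1, h2⟩
    exact ⟨z, hz, (h_ISB a).2.2.2.1 v z.1 x hx h1, (h_ISB b).2.2.2.1 w z.2 y hy h2⟩
  · intro x v w h1 h2
    constructor
    · rintro ⟨z, hz, h3, h4⟩
      have : z = x := Prod.ext (is_unique h3 h1) (is_unique h4 h2)
      rwa [← this]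
    · intro hx
      exact ⟨x, hx, h1, h2⟩
  · rintro v w ⟨z, -, ⟨h1, -⟩, ⟨h2, -⟩⟩
    exact ⟨h1, h2⟩

end Pool.Agent.ARC
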