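import Pool.Agent.ARC.Targets

set_option autoImplicit false

/-!
# ARC: COM, compactness of the product of two projective spaces
-/

open Filter Topology

namespace Pool.Agent.ARC

namespace COM_

/-- the pairs of vectors of norm one -/
def Sp (a b : ℕ) : Set (Vec a × Vec b) := Metric.sphere 0 1 ×ˢ Metric.sphere 0 1

theorem ne {a b : ℕ} (z : Sp a b) : z.1.1 ≠ 0 ∧ z.1.2 ≠ 0 := by
  have h1 : ‖z.1.1‖ = 1 := by simpa using z.2.1
  have h2 : ‖z.1.2‖ = 1 := by simpa using z.2.2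
  constructor
  · intro h
    rw [h, norm_zero] at h1
    exact zero_ne_one h1
  · intro h
    rw [h, norm_zero] at h2
    exact zero_ne_one h2

/-- the projection -/
noncomputable def pr {a b : ℕ} (z : Sp a b) : PP a b :=
  (Projectivization.mk ℂ z.1.1 (ne z).1, Projectivization.mk ℂ z.1.2 (ne z).2)

theorem pr_mem {a b : ℕ} (z : Sp a b) (U : Set (PP a b)) : pr z ∈ U ↔ z.1 ∈ cone U := by
  constructor
  · intro h
    exact ⟨pr z, h, ⟨(ne z).1, rfl⟩, ⟨(ne z).2, rfl⟩⟩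
  · rintro ⟨x, hx, h1, h2⟩
    have : pr z = x := Prod.ext (is_unique ⟨(ne z).1, rfl⟩ h1) (is_unique ⟨(ne z).2, rfl⟩ h2)
    rw [this]
    exact hx

theorem pr_cont (a b : ℕ) : Continuous (pr : Sp a b → PP a b) := by
  refine continuous_def.2 fun U hU => ?_
  have h : (pr : Sp a b → PP a b) ⁻¹' U = Subtype.val ⁻¹' (cone U) := by
    ext z
    exact pr_mem z U
  rw [h]
  have hU' : IsOpen (cone U) := hU
  exact hU'.preimage continuous_subtype_val

theorem unit {a : ℕ} (p : Projectivization ℂ (Vec a)) :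
    ∃ v : Vec a, v ∈ Metric.sphere (0 : Vec a) 1 ∧ ∃ h : v ≠ 0, Projectivization.mk ℂ v h = p := by
  have h0 : p.rep ≠ 0 := p.rep_nonzero
  have hn : (‖p.rep‖ : ℂ) ≠ 0 := by
    exact_mod_cast (norm_ne_zero_iff.2 h0)
  have hv : ((‖p.rep‖ : ℂ))⁻¹ • p.rep ≠ 0 := smul_ne_zero (inv_ne_zero hn) h0
  refine ⟨((‖p.rep‖ : ℂ))⁻¹ • p.rep, ?_, hv, ?_⟩
  · rw [mem_sphere_zero_iff_norm, norm_smul, norm_inv, Complex.norm_real, norm_norm,
      inv_mul_cancel₀ (norm_ne_zero_iff.2 h0)]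
  · conv_rhs => rw [← p.mk_rep]
    rw [Projectivization.mk_eq_mk_iff']
    exact ⟨_, rfl⟩

theorem pr_surj (a b : ℕ) : Function.Surjective (pr : Sp a b → PP a b) := by
  rintro ⟨p, q⟩
  obtain ⟨v, hv, hv0, hvp⟩ := unit p
  obtain ⟨w, hw, hw0, hwq⟩ := unit q
  exact ⟨⟨(v, w), hv, hw⟩, Prod.ext hvp hwq⟩

end COM_

open COM_ in
theorem p_COM : T_COM := by
  intro a b
  have hc : IsCompact (Sp a b) := (isCompact_sphere _ _).prod (isCompact_sphere _ _)
  have : CompactSpace (Sp a b) := isCompact_iff_compactSpace.1 hc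
  exact (pr_surj a b).compactSpace (pr_cont a b)

end Pool.Agent.ARC
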