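import Pool.Agent.ARC.Targets

set_option autoImplicit false

noncomputable section

open Filter Topology

namespace Pool.Agent.ARC

theorem p_CON (h_CUR : T_CUR) (h_NZD : T_NZD) : T_CON := by
  intro a b c d X C f i hf hC hCX hne
  obtain ⟨p, q, A, B, hA, hB, rfl, -⟩ := hC
  have hpt : ∀ s t : ℂ, (s, t) ≠ (0, 0) → ∃ x ∈ curve p q A B,
      Is (vform p A s t) x.1 ∧ Is (vform q B s t) x.2 := by
    intro s t hst
    exact ⟨(Projectivization.mk ℂ _ (hA s t hst), Projectivization.mk ℂ _ (hB s t hst)),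
      ⟨s, t, hst, ⟨hA s t hst, rfl⟩, ⟨hB s t hst, rfl⟩⟩, ⟨hA s t hst, rfl⟩, ⟨hB s t hst, rfl⟩⟩
  obtain ⟨p', q', A', B', -, hB', h⟩ := h_CUR a b c d p q X f A B hf (fun s t hst => by
    obtain ⟨x, hx, h1, h2⟩ := hpt s t hst
    exact ⟨x, hCX hx, h1, h2⟩)
  have hq : q' = 0 := by
    refine h_NZD q' (B' i) (fun s t hst => ?_)
    obtain ⟨x, hx, h1, h2⟩ := hpt s t hst
    exact hne x hx _ (h s t x hst h1 h2).2
  subst hq
  have hconst : ∀ s t : ℂ, vform 0 B' s t = fun k => B' k 0 := by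
    intro s t
    funext k
    simp [vform, form]
  intro u hu v hv
  obtain ⟨s, t, hst, h1, h2⟩ := hu
  obtain ⟨s', t', hst', h1', h2'⟩ := hv
  have e1 := (h s t u hst h1 h2).2
  have e2 := (h s' t' v hst' h1' h2').2
  rw [hconst] at e1 e2
  exact is_unique e1 e2

end Pool.Agent.ARC
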