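import Pool.Agent.ARC.Targets2

set_option autoImplicit false

noncomputable section

open Filter Topology Polynomial

namespace Pool.Agent.ARC

namespace COR_

/-- The polynomial `(κ ω / n) ∑ X^i ω^(n-1-i)`. -/
def gp (κ : ℝ) (n : ℕ) (ω : ℂ) : Polynomial ℂ :=
  C ((κ : ℂ) * ω / n) * ∑ i ∈ Finset.range n, X ^ i * (C ω) ^ (n - 1 - i)

theorem gp_mul (κ : ℝ) (n : ℕ) (ω : ℂ) (hω : ω ^ n = -1) (x : ℂ) :
    (x - ω) * (gp κ n ω).eval x = ((κ : ℂ) * ω / n) * (1 + x ^ n) := by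
  have h := Commute.mul_geom_sum₂ (Commute.all x ω) n
  rw [hω] at h
  simp only [gp, eval_mul, eval_C, eval_finsetSum, eval_pow, eval_X]
  calc (x - ω) * (↑κ * ω / ↑n * ∑ i ∈ Finset.range n, x ^ i * ω ^ (n - 1 - i))
      = (↑κ * ω / ↑n) * ((x - ω) * ∑ i ∈ Finset.range n, x ^ i * ω ^ (n - 1 - i)) := by ring
    _ = _ := by rw [h]; ring

theorem gp_self (κ : ℝ) (n : ℕ) (hn : 1 ≤ n) (ω : ℂ) (hω : ω ^ n = -1) :
    (gp κ n ω).eval ω = -(κ : ℂ) := by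
  simp only [gp, eval_mul, eval_C, eval_finsetSum, eval_pow, eval_X]
  have h1 : ∀ i ∈ Finset.range n, ω ^ i * ω ^ (n - 1 - i) = ω ^ (n - 1) := by
    intro i hi
    rw [← pow_add]
    congr 1
    have := Finset.mem_range.mp hi
    omega
  rw [Finset.sum_congr rfl h1, Finset.sum_const, Finset.card_range, nsmul_eq_mul]
  have hn0 : (n : ℂ) ≠ 0 := by
    exact_mod_cast (by omega : n ≠ 0)
  have h2 : ω * ω ^ (n - 1) = ω ^ n := by
    rw [← pow_succ']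
    congr 1
    omega
  calc (κ : ℂ) * ω / n * (n * ω ^ (n - 1)) = κ * (ω * ω ^ (n - 1)) := by
        field_simp
    _ = -(κ : ℂ) := by rw [h2, hω]; ring

theorem gp_other (κ : ℝ) (n : ℕ) (ω ω' : ℂ) (hω : ω ^ n = -1) (hω' : ω' ^ n = -1)
    (hne : ω' ≠ ω) : (gp κ n ω).eval ω' = 0 := by
  have h := gp_mul κ n ω hω ω'
  rw [hω'] at h
  have h2 : (ω' - ω) * (gp κ n ω).eval ω' = 0 := by rw [h]; ring
  rcases mul_eq_zero.mp h2 with h3 | h3
  · exact absurd (sub_eq_zero.mp h3) hne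
  · exact h3

theorem gp_deg (κ : ℝ) (n : ℕ) (ω : ℂ) : (gp κ n ω).natDegree ≤ n - 1 := by
  unfold gp
  refine (natDegree_C_mul_le _ _).trans ?_
  refine natDegree_sum_le_of_forall_le _ _ ?_
  intro i hi
  have := Finset.mem_range.mp hi
  rw [← C_pow]
  refine (natDegree_mul_C_le _ _).trans ?_
  rw [natDegree_X_pow]
  omega

/-- The glued polynomials. -/
def gl {a : ℕ} (κ : ℝ) (n M J : ℕ) (G P : Fin (a + 1) → Polynomial ℂ) (Q : ℂ → ℕ → Vec a)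
    (i : Fin (a + 1)) : Polynomial ℂ :=
  (1 + X ^ n) ^ (M - 1) * (P i + X ^ (n - J) * G i) +
    ∑ ω ∈ rts n, ∑ j ∈ Finset.Icc 2 M, (1 + X ^ n) ^ (M - j) * (gp κ n ω) ^ j * C (Q ω j i)

theorem pv_gl {a : ℕ} (κ : ℝ) (n M J : ℕ) (G P : Fin (a + 1) → Polynomial ℂ)
    (Q : ℂ → ℕ → Vec a) (x : ℂ) :
    pv (gl κ n M J G P Q) x = (1 + x ^ n) ^ (M - 1) • (pv P x + x ^ (n - J) • pv G x) +
      ∑ ω ∈ rts n, ∑ j ∈ Finset.Icc 2 M,
        ((1 + x ^ n) ^ (M - j) * ((gp κ n ω).eval x) ^ j) • Q ω j := by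
  funext i
  simp only [pv, gl, eval_add, eval_mul, eval_pow, eval_one, eval_X, eval_finsetSum, eval_C,
    Pi.add_apply, Pi.smul_apply, smul_eq_mul, Finset.sum_apply]

/-- The small parameter. -/
def xi (κ : ℝ) (n : ℕ) (ω x : ℂ) : ℂ := (κ : ℂ) * ω / (n * (x - ω))

theorem gp_xi (κ : ℝ) (n : ℕ) (hn : 1 ≤ n) (ω x : ℂ) (hω : ω ^ n = -1) (hx : 1 + x ^ n ≠ 0) :
    (gp κ n ω).eval x = (1 + x ^ n) * xi κ n ω x := by
  have hne : x - ω ≠ 0 := by
    intro h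
    have : x = ω := sub_eq_zero.mp h
    rw [this, hω] at hx
    exact hx (by ring)
  have hn0 : (n : ℂ) ≠ 0 := by
    exact_mod_cast (by omega : n ≠ 0)
  have h := gp_mul κ n ω hω x
  have : (gp κ n ω).eval x = ((κ : ℂ) * ω / n) * (1 + x ^ n) / (x - ω) := by
    rw [eq_div_iff hne, ← h]; ring
  rw [this, xi]
  field_simp

theorem pv_gl_nonroot {a : ℕ} (κ : ℝ) (n M J : ℕ) (hn : 1 ≤ n) (hM : 2 ≤ M)
    (hr : ∀ ω ∈ rts n, ω ^ n = -1)
    (G P : Fin (a + 1) → Polynomial ℂ) (Q : ℂ → ℕ → Vec a) (x : ℂ) (hx : 1 + x ^ n ≠ 0) :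
    pv (gl κ n M J G P Q) x = (1 + x ^ n) ^ M •
      ((1 + x ^ n)⁻¹ • (pv P x + x ^ (n - J) • pv G x) +
      ∑ ω ∈ rts n, ∑ j ∈ Finset.Icc 2 M, (xi κ n ω x) ^ j • Q ω j) := by
  rw [pv_gl, smul_add ((1 + x ^ n) ^ M), Finset.smul_sum]
  congr 1
  · rw [smul_smul]
    congr 1
    have : M = (M - 1) + 1 := by omega
    conv_rhs => rw [this, pow_succ]
    field_simp
  · refine Finset.sum_congr rfl fun ω hω => ?_
    rw [Finset.smul_sum]
    refine Finset.sum_congr rfl fun j hj => ?_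
    rw [smul_smul, gp_xi κ n hn ω x (hr ω hω) hx, mul_pow, ← mul_assoc, ← pow_add]
    congr 3
    have := Finset.mem_Icc.mp hj
    omega

theorem pv_gl_root {a : ℕ} (κ : ℝ) (n M J : ℕ) (hn : 1 ≤ n) (hM : 2 ≤ M)
    (hr : ∀ ω ∈ rts n, ω ^ n = -1)
    (G P : Fin (a + 1) → Polynomial ℂ) (Q : ℂ → ℕ → Vec a) (x : ℂ) (hx : x ∈ rts n) :
    pv (gl κ n M J G P Q) x = (-(κ : ℂ)) ^ M • Q x M := by
  have hx0 : 1 + x ^ n = 0 := by rw [hr x hx]; ring
  rw [pv_gl, hx0, zero_pow (by omega), zero_smul, zero_add]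
  rw [Finset.sum_eq_single x]
  · rw [Finset.sum_eq_single M]
    · rw [Nat.sub_self, pow_zero, one_mul, gp_self κ n hn x (hr x hx)]
    · intro j hj hne
      have := Finset.mem_Icc.mp hj
      rw [zero_pow (by omega), zero_mul, zero_smul]
    · intro h
      exact absurd (Finset.mem_Icc.mpr ⟨hM, le_refl M⟩) h
  · intro ω hω hne
    refine Finset.sum_eq_zero fun j hj => ?_
    have := Finset.mem_Icc.mp hj
    have hj0 : j ≠ 0 := by omega
    rw [gp_other κ n ω x (hr ω hω) (hr x hx) hne.symm, zero_pow hj0, mul_zero, zero_smul]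
  · intro h
    exact absurd hx h

theorem gl_deg {a : ℕ} (κ : ℝ) (n M J D : ℕ) (hM : 2 ≤ M) (hJ : J ≤ n)
    (G P : Fin (a + 1) → Polynomial ℂ) (Q : ℂ → ℕ → Vec a) (i : Fin (a + 1))
    (hG : (G i).natDegree ≤ J + D) (hP : (P i).natDegree < n) :
    (gl κ n M J G P Q i).natDegree ≤ n * M + D ∧
    (gl κ n M J G P Q i).coeff (n * M + D) = (G i).coeff (J + D) := by
  have hn : 1 ≤ n := by omega
  obtain ⟨m, rfl⟩ : ∃ m, M = m + 2 := ⟨M - 2, by omega⟩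
  have hpow : ∀ k : ℕ, ((1 + X ^ n : Polynomial ℂ) ^ k).natDegree ≤ n * k := by
    intro k
    refine natDegree_pow_le.trans ?_
    rw [mul_comm n k]
    refine Nat.mul_le_mul_left k ?_
    refine (natDegree_add_le _ _).trans ?_
    rw [natDegree_one, natDegree_X_pow]
    omega
  have hX : (1 + X ^ n : Polynomial ℂ) = X ^ n + C 1 := by rw [C_1]; ring
  have hmon1 : (1 + X ^ n : Polynomial ℂ).Monic := by
    rw [hX]
    exact monic_X_pow_add_C (1 : ℂ) (by omega)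
  have hdeg1 : (1 + X ^ n : Polynomial ℂ).natDegree = n := by
    rw [hX]
    exact natDegree_X_pow_add_C
  have hmon : ∀ k : ℕ, ((1 + X ^ n : Polynomial ℂ) ^ k).coeff (n * k) = 1 := by
    intro k
    have h1 := (hmon1.pow k).coeff_natDegree
    rw [hmon1.natDegree_pow, hdeg1, mul_comm] at h1
    exact h1
  have e1 : m + 2 - 1 = m + 1 := by omega
  -- the pieces
  have hA : ((1 + X ^ n : Polynomial ℂ) ^ (m + 1) * P i).natDegree < n * (m + 2) + D := by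
    have h1 := natDegree_mul_le (p := (1 + X ^ n : Polynomial ℂ) ^ (m + 1)) (q := P i)
    have h2 := hpow (m + 1)
    have h3 : n * (m + 2) = n * (m + 1) + n := by ring
    omega
  have hB1 : ((1 + X ^ n : Polynomial ℂ) ^ (m + 1) * X ^ (n - J)).natDegree
      ≤ n * (m + 1) + (n - J) := by
    have h1 := natDegree_mul_le (p := (1 + X ^ n : Polynomial ℂ) ^ (m + 1))
      (q := (X ^ (n - J) : Polynomial ℂ))
    have h2 := hpow (m + 1)
    rw [natDegree_X_pow] at h1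
    omega
  have hB2 : ((1 + X ^ n : Polynomial ℂ) ^ (m + 1) * X ^ (n - J)).coeff
      (n * (m + 1) + (n - J)) = 1 := by
    rw [coeff_mul_add_eq_of_natDegree_le (hpow (m + 1)) (by rw [natDegree_X_pow]), hmon, coeff_X_pow_self,
      one_mul]
  have hidx : n * (m + 1) + (n - J) + (J + D) = n * (m + 2) + D := by
    have h3 : n * (m + 2) = n * (m + 1) + n := by ring
    omega
  have hB3 : ((1 + X ^ n : Polynomial ℂ) ^ (m + 1) * X ^ (n - J) * G i).natDegree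
      ≤ n * (m + 2) + D := by
    rw [← hidx]
    exact natDegree_mul_le.trans (Nat.add_le_add hB1 hG)
  have hB4 : ((1 + X ^ n : Polynomial ℂ) ^ (m + 1) * X ^ (n - J) * G i).coeff (n * (m + 2) + D)
      = (G i).coeff (J + D) := by
    rw [← hidx, coeff_mul_add_eq_of_natDegree_le hB1 hG, hB2, one_mul]
  have hC : ∀ ω : ℂ, ∀ j ∈ Finset.Icc 2 (m + 2),
      ((1 + X ^ n) ^ (m + 2 - j) * (gp κ n ω) ^ j * C (Q ω j i)).natDegree
        < n * (m + 2) + D := by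
    intro ω j hj
    have hj' := Finset.mem_Icc.mp hj
    have h1 := natDegree_mul_C_le ((1 + X ^ n : Polynomial ℂ) ^ (m + 2 - j) * (gp κ n ω) ^ j)
      (Q ω j i)
    have h2 := natDegree_mul_le (p := (1 + X ^ n : Polynomial ℂ) ^ (m + 2 - j))
      (q := (gp κ n ω) ^ j)
    have h3 := hpow (m + 2 - j)
    have h4 : ((gp κ n ω) ^ j).natDegree ≤ j * (n - 1) :=
      natDegree_pow_le.trans (Nat.mul_le_mul_left j (gp_deg κ n ω))
    have h5 : n * (m + 2 - j) + j * (n - 1) + j = n * (m + 2) := by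
      obtain ⟨k, hk⟩ : ∃ k, m + 2 = j + k := ⟨m + 2 - j, by omega⟩
      obtain ⟨l, rfl⟩ : ∃ l, n = l + 1 := ⟨n - 1, by omega⟩
      rw [hk, Nat.add_sub_cancel_left, Nat.add_sub_cancel]
      ring
    omega
  have hS : (∑ ω ∈ rts n, ∑ j ∈ Finset.Icc 2 (m + 2),
      (1 + X ^ n) ^ (m + 2 - j) * (gp κ n ω) ^ j * C (Q ω j i)).natDegree
        ≤ n * (m + 2) + D - 1 := by
    refine natDegree_sum_le_of_forall_le _ _ fun ω _ => ?_
    refine natDegree_sum_le_of_forall_le _ _ fun j hj => ?_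
    have := hC ω j hj
    omega
  have hpos : 1 ≤ n * (m + 2) := Nat.mul_pos (by omega) (by omega)
  have key : gl κ n (m + 2) J G P Q i = (1 + X ^ n) ^ (m + 1) * P i +
      (1 + X ^ n) ^ (m + 1) * X ^ (n - J) * G i + ∑ ω ∈ rts n, ∑ j ∈ Finset.Icc 2 (m + 2),
      (1 + X ^ n) ^ (m + 2 - j) * (gp κ n ω) ^ j * C (Q ω j i) := by
    unfold gl
    rw [e1]
    ring
  rw [key]
  constructor
  · refine (natDegree_add_le _ _).trans (max_le ((natDegree_add_le _ _).trans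
      (max_le hA.le hB3)) ?_)
    omega
  · rw [coeff_add, coeff_add, hB4, coeff_eq_zero_of_natDegree_lt hA,
      coeff_eq_zero_of_natDegree_lt (lt_of_le_of_lt hS (by omega))]
    ring

theorem norm_xi (κ : ℝ) (hκ : 0 ≤ κ) (n : ℕ) (ω x : ℂ) (hω : ‖ω‖ = 1) :
    ‖xi κ n ω x‖ = κ * (1 / (n * ‖x - ω‖)) := by
  unfold xi
  rw [norm_div, norm_mul, norm_mul, hω, Complex.norm_real, Real.norm_of_nonneg hκ,
    Complex.norm_natCast]
  ring

theorem sum_bound {a : ℕ} (S : Finset ℂ) (M : ℕ) (C : ℝ) (hC : 0 ≤ C) (Q : ℂ → ℕ → Vec a)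
    (ξ : ℂ → ℂ) (hQ : ∀ ω ∈ S, ∀ j, ‖Q ω j‖ ≤ C) (hξ : ∀ ω ∈ S, ‖ξ ω‖ ≤ 1) :
    ‖∑ ω ∈ S, ∑ j ∈ Finset.Icc 2 M, (ξ ω) ^ j • Q ω j‖ ≤ M * C * ∑ ω ∈ S, ‖ξ ω‖ ^ 2 := by
  rw [Finset.mul_sum]
  refine (norm_sum_le _ _).trans (Finset.sum_le_sum fun ω hω => ?_)
  refine (norm_sum_le _ _).trans ?_
  have h1 : ∀ j ∈ Finset.Icc 2 M, ‖(ξ ω) ^ j • Q ω j‖ ≤ C * ‖ξ ω‖ ^ 2 := by
    intro j hj
    have hj' := Finset.mem_Icc.mp hj
    rw [norm_smul, norm_pow, mul_comm]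
    exact mul_le_mul (hQ ω hω j) (pow_le_pow_of_le_one (norm_nonneg _) (hξ ω hω) hj'.1)
      (by positivity) hC
  refine (Finset.sum_le_card_nsmul _ _ _ h1).trans ?_
  rw [nsmul_eq_mul, Nat.card_Icc]
  have h2 : ((M + 1 - 2 : ℕ) : ℝ) ≤ M := by
    exact_mod_cast (by omega : M + 1 - 2 ≤ M)
  calc ((M + 1 - 2 : ℕ) : ℝ) * (C * ‖ξ ω‖ ^ 2) ≤ M * (C * ‖ξ ω‖ ^ 2) :=
        mul_le_mul_of_nonneg_right h2 (by positivity)
    _ = M * C * ‖ξ ω‖ ^ 2 := by ring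

theorem far_bound {a : ℕ} (n M : ℕ) (hn : 1 ≤ n) (κ C δ : ℝ) (hκ : 0 ≤ κ) (hC : 0 ≤ C)
    (hδ : 0 < δ) (hκδ : κ / (n * δ) ≤ 1) (hcard : (rts n).card ≤ n) (hr : ∀ ω ∈ rts n, ‖ω‖ = 1)
    (Q : ℂ → ℕ → Vec a) (hQ : ∀ ω ∈ rts n, ∀ j, ‖Q ω j‖ ≤ C) (x : ℂ)
    (hx : ∀ ω ∈ rts n, δ ≤ ‖x - ω‖) :
    ‖∑ ω ∈ rts n, ∑ j ∈ Finset.Icc 2 M, (xi κ n ω x) ^ j • Q ω j‖ ≤
      M * C * κ ^ 2 / δ ^ 2 / n := by
  have hn0 : (0 : ℝ) < n := by exact_mod_cast hn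
  have h1 : ∀ ω ∈ rts n, ‖xi κ n ω x‖ ≤ κ / (n * δ) := by
    intro ω hω
    rw [norm_xi κ hκ n ω x (hr ω hω), div_eq_mul_one_div κ]
    refine mul_le_mul_of_nonneg_left ?_ hκ
    exact one_div_le_one_div_of_le (by positivity) (mul_le_mul_of_nonneg_left (hx ω hω) hn0.le)
  refine (sum_bound (rts n) M C hC Q (fun ω => xi κ n ω x) hQ
    fun ω hω => (h1 ω hω).trans hκδ).trans ?_
  have h2 : ∑ ω ∈ rts n, ‖xi κ n ω x‖ ^ 2 ≤ n * (κ / (n * δ)) ^ 2 := by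
    refine (Finset.sum_le_card_nsmul _ _ ((κ / (n * δ)) ^ 2) fun ω hω =>
      pow_le_pow_left₀ (norm_nonneg _) (h1 ω hω) 2).trans ?_
    rw [nsmul_eq_mul]
    exact mul_le_mul_of_nonneg_right (by exact_mod_cast hcard) (by positivity)
  calc M * C * ∑ ω ∈ rts n, ‖xi κ n ω x‖ ^ 2 ≤ M * C * (n * (κ / (n * δ)) ^ 2) :=
        mul_le_mul_of_nonneg_left h2 (by positivity)
    _ = M * C * κ ^ 2 / δ ^ 2 / n := by
        field_simp

theorem inside {a : ℕ} (n J : ℕ) (P G : Fin (a + 1) → Polynomial ℂ) (ρ K : ℝ) (hρ : 0 ≤ ρ)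
    (hρn : ρ ^ n ≤ 1 / 2) (x : ℂ) (hx : ‖x‖ ≤ ρ) (hP : ‖pv P x‖ ≤ K) (hG : ‖pv G x‖ ≤ K) :
    1 + x ^ n ≠ 0 ∧ ‖(1 + x ^ n)⁻¹ • (pv P x + x ^ (n - J) • pv G x) - pv P x‖ ≤
      2 * K * (ρ ^ n + ρ ^ (n - J)) := by
  have h1 : ‖x ^ n‖ ≤ ρ ^ n := by
    rw [norm_pow]
    exact pow_le_pow_left₀ (norm_nonneg _) hx n
  have h2 : 1 / 2 ≤ ‖1 + x ^ n‖ := by
    have := norm_sub_norm_le (1 : ℂ) (-(x ^ n))
    rw [norm_neg, sub_neg_eq_add, norm_one] at this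
    linarith
  have h3 : 1 + x ^ n ≠ 0 := by
    intro h
    rw [h, norm_zero] at h2
    linarith
  refine ⟨h3, ?_⟩
  have h4 : (1 + x ^ n)⁻¹ • (pv P x + x ^ (n - J) • pv G x) - pv P x =
      (1 + x ^ n)⁻¹ • (x ^ (n - J) • pv G x - x ^ n • pv P x) := by
    have h5 : pv P x = (1 + x ^ n)⁻¹ • ((1 + x ^ n) • pv P x) := by
      rw [smul_smul, inv_mul_cancel₀ h3, one_smul]
    conv_lhs => rw [h5]
    rw [← smul_sub]
    congr 1
    rw [smul_smul, inv_mul_cancel₀ h3, one_smul, add_smul, one_smul]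
    abel
  rw [h4, norm_smul, norm_inv]
  have h6 : ‖1 + x ^ n‖⁻¹ ≤ 2 := by
    rw [inv_le_comm₀ (by linarith) (by norm_num)]
    linarith
  have hK : 0 ≤ K := (norm_nonneg _).trans hP
  have h7 : ‖x ^ (n - J) • pv G x - x ^ n • pv P x‖ ≤ K * (ρ ^ n + ρ ^ (n - J)) := by
    refine (norm_sub_le _ _).trans ?_
    rw [norm_smul, norm_smul]
    have h8 : ‖x ^ (n - J)‖ ≤ ρ ^ (n - J) := by
      rw [norm_pow]
      exact pow_le_pow_left₀ (norm_nonneg _) hx _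
    have h9 : ‖x ^ (n - J)‖ * ‖pv G x‖ ≤ ρ ^ (n - J) * K :=
      mul_le_mul h8 hG (norm_nonneg _) (by positivity)
    have h10 : ‖x ^ n‖ * ‖pv P x‖ ≤ ρ ^ n * K := mul_le_mul h1 hP (norm_nonneg _) (by positivity)
    linarith
  calc ‖1 + x ^ n‖⁻¹ * ‖x ^ (n - J) • pv G x - x ^ n • pv P x‖
      ≤ 2 * (K * (ρ ^ n + ρ ^ (n - J))) := mul_le_mul h6 h7 (norm_nonneg _) (by norm_num)
    _ = 2 * K * (ρ ^ n + ρ ^ (n - J)) := by ring

theorem outside {a : ℕ} (n N : ℕ) (hN : N ≤ n) (p l : Vec a) (ρ K : ℝ) (hρ : 1 < ρ)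
    (hρn : 2 ≤ ρ ^ n) (x : ℂ) (hx : ρ ≤ ‖x‖) (hP : ‖p‖ ≤ K * ‖x‖ ^ N) (hL : ‖l‖ ≤ K * ‖x‖ ^ N) :
    1 + x ^ n ≠ 0 ∧ ‖(1 + x ^ n)⁻¹ • (p + x ^ n • l) - l‖ ≤ 4 * K * (ρ⁻¹) ^ (n - N) := by
  have hx1 : 1 < ‖x‖ := lt_of_lt_of_le hρ hx
  have hx0 : 0 < ‖x‖ := by linarith
  have h1 : ρ ^ n ≤ ‖x‖ ^ n := pow_le_pow_left₀ (by linarith) hx n
  have h2 : ‖x‖ ^ n / 2 ≤ ‖1 + x ^ n‖ := by
    have := norm_sub_norm_le (x ^ n) (-(1 : ℂ))
    rw [norm_neg, sub_neg_eq_add, norm_one, norm_pow, add_comm] at this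
    linarith
  have hpos : 0 < ‖x‖ ^ n := by positivity
  have h3 : 1 + x ^ n ≠ 0 := by
    intro h
    rw [h, norm_zero] at h2
    linarith
  refine ⟨h3, ?_⟩
  have h4 : (1 + x ^ n)⁻¹ • (p + x ^ n • l) - l = (1 + x ^ n)⁻¹ • (p - l) := by
    have h5 : l = (1 + x ^ n)⁻¹ • ((1 + x ^ n) • l) := by
      rw [smul_smul, inv_mul_cancel₀ h3, one_smul]
    have h6 : (1 + x ^ n)⁻¹ • (p + x ^ n • l) - l =
        (1 + x ^ n)⁻¹ • (p + x ^ n • l) - (1 + x ^ n)⁻¹ • ((1 + x ^ n) • l) := by rw [← h5]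
    rw [h6, ← smul_sub]
    congr 1
    rw [add_smul, one_smul]
    abel
  rw [h4, norm_smul, norm_inv]
  have h6 : ‖1 + x ^ n‖⁻¹ ≤ 2 * (‖x‖ ^ n)⁻¹ := by
    calc ‖1 + x ^ n‖⁻¹ ≤ (‖x‖ ^ n / 2)⁻¹ := inv_anti₀ (by positivity) h2
      _ = 2 * (‖x‖ ^ n)⁻¹ := by rw [inv_div, div_eq_mul_inv]
  have h7 : ‖p - l‖ ≤ 2 * K * ‖x‖ ^ N := by
    refine (norm_sub_le _ _).trans ?_
    linarith
  have hK : 0 ≤ K := by
    have : 0 ≤ K * ‖x‖ ^ N := (norm_nonneg _).trans hP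
    exact nonneg_of_mul_nonneg_left this (by positivity)
  calc ‖1 + x ^ n‖⁻¹ * ‖p - l‖ ≤ (2 * (‖x‖ ^ n)⁻¹) * (2 * K * ‖x‖ ^ N) :=
        mul_le_mul h6 h7 (norm_nonneg _) (by positivity)
    _ = 4 * K * (‖x‖⁻¹) ^ (n - N) := by
        have : ‖x‖ ^ n = ‖x‖ ^ (n - N) * ‖x‖ ^ N := by
          rw [← pow_add]
          congr 1
          omega
        rw [this, inv_pow]
        field_simp
        ring
    _ ≤ 4 * K * (ρ⁻¹) ^ (n - N) := by
        refine mul_le_mul_of_nonneg_left ?_ (by positivity)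
        exact pow_le_pow_left₀ (by positivity) (inv_anti₀ (by linarith) hx) _

theorem growth {a : ℕ} (P : Fin (a + 1) → Polynomial ℂ) : ∃ (K : ℝ) (N : ℕ), 0 ≤ K ∧
    (∀ i, (P i).natDegree ≤ N) ∧ ∀ (m : ℕ) (x : ℂ), N ≤ m → 1 ≤ ‖x‖ →
      ‖pv P x‖ ≤ K * ‖x‖ ^ m := by
  refine ⟨∑ i, ∑ k ∈ Finset.range ((∑ i, (P i).natDegree) + 1), ‖(P i).coeff k‖,
    ∑ i, (P i).natDegree, by positivity, ?_, ?_⟩
  · intro i
    exact Finset.single_le_sum (f := fun i => (P i).natDegree) (fun _ _ => Nat.zero_le _)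
      (Finset.mem_univ i)
  · intro m x hm hx
    refine (pi_norm_le_iff_of_nonneg (by positivity)).mpr fun i => ?_
    have hi : (P i).natDegree ≤ ∑ i, (P i).natDegree :=
      Finset.single_le_sum (f := fun i => (P i).natDegree) (fun _ _ => Nat.zero_le _)
        (Finset.mem_univ i)
    have h1 : (P i).eval x = ∑ k ∈ Finset.range ((∑ i, (P i).natDegree) + 1),
        (P i).coeff k * x ^ k := eval_eq_sum_range' (by omega) x
    show ‖(P i).eval x‖ ≤ _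
    rw [h1]
    refine (norm_sum_le _ _).trans ?_
    have h2 : ∑ k ∈ Finset.range ((∑ i, (P i).natDegree) + 1), ‖(P i).coeff k * x ^ k‖ ≤
        (∑ k ∈ Finset.range ((∑ i, (P i).natDegree) + 1), ‖(P i).coeff k‖) * ‖x‖ ^ m := by
      rw [Finset.sum_mul]
      refine Finset.sum_le_sum fun k hk => ?_
      have hk' := Finset.mem_range.mp hk
      rw [norm_mul, norm_pow]
      exact mul_le_mul_of_nonneg_left (pow_le_pow_right₀ hx (by omega)) (norm_nonneg _)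
    refine h2.trans (mul_le_mul_of_nonneg_right ?_ (by positivity))
    exact Finset.single_le_sum (f := fun i => ∑ k ∈ Finset.range
      ((∑ i, (P i).natDegree) + 1), ‖(P i).coeff k‖) (fun _ _ => by positivity)
      (Finset.mem_univ i)

theorem near {a b : ℕ} (O : Set (Vec a × Vec b)) (hcon : Conic O) (n M : ℕ) (hn : 1 ≤ n)
    (hM : 2 ≤ M) (ε C κ η : ℝ) (hC : 0 ≤ C) (hκ : 0 < κ) (hκ2 : κ ≤ 1 / 2)
    (hκε : 2 * M * C * κ ^ 2 ≤ ε / 4) (hη : 0 < η) (hη1 : η ≤ ε / 8) (hη2 : η ≤ κ * ε / 40)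
    (hε : 0 < ε) (p l lω : Vec a) (wx wω : Vec b) (Q : ℂ → ℕ → Vec a) (x ω : ℂ)
    (hr : ∀ ω ∈ rts n, ‖ω‖ = 1) (hω : ω ∈ rts n)
    (hQ : ∀ ω ∈ rts n, ∀ j, ‖Q ω j‖ ≤ C) (hx : 1 + x ^ n ≠ 0) (hne : x ≠ ω)
    (hsum : ∑ ω' ∈ (rts n).erase ω, (1 / (n * ‖x - ω'‖)) ^ 2 ≤ 2)
    (hK1 : ‖x‖ ≤ 1 → n * ‖x - ω‖ * ‖x‖ ^ n ≤ 9 * ‖1 + x ^ n‖)
    (hK2 : 1 ≤ ‖x‖ → n * ‖x - ω‖ ≤ 9 * ‖1 + x ^ n‖)
    (hpl : ‖p - l‖ ≤ 2 * η) (hl : ‖l - lω‖ ≤ ε / 4) (hw : ‖wx - wω‖ < ε)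
    (hBD : ∀ (u e : Vec a) (w : Vec b), ‖u - lω‖ < ε → ‖e‖ < ε →
      ‖w - wω‖ < ε → ∀ s t : ℂ, (s, t) ≠ (0, 0) →
      (t ^ M • u + (s * t ^ (M - 1)) • e + ∑ j ∈ Finset.Icc 2 M, (s ^ j * t ^ (M - j)) • Q ω j,
        w) ∈ O) :
    ((1 + x ^ n) ^ M • ((1 + x ^ n)⁻¹ • (p + x ^ n • l) +
      ∑ ω ∈ rts n, ∑ j ∈ Finset.Icc 2 M, (xi κ n ω x) ^ j • Q ω j), wx) ∈ O := by
  have hn0 : (0 : ℝ) < n := by exact_mod_cast hn
  have hxω : 0 < ‖x - ω‖ := norm_pos_iff.mpr (sub_ne_zero.mpr hne)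
  have h1x : 0 < ‖1 + x ^ n‖ := norm_pos_iff.mpr hx
  set ξ := xi κ n ω x with hξdef
  have hξn : ‖ξ‖ = κ * (1 / (n * ‖x - ω‖)) := norm_xi κ hκ.le n ω x (hr ω hω)
  have hξpos : 0 < ‖ξ‖ := by rw [hξn]; positivity
  have hξ0 : ξ ≠ 0 := norm_pos_iff.mp hξpos
  set S' : Vec a := ∑ ω' ∈ (rts n).erase ω, ∑ j ∈ Finset.Icc 2 M, (xi κ n ω' x) ^ j • Q ω' j
    with hS'
  have hsplit : ∑ ω ∈ rts n, ∑ j ∈ Finset.Icc 2 M, (xi κ n ω x) ^ j • Q ω j =
      S' + ∑ j ∈ Finset.Icc 2 M, ξ ^ j • Q ω j := by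
    rw [hS', Finset.sum_erase_add _ _ hω]
  have hS'n : ‖S'‖ ≤ ε / 4 := by
    have h1 : ∀ ω' ∈ (rts n).erase ω, ‖xi κ n ω' x‖ ≤ 1 := by
      intro ω' hω'
      have h2 := (Finset.mem_erase.mp hω').2
      rw [norm_xi κ hκ.le n ω' x (hr ω' h2)]
      have h3 : (1 / (n * ‖x - ω'‖)) ^ 2 ≤ 2 :=
        (Finset.single_le_sum (f := fun ω' => (1 / (n * ‖x - ω'‖)) ^ 2)
          (fun _ _ => by positivity) hω').trans hsum
      have h4 : (0 : ℝ) ≤ 1 / (n * ‖x - ω'‖) := by positivity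
      have h5 : 1 / (n * ‖x - ω'‖) ≤ 2 := by nlinarith
      calc κ * (1 / (n * ‖x - ω'‖)) ≤ 1 / 2 * 2 := mul_le_mul hκ2 h5 h4 (by norm_num)
        _ = 1 := by norm_num
    have h2 := sum_bound ((rts n).erase ω) M C hC Q (fun ω' => xi κ n ω' x)
      (fun ω' h => hQ ω' (Finset.mem_erase.mp h).2) h1
    have h3 : ∑ ω' ∈ (rts n).erase ω, ‖xi κ n ω' x‖ ^ 2 =
        κ ^ 2 * ∑ ω' ∈ (rts n).erase ω, (1 / (n * ‖x - ω'‖)) ^ 2 := by
      rw [Finset.mul_sum]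
      refine Finset.sum_congr rfl fun ω' hω' => ?_
      rw [norm_xi κ hκ.le n ω' x (hr ω' (Finset.mem_erase.mp hω').2), mul_pow]
    have h4 : M * C * ∑ ω' ∈ (rts n).erase ω, ‖xi κ n ω' x‖ ^ 2 ≤ M * C * (κ ^ 2 * 2) := by
      rw [h3]
      exact mul_le_mul_of_nonneg_left (mul_le_mul_of_nonneg_left hsum (by positivity))
        (by positivity)
    calc ‖S'‖ ≤ M * C * ∑ ω' ∈ (rts n).erase ω, ‖xi κ n ω' x‖ ^ 2 := h2
      _ ≤ M * C * (κ ^ 2 * 2) := h4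
      _ = 2 * M * C * κ ^ 2 := by ring
      _ ≤ ε / 4 := hκε
  have key : ∀ (u e : Vec a), ‖u - lω‖ < ε → ‖e‖ < ε →
      (1 + x ^ n)⁻¹ • (p + x ^ n • l) + S' = u + ξ • e →
      ((1 + x ^ n) ^ M • ((1 + x ^ n)⁻¹ • (p + x ^ n • l) +
      ∑ ω ∈ rts n, ∑ j ∈ Finset.Icc 2 M, (xi κ n ω x) ^ j • Q ω j), wx) ∈ O := by
    intro u e hu he heq
    rw [hsplit, ← add_assoc, heq]
    have h1 := hBD u e wx hu he hw ξ 1 (by simp)
    have h2 := hcon ((1 + x ^ n) ^ M) 1 _ _ (pow_ne_zero M hx) one_ne_zero h1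
    rw [one_smul] at h2
    simp only [one_pow, one_smul, mul_one] at h2
    exact h2
  have hb : ∀ (c : ℂ) (y : Vec a), ‖y‖ ≤ 2 * η → ‖c‖ * (n * ‖x - ω‖) ≤ 9 →
      ‖(c / ξ) • y‖ < ε := by
    intro c y hy hc
    rw [norm_smul, norm_div, hξn]
    have h1 : ‖c‖ / (κ * (1 / (n * ‖x - ω‖))) = ‖c‖ * (n * ‖x - ω‖) / κ := by
      field_simp
    rw [h1]
    have h2 : ‖c‖ * (n * ‖x - ω‖) / κ ≤ 9 / κ := div_le_div_of_nonneg_right hc hκ.le
    calc ‖c‖ * (n * ‖x - ω‖) / κ * ‖y‖ ≤ 9 / κ * (2 * η) :=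
          mul_le_mul h2 hy (norm_nonneg _) (by positivity)
      _ ≤ 9 / κ * (2 * (κ * ε / 40)) := by
          refine mul_le_mul_of_nonneg_left ?_ (by positivity)
          linarith
      _ = 18 / 40 * ε := by field_simp; ring
      _ < ε := by linarith
  rcases le_total ‖x‖ 1 with h1 | h1
  · refine key (p + S') ((x ^ n * (1 + x ^ n)⁻¹ / ξ) • (l - p)) ?_ ?_ ?_
    · have : p + S' - lω = (p - l) + (l - lω) + S' := by abel
      rw [this]
      have h2 := norm_add_le ((p - l) + (l - lω)) S'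
      have h3 := norm_add_le (p - l) (l - lω)
      linarith
    · refine hb _ _ ?_ ?_
      · rw [norm_sub_rev]; exact hpl
      · rw [norm_mul, norm_inv, norm_pow]
        have := hK1 h1
        rw [← div_eq_mul_inv, div_mul_eq_mul_div, div_le_iff₀ h1x]
        linarith
    · rw [smul_smul, mul_div_cancel₀ _ hξ0]
      have h5 : p = (1 + x ^ n)⁻¹ • ((1 + x ^ n) • p) := by
        rw [smul_smul, inv_mul_cancel₀ hx, one_smul]
      have h6 : p + (x ^ n * (1 + x ^ n)⁻¹) • (l - p) = (1 + x ^ n)⁻¹ • (p + x ^ n • l) := by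
        have h7 : (x ^ n * (1 + x ^ n)⁻¹) • (l - p) = (1 + x ^ n)⁻¹ • (x ^ n • (l - p)) := by
          rw [smul_smul, mul_comm]
        rw [h7]
        have h8 : p + (1 + x ^ n)⁻¹ • (x ^ n • (l - p)) =
          (1 + x ^ n)⁻¹ • ((1 + x ^ n) • p) + (1 + x ^ n)⁻¹ • (x ^ n • (l - p)) := by rw [← h5]
        rw [h8, ← smul_add]
        congr 1
        rw [add_smul, one_smul, smul_sub]
        abel
      rw [← h6]
      abel
  · refine key (l + S') (((1 + x ^ n)⁻¹ / ξ) • (p - l)) ?_ ?_ ?_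
    · have : l + S' - lω = (l - lω) + S' := by abel
      rw [this]
      have h2 := norm_add_le (l - lω) S'
      linarith
    · refine hb _ _ hpl ?_
      rw [norm_inv]
      have := hK2 h1
      rw [inv_mul_eq_div, div_le_iff₀ h1x]
      linarith
    · rw [smul_smul, mul_div_cancel₀ _ hξ0]
      have h5 : l = (1 + x ^ n)⁻¹ • ((1 + x ^ n) • l) := by
        rw [smul_smul, inv_mul_cancel₀ hx, one_smul]
      have h6 : l + (1 + x ^ n)⁻¹ • (p - l) = (1 + x ^ n)⁻¹ • (p + x ^ n • l) := by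
        have h8 : l + (1 + x ^ n)⁻¹ • (p - l) =
          (1 + x ^ n)⁻¹ • ((1 + x ^ n) • l) + (1 + x ^ n)⁻¹ • (p - l) := by rw [← h5]
        rw [h8, ← smul_add]
        congr 1
        rw [add_smul, one_smul]
        abel
      rw [← h6]
      abel

end COR_

open COR_ in
theorem p_COR (h_ROO : T_ROO) (h_SUM : T_SUM) : T_COR := by
  intro a b O M ε C hcon hM hε
  set C' := max C 1 with hC'
  have hC'1 : 1 ≤ C' := le_max_right _ _
  have hC'0 : 0 < C' := by linarith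
  have hM0 : (0 : ℝ) < M := by exact_mod_cast (by omega : 0 < M)
  obtain ⟨κ, hκ, hκ2, hκε⟩ : ∃ κ : ℝ, 0 < κ ∧ κ ≤ 1 / 2 ∧ 2 * M * C' * κ ^ 2 ≤ ε / 4 := by
    refine ⟨min (1 / 2) (ε / (8 * M * C')), by positivity, min_le_left _ _, ?_⟩
    set κ := min (1 / 2) (ε / (8 * M * C'))
    have h1 : κ ≤ 1 / 2 := min_le_left _ _
    have h2 : κ ≤ ε / (8 * M * C') := min_le_right _ _
    have h0 : 0 < κ := by positivity
    have h3 : κ * (8 * M * C') ≤ ε := by rwa [le_div_iff₀ (by positivity)] at h2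
    nlinarith [mul_pos hM0 hC'0, mul_pos (mul_pos hM0 hC'0) h0]
  refine ⟨min (ε / 8) (κ * ε / 40), by positivity, ?_⟩
  set η := min (ε / 8) (κ * ε / 40) with hηdef
  have hη : 0 < η := by positivity
  have hη1 : η ≤ ε / 8 := min_le_left _ _
  have hη2 : η ≤ κ * ε / 40 := min_le_right _ _
  intro W L J D G P hW hL hG hBD hPL
  -- the bubbles
  have hQex : ∀ ω : ℂ, ∃ Q : ℕ → Vec a, ‖ω‖ = 1 → (∀ j, ‖Q j‖ ≤ C') ∧
      ∀ (u e : Vec a) (w : Vec b), ‖u - L ω‖ < ε → ‖e‖ < ε → ‖w - W ω‖ < ε →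
      ∀ s t : ℂ, (s, t) ≠ (0, 0) →
      (t ^ M • u + (s * t ^ (M - 1)) • e + ∑ j ∈ Finset.Icc 2 M, (s ^ j * t ^ (M - j)) • Q j,
        w) ∈ O := by
    intro ω
    by_cases h : ‖ω‖ = 1
    · obtain ⟨Q, h1, h2⟩ := hBD ω h
      exact ⟨Q, fun _ => ⟨fun j => (h1 j).trans (le_max_left _ _), h2⟩⟩
    · exact ⟨0, fun h' => absurd h' h⟩
  choose Q hQ using hQex
  -- uniform continuity near the circle
  set K : Set ℂ := {x | 1 / 2 ≤ ‖x‖ ∧ ‖x‖ ≤ 2} with hKdef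
  have hKc : IsCompact K := by
    refine Metric.isCompact_of_isClosed_isBounded ?_ ?_
    · exact (isClosed_le continuous_const continuous_norm).inter
        (isClosed_le continuous_norm continuous_const)
    · refine (Metric.isBounded_closedBall (x := (0 : ℂ)) (r := 2)).subset ?_
      intro x hx
      rw [mem_closedBall_zero_iff]
      exact hx.2
  have hpvc : ∀ R : Fin (a + 1) → Polynomial ℂ, Continuous (pv R) := fun R =>
    continuous_pi fun i => (R i).continuous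
  have hK0 : ∀ x ∈ K, x ≠ 0 := by
    intro x hx h
    have := hx.1
    rw [h, norm_zero] at this
    linarith
  have hLc : ContinuousOn L K := by
    have h0 : ContinuousOn (fun x : ℂ => (x ^ J)⁻¹) K := by
      refine ContinuousOn.inv₀ (continuous_pow J).continuousOn ?_
      intro x hx
      exact pow_ne_zero J (hK0 x hx)
    have h1 : ContinuousOn (fun x : ℂ => (x ^ J)⁻¹ • pv G x) K :=
      ContinuousOn.smul h0 (hpvc G).continuousOn
    refine h1.congr fun x hx => ?_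
    show L x = (x ^ J)⁻¹ • pv G x
    rw [← hL x (hK0 x hx), smul_smul, inv_mul_cancel₀ (pow_ne_zero J (hK0 x hx)), one_smul]
  have hu1 := Metric.uniformContinuousOn_iff.mp (hKc.uniformContinuousOn_of_continuous hLc)
  have hu2 := Metric.uniformContinuousOn_iff.mp
    (hKc.uniformContinuousOn_of_continuous hW.continuousOn)
  have hu3 := Metric.uniformContinuousOn_iff.mp
    (hKc.uniformContinuousOn_of_continuous ((hpvc P).continuousOn.sub hLc))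
  obtain ⟨δ₁, hδ₁, hu1⟩ := hu1 (ε / 4) (by positivity)
  obtain ⟨δ₂, hδ₂, hu2⟩ := hu2 ε hε
  obtain ⟨δ₃, hδ₃, hu3⟩ := hu3 η hη
  refine ⟨min (1 / 4) (min (δ₁ / 4) (min (δ₂ / 4) (δ₃ / 4))), by positivity,
    lt_of_le_of_lt (min_le_left _ _) (by norm_num), ?_⟩
  intro δ hδ hδ0 ε' hε'
  have hδ4 : δ ≤ 1 / 4 := hδ0.trans (min_le_left _ _)
  have hδ1 : δ ≤ δ₁ / 4 := hδ0.trans ((min_le_right _ _).trans (min_le_left _ _))
  have hδ2 : δ ≤ δ₂ / 4 :=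
    hδ0.trans ((min_le_right _ _).trans ((min_le_right _ _).trans (min_le_left _ _)))
  have hδ3 : δ ≤ δ₃ / 4 :=
    hδ0.trans ((min_le_right _ _).trans ((min_le_right _ _).trans (min_le_right _ _)))
  -- bounds
  obtain ⟨KP, NP, hKP, hNP, hgP⟩ := growth P
  obtain ⟨KG, NG, hKG, hNG, hgG⟩ := growth G
  obtain ⟨K1, hK1⟩ : ∃ K1 : ℝ, ∀ x : ℂ, ‖x‖ ≤ 1 → ‖pv P x‖ ≤ K1 ∧ ‖pv G x‖ ≤ K1 := by
    have hc : IsCompact (Metric.closedBall (0 : ℂ) 1) := isCompact_closedBall 0 1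
    obtain ⟨B1, hB1⟩ := hc.exists_bound_of_continuousOn (hpvc P).continuousOn
    obtain ⟨B2, hB2⟩ := hc.exists_bound_of_continuousOn (hpvc G).continuousOn
    refine ⟨max B1 B2, fun x hx => ?_⟩
    have hx' : x ∈ Metric.closedBall (0 : ℂ) 1 := by rwa [mem_closedBall_zero_iff]
    exact ⟨(hB1 x hx').trans (le_max_left _ _), (hB2 x hx').trans (le_max_right _ _)⟩
  have hρ1 : (0 : ℝ) ≤ 1 - δ := by linarith
  have hρ1' : 1 - δ < 1 := by linarith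
  have hρ2 : 1 < 1 + δ := by linarith
  set N := max NP NG with hN
  -- large n
  have ev1 : ∀ᶠ n : ℕ in atTop, 1 ≤ n ∧ J ≤ n ∧ N < n := by
    filter_upwards [eventually_ge_atTop 1, eventually_ge_atTop J, eventually_gt_atTop N]
      with n h1 h2 h3 using ⟨h1, h2, h3⟩
  have tinv : Tendsto (fun n : ℕ => (n : ℝ)⁻¹) atTop (𝓝 0) :=
    tendsto_inv_atTop_zero.comp tendsto_natCast_atTop_atTop
  have ev2 : ∀ᶠ n : ℕ in atTop, 4 / (n : ℝ) ≤ δ := by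
    have h := (tinv.const_mul 4)
    rw [mul_zero] at h
    filter_upwards [h.eventually (gt_mem_nhds hδ)] with n hn
    rw [div_eq_mul_inv]
    exact hn.le
  have ev3 : ∀ᶠ n : ℕ in atTop, κ / (n * δ) ≤ 1 := by
    have h := (tinv.const_mul (κ / δ))
    rw [mul_zero] at h
    filter_upwards [h.eventually (gt_mem_nhds one_pos)] with n hn
    have : κ / (n * δ) = κ / δ * (n : ℝ)⁻¹ := by
      rw [mul_comm, ← div_div, div_eq_mul_inv (κ / δ)]
    rw [this]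
    exact hn.le
  have ev4 : ∀ᶠ n : ℕ in atTop, M * C' * κ ^ 2 / δ ^ 2 / n ≤ ε' / 2 := by
    have h := (tinv.const_mul (M * C' * κ ^ 2 / δ ^ 2))
    rw [mul_zero] at h
    filter_upwards [h.eventually (gt_mem_nhds (half_pos hε'))] with n hn
    rw [div_eq_mul_inv _ (n : ℝ)]
    exact hn.le
  have tp1 : Tendsto (fun n : ℕ => (1 - δ) ^ n) atTop (𝓝 0) :=
    tendsto_pow_atTop_nhds_zero_of_lt_one hρ1 hρ1'
  have ev5 : ∀ᶠ n : ℕ in atTop, (1 - δ) ^ n ≤ 1 / 2 := by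
    filter_upwards [tp1.eventually (gt_mem_nhds (by norm_num : (0 : ℝ) < 1 / 2))] with n hn
    exact hn.le
  have ev6 : ∀ᶠ n : ℕ in atTop, 2 * K1 * ((1 - δ) ^ n + (1 - δ) ^ (n - J)) ≤ ε' / 2 := by
    have h := (tp1.add (tp1.comp (tendsto_sub_atTop_nat J))).const_mul (2 * K1)
    rw [add_zero, mul_zero] at h
    filter_upwards [h.eventually (gt_mem_nhds (half_pos hε'))] with n hn
    exact hn.le
  have ev7 : ∀ᶠ n : ℕ in atTop, 2 ≤ (1 + δ) ^ n :=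
    (tendsto_pow_atTop_atTop_of_one_lt hρ2).eventually_ge_atTop 2
  have ev8 : ∀ᶠ n : ℕ in atTop, 4 * max KP KG * ((1 + δ)⁻¹) ^ (n - N) ≤ ε' / 2 := by
    have t2 : Tendsto (fun n : ℕ => ((1 + δ)⁻¹) ^ n) atTop (𝓝 0) :=
      tendsto_pow_atTop_nhds_zero_of_lt_one (by positivity) (inv_lt_one_of_one_lt₀ hρ2)
    have h := (t2.comp (tendsto_sub_atTop_nat N)).const_mul (4 * max KP KG)
    rw [mul_zero] at h
    filter_upwards [h.eventually (gt_mem_nhds (half_pos hε'))] with n hn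
    exact hn.le
  obtain ⟨n₀, hn₀⟩ := eventually_atTop.mp
    (ev1.and (ev2.and (ev3.and (ev4.and (ev5.and (ev6.and (ev7.and ev8)))))))
  refine ⟨n₀, fun n hn => ⟨gl κ n M J G P Q, ?_⟩⟩
  obtain ⟨⟨hn1, hJn, hNn⟩, e2, e3, e4, e5, e6, e7, e8⟩ := hn₀ n hn
  obtain ⟨hroot, hcard, hnorm, hnear⟩ := h_ROO n hn1
  have hr : ∀ ω ∈ rts n, ω ^ n = -1 := fun ω h => (hroot ω).mp h
  have hQb : ∀ ω ∈ rts n, ∀ j, ‖Q ω j‖ ≤ C' := fun ω h => (hQ ω (hnorm ω h)).1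
  have hxG : ∀ x : ℂ, x ≠ 0 → x ^ (n - J) • pv G x = x ^ n • L x := by
    intro x hx
    rw [← hL x hx, smul_smul, ← pow_add]
    congr 2
    omega
  have hdegs : ∀ i, (P i).natDegree < n := by
    intro i
    have h1 := hNP i
    have h2 : NP ≤ N := le_max_left _ _
    omega
  refine ⟨?_, ?_, ?_, ?_, ?_⟩
  · -- annulus
    intro x hx1 hx2
    have hxK : x ∈ K := ⟨by linarith, by linarith⟩
    have hx0 : x ≠ 0 := hK0 x hxK
    by_cases hroot0 : 1 + x ^ n = 0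
    · have hxr : x ∈ rts n := (hroot x).mpr (by
        have : x ^ n = -1 := by linear_combination hroot0
        exact this)
      rw [pv_gl_root κ n M J hn1 hM hr G P Q x hxr]
      have h1 := (hQ x (hnorm x hxr)).2 (L x) 0 (W x) (by rw [sub_self, norm_zero]; exact hε)
        (by rw [norm_zero]; exact hε) (by rw [sub_self, norm_zero]; exact hε) 1 0 (by simp)
      have h2 : (0 : ℂ) ^ M • L x + ((1 : ℂ) * 0 ^ (M - 1)) • (0 : Vec a) +
          ∑ j ∈ Finset.Icc 2 M, ((1 : ℂ) ^ j * 0 ^ (M - j)) • Q x j = Q x M := by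
        rw [zero_pow (by omega), zero_smul, smul_zero, zero_add, zero_add]
        rw [Finset.sum_eq_single M]
        · rw [Nat.sub_self, pow_zero, one_pow, one_mul, one_smul]
        · intro j hj hne
          have hj' := Finset.mem_Icc.mp hj
          have : M - j ≠ 0 := by omega
          rw [zero_pow this, mul_zero, zero_smul]
        · intro h
          exact absurd (Finset.mem_Icc.mpr ⟨hM, le_refl M⟩) h
      rw [h2] at h1
      have h3 := hcon ((-(κ : ℂ)) ^ M) 1 _ _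
        (pow_ne_zero M (neg_ne_zero.mpr (by exact_mod_cast hκ.ne'))) one_ne_zero h1
      rwa [one_smul] at h3
    · rw [pv_gl_nonroot κ n M J hn1 hM hr G P Q x hroot0, hxG x hx0]
      obtain ⟨ω, hω, hmin, hdist, hk1, hk2⟩ := hnear x
      have hne : x ≠ ω := by
        intro h
        apply hroot0
        rw [h, hr ω hω]
        ring
      have hxω : ‖x - ω‖ ≤ 2 * δ := by
        have h1 : |‖x‖ - 1| ≤ δ := abs_le.mpr ⟨by linarith, by linarith⟩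
        linarith
      have hωn := hnorm ω hω
      have hωK : ω ∈ K := ⟨by rw [hωn]; norm_num, by rw [hωn]; norm_num⟩
      refine near O hcon n M hn1 hM ε C' κ η hC'0.le hκ hκ2 hκε hη hη1 hη2 hε (pv P x) (L x)
        (L ω) (W x) (W ω) Q x ω hnorm hω hQb hroot0 hne (h_SUM n x ω hn1 hω hmin) hk1 hk2 ?_ ?_ ?_
        (hQ ω hωn).2
      · -- closeness of P and L
        have hxn : 0 < ‖x‖ := norm_pos_iff.mpr hx0
        set y : ℂ := x / ‖x‖ with hy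
        have hyn : ‖y‖ = 1 := by
          rw [hy, norm_div, Complex.norm_real, norm_norm, div_self hxn.ne']
        have hyK : y ∈ K := ⟨by rw [hyn]; norm_num, by rw [hyn]; norm_num⟩
        have hxy : dist x y < δ₃ := by
          have h1 : x - y = ((‖x‖ - 1 : ℝ) : ℂ) * y := by
            rw [hy]
            have : ((‖x‖ : ℝ) : ℂ) ≠ 0 := by exact_mod_cast hxn.ne'
            push_cast
            field_simp
          rw [dist_eq_norm, h1, norm_mul, hyn, mul_one, Complex.norm_real, Real.norm_eq_abs]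
          have h1 : |‖x‖ - 1| ≤ δ := abs_le.mpr ⟨by linarith, by linarith⟩
          linarith
        have h2 := hu3 x hxK y hyK hxy
        have h3 := hPL y hyn
        rw [dist_eq_norm] at h2
        have h4 := norm_add_le ((pv P x - L x) - (pv P y - L y)) (pv P y - L y)
        rw [sub_add_cancel] at h4
        have h5 : ‖(pv P x - L x) - (pv P y - L y)‖ < η := h2
        linarith
      · have h1 : dist x ω < δ₁ := by rw [dist_eq_norm]; linarith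
        have h2 := hu1 x hxK ω hωK h1
        rw [dist_eq_norm] at h2
        exact h2.le
      · have h1 : dist x ω < δ₂ := by rw [dist_eq_norm]; linarith
        have h2 := hu2 x hxK ω hωK h1
        rwa [dist_eq_norm] at h2
  · -- inside
    intro x hx
    obtain ⟨h1, h2⟩ := inside n J P G (1 - δ) K1 hρ1 e5 x hx (hK1 x (by linarith)).1
      (hK1 x (by linarith)).2
    have hfar : ∀ ω ∈ rts n, δ ≤ ‖x - ω‖ := by
      intro ω hω
      have := norm_sub_norm_le ω x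
      rw [hnorm ω hω, norm_sub_rev] at this
      linarith
    have h3 := far_bound n M hn1 κ C' δ hκ.le hC'0.le hδ e3 hcard hnorm Q hQb x hfar
    rw [pv_gl_nonroot κ n M J hn1 hM hr G P Q x h1, ← smul_sub, norm_smul, mul_comm]
    refine mul_le_mul_of_nonneg_right ?_ (norm_nonneg _)
    have h4 : (1 + x ^ n)⁻¹ • (pv P x + x ^ (n - J) • pv G x) +
        ∑ ω ∈ rts n, ∑ j ∈ Finset.Icc 2 M, (xi κ n ω x) ^ j • Q ω j - pv P x =
        ((1 + x ^ n)⁻¹ • (pv P x + x ^ (n - J) • pv G x) - pv P x) +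
        ∑ ω ∈ rts n, ∑ j ∈ Finset.Icc 2 M, (xi κ n ω x) ^ j • Q ω j := by abel
    rw [h4]
    refine (norm_add_le _ _).trans ?_
    linarith
  · -- outside
    intro x hx
    have hx1 : 1 ≤ ‖x‖ := by linarith
    have hx0 : x ≠ 0 := by
      intro h
      rw [h, norm_zero] at hx1
      linarith
    have hP' : ‖pv P x‖ ≤ max KP KG * ‖x‖ ^ N :=
      (hgP N x (le_max_left _ _) hx1).trans
        (mul_le_mul_of_nonneg_right (le_max_left _ _) (by positivity))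
    have hL' : ‖L x‖ ≤ max KP KG * ‖x‖ ^ N := by
      have h1 : ‖L x‖ ≤ ‖pv G x‖ := by
        rw [← hL x hx0, norm_smul, norm_pow]
        exact le_mul_of_one_le_left (norm_nonneg _) (one_le_pow₀ hx1)
      exact h1.trans ((hgG N x (le_max_right _ _) hx1).trans
        (mul_le_mul_of_nonneg_right (le_max_right _ _) (by positivity)))
    obtain ⟨h1, h2⟩ := outside n N (by omega) (pv P x) (L x) (1 + δ) (max KP KG) hρ2 e7 x hx
      hP' hL'
    have hfar : ∀ ω ∈ rts n, δ ≤ ‖x - ω‖ := by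
      intro ω hω
      have := norm_sub_norm_le x ω
      rw [hnorm ω hω] at this
      linarith
    have h3 := far_bound n M hn1 κ C' δ hκ.le hC'0.le hδ e3 hcard hnorm Q hQb x hfar
    rw [pv_gl_nonroot κ n M J hn1 hM hr G P Q x h1, hxG x hx0, ← smul_sub, norm_smul, mul_comm]
    refine mul_le_mul_of_nonneg_right ?_ (norm_nonneg _)
    have h4 : (1 + x ^ n)⁻¹ • (pv P x + x ^ n • L x) +
        ∑ ω ∈ rts n, ∑ j ∈ Finset.Icc 2 M, (xi κ n ω x) ^ j • Q ω j - L x =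
        ((1 + x ^ n)⁻¹ • (pv P x + x ^ n • L x) - L x) +
        ∑ ω ∈ rts n, ∑ j ∈ Finset.Icc 2 M, (xi κ n ω x) ^ j • Q ω j := by abel
    rw [h4]
    refine (norm_add_le _ _).trans ?_
    linarith
  · intro i
    exact (gl_deg κ n M J D hM hJn G P Q i (hG i) (hdegs i)).1
  · intro i
    exact (gl_deg κ n M J D hM hJn G P Q i (hG i) (hdegs i)).2

end Pool.Agent.ARC
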