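import Pool.Agent.ARC.Targets

set_option autoImplicit false

/-!
# ARC: CUC, a morphism from the projective line as a continuous map
-/

noncomputable section

open Filter Topology

namespace Pool.Agent.ARC

namespace CUC_

theorem ne_z (z : ℂ) : ((z, 1) : ℂ × ℂ) ≠ (0, 0) := by
  intro h
  exact one_ne_zero (congrArg Prod.snd h)

theorem ne_i (w : ℂ) : ((1, w) : ℂ × ℂ) ≠ (0, 0) := by
  intro h
  exact one_ne_zero (congrArg Prod.fst h)

theorem cont_vform (h : T_FRM) {a : ℕ} (p : ℕ) (A : Fin (a + 1) → ℕ → ℂ) :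
    Continuous fun z : ℂ × ℂ => vform p A z.1 z.2 :=
  continuous_pi fun i => h.2.1 p (A i)

theorem cont1 (h : T_FRM) {a : ℕ} (p : ℕ) (A : Fin (a + 1) → ℕ → ℂ) :
    Continuous fun w : ℂ => vform p A 1 w := by
  have h1 : Continuous fun w : ℂ => ((1 : ℂ), w) := Continuous.prodMk_right 1
  have h2 := (cont_vform h p A).comp h1
  exact h2

theorem cont2 (h : T_FRM) {a : ℕ} (p : ℕ) (A : Fin (a + 1) → ℕ → ℂ) :
    Continuous fun z : ℂ => vform p A z 1 := by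
  have h1 : Continuous fun z : ℂ => (z, (1 : ℂ)) := Continuous.prodMk_left 1
  have h2 := (cont_vform h p A).comp h1
  exact h2

theorem lim1 (h : T_FRM) {a : ℕ} (p : ℕ) (A : Fin (a + 1) → ℕ → ℂ) :
    Tendsto (fun z : ℂ => vform p A 1 z⁻¹) (Bornology.cobounded ℂ) (𝓝 (vform p A 1 0)) := by
  have h2 := ((cont1 h p A).tendsto 0).comp (tendsto_inv₀_cobounded (α := ℂ))
  exact h2

theorem scale (h : T_FRM) {a : ℕ} (p : ℕ) (A : Fin (a + 1) → ℕ → ℂ) {z : ℂ} (hz : z ≠ 0) :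
    vform p A 1 z⁻¹ = (z ^ p)⁻¹ • vform p A z 1 := by
  have e : vform p A z 1 = z ^ p • vform p A 1 z⁻¹ := by
    funext i
    have := h.1 p (A i) z 1 z⁻¹
    rw [mul_one, mul_inv_cancel₀ hz] at this
    exact this
  rw [e, smul_smul, inv_mul_cancel₀ (pow_ne_zero p hz), one_smul]

/-- the map -/
def D {a b p q : ℕ} {A : Fin (a + 1) → ℕ → ℂ} {B : Fin (b + 1) → ℕ → ℂ} (hA : NoZero p A)
    (hB : NoZero q B) (z : OnePoint ℂ) : PP a b :=
  z.elim (Projectivization.mk ℂ (vform p A 1 0) (hA _ _ (ne_i 0)),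
      Projectivization.mk ℂ (vform q B 1 0) (hB _ _ (ne_i 0)))
    (fun z => (Projectivization.mk ℂ (vform p A z 1) (hA _ _ (ne_z z)),
      Projectivization.mk ℂ (vform q B z 1) (hB _ _ (ne_z z))))

end CUC_

open CUC_

theorem p_CUC (h₁ : T_CAT) (h₂ : T_ISB) (h₃ : T_FRM) : T_CUC := by
  intro a b p q A B hA hB
  have hz : ∀ z : ℂ, Is (vform p A z 1) (D hA hB z).1 ∧ Is (vform q B z 1) (D hA hB z).2 :=
    fun z => ⟨⟨hA _ _ (ne_z z), rfl⟩, ⟨hB _ _ (ne_z z), rfl⟩⟩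
  have hi : Is (vform p A 1 0) (D hA hB OnePoint.infty).1 ∧
      Is (vform q B 1 0) (D hA hB OnePoint.infty).2 :=
    ⟨⟨hA _ _ (ne_i 0), rfl⟩, ⟨hB _ _ (ne_i 0), rfl⟩⟩
  refine ⟨D hA hB, ?_, hz, hi.1, hi.2⟩
  refine (@OnePoint.continuous_iff ℂ _ (PP a b) (topPP a b) (D hA hB)).2 ⟨?_, ?_⟩
  · rw [coclosedCompact_eq_cocompact, ← Metric.cobounded_eq_cocompact]
    refine h₁ a b ℂ (Bornology.cobounded ℂ) (fun z : ℂ => D hA hB z) (D hA hB OnePoint.infty)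
      (fun z => vform p A 1 z⁻¹) (fun z => vform q B 1 z⁻¹) (vform p A 1 0) (vform q B 1 0)
      (lim1 h₃ p A) (lim1 h₃ q B) hi.1 hi.2 ?_
    filter_upwards [Bornology.eventually_ne_cobounded (0 : ℂ)] with z hz0
    rw [scale h₃ p A hz0, scale h₃ q B hz0]
    exact ⟨(h₂ a).2.2.2.1 _ _ _ (inv_ne_zero (pow_ne_zero p hz0)) (hz z).1,
      (h₂ b).2.2.2.1 _ _ _ (inv_ne_zero (pow_ne_zero q hz0)) (hz z).2⟩
  · refine (@continuous_iff_continuousAt ℂ (PP a b) _ (topPP a b) _).2 fun z₀ => ?_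
    exact h₁ a b ℂ (𝓝 z₀) (fun z : ℂ => D hA hB z) (D hA hB z₀)
      (fun z => vform p A z 1) (fun z => vform q B z 1) (vform p A z₀ 1) (vform q B z₀ 1)
      ((cont2 h₃ p A).tendsto z₀) ((cont2 h₃ q B).tendsto z₀) (hz z₀).1 (hz z₀).2
      (Eventually.of_forall hz)

end Pool.Agent.ARC
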