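import Pool.Agent.ARC.Targets

set_option autoImplicit false

/-!
# ARC, target CUR: a holomorphic map composed with a morphism from the projective line
-/

noncomputable section

open Filter Topology

namespace Pool.Agent.ARC

namespace CUR_

/-- The pair of vectors of forms as a function of a pair. -/
def Ph {a b : ℕ} (p q : ℕ) (A : Fin (a + 1) → ℕ → ℂ) (B : Fin (b + 1) → ℕ → ℂ)
    (z : ℂ × ℂ) : Vec a × Vec b := (vform p A z.1 z.2, vform q B z.1 z.2)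

theorem diff_vform {a : ℕ} (p : ℕ) (A : Fin (a + 1) → ℕ → ℂ) :
    Differentiable ℂ fun z : ℂ × ℂ => vform p A z.1 z.2 := by
  rw [differentiable_pi]
  intro i
  unfold vform form
  fun_prop

theorem diff_Ph {a b : ℕ} (p q : ℕ) (A : Fin (a + 1) → ℕ → ℂ) (B : Fin (b + 1) → ℕ → ℂ) :
    Differentiable ℂ (Ph p q A B) :=
  (diff_vform p A).prodMk (diff_vform q B)

theorem vform_smul (h_FRM : T_FRM) {a : ℕ} (p : ℕ) (A : Fin (a + 1) → ℕ → ℂ) (r s t : ℂ) :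
    vform p A (r * s) (r * t) = r ^ p • vform p A s t := by
  funext i
  simp only [vform, Pi.smul_apply, smul_eq_mul]
  exact h_FRM.1 p (A i) r s t

/-- One component. -/
theorem comp1 (h_ISB : T_ISB) (h_FRM : T_FRM) (h_GAG : T_GAG) (a b e p q : ℕ)
    (X : Set (PP a b)) (A : Fin (a + 1) → ℕ → ℂ) (B : Fin (b + 1) → ℕ → ℂ)
    (g : PP a b → Projectivization ℂ (Vec e))
    (hg : ∀ x ∈ X, ∀ v₀ w₀, Is v₀ x.1 → Is w₀ x.2 →
      ∃ (O : Set (Vec a × Vec b)) (F : Vec a × Vec b → Vec e), IsOpen O ∧ (v₀, w₀) ∈ O ∧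
        DifferentiableOn ℂ F O ∧
        ∀ y ∈ X, ∀ v w, (v, w) ∈ O → Is v y.1 → Is w y.2 → Is (F (v, w)) (g y))
    (pt : ℂ → ℂ → PP a b)
    (hpt : ∀ s t : ℂ, (s, t) ≠ (0, 0) → pt s t ∈ X ∧ Is (vform p A s t) (pt s t).1 ∧
      Is (vform q B s t) (pt s t).2) :
    ∃ (p' : ℕ) (A' : Fin (e + 1) → ℕ → ℂ), ∀ s t : ℂ, (s, t) ≠ (0, 0) →
      Is (vform p' A' s t) (g (pt s t)) := by
  refine h_GAG e (fun s t => g (pt s t)) ?_ ?_
  · intro r s t hr hst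
    have hst' : (r * s, r * t) ≠ ((0 : ℂ), (0 : ℂ)) := by
      intro h
      apply hst
      rw [Prod.mk.injEq] at h ⊢
      exact ⟨(mul_eq_zero.1 h.1).resolve_left hr, (mul_eq_zero.1 h.2).resolve_left hr⟩
    obtain ⟨-, h1, h2⟩ := hpt s t hst
    obtain ⟨-, h3, h4⟩ := hpt (r * s) (r * t) hst'
    rw [vform_smul h_FRM] at h3 h4
    have e1 : pt (r * s) (r * t) = pt s t := by
      refine Prod.ext ?_ ?_
      · exact is_unique h3 ((h_ISB a).2.2.2.1 _ _ _ (pow_ne_zero p hr) h1)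
      · exact is_unique h4 ((h_ISB b).2.2.2.1 _ _ _ (pow_ne_zero q hr) h2)
    show g (pt (r * s) (r * t)) = g (pt s t)
    rw [e1]
  · intro s₀ t₀ hst
    obtain ⟨hX, h1, h2⟩ := hpt s₀ t₀ hst
    obtain ⟨O, F, hO, hm, hF, h⟩ := hg _ hX _ _ h1 h2
    refine ⟨Ph p q A B ⁻¹' O, fun z => F (Ph p q A B z), ?_, hm, ?_, ?_⟩
    · exact hO.preimage (diff_Ph p q A B).continuous
    · exact hF.comp (diff_Ph p q A B).differentiableOn (fun z hz => hz)
    · intro z hz hz0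
      obtain ⟨hX', h3, h4⟩ := hpt z.1 z.2 hz0
      exact h _ hX' _ _ hz h3 h4

end CUR_

open CUR_ in
theorem p_CUR (h_ISB : T_ISB) (h_FRM : T_FRM) (h_GAG : T_GAG) : T_CUR := by
  intro a b c d p q X f A B hf hc
  have h0 : ((0 : ℂ), (1 : ℂ)) ≠ (0, 0) := by simp
  have hex : ∀ s t : ℂ, ∃ x : PP a b, (s, t) ≠ (0, 0) → x ∈ X ∧ Is (vform p A s t) x.1 ∧
      Is (vform q B s t) x.2 := by
    intro s t
    by_cases hst : (s, t) = ((0 : ℂ), (0 : ℂ))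
    · obtain ⟨x, -⟩ := hc 0 1 h0
      exact ⟨x, fun h => absurd hst h⟩
    · obtain ⟨x, hx, h1, h2⟩ := hc s t hst
      exact ⟨x, fun _ => ⟨hx, h1, h2⟩⟩
  choose pt hpt using hex
  obtain ⟨p', A', hA'⟩ := comp1 h_ISB h_FRM h_GAG a b c p q X A B (fun x => (f x).1) (by
    intro x hx v₀ w₀ h1 h2
    obtain ⟨O, F, G, hO, hm, hF, -, h⟩ := hf x hx v₀ w₀ h1 h2
    exact ⟨O, F, hO, hm, hF, fun y hy v w hvw hv hw => (h y hy v w hvw hv hw).1⟩) pt hpt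
  obtain ⟨q', B', hB'⟩ := comp1 h_ISB h_FRM h_GAG a b d p q X A B (fun x => (f x).2) (by
    intro x hx v₀ w₀ h1 h2
    obtain ⟨O, F, G, hO, hm, -, hG, h⟩ := hf x hx v₀ w₀ h1 h2
    exact ⟨O, G, hO, hm, hG, fun y hy v w hvw hv hw => (h y hy v w hvw hv hw).2⟩) pt hpt
  refine ⟨p', q', A', B', fun s t hst => (hA' s t hst).1, fun s t hst => (hB' s t hst).1, ?_⟩
  intro s t x hst h1 h2
  obtain ⟨-, h3, h4⟩ := hpt s t hst
  have e1 : x = pt s t := Prod.ext (is_unique h1 h3) (is_unique h2 h4)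
  rw [e1]
  exact ⟨hA' s t hst, hB' s t hst⟩

end Pool.Agent.ARC
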