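import Pool.Agent.ARC.Targets5

set_option autoImplicit false

/-!
# ARC, target DES
-/

noncomputable section

open Filter Topology

namespace Pool.Agent.ARC

namespace DES_

theorem two_pi_I_ne : (2 * (Real.pi : ℂ) * Complex.I) ≠ 0 := Complex.two_pi_I_ne_zero

theorem per_eq {S : Type} (f : ℂ → S) (hp : ∀ z, f (z + 1) = f z) (z z' : ℂ)
    (h : Complex.exp (2 * Real.pi * Complex.I * z) = Complex.exp (2 * Real.pi * Complex.I * z')) :
    f z = f z' := by
  rw [Complex.exp_eq_exp_iff_exists_int] at h
  obtain ⟨n, hn⟩ := h
  have h1 : z = z' + n := by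
    have h2 : (2 * (Real.pi : ℂ) * Complex.I) * z =
        (2 * (Real.pi : ℂ) * Complex.I) * (z' + n) := by
      rw [hn]
      ring
    exact mul_left_cancel₀ two_pi_I_ne h2
  have hper : Function.Periodic f 1 := hp
  have h3 := hper.int_mul n z'
  rw [mul_one] at h3
  rw [h1, h3]

end DES_

open DES_

theorem p_DES : T_DES := by
  intro S _ f hf hp
  have hg : ∀ w : ℂ, w ≠ 0 → Complex.exp (2 * Real.pi * Complex.I *
      (Complex.log w / (2 * Real.pi * Complex.I))) = w := by
    intro w hw
    rw [mul_div_cancel₀ _ two_pi_I_ne, Complex.exp_log hw]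
  refine ⟨fun w => f (Complex.log w / (2 * Real.pi * Complex.I)), ?_, ?_⟩
  · intro w₀ hw₀
    have hw₀' : w₀ ≠ 0 := hw₀
    apply ContinuousAt.continuousWithinAt
    by_cases hs : w₀ ∈ Complex.slitPlane
    · exact hf.continuousAt.comp ((continuousAt_clog hs).div_const _)
    · have hs' : -w₀ ∈ Complex.slitPlane := by
        rw [Complex.mem_slitPlane_iff] at hs ⊢
        push Not at hs
        left
        have h1 : w₀.re ≠ 0 := by
          intro h
          exact hw₀' (Complex.ext h hs.2)
        rw [Complex.neg_re]
        have h2 := lt_of_le_of_ne hs.1 h1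
        linarith
      have heq : (fun w => f (Complex.log w / (2 * Real.pi * Complex.I))) =ᶠ[𝓝 w₀]
          fun w => f ((Complex.log (-w) + Real.pi * Complex.I) / (2 * Real.pi * Complex.I)) := by
        filter_upwards [isOpen_ne.mem_nhds hw₀'] with w hw
        apply per_eq f hp
        have hw' : w ≠ 0 := hw
        rw [hg w hw', mul_div_cancel₀ _ two_pi_I_ne, Complex.exp_add,
          Complex.exp_log (neg_ne_zero.mpr hw'), Complex.exp_pi_mul_I]
        ring
      refine ContinuousAt.congr ?_ heq.symm
      refine hf.continuousAt.comp (ContinuousAt.div_const (ContinuousAt.add ?_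
        continuousAt_const) _)
      exact ContinuousAt.clog continuousAt_neg hs'
  · intro z
    exact per_eq f hp _ _ (hg _ (Complex.exp_ne_zero _))

end Pool.Agent.ARC
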