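import Pool.Agent.ARC.Targets

set_option autoImplicit false

/-!
# ARC: DIV, division by a linear form (helper21)
-/

namespace Pool.Agent.ARC

namespace DIV_

/-- multiplication by a linear form, with remainder -/
theorem mul_lin (N : ℕ) (c c' : ℕ → ℂ) (s₀ t₀ s t : ℂ)
    (h : ∀ i ≤ N, c (i + 1) = t₀ * c' i - s₀ * c' (i + 1)) (h0 : c' (N + 1) = 0) :
    form (N + 1) c s t = (t₀ * s - s₀ * t) * form N c' s t + (c 0 + s₀ * c' 0) * t ^ (N + 1) := by
  have e1 : form (N + 1) c s t =
      ∑ i ∈ Finset.range (N + 1), c (i + 1) * s ^ (i + 1) * t ^ (N - i) + c 0 * t ^ (N + 1) := by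
    unfold form
    rw [Finset.sum_range_succ']
    congr 1
    · exact Finset.sum_congr rfl fun i _ => by rw [Nat.add_sub_add_right]
    · simp
  have e2 : ∑ i ∈ Finset.range (N + 1), c (i + 1) * s ^ (i + 1) * t ^ (N - i) =
      t₀ * s * form N c' s t -
        s₀ * ∑ i ∈ Finset.range (N + 1), c' (i + 1) * s ^ (i + 1) * t ^ (N - i) := by
    unfold form
    rw [Finset.mul_sum, Finset.mul_sum, ← Finset.sum_sub_distrib]
    refine Finset.sum_congr rfl fun i hi => ?_
    rw [h i (Nat.lt_succ_iff.1 (Finset.mem_range.1 hi))]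
    ring
  have e3 : ∑ i ∈ Finset.range (N + 1), c' (i + 1) * s ^ (i + 1) * t ^ (N - i) +
      c' 0 * t ^ (N + 1) = t * form N c' s t := by
    have e4 : ∑ i ∈ Finset.range (N + 2), c' i * s ^ i * t ^ (N + 1 - i) =
        ∑ i ∈ Finset.range (N + 1), c' (i + 1) * s ^ (i + 1) * t ^ (N - i) +
          c' 0 * t ^ (N + 1) := by
      rw [Finset.sum_range_succ']
      congr 1
      · exact Finset.sum_congr rfl fun i _ => by rw [Nat.add_sub_add_right]
      · simp
    rw [← e4, Finset.sum_range_succ, h0, zero_mul, zero_mul, add_zero]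
    unfold form
    rw [Finset.mul_sum]
    refine Finset.sum_congr rfl fun i hi => ?_
    have hi' : i ≤ N := Nat.lt_succ_iff.1 (Finset.mem_range.1 hi)
    rw [Nat.sub_add_comm hi', pow_succ]
    ring
  rw [e1, e2]
  linear_combination (-s₀) * e3

end DIV_

open DIV_ in
theorem p_DIV : T_DIV := by
  intro N c s₀ t₀ hst h
  by_cases ht : t₀ = 0
  · subst ht
    have hs : s₀ ≠ 0 := by
      rintro rfl
      exact hst rfl
    have hc : c (N + 1) = 0 := by
      have e : form (N + 1) c s₀ 0 = c (N + 1) * s₀ ^ (N + 1) := by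
        unfold form
        rw [Finset.sum_range_succ]
        have e1 : ∑ i ∈ Finset.range (N + 1), c i * s₀ ^ i * (0 : ℂ) ^ (N + 1 - i) = 0 := by
          refine Finset.sum_eq_zero fun i hi => ?_
          have hi' : i < N + 1 := Finset.mem_range.1 hi
          rw [zero_pow (by omega), mul_zero]
        rw [e1]
        simp
      rw [e] at h
      exact (mul_eq_zero.1 h).resolve_right (pow_ne_zero _ hs)
    refine ⟨fun i => -c i / s₀, fun s t => ?_⟩
    unfold form
    rw [Finset.sum_range_succ, hc, zero_mul, zero_mul, add_zero, Finset.mul_sum]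
    refine Finset.sum_congr rfl fun i hi => ?_
    have hi' : i ≤ N := Nat.lt_succ_iff.1 (Finset.mem_range.1 hi)
    rw [Nat.sub_add_comm hi', pow_succ]
    field_simp
    ring
  · set c' : ℕ → ℂ := fun i =>
      ∑ k ∈ Finset.range (N + 1 - i), c (i + 1 + k) * s₀ ^ k / t₀ ^ (k + 1) with hc'
    have h0 : c' (N + 1) = 0 := by
      rw [hc']
      simp
    have h1 : ∀ i ≤ N, c (i + 1) = t₀ * c' i - s₀ * c' (i + 1) := by
      intro i hi
      have e1 : c' i = ∑ k ∈ Finset.range (N - i),
          c (i + 1 + (k + 1)) * s₀ ^ (k + 1) / t₀ ^ (k + 1 + 1) + c (i + 1) / t₀ := by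
        have e2 : c' i = ∑ k ∈ Finset.range (N + 1 - i),
          c (i + 1 + k) * s₀ ^ k / t₀ ^ (k + 1) := rfl
        rw [e2, Nat.sub_add_comm hi, Finset.sum_range_succ']
        simp
      have e3 : c' (i + 1) = ∑ k ∈ Finset.range (N - i),
          c (i + 1 + 1 + k) * s₀ ^ k / t₀ ^ (k + 1) := by
        have e4 : c' (i + 1) = ∑ k ∈ Finset.range (N + 1 - (i + 1)),
          c (i + 1 + 1 + k) * s₀ ^ k / t₀ ^ (k + 1) := rfl
        rw [e4, Nat.add_sub_add_right]
      have e5 : t₀ * ∑ k ∈ Finset.range (N - i),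
          c (i + 1 + (k + 1)) * s₀ ^ (k + 1) / t₀ ^ (k + 1 + 1) =
          s₀ * ∑ k ∈ Finset.range (N - i), c (i + 1 + 1 + k) * s₀ ^ k / t₀ ^ (k + 1) := by
        rw [Finset.mul_sum, Finset.mul_sum]
        refine Finset.sum_congr rfl fun k _ => ?_
        rw [show i + 1 + (k + 1) = i + 1 + 1 + k by ring]
        field_simp
        ring
      rw [e1, e3, mul_add, e5]
      field_simp
      ring
    have h2 := mul_lin N c c' s₀ t₀ s₀ t₀ h1 h0
    have h3 : c 0 + s₀ * c' 0 = 0 := by
      rw [h] at h2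
      have h4 : (c 0 + s₀ * c' 0) * t₀ ^ (N + 1) = 0 := by linear_combination -h2
      exact (mul_eq_zero.1 h4).resolve_right (pow_ne_zero _ ht)
    refine ⟨c', fun s t => ?_⟩
    rw [mul_lin N c c' s₀ t₀ s t h1 h0, h3]
    ring

end Pool.Agent.ARC
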