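import Pool.Agent.ARC.Targets3

set_option autoImplicit false

/-!
# ARC: EMB, embeddings compose
-/

noncomputable section

namespace Pool.Agent.ARC

theorem p_EMB (h_RRC : T_RRC) : T_EMB := by
  intro a b c d e k Z X s j hs hj hsub
  obtain ⟨hs1, gs, hs2, hs3⟩ := hs
  obtain ⟨hj1, gj, hj2, hj3⟩ := hj
  have hmem : ∀ z ∈ Z, s z ∈ X := fun z hz => hsub ⟨z, hz, rfl⟩
  have hsubj : (j ∘ s) '' Z ⊆ j '' X := by
    rintro _ ⟨z, hz, rfl⟩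
    exact ⟨s z, hmem z hz, rfl⟩
  refine ⟨(h_RRC e k a b c d Z X s j hs1).1 hj1 hmem, gs ∘ gj, ?_, ?_⟩
  · have h1 : HolOn ((j ∘ s) '' Z) gj := (h_RRC c d a b a b (j '' X) X gj id hj2).2 _ hsubj
    refine (h_RRC c d a b e k ((j ∘ s) '' Z) (s '' Z) gj gs h1).1 hs2 ?_
    rintro _ ⟨z, hz, rfl⟩
    show gj (j (s z)) ∈ s '' Z
    rw [hj3 (s z) (hmem z hz)]
    exact ⟨z, hz, rfl⟩
  · intro z hz
    show gs (gj (j (s z))) = z
    rw [hj3 (s z) (hmem z hz), hs3 z hz]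

end Pool.Agent.ARC
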