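import Pool.Agent.ARC.Targets5

set_option autoImplicit false

/-!
# ARC, EXT: continuous extension to the origin
-/

noncomputable section

open Filter Topology

namespace Pool.Agent.ARC

theorem p_EXT : T_EXT := by
  intro b w r hr hw
  have hcl : IsClosed {z : ℂ | r ≤ ‖z‖} := isClosed_le continuous_const continuous_norm
  have hw' : ContinuousOn w {z : ℂ | r ≤ ‖z‖} := by
    refine hw.mono ?_
    intro z hz h0
    have h1 : r ≤ ‖z‖ := hz
    rw [h0, norm_zero] at h1
    linarith
  let f : C({z : ℂ | r ≤ ‖z‖}, Vec b) := ⟨_, hw'.domRestrict⟩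
  obtain ⟨g, hg⟩ := ContinuousMap.exists_restrict_eq hcl f
  refine ⟨g, g.continuous, ?_⟩
  intro z hz
  have h1 := DFunLike.congr_fun hg ⟨z, hz⟩
  exact h1

end Pool.Agent.ARC
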