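import Pool.Agent.ARC.Targets3

set_option autoImplicit false

/-!
# ARC: proof of the target FIL (filling a square in a simply connected space)
-/

noncomputable section

open Filter Topology

namespace Pool.Agent.ARC

namespace FIL_

lemma const_at {X S : Type*} [TopologicalSpace X] [TopologicalSpace S]
    (H : unitInterval × unitInterval → S) (hH : Continuous H) (s τ : X → unitInterval) (x₀ : X)
    (hτ : Continuous τ) (p : S) (hp : ∀ s', H (s', τ x₀) = p) :
    ContinuousAt (fun x => H (s x, τ x)) x₀ := by
  rw [ContinuousAt, hp (s x₀)]
  intro V hV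
  obtain ⟨V', hV', hVo, hpV⟩ := mem_nhds_iff.1 hV
  obtain ⟨u, v, -, hv, hu, hxv, huv⟩ := generalized_tube_lemma
    (isCompact_univ : IsCompact (Set.univ : Set unitInterval))
    (isCompact_singleton : IsCompact {τ x₀}) (hVo.preimage hH) (by
      rintro ⟨a, b⟩ ⟨-, hb⟩
      rw [Set.mem_singleton_iff] at hb
      show H (a, b) ∈ V'
      rw [show b = τ x₀ from hb, hp a]
      exact hpV)
  have h1 : τ ⁻¹' v ∈ 𝓝 x₀ :=
    (hv.preimage hτ).mem_nhds (hxv (Set.mem_singleton _))
  rw [Filter.mem_map]
  refine Filter.mem_of_superset h1 fun x hx => hV' ?_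
  exact huv ⟨hu (Set.mem_univ (s x)), hx⟩

/-- The distance to the nearer corner. -/
def mm (z : unitInterval × unitInterval) : ℝ :=
  min ((z.1 : ℝ) + z.2) (2 - ((z.1 : ℝ) + z.2))

/-- The homotopy parameter. -/
def ss (z : unitInterval × unitInterval) : unitInterval :=
  Set.projIcc (0 : ℝ) 1 zero_le_one (((z.1 : ℝ) - z.2 + mm z) / (2 * mm z))

/-- The path parameter. -/
def tt (z : unitInterval × unitInterval) : unitInterval :=
  ⟨((z.1 : ℝ) + z.2) / 2, by
    have h1 := z.1.2
    have h2 := z.2.2
    exact ⟨by linarith [h1.1, h2.1], by linarith [h1.2, h2.2]⟩⟩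

lemma mm_cont : Continuous mm := by
  unfold mm
  fun_prop

lemma tt_cont : Continuous tt := by
  unfold tt
  refine Continuous.subtype_mk ?_ _
  fun_prop

lemma mm_nonneg (z : unitInterval × unitInterval) : 0 ≤ mm z := by
  have h1 := z.1.2
  have h2 := z.2.2
  unfold mm
  exact le_min (by linarith [h1.1, h2.1]) (by linarith [h1.2, h2.2])

lemma mm_zero (z : unitInterval × unitInterval) (h : mm z = 0) : tt z = 0 ∨ tt z = 1 := by
  unfold mm at h
  rcases min_choice ((z.1 : ℝ) + z.2) (2 - ((z.1 : ℝ) + z.2)) with h1 | h1
  · left
    rw [h1] at h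
    apply Subtype.ext
    show ((z.1 : ℝ) + z.2) / 2 = 0
    linarith
  · right
    rw [h1] at h
    apply Subtype.ext
    show ((z.1 : ℝ) + z.2) / 2 = 1
    linarith

lemma ss_cont (z : unitInterval × unitInterval) (h : mm z ≠ 0) : ContinuousAt ss z := by
  unfold ss
  refine continuous_projIcc.continuousAt.comp ?_
  refine ContinuousAt.div ?_ ?_ ?_
  · exact (((continuous_subtype_val.comp continuous_fst).sub
      (continuous_subtype_val.comp continuous_snd)).add mm_cont).continuousAt
  · exact (continuous_const.mul mm_cont).continuousAt
  · exact mul_ne_zero two_ne_zero h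

lemma ss_zero (z : unitInterval × unitInterval)
    (h1 : (z.1 : ℝ) - z.2 + mm z = 0) : ss z = 0 := by
  unfold ss
  rw [h1, zero_div]
  exact Set.projIcc_left (a := (0 : ℝ)) (b := 1) (h := zero_le_one)

lemma ss_one (z : unitInterval × unitInterval) (h : mm z ≠ 0)
    (h1 : (z.1 : ℝ) - z.2 = mm z) : ss z = 1 := by
  unfold ss
  rw [h1]
  have h2 : (mm z + mm z) / (2 * mm z) = 1 := by
    rw [← two_mul]
    exact div_self (mul_ne_zero two_ne_zero h)
  rw [h2]
  exact Set.projIcc_right (a := (0 : ℝ)) (b := 1) (h := zero_le_one)

end FIL_

open FIL_ in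
theorem p_FIL : T_FIL := by
  intro S _ _ p00 p10 p01 p11 b t l r
  obtain ⟨H⟩ := SimplyConnectedSpace.paths_homotopic (l.trans t) (b.trans r)
  have hsrc : ∀ s', H (s', 0) = p00 := fun s' => H.source s'
  have htgt : ∀ s', H (s', 1) = p11 := fun s' => H.target s'
  refine ⟨fun z => H (ss z, tt z), ?_, ?_, ?_, ?_, ?_⟩
  · rw [continuous_iff_continuousAt]
    intro z
    by_cases h : mm z = 0
    · rcases mm_zero z h with h1 | h1
      · exact const_at H H.continuous ss tt z tt_cont p00 (by rw [h1]; exact hsrc)
      · exact const_at H H.continuous ss tt z tt_cont p11 (by rw [h1]; exact htgt)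
    · exact H.continuous.continuousAt.comp ((ss_cont z h).prodMk tt_cont.continuousAt)
  · intro x
    have hx := x.2
    by_cases h : mm (x, 0) = 0
    · have h3 : x = 0 := by
        apply Subtype.ext
        unfold mm at h
        simp only [Set.Icc.coe_zero, add_zero] at h
        have h4 : min (x : ℝ) (2 - x) = x := min_eq_left (by linarith [hx.2])
        rw [h4] at h
        exact h
      have h5 : tt (x, 0) = 0 := by
        apply Subtype.ext
        rw [h3]
        simp [tt]
      show H (ss (x, 0), tt (x, 0)) = b x
      rw [h5, hsrc, h3, b.source]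
    · have h1 : mm (x, 0) = x := by
        unfold mm
        simp only [Set.Icc.coe_zero, add_zero]
        exact min_eq_left (by linarith [hx.2])
      have h2 : ss (x, 0) = 1 := ss_one _ h (by simp [h1])
      show H (ss (x, 0), tt (x, 0)) = b x
      rw [h2, H.apply_one]
      show (b.trans r) (tt (x, 0)) = b x
      rw [Path.trans_apply, dif_pos (by simp [tt]; linarith [hx.2])]
      congr 1
      apply Subtype.ext
      simp [tt]
      ring
  · intro x
    have hx := x.2
    by_cases h : mm (x, 1) = 0
    · have h3 : x = 1 := by
        apply Subtype.ext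
        unfold mm at h
        simp only [Set.Icc.coe_one] at h
        have h4 : min ((x : ℝ) + 1) (2 - (x + 1)) = 2 - (x + 1) :=
          min_eq_right (by linarith [hx.1])
        rw [h4] at h
        show (x : ℝ) = 1
        linarith
      have h5 : tt (x, 1) = 1 := by
        apply Subtype.ext
        rw [h3]
        simp [tt]
      show H (ss (x, 1), tt (x, 1)) = t x
      rw [h5, htgt, h3, t.target]
    · have h1 : mm (x, 1) = 1 - x := by
        unfold mm
        simp only [Set.Icc.coe_one]
        rw [min_eq_right (by linarith [hx.1])]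
        ring
      have h2 : ss (x, 1) = 0 := ss_zero _ (by simp [h1])
      show H (ss (x, 1), tt (x, 1)) = t x
      rw [h2, H.apply_zero]
      show (l.trans t) (tt (x, 1)) = t x
      rw [Path.trans_apply]
      split_ifs with h6
      · have h7 : (x : ℝ) = 0 := by
          simp only [tt, Set.Icc.coe_one] at h6
          linarith [hx.1]
        have h8 : x = 0 := Subtype.ext h7
        subst h8
        have h9 : (⟨2 * ((tt (0, 1) : unitInterval) : ℝ), by simp [tt]⟩ : unitInterval) = 1 := by
          apply Subtype.ext
          simp [tt]
        rw [t.source]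
        exact (congrArg l h9).trans l.target
      · congr 1
        apply Subtype.ext
        simp [tt]
        ring
  · intro y
    have hy := y.2
    by_cases h : mm (0, y) = 0
    · have h3 : y = 0 := by
        apply Subtype.ext
        unfold mm at h
        simp only [Set.Icc.coe_zero, zero_add] at h
        have h4 : min (y : ℝ) (2 - y) = y := min_eq_left (by linarith [hy.2])
        rw [h4] at h
        exact h
      have h5 : tt (0, y) = 0 := by
        apply Subtype.ext
        rw [h3]
        simp [tt]
      show H (ss (0, y), tt (0, y)) = l y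
      rw [h5, hsrc, h3, l.source]
    · have h1 : mm (0, y) = y := by
        unfold mm
        simp only [Set.Icc.coe_zero, zero_add]
        exact min_eq_left (by linarith [hy.2])
      have h2 : ss (0, y) = 0 := ss_zero _ (by simp [h1])
      show H (ss (0, y), tt (0, y)) = l y
      rw [h2, H.apply_zero]
      show (l.trans t) (tt (0, y)) = l y
      rw [Path.trans_apply, dif_pos (by simp [tt]; linarith [hy.2])]
      congr 1
      apply Subtype.ext
      simp [tt]
      ring
  · intro y
    have hy := y.2
    by_cases h : mm (1, y) = 0
    · have h3 : y = 1 := by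
        apply Subtype.ext
        unfold mm at h
        simp only [Set.Icc.coe_one] at h
        have h4 : min (1 + (y : ℝ)) (2 - (1 + y)) = 2 - (1 + y) :=
          min_eq_right (by linarith [hy.1])
        rw [h4] at h
        show (y : ℝ) = 1
        linarith
      have h5 : tt (1, y) = 1 := by
        apply Subtype.ext
        rw [h3]
        simp [tt]
      show H (ss (1, y), tt (1, y)) = r y
      rw [h5, htgt, h3, r.target]
    · have h1 : mm (1, y) = 1 - y := by
        unfold mm
        simp only [Set.Icc.coe_one]
        rw [min_eq_right (by linarith [hy.1])]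
        ring
      have h2 : ss (1, y) = 1 := ss_one _ h (by simp [h1])
      show H (ss (1, y), tt (1, y)) = r y
      rw [h2, H.apply_one]
      show (b.trans r) (tt (1, y)) = r y
      rw [Path.trans_apply]
      split_ifs with h6
      · have h7 : (y : ℝ) = 0 := by
          simp only [tt, Set.Icc.coe_one] at h6
          linarith [hy.1]
        have h8 : y = 0 := Subtype.ext h7
        subst h8
        have h9 : (⟨2 * ((tt (1, 0) : unitInterval) : ℝ), by simp [tt]⟩ : unitInterval) = 1 := by
          apply Subtype.ext
          simp [tt]
        rw [r.source]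
        exact (congrArg b h9).trans b.target
      · congr 1
        apply Subtype.ext
        simp [tt]
        ring

end Pool.Agent.ARC
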