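import Pool.Agent.ARC.Targets3

set_option autoImplicit false

/-!
# ARC: FIN, the case of a strongly connected multisection
-/

namespace Pool.Agent.ARC

namespace FIN_

theorem hol_id {a b : ℕ} (A : Set (PP a b)) : HolOn A (fun x => x) := by
  intro x _ v₀ w₀ _ _
  refine ⟨Set.univ, Prod.fst, Prod.snd, isOpen_univ, trivial, differentiable_fst.differentiableOn,
    differentiable_snd.differentiableOn, ?_⟩
  intro y _ v w _ hv hw
  exact ⟨hv, hw⟩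

theorem trans (h : T_JTR) {a b : ℕ} {U : Set (PP a b)} (hU : IsOpenP U) {x y z : PP a b}
    (h1 : Joined U x y) (h2 : Joined U y z) : Joined U x z := by
  obtain ⟨p, q, h1⟩ := h1
  obtain ⟨p', q', h2⟩ := h2
  exact ⟨_, _, h a b p q p' q' U x y z hU h1 h2⟩

theorem symm (h : T_SYM) {a b : ℕ} {U : Set (PP a b)} {x y : PP a b}
    (h1 : Joined U x y) : Joined U y x := by
  obtain ⟨p, q, h1⟩ := h1
  exact ⟨_, _, (h a b U).1 p q x y h1⟩

end FIN_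

open FIN_ in
theorem p_FIN (h_EMB : T_EMB) (h_JTR : T_JTR) (h_SYM : T_SYM) (h_JRC : T_JRC) (h_CHN : T_CHN)
    (h_JCU : T_JCU) : T_FIN := by
  intro a b c d e k X Y Z φ s _ hXY hch hs hsX hsY hZ c' d' j hj U hU hjU x' hx' y' hy' hne
  obtain ⟨x, hx, rfl⟩ := hx'
  obtain ⟨y, hy, rfl⟩ := hy'
  have key : ∀ x ∈ X, ∃ z ∈ Z, Joined U (j x) (j (s z)) := by
    intro x hx
    have h1 : φ x ∈ φ '' (s '' Z) := by
      rw [hsY, ← hXY]
      exact ⟨x, hx, rfl⟩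
    obtain ⟨_, ⟨z, hz, rfl⟩, hφ⟩ := h1
    have hsz : s z ∈ X := hsX ⟨z, hz, rfl⟩
    refine ⟨z, hz, ?_⟩
    have h2 := hch x hx (s z) hsz hφ.symm
    refine h_CHN a b c' d' X {w | w ∈ X ∧ φ w = φ x} j U x (s z) hj.1 (fun w hw => hw.1) ?_ hU
      ⟨hx, rfl⟩ h2
    rintro _ ⟨w, hw, rfl⟩
    exact hjU ⟨w, hw.1, rfl⟩
  obtain ⟨z, hz, h1⟩ := key x hx
  obtain ⟨z', hz', h2⟩ := key y hy
  have hemb : IsEmb Z (j ∘ s) := h_EMB a b c' d' e k Z X s j hs hj hsX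
  have hmem : ∀ w ∈ Z, j (s w) ∈ U := fun w hw => hjU ⟨s w, hsX ⟨w, hw, rfl⟩, rfl⟩
  have h3 : Joined U (j (s z)) (j (s z')) := by
    by_cases heq : j (s z) = j (s z')
    · rw [← heq]
      exact ⟨0, 0, (h_SYM c' d' U).2.1 _ (hmem z hz)⟩
    · have hn := hZ c' d' (j ∘ s) hemb U hU (by
        rintro _ ⟨w, hw, rfl⟩
        exact hmem w hw) (j (s z)) ⟨z, hz, rfl⟩ (j (s z')) ⟨z', hz', rfl⟩ heq
      obtain ⟨C, hC, hCU, hc1, hc2⟩ := hn
      exact h_JCU c' d' c' d' U C (fun x => x) U (j (s z)) (j (s z')) (hol_id U)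
        (by
          rintro _ ⟨w, hw, rfl⟩
          exact hw) hC hCU hc1 hc2
  exact h_JRC c' d' U (j x) (j y) (trans h_JTR hU (trans h_JTR hU h1 h3) (symm h_SYM h2)) hne

end Pool.Agent.ARC
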