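import Pool.Agent.ARC.Targets

set_option autoImplicit false

/-!
# ARC: FRM, elementary facts on binary forms
-/

noncomputable section

open Filter Topology

namespace Pool.Agent.ARC

namespace FRM_

open Polynomial in
/-- The polynomial `∑_(i ≤ p) c i X^i`. -/
def pol (p : ℕ) (c : ℕ → ℂ) : Polynomial ℂ :=
  ∑ i ∈ Finset.range (p + 1), Polynomial.C (c i) * Polynomial.X ^ i

theorem pol_deg (p : ℕ) (c : ℕ → ℂ) : (pol p c).natDegree ≤ p := by
  unfold pol
  refine Polynomial.natDegree_sum_le_of_forall_le _ _ fun i hi => ?_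
  exact (Polynomial.natDegree_C_mul_X_pow_le _ _).trans (Nat.lt_succ_iff.1 (Finset.mem_range.1 hi))

theorem pol_coeff (p : ℕ) (c : ℕ → ℂ) (i : ℕ) (hi : i ≤ p) : (pol p c).coeff i = c i := by
  unfold pol
  rw [Polynomial.finsetSum_coeff]
  simp only [Polynomial.coeff_C_mul, Polynomial.coeff_X_pow, mul_ite, mul_one, mul_zero]
  rw [Finset.sum_ite_eq, if_pos (Finset.mem_range.2 (Nat.lt_succ_of_le hi))]

theorem form_eq (p : ℕ) (c : ℕ → ℂ) (s t : ℂ) (ht : t ≠ 0) :
    form p c s t = t ^ p * (pol p c).eval (s / t) := by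
  unfold form pol
  rw [Polynomial.eval_finsetSum, Finset.mul_sum]
  refine Finset.sum_congr rfl fun i hi => ?_
  have h : i ≤ p := Nat.lt_succ_iff.1 (Finset.mem_range.1 hi)
  obtain ⟨j, rfl⟩ := Nat.exists_eq_add_of_le h
  rw [Polynomial.eval_mul, Polynomial.eval_C, Polynomial.eval_pow, Polynomial.eval_X, div_pow,
    pow_add, Nat.add_sub_cancel_left]
  field_simp

theorem form_zero (p : ℕ) (c : ℕ → ℂ) (s : ℂ) : form p c s 0 = c p * s ^ p := by
  unfold form
  rw [Finset.sum_eq_single_of_mem p (Finset.mem_range.2 (Nat.lt_succ_self p))]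
  · simp
  · intro i hi hne
    have h : i < p := lt_of_le_of_ne (Nat.lt_succ_iff.1 (Finset.mem_range.1 hi)) hne
    rw [zero_pow (by omega : p - i ≠ 0), mul_zero]

theorem form_one (p : ℕ) (c : ℕ → ℂ) (s : ℂ) : form p c s 1 = (pol p c).eval s := by
  rw [form_eq p c s 1 one_ne_zero, one_pow, one_mul, div_one]

theorem form_hom (p : ℕ) (c : ℕ → ℂ) (r s t : ℂ) :
    form p c (r * s) (r * t) = r ^ p * form p c s t := by
  unfold form
  rw [Finset.mul_sum]
  refine Finset.sum_congr rfl fun i hi => ?_
  have h : i ≤ p := Nat.lt_succ_iff.1 (Finset.mem_range.1 hi)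
  obtain ⟨j, rfl⟩ := Nat.exists_eq_add_of_le h
  rw [Nat.add_sub_cancel_left, mul_pow, mul_pow, pow_add]
  ring

theorem form_of_pol (p : ℕ) (c : ℕ → ℂ) (h : pol p c = 0) (s t : ℂ) : form p c s t = 0 := by
  unfold form
  refine Finset.sum_eq_zero fun i hi => ?_
  have hi' : i ≤ p := Nat.lt_succ_iff.1 (Finset.mem_range.1 hi)
  rw [← pol_coeff p c i hi', h, Polynomial.coeff_zero]
  ring

end FRM_

open FRM_ in
theorem p_FRM : T_FRM := by
  refine ⟨form_hom, ?_, ?_, ?_, ?_⟩
  · intro p c
    unfold form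
    exact continuous_finsetSum _ fun i _ =>
      (continuous_const.mul (continuous_fst.pow i)).mul (continuous_snd.pow (p - i))
  · intro p c
    constructor
    · rw [form_eq p c 0 1 one_ne_zero, one_pow, one_mul, zero_div,
        ← Polynomial.coeff_zero_eq_eval_zero, pol_coeff p c 0 (Nat.zero_le p)]
    · rw [form_zero, one_pow, mul_one]
  · intro p q c c'
    refine ⟨fun k => (pol p c * pol q c').coeff k, fun s t => ?_⟩
    by_cases ht : t = 0
    · subst ht
      rw [form_zero, form_zero, form_zero,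
        Polynomial.coeff_mul_add_eq_of_natDegree_le (pol_deg p c) (pol_deg q c'),
        pol_coeff p c p le_rfl, pol_coeff q c' q le_rfl, pow_add]
      ring
    · rw [form_eq p c s t ht, form_eq q c' s t ht, form_eq (p + q) _ s t ht]
      have h : pol (p + q) (fun k => (pol p c * pol q c').coeff k) = pol p c * pol q c' := by
        have hd : (pol p c * pol q c').natDegree ≤ p + q :=
          Polynomial.natDegree_mul_le.trans (add_le_add (pol_deg p c) (pol_deg q c'))
        conv_rhs => rw [Polynomial.as_sum_range_C_mul_X_pow' (pol p c * pol q c')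
          (Nat.lt_succ_of_le hd)]
        rfl
      rw [h, Polynomial.eval_mul, pow_add]
      ring
  · intro p q c c' h
    have h1 : pol p c * pol q c' = 0 := by
      refine Polynomial.funext fun s => ?_
      rw [Polynomial.eval_mul, ← form_one, ← form_one, h s 1, Polynomial.eval_zero]
    rcases mul_eq_zero.1 h1 with h2 | h2
    · exact Or.inl (form_of_pol p c h2)
    · exact Or.inr (form_of_pol q c' h2)

end Pool.Agent.ARC
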