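import Pool.Agent.ARC.Targets

set_option autoImplicit false

/-!
# ARC: the target T_FST (forgetting the first component)
-/

noncomputable section

open Filter Topology

namespace Pool.Agent.ARC

namespace FST_

theorem one_ne : (fun _ => 1 : Vec 0) ≠ 0 := by
  intro h
  have h1 := congrFun h 0
  simp at h1

/-- the point of `ℙ^0` -/
def pt : Projectivization ℂ (Vec 0) := Projectivization.mk ℂ (fun _ => 1 : Vec 0) one_ne

end FST_

theorem p_FST : T_FST := by
  intro a b c d X j hj
  refine ⟨fun x => (FST_.pt, (j x).2), ?_, fun x => rfl, fun x y => rfl⟩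
  intro x hx v₀ w₀ hv hw
  obtain ⟨O, F, G, hO, h0, hF, hG, h⟩ := hj x hx v₀ w₀ hv hw
  refine ⟨O, fun _ => (fun _ => 1 : Vec 0), G, hO, h0, differentiableOn_const _, hG, ?_⟩
  intro y hy v w hvw h1 h2
  exact ⟨⟨FST_.one_ne, rfl⟩, (h y hy v w hvw h1 h2).2⟩

end Pool.Agent.ARC
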