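import Pool.Agent.ARC.Targets

set_option autoImplicit false

/-!
# ARC-GA1: a holomorphic map from `ℙ^1` to `ℙ^c` is given by polynomials outside a finite set

The ratios of the homogeneous coordinates are meromorphic functions on `ℂ`, also at infinity.
-/

noncomputable section

open Filter Topology

namespace Pool.Agent.ARC

namespace GA1_

variable {c : ℕ}

/-- The ratio of two coordinates of `g z 1`. -/
def rt (g : ℂ → ℂ → Projectivization ℂ (Vec c)) (i k : Fin (c + 1)) (z : ℂ) : ℂ :=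
  (g z 1).rep k / (g z 1).rep i

theorem is_rep (p : Projectivization ℂ (Vec c)) : Is p.rep p := ⟨p.rep_nonzero, p.mk_rep⟩

theorem ratio (h_ISB : T_ISB) (v : Vec c) (p : Projectivization ℂ (Vec c)) (hv : Is v p)
    (i k : Fin (c + 1)) : v k / v i = p.rep k / p.rep i ∧ (v i = 0 ↔ p.rep i = 0) := by
  obtain ⟨x, hx, h⟩ := (h_ISB c).2.2.2.2.1 p.rep v p (is_rep p) hv
  rw [h]
  constructor
  · simp only [Pi.smul_apply, smul_eq_mul]
    exact mul_div_mul_left _ _ hx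
  · simp only [Pi.smul_apply, smul_eq_mul, mul_eq_zero, hx, false_or]

/-- The hypothesis on the local lifts. -/
def Lifts (g : ℂ → ℂ → Projectivization ℂ (Vec c)) : Prop :=
  ∀ s₀ t₀ : ℂ, (s₀, t₀) ≠ (0, 0) → ∃ (O : Set (ℂ × ℂ)) (F : ℂ × ℂ → Vec c), IsOpen O ∧
    (s₀, t₀) ∈ O ∧ DifferentiableOn ℂ F O ∧ ∀ z ∈ O, z ≠ (0, 0) → Is (F z) (g z.1 z.2)

/-- Local lifts of `z ↦ g z 1`. -/
theorem loc {g : ℂ → ℂ → Projectivization ℂ (Vec c)} (h : Lifts g) (z₀ : ℂ) :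
    ∃ f : ℂ → Vec c, (∀ k, AnalyticAt ℂ (fun z => f z k) z₀) ∧
      ∀ᶠ z in 𝓝 z₀, Is (f z) (g z 1) := by
  obtain ⟨O, F, hO, hz, hF, hI⟩ := h z₀ 1 (by simp)
  have hcont : Continuous fun z : ℂ => (z, (1 : ℂ)) := by fun_prop
  have hO' : IsOpen ((fun z : ℂ => (z, (1 : ℂ))) ⁻¹' O) := hO.preimage hcont
  have hmem : (fun z : ℂ => (z, (1 : ℂ))) ⁻¹' O ∈ 𝓝 z₀ := hO'.mem_nhds hz
  refine ⟨fun z => F (z, 1), fun k => ?_, ?_⟩
  · have h1 : DifferentiableOn ℂ (fun z : ℂ => F (z, 1)) ((fun z : ℂ => (z, (1 : ℂ))) ⁻¹' O) :=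
      hF.comp (by fun_prop) (fun z hz => hz)
    have h2 : DifferentiableOn ℂ (fun z : ℂ => F (z, 1) k)
        ((fun z : ℂ => (z, (1 : ℂ))) ⁻¹' O) := fun z hz =>
      (differentiableWithinAt_pi.1 (h1 z hz)) k
    exact h2.analyticAt hmem
  · filter_upwards [hmem] with z hz'
    exact hI (z, 1) hz' (by simp)

/-- Local lift at infinity. -/
theorem inf {g : ℂ → ℂ → Projectivization ℂ (Vec c)}
    (hg : ∀ r s t : ℂ, r ≠ 0 → (s, t) ≠ (0, 0) → g (r * s) (r * t) = g s t) (h : Lifts g) :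
    ∃ f : ℂ → Vec c, (∀ k, AnalyticAt ℂ (fun w => f w k) 0) ∧
      ∀ᶠ w in 𝓝[≠] (0 : ℂ), Is (f w) (g w⁻¹ 1) := by
  obtain ⟨O, F, hO, hz, hF, hI⟩ := h 1 0 (by simp)
  have hcont : Continuous fun w : ℂ => ((1 : ℂ), w) := by fun_prop
  have hO' : IsOpen ((fun w : ℂ => ((1 : ℂ), w)) ⁻¹' O) := hO.preimage hcont
  have hmem : (fun w : ℂ => ((1 : ℂ), w)) ⁻¹' O ∈ 𝓝 (0 : ℂ) := hO'.mem_nhds hz
  refine ⟨fun w => F (1, w), fun k => ?_, ?_⟩
  · have h1 : DifferentiableOn ℂ (fun w : ℂ => F (1, w)) ((fun w : ℂ => ((1 : ℂ), w)) ⁻¹' O) :=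
      hF.comp (by fun_prop) (fun z hz => hz)
    have h2 : DifferentiableOn ℂ (fun w : ℂ => F (1, w) k)
        ((fun w : ℂ => ((1 : ℂ), w)) ⁻¹' O) := fun z hz =>
      (differentiableWithinAt_pi.1 (h1 z hz)) k
    exact h2.analyticAt hmem
  · filter_upwards [nhdsWithin_le_nhds hmem, self_mem_nhdsWithin] with w hw hw0
    have hw1 : w ≠ 0 := hw0
    have h3 := hI (1, w) hw (by simp)
    have h4 := hg w⁻¹ 1 w (inv_ne_zero hw1) (by simp)
    rw [mul_one, inv_mul_cancel₀ hw1] at h4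
    rw [h4]
    exact h3

theorem mero (h_ISB : T_ISB) {g : ℂ → ℂ → Projectivization ℂ (Vec c)} (h : Lifts g)
    (i k : Fin (c + 1)) (z₀ : ℂ) : MeromorphicAt (rt g i k) z₀ := by
  obtain ⟨f, hf, hI⟩ := loc h z₀
  refine MeromorphicAt.congr ((hf k).meromorphicAt.div (hf i).meromorphicAt) ?_
  refine Filter.EventuallyEq.filter_mono ?_ nhdsWithin_le_nhds
  filter_upwards [hI] with z hz
  exact (ratio h_ISB _ _ hz i k).1

theorem meroInf (h_ISB : T_ISB) {g : ℂ → ℂ → Projectivization ℂ (Vec c)}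
    (hg : ∀ r s t : ℂ, r ≠ 0 → (s, t) ≠ (0, 0) → g (r * s) (r * t) = g s t) (h : Lifts g)
    (i k : Fin (c + 1)) : MeromorphicAt (fun w => rt g i k w⁻¹) 0 := by
  obtain ⟨f, hf, hI⟩ := inf hg h
  refine MeromorphicAt.congr ((hf k).meromorphicAt.div (hf i).meromorphicAt) ?_
  filter_upwards [hI] with w hw
  exact (ratio h_ISB _ _ hw i k).1

theorem rt_self (g : ℂ → ℂ → Projectivization ℂ (Vec c)) (i : Fin (c + 1)) (z : ℂ) :
    rt g i i z = 0 ↔ (g z 1).rep i = 0 := by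
  unfold rt
  constructor
  · intro h
    by_contra hne
    rw [div_self hne] at h
    exact one_ne_zero h
  · intro h
    rw [h, div_zero]

/-- The `i`-th coordinate does not vanish identically near any point. -/
theorem ev_ne (h_ISB : T_ISB) {g : ℂ → ℂ → Projectivization ℂ (Vec c)} (h : Lifts g)
    (i : Fin (c + 1)) (hi : (g 0 1).rep i ≠ 0) (z₀ : ℂ) : ∀ᶠ z in 𝓝[≠] z₀, rt g i i z ≠ 0 := by
  have hm : MeromorphicOn (rt g i i) Set.univ := fun z _ => mero h_ISB h i i z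
  have h0 : meromorphicOrderAt (rt g i i) 0 ≠ ⊤ := by
    rw [meromorphicOrderAt_ne_top_iff_eventually_ne_zero (mero h_ISB h i i 0)]
    obtain ⟨f, hf, hI⟩ := loc h 0
    have h1 : f 0 i ≠ 0 := fun h2 => hi ((ratio h_ISB _ _ hI.self_of_nhds i i).2.1 h2)
    have h2 : ∀ᶠ z in 𝓝 (0 : ℂ), f z i ≠ 0 := (hf i).continuousAt.eventually_ne h1
    filter_upwards [nhdsWithin_le_nhds h2, nhdsWithin_le_nhds hI] with z hz hz'
    rw [Ne, rt_self]
    exact fun h3 => hz ((ratio h_ISB _ _ hz' i i).2.2 h3)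
  exact (meromorphicOrderAt_ne_top_iff_eventually_ne_zero (mero h_ISB h i i z₀)).1
    (hm.meromorphicOrderAt_ne_top_of_isPreconnected isPreconnected_univ (Set.mem_univ 0)
      (Set.mem_univ z₀) h0)

/-- The `i`-th coordinate does not vanish near infinity. -/
theorem bdd_zeros (h_ISB : T_ISB) {g : ℂ → ℂ → Projectivization ℂ (Vec c)}
    (hg : ∀ r s t : ℂ, r ≠ 0 → (s, t) ≠ (0, 0) → g (r * s) (r * t) = g s t) (h : Lifts g)
    (i : Fin (c + 1)) (hi : (g 0 1).rep i ≠ 0) :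
    ∃ R : ℝ, 0 < R ∧ ∀ z : ℂ, R < ‖z‖ → rt g i i z ≠ 0 := by
  rcases (meroInf h_ISB hg h i i).eventually_eq_zero_or_eventually_ne_zero with h1 | h1
  · exfalso
    rw [eventually_nhdsWithin_iff, Metric.eventually_nhds_iff] at h1
    obtain ⟨δ, hδ, h1⟩ := h1
    have h2 : ∀ z : ℂ, δ⁻¹ < ‖z‖ → rt g i i z = 0 := by
      intro z hz
      have hz0 : 0 < ‖z‖ := lt_trans (inv_pos.2 hδ) hz
      have hz1 : z ≠ 0 := norm_pos_iff.1 hz0
      have h3 := @h1 z⁻¹ (by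
        rw [dist_zero_right, norm_inv]
        exact (inv_lt_comm₀ hδ hz0).1 hz) (inv_ne_zero hz1)
      rwa [inv_inv] at h3
    have h3 : ∀ᶠ z in 𝓝 ((2 * δ⁻¹ : ℝ) : ℂ), δ⁻¹ < ‖z‖ := by
      have ho : IsOpen {z : ℂ | δ⁻¹ < ‖z‖} := isOpen_lt continuous_const continuous_norm
      refine ho.mem_nhds ?_
      have hδ' : 0 < δ⁻¹ := inv_pos.2 hδ
      show δ⁻¹ < ‖((2 * δ⁻¹ : ℝ) : ℂ)‖
      rw [Complex.norm_real, Real.norm_of_nonneg (by positivity)]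
      linarith
    have h4 := ev_ne h_ISB h i hi ((2 * δ⁻¹ : ℝ) : ℂ)
    have h5 : ∀ᶠ z in 𝓝[≠] ((2 * δ⁻¹ : ℝ) : ℂ), False := by
      filter_upwards [h4, nhdsWithin_le_nhds h3] with z hz hz'
      exact hz (h2 z hz')
    rw [eventually_false_iff_eq_bot] at h5
    exact NeBot.ne (inferInstance : NeBot (𝓝[≠] ((2 * δ⁻¹ : ℝ) : ℂ))) h5
  · rw [eventually_nhdsWithin_iff, Metric.eventually_nhds_iff] at h1
    obtain ⟨δ, hδ, h1⟩ := h1
    refine ⟨δ⁻¹, inv_pos.2 hδ, fun z hz => ?_⟩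
    have hz0 : 0 < ‖z‖ := lt_trans (inv_pos.2 hδ) hz
    have hz1 : z ≠ 0 := norm_pos_iff.1 hz0
    have h3 := @h1 z⁻¹ (by
      rw [dist_zero_right, norm_inv]
      exact (inv_lt_comm₀ hδ hz0).1 hz) (inv_ne_zero hz1)
    rwa [inv_inv] at h3

/-- The zeros of the `i`-th coordinate are contained in a finite set. -/
theorem fin_zeros (h_ISB : T_ISB) {g : ℂ → ℂ → Projectivization ℂ (Vec c)}
    (hg : ∀ r s t : ℂ, r ≠ 0 → (s, t) ≠ (0, 0) → g (r * s) (r * t) = g s t) (h : Lifts g)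
    (i : Fin (c + 1)) (hi : (g 0 1).rep i ≠ 0) :
    ∃ Z : Finset ℂ, ∀ z, z ∉ Z → rt g i i z ≠ 0 := by
  obtain ⟨R, _, hR⟩ := bdd_zeros h_ISB hg h i hi
  have h1 : ∀ z₀ : ℂ, {z : ℂ | z ≠ z₀ → rt g i i z ≠ 0} ∈ 𝓝 z₀ := by
    intro z₀
    have h2 := ev_ne h_ISB h i hi z₀
    rw [eventually_nhdsWithin_iff] at h2
    exact h2
  obtain ⟨t, _, ht⟩ := (isCompact_closedBall (0 : ℂ) R).elim_nhds_subcover
    (fun z₀ => {z : ℂ | z ≠ z₀ → rt g i i z ≠ 0}) (fun z₀ _ => h1 z₀)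
  refine ⟨t, fun z hz => ?_⟩
  by_cases hzR : R < ‖z‖
  · exact hR z hzR
  · have h2 := ht (show z ∈ Metric.closedBall (0 : ℂ) R by
      rw [mem_closedBall_zero_iff]
      exact not_lt.1 hzR)
    simp only [Set.mem_iUnion] at h2
    obtain ⟨z₀, hz₀, h3⟩ := h2
    exact h3 (fun h4 => hz (h4 ▸ hz₀))

/-- Polynomials have polynomial growth. -/
theorem poly_growth (P : Polynomial ℂ) : ∃ (C : ℝ) (N : ℕ), 0 ≤ C ∧
    ∀ z : ℂ, ‖P.eval z‖ ≤ C * (1 + ‖z‖) ^ N := by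
  refine ⟨∑ j ∈ Finset.range (P.natDegree + 1), ‖P.coeff j‖, P.natDegree,
    Finset.sum_nonneg fun _ _ => norm_nonneg _, fun z => ?_⟩
  rw [Polynomial.eval_eq_sum_range, Finset.sum_mul]
  refine (norm_sum_le _ _).trans (Finset.sum_le_sum fun j hj => ?_)
  rw [norm_mul, norm_pow]
  refine mul_le_mul_of_nonneg_left ?_ (norm_nonneg _)
  have h1 : ‖z‖ ^ j ≤ (1 + ‖z‖) ^ j := pow_le_pow_left₀ (norm_nonneg _) (by linarith) j
  refine h1.trans (pow_le_pow_right₀ (by linarith [norm_nonneg z]) ?_)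
  rw [Finset.mem_range] at hj
  omega

/-- Growth of the ratios. -/
theorem rt_growth (h_ISB : T_ISB) {g : ℂ → ℂ → Projectivization ℂ (Vec c)}
    (hg : ∀ r s t : ℂ, r ≠ 0 → (s, t) ≠ (0, 0) → g (r * s) (r * t) = g s t) (h : Lifts g)
    (i k : Fin (c + 1)) : ∃ (R C : ℝ) (n : ℕ), 0 ≤ C ∧
    ∀ z : ℂ, R < ‖z‖ → ‖rt g i k z‖ ≤ C * ‖z‖ ^ n := by
  obtain ⟨n, hn⟩ := meroInf h_ISB hg h i k
  have h1 := hn.continuousAt.norm.eventually_lt (continuousAt_const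
    (y := ‖(fun w : ℂ => (w - 0) ^ n • rt g i k w⁻¹) 0‖ + 1)) (lt_add_one _)
  rw [Metric.eventually_nhds_iff] at h1
  obtain ⟨δ, hδ, h1⟩ := h1
  refine ⟨δ⁻¹, ‖(fun w : ℂ => (w - 0) ^ n • rt g i k w⁻¹) 0‖ + 1, n, by positivity,
    fun z hz => ?_⟩
  have hz0 : 0 < ‖z‖ := lt_trans (inv_pos.2 hδ) hz
  have hz1 : z ≠ 0 := norm_pos_iff.1 hz0
  have h3 := @h1 z⁻¹ (by
    rw [dist_zero_right, norm_inv]
    exact (inv_lt_comm₀ hδ hz0).1 hz)
  generalize ‖(fun w : ℂ => (w - 0) ^ n • rt g i k w⁻¹) 0‖ + 1 = B at h3 ⊢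
  beta_reduce at h3
  rw [inv_inv, sub_zero, norm_smul, norm_pow, norm_inv, inv_pow] at h3
  have h4 : 0 < ‖z‖ ^ n := pow_pos hz0 n
  rw [inv_mul_lt_iff₀ h4] at h3
  linarith

end GA1_

open GA1_ in
/-- A holomorphic map from `ℙ^1` to `ℙ^c` is given by polynomials outside a finite set. -/
theorem p_GA1 (h_PGR : T_PGR) (h_ISB : T_ISB) : T_GA1 := by
  intro c g hg h
  have hL : Lifts g := h
  obtain ⟨i, hi⟩ : ∃ i, (g 0 1).rep i ≠ 0 := by
    by_contra hcon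
    push Not at hcon
    exact (g 0 1).rep_nonzero (funext hcon)
  obtain ⟨Z, hZ⟩ := fin_zeros h_ISB hg hL i hi
  choose n hn using fun (k : Fin (c + 1)) (z : ℂ) => mero h_ISB hL i k z
  set M : ℂ → ℕ := fun z => ∑ k, n k z with hM
  have hnM : ∀ k z, n k z ≤ M z := fun k z =>
    Finset.single_le_sum (f := fun k => n k z) (fun _ _ => Nat.zero_le _) (Finset.mem_univ k)
  set q : Polynomial ℂ := ∏ z₁ ∈ Z, (Polynomial.X - Polynomial.C z₁) ^ M z₁ with hq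
  have hqe : ∀ z : ℂ, q.eval z = ∏ z₁ ∈ Z, (z - z₁) ^ M z₁ := by
    intro z
    rw [hq, Polynomial.eval_prod]
    simp
  have hq0 : ∀ z : ℂ, z ∉ Z → q.eval z ≠ 0 := by
    intro z hz
    rw [hqe, Finset.prod_ne_zero_iff]
    intro z₁ hz₁
    exact pow_ne_zero _ (sub_ne_zero.2 fun h2 => hz (h2 ▸ hz₁))
  have hdiff : ∀ k, Differentiable ℂ fun z => q.eval z * rt g i k z := by
    intro k z₀
    by_cases hz : z₀ ∈ Z
    · have h1 : (fun z => q.eval z * rt g i k z) = fun z =>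
          (∏ z₁ ∈ Z.erase z₀, (z - z₁) ^ M z₁) * (z - z₀) ^ (M z₀ - n k z₀) *
            ((z - z₀) ^ n k z₀ • rt g i k z) := by
        funext z
        rw [hqe, ← Finset.mul_prod_erase Z _ hz, smul_eq_mul]
        have h2 : (z - z₀) ^ M z₀ = (z - z₀) ^ (M z₀ - n k z₀) * (z - z₀) ^ n k z₀ := by
          rw [← pow_add, Nat.sub_add_cancel (hnM k z₀)]
        rw [h2]
        ring
      rw [h1]
      have h3 : DifferentiableAt ℂ (fun z : ℂ => ∏ z₁ ∈ Z.erase z₀, (z - z₁) ^ M z₁) z₀ := by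
        fun_prop
      exact (h3.mul (by fun_prop)).mul (hn k z₀).differentiableAt
    · obtain ⟨f, hf, hI⟩ := loc hL z₀
      have h1 : f z₀ i ≠ 0 := by
        intro h2
        have h3 := (ratio h_ISB _ _ hI.self_of_nhds i i).2.1 h2
        exact hZ z₀ hz ((rt_self g i z₀).2 h3)
      have h2 : rt g i k =ᶠ[𝓝 z₀] fun z => f z k / f z i := by
        filter_upwards [hI] with z hz
        exact (ratio h_ISB _ _ hz i k).1.symm
      have h3 : DifferentiableAt ℂ (rt g i k) z₀ :=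
        (((hf k).differentiableAt.div (hf i).differentiableAt h1)).congr_of_eventuallyEq h2
      exact q.differentiable.differentiableAt.mul h3
  obtain ⟨Cq, Nq, hCq, hqg⟩ := poly_growth q
  have hgrow : ∀ k, ∃ (C : ℝ) (N : ℕ), ∀ z : ℂ, ‖q.eval z * rt g i k z‖ ≤ C * (1 + ‖z‖) ^ N := by
    intro k
    obtain ⟨R, C, m, hC, hR⟩ := rt_growth h_ISB hg hL i k
    obtain ⟨B, hB⟩ := (isCompact_closedBall (0 : ℂ) R).exists_bound_of_continuousOn
      (hdiff k).continuous.continuousOn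
    refine ⟨|B| + Cq * C, Nq + m, fun z => ?_⟩
    have h1 : 1 ≤ (1 + ‖z‖) ^ (Nq + m) := one_le_pow₀ (by linarith [norm_nonneg z])
    by_cases hz : R < ‖z‖
    · rw [norm_mul]
      have h2 : ‖q.eval z‖ * ‖rt g i k z‖ ≤ (Cq * (1 + ‖z‖) ^ Nq) * (C * ‖z‖ ^ m) :=
        mul_le_mul (hqg z) (hR z hz) (norm_nonneg _) (by positivity)
      have h3 : ‖z‖ ^ m ≤ (1 + ‖z‖) ^ m := pow_le_pow_left₀ (norm_nonneg _) (by linarith) m
      have h4 : (Cq * (1 + ‖z‖) ^ Nq) * (C * ‖z‖ ^ m) ≤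
          (Cq * (1 + ‖z‖) ^ Nq) * (C * (1 + ‖z‖) ^ m) :=
        mul_le_mul_of_nonneg_left (mul_le_mul_of_nonneg_left h3 hC) (by positivity)
      have h5 : (Cq * (1 + ‖z‖) ^ Nq) * (C * (1 + ‖z‖) ^ m) =
          Cq * C * (1 + ‖z‖) ^ (Nq + m) := by
        rw [pow_add]
        ring
      have h6 : 0 ≤ |B| * (1 + ‖z‖) ^ (Nq + m) := by positivity
      rw [add_mul]
      linarith
    · have h2 := hB z (by
        rw [mem_closedBall_zero_iff]
        exact not_lt.1 hz)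
      have h3 : ‖q.eval z * rt g i k z‖ ≤ |B| := h2.trans (le_abs_self B)
      have h4 : |B| ≤ |B| * (1 + ‖z‖) ^ (Nq + m) := le_mul_of_one_le_right (abs_nonneg _) h1
      have h6 : 0 ≤ Cq * C * (1 + ‖z‖) ^ (Nq + m) := by positivity
      rw [add_mul]
      linarith
  have hP : ∀ k, ∃ P : Polynomial ℂ, ∀ z : ℂ, q.eval z * rt g i k z = P.eval z := by
    intro k
    obtain ⟨C, N, hCN⟩ := hgrow k
    exact h_PGR _ C N (hdiff k) hCN
  choose P hP using hP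
  refine ⟨Z, P, fun z hz => ?_⟩
  have h1 : (g z 1).rep i ≠ 0 := fun h2 => hZ z hz ((rt_self g i z).2 h2)
  have h2 : (fun k => (P k).eval z) = (q.eval z / (g z 1).rep i) • (g z 1).rep := by
    funext k
    rw [← hP k z]
    simp only [rt, Pi.smul_apply, smul_eq_mul]
    ring
  rw [h2]
  exact (h_ISB c).2.2.2.1 _ _ _ (div_ne_zero (hq0 z hz) h1) (is_rep _)

end Pool.Agent.ARC
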