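import Pool.Agent.ARC.Targets

/-!
# ARC: target GAG
-/

set_option autoImplicit false

open Filter Topology

namespace Pool.Agent.ARC

namespace GAG_

theorem form_one (N : ℕ) (P : Polynomial ℂ) (h : P.natDegree ≤ N) (z : ℂ) :
    form N (fun i => P.coeff i) z 1 = P.eval z := by
  unfold form
  rw [Polynomial.eval_eq_sum_range' (Nat.lt_succ_of_le h) z]
  apply Finset.sum_congr rfl
  intro i _
  rw [one_pow, mul_one]

/-- good points near every point -/
theorem dense (Z : Finset ℂ) (s₀ t₀ : ℂ) :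
    ∃ u : ℂ, ∀ᶠ τ in 𝓝[≠] (0 : ℂ), t₀ + τ ≠ 0 ∧ (s₀ + τ * u) / (t₀ + τ) ∉ Z := by
  obtain ⟨u, hu⟩ := Infinite.exists_notMem_finset Z
  refine ⟨u, ?_⟩
  classical
  let B : Finset ℂ := insert (-t₀) (Z.image fun z => -(s₀ - z * t₀) / (u - z))
  have hB : ∀ᶠ τ in 𝓝[≠] (0 : ℂ), τ ∉ B := by
    have h1 : ((B.erase 0 : Finset ℂ) : Set ℂ)ᶜ ∈ 𝓝 (0 : ℂ) := by
      apply (B.erase 0).finite_toSet.isClosed.isOpen_compl.mem_nhds
      simp
    have h2 : ∀ᶠ τ in 𝓝[≠] (0 : ℂ), τ ∈ ((B.erase 0 : Finset ℂ) : Set ℂ)ᶜ :=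
      nhdsWithin_le_nhds h1
    have h3 : ∀ᶠ τ in 𝓝[≠] (0 : ℂ), τ ≠ 0 := eventually_mem_nhdsWithin
    filter_upwards [h2, h3] with τ h4 h5 h6
    exact h4 (Finset.mem_coe.2 (Finset.mem_erase.2 ⟨h5, h6⟩))
  filter_upwards [hB] with τ hτ
  have ht : t₀ + τ ≠ 0 := by
    intro h
    apply hτ
    apply Finset.mem_insert.2
    left
    linear_combination h
  refine ⟨ht, fun hz => hτ ?_⟩
  apply Finset.mem_insert.2
  right
  refine Finset.mem_image.2 ⟨_, hz, ?_⟩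
  set z := (s₀ + τ * u) / (t₀ + τ) with hzd
  have h1 : z * (t₀ + τ) = s₀ + τ * u := by
    rw [hzd, div_mul_cancel₀ _ ht]
  have h2 : u - z ≠ 0 := by
    intro h
    apply hu
    rw [sub_eq_zero.1 h]
    exact hz
  rw [div_eq_iff h2]
  linear_combination h1

end GAG_

theorem p_GAG (h_GA1 : T_GA1) (h_GCD : T_GCD) (h_FRM : T_FRM) (h_ISB : T_ISB) : T_GAG := by
  intro c g hg hloc
  obtain ⟨Z, P, hP⟩ := h_GA1 c g hg hloc
  obtain ⟨-, -, -, hsc, hcc, hcr⟩ := h_ISB c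
  obtain ⟨hhom, hcont, -, -, -⟩ := h_FRM
  set N : ℕ := Finset.univ.sup (fun k => (P k).natDegree) with hN
  have hdeg : ∀ k, (P k).natDegree ≤ N := fun k =>
    Finset.le_sup (f := fun k => (P k).natDegree) (Finset.mem_univ k)
  let T : Fin (c + 1) → ℕ → ℂ := fun k i => (P k).coeff i
  have hT : ∀ z : ℂ, vform N T z 1 = fun k => (P k).eval z := by
    intro z
    funext k
    exact GAG_.form_one N (P k) (hdeg k) z
  have hne : ∃ s t : ℂ, vform N T s t ≠ 0 := by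
    obtain ⟨z, hz⟩ := Infinite.exists_notMem_finset Z
    obtain ⟨h, -⟩ := hP z hz
    refine ⟨z, 1, ?_⟩
    rw [hT z]
    exact h
  obtain ⟨N', K, T', g', hNZ, hfac⟩ := h_GCD c N T hne
  refine ⟨N', T', ?_⟩
  intro s₀ t₀ h0
  obtain ⟨O, F, hO, hmem, hF, hFI⟩ := hloc s₀ t₀ h0
  have hI0 : Is (F (s₀, t₀)) (g s₀ t₀) := hFI (s₀, t₀) hmem h0
  refine hcr (F (s₀, t₀)) (vform N' T' s₀ t₀) (g s₀ t₀) hI0 (hNZ s₀ t₀ h0) ?_
  intro i j
  -- good points
  have hgood : ∀ s t : ℂ, (s, t) ∈ O → t ≠ 0 → s / t ∉ Z →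
      F (s, t) i * vform N' T' s t j = F (s, t) j * vform N' T' s t i := by
    intro s t hst ht hz
    have e0 : g s t = g (s / t) 1 := by
      have := hg t (s / t) 1 ht (by simp)
      rw [mul_one, mul_div_cancel₀ _ ht] at this
      exact this
    have e1 : Is (vform N T (s / t) 1) (g s t) := by
      rw [hT, e0]
      exact hP _ hz
    have e2 : vform N T s t = t ^ N • vform N T (s / t) 1 := by
      funext k
      have := hhom N (T k) t (s / t) 1
      rw [mul_one, mul_div_cancel₀ _ ht] at this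
      exact this
    have e3 : Is (vform N T s t) (g s t) := by
      rw [e2]
      exact hsc _ _ _ (pow_ne_zero _ ht) e1
    have hne0 : (s, t) ≠ (0, 0) := by
      intro h
      exact ht (congrArg Prod.snd h)
    have e4 : Is (F (s, t)) (g s t) := hFI (s, t) hst hne0
    obtain ⟨r, hr, hrr⟩ := hcc _ _ _ e4 e3
    rw [hfac s t] at hrr
    have hi : form K g' s t * vform N' T' s t i = r * F (s, t) i := congrFun hrr i
    have hj : form K g' s t * vform N' T' s t j = r * F (s, t) j := congrFun hrr j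
    have : r * (F (s, t) i * vform N' T' s t j) = r * (F (s, t) j * vform N' T' s t i) := by
      linear_combination (-vform N' T' s t j) * hi + vform N' T' s t i * hj
    exact mul_left_cancel₀ hr this
  -- the limit
  obtain ⟨u, hu⟩ := GAG_.dense Z s₀ t₀
  let γ : ℂ → ℂ × ℂ := fun τ => (s₀ + τ * u, t₀ + τ)
  have hγc : Continuous γ := by fun_prop
  have hγ0 : γ 0 = (s₀, t₀) := by simp [γ]
  have hγt : Tendsto γ (𝓝[≠] 0) (𝓝 (s₀, t₀)) := by
    have := hγc.tendsto 0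
    rw [hγ0] at this
    exact this.mono_left nhdsWithin_le_nhds
  have hFc : ContinuousAt F (s₀, t₀) := (hF.differentiableAt (hO.mem_nhds hmem)).continuousAt
  have hvc : ∀ k, Continuous fun z : ℂ × ℂ => vform N' T' z.1 z.2 k := fun k => hcont N' (T' k)
  have hl : Tendsto (fun τ => F (γ τ) i * vform N' T' (γ τ).1 (γ τ).2 j) (𝓝[≠] 0)
      (𝓝 (F (s₀, t₀) i * vform N' T' s₀ t₀ j)) := by
    have h1 : Tendsto (fun τ => F (γ τ) i) (𝓝[≠] 0) (𝓝 (F (s₀, t₀) i)) :=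
      ((continuous_apply i).continuousAt.tendsto.comp hFc.tendsto).comp hγt
    have h2 : Tendsto (fun τ => vform N' T' (γ τ).1 (γ τ).2 j) (𝓝[≠] 0)
        (𝓝 (vform N' T' s₀ t₀ j)) :=
      ((hvc j).tendsto (s₀, t₀)).comp hγt
    exact h1.mul h2
  have hr : Tendsto (fun τ => F (γ τ) j * vform N' T' (γ τ).1 (γ τ).2 i) (𝓝[≠] 0)
      (𝓝 (F (s₀, t₀) j * vform N' T' s₀ t₀ i)) := by
    have h1 : Tendsto (fun τ => F (γ τ) j) (𝓝[≠] 0) (𝓝 (F (s₀, t₀) j)) :=
      ((continuous_apply j).continuousAt.tendsto.comp hFc.tendsto).comp hγt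
    have h2 : Tendsto (fun τ => vform N' T' (γ τ).1 (γ τ).2 i) (𝓝[≠] 0)
        (𝓝 (vform N' T' s₀ t₀ i)) :=
      ((hvc i).tendsto (s₀, t₀)).comp hγt
    exact h1.mul h2
  have hev : (fun τ => F (γ τ) i * vform N' T' (γ τ).1 (γ τ).2 j) =ᶠ[𝓝[≠] 0]
      fun τ => F (γ τ) j * vform N' T' (γ τ).1 (γ τ).2 i := by
    have hOe : ∀ᶠ τ in 𝓝[≠] (0 : ℂ), γ τ ∈ O := hγt (hO.mem_nhds hmem)
    filter_upwards [hOe, hu] with τ h1 h2
    exact hgood _ _ h1 h2.1 h2.2
  exact tendsto_nhds_unique (hl.congr' hev) hr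

end Pool.Agent.ARC
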