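import Pool.Agent.ARC.Targets

set_option autoImplicit false

/-!
# ARC: GCD, removal of the common zeros (helper21)
-/

namespace Pool.Agent.ARC

theorem p_GCD (h_DIV : T_DIV) (h_FRM : T_FRM) : T_GCD := by
  intro a N
  induction N with
  | zero =>
    intro T hT
    refine ⟨0, 0, T, fun _ => 1, ?_, fun s t => ?_⟩
    · intro s t _ h
      obtain ⟨s', t', h'⟩ := hT
      apply h'
      funext i
      have e := congrFun h i
      simpa [vform, form] using e
    · simp [form]
  | succ N ih =>
    intro T hT
    by_cases hz : NoZero (N + 1) T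
    · refine ⟨N + 1, 0, T, fun _ => 1, hz, fun s t => ?_⟩
      simp [form]
    · unfold NoZero at hz
      push Not at hz
      obtain ⟨s₀, t₀, hst, h0⟩ := hz
      have h1 : ∀ i, ∃ c' : ℕ → ℂ, ∀ s t : ℂ,
          form (N + 1) (T i) s t = (t₀ * s - s₀ * t) * form N c' s t :=
        fun i => h_DIV N (T i) s₀ t₀ hst (congrFun h0 i)
      choose T' hT' using h1
      have h2 : ∀ s t : ℂ, vform (N + 1) T s t = (t₀ * s - s₀ * t) • vform N T' s t := by
        intro s t
        funext i
        exact hT' i s t
      have h3 : ∃ s t : ℂ, vform N T' s t ≠ 0 := by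
        obtain ⟨s, t, h⟩ := hT
        refine ⟨s, t, fun h' => h ?_⟩
        rw [h2, h', smul_zero]
      obtain ⟨N', K, T'', g, h4, h5⟩ := ih T' h3
      obtain ⟨e, he⟩ := h_FRM.2.2.2.1 1 K (fun i => if i = 0 then -s₀ else t₀) g
      refine ⟨N', 1 + K, T'', e, h4, fun s t => ?_⟩
      rw [h2, h5, ← he, smul_smul]
      congr 2
      simp [form, Finset.sum_range_succ]
      ring

end Pool.Agent.ARC
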