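import Pool.Agent.ARC.Targets4

set_option autoImplicit false

/-!
# ARC: RGS and GEN, the general form of the main theorem
-/

open Filter Topology

namespace Pool.Agent.ARC

theorem p_RGS (h_TYP : T_TYP) (h_OPS : T_OPS) (h_RIG : T_RIG) (h_SWP : T_SWP) : T_RGS := by
  intro a b c d X Y φ hX hXc hφ hφX hS hch k l f hf x₀ hx₀ hc
  have hopen' : ∀ U : Set (PP a b), IsOpen U →
      ∃ V : Set (PP c d), IsOpen V ∧ φ '' (X ∩ U) = φ '' X ∩ V := by
    intro U hU
    obtain ⟨V, hV, h⟩ := h_OPS a b c d X Y φ hφX hS U hU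
    exact ⟨V, hV, by rw [hφX]; exact h⟩
  have hs := h_SWP a b k l X f
  refine h_RIG a b c d k l X Y φ f hφX hS hf ?_
  have h2 : ∀ x ∈ X, ∀ x' ∈ X, φ x = φ x' → (f x).2 = (f x').2 := by
    rcases h_TYP a b c d k l X φ f hX hXc hφ hopen' hch hf with h | h
    · exact h
    · obtain ⟨x', hx', he, hne⟩ := h x₀ hx₀
      exact absurd (by rw [hc x' hx' he]) hne
  have h1 : ∀ x ∈ X, ∀ x' ∈ X, φ x = φ x' → (f x).1 = (f x').1 := by
    rcases h_TYP a b c d l k X φ (fun x => (f x).swap) hX hXc hφ hopen' hch (hs.1 hf) with h | h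
    · exact h
    · obtain ⟨x', hx', he, hne⟩ := h x₀ hx₀
      exact absurd (by rw [hc x' hx' he]) hne
  intro x hx x' hx' he
  exact Prod.ext (h1 x hx x' hx' he) (h2 x hx x' hx' he)

/-- Rigidity gives the dichotomy for the second component. -/
theorem dich {a b c d m n : ℕ} {X : Set (PP a b)} {Y : Set (PP c d)} {φ : PP a b → PP c d}
    (hR : Rigid X Y φ) {j : PP a b → PP m n} (hj : HolOn X j) :
    (∀ x ∈ X, ∀ x' ∈ X, φ x = φ x' → (j x).2 = (j x').2) ∨
      (∀ x ∈ X, ∃ x' ∈ X, φ x' = φ x ∧ (j x').2 ≠ (j x).2) := by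
  by_cases h : ∀ x ∈ X, ∃ x' ∈ X, φ x' = φ x ∧ (j x').2 ≠ (j x).2
  · exact Or.inr h
  · left
    push Not at h
    obtain ⟨x₀, hx₀, hc⟩ := h
    have h1 : (1 : Vec 0) ≠ 0 := by
      intro h0
      have := congrFun h0 0
      simp at this
    have hf : HolOn X (fun x => ((Projectivization.mk ℂ (1 : Vec 0) h1, (j x).2) : PP 0 n)) := by
      intro x hx v₀ w₀ hv₀ hw₀
      obtain ⟨O, F, G, hO, hmem, hF, hG, h⟩ := hj x hx v₀ w₀ hv₀ hw₀
      refine ⟨O, fun _ => 1, G, hO, hmem, differentiableOn_const _, hG, ?_⟩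
      intro y hy v w hvw hv hw
      exact ⟨⟨h1, rfl⟩, (h y hy v w hvw hv hw).2⟩
    obtain ⟨g, -, hg⟩ := hR 0 n _ hf x₀ hx₀ (fun x hx he => by
      simp only [hc x hx he])
    intro x hx x' hx' he
    have e1 := hg x hx
    have e2 := hg x' hx'
    rw [he] at e1
    rw [← e2] at e1
    exact (Prod.mk.inj e1).2

theorem p_GEN (h_RGS : T_RGS) (h_T12 : T_T12) (h_TY1 : T_TY1) (h_SWP : T_SWP) (h_JRC : T_JRC) :
    T_GEN := by
  intro a b c d X Y φ hX hXc hφ hφX hSR hne hch hsc hY m n j hj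
  have hR : Rigid X Y φ := by
    rcases hSR with h | h
    · exact h_RGS a b c d X Y φ hX hXc hφ hφX h hch
    · exact h
  have hfac : ∀ (k l : ℕ) (f : PP a b → PP k l), HolOn X f →
      (∀ x ∈ X, ∀ x' ∈ X, φ x = φ x' → f x = f x') →
      ∃ g : PP c d → PP k l, HolOn Y g ∧ ∀ x ∈ X, f x = g (φ x) := by
    intro k l f hf hc
    rcases X.eq_empty_or_nonempty with h0 | ⟨x₀, hx₀⟩
    · subst h0
      refine ⟨fun _ => Classical.choice ⟨(Projectivization.mk ℂ (1 : Vec k) (by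
          intro h0; have := congrFun h0 0; simp at this), Projectivization.mk ℂ (1 : Vec l) (by
          intro h0; have := congrFun h0 0; simp at this))⟩, ?_, fun x hx => absurd hx (by simp)⟩
      intro y hy
      rw [← hφX] at hy
      simp at hy
    · exact hR k l f hf x₀ hx₀ (fun x hx he => hc x hx x₀ hx₀ he)
  have hs := h_SWP a b m n X j
  rcases dich hR hj.1 with h1 | h1
  · exact h_TY1 a b c d m n X Y φ j hX hφ hφX hne hch hfac hsc hj h1 hY
  rcases dich hR (j := fun x => (j x).swap) (hs.1 hj.1) with h2 | h2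
  · exact hs.2.2.2 (h_TY1 a b c d n m X Y φ (fun x => (j x).swap) hX hφ hφX hne hch hfac hsc
      (hs.2.1 hj) h2 hY)
  · intro U hU hjU x hx y hy hxy
    obtain ⟨x₁, hx₁, rfl⟩ := hx
    obtain ⟨x₂, hx₂, rfl⟩ := hy
    exact h_JRC m n U _ _ (h_T12 a b c d m n X φ j U hXc hj.1 hU hjU hch h2 h1 x₁ hx₁ x₂ hx₂) hxy

end Pool.Agent.ARC
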