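import Pool.Agent.ARC.Targets5
import Pool.Agent.ARC.P_GEN

set_option autoImplicit false

/-!
# ARC: GEE, the main theorem, elliptic version
-/

open Filter Topology

namespace Pool.Agent.ARC

theorem p_GEE (h_RGS : T_RGS) (h_T12 : T_T12) (h_TYE : T_TYE) (h_SWP : T_SWP) (h_SWN : T_SWN)
    (h_RTE : T_RTE) : T_GEE := by
  intro a b c d X Y φ hX hXc hφ hφX hSR hne hch hsc hY m n j hj
  have hR : Rigid X Y φ := by
    rcases hSR with h | h
    · exact h_RGS a b c d X Y φ hX hXc hφ hφX h hch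
    · exact h
  have hfac : ∀ (k l : ℕ) (f : PP a b → PP k l), HolOn X f →
      (∀ x ∈ X, ∀ x' ∈ X, φ x = φ x' → f x = f x') →
      ∃ g : PP c d → PP k l, HolOn Y g ∧ ∀ x ∈ X, f x = g (φ x) := by
    intro k l f hf hc
    rcases X.eq_empty_or_nonempty with h0 | ⟨x₀, hx₀⟩
    · subst h0
      refine ⟨fun _ => Classical.choice ⟨(Projectivization.mk ℂ (1 : Vec k) (by
          intro h0; have := congrFun h0 0; simp at this), Projectivization.mk ℂ (1 : Vec l) (by
          intro h0; have := congrFun h0 0; simp at this))⟩, ?_, fun x hx => absurd hx (by simp)⟩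
      intro y hy
      rw [← hφX] at hy
      simp at hy
    · exact hR k l f hf x₀ hx₀ (fun x hx he => hc x hx x₀ hx₀ he)
  have hs := h_SWP a b m n X j
  rcases dich hR hj.1 with h1 | h1
  · exact h_TYE a b c d m n X Y φ j hX hφ hφX hne hch hfac hsc hj h1 hY
  rcases dich hR (j := fun x => (j x).swap) (hs.1 hj.1) with h2 | h2
  · exact h_SWN a b m n X j (h_TYE a b c d n m X Y φ (fun x => (j x).swap) hX hφ hφX hne hch
      hfac hsc (hs.2.1 hj) h2 hY)
  · intro U hU hjU x hx y hy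
    obtain ⟨x₁, hx₁, rfl⟩ := hx
    obtain ⟨x₂, hx₂, rfl⟩ := hy
    exact h_RTE m n U _ _ (h_T12 a b c d m n X φ j U hXc hj.1 hU hjU hch h2 h1 x₁ hx₁ x₂ hx₂)

end Pool.Agent.ARC
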