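import Pool.Agent.ARC.Targets3

set_option autoImplicit false

open Filter Topology

namespace Pool.Agent.ARC

namespace GRD_

/-- the local coordinate -/
noncomputable def pj (i : ℤ) (x : ℝ) : unitInterval :=
  Set.projIcc (0 : ℝ) 1 zero_le_one (x - i)

theorem pj_cont (i : ℤ) : Continuous (pj i) :=
  continuous_projIcc.comp (continuous_id.sub continuous_const)

theorem pj_val {i : ℤ} {x : ℝ} (h1 : (i : ℝ) ≤ x) (h2 : x ≤ i + 1) :
    ((pj i x : unitInterval) : ℝ) = x - i := by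
  unfold pj
  rw [Set.projIcc_of_mem zero_le_one (x := x - i) ⟨by linarith, by linarith⟩]

theorem pj_one (i : ℤ) : pj i ((i : ℝ) + 1) = 1 := by
  apply Subtype.ext
  rw [pj_val (by linarith) le_rfl]
  simp

theorem pj_zero (i : ℤ) : pj i (i : ℝ) = 0 := by
  apply Subtype.ext
  rw [pj_val le_rfl (by linarith)]
  simp

theorem step {S : Type} (G : ℤ → unitInterval → S) (hG : ∀ i, G (i + 1) 0 = G i 1)
    (i : ℤ) (x : ℝ) (h1 : (i : ℝ) ≤ x) (h2 : x ≤ i + 1) :
    G ⌊x⌋ (pj ⌊x⌋ x) = G i (pj i x) := by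
  rcases h2.lt_or_eq with h | h
  · have : ⌊x⌋ = i := by
      rw [Int.floor_eq_iff]
      exact ⟨h1, h⟩
    rw [this]
  · have : ⌊x⌋ = i + 1 := by
      rw [Int.floor_eq_iff]
      push_cast
      constructor
      · linarith
      · linarith
    rw [this, h]
    have e1 : pj (i + 1) ((i : ℝ) + 1) = 0 := by
      have := pj_zero (i + 1)
      push_cast at this
      exact this
    rw [e1, hG i, pj_one]

theorem lf : LocallyFinite fun p : ℤ × ℤ =>
    (Set.Icc (p.1 : ℝ) (p.1 + 1)) ×ˢ (Set.Icc (p.2 : ℝ) (p.2 + 1)) := by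
  intro x
  refine ⟨Set.Ioo (x.1 - 1) (x.1 + 1) ×ˢ Set.Ioo (x.2 - 1) (x.2 + 1), ?_, ?_⟩
  · apply prod_mem_nhds
    · exact Ioo_mem_nhds (by linarith) (by linarith)
    · exact Ioo_mem_nhds (by linarith) (by linarith)
  · apply Set.Finite.subset
      ((Set.finite_Icc (⌊x.1⌋ - 2) (⌊x.1⌋ + 2)).prod (Set.finite_Icc (⌊x.2⌋ - 2) (⌊x.2⌋ + 2)))
    rintro ⟨i, j⟩ ⟨⟨y, z⟩, ⟨hy, hz⟩, hy', hz'⟩
    simp only [Set.mem_Icc, Set.mem_Ioo] at hy hz hy' hz'
    have a1 := Int.floor_le x.1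
    have a2 := Int.lt_floor_add_one x.1
    have b1 := Int.floor_le x.2
    have b2 := Int.lt_floor_add_one x.2
    refine ⟨⟨?_, ?_⟩, ⟨?_, ?_⟩⟩
    · have : ((⌊x.1⌋ - 2 : ℤ) : ℝ) ≤ (i : ℝ) := by
        push_cast
        linarith
      exact_mod_cast this
    · have : (i : ℝ) ≤ ((⌊x.1⌋ + 2 : ℤ) : ℝ) := by
        push_cast
        linarith
      exact_mod_cast this
    · have : ((⌊x.2⌋ - 2 : ℤ) : ℝ) ≤ (j : ℝ) := by
        push_cast
        linarith
      exact_mod_cast this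
    · have : (j : ℝ) ≤ ((⌊x.2⌋ + 2 : ℤ) : ℝ) := by
        push_cast
        linarith
      exact_mod_cast this

end GRD_

open GRD_ in
theorem p_GRD : T_GRD := by
  intro S _ h hh F hF hy hx
  set τ : ℝ × ℝ → S := fun p => F ⌊p.1⌋ ⌊p.2⌋ (pj ⌊p.1⌋ p.1, pj ⌊p.2⌋ p.2) with hτ
  have key : ∀ (i j : ℤ) (p : ℝ × ℝ), (i : ℝ) ≤ p.1 → p.1 ≤ i + 1 → (j : ℝ) ≤ p.2 →
      p.2 ≤ j + 1 → τ p = F i j (pj i p.1, pj j p.2) := by
    intro i j p h1 h2 h3 h4
    have e1 := step (fun i' v => F i' ⌊p.2⌋ (v, pj ⌊p.2⌋ p.2)) (fun i' => hx i' ⌊p.2⌋ _) i p.1 h1 h2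
    have e2 := step (fun j' v => F i j' (pj i p.1, v)) (fun j' => hy i j' _) j p.2 h3 h4
    simp only [hτ]
    exact e1.trans e2
  have cτ : Continuous τ := by
    apply LocallyFinite.continuous lf
    · rw [Set.eq_univ_iff_forall]
      intro p
      rw [Set.mem_iUnion]
      refine ⟨(⌊p.1⌋, ⌊p.2⌋), ⟨Int.floor_le _, (Int.lt_floor_add_one _).le⟩,
        ⟨Int.floor_le _, (Int.lt_floor_add_one _).le⟩⟩
    · intro p
      exact isClosed_Icc.prod isClosed_Icc
    · rintro ⟨i, j⟩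
      have : ContinuousOn (fun p : ℝ × ℝ => F i j (pj i p.1, pj j p.2))
          (Set.Icc (i : ℝ) (i + 1) ×ˢ Set.Icc (j : ℝ) (j + 1)) := by
        apply Continuous.continuousOn
        exact (hF i j).comp (((pj_cont i).comp continuous_fst).prodMk
          ((pj_cont j).comp continuous_snd))
      apply this.congr
      rintro p ⟨⟨h1, h2⟩, h3, h4⟩
      exact key i j p h1 h2 h3 h4
  refine ⟨fun z => τ (z.re / h, z.im / h), ?_, ?_⟩
  · apply cτ.comp
    exact (Complex.continuous_re.div_const h).prodMk (Complex.continuous_im.div_const h)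
  · intro i j x y
    have e1 : ((((i + x) * h : ℝ) + ((j + y) * h : ℝ) * Complex.I : ℂ)).re / h = i + x := by
      simp
      field_simp
    have e2 : ((((i + x) * h : ℝ) + ((j + y) * h : ℝ) * Complex.I : ℂ)).im / h = j + y := by
      simp
      field_simp
    simp only [e1, e2]
    have hx0 := x.2.1
    have hx1 := x.2.2
    have hy0 := y.2.1
    have hy1 := y.2.2
    rw [key i j _ (by simpa using hx0) (by simpa using hx1) (by simpa using hy0)
      (by simpa using hy1)]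
    congr 2
    · apply Subtype.ext
      rw [pj_val (by simpa using hx0) (by simpa using hx1)]
      simp
    · apply Subtype.ext
      rw [pj_val (by simpa using hy0) (by simpa using hy1)]
      simp

end Pool.Agent.ARC
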