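import Pool.Agent.ARC.Targets2

set_option autoImplicit false

/-!
# ARC: GST, one gluing step
-/

noncomputable section

open Filter Topology

namespace Pool.Agent.ARC

namespace GST_

theorem near {a b : ℕ} {O : Set (Vec a × Vec b)} (hO : IsOpen O) {S : Set ℂ}
    (hS : IsCompact S) {g : ℂ → Vec a} {W : ℂ → Vec b} (hg : ContinuousOn g S)
    (hW : ContinuousOn W S) (h : ∀ x ∈ S, (g x, W x) ∈ O) :
    ∃ ε₁ : ℝ, 0 < ε₁ ∧ ∀ x ∈ S, ∀ u : Vec a, ‖u - g x‖ < ε₁ → (u, W x) ∈ O := by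
  have hK : IsCompact ((fun x => (g x, W x)) '' S) := hS.image_of_continuousOn (hg.prodMk hW)
  obtain ⟨δ, hδ, hsub⟩ := hK.exists_thickening_subset_open hO
    (by rintro _ ⟨x, hx, rfl⟩; exact h x hx)
  refine ⟨δ, hδ, ?_⟩
  intro x hx u hu
  apply hsub
  rw [Metric.mem_thickening_iff]
  refine ⟨(g x, W x), ⟨x, hx, rfl⟩, ?_⟩
  rw [Prod.dist_eq, dist_self, dist_eq_norm]
  exact max_lt hu hδ

theorem pv_cont {a : ℕ} (P : Fin (a + 1) → Polynomial ℂ) : Continuous (pv P) :=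
  continuous_pi fun i => (P i).continuous

/-- `L` is continuous away from `0`. -/
theorem L_cont {a : ℕ} {L : ℂ → Vec a} {J : ℕ} {G : Fin (a + 1) → Polynomial ℂ}
    (hL : ∀ x : ℂ, x ≠ 0 → x ^ J • L x = pv G x) {S : Set ℂ} (hS : ∀ x ∈ S, x ≠ 0) :
    ContinuousOn L S := by
  have h0 : ContinuousOn (fun x : ℂ => (x ^ J)⁻¹) S :=
    ContinuousOn.inv₀ (continuous_pow J).continuousOn fun x hx => pow_ne_zero _ (hS x hx)
  have h1 : ContinuousOn (fun x : ℂ => (x ^ J)⁻¹ • pv G x) S :=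
    h0.smul (pv_cont G).continuousOn
  refine h1.congr ?_
  intro x hx
  have h2 : x ^ J ≠ 0 := pow_ne_zero _ (hS x hx)
  simp only
  rw [← hL x (hS x hx), smul_smul, inv_mul_cancel₀ h2, one_smul]

/-- Membership for a vector close to a multiple. -/
theorem mem_of {a b : ℕ} {O : Set (Vec a × Vec b)} (hC : Conic O) {ε₁ ε₂ : ℝ} (hε : ε₂ < ε₁)
    {v g : Vec a} {w : Vec b} {z : ℂ} (hz : z ≠ 0)
    (h : ∀ u : Vec a, ‖u - g‖ < ε₁ → (u, w) ∈ O) (hv : ‖v - z • g‖ ≤ ε₂ * ‖z‖) :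
    (v, w) ∈ O := by
  have hz' : 0 < ‖z‖ := norm_pos_iff.mpr hz
  have h1 : ‖z⁻¹ • v - g‖ < ε₁ := by
    have h2 : z⁻¹ • v - g = z⁻¹ • (v - z • g) := by
      rw [smul_sub, smul_smul, inv_mul_cancel₀ hz, one_smul]
    rw [h2, norm_smul, norm_inv]
    calc ‖z‖⁻¹ * ‖v - z • g‖ ≤ ‖z‖⁻¹ * (ε₂ * ‖z‖) := by gcongr
      _ = ε₂ := by field_simp
      _ < ε₁ := hε
  have h3 := hC z 1 (z⁻¹ • v) w hz one_ne_zero (h _ h1)
  rwa [smul_smul, mul_inv_cancel₀ hz, one_smul, one_smul] at h3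

theorem one_add_ne {x : ℂ} {n : ℕ} (h : ‖x ^ n‖ ≠ 1) : 1 + x ^ n ≠ 0 := by
  intro h0
  apply h
  have h1 : x ^ n = -1 := by linear_combination h0
  rw [h1, norm_neg, norm_one]

end GST_

theorem p_GST (h_COR : T_COR) : T_GST := by
  intro a b O M ε C hO hC hM hε
  obtain ⟨η, hη, hcor⟩ := h_COR a b O M ε C hC hM hε
  refine ⟨η, hη, ?_⟩
  intro W L J G P hW hL hBD hP hPL R₁ hR₁ hLO ε' hε'
  obtain ⟨δ₀, hδ₀, hδ₀1, hcor⟩ := hcor W L J (Finset.univ.sup fun i => (G i).natDegree) G P hW hL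
    (fun i => (Finset.le_sup (f := fun i => (G i).natDegree) (Finset.mem_univ i)).trans
      (Nat.le_add_left _ _)) hBD hPL
  set δ : ℝ := min δ₀ (R₁ - 1) with hδdef
  have hδ : 0 < δ := lt_min hδ₀ (by linarith)
  have hδ1 : δ ≤ δ₀ := min_le_left _ _
  have hδ2 : δ ≤ R₁ - 1 := min_le_right _ _
  -- the compact sets
  obtain ⟨ε₁, hε₁, hin⟩ := GST_.near hO (isCompact_closedBall (0 : ℂ) 1)
    (GST_.pv_cont P).continuousOn hW.continuousOn
    (fun x hx => hP x (by simpa using hx))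
  have hAc : IsCompact {x : ℂ | 1 ≤ ‖x‖ ∧ ‖x‖ ≤ R₁} := by
    have h1 : {x : ℂ | 1 ≤ ‖x‖ ∧ ‖x‖ ≤ R₁} = Metric.closedBall 0 R₁ ∩ {x : ℂ | 1 ≤ ‖x‖} := by
      ext x
      simp [and_comm]
    rw [h1]
    exact (isCompact_closedBall _ _).inter_right (isClosed_le continuous_const continuous_norm)
  have hA0 : ∀ x ∈ {x : ℂ | 1 ≤ ‖x‖ ∧ ‖x‖ ≤ R₁}, x ≠ 0 := by
    rintro x ⟨hx, -⟩ rfl
    rw [norm_zero] at hx
    linarith
  have hLc := GST_.L_cont hL hA0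
  obtain ⟨ε₂, hε₂, hout⟩ := GST_.near hO hAc hLc hW.continuousOn
    (fun x hx => hLO x hx.1 hx.2)
  obtain ⟨B, hB⟩ := (hAc.image_of_continuousOn hLc).isBounded.exists_norm_le
  have hB0 : 0 ≤ B := by
    have h1 := hB (L 1) ⟨1, ⟨by simp, by simpa using hR₁.le⟩, rfl⟩
    exact (norm_nonneg _).trans h1
  -- the constants
  set e : ℝ := min (min (ε₁ / 2) (ε₂ / 2)) (ε' / 4) with hedef
  have he : 0 < e := by positivity
  have he1 : e < ε₁ := lt_of_le_of_lt ((min_le_left _ _).trans (min_le_left _ _)) (by linarith)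
  have he2 : e < ε₂ := lt_of_le_of_lt ((min_le_left _ _).trans (min_le_right _ _)) (by linarith)
  have he3 : e ≤ ε' / 4 := min_le_right _ _
  obtain ⟨n₀, hn₀⟩ := hcor δ hδ hδ1 e he
  -- smallness of the inverse power
  have hcw : Tendsto (fun w : ℂ => (1 + w) ^ M) (𝓝 0) (𝓝 1) := by
    have h1 : Continuous fun w : ℂ => (1 + w) ^ M := by fun_prop
    have h2 := h1.tendsto 0
    simpa using h2
  obtain ⟨ρ, hρ, hρ1⟩ := Metric.tendsto_nhds_nhds.mp hcw (min 1 (ε' / (2 * (B + 1))))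
    (by positivity)
  have hR0 : 0 < R₁ := by linarith
  obtain ⟨n₁, hn₁⟩ := exists_pow_lt_of_lt_one hρ (inv_lt_one_of_one_lt₀ hR₁)
  set n : ℕ := max (max n₀ n₁) 1 with hn
  have hnn₀ : n₀ ≤ n := (le_max_left _ _).trans (le_max_left _ _)
  have hnn₁ : n₁ ≤ n := (le_max_right _ _).trans (le_max_left _ _)
  have hn1 : 1 ≤ n := le_max_right _ _
  have hn0 : n ≠ 0 := by omega
  obtain ⟨P', hP1, hP2, hP3, -, -⟩ := hn₀ n hnn₀
  refine ⟨n * M, P', ?_, ?_, ?_⟩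
  · intro x hx
    rcases le_or_gt ‖x‖ (1 - δ) with h1 | h1
    · have h2 : ‖x ^ n‖ ≠ 1 := by
        rw [norm_pow]
        exact (pow_lt_one₀ (norm_nonneg _) (by linarith) hn0).ne
      have h3 : (1 + x ^ n) ^ M ≠ 0 := pow_ne_zero _ (GST_.one_add_ne h2)
      exact GST_.mem_of hC he1 h3 (hin x (by simp; linarith)) (hP2 x h1)
    · rcases le_or_gt ‖x‖ (1 + δ) with h4 | h4
      · exact hP1 x h1.le h4
      · have h2 : ‖x ^ n‖ ≠ 1 := by
          rw [norm_pow]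
          exact (one_lt_pow₀ (by linarith) hn0).ne'
        have h3 : (1 + x ^ n) ^ M ≠ 0 := pow_ne_zero _ (GST_.one_add_ne h2)
        exact GST_.mem_of hC he2 h3 (hout x ⟨by linarith, hx⟩) (hP3 x h4.le)
  · have h1 := hP2 0 (by rw [norm_zero]; linarith)
    rw [zero_pow hn0, add_zero, one_pow, one_smul, norm_one, mul_one] at h1
    linarith
  · intro x hx
    have hx0 : x ≠ 0 := by
      rintro rfl
      rw [norm_zero] at hx
      linarith
    have hxn : x ^ n ≠ 0 := pow_ne_zero _ hx0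
    set w : ℂ := (x ^ n)⁻¹ with hw
    have hw1 : ‖w‖ < ρ := by
      rw [hw, norm_inv, norm_pow, hx, ← inv_pow]
      refine lt_of_le_of_lt ?_ hn₁
      exact pow_le_pow_of_le_one (by positivity) (inv_le_one_of_one_le₀ hR₁.le) hnn₁
    have hw2 := hρ1 (x := w) (by rwa [dist_zero_right])
    rw [dist_eq_norm] at hw2
    have hw3 : ‖(1 + w) ^ M - 1‖ ≤ 1 := hw2.le.trans (min_le_left _ _)
    have hw4 : ‖(1 + w) ^ M - 1‖ ≤ ε' / (2 * (B + 1)) := hw2.le.trans (min_le_right _ _)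
    have hw5 : ‖(1 + w) ^ M‖ ≤ 2 := by
      have h1 : (1 + w) ^ M = ((1 + w) ^ M - 1) + 1 := by ring
      rw [h1]
      refine (norm_add_le _ _).trans ?_
      rw [norm_one]
      linarith
    have h5 : (1 + x ^ n) ^ M = x ^ (n * M) * (1 + w) ^ M := by
      rw [pow_mul, ← mul_pow]
      congr 1
      rw [hw, mul_add, mul_one, mul_inv_cancel₀ hxn]
      ring
    have hk : 0 < ‖x‖ ^ (n * M) := by rw [hx]; positivity
    have h6 := hP3 x (by rw [hx]; linarith)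
    rw [h5, norm_mul, norm_pow] at h6
    have h7 : ‖L x‖ ≤ B := hB (L x) ⟨x, ⟨by rw [hx]; linarith, hx.le⟩, rfl⟩
    have h8 : pv P' x - x ^ (n * M) • L x =
        (pv P' x - (x ^ (n * M) * (1 + w) ^ M) • L x) +
          (x ^ (n * M) * ((1 + w) ^ M - 1)) • L x := by
      rw [mul_sub, mul_one, sub_smul]
      abel
    rw [h8]
    refine (norm_add_le _ _).trans ?_
    rw [norm_smul, norm_mul, norm_pow]
    have h9 : e * (‖x‖ ^ (n * M) * ‖(1 + w) ^ M‖) ≤ ε' / 2 * ‖x‖ ^ (n * M) := by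
      calc e * (‖x‖ ^ (n * M) * ‖(1 + w) ^ M‖) ≤ (ε' / 4) * (‖x‖ ^ (n * M) * 2) := by gcongr
        _ = ε' / 2 * ‖x‖ ^ (n * M) := by ring
    have h10 : ‖x‖ ^ (n * M) * ‖(1 + w) ^ M - 1‖ * ‖L x‖ ≤ ε' / 2 * ‖x‖ ^ (n * M) := by
      calc ‖x‖ ^ (n * M) * ‖(1 + w) ^ M - 1‖ * ‖L x‖
          ≤ ‖x‖ ^ (n * M) * (ε' / (2 * (B + 1))) * (B + 1) := by
            gcongr
            linarith
        _ = ε' / 2 * ‖x‖ ^ (n * M) := by field_simp
    calc _ ≤ ε' / 2 * ‖x‖ ^ (n * M) + ε' / 2 * ‖x‖ ^ (n * M) := add_le_add (h6.trans h9) h10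
      _ = ε' * ‖x‖ ^ (n * M) := by ring

end Pool.Agent.ARC

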