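import Pool.Agent.ARC.Targets5
import Pool.Agent.ARC.P_GST

set_option autoImplicit false

/-!
# ARC: GSB, one gluing step on an annulus
-/

noncomputable section

open Filter Topology

namespace Pool.Agent.ARC

namespace GSB_

theorem annulus_compact (r s : ℝ) : IsCompact {x : ℂ | r ≤ ‖x‖ ∧ ‖x‖ ≤ s} := by
  have h1 : {x : ℂ | r ≤ ‖x‖ ∧ ‖x‖ ≤ s} = Metric.closedBall 0 s ∩ {x : ℂ | r ≤ ‖x‖} := by
    ext x
    simp [and_comm]
  rw [h1]
  exact (isCompact_closedBall _ _).inter_right (isClosed_le continuous_const continuous_norm)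

end GSB_

theorem p_GSB (h_COR : T_COR) : T_GSB := by
  intro a b O M ε C hO hC hM hε
  obtain ⟨η, hη, hcor⟩ := h_COR a b O M ε C hC hM hε
  refine ⟨η, hη, ?_⟩
  intro W L J G P hW hL hBD R₂ hR₂ hR₂1 hP hPL R₁ hR₁ hLO ε' hε' K
  obtain ⟨δ₀, hδ₀, hδ₀1, hcor⟩ := hcor W L J (Finset.univ.sup fun i => (G i).natDegree) G P hW hL
    (fun i => (Finset.le_sup (f := fun i => (G i).natDegree) (Finset.mem_univ i)).trans
      (Nat.le_add_left _ _)) hBD hPL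
  set δ : ℝ := min (min δ₀ (R₁ - 1)) (1 - R₂) with hδdef
  have hδ : 0 < δ := lt_min (lt_min hδ₀ (by linarith)) (by linarith)
  have hδ1 : δ ≤ δ₀ := (min_le_left _ _).trans (min_le_left _ _)
  have hδ2 : δ ≤ R₁ - 1 := (min_le_left _ _).trans (min_le_right _ _)
  have hδ3 : δ ≤ 1 - R₂ := min_le_right _ _
  -- the compact sets
  obtain ⟨ε₁, hε₁, hin⟩ := GST_.near hO (GSB_.annulus_compact R₂ 1)
    (GST_.pv_cont P).continuousOn hW.continuousOn
    (fun x hx => hP x hx.1 hx.2)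
  have hAc : IsCompact {x : ℂ | 1 ≤ ‖x‖ ∧ ‖x‖ ≤ R₁} := GSB_.annulus_compact 1 R₁
  have hA0 : ∀ x ∈ {x : ℂ | 1 ≤ ‖x‖ ∧ ‖x‖ ≤ R₁}, x ≠ 0 := by
    rintro x ⟨hx, -⟩ rfl
    rw [norm_zero] at hx
    linarith
  have hLc := GST_.L_cont hL hA0
  obtain ⟨ε₂, hε₂, hout⟩ := GST_.near hO hAc hLc hW.continuousOn
    (fun x hx => hLO x hx.1 hx.2)
  obtain ⟨B₁, hB₁⟩ := (hAc.image_of_continuousOn hLc).isBounded.exists_norm_le
  obtain ⟨B₂, hB₂⟩ := ((isCompact_closedBall (0 : ℂ) 1).image_of_continuousOn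
    (GST_.pv_cont P).continuousOn).isBounded.exists_norm_le
  set B : ℝ := max B₁ B₂ with hBdef
  have hB : ∀ v ∈ L '' {x : ℂ | 1 ≤ ‖x‖ ∧ ‖x‖ ≤ R₁}, ‖v‖ ≤ B :=
    fun v hv => (hB₁ v hv).trans (le_max_left _ _)
  have hBP : ∀ x : ℂ, ‖x‖ ≤ 1 → ‖pv P x‖ ≤ B := fun x hx =>
    (hB₂ (pv P x) ⟨x, by simpa using hx, rfl⟩).trans (le_max_right _ _)
  have hB0 : 0 ≤ B := by
    have h1 := hB (L 1) ⟨1, ⟨by simp, by simpa using hR₁.le⟩, rfl⟩
    exact (norm_nonneg _).trans h1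
  -- the constants
  set e : ℝ := min (min (ε₁ / 2) (ε₂ / 2)) (ε' / 4) with hedef
  have he : 0 < e := by positivity
  have he1 : e < ε₁ := lt_of_le_of_lt ((min_le_left _ _).trans (min_le_left _ _)) (by linarith)
  have he2 : e < ε₂ := lt_of_le_of_lt ((min_le_left _ _).trans (min_le_right _ _)) (by linarith)
  have he3 : e ≤ ε' / 4 := min_le_right _ _
  obtain ⟨n₀, hn₀⟩ := hcor δ hδ hδ1 e he
  -- smallness of the inverse power
  have hcw : Tendsto (fun w : ℂ => (1 + w) ^ M) (𝓝 0) (𝓝 1) := by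
    have h1 : Continuous fun w : ℂ => (1 + w) ^ M := by fun_prop
    have h2 := h1.tendsto 0
    simpa using h2
  obtain ⟨ρ, hρ, hρ1⟩ := Metric.tendsto_nhds_nhds.mp hcw (min 1 (ε' / (2 * (B + 1))))
    (by positivity)
  have hR0 : 0 < R₁ := by linarith
  obtain ⟨n₁, hn₁⟩ := exists_pow_lt_of_lt_one hρ (inv_lt_one_of_one_lt₀ hR₁)
  obtain ⟨n₂, hn₂⟩ := exists_pow_lt_of_lt_one hρ hR₂1
  set n : ℕ := max (max (max n₀ n₁) (max n₂ K)) 1 with hn
  have hnn₀ : n₀ ≤ n := ((le_max_left _ _).trans (le_max_left _ _)).trans (le_max_left _ _)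
  have hnn₁ : n₁ ≤ n := ((le_max_right _ _).trans (le_max_left _ _)).trans (le_max_left _ _)
  have hnn₂ : n₂ ≤ n := ((le_max_left _ _).trans (le_max_right _ _)).trans (le_max_left _ _)
  have hnK : K ≤ n := ((le_max_right _ _).trans (le_max_right _ _)).trans (le_max_left _ _)
  have hn1 : 1 ≤ n := le_max_right _ _
  have hn0 : n ≠ 0 := by omega
  -- estimate near 1
  have hw6 : ∀ w : ℂ, ‖w‖ < ρ → ‖(1 + w) ^ M - 1‖ ≤ ε' / (2 * (B + 1)) ∧
      ‖(1 + w) ^ M‖ ≤ 2 := by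
    intro w hw1
    have hw2 := hρ1 (x := w) (by rwa [dist_zero_right])
    rw [dist_eq_norm] at hw2
    have hw3 : ‖(1 + w) ^ M - 1‖ ≤ 1 := hw2.le.trans (min_le_left _ _)
    refine ⟨hw2.le.trans (min_le_right _ _), ?_⟩
    have h1 : (1 + w) ^ M = ((1 + w) ^ M - 1) + 1 := by ring
    rw [h1]
    refine (norm_add_le _ _).trans ?_
    rw [norm_one]
    linarith
  obtain ⟨P', hP1, hP2, hP3, -, -⟩ := hn₀ n hnn₀
  refine ⟨n * M, P', ?_, ?_, ?_, ?_⟩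
  · exact hnK.trans (Nat.le_mul_of_pos_right n (by omega))
  · intro x hx0 hx
    rcases le_or_gt ‖x‖ (1 - δ) with h1 | h1
    · have h2 : ‖x ^ n‖ ≠ 1 := by
        rw [norm_pow]
        exact (pow_lt_one₀ (norm_nonneg _) (by linarith) hn0).ne
      have h3 : (1 + x ^ n) ^ M ≠ 0 := pow_ne_zero _ (GST_.one_add_ne h2)
      exact GST_.mem_of hC he1 h3 (hin x ⟨hx0, by linarith⟩) (hP2 x h1)
    · rcases le_or_gt ‖x‖ (1 + δ) with h4 | h4
      · exact hP1 x h1.le h4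
      · have h2 : ‖x ^ n‖ ≠ 1 := by
          rw [norm_pow]
          exact (one_lt_pow₀ (by linarith) hn0).ne'
        have h3 : (1 + x ^ n) ^ M ≠ 0 := pow_ne_zero _ (GST_.one_add_ne h2)
        exact GST_.mem_of hC he2 h3 (hout x ⟨by linarith, hx⟩) (hP3 x h4.le)
  · intro x hx
    have h1 := hP2 x (by linarith)
    have hw1 : ‖x ^ n‖ < ρ := by
      rw [norm_pow]
      calc ‖x‖ ^ n ≤ R₂ ^ n := pow_le_pow_left₀ (norm_nonneg _) hx n
        _ ≤ R₂ ^ n₂ := pow_le_pow_of_le_one hR₂.le hR₂1.le hnn₂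
        _ < ρ := hn₂
    obtain ⟨h2, h3⟩ := hw6 _ hw1
    have h4 : pv P' x - pv P x = (pv P' x - (1 + x ^ n) ^ M • pv P x) +
        ((1 + x ^ n) ^ M - 1) • pv P x := by
      rw [sub_smul, one_smul]
      abel
    have h5 := hBP x (by linarith)
    rw [h4]
    refine (norm_add_le _ _).trans ?_
    rw [norm_smul]
    have h6 : e * ‖(1 + x ^ n) ^ M‖ ≤ ε' / 2 := by
      calc e * ‖(1 + x ^ n) ^ M‖ ≤ (ε' / 4) * 2 := by gcongr
        _ = ε' / 2 := by ring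
    have h7 : ‖(1 + x ^ n) ^ M - 1‖ * ‖pv P x‖ ≤ ε' / 2 := by
      calc ‖(1 + x ^ n) ^ M - 1‖ * ‖pv P x‖ ≤ (ε' / (2 * (B + 1))) * (B + 1) := by
            gcongr
            linarith
        _ = ε' / 2 := by field_simp
    linarith
  · intro x hx
    have hx0 : x ≠ 0 := by
      rintro rfl
      rw [norm_zero] at hx
      linarith
    have hxn : x ^ n ≠ 0 := pow_ne_zero _ hx0
    set w : ℂ := (x ^ n)⁻¹ with hw
    have hw1 : ‖w‖ < ρ := by
      rw [hw, norm_inv, norm_pow, hx, ← inv_pow]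
      refine lt_of_le_of_lt ?_ hn₁
      exact pow_le_pow_of_le_one (by positivity) (inv_le_one_of_one_le₀ hR₁.le) hnn₁
    obtain ⟨hw4, hw5⟩ := hw6 _ hw1
    have h5 : (1 + x ^ n) ^ M = x ^ (n * M) * (1 + w) ^ M := by
      rw [pow_mul, ← mul_pow]
      congr 1
      rw [hw, mul_add, mul_one, mul_inv_cancel₀ hxn]
      ring
    have hk : 0 < ‖x‖ ^ (n * M) := by rw [hx]; positivity
    have h6 := hP3 x (by rw [hx]; linarith)
    rw [h5, norm_mul, norm_pow] at h6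
    have h7 : ‖L x‖ ≤ B := hB (L x) ⟨x, ⟨by rw [hx]; linarith, hx.le⟩, rfl⟩
    have h8 : pv P' x - x ^ (n * M) • L x =
        (pv P' x - (x ^ (n * M) * (1 + w) ^ M) • L x) +
          (x ^ (n * M) * ((1 + w) ^ M - 1)) • L x := by
      rw [mul_sub, mul_one, sub_smul]
      abel
    rw [h8]
    refine (norm_add_le _ _).trans ?_
    rw [norm_smul, norm_mul, norm_pow]
    have h9 : e * (‖x‖ ^ (n * M) * ‖(1 + w) ^ M‖) ≤ ε' / 2 * ‖x‖ ^ (n * M) := by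
      calc e * (‖x‖ ^ (n * M) * ‖(1 + w) ^ M‖) ≤ (ε' / 4) * (‖x‖ ^ (n * M) * 2) := by gcongr
        _ = ε' / 2 * ‖x‖ ^ (n * M) := by ring
    have h10 : ‖x‖ ^ (n * M) * ‖(1 + w) ^ M - 1‖ * ‖L x‖ ≤ ε' / 2 * ‖x‖ ^ (n * M) := by
      calc ‖x‖ ^ (n * M) * ‖(1 + w) ^ M - 1‖ * ‖L x‖
          ≤ ‖x‖ ^ (n * M) * (ε' / (2 * (B + 1))) * (B + 1) := by
            gcongr
            linarith
        _ = ε' / 2 * ‖x‖ ^ (n * M) := by field_simp
    calc _ ≤ ε' / 2 * ‖x‖ ^ (n * M) + ε' / 2 * ‖x‖ ^ (n * M) := add_le_add (h6.trans h9) h10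
      _ = ε' * ‖x‖ ^ (n * M) := by ring

end Pool.Agent.ARC
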