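import Pool.Agent.ARC.Targets5

set_option autoImplicit false

/-!
# ARC: holomorphic maps from the plane are continuous (HCC)
-/

noncomputable section

open Filter Topology

namespace Pool.Agent.ARC

theorem p_HCC (h_CAT : T_CAT) : T_HCC := by
  intro a b f hf
  rw [continuous_iff_continuousAt]
  intro z₀
  obtain ⟨N, F, G, hN, hz, hF, hG, h⟩ := hf z₀
  have hn : N ∈ 𝓝 z₀ := hN.mem_nhds hz
  have hF' : Tendsto F (𝓝 z₀) (𝓝 (F z₀)) := (hF.differentiableAt hn).continuousAt
  have hG' : Tendsto G (𝓝 z₀) (𝓝 (G z₀)) := (hG.differentiableAt hn).continuousAt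
  exact h_CAT a b ℂ (𝓝 z₀) f (f z₀) F G (F z₀) (G z₀) hF' hG' (h z₀ hz).1 (h z₀ hz).2
    (Filter.mem_of_superset hn fun z hz' => h z hz')

end Pool.Agent.ARC
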