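import Pool.Agent.ARC.Targets5

set_option autoImplicit false

/-!
# ARC: HP1, the h-principle on a torus for vectors (MP_1c7abc_ag)
-/

noncomputable section

open Filter Topology

namespace Pool.Agent.ARC

namespace HP1_

theorem pv_continuous {a : ℕ} (P : Fin (a + 1) → Polynomial ℂ) : Continuous (pv P) :=
  continuous_pi fun i => (P i).continuous

/-- Scaled vector of polynomials. -/
def sc {a : ℕ} (P : Fin (a + 1) → Polynomial ℂ) (c r : ℂ) : Fin (a + 1) → Polynomial ℂ :=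
  fun i => Polynomial.C c * (P i).comp (Polynomial.C r * Polynomial.X)

theorem pv_sc {a : ℕ} (P : Fin (a + 1) → Polynomial ℂ) (c r z : ℂ) :
    pv (sc P c r) z = c • pv P (r * z) := by
  funext i
  simp [pv, sc]

theorem circle_compact : IsCompact {x : ℂ | ‖x‖ = 1} := by
  have h : {x : ℂ | ‖x‖ = 1} = Metric.sphere 0 1 := by
    ext x
    simp
  rw [h]
  exact isCompact_sphere _ _

/-- A strict inequality on the circle persists for a parameter near `1`. -/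
theorem ev_lt (F : ℝ × ℂ → ℝ) (hF : ∀ x : ℂ, ‖x‖ = 1 → ContinuousAt F (1, x))
    (h : ∀ x : ℂ, ‖x‖ = 1 → F (1, x) < 0) :
    ∀ᶠ s : ℝ in 𝓝 (1 : ℝ), ∀ x ∈ {x : ℂ | ‖x‖ = 1}, F (s, x) < 0 := by
  refine circle_compact.eventually_forall_of_forall_eventually
    (P := fun s x => F (s, x) < 0) ?_
  intro x hx
  exact (hF x hx).eventually_lt continuousAt_const (h x hx)

theorem ev_mem {E : Type} [TopologicalSpace E] (F : ℝ × ℂ → E) (O : Set E) (hO : IsOpen O)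
    (hF : ∀ x : ℂ, ‖x‖ = 1 → ContinuousAt F (1, x))
    (h : ∀ x : ℂ, ‖x‖ = 1 → F (1, x) ∈ O) :
    ∀ᶠ s : ℝ in 𝓝 (1 : ℝ), ∀ x ∈ {x : ℂ | ‖x‖ = 1}, F (s, x) ∈ O := by
  refine circle_compact.eventually_forall_of_forall_eventually
    (P := fun s x => F (s, x) ∈ O) ?_
  intro x hx
  exact (hF x hx).preimage_mem_nhds (hO.mem_nhds (h x hx))

theorem norm_real_mul {r : ℝ} (hr : 0 ≤ r) (z : ℂ) : ‖(r : ℂ) * z‖ = r * ‖z‖ := by
  rw [norm_mul, Complex.norm_real, Real.norm_of_nonneg hr]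

end HP1_

open HP1_ in
theorem p_HP1 (h_UNI : T_UNI) (h_BDS : T_BDS) (h_EXT : T_EXT) (h_CHB : T_CHB)
    (h_TOR : T_TOR) : T_HP1 := by
  intro a n O q W σ d hO hCo hq0 hq1 hW hWq hσ hB hcl ε hε
  set R : ℝ := 1 / ‖q‖ with hRdef
  have hR1 : 1 < R := one_lt_one_div hq0 hq1
  have hR0 : 0 < R := by linarith
  have hqR : ‖q‖ * R = 1 := by
    rw [hRdef]
    field_simp
  have hq : q ≠ 0 := norm_pos_iff.1 hq0
  have hRc : (R : ℂ) ≠ 0 := by exact_mod_cast hR0.ne'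
  have hWc : ∀ z : ℂ, z ≠ 0 → ContinuousAt W z := fun z hz =>
    hW.continuousAt (isOpen_ne.mem_nhds hz)
  -- the compact set
  have hKc : IsCompact ((fun w : ℂ => (σ w, W w)) '' {w : ℂ | 1 ≤ ‖w‖ ∧ ‖w‖ ≤ R}) := by
    apply IsCompact.image_of_continuousOn
    · refine (isCompact_closedBall (0 : ℂ) R).of_isClosed_subset ?_ ?_
      · exact (isClosed_le continuous_const continuous_norm).inter
          (isClosed_le continuous_norm continuous_const)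
      · intro w hw
        rw [Metric.mem_closedBall, dist_zero_right]
        exact hw.2
    · refine hσ.continuousOn.prodMk (hW.mono ?_)
      intro w hw
      show w ≠ 0
      rintro rfl
      have h1 := hw.1
      rw [norm_zero] at h1
      linarith
  have hKs : (fun w : ℂ => (σ w, W w)) '' {w : ℂ | 1 ≤ ‖w‖ ∧ ‖w‖ ≤ R} ⊆ Bub O := by
    rintro _ ⟨w, hw, rfl⟩
    refine hB w hw.1 ?_
    calc ‖q‖ * ‖w‖ ≤ ‖q‖ * R := mul_le_mul_of_nonneg_left hw.2 hq0.le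
      _ = 1 := hqR
  obtain ⟨M, ε₂, C, hM, hε₂, hBD⟩ := h_UNI a n O _ hO hCo hKs hKc
  obtain ⟨η, hη, hTor⟩ := h_TOR a n O M (ε₂ / 2) C hO hCo hM (by linarith)
  set εB : ℝ := min (min (η / 6) (ε₂ / 6)) (ε / 2) with hεBdef
  have hεB : 0 < εB := lt_min (lt_min (by linarith) (by linarith)) (by linarith)
  have hεB1 : εB ≤ η / 6 := (min_le_left _ _).trans (min_le_left _ _)
  have hεB2 : εB ≤ ε₂ / 6 := (min_le_left _ _).trans (min_le_right _ _)
  have hεB3 : εB ≤ ε / 2 := min_le_right _ _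
  obtain ⟨W', hW'c, hW'⟩ := h_EXT n W 1 one_pos hW
  obtain ⟨J, k, γ, P, hJk, hγ, hPO, hP1, hPR⟩ := h_CHB a n O hO hCo 1 R σ W' one_pos hR1 hσ hW'c
    (by
      intro z h1 h2
      rw [hW' z h1]
      exact hKs ⟨z, ⟨h1, h2⟩, rfl⟩) εB hεB (d.natAbs + 1)
  obtain ⟨D, hD⟩ : ∃ D : ℕ, (D : ℤ) = k - J - d :=
    ⟨((k : ℤ) - J - d).toNat, Int.toNat_of_nonneg (by omega)⟩
  have hD1 : 1 ≤ D := by omega
  have hPc : Continuous (pv P) := pv_continuous P
  -- conditions near the circles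
  have E1 : ∀ᶠ s : ℝ in 𝓝 (1 : ℝ), ∀ x ∈ {x : ℂ | ‖x‖ = 1},
      (pv P ((s : ℂ) * x), W ((s : ℂ) * x)) ∈ O := by
    refine ev_mem (fun p : ℝ × ℂ => (pv P ((p.1 : ℂ) * p.2), W ((p.1 : ℂ) * p.2))) O hO ?_ ?_
    · intro x hx
      have hm : Continuous fun p : ℝ × ℂ => (p.1 : ℂ) * p.2 := by fun_prop
      have hx0 : ((1 : ℝ) : ℂ) * x ≠ 0 := by
        rw [Complex.ofReal_one, one_mul]
        rintro rfl
        rw [norm_zero] at hx
        exact zero_ne_one hx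
      exact (hPc.comp hm).continuousAt.prodMk
        (ContinuousAt.comp (f := fun p : ℝ × ℂ => (p.1 : ℂ) * p.2) (x := ((1 : ℝ), x))
          (hWc _ hx0) hm.continuousAt)
    · intro x hx
      have h1 : ((1 : ℝ) : ℂ) * x = x := by rw [Complex.ofReal_one, one_mul]
      show (pv P (((1 : ℝ) : ℂ) * x), W (((1 : ℝ) : ℂ) * x)) ∈ O
      rw [h1, ← hW' x hx.ge]
      exact hPO x hx.ge (by rw [hx]; exact hR1.le)
  have E2 : ∀ᶠ s : ℝ in 𝓝 (1 : ℝ), ∀ x ∈ {x : ℂ | ‖x‖ = 1},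
      ‖pv P ((s : ℂ) * (R * x)) - ((γ : ℂ) * ((s : ℂ) * (R * x)) ^ k) • σ ((s : ℂ) * (R * x))‖ -
        2 * εB * (γ * (s * R) ^ k) < 0 := by
    refine ev_lt (fun p : ℝ × ℂ => ‖pv P ((p.1 : ℂ) * (R * p.2)) -
      ((γ : ℂ) * ((p.1 : ℂ) * (R * p.2)) ^ k) • σ ((p.1 : ℂ) * (R * p.2))‖ -
        2 * εB * (γ * (p.1 * R) ^ k)) ?_ ?_
    · intro x _
      refine Continuous.continuousAt ?_
      fun_prop
    · intro x hx
      have h1 : ((1 : ℝ) : ℂ) * (R * x) = R * x := by rw [Complex.ofReal_one, one_mul]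
      have h2 : ‖(R : ℂ) * x‖ = R := by rw [norm_real_mul hR0.le, hx, mul_one]
      have h3 := hPR (R * x) h2
      rw [h2] at h3
      have h4 : 0 < εB * (γ * R ^ k) := by positivity
      show ‖pv P (((1 : ℝ) : ℂ) * (R * x)) - ((γ : ℂ) * (((1 : ℝ) : ℂ) * (R * x)) ^ k) •
        σ (((1 : ℝ) : ℂ) * (R * x))‖ - 2 * εB * (γ * (1 * R) ^ k) < 0
      rw [h1, one_mul]
      linarith
  have E3 : ∀ᶠ s : ℝ in 𝓝 (1 : ℝ), ∀ x ∈ {x : ℂ | ‖x‖ = 1},
      ‖pv P ((s : ℂ) * (q * (R * x))) - ((s : ℂ) * (q * (R * x))) ^ J •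
        σ ((s : ℂ) * (q * (R * x)))‖ - 2 * εB * s ^ J < 0 := by
    refine ev_lt (fun p : ℝ × ℂ => ‖pv P ((p.1 : ℂ) * (q * (R * p.2))) -
      ((p.1 : ℂ) * (q * (R * p.2))) ^ J • σ ((p.1 : ℂ) * (q * (R * p.2)))‖ -
        2 * εB * p.1 ^ J) ?_ ?_
    · intro x _
      refine Continuous.continuousAt ?_
      fun_prop
    · intro x hx
      have h1 : ((1 : ℝ) : ℂ) * (q * (R * x)) = q * (R * x) := by
        rw [Complex.ofReal_one, one_mul]
      have h2 : ‖q * ((R : ℂ) * x)‖ = 1 := by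
        rw [norm_mul, norm_real_mul hR0.le, hx, mul_one]
        exact hqR
      have h3 := hP1 (q * (R * x)) h2
      rw [h2] at h3
      show ‖pv P (((1 : ℝ) : ℂ) * (q * (R * x))) - (((1 : ℝ) : ℂ) * (q * (R * x))) ^ J •
        σ (((1 : ℝ) : ℂ) * (q * (R * x)))‖ - 2 * εB * 1 ^ J < 0
      rw [h1, one_pow]
      rw [one_pow] at h3
      linarith
  have E4 : ∀ᶠ s : ℝ in 𝓝 (1 : ℝ), ∀ x ∈ {x : ℂ | ‖x‖ = 1},
      ‖σ ((s : ℂ) * (R * x)) - σ (R * x)‖ - εB < 0 := by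
    refine ev_lt (fun p : ℝ × ℂ => ‖σ ((p.1 : ℂ) * (R * p.2)) - σ (R * p.2)‖ - εB) ?_ ?_
    · intro x _
      refine Continuous.continuousAt ?_
      fun_prop
    · intro x _
      show ‖σ (((1 : ℝ) : ℂ) * (R * x)) - σ (R * x)‖ - εB < 0
      rw [Complex.ofReal_one, one_mul, sub_self, norm_zero]
      linarith
  have E5 : ∀ᶠ s : ℝ in 𝓝 (1 : ℝ), ∀ x ∈ {x : ℂ | ‖x‖ = 1},
      ‖σ ((s : ℂ) * (q * (R * x))) - σ (q * (R * x))‖ - εB < 0 := by
    refine ev_lt (fun p : ℝ × ℂ => ‖σ ((p.1 : ℂ) * (q * (R * p.2))) - σ (q * (R * p.2))‖ - εB)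
      ?_ ?_
    · intro x _
      refine Continuous.continuousAt ?_
      fun_prop
    · intro x _
      show ‖σ (((1 : ℝ) : ℂ) * (q * (R * x))) - σ (q * (R * x))‖ - εB < 0
      rw [Complex.ofReal_one, one_mul, sub_self, norm_zero]
      linarith
  have E6 : ∀ᶠ s : ℝ in 𝓝 (1 : ℝ), ∀ x ∈ {x : ℂ | ‖x‖ = 1},
      ‖W ((s : ℂ) * (R * x)) - W (R * x)‖ - ε₂ / 2 < 0 := by
    refine ev_lt (fun p : ℝ × ℂ => ‖W ((p.1 : ℂ) * (R * p.2)) - W (R * p.2)‖ - ε₂ / 2) ?_ ?_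
    · intro x hx
      have hm : Continuous fun p : ℝ × ℂ => (p.1 : ℂ) * (R * p.2) := by fun_prop
      have hm' : Continuous fun p : ℝ × ℂ => (R : ℂ) * p.2 := by fun_prop
      have hx0 : x ≠ 0 := by
        rintro rfl
        rw [norm_zero] at hx
        exact zero_ne_one hx
      have hx1 : (R : ℂ) * x ≠ 0 := mul_ne_zero hRc hx0
      have hx2 : ((1 : ℝ) : ℂ) * ((R : ℂ) * x) ≠ 0 := by
        rw [Complex.ofReal_one, one_mul]
        exact hx1
      have c1 : ContinuousAt (fun p : ℝ × ℂ => W ((p.1 : ℂ) * (R * p.2))) ((1 : ℝ), x) :=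
        ContinuousAt.comp (f := fun p : ℝ × ℂ => (p.1 : ℂ) * (R * p.2)) (x := ((1 : ℝ), x))
          (hWc _ hx2) hm.continuousAt
      have c2 : ContinuousAt (fun p : ℝ × ℂ => W ((R : ℂ) * p.2)) ((1 : ℝ), x) :=
        ContinuousAt.comp (f := fun p : ℝ × ℂ => (R : ℂ) * p.2) (x := ((1 : ℝ), x))
          (hWc _ hx1) hm'.continuousAt
      exact ((c1.sub c2).norm).sub continuousAt_const
    · intro x _
      show ‖W (((1 : ℝ) : ℂ) * (R * x)) - W (R * x)‖ - ε₂ / 2 < 0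
      rw [Complex.ofReal_one, one_mul, sub_self, norm_zero]
      linarith
  -- choice of `s`
  obtain ⟨r, hr, hball⟩ := Metric.eventually_nhds_iff.mp
    (E1.and (E2.and (E3.and (E4.and (E5.and E6)))))
  set s : ℝ := max (1 - r / 2) ((1 + ‖q‖) / 2) with hs
  have hs1 : s < 1 := max_lt (by linarith) (by linarith)
  have hsr : 1 - r / 2 ≤ s := le_max_left _ _
  have hsq : (1 + ‖q‖) / 2 ≤ s := le_max_right _ _
  have hs0 : 0 < s := by linarith
  have hsq' : ‖q‖ < s := by linarith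
  have hdist : ∀ s' : ℝ, s ≤ s' → s' ≤ 1 → dist s' 1 < r := by
    intro s' h1 h2
    rw [Real.dist_eq, abs_sub_lt_iff]
    constructor <;> linarith
  obtain ⟨-, e2, e3, e4, e5, e6⟩ := hball (hdist s le_rfl hs1.le)
  have e1 : ∀ s' : ℝ, s ≤ s' → s' ≤ 1 → ∀ x : ℂ, ‖x‖ = 1 →
      (pv P ((s' : ℂ) * x), W ((s' : ℂ) * x)) ∈ O :=
    fun s' h1 h2 x hx => (hball (hdist s' h1 h2)).1 x hx
  -- `ρ` and `δ`
  set ρ : ℝ := s * R with hρdef
  have hρ0 : 0 < ρ := mul_pos hs0 hR0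
  have hρc : (ρ : ℂ) ≠ 0 := by exact_mod_cast hρ0.ne'
  have hρR : ρ ≤ R := by
    rw [hρdef]
    calc s * R ≤ 1 * R := mul_le_mul_of_nonneg_right hs1.le hR0.le
      _ = R := one_mul R
  have hqρ : ‖q‖ * ρ = s := by
    rw [hρdef]
    calc ‖q‖ * (s * R) = s * (‖q‖ * R) := by ring
      _ = s := by rw [hqR, mul_one]
  have hρinv : 1 / ρ = ‖q‖ / s := by
    rw [div_eq_div_iff hρ0.ne' hs0.ne', one_mul]
    exact hqρ.symm
  have hsinv : 1 < 1 / s := one_lt_one_div hs0 hs1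
  have hqs : ‖q‖ / s < 1 := (div_lt_one hs0).2 hsq'
  set δ : ℝ := min ((1 / s - 1) / 2) ((1 - ‖q‖ / s) / 2) with hδdef
  have hδ0 : 0 < δ := lt_min (by linarith) (by linarith)
  have hδ1 : δ ≤ (1 / s - 1) / 2 := min_le_left _ _
  have hδ2 : δ ≤ (1 - ‖q‖ / s) / 2 := min_le_right _ _
  have hA1 : ‖q‖ * (1 + δ) < 1 / ρ := by
    rw [hρinv, div_eq_mul_one_div]
    exact mul_lt_mul_of_pos_left (by linarith) hq0
  have hA2 : 1 / ρ < 1 - δ := by
    rw [hρinv]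
    linarith
  -- the data for `T_TOR`
  have hcast : ∀ x : ℂ, (ρ : ℂ) * x = (s : ℂ) * (R * x) := by
    intro x
    rw [hρdef]
    push_cast
    ring
  set g : ℂ := ((γ : ℂ) * (ρ : ℂ) ^ k)⁻¹ with hg
  have hγc : (γ : ℂ) ≠ 0 := by exact_mod_cast hγ.ne'
  have hg0 : g ≠ 0 := inv_ne_zero (mul_ne_zero hγc (pow_ne_zero _ hρc))
  have hgnorm : ‖g‖ = (γ * ρ ^ k)⁻¹ := by
    rw [hg, norm_inv, norm_mul, norm_pow, Complex.norm_real, Complex.norm_real,
      Real.norm_of_nonneg hγ.le, Real.norm_of_nonneg hρ0.le]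
  set c₀ : ℂ := g⁻¹ * ((q * ρ) ^ J)⁻¹ with hc₀
  have hqρc : q * (ρ : ℂ) ≠ 0 := mul_ne_zero hq hρc
  have hc₀0 : c₀ ≠ 0 := mul_ne_zero (inv_ne_zero hg0) (inv_ne_zero (pow_ne_zero _ hqρc))
  have hgk : 0 < γ * ρ ^ k := by positivity
  -- first approximation
  have hX1 : ∀ x : ℂ, ‖x‖ = 1 → ‖pv (sc P g ρ) x - x ^ k • σ (R * x)‖ ≤ 3 * εB := by
    intro x hx
    have h1 := e2 x hx
    have h2 := e4 x hx
    rw [← hcast] at h1 h2
    have h3 : pv (sc P g ρ) x - x ^ k • σ (ρ * x) =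
        g • (pv P (ρ * x) - ((γ : ℂ) * (ρ * x) ^ k) • σ (ρ * x)) := by
      rw [pv_sc, smul_sub, smul_smul]
      congr 2
      rw [hg, mul_pow]
      field_simp
    have h4 : ‖pv (sc P g ρ) x - x ^ k • σ (ρ * x)‖ ≤ 2 * εB := by
      rw [h3, norm_smul, hgnorm, inv_mul_le_iff₀ hgk]
      linarith
    have h5 : ‖x ^ k • σ (ρ * x) - x ^ k • σ (R * x)‖ ≤ εB := by
      rw [← smul_sub, norm_smul, norm_pow, hx, one_pow, one_mul]
      linarith
    calc ‖pv (sc P g ρ) x - x ^ k • σ (R * x)‖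
        = ‖(pv (sc P g ρ) x - x ^ k • σ (ρ * x)) +
            (x ^ k • σ (ρ * x) - x ^ k • σ (R * x))‖ := by
          congr 1
          abel
      _ ≤ ‖pv (sc P g ρ) x - x ^ k • σ (ρ * x)‖ +
            ‖x ^ k • σ (ρ * x) - x ^ k • σ (R * x)‖ := norm_add_le _ _
      _ ≤ 3 * εB := by linarith
  -- second approximation
  have hX2 : ∀ x : ℂ, ‖x‖ = 1 →
      ‖(c₀ * x ^ D) • pv (sc P g ρ) (q * x) - x ^ k • σ (R * x)‖ ≤ 3 * εB := by
    intro x hx
    have hx0 : x ≠ 0 := by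
      rintro rfl
      rw [norm_zero] at hx
      exact zero_ne_one hx
    have hz : (ρ : ℂ) * (q * x) = (s : ℂ) * (q * (R * x)) := by
      rw [hcast]
      ring
    have h1 := e3 x hx
    have h2 := e5 x hx
    rw [← hz] at h1 h2
    have h3 : (c₀ * x ^ D) • pv (sc P g ρ) (q * x) - x ^ (D + J) • σ (ρ * (q * x)) =
        (x ^ D * ((q * ρ) ^ J)⁻¹) •
          (pv P (ρ * (q * x)) - (ρ * (q * x)) ^ J • σ (ρ * (q * x))) := by
      rw [pv_sc, smul_sub, smul_smul, smul_smul]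
      congr 2
      · rw [hc₀]
        field_simp
      · have h4 : (ρ : ℂ) * (q * x) = (q * ρ) * x := by ring
        rw [h4, mul_pow (q * (ρ : ℂ)) x J, pow_add]
        have h5 : (q * (ρ : ℂ)) ^ J ≠ 0 := pow_ne_zero _ hqρc
        field_simp
    have h4 : ‖(c₀ * x ^ D) • pv (sc P g ρ) (q * x) - x ^ (D + J) • σ (ρ * (q * x))‖ ≤
        2 * εB := by
      have h5 : ‖q * (ρ : ℂ)‖ = s := by
        rw [norm_mul, Complex.norm_real, Real.norm_of_nonneg hρ0.le]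
        exact hqρ
      rw [h3, norm_smul, norm_mul, norm_pow, hx, one_pow, one_mul, norm_inv, norm_pow, h5,
        inv_mul_le_iff₀ (pow_pos hs0 J)]
      linarith
    have h5 : σ (q * (R * x)) = x ^ d • σ (R * x) := by
      have h6 : ‖q‖ * ‖(R : ℂ) * x‖ = 1 := by
        rw [norm_real_mul hR0.le, hx, mul_one]
        exact hqR
      rw [hcl (R * x) h6]
      congr 1
      have h7 : (‖q‖ : ℂ) * ((R : ℂ) * x) = x := by
        rw [← mul_assoc]
        have h8 : (‖q‖ : ℂ) * (R : ℂ) = 1 := by exact_mod_cast hqR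
        rw [h8, one_mul]
      rw [h7]
    have h6 : x ^ k • σ (R * x) = x ^ (D + J) • σ (q * (R * x)) := by
      rw [h5, smul_smul]
      congr 1
      rw [← zpow_natCast x k, ← zpow_natCast x (D + J), ← zpow_add₀ hx0]
      congr 1
      push_cast
      omega
    have h7 : ‖x ^ (D + J) • σ (ρ * (q * x)) - x ^ k • σ (R * x)‖ ≤ εB := by
      rw [h6, ← smul_sub, norm_smul, norm_pow, hx, one_pow, one_mul]
      linarith
    calc ‖(c₀ * x ^ D) • pv (sc P g ρ) (q * x) - x ^ k • σ (R * x)‖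
        = ‖((c₀ * x ^ D) • pv (sc P g ρ) (q * x) - x ^ (D + J) • σ (ρ * (q * x))) +
            (x ^ (D + J) • σ (ρ * (q * x)) - x ^ k • σ (R * x))‖ := by
          congr 1
          abel
      _ ≤ _ := norm_add_le _ _
      _ ≤ 3 * εB := by linarith
  obtain ⟨H, hH1, hH2, hH3, hH4⟩ := hTor q c₀ D (fun x => W (ρ * x)) (sc P g ρ) hq0 hq1 hc₀0 hD1
    (by
      have hm : Continuous fun x : ℂ => (ρ : ℂ) * x := by fun_prop
      refine hW.comp hm.continuousOn ?_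
      intro x hx
      exact mul_ne_zero hρc hx)
    (by
      intro x hx
      show W (ρ * (q * x)) = W (ρ * x)
      have h1 : (ρ : ℂ) * (q * x) = q * (ρ * x) := by ring
      rw [h1]
      exact hWq _ (mul_ne_zero hρc hx))
    (by
      intro x hx
      have hRx : ‖(R : ℂ) * x‖ = R := by rw [norm_real_mul hR0.le, hx, mul_one]
      have h1 : BD O M ε₂ C (σ (R * x)) (W (R * x)) :=
        hBD (σ (R * x), W (R * x)) ⟨R * x, ⟨by rw [hRx]; exact hR1.le, by rw [hRx]⟩, rfl⟩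
      have h2 := (h_BDS a n O M ε₂ C (σ (R * x)) (σ (R * x)) (W (R * x)) (W (R * x)) (x ^ k) 1
        hCo hM hε₂ h1).1 (by rw [norm_pow, hx, one_pow]) norm_one
      rw [one_smul] at h2
      refine (h_BDS a n O M ε₂ C (x ^ k • σ (R * x)) ((c₀ * x ^ D) • pv (sc P g ρ) (q * x))
        (W (R * x)) (W (ρ * x)) 1 1 hCo hM hε₂ h2).2.1 ?_ ?_
      · have h3 := hX2 x hx
        linarith
      · have h3 := e6 x hx
        rw [← hcast] at h3
        linarith)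
    (by
      intro x hx
      have h1 := hX1 x hx
      have h2 := hX2 x hx
      calc ‖pv (sc P g ρ) x - (c₀ * x ^ D) • pv (sc P g ρ) (q * x)‖
          = ‖(pv (sc P g ρ) x - x ^ k • σ (R * x)) -
              ((c₀ * x ^ D) • pv (sc P g ρ) (q * x) - x ^ k • σ (R * x))‖ := by
            congr 1
            abel
        _ ≤ _ := norm_sub_le _ _
        _ ≤ η := by linarith)
    (by
      intro x hx1 hx2
      show (pv (sc P g ρ) x, W (ρ * x)) ∈ O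
      rw [pv_sc]
      have hnorm : ‖(ρ : ℂ) * x‖ = ρ * ‖x‖ := norm_real_mul hρ0.le x
      have hlow : s ≤ ‖(ρ : ℂ) * x‖ := by
        rw [hnorm, ← hqρ, mul_comm ‖q‖ ρ]
        exact mul_le_mul_of_nonneg_left hx1 hρ0.le
      have hup : ‖(ρ : ℂ) * x‖ ≤ R := by
        rw [hnorm]
        calc ρ * ‖x‖ ≤ ρ * 1 := mul_le_mul_of_nonneg_left hx2 hρ0.le
          _ ≤ R := by rw [mul_one]; exact hρR
      have hmem : (pv P (ρ * x), W (ρ * x)) ∈ O := by
        by_cases h1 : 1 ≤ ‖(ρ : ℂ) * x‖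
        · rw [← hW' _ h1]
          exact hPO _ h1 hup
        · rw [not_le] at h1
          have h2 : 0 < ‖(ρ : ℂ) * x‖ := lt_of_lt_of_le hs0 hlow
          have h3 : (‖(ρ : ℂ) * x‖ : ℂ) ≠ 0 := by exact_mod_cast h2.ne'
          have h4 := e1 ‖(ρ : ℂ) * x‖ hlow h1.le ((ρ * x) / (‖(ρ : ℂ) * x‖ : ℂ)) (by
            rw [norm_div, Complex.norm_real, norm_norm]
            exact div_self h2.ne')
          rw [mul_div_cancel₀ _ h3] at h4
          exact h4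
      have h5 := hCo g 1 (pv P (ρ * x)) (W (ρ * x)) hg0 one_ne_zero hmem
      rw [one_smul] at h5
      exact h5)
    δ hδ0 (hA1.trans hA2) (ε / (2 * (γ * ρ ^ k))) (by positivity)
  refine ⟨ρ, δ, H, hρ0, hδ0, hA1, hA2, hH1, hH2, hH3, ?_⟩
  intro w hw
  have hw0 : w ≠ 0 := by
    rintro rfl
    rw [norm_zero] at hw
    exact zero_ne_one hw
  have hxn : ‖w / (ρ : ℂ)‖ = 1 / ρ := by
    rw [norm_div, hw, Complex.norm_real, Real.norm_of_nonneg hρ0.le]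
  obtain ⟨c', hc', hcH⟩ := hH4 (w / ρ) (by rw [hxn]; exact hA1.le) (by rw [hxn]; exact hA2.le)
  rw [pv_sc, mul_div_cancel₀ _ hρc] at hcH
  refine ⟨(w ^ J)⁻¹ * (g⁻¹ * c'), mul_ne_zero (inv_ne_zero (pow_ne_zero _ hw0))
    (mul_ne_zero (inv_ne_zero hg0) hc'), ?_⟩
  have h1 : ((w ^ J)⁻¹ * (g⁻¹ * c')) • H (w / ρ) - σ w =
      (w ^ J)⁻¹ • (g⁻¹ • (c' • H (w / ρ) - g • pv P w)) +
        (w ^ J)⁻¹ • (pv P w - w ^ J • σ w) := by
    have h2 : w ^ J ≠ 0 := pow_ne_zero _ hw0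
    rw [smul_sub g⁻¹, smul_smul g⁻¹ g, inv_mul_cancel₀ hg0, one_smul, smul_sub, smul_sub,
      smul_smul (w ^ J)⁻¹ (w ^ J), inv_mul_cancel₀ h2, one_smul, smul_smul, smul_smul,
      mul_assoc]
    abel
  have h2 : ‖(w ^ J)⁻¹‖ = 1 := by rw [norm_inv, norm_pow, hw, one_pow, inv_one]
  have h3 := hP1 w hw
  rw [hw, one_pow, mul_one] at h3
  have h4 : ‖g⁻¹‖ = γ * ρ ^ k := by rw [norm_inv, hgnorm, inv_inv]
  rw [h1]
  calc _ ≤ ‖(w ^ J)⁻¹ • (g⁻¹ • (c' • H (w / ρ) - g • pv P w))‖ +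
        ‖(w ^ J)⁻¹ • (pv P w - w ^ J • σ w)‖ := norm_add_le _ _
    _ = (γ * ρ ^ k) * ‖c' • H (w / ρ) - g • pv P w‖ + ‖pv P w - w ^ J • σ w‖ := by
        rw [norm_smul, norm_smul, norm_smul, h2, h4, one_mul, one_mul]
    _ ≤ (γ * ρ ^ k) * (ε / (2 * (γ * ρ ^ k))) + εB :=
        add_le_add (mul_le_mul_of_nonneg_left hcH hgk.le) h3
    _ = ε / 2 + εB := by
        congr 1
        field_simp
    _ ≤ ε := by linarith

end Pool.Agent.ARC
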