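import Pool.Agent.ARC.Targets5

set_option autoImplicit false

noncomputable section

open Filter Topology

namespace Pool.Agent.ARC

namespace HPA_

/-- The hypotheses of `T_HPT` for a function precomposed with an affine map. -/
theorem loc {a b : ℕ} (f : ℂ → PP a b) (c d : ℂ)
    (hf : ∀ z₀ : ℂ, ∃ (N : Set ℂ) (G : ℂ → Vec b), IsOpen N ∧ z₀ ∈ N ∧ DifferentiableOn ℂ G N ∧
      ∀ z ∈ N, Is (G z) (f z).2) :
    ∀ z₀ : ℂ, ∃ (N : Set ℂ) (G : ℂ → Vec b), IsOpen N ∧ z₀ ∈ N ∧ DifferentiableOn ℂ G N ∧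
      ∀ z ∈ N, Is (G z) (f (c + d * z)).2 := by
  intro z₀
  obtain ⟨N, G, hN, hz, hG, hI⟩ := hf (c + d * z₀)
  have hc : Continuous fun z : ℂ => c + d * z := by fun_prop
  refine ⟨(fun z : ℂ => c + d * z) ⁻¹' N, fun z => G (c + d * z), hN.preimage hc, hz, ?_, ?_⟩
  · have h1 : DifferentiableOn ℂ (fun z : ℂ => c + d * z)
        ((fun z : ℂ => c + d * z) ⁻¹' N) := by fun_prop
    exact hG.comp h1 (fun z hz => hz)
  · intro z hz
    exact hI _ hz

theorem chain {a b : ℕ} (h_HPT : T_HPT) (U : Set (PP a b)) (τ : ℂ) (f : ℂ → PP a b)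
    (hU : IsOpenP U) (hf : Continuous f) (hS : ∀ z, f z ∈ Sharp U)
    (hL : ∀ z₀ : ℂ, ∃ (N : Set ℂ) (G : ℂ → Vec b), IsOpen N ∧ z₀ ∈ N ∧
      DifferentiableOn ℂ G N ∧ ∀ z ∈ N, Is (G z) (f z).2) (hτ : 0 < τ.im) (c d : ℂ)
    (h1 : ∀ z, f (z + d) = f z) (h2 : ∀ z, f (z + d * τ) = f z) (x : ℝ) :
    ChainE U (f c) (f (c + d * x)) := by
  have hc : Continuous fun z : ℂ => c + d * z := by fun_prop
  have h := h_HPT a b U τ (fun z => f (c + d * z)) hU hτ (hf.comp hc)
    (fun z => by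
      show f (c + d * (z + 1)) = f (c + d * z)
      rw [← h1 (c + d * z)]
      congr 1
      ring)
    (fun z => by
      show f (c + d * (z + τ)) = f (c + d * z)
      rw [← h2 (c + d * z)]
      congr 1
      ring)
    (fun z => hS _) (loc f c d hL) x
  simpa using h

end HPA_

theorem p_HPA (h_HPT : T_HPT) (h_CHE : T_CHE) : T_HPA := by
  intro a b U τ f hU hτ hf h1 hT hS hL z z'
  have hτ0 : τ ≠ 0 := by
    rintro rfl
    simp at hτ
  obtain ⟨x, y, hxy⟩ : ∃ x y : ℝ, z' = z + x + y * τ := by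
    refine ⟨(z' - z).re - (z' - z).im / τ.im * τ.re, (z' - z).im / τ.im, ?_⟩
    have hne : τ.im ≠ 0 := hτ.ne'
    apply Complex.ext
    · simp
      ring
    · simp [div_mul_cancel₀ _ hne]
  have c1 : ChainE U (f z) (f (z + x)) := by
    have h := HPA_.chain h_HPT U τ f hU hf hS hL hτ z 1 h1
      (fun w => by rw [one_mul]; exact hT w) x
    simpa using h
  have him : 0 < (-1 / τ).im := by
    have hn : 0 < Complex.normSq τ := Complex.normSq_pos.mpr hτ0
    rw [neg_div, one_div, Complex.neg_im, Complex.inv_im, neg_div, neg_neg]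
    exact div_pos hτ hn
  have c2 : ChainE U (f (z + x)) (f (z + x + τ * y)) := by
    refine HPA_.chain h_HPT U (-1 / τ) f hU hf hS hL him (z + x) τ hT ?_ y
    intro w
    have h3 : w + τ * (-1 / τ) = w - 1 := by
      field_simp
      ring
    rw [h3, ← h1 (w - 1)]
    congr 1
    ring
  have h4 := (h_CHE a b U).2.1 _ _ _ c1 c2
  rw [hxy, mul_comm (y : ℂ) τ]
  exact h4

end Pool.Agent.ARC
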