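import Pool.Agent.ARC.Targets2

set_option autoImplicit false

/-!
# ARC, job HPR: the h-principle
-/

noncomputable section

open Filter Topology

namespace Pool.Agent.ARC

namespace HPR_

lemma vform_scale (h : T_FRM) {a : ℕ} (p : ℕ) (A : Fin (a + 1) → ℕ → ℂ) (r s t : ℂ) :
    vform p A (r * s) (r * t) = r ^ p • vform p A s t := by
  funext i
  simp only [vform, Pi.smul_apply, smul_eq_mul]
  exact h.1 p (A i) r s t

lemma vform_cont (h : T_FRM) {a : ℕ} (p : ℕ) (A : Fin (a + 1) → ℕ → ℂ) :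
    Continuous fun z : ℂ × ℂ => vform p A z.1 z.2 :=
  continuous_pi fun i => h.2.1 p (A i)

lemma vform_const {a : ℕ} (w : Vec a) (s t : ℂ) : vform 0 (fun i _ => w i) s t = w := by
  funext i
  simp [vform, form]

/-- Scaling of the second variable. -/
lemma vform_snd {a : ℕ} (p : ℕ) (A : Fin (a + 1) → ℕ → ℂ) (r : ℂ) :
    ∃ A' : Fin (a + 1) → ℕ → ℂ, ∀ s t : ℂ, vform p A' s t = vform p A s (r * t) := by
  refine ⟨fun i j => A i j * r ^ (p - j), fun s t => ?_⟩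
  funext i
  simp only [vform, form]
  refine Finset.sum_congr rfl fun j _ => ?_
  rw [mul_pow]
  ring

/-- Substitution of powers. -/
lemma vform_pow {a : ℕ} (m l : ℕ) (hl : 1 ≤ l) (A : Fin (a + 1) → ℕ → ℂ) (r : ℂ) :
    ∃ A' : Fin (a + 1) → ℕ → ℂ, ∀ s t : ℂ,
      vform (l * m) A' s t = vform m A ((s * r) ^ l) (t ^ l) := by
  classical
  refine ⟨fun i j => if l ∣ j then A i (j / l) * r ^ j else 0, fun s t => ?_⟩
  funext i
  simp only [vform, form]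
  have hinj : Function.Injective fun k : ℕ => l * k := fun x y hxy =>
    Nat.eq_of_mul_eq_mul_left (by omega) hxy
  have hsub : (Finset.range (m + 1)).image (fun k => l * k) ⊆ Finset.range (l * m + 1) := by
    intro j hj
    rw [Finset.mem_image] at hj
    obtain ⟨k, hk, rfl⟩ := hj
    rw [Finset.mem_range] at hk ⊢
    have : l * k ≤ l * m := Nat.mul_le_mul_left l (by omega)
    omega
  rw [← Finset.sum_subset hsub]
  · rw [Finset.sum_image hinj.injOn]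
    refine Finset.sum_congr rfl fun k hk => ?_
    rw [Finset.mem_range] at hk
    rw [if_pos (Dvd.intro k rfl), Nat.mul_div_cancel_left k (by omega), ← Nat.mul_sub,
      pow_mul, pow_mul, pow_mul, ← pow_mul (s * r) l k, mul_pow, ← pow_mul r l k,
      ← pow_mul s l k]
    ring
  · intro j hj hj'
    rw [if_neg, zero_mul, zero_mul]
    rintro ⟨k, rfl⟩
    apply hj'
    rw [Finset.mem_image]
    refine ⟨k, ?_, rfl⟩
    rw [Finset.mem_range] at hj ⊢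
    by_contra hlt
    push Not at hlt
    have h1 : l * (m + 1) ≤ l * k := Nat.mul_le_mul_left l hlt
    have h2 : l * (m + 1) = l * m + l := by ring
    omega

/-- Bubbles with a constant second component: all nearby constants. -/
lemma bubble_const (hC : T_CPT) {a b : ℕ} {O : Set (Vec a × Vec b)} (hO : IsOpen O)
    (hcon : Conic O) {m : ℕ} {A : Fin (a + 1) → ℕ → ℂ} {w : Vec b}
    (h : ∀ s t : ℂ, (s, t) ≠ (0, 0) → (vform m A s t, w) ∈ O) :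
    ∃ ε : ℝ, 0 < ε ∧ ∀ w' : Vec b, ‖w' - w‖ < ε → ∀ s t : ℂ, (s, t) ≠ (0, 0) →
      (vform m A s t, w') ∈ O := by
  obtain ⟨ε, hε, h1⟩ := (hC a b m 0 O A (fun i _ => w i) hcon).1 hO (fun s t hst => by
    rw [vform_const]
    exact h s t hst)
  refine ⟨ε, hε, fun w' hw' s t hst => ?_⟩
  have h2 := (hC a b m 0 O A (fun i _ => w' i) hcon).2 (fun s t hst => by
    refine h1 s t hst _ _ ?_ ?_
    · rw [sub_self, norm_zero]
      exact hε
    · rw [vform_const, vform_const]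
      exact hw') s t hst
  rwa [vform_const] at h2

/-- Behaviour near infinity. -/
lemma near_inf {a b : ℕ} {τ : OnePoint ℂ → PP a b} (hτ : Continuous τ) {N : Set (PP a b)}
    (hN : IsOpen N) (hx : τ OnePoint.infty ∈ N) {f : PP a b → Vec a} (hf : ContinuousOn f N)
    {η : ℝ} (hη : 0 < η) : ∃ R : ℝ, ∀ z : ℂ, R ≤ ‖z‖ → τ z ∈ N ∧
      ‖f (τ z) - f (τ OnePoint.infty)‖ ≤ η := by
  have h1 : Tendsto (fun z : ℂ => τ (z : OnePoint ℂ)) (Bornology.cobounded ℂ)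
      (𝓝 (τ OnePoint.infty)) := by
    have h2 := OnePoint.continuousAt_infty'.1 (hτ.continuousAt (x := OnePoint.infty))
    rw [Filter.coclosedCompact_eq_cocompact, ← Metric.cobounded_eq_cocompact] at h2
    exact h2
  have h3 : ContinuousAt f (τ OnePoint.infty) := hf.continuousAt (hN.mem_nhds hx)
  have h4 : Tendsto (fun z : ℂ => f (τ (z : OnePoint ℂ))) (Bornology.cobounded ℂ)
      (𝓝 (f (τ OnePoint.infty))) := h3.tendsto.comp h1
  have h5 : ∀ᶠ z : ℂ in Bornology.cobounded ℂ, τ z ∈ N := h1.eventually (hN.mem_nhds hx)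
  have h6 : ∀ᶠ z : ℂ in Bornology.cobounded ℂ,
      ‖f (τ z) - f (τ OnePoint.infty)‖ < η := by
    have := h4.eventually (Metric.ball_mem_nhds _ hη)
    filter_upwards [this] with z hz
    have hz' : dist (f (τ z)) (f (τ OnePoint.infty)) < η := hz
    rwa [dist_eq_norm] at hz'
  have h7 := (Filter.hasBasis_cobounded_norm (E := ℂ)).eventually_iff.1 (h5.and h6)
  obtain ⟨R, -, hR⟩ := h7
  exact ⟨R, fun z hz => ⟨(hR hz).1, (hR hz).2.le⟩⟩

/-- Continuity at `0` in a convenient form. -/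
lemma near_zero {a : ℕ} {g : ℂ → Vec a} (hg : Continuous g) {δ : ℝ} (hδ : 0 < δ) :
    ∃ ρ : ℝ, 0 < ρ ∧ ∀ y : ℂ, ‖y‖ ≤ ρ → ‖g y - g 0‖ < δ := by
  obtain ⟨ρ, hρ, h⟩ := Metric.continuousAt_iff.1 (hg.continuousAt (x := 0)) δ hδ
  refine ⟨ρ / 2, by positivity, fun y hy => ?_⟩
  have h1 := h (x := y) (by rw [dist_zero_right]; linarith)
  rwa [dist_eq_norm] at h1

/-- Scaling of polynomial vectors. -/
lemma pv_scale {a : ℕ} (P : Fin (a + 1) → Polynomial ℂ) (c r : ℂ) :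
    ∃ P' : Fin (a + 1) → Polynomial ℂ, ∀ x : ℂ, pv P' x = c • pv P (r * x) := by
  refine ⟨fun i => Polynomial.C c * (P i).comp (Polynomial.C r * Polynomial.X), fun x => ?_⟩
  funext i
  simp [pv]

/-- The normalised lift on a disc. -/
lemma lift (hI : T_ISB) (hL : T_LFT) (hG : T_LOG) {a b : ℕ} {τ : ℂ → PP a b}
    (hτ : Continuous τ) {R : ℝ} (hR : 0 < R) {i : Fin (a + 1)} {f₁ : PP a b → Vec a}
    (h : ∀ z : ℂ, ‖z‖ = R → Is (f₁ (τ z)) (τ z).1 ∧ f₁ (τ z) i = 1 ∧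
      ∀ v, Is v (τ z).1 → v i ≠ 0) :
    ∃ (d : ℤ) (σ : ℂ → Vec a), Continuous σ ∧ (∀ z : ℂ, ‖z‖ ≤ R → Is (σ z) (τ z).1) ∧
      ∀ z : ℂ, ‖z‖ = R → σ z = (z / R) ^ d • f₁ (τ z) := by
  obtain ⟨-, -, -, hI4, hI5, -⟩ := hI a
  obtain ⟨f, hf, hf2⟩ := hL a b τ R hτ
  have hfe : ∀ z : ℂ, ‖z‖ = R → f z i ≠ 0 ∧ f z = f z i • f₁ (τ z) := by
    intro z hz
    obtain ⟨h1, h2, h3⟩ := h z hz
    have h4 := hf2 z hz.le
    obtain ⟨c, hc, h5⟩ := hI5 _ _ _ h1 h4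
    have h6 : f z i = c := by
      rw [h5, Pi.smul_apply, smul_eq_mul, h2, mul_one]
    refine ⟨h3 _ h4, ?_⟩
    rw [h6]
    exact h5
  obtain ⟨d, μ, hμ, hd⟩ := hG (fun z => f z i) R hR ((continuous_apply i).comp hf)
    (fun z hz => (hfe z hz).1)
  refine ⟨d, fun z => Complex.exp (-μ z) • f z, ?_, ?_, ?_⟩
  · exact (Complex.continuous_exp.comp hμ.neg).smul hf
  · intro z hz
    exact hI4 _ _ _ (Complex.exp_ne_zero _) (hf2 z hz)
  · intro z hz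
    change Complex.exp (-μ z) • f z = _
    rw [(hfe z hz).2, hd z hz, smul_smul]
    congr 1
    rw [mul_comm ((z / R) ^ d), ← mul_assoc, ← Complex.exp_add, neg_add_cancel,
      Complex.exp_zero, one_mul]

/-- The last step: gluing with the bubble at infinity. -/
lemma final (hF : T_FRM) (hS : T_BDS) {a b : ℕ} {O : Set (Vec a × Vec b)}
    (hcon : Conic O) {M : ℕ} {ε C η : ℝ} (hM : 2 ≤ M) (hε : 0 < ε) (hη : 0 < η)
    (hinf : ∀ (q : ℕ) (B : Fin (b + 1) → ℕ → ℂ) (p₂ : ℕ)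
      (A₂ : Fin (a + 1) → ℕ → ℂ) (k₀ : ℤ) (D : ℕ) (P : Fin (a + 1) → Polynomial ℂ),
      (D : ℤ) = k₀ + p₂ →
      (∀ s t : ℂ, ‖t‖ ≤ ‖s‖ → s ≠ 0 → (vform p₂ A₂ s t, vform q B s t) ∈ O) →
      (∀ x : ℂ, ‖x‖ = 1 → BD O M (ε / 2) C (x ^ k₀ • vform p₂ A₂ x 1) (vform q B x 1)) →
      (∀ x : ℂ, ‖x‖ ≤ 1 → (pv P x, vform q B x 1) ∈ O) →
      (∀ x : ℂ, ‖x‖ = 1 → ‖pv P x - x ^ k₀ • vform p₂ A₂ x 1‖ ≤ η) → ∀ ε' : ℝ, 0 < ε' →
      ∃ (p' : ℕ) (A' : Fin (a + 1) → ℕ → ℂ),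
        (∀ s t : ℂ, (s, t) ≠ (0, 0) → (vform p' A' s t, vform q B s t) ∈ O) ∧
        ‖vform p' A' 0 1 - pv P 0‖ ≤ ε' ∧ vform p' A' 1 0 = vform p₂ A₂ 1 0)
    {q : ℕ} {B : Fin (b + 1) → ℕ → ℂ} {m : ℕ} (hm : 1 ≤ m) {A : Fin (a + 1) → ℕ → ℂ} {ε₃ : ℝ}
    (hbub : ∀ w' : Vec b, ‖w' - vform q B 1 0‖ < ε₃ → ∀ s t : ℂ, (s, t) ≠ (0, 0) →
      (vform m A s t, w') ∈ O)
    (hBD : BD O M ε C (vform m A 0 1) (vform q B 1 0)) {R : ℝ} (hR : 0 < R)
    (hnear : ∀ y : ℂ, ‖y‖ ≤ 1 / R → ‖vform q B 1 y - vform q B 1 0‖ < min (ε / 2) ε₃)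
    (k : ℕ) (d : ℤ) (P : Fin (a + 1) → Polynomial ℂ)
    (hP : ∀ z : ℂ, ‖z‖ ≤ R → (pv P z, vform q B z 1) ∈ O)
    (hPR : ∀ x : ℂ, ‖x‖ = 1 →
      ‖((R : ℂ) ^ k)⁻¹ • pv P (R * x) - x ^ ((k : ℤ) + d) • vform m A 0 1‖ ≤ η / 2)
    {ρ : ℝ} (hρ : 0 < ρ) :
    ∃ (p' : ℕ) (A'' : Fin (a + 1) → ℕ → ℂ),
      (∀ s t : ℂ, (s, t) ≠ (0, 0) → (vform p' A'' s t, vform q B s t) ∈ O) ∧
      (∃ c : ℂ, c ≠ 0 ∧ ∃ v : Vec a, ‖v - ((R : ℂ) ^ k)⁻¹ • pv P 0‖ ≤ ρ ∧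
        vform p' A'' 0 1 = c • v) ∧
      ∃ c : ℂ, c ≠ 0 ∧ vform p' A'' 1 0 = c • vform m A 1 0 := by
  have hRc : (R : ℂ) ≠ 0 := by exact_mod_cast hR.ne'
  -- the bubble at infinity of high degree
  obtain ⟨δ, hδ, hδ2⟩ := near_zero (g := fun y : ℂ => vform m A y 1)
    ((vform_cont hF m A).comp (continuous_id.prodMk continuous_const))
    (δ := min (η / 4) (ε / 2)) (by positivity)
  obtain ⟨l, hl, hld⟩ : ∃ l : ℕ, 1 ≤ l ∧ d.natAbs ≤ l * m := by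
    refine ⟨d.natAbs + 1, by omega, ?_⟩
    calc d.natAbs ≤ (d.natAbs + 1) * 1 := by omega
      _ ≤ (d.natAbs + 1) * m := Nat.mul_le_mul_left _ hm
  obtain ⟨r, hr0, hr1, hrδ⟩ : ∃ r : ℝ, 0 < r ∧ r ≤ 1 ∧ r ≤ δ :=
    ⟨min 1 δ, by positivity, min_le_left _ _, min_le_right _ _⟩
  have hrc : (r : ℂ) ≠ 0 := by exact_mod_cast hr0.ne'
  obtain ⟨A₂, hA₂⟩ := vform_pow m l hl A (r : ℂ)
  obtain ⟨D, hD⟩ : ∃ D : ℕ, (D : ℤ) = ((k : ℤ) + d) + ((l * m : ℕ) : ℤ) := by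
    refine ⟨(((k : ℤ) + d) + ((l * m : ℕ) : ℤ)).toNat, ?_⟩
    apply Int.toNat_of_nonneg
    have h1 : -((d.natAbs : ℕ) : ℤ) ≤ d := by omega
    have h2 : ((d.natAbs : ℕ) : ℤ) ≤ ((l * m : ℕ) : ℤ) := by exact_mod_cast hld
    have h3 : (0 : ℤ) ≤ k := Int.natCast_nonneg k
    linarith
  have hAx : ∀ x : ℂ, ‖x‖ = 1 →
      ‖vform (l * m) A₂ x 1 - vform m A 0 1‖ < min (η / 4) (ε / 2) := by
    intro x hx
    rw [hA₂, one_pow]
    apply hδ2
    rw [norm_pow, norm_mul, hx, one_mul, Complex.norm_real, Real.norm_of_nonneg hr0.le]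
    calc r ^ l ≤ r ^ 1 := pow_le_pow_of_le_one hr0.le hr1 hl
      _ = r := pow_one r
      _ ≤ δ := hrδ
  obtain ⟨B', hB'⟩ := vform_snd q B ((R : ℂ)⁻¹)
  have hB1 : ∀ s t : ℂ, s ≠ 0 → vform q B' s t = s ^ q • vform q B 1 (t / (s * R)) := by
    intro s t hs
    rw [hB', ← vform_scale hF]
    congr 1
    · rw [mul_one]
    · field_simp
  obtain ⟨P', hP'⟩ := pv_scale P (((R : ℂ) ^ k)⁻¹) (R : ℂ)
  obtain ⟨p', A', h1, h2, h3⟩ := hinf q B' (l * m) A₂ ((k : ℤ) + d) D P' hD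
    (by
      intro s t hts hs
      have hsn : 0 < ‖s‖ := norm_pos_iff.2 hs
      have hy : ‖t / (s * R)‖ ≤ 1 / R := by
        rw [norm_div, norm_mul, Complex.norm_real, Real.norm_of_nonneg hR.le,
          div_le_div_iff₀ (by positivity) hR]
        nlinarith
      have h4 := hbub _ ((hnear _ hy).trans_le (min_le_right _ _)) ((s * r) ^ l) (t ^ l)
        (by
          intro h0
          rw [Prod.mk.injEq] at h0
          exact (pow_ne_zero l (mul_ne_zero hs hrc)) h0.1)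
      have h5 := hcon 1 (s ^ q) _ _ one_ne_zero (pow_ne_zero q hs) h4
      rw [one_smul] at h5
      rw [hA₂, hB1 s t hs]
      exact h5)
    (by
      intro x hx
      have hx0 : x ≠ 0 := by
        rintro rfl
        rw [norm_zero] at hx
        exact zero_ne_one hx
      have hy : ‖(1 : ℂ) / (x * R)‖ ≤ 1 / R := by
        rw [norm_div, norm_mul, Complex.norm_real, Real.norm_of_nonneg hR.le, hx, one_mul,
          norm_one]
      have h4 : BD O M (ε / 2) C (vform (l * m) A₂ x 1) (vform q B 1 (1 / (x * R))) :=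
        ((hS a b O M ε C (vform m A 0 1) (vform (l * m) A₂ x 1) (vform q B 1 0)
          (vform q B 1 (1 / (x * R))) 1 1 hcon hM hε hBD).2.1
          ((hAx x hx).le.trans (min_le_right _ _))
          ((hnear _ hy).le.trans (min_le_left _ _)))
      have h5 := (hS a b O M (ε / 2) C (vform (l * m) A₂ x 1) (vform (l * m) A₂ x 1)
        (vform q B 1 (1 / (x * R))) (vform q B 1 (1 / (x * R)))
        (x ^ ((k : ℤ) + d)) (x ^ q) hcon hM (by positivity) h4).1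
        (by rw [norm_zpow, hx, one_zpow]) (by rw [norm_pow, hx, one_pow])
      rw [hB1 x 1 hx0]
      exact h5)
    (by
      intro x hx
      have h4 : ‖(R : ℂ) * x‖ ≤ R := by
        rw [norm_mul, Complex.norm_real, Real.norm_of_nonneg hR.le]
        nlinarith
      have h5 := hcon (((R : ℂ) ^ k)⁻¹) (((R : ℂ) ^ q)⁻¹) _ _
        (inv_ne_zero (pow_ne_zero k hRc)) (inv_ne_zero (pow_ne_zero q hRc)) (hP _ h4)
      have h6 : vform q B' x 1 = ((R : ℂ) ^ q)⁻¹ • vform q B (R * x) 1 := by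
        rw [hB', ← inv_pow, ← vform_scale hF]
        congr 1
        field_simp
      rw [hP', h6]
      exact h5)
    (by
      intro x hx
      rw [hP']
      have h4 := hPR x hx
      have h5 := (hAx x hx).le.trans (min_le_left _ _)
      have h6 : ((R : ℂ) ^ k)⁻¹ • pv P (R * x) - x ^ ((k : ℤ) + d) • vform (l * m) A₂ x 1 =
          (((R : ℂ) ^ k)⁻¹ • pv P (R * x) - x ^ ((k : ℤ) + d) • vform m A 0 1) -
          x ^ ((k : ℤ) + d) • (vform (l * m) A₂ x 1 - vform m A 0 1) := by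
        rw [smul_sub]
        abel
      rw [h6]
      refine (norm_sub_le _ _).trans ?_
      rw [norm_smul, norm_zpow, hx, one_zpow, one_mul]
      linarith)
    ρ hρ
  obtain ⟨A'', hA''⟩ := vform_snd p' A' (R : ℂ)
  refine ⟨p', A'', ?_, ?_, ?_⟩
  · intro s t hst
    have h4 := h1 s (R * t) (by
      intro h0
      rw [Prod.mk.injEq] at h0
      apply hst
      rw [Prod.mk.injEq]
      exact ⟨h0.1, (mul_eq_zero.1 h0.2).resolve_left hRc⟩)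
    rw [hB', inv_mul_cancel_left₀ hRc] at h4
    rw [hA'']
    exact h4
  · refine ⟨(R : ℂ) ^ p', pow_ne_zero _ hRc, vform p' A' 0 1, ?_, ?_⟩
    · rw [hP', mul_zero] at h2
      exact h2
    · rw [hA'', mul_one, ← vform_scale hF, mul_zero, mul_one]
  · refine ⟨((r : ℂ) ^ l) ^ m, pow_ne_zero _ (pow_ne_zero _ hrc), ?_⟩
    rw [hA'', mul_zero, h3, hA₂, ← vform_scale hF, one_mul, mul_one, mul_zero,
      zero_pow (by omega)]

end HPR_

theorem p_HPR (hI : T_ISB) (hN : T_CNC) (hF : T_FRM) (hP : T_CPT) (hT : T_CHT) (hSO : T_SHO)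
    (hSN : T_SHN) (hY : T_SYM) (hJ : T_JTR) (hU : T_UNI) (hB : T_BDS) (hF8 : T_INF)
    (hA : T_CHA) (hL : T_LFT) (hG : T_LOG) : T_HPR := by
  intro a b U τ hUo hτ hsh q B hB1 hB2
  obtain ⟨hSopen, hScone, hSU⟩ := hSO a b U hUo
  have hO : IsOpen (cone U) := hUo
  obtain ⟨hcon, hmem, -⟩ := hN a b U
  obtain ⟨-, hmemS, -⟩ := hN a b (Sharp U)
  obtain ⟨hIex, hIne, -, hI4, hI5, -⟩ := hI a
  -- the chart at infinity
  obtain ⟨i, j, N, f₁, g₁, hNo, hNx, hNm, hNf, hNc, -⟩ := hT a b (τ OnePoint.infty)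
  have hv := hNf _ hNx
  have hbub0 : (f₁ (τ OnePoint.infty), vform q B 1 0) ∈ Bub (cone U) := by
    rw [← hScone]
    exact (hmemS _ _ _ hv.1 hB2).2 (hsh _)
  obtain ⟨m, A, hm, hA0, hAO⟩ := hbub0
  have hA0' : vform m A 0 1 = f₁ (τ OnePoint.infty) := hA0
  obtain ⟨ε₃, hε₃, hbub⟩ := HPR_.bubble_const hP hO hcon hAO
  obtain ⟨M, ε, C, hM, hε, hBD⟩ := hU a b (cone U)
    {(f₁ (τ OnePoint.infty), vform q B 1 0)} hO hcon (by
      rintro _ rfl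
      exact ⟨m, A, hm, hA0, hAO⟩) isCompact_singleton
  have hBD' := hBD _ (Set.mem_singleton _)
  obtain ⟨η, hη, hinf⟩ := hF8 a b (cone U) M (ε / 2) C hO hcon hM (by positivity)
  -- the radius
  obtain ⟨ρ₁, hρ₁, hρ₁'⟩ := HPR_.near_zero (g := fun y : ℂ => vform q B 1 y)
    ((HPR_.vform_cont hF q B).comp (continuous_const.prodMk continuous_id))
    (δ := min (ε / 2) ε₃) (by positivity)
  obtain ⟨R₁, hR₁⟩ := HPR_.near_inf hτ hNo hNx hNc (η := η / 4) (by positivity)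
  obtain ⟨R, hR, hRR, hRρ⟩ : ∃ R : ℝ, 0 < R ∧ R₁ ≤ R ∧ 1 / R ≤ ρ₁ := by
    refine ⟨max R₁ (1 / ρ₁), lt_of_lt_of_le (by positivity) (le_max_right _ _),
      le_max_left _ _, ?_⟩
    rw [div_le_iff₀ (lt_of_lt_of_le (by positivity) (le_max_right _ _))]
    calc (1 : ℝ) = ρ₁ * (1 / ρ₁) := by field_simp
      _ ≤ ρ₁ * max R₁ (1 / ρ₁) := mul_le_mul_of_nonneg_left (le_max_right _ _) hρ₁.le
  have hRc : (R : ℂ) ≠ 0 := by exact_mod_cast hR.ne'
  -- the lift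
  have hτc : Continuous fun z : ℂ => τ (z : OnePoint ℂ) := hτ.comp OnePoint.continuous_coe
  obtain ⟨d, σ, hσ, hσI, hσR⟩ := HPR_.lift hI hL hG (τ := fun z : ℂ => τ (z : OnePoint ℂ)) hτc
    hR (i := i) (f₁ := f₁) (by
      intro z hz
      have h1 := hR₁ z (by rw [hz]; exact hRR)
      exact ⟨(hNf _ h1.1).1, (hNf _ h1.1).2.2.1, ((hNm _).1 h1.1).1⟩)
  -- the approximation
  obtain ⟨N₀, hN₀, hN₀x, hN₀J⟩ := hSN a b U (τ ((0 : ℂ) : OnePoint ℂ)) hUo (hsh _)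
  obtain ⟨hcon₀, hmem₀, hne₀⟩ := hN a b N₀
  have hwc : Continuous fun z : ℂ => vform q B z 1 :=
    (HPR_.vform_cont hF q B).comp (continuous_id.prodMk continuous_const)
  have hO₀ : IsOpen {v : Vec a | (v, vform q B 0 1) ∈ cone N₀} :=
    IsOpen.preimage (continuous_id.prodMk continuous_const) hN₀
  have hO₀c : ∀ (c : ℂ) (v : Vec a), c ≠ 0 → v ∈ {v : Vec a | (v, vform q B 0 1) ∈ cone N₀} →
      c • v ∈ {v : Vec a | (v, vform q B 0 1) ∈ cone N₀} := by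
    intro c v hc hv
    have h1 := hcon₀ c 1 _ _ hc one_ne_zero hv
    rw [one_smul] at h1
    exact h1
  have hσ0 : Is (σ 0) (τ ((0 : ℂ) : OnePoint ℂ)).1 := hσI 0 (by rw [norm_zero]; exact hR.le)
  obtain ⟨k, P, hPO, hP0, hPR⟩ := hA a b (cone U) hO hcon R σ (fun z => vform q B z 1) hR hσ hwc
    (by
      intro z hz
      rw [← hScone]
      exact (hmemS _ _ _ (hσI z hz) (hB1 z)).2 (hsh _))
    {v : Vec a | (v, vform q B 0 1) ∈ cone N₀} hO₀ hO₀c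
    ((hmem₀ _ _ _ hσ0 (hB1 0)).2 hN₀x) (η / 4) (by positivity)
  -- a ball in `O₀`
  have hP0' : ((R : ℂ) ^ k)⁻¹ • pv P 0 ∈ {v : Vec a | (v, vform q B 0 1) ∈ cone N₀} :=
    hO₀c _ _ (inv_ne_zero (pow_ne_zero k hRc)) hP0
  obtain ⟨ρ, hρ, hρO⟩ := Metric.isOpen_iff.1 hO₀ _ hP0'
  obtain ⟨p', A'', h1, ⟨c₀, hc₀, v₀, hv₀, hA₀⟩, c₁, hc₁, hA₁⟩ :=
    HPR_.final hF hB hcon hM hε hη hinf hm (ε₃ := ε₃) hbub (by rw [hA0']; exact hBD') hR
    (fun y hy => hρ₁' y (hy.trans hRρ)) k d P hPO (by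
      intro x hx
      have hRx : ‖(R : ℂ) * x‖ = R := by
        rw [norm_mul, Complex.norm_real, Real.norm_of_nonneg hR.le, hx, mul_one]
      have h2 := hPR (R * x) hRx
      have h3 := hσR (R * x) hRx
      have h4 : ((R : ℂ) * x / R) = x := by field_simp
      rw [h4] at h3
      have hx0 : x ≠ 0 := by
        rintro rfl
        rw [norm_zero] at hx
        exact zero_ne_one hx
      have h5 := (hR₁ (R * x) (by rw [hRx]; exact hRR)).2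
      rw [hA0']
      have h6 : ((R : ℂ) ^ k)⁻¹ • pv P (R * x) - x ^ ((k : ℤ) + d) • f₁ (τ OnePoint.infty) =
          ((R : ℂ) ^ k)⁻¹ • (pv P (R * x) - ((R : ℂ) * x) ^ k • σ (R * x)) +
          x ^ ((k : ℤ) + d) • (f₁ (τ ((R * x : ℂ) : OnePoint ℂ)) - f₁ (τ OnePoint.infty)) := by
        rw [smul_sub, smul_sub, h3, smul_smul, smul_smul, mul_pow, zpow_add₀ hx0, zpow_natCast]
        have h7 : ((R : ℂ) ^ k)⁻¹ * ((R : ℂ) ^ k * x ^ k) * x ^ d = x ^ k * x ^ d := by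
          field_simp
        rw [h7]
        abel
      rw [h6]
      refine (norm_add_le _ _).trans ?_
      rw [norm_smul, norm_smul, norm_zpow, hx, one_zpow, one_mul, norm_inv, norm_pow,
        Complex.norm_real, Real.norm_of_nonneg hR.le]
      have h8 : (R ^ k)⁻¹ * ‖pv P (R * x) - ((R : ℂ) * x) ^ k • σ (R * x)‖ ≤ η / 4 := by
        rw [inv_mul_le_iff₀ (by positivity)]
        rw [hRx] at h2
        linarith
      linarith)
    (ρ := ρ / 2) (by positivity)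
  have hv₀' : v₀ ∈ {v : Vec a | (v, vform q B 0 1) ∈ cone N₀} := by
    apply hρO
    rw [Metric.mem_ball, dist_eq_norm]
    linarith
  have hA₀' : (vform p' A'' 0 1, vform q B 0 1) ∈ cone N₀ := by
    rw [hA₀]
    exact hO₀c c₀ v₀ hc₀ hv₀'
  -- the end points
  obtain ⟨u₀, hu₀⟩ := hIne (vform p' A'' 0 1) (hne₀ _ _ hA₀').1
  have hAinf : vform m A 1 0 ≠ 0 := by
    have h2 := hAO 1 0 (by simp)
    exact ((hN a b U).2.2 _ _ h2).1
  obtain ⟨u₁, hu₁⟩ := hIne (vform m A 1 0) hAinf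
  have hx₀ : (u₀, (τ ((0 : ℂ) : OnePoint ℂ)).2) ∈ N₀ :=
    (hmem₀ (u₀, (τ ((0 : ℂ) : OnePoint ℂ)).2) _ _ hu₀ (hB1 0)).1 hA₀'
  have hJ1 : Joined U (τ ((0 : ℂ) : OnePoint ℂ)) (u₀, (τ ((0 : ℂ) : OnePoint ℂ)).2) :=
    hN₀J _ hx₀ rfl
  have hJ2 : JoinedD U p' q (u₀, (τ ((0 : ℂ) : OnePoint ℂ)).2)
      (u₁, (τ OnePoint.infty).2) := by
    refine ⟨A'', B, h1, hu₀, hB1 0, ?_, hB2⟩
    rw [hA₁]
    exact hI4 _ _ _ hc₁ hu₁
  have hJ3 : JoinedD U m 0 (τ OnePoint.infty) (u₁, (τ OnePoint.infty).2) := by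
    refine ⟨A, fun i _ => vform q B 1 0 i, ?_, ?_, ?_, hu₁, ?_⟩
    · intro s t hst
      rw [HPR_.vform_const]
      exact hAO s t hst
    · rw [hA0']
      exact hv.1
    · rw [HPR_.vform_const]
      exact hB2
    · rw [HPR_.vform_const]
      exact hB2
  obtain ⟨p₁, q₁, hJ1'⟩ := hJ1
  have hJ4 := hJ a b p₁ q₁ p' q U _ _ _ hUo hJ1' hJ2
  have hJ5 := (hY a b U).1 _ _ _ _ hJ3
  exact ⟨_, _, hJ a b _ _ _ _ U _ _ _ hUo hJ4 hJ5⟩

end Pool.Agent.ARC
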