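import Pool.Agent.ARC.Targets5

set_option autoImplicit false

/-!
# ARC: T_HPT, the h-principle on a torus
-/

noncomputable section

open Filter Topology

namespace Pool.Agent.ARC

namespace HPT_

/-- A neighbourhood in the slice in terms of vectors. -/
theorem nbh (h_ISB : T_ISB) (h_CNC : T_CNC) {a b : ℕ} (N : Set (PP a b)) (hN : IsOpenP N)
    (y : PP a b) (hy : y ∈ N) (v : Vec a) (hv : Is v y.1) :
    ∃ ε : ℝ, 0 < ε ∧ ∀ (v' : Vec a) (y' : PP a b), ‖v' - v‖ ≤ ε → Is v' y'.1 → y'.2 = y.2 →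
      y' ∈ N := by
  obtain ⟨w, hw⟩ := (h_ISB b).1 y.2
  obtain ⟨-, hmem, -⟩ := h_CNC a b N
  have h1 : (v, w) ∈ cone N := (hmem y v w hv hw).2 hy
  have hopen : IsOpen (cone N) := hN
  obtain ⟨ε, hε, hball⟩ := Metric.isOpen_iff.1 hopen (v, w) h1
  refine ⟨ε / 2, by positivity, fun v' y' hv' hIs h2 => ?_⟩
  have h3 : (v', w) ∈ Metric.ball (v, w) ε := by
    rw [Metric.mem_ball, Prod.dist_eq]
    have h4 : dist v' v ≤ ε / 2 := by rw [dist_eq_norm]; exact hv'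
    have h5 : dist w w = 0 := dist_self w
    simp only [h5]
    rw [max_lt_iff]
    constructor
    · linarith
    · exact hε
  have h6 := hball h3
  rw [← h2] at hw
  exact (hmem y' v' w hIs hw).1 h6

/-- Nonzero complex numbers are exponentials. -/
theorem exp_surj (w : ℂ) (hw : w ≠ 0) : ∃ z : ℂ, Complex.exp (2 * Real.pi * Complex.I * z) = w := by
  refine ⟨Complex.log w / (2 * Real.pi * Complex.I), ?_⟩
  have h : (2 * Real.pi * Complex.I : ℂ) ≠ 0 := Complex.two_pi_I_ne_zero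
  rw [mul_div_cancel₀ _ h]
  exact Complex.exp_log hw

theorem norm_exp_real (x : ℝ) : ‖Complex.exp (2 * Real.pi * Complex.I * (x : ℂ))‖ = 1 := by
  rw [Complex.norm_exp]
  have : (2 * Real.pi * Complex.I * (x : ℂ)).re = 0 := by simp
  rw [this, Real.exp_zero]

theorem norm_exp_tau (τ : ℂ) (hτ : 0 < τ.im) :
    0 < ‖Complex.exp (2 * Real.pi * Complex.I * τ)‖ ∧
      ‖Complex.exp (2 * Real.pi * Complex.I * τ)‖ < 1 := by
  constructor
  · exact norm_pos_iff.2 (Complex.exp_ne_zero _)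
  · rw [Complex.norm_exp, Real.exp_lt_one_iff]
    have : (2 * Real.pi * Complex.I * τ).re = -(2 * Real.pi * τ.im) := by simp
    rw [this]
    have h := Real.pi_pos
    have : 0 < 2 * Real.pi * τ.im := by positivity
    linarith

end HPT_

open HPT_ in
/-- HPT. The h-principle on a torus. -/
theorem p_HPT (h_MTX : T_MTX) (h_DES : T_DES) (h_CLO : T_CLO) (h_HP1 : T_HP1) (h_ASM : T_ASM)
    (h_SHN : T_SHN) (h_RTE : T_RTE) (h_CHE : T_CHE) (h_CNC : T_CNC) (h_ISB : T_ISB) : T_HPT := by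
  intro a b U τ f hU hτ hf h1 h2 hS hloc x
  obtain ⟨n, O, Φ, hO, hOc, hΦ, hO1, hO2⟩ := h_MTX a b U hU
  obtain ⟨g, hg, hg1⟩ := h_DES (PP a b) f hf h1
  obtain ⟨hq0, hq1⟩ := norm_exp_tau τ hτ
  set q : ℂ := Complex.exp (2 * Real.pi * Complex.I * τ) with hq
  have hgq : ∀ w, w ≠ 0 → g (q * w) = g w := by
    intro w hw
    obtain ⟨z, rfl⟩ := exp_surj w hw
    rw [hg1 z, ← h2 z, ← hg1 (z + τ)]
    congr 1
    rw [hq, ← Complex.exp_add]
    congr 1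
    ring
  have hgS : ∀ w, w ≠ 0 → g w ∈ Sharp U := by
    intro w hw
    obtain ⟨z, rfl⟩ := exp_surj w hw
    rw [hg1 z]
    exact hS z
  obtain ⟨d, σ, hσ, hσ1, hσ2⟩ := h_CLO a b g q hq0 hq1 hg hgq
  have hWc : ContinuousOn (fun w => Φ (g w).2) {w | w ≠ 0} := hΦ.comp_continuousOn hg
  have hg0 : g 1 = f 0 := by
    rw [← hg1 0]
    simp
  have hx1 : ‖Complex.exp (2 * Real.pi * Complex.I * (x : ℂ))‖ = 1 := norm_exp_real x
  have hBub : ∀ w, 1 ≤ ‖w‖ → ‖q‖ * ‖w‖ ≤ 1 → (σ w, Φ (g w).2) ∈ Bub O := by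
    intro w hw1 hw2
    have hw0 : w ≠ 0 := by
      rintro rfl
      rw [norm_zero] at hw1
      linarith
    exact (hO2 _ _).2 ⟨g w, hgS w hw0, hσ1 w hw1 hw2, rfl⟩
  -- the neighbourhoods of the two points
  obtain ⟨N₀, hN₀, hfN₀, hJ₀⟩ := h_SHN a b U (f 0) hU (hS 0)
  obtain ⟨N₁, hN₁, hfN₁, hJ₁⟩ := h_SHN a b U (f x) hU (hS x)
  have hs0 : Is (σ 1) (f 0).1 := by
    rw [← hg0]
    apply hσ1 1
    · simp
    · simp only [norm_one, mul_one]
      exact hq1.le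
  have hs1 : Is (σ (Complex.exp (2 * Real.pi * Complex.I * (x : ℂ)))) (f x).1 := by
    rw [← hg1 x]
    apply hσ1
    · rw [hx1]
    · rw [hx1, mul_one]
      exact hq1.le
  obtain ⟨ε₀, hε₀, hn₀⟩ := nbh h_ISB h_CNC N₀ hN₀ (f 0) hfN₀ _ hs0
  obtain ⟨ε₁, hε₁, hn₁⟩ := nbh h_ISB h_CNC N₁ hN₁ (f x) hfN₁ _ hs1
  obtain ⟨ρ, δ, H, hρ, hδ, hr1, hr2, hHd, hH2, hH3, hH4⟩ :=
    h_HP1 a n O q (fun w => Φ (g w).2) σ d hO hOc hq0 hq1 hWc
      (fun w hw => by simp only [hgq w hw]) hσ hBub hσ2 (min ε₀ ε₁) (lt_min hε₀ hε₁)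
  have hρC : (ρ : ℂ) ≠ 0 := Complex.ofReal_ne_zero.2 hρ.ne'
  obtain ⟨F, hF, hF1, hFτ, hFU, hF2, hFH⟩ := h_ASM a b U τ f ρ δ H hτ h1 h2 hloc hρ hδ q hq
    (hr1.trans hr2) hHd
    (by
      intro z y hy hy1 hy2
      have h3 := hH2 y hy1 hy2
      have h4 : (ρ : ℂ) * y = Complex.exp (2 * Real.pi * Complex.I * z) := by
        rw [hy]
        field_simp
      simp only [h4, hg1 z] at h3
      exact (hO1 _ _).1 h3) hH3
  -- the endpoints
  have hend : ∀ z : ℝ, ∃ c : ℂ, Is (c • H (Complex.exp (2 * Real.pi * Complex.I * (z : ℂ)) / ρ))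
      (F z).1 ∧ ‖c • H (Complex.exp (2 * Real.pi * Complex.I * (z : ℂ)) / ρ) -
        σ (Complex.exp (2 * Real.pi * Complex.I * (z : ℂ)))‖ ≤ min ε₀ ε₁ := by
    intro z
    have hz1 : ‖Complex.exp (2 * Real.pi * Complex.I * (z : ℂ))‖ = 1 := norm_exp_real z
    obtain ⟨c, hc, hcle⟩ := hH4 _ hz1
    refine ⟨c, ?_, hcle⟩
    have hn : ‖Complex.exp (2 * Real.pi * Complex.I * (z : ℂ)) / ρ‖ = 1 / ρ := by
      rw [norm_div, hz1, Complex.norm_real, Real.norm_of_nonneg hρ.le]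
    have h5 := hFH z _ rfl (by rw [hn]; exact hr1) (by
      rw [hn]
      have h6 : 0 < 1 / ρ := by positivity
      calc ‖q‖ * (1 / ρ) ≤ 1 * (1 / ρ) := by gcongr
        _ = 1 / ρ := one_mul _
        _ < 1 - δ := hr2)
    exact (h_ISB a).2.2.2.1 _ _ c hc h5
  have hch0 : ChainE U (f 0) (F 0) := by
    apply h_RTE
    apply hJ₀
    · obtain ⟨c, hc1, hc2⟩ := hend 0
      simp only [Complex.ofReal_zero, mul_zero, Complex.exp_zero] at hc1 hc2
      exact hn₀ _ _ (hc2.trans (min_le_left _ _)) hc1 (hF2 0)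
    · exact hF2 0
  have hch1 : ChainE U (f x) (F x) := by
    apply h_RTE
    apply hJ₁
    · obtain ⟨c, hc1, hc2⟩ := hend x
      exact hn₁ _ _ (hc2.trans (min_le_right _ _)) hc1 (hF2 x)
    · exact hF2 x
  obtain ⟨hsym, htrans, -⟩ := h_CHE a b U
  have hmid : ChainE U (F 0) (F x) := by
    by_cases hne : F 0 = F x
    · rw [hne]
      exact Relation.ReflTransGen.refl
    · refine Relation.ReflTransGen.single ⟨Set.range F, ⟨τ, F, hτ, hF, hF1, hFτ, rfl, ?_⟩, ?_,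
        ⟨0, rfl⟩, ⟨x, rfl⟩⟩
      · exact ⟨F 0, ⟨0, rfl⟩, F x, ⟨x, rfl⟩, hne⟩
      · rintro _ ⟨z, rfl⟩
        exact hFU z
  exact htrans _ _ _ (htrans _ _ _ hch0 hmid) (hsym _ _ hch1)

end Pool.Agent.ARC
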