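import Pool.Agent.ARC.Targets2

set_option autoImplicit false

/-!
# ARC: INF, the last gluing step
-/

noncomputable section

namespace Pool.Agent.ARC

namespace INF_

open Polynomial

lemma vform_smul (h : T_FRM) {a : ℕ} (p : ℕ) (A : Fin (a + 1) → ℕ → ℂ) (r s t : ℂ) :
    vform p A (r * s) (r * t) = r ^ p • vform p A s t := by
  funext i
  exact h.1 p (A i) r s t

lemma vform_cont1 {a : ℕ} (p : ℕ) (A : Fin (a + 1) → ℕ → ℂ) :
    Continuous fun x : ℂ => vform p A x 1 := by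
  refine continuous_pi fun i => ?_
  unfold vform form
  fun_prop

lemma vform_cont2 {a : ℕ} (p : ℕ) (A : Fin (a + 1) → ℕ → ℂ) :
    Continuous fun x : ℂ => vform p A 1 x := by
  refine continuous_pi fun i => ?_
  unfold vform form
  fun_prop

lemma pv_cont {a : ℕ} (P : Fin (a + 1) → Polynomial ℂ) : Continuous (pv P) :=
  continuous_pi fun i => (P i).continuous

lemma vform_coeff {a : ℕ} (P : Fin (a + 1) → Polynomial ℂ) (N : ℕ)
    (h : ∀ i, (P i).natDegree ≤ N) (x : ℂ) :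
    vform N (fun i k => (P i).coeff k) x 1 = pv P x := by
  funext i
  show form N (fun k => (P i).coeff k) x 1 = (P i).eval x
  rw [Polynomial.eval_eq_sum_range' (Nat.lt_succ_of_le (h i)) x]
  unfold form
  refine Finset.sum_congr rfl fun k _ => ?_
  simp

/-- The polynomial `X^e * (∑ c k X^k)`. -/
def gp (e p : ℕ) (c : ℕ → ℂ) : Polynomial ℂ :=
  X ^ e * ∑ k ∈ Finset.range (p + 1), C (c k) * X ^ k

lemma gp_eval (e p : ℕ) (c : ℕ → ℂ) (x : ℂ) : (gp e p c).eval x = x ^ e * form p c x 1 := by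
  unfold gp form
  rw [eval_mul, eval_pow, eval_X, eval_finsetSum]
  congr 1
  refine Finset.sum_congr rfl fun k _ => ?_
  simp

lemma gp_deg (e p : ℕ) (c : ℕ → ℂ) : (gp e p c).natDegree ≤ e + p := by
  unfold gp
  refine natDegree_mul_le.trans (add_le_add (natDegree_X_pow_le e) ?_)
  refine natDegree_sum_le_of_forall_le _ _ fun k hk => ?_
  refine (natDegree_C_mul_X_pow_le (c k) k).trans ?_
  have := Finset.mem_range.mp hk
  omega

lemma gp_coeff (e p : ℕ) (c : ℕ → ℂ) : (gp e p c).coeff (p + e) = c p := by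
  unfold gp
  rw [coeff_X_pow_mul, finsetSum_coeff]
  simp only [coeff_C_mul_X_pow]
  rw [Finset.sum_ite_eq]
  simp

/-- Perturbation of the first component over a compact set of parameters. -/
lemma comp {a b : ℕ} (O : Set (Vec a × Vec b)) (hO : IsOpen O) (f : ℂ → Vec a) (g : ℂ → Vec b)
    (hf : Continuous f) (hg : Continuous g) (h : ∀ x : ℂ, ‖x‖ ≤ 1 → (f x, g x) ∈ O) :
    ∃ ρ : ℝ, 0 < ρ ∧ ∀ x : ℂ, ‖x‖ ≤ 1 → ∀ v : Vec a, ‖v - f x‖ < ρ → (v, g x) ∈ O := by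
  have hK : IsCompact ((fun x => (f x, g x)) '' Metric.closedBall (0 : ℂ) 1) :=
    (isCompact_closedBall 0 1).image (hf.prodMk hg)
  have hKO : (fun x => (f x, g x)) '' Metric.closedBall (0 : ℂ) 1 ⊆ O := by
    rintro _ ⟨x, hx, rfl⟩
    exact h x (by simpa using hx)
  obtain ⟨ρ, hρ, hρO⟩ := hK.exists_thickening_subset_open hO hKO
  refine ⟨ρ, hρ, fun x hx v hv => hρO ?_⟩
  rw [Metric.mem_thickening_iff]
  refine ⟨(f x, g x), ⟨x, by simpa using hx, rfl⟩, ?_⟩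
  rw [Prod.dist_eq]
  simp only [dist_self]
  rw [max_eq_left dist_nonneg, dist_eq_norm]
  exact hv

lemma scale {a : ℕ} (c : ℂ) (hc : c ≠ 0) (v w : Vec a) (ε : ℝ)
    (h : ‖v - c • w‖ ≤ ε * ‖c‖) : ‖c⁻¹ • v - w‖ ≤ ε := by
  have e : c⁻¹ • v - w = c⁻¹ • (v - c • w) := by
    rw [smul_sub, smul_smul, inv_mul_cancel₀ hc, one_smul]
  rw [e, norm_smul, norm_inv]
  have hc' : 0 < ‖c‖ := norm_pos_iff.mpr hc
  calc ‖c‖⁻¹ * ‖v - c • w‖ ≤ ‖c‖⁻¹ * (ε * ‖c‖) := by gcongr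
    _ = ε := by field_simp

end INF_

open INF_

theorem p_INF (h_COR : T_COR) (h_FRM : T_FRM) : T_INF := by
  intro a b O M ε C hO hc hM hε
  obtain ⟨η, hη, hcor⟩ := h_COR a b O M ε C hc hM hε
  refine ⟨η, hη, ?_⟩
  intro q B p₂ A₂ k₀ D P hD h1 h2 h3 h4 ε' hε'
  obtain ⟨e, he⟩ : ∃ e : ℕ, (e : ℤ) = k₀.natAbs + k₀ := ⟨(k₀.natAbs + k₀).toNat, by omega⟩
  have hJD : k₀.natAbs + D = p₂ + e := by omega
  have hW : Continuous fun x : ℂ => vform q B x 1 := vform_cont1 q B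
  obtain ⟨δ, hδ0, hδ1, hcor2⟩ := hcor (fun x => vform q B x 1)
    (fun x => x ^ k₀ • vform p₂ A₂ x 1) k₀.natAbs D (fun i => gp e p₂ (A₂ i)) P hW
    (by
      intro x hx
      funext i
      show x ^ k₀.natAbs * (x ^ k₀ * form p₂ (A₂ i) x 1) = (gp e p₂ (A₂ i)).eval x
      rw [gp_eval, ← mul_assoc, ← zpow_natCast x k₀.natAbs, ← zpow_add₀ hx, ← he,
        zpow_natCast])
    (by
      intro i
      have := gp_deg e p₂ (A₂ i)
      omega)
    h2 h4
  obtain ⟨ρ₁, hρ₁, hK₁⟩ := comp O hO (pv P) (fun x => vform q B x 1) (pv_cont P) hW h3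
  obtain ⟨ρ₂, hρ₂, hK₂⟩ := comp O hO (fun y => vform p₂ A₂ 1 y) (fun y => vform q B 1 y)
    (vform_cont2 p₂ A₂) (vform_cont2 q B)
    (fun y hy => h1 1 y (by simpa using hy) one_ne_zero)
  obtain ⟨ε₂, hε₂, hε₂1, hε₂2, hε₂3⟩ : ∃ ε₂ : ℝ, 0 < ε₂ ∧ ε₂ < ρ₁ ∧ ε₂ < ρ₂ ∧ ε₂ ≤ ε' := by
    refine ⟨min (min (ρ₁ / 2) (ρ₂ / 2)) ε', by positivity, ?_, ?_, min_le_right _ _⟩
    · have := (min_le_left (min (ρ₁ / 2) (ρ₂ / 2)) ε').trans (min_le_left _ _)
      linarith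
    · have := (min_le_left (min (ρ₁ / 2) (ρ₂ / 2)) ε').trans (min_le_right _ _)
      linarith
  obtain ⟨n₀, hn₀⟩ := hcor2 δ hδ0 le_rfl ε₂ hε₂
  obtain ⟨P', q1, q2, q3, q4, q5⟩ := hn₀ (max n₀ 1) (le_max_left _ _)
  have hn1 : max n₀ 1 ≠ 0 := by
    have := le_max_right n₀ 1
    omega
  generalize max n₀ 1 = n at q1 q2 q3 q4 q5 hn1
  have hval : ∀ x : ℂ, vform (n * M + D) (fun i k => (P' i).coeff k) x 1 = pv P' x :=
    vform_coeff P' _ q4
  have hinf : vform (n * M + D) (fun i k => (P' i).coeff k) 1 0 = vform p₂ A₂ 1 0 := by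
    funext i
    show form (n * M + D) (fun k => (P' i).coeff k) 1 0 = form p₂ (A₂ i) 1 0
    rw [(h_FRM.2.2.1 _ _).2, (h_FRM.2.2.1 _ _).2, q5 i, hJD, gp_coeff]
  have hne : ∀ x : ℂ, ‖x‖ ≤ 1 - δ ∨ 1 + δ ≤ ‖x‖ → (1 + x ^ n) ^ M ≠ 0 := by
    intro x hx h0
    have h0' := pow_eq_zero_iff (by omega : M ≠ 0) |>.mp h0
    have h5 : x ^ n = -1 := by linear_combination h0'
    have h6 : ‖x‖ ^ n = 1 := by rw [← norm_pow, h5]; simp
    have h7 : ‖x‖ = 1 := (pow_eq_one_iff_of_nonneg (norm_nonneg x) hn1).mp h6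
    rcases hx with hx | hx <;> linarith
  have main : ∀ x : ℂ, (pv P' x, vform q B x 1) ∈ O := by
    intro x
    rcases le_or_gt ‖x‖ (1 - δ) with hx | hx
    · have hc0 := hne x (Or.inl hx)
      have k1 := scale _ hc0 _ _ _ (q2 x hx)
      have k2 := hK₁ x (by linarith) _ (lt_of_le_of_lt k1 hε₂1)
      have k3 := hc _ 1 _ _ hc0 one_ne_zero k2
      rwa [smul_smul, mul_inv_cancel₀ hc0, one_smul, one_smul] at k3
    · rcases le_or_gt ‖x‖ (1 + δ) with hx' | hx'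
      · exact q1 x hx.le hx'
      · have hc0 := hne x (Or.inr hx'.le)
        have hx0 : x ≠ 0 := by
          rintro rfl
          rw [norm_zero] at hx'
          linarith
        have k0 : x ^ k₀ • vform p₂ A₂ x 1 = x ^ D • vform p₂ A₂ 1 x⁻¹ := by
          have := vform_smul h_FRM p₂ A₂ x 1 x⁻¹
          rw [mul_one, mul_inv_cancel₀ hx0] at this
          rw [this, smul_smul, ← zpow_natCast x p₂, ← zpow_add₀ hx0, ← hD, zpow_natCast]
        have k1 := q3 x hx'.le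
        rw [k0, smul_smul] at k1
        have hxD : 1 ≤ ‖x ^ D‖ := by
          rw [norm_pow]
          exact one_le_pow₀ (by linarith)
        have hd0 : (1 + x ^ n) ^ M * x ^ D ≠ 0 := mul_ne_zero hc0 (pow_ne_zero _ hx0)
        have k2 : ‖pv P' x - ((1 + x ^ n) ^ M * x ^ D) • vform p₂ A₂ 1 x⁻¹‖ ≤
            ε₂ * ‖(1 + x ^ n) ^ M * x ^ D‖ := by
          refine k1.trans ?_
          rw [norm_mul]
          have : 0 ≤ ‖(1 + x ^ n) ^ M‖ := norm_nonneg _
          nlinarith [mul_nonneg hε₂.le this]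
        have k3 := scale _ hd0 _ _ _ k2
        have hy : ‖x⁻¹‖ ≤ 1 := by
          rw [norm_inv]
          exact inv_le_one_of_one_le₀ (by linarith)
        have k4 := hK₂ x⁻¹ hy _ (lt_of_le_of_lt k3 hε₂2)
        have k5 := hc _ (x ^ q) _ _ hd0 (pow_ne_zero _ hx0) k4
        rw [smul_smul, mul_inv_cancel₀ hd0, one_smul] at k5
        have k6 := vform_smul h_FRM q B x 1 x⁻¹
        rw [mul_one, mul_inv_cancel₀ hx0] at k6
        rwa [← k6] at k5
  refine ⟨n * M + D, fun i k => (P' i).coeff k, ?_, ?_, hinf⟩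
  · intro s t hst
    by_cases ht : t = 0
    · subst ht
      have hs : s ≠ 0 := by
        rintro rfl
        exact hst rfl
      have k1 := h1 1 0 (by simp) one_ne_zero
      have k2 := hc (s ^ (n * M + D)) (s ^ q) _ _ (pow_ne_zero _ hs) (pow_ne_zero _ hs) k1
      rw [← hinf, ← vform_smul h_FRM, ← vform_smul h_FRM] at k2
      simpa using k2
    · have k1 := hc (t ^ (n * M + D)) (t ^ q) _ _ (pow_ne_zero _ ht) (pow_ne_zero _ ht)
        (main (s / t))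
      rw [← hval, ← vform_smul h_FRM, ← vform_smul h_FRM, mul_one, mul_div_cancel₀ _ ht] at k1
      exact k1
  · rw [hval]
    have k1 := q2 0 (by rw [norm_zero]; linarith)
    rw [zero_pow hn1, add_zero, one_pow, one_smul, norm_one, mul_one] at k1
    exact k1.trans hε₂3

end Pool.Agent.ARC
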