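import Pool.Agent.ARC.Targets

set_option autoImplicit false

/-!
# ARC: target ISB

Basic facts on `Is`.
-/

noncomputable section

namespace Pool.Agent.ARC

theorem ISB_.cross {a : ℕ} {v w : Vec a} (hv : v ≠ 0) (hw : w ≠ 0)
    (h : ∀ i j, v i * w j = v j * w i) : ∃ c : ℂ, c ≠ 0 ∧ w = c • v := by
  obtain ⟨i, hi⟩ : ∃ i, v i ≠ 0 := by
    by_contra hc
    push Not at hc
    exact hv (funext hc)
  have hwi : w i ≠ 0 := by
    intro h0
    apply hw
    funext j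
    have h1 := h i j
    rw [h0, mul_zero] at h1
    exact (mul_eq_zero.mp h1).resolve_left hi
  refine ⟨w i / v i, div_ne_zero hwi hi, ?_⟩
  funext j
  have h1 := h i j
  simp only [Pi.smul_apply, smul_eq_mul]
  field_simp
  linear_combination h1

/-- Target ISB. -/
theorem p_ISB : T_ISB := by
  intro a
  refine ⟨?_, ?_, ?_, ?_, ?_, ?_⟩
  · intro p
    exact ⟨p.rep, p.rep_nonzero, p.mk_rep⟩
  · intro v hv
    exact ⟨Projectivization.mk ℂ v hv, hv, rfl⟩
  · intro v p q hp hq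
    exact is_unique hp hq
  · rintro v p c hc ⟨hv, rfl⟩
    refine ⟨smul_ne_zero hc hv, ?_⟩
    rw [Projectivization.mk_eq_mk_iff']
    exact ⟨c, rfl⟩
  · rintro v w p ⟨hv, rfl⟩ ⟨hw, hvw⟩
    rw [Projectivization.mk_eq_mk_iff'] at hvw
    obtain ⟨c, hc⟩ := hvw
    refine ⟨c, ?_, hc.symm⟩
    rintro rfl
    rw [zero_smul] at hc
    exact hw hc.symm
  · rintro v w p ⟨hv, rfl⟩ hw h
    obtain ⟨c, -, hcw⟩ := ISB_.cross hv hw h
    refine ⟨hw, ?_⟩
    rw [Projectivization.mk_eq_mk_iff']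
    exact ⟨c, hcw.symm⟩

end Pool.Agent.ARC
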