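import Pool.Agent.ARC.Targets

set_option autoImplicit false

noncomputable section

open Filter Topology

namespace Pool.Agent.ARC

theorem p_JCU (h_CUR : T_CUR) (h_NRM : T_NRM) (h_SYM : T_SYM) : T_JCU := by
  intro a b c d X C f U u v hf hU hC hCX hu hv
  have huU : f u ∈ U := hU ⟨u, hCX hu, rfl⟩
  by_cases he : f u = f v
  · refine ⟨0, 0, ?_⟩
    rw [← he]
    exact (h_SYM c d U).2.1 _ huU
  obtain ⟨p, q, A, B, hA, hB, rfl, -⟩ := hC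
  have hpt : ∀ s t : ℂ, (s, t) ≠ (0, 0) → ∃ x ∈ curve p q A B,
      Is (vform p A s t) x.1 ∧ Is (vform q B s t) x.2 := by
    intro s t hst
    exact ⟨(Projectivization.mk ℂ _ (hA s t hst), Projectivization.mk ℂ _ (hB s t hst)),
      ⟨s, t, hst, ⟨hA s t hst, rfl⟩, ⟨hB s t hst, rfl⟩⟩, ⟨hA s t hst, rfl⟩, ⟨hB s t hst, rfl⟩⟩
  obtain ⟨p', q', A', B', -, -, h⟩ := h_CUR a b c d p q X f A B hf (fun s t hst => by
    obtain ⟨x, hx, h1, h2⟩ := hpt s t hst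
    exact ⟨x, hCX hx, h1, h2⟩)
  obtain ⟨s₁, t₁, hst₁, h1, h2⟩ := hu
  obtain ⟨s₂, t₂, hst₂, h1', h2'⟩ := hv
  obtain ⟨e1, e2⟩ := h s₁ t₁ u hst₁ h1 h2
  obtain ⟨e1', e2'⟩ := h s₂ t₂ v hst₂ h1' h2'
  refine ⟨p', q', h_NRM c d p' q' U A' B' (f u) (f v) s₁ t₁ s₂ t₂ ?_ hst₁ hst₂ e1 e2 e1' e2' he⟩
  intro s t hst
  obtain ⟨x, hx, h3, h4⟩ := hpt s t hst
  obtain ⟨h5, h6⟩ := h s t x hst h3 h4
  exact ⟨f x, hU ⟨x, hCX hx, rfl⟩, h5, h6⟩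

end Pool.Agent.ARC
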