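import Pool.Agent.ARC.Targets

set_option autoImplicit false

/-!
# ARC: JRC, joined distinct points lie on a rational curve
-/

noncomputable section

namespace Pool.Agent.ARC

theorem p_JRC : T_JRC := by
  rintro a b U x y ⟨p, q, A, B, hU, hx1, hx2, hy1, hy2⟩ hxy
  have hc : ∀ s t : ℂ, (s, t) ≠ (0, 0) → ∃ z ∈ U, Is (vform p A s t) z.1 ∧
      Is (vform q B s t) z.2 := fun s t h => hU s t h
  have h1 : ((0 : ℂ), (1 : ℂ)) ≠ (0, 0) := by simp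
  have h2 : ((1 : ℂ), (0 : ℂ)) ≠ (0, 0) := by simp
  have hxC : x ∈ curve p q A B := ⟨0, 1, h1, hx1, hx2⟩
  have hyC : y ∈ curve p q A B := ⟨1, 0, h2, hy1, hy2⟩
  refine ⟨curve p q A B, ⟨p, q, A, B, ?_, ?_, rfl, x, hxC, y, hyC, hxy⟩, ?_, hxC, hyC⟩
  · intro s t h
    obtain ⟨z, -, ⟨h3, -⟩, -⟩ := hc s t h
    exact h3
  · intro s t h
    obtain ⟨z, -, -, ⟨h3, -⟩⟩ := hc s t h
    exact h3
  · rintro w ⟨s, t, h, hw1, hw2⟩
    obtain ⟨z, hz, hz1, hz2⟩ := hc s t h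
    have : w = z := Prod.ext (is_unique hw1 hz1) (is_unique hw2 hz2)
    rw [this]
    exact hz

end Pool.Agent.ARC
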