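import Pool.Agent.ARC.Targets

set_option autoImplicit false

/-!
# ARC: target JTR, transitivity of joined points
-/

noncomputable section

namespace Pool.Agent.ARC

namespace JTR_

theorem form_smul (p : ℕ) (c : ℂ) (f : ℕ → ℂ) (s t : ℂ) :
    form p (fun k => c * f k) s t = c * form p f s t := by
  unfold form
  rw [Finset.mul_sum]
  refine Finset.sum_congr rfl fun i _ => ?_
  ring

theorem vform_smul {a : ℕ} (p : ℕ) (c : ℂ) (A : Fin (a + 1) → ℕ → ℂ) (s t : ℂ) :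
    vform p (fun i k => c * A i k) s t = c • vform p A s t := by
  funext i
  exact form_smul p c (A i) s t

theorem glue_zero (d : ℕ) (r : ℂ) (f g : ℕ → ℂ) : glue d r f g 0 = f 0 := by
  unfold glue
  rw [if_pos (Nat.zero_le d)]

theorem glue_last (d e : ℕ) (r : ℂ) (f g : ℕ → ℂ) (h : f d = g 0) :
    glue d r f g (d + e) = r ^ e * g e := by
  unfold glue
  rcases Nat.eq_zero_or_pos e with rfl | he
  · rw [add_zero, if_pos le_rfl, h, pow_zero, one_mul]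
  · rw [if_neg (by omega), Nat.add_sub_cancel_left, mul_comm]

theorem first {a : ℕ} (h₃ : T_FRM) (d e : ℕ) (r : ℂ) (A A' : Fin (a + 1) → ℕ → ℂ) :
    vform (d + e) (fun i => glue d r (A i) (A' i)) 0 1 = vform d A 0 1 := by
  funext i
  show form (d + e) (glue d r (A i) (A' i)) 0 1 = form d (A i) 0 1
  rw [(h₃.2.2.1 _ _).1, (h₃.2.2.1 _ _).1, glue_zero]

theorem last {a : ℕ} (h₃ : T_FRM) (d e : ℕ) (r : ℂ) (A A' : Fin (a + 1) → ℕ → ℂ)
    (h : ∀ i, A i d = A' i 0) :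
    vform (d + e) (fun i => glue d r (A i) (A' i)) 1 0 = r ^ e • vform e A' 1 0 := by
  funext i
  show form (d + e) (glue d r (A i) (A' i)) 1 0 = r ^ e * form e (A' i) 1 0
  rw [(h₃.2.2.1 _ _).2, (h₃.2.2.1 _ _).2, glue_last d e r _ _ (h i)]

end JTR_

/-- Target JTR. -/
theorem p_JTR (h₁ : T_ISB) (h₂ : T_CNC) (h₃ : T_FRM) (h₄ : T_TUB) : T_JTR := by
  rintro a b p q p' q' U x y z hU ⟨A, B, h, hx1, hx2, hy1, hy2⟩
    ⟨A', B', h', hy1', hy2', hz1, hz2⟩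
  obtain ⟨c, hc, e⟩ := (h₁ a).2.2.2.2.1 _ _ _ hy1' hy1
  obtain ⟨c', hc', e'⟩ := (h₁ b).2.2.2.2.1 _ _ _ hy2' hy2
  have m1 : ∀ i, A i p = c * A' i 0 := by
    intro i
    have h5 := congrFun e i
    rw [Pi.smul_apply, smul_eq_mul] at h5
    have h6 : form p (A i) 1 0 = c * form p' (A' i) 0 1 := h5
    rwa [(h₃.2.2.1 _ _).2, (h₃.2.2.1 _ _).1] at h6
  have m2 : ∀ i, B i q = c' * B' i 0 := by
    intro i
    have h5 := congrFun e' i
    rw [Pi.smul_apply, smul_eq_mul] at h5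
    have h6 : form q (B i) 1 0 = c' * form q' (B' i) 0 1 := h5
    rwa [(h₃.2.2.1 _ _).2, (h₃.2.2.1 _ _).1] at h6
  obtain ⟨r, hr, hall⟩ := h₄ a b p p' q q' (cone U) A (fun i k => c * A' i k) B
    (fun i k => c' * B' i k) hU (h₂ a b U).1 m1 m2 h (fun s t hst => by
      rw [JTR_.vform_smul, JTR_.vform_smul]
      exact (h₂ a b U).1 c c' _ _ hc hc' (h' s t hst))
  refine ⟨fun i => glue p r (A i) (fun k => c * A' i k),
    fun i => glue q r (B i) (fun k => c' * B' i k), hall, ?_, ?_, ?_, ?_⟩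
  · rw [JTR_.first h₃]
    exact hx1
  · rw [JTR_.first h₃]
    exact hx2
  · rw [JTR_.last h₃ p p' r A (fun i k => c * A' i k) m1, JTR_.vform_smul]
    exact (h₁ a).2.2.2.1 _ _ _ (pow_ne_zero _ hr) ((h₁ a).2.2.2.1 _ _ _ hc hz1)
  · rw [JTR_.last h₃ q q' r B (fun i k => c' * B' i k) m2, JTR_.vform_smul]
    exact (h₁ b).2.2.2.1 _ _ _ (pow_ne_zero _ hr) ((h₁ b).2.2.2.1 _ _ _ hc' hz2)

end Pool.Agent.ARC
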