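import Pool.Agent.ARC.Targets2

set_option autoImplicit false

open Filter Topology

namespace Pool.Agent.ARC

/-- The trace of the product of two projection matrices, in terms of representatives. -/
theorem LFT_trace {a b : ℕ} (h_PRJ : T_PRJ) (p p' : Projectivization ℂ (Vec a)) (u v : Vec a)
    (hu : Is u p) (hv : Is v p') :
    ∑ i, ∑ k, prj p i k * prj p' k i =
      (∑ i, u i * (starRingEnd ℂ) (v i)) * (∑ k, (starRingEnd ℂ) (u k) * v k) /
        ((∑ l, u l * (starRingEnd ℂ) (u l)) * ∑ l, v l * (starRingEnd ℂ) (v l)) := by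
  have h1 := (h_PRJ a b).1 p u hu
  have h2 := (h_PRJ a b).1 p' v hv
  rw [Finset.sum_mul_sum, Finset.sum_div]
  refine Finset.sum_congr rfl fun i _ => ?_
  rw [Finset.sum_div]
  refine Finset.sum_congr rfl fun k _ => ?_
  rw [h1, h2, div_mul_div_comm]
  congr 1
  ring

theorem LFT_norm {a : ℕ} (v : Vec a) (hv : v ≠ 0) :
    (∑ l, v l * (starRingEnd ℂ) (v l)) ≠ 0 := by
  have h : (∑ l, v l * (starRingEnd ℂ) (v l)) = ((∑ l, ‖v l‖ ^ 2 : ℝ) : ℂ) := by
    push_cast
    refine Finset.sum_congr rfl fun l _ => ?_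
    rw [Complex.mul_conj, Complex.normSq_eq_norm_sq]
    push_cast
    rfl
  rw [h]
  intro h0
  have h1 : (∑ l, ‖v l‖ ^ 2 : ℝ) = 0 := by exact_mod_cast h0
  rw [Finset.sum_eq_zero_iff_of_nonneg (fun _ _ => by positivity)] at h1
  apply hv
  funext l
  have h2 := h1 l (Finset.mem_univ l)
  have h3 : ‖v l‖ = 0 := by
    rcases pow_eq_zero_iff (two_ne_zero) |>.1 h2 with h
    exact h
  simpa using h3

theorem p_LFT (h_PRJ : T_PRJ) (h_ISB : T_ISB) : T_LFT := by
  intro a b τ R hτ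
  obtain ⟨hrep, -, -, hsmul, -, -⟩ := h_ISB a
  have hcont : Continuous fun z : ℂ => prj (τ z).1 := (h_PRJ a b).2.2.1.comp hτ
  have hc : ∀ i k, Continuous fun z : ℂ => prj (τ z).1 i k := fun i k =>
    (continuous_apply k).comp ((continuous_apply i).comp hcont)
  -- the trace function
  have hT : Continuous fun z : ℂ × ℂ => ∑ i, ∑ k, prj (τ z.1).1 i k * prj (τ z.2).1 k i :=
    continuous_finsetSum _ fun i _ => continuous_finsetSum _ fun k _ =>
      ((hc i k).comp continuous_fst).mul ((hc k i).comp continuous_snd)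
  obtain ⟨F, hF⟩ : ∃ F : ℂ × ℂ → ℂ, F = fun z : ℂ × ℂ =>
    ∑ i, ∑ k, prj (τ z.1).1 i k * prj (τ z.2).1 k i := ⟨_, rfl⟩
  have hF' : ∀ z z' : ℂ, F (z, z') = ∑ i, ∑ k, prj (τ z).1 i k * prj (τ z').1 k i := by
    intro z z'
    rw [hF]
  rw [← hF] at hT
  have hW : IsOpen {z : ℂ × ℂ | F z ≠ 0} := isOpen_ne_fun hT continuous_const
  have hK : IsCompact ((fun z : ℂ => (z, z)) '' Metric.closedBall (0 : ℂ) R) :=
    (isCompact_closedBall (0 : ℂ) R).image (by fun_prop)
  obtain ⟨δ, hδ, hth⟩ := hK.exists_thickening_subset_open hW (by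
    rintro _ ⟨z, -, rfl⟩
    obtain ⟨v, hv⟩ := hrep (τ z).1
    have hv0 : v ≠ 0 := hv.1
    have hN := LFT_norm v hv0
    show F (z, z) ≠ 0
    rw [hF', LFT_trace (b := b) h_PRJ _ _ v v hv hv]
    have h1 : (∑ k, (starRingEnd ℂ) (v k) * v k) = ∑ l, v l * (starRingEnd ℂ) (v l) :=
      Finset.sum_congr rfl fun l _ => mul_comm _ _
    rw [h1]
    exact div_ne_zero (mul_ne_zero hN hN) (mul_ne_zero hN hN))
  have hclose : ∀ z z' : ℂ, ‖z‖ ≤ R → ‖z' - z‖ < δ →
      ∑ i, ∑ k, prj (τ z).1 i k * prj (τ z').1 k i ≠ 0 := by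
    intro z z' hz hzz
    have : (z, z') ∈ Metric.thickening δ ((fun z : ℂ => (z, z)) '' Metric.closedBall (0 : ℂ) R) := by
      rw [Metric.mem_thickening_iff]
      refine ⟨(z, z), ⟨z, by simpa using hz, rfl⟩, ?_⟩
      rw [Prod.dist_eq, dist_self, dist_eq_norm]
      simpa [hδ] using hzz
    have h1 : F (z, z') ≠ 0 := hth this
    rwa [hF'] at h1
  obtain ⟨n, hn⟩ := exists_nat_gt (R / δ)
  obtain ⟨v₀, hv₀⟩ := hrep (τ 0).1
  set K : ℕ := n + 1 with hKdef
  have hKpos : (0 : ℝ) < K := by rw [hKdef]; positivity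
  have hRK : R / K < δ := by
    rw [div_lt_iff₀ hKpos]
    rw [div_lt_iff₀ hδ] at hn
    have : (n : ℝ) < K := by rw [hKdef]; push_cast; linarith
    nlinarith
  -- the sequence
  let f : ℕ → ℂ → Vec a := fun k => Nat.rec (fun _ => v₀)
    (fun k g z i => ∑ l, prj (τ (((k + 1 : ℕ) : ℂ) / (K : ℂ) * z)).1 i l * g z l) k
  have hf0 : f 0 = fun _ => v₀ := rfl
  have hfs : ∀ k, f (k + 1) = fun z i =>
      ∑ l, prj (τ (((k + 1 : ℕ) : ℂ) / (K : ℂ) * z)).1 i l * f k z l := fun k => rfl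
  have hfc : ∀ k, Continuous (f k) := by
    intro k
    induction k with
    | zero => rw [hf0]; exact continuous_const
    | succ k ih =>
      rw [hfs]
      refine continuous_pi fun i => continuous_finsetSum _ fun l _ => ?_
      exact ((hc i l).comp (continuous_const.mul continuous_id)).mul
        ((continuous_apply l).comp ih)
  have hfr : ∀ k, k ≤ K → ∀ z : ℂ, ‖z‖ ≤ R → Is (f k z) (τ ((k : ℂ) / (K : ℂ) * z)).1 := by
    intro k
    induction k with
    | zero =>
      intro _ z _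
      simpa [hf0] using hv₀
    | succ k ih =>
      intro hk z hz
      have h1 := ih (by omega) z hz
      obtain ⟨v, hv⟩ := hrep (τ (((k + 1 : ℕ) : ℂ) / (K : ℂ) * z)).1
      have hz1 : ‖(k : ℂ) / (K : ℂ) * z‖ ≤ R := by
        rw [norm_mul, norm_div, Complex.norm_natCast, Complex.norm_natCast]
        have h2 : (k : ℝ) / K ≤ 1 := by
          rw [div_le_one hKpos]
          exact_mod_cast (by omega : k ≤ K)
        calc (k : ℝ) / K * ‖z‖ ≤ 1 * ‖z‖ := by gcongr
          _ ≤ R := by rw [one_mul]; exact hz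
      have hz2 : ‖((k + 1 : ℕ) : ℂ) / (K : ℂ) * z - (k : ℂ) / (K : ℂ) * z‖ < δ := by
        have h2 : ((k + 1 : ℕ) : ℂ) / (K : ℂ) * z - (k : ℂ) / (K : ℂ) * z = z / (K : ℂ) := by
          push_cast
          ring
        rw [h2, norm_div, Complex.norm_natCast]
        calc ‖z‖ / K ≤ R / K := by gcongr
          _ < δ := hRK
      have h3 := hclose _ _ hz1 hz2
      rw [LFT_trace (b := b) h_PRJ _ _ _ v h1 hv] at h3
      have h4 : (∑ i, f k z i * (starRingEnd ℂ) (v i)) ≠ 0 := by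
        intro h0
        rw [h0, zero_mul, zero_div] at h3
        exact h3 rfl
      have hN := LFT_norm v hv.1
      have h5 : f (k + 1) z = ((∑ i, f k z i * (starRingEnd ℂ) (v i)) /
          ∑ l, v l * (starRingEnd ℂ) (v l)) • v := by
        rw [hfs]
        funext i
        simp only [Pi.smul_apply, smul_eq_mul]
        have h6 : ∀ l, prj (τ (((k + 1 : ℕ) : ℂ) / (K : ℂ) * z)).1 i l =
            v i * (starRingEnd ℂ) (v l) / ∑ l, v l * (starRingEnd ℂ) (v l) :=
          fun l => (h_PRJ a b).1 _ v hv i l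
        simp_rw [h6]
        rw [Finset.sum_div, Finset.sum_mul]
        refine Finset.sum_congr rfl fun l _ => ?_
        ring
      rw [h5]
      exact hsmul v _ _ (div_ne_zero h4 hN) hv
  refine ⟨f K, hfc K, fun z hz => ?_⟩
  have h := hfr K le_rfl z hz
  have hK0 : (K : ℂ) ≠ 0 := by
    rw [hKdef]
    exact_mod_cast Nat.succ_ne_zero n
  rwa [div_self hK0, one_mul] at h

end Pool.Agent.ARC
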