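import Pool.Agent.ARC.Targets5
import Pool.Agent.ARC.P_LFT

set_option autoImplicit false

/-!
# ARC: lift of a continuous map on an annulus

A lift on the circle of radius `R₀` is transported along the radii with the projections.
-/

noncomputable section

open Filter Topology

namespace Pool.Agent.ARC

namespace LFA_

/-- The lift on a circle. -/
theorem circle {a b : ℕ} (h_LFT : T_LFT) (h_ISB : T_ISB) (g : ℂ → PP a b) (R₀ : ℝ)
    (hR₀ : 0 < R₀) (hg : ContinuousOn g {w | w ≠ 0}) :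
    ∃ s : ℂ → Vec a, ContinuousOn s {w | w ≠ 0} ∧
      ∀ w : ℂ, w ≠ 0 → Is (s w) (g (((R₀ / ‖w‖ : ℝ) : ℂ) * w)).1 := by
  obtain ⟨-, -, -, hsmul, hratio, -⟩ := h_ISB a
  have hR0c : (R₀ : ℂ) ≠ 0 := by exact_mod_cast hR₀.ne'
  have hpi := Real.pi_pos
  have hτ : Continuous fun z : ℂ => g (R₀ * Complex.exp ((z.re : ℂ) * Complex.I)) := by
    refine hg.comp_continuous (by fun_prop) fun z => ?_
    exact mul_ne_zero hR0c (Complex.exp_ne_zero _)
  obtain ⟨f, hf, hfr⟩ := h_LFT a b _ Real.pi hτ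
  have hfr' : ∀ θ : ℝ, |θ| ≤ Real.pi →
      Is (f (θ : ℂ)) (g (R₀ * Complex.exp ((θ : ℂ) * Complex.I))).1 := by
    intro θ hθ
    have h := hfr (θ : ℂ) (by rwa [Complex.norm_real, Real.norm_eq_abs])
    simpa using h
  have h1 : Is (f ((-Real.pi : ℝ) : ℂ)) (g (-R₀)).1 := by
    have h := hfr' (-Real.pi) (by rw [abs_neg, abs_of_pos hpi])
    have h2 : Complex.exp (((-Real.pi : ℝ) : ℂ) * Complex.I) = -1 := by
      push_cast
      rw [neg_mul, Complex.exp_neg, Complex.exp_pi_mul_I]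
      norm_num
    rw [h2, mul_neg, mul_one] at h
    exact h
  have h2 : Is (f ((Real.pi : ℝ) : ℂ)) (g (-R₀)).1 := by
    have h := hfr' Real.pi (by rw [abs_of_pos hpi])
    rw [Complex.exp_pi_mul_I, mul_neg, mul_one] at h
    exact h
  obtain ⟨c, hc, hfc⟩ := hratio _ _ _ h1 h2
  obtain ⟨F, hF⟩ : ∃ F : ℝ → Vec a, F = fun θ : ℝ =>
    Complex.exp (-(((θ + Real.pi) / (2 * Real.pi) : ℝ) : ℂ) * Complex.log c) • f (θ : ℂ) :=
    ⟨_, rfl⟩
  have hFc : Continuous F := by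
    rw [hF]
    have h3 : Continuous fun θ : ℝ => f (θ : ℂ) := hf.comp Complex.continuous_ofReal
    have h4 : Continuous fun θ : ℝ =>
        Complex.exp (-(((θ + Real.pi) / (2 * Real.pi) : ℝ) : ℂ) * Complex.log c) := by
      refine Complex.continuous_exp.comp ?_
      refine Continuous.mul ?_ continuous_const
      refine (Complex.continuous_ofReal.comp ?_).neg
      fun_prop
    exact h4.smul h3
  have hFr : ∀ θ : ℝ, |θ| ≤ Real.pi →
      Is (F θ) (g (R₀ * Complex.exp ((θ : ℂ) * Complex.I))).1 := by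
    intro θ hθ
    rw [hF]
    exact hsmul _ _ _ (Complex.exp_ne_zero _) (hfr' θ hθ)
  have hFe : F (-Real.pi) = F (-Real.pi + 2 * Real.pi) := by
    have h3 : -Real.pi + 2 * Real.pi = Real.pi := by ring
    rw [h3, hF]
    show Complex.exp (-(((-Real.pi + Real.pi) / (2 * Real.pi) : ℝ) : ℂ) * Complex.log c) •
        f ((-Real.pi : ℝ) : ℂ) =
      Complex.exp (-(((Real.pi + Real.pi) / (2 * Real.pi) : ℝ) : ℂ) * Complex.log c) •
        f ((Real.pi : ℝ) : ℂ)
    have h4 : (Real.pi + Real.pi) / (2 * Real.pi) = 1 := by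
      field_simp
      ring
    rw [h4, neg_add_cancel, zero_div, hfc, smul_smul]
    have h5 : Complex.exp (-((1 : ℝ) : ℂ) * Complex.log c) * c = 1 := by
      rw [Complex.ofReal_one, neg_one_mul, Complex.exp_neg, Complex.exp_log hc]
      exact inv_mul_cancel₀ hc
    rw [h5]
    simp
  have : Fact (0 < 2 * Real.pi) := ⟨by positivity⟩
  obtain ⟨G, hG⟩ : ∃ G : Real.Angle → Vec a,
    G = AddCircle.liftIco (2 * Real.pi) (-Real.pi) F := ⟨_, rfl⟩
  have hGc : Continuous G := by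
    rw [hG]
    exact AddCircle.liftIco_continuous hFe hFc.continuousOn
  have hGv : ∀ θ : ℝ, -Real.pi ≤ θ → θ < Real.pi → G (θ : Real.Angle) = F θ := by
    intro θ h3 h4
    rw [hG]
    exact AddCircle.liftIco_coe_apply ⟨h3, by linarith⟩
  refine ⟨fun w => G ((Complex.arg w : ℝ) : Real.Angle), ?_, ?_⟩
  · intro w hw
    exact (hGc.continuousAt.comp (Complex.continuousAt_arg_coe_angle hw)).continuousWithinAt
  · intro w hw
    have hw0 : (‖w‖ : ℂ) ≠ 0 := by
      exact_mod_cast (norm_ne_zero_iff.2 hw)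
    have h3 : ((R₀ / ‖w‖ : ℝ) : ℂ) * w =
        R₀ * Complex.exp ((Complex.arg w : ℂ) * Complex.I) := by
      have hwe := Complex.norm_mul_exp_arg_mul_I w
      calc ((R₀ / ‖w‖ : ℝ) : ℂ) * w
          = ((R₀ / ‖w‖ : ℝ) : ℂ) * (‖w‖ * Complex.exp ((Complex.arg w : ℂ) * Complex.I)) := by
            rw [hwe]
        _ = R₀ * Complex.exp ((Complex.arg w : ℂ) * Complex.I) := by
            push_cast
            field_simp
    rw [h3]
    rcases (Complex.arg_le_pi w).lt_or_eq with h4 | h4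
    · show Is (G ((Complex.arg w : ℝ) : Real.Angle)) _
      rw [hGv _ (Complex.neg_pi_lt_arg w).le h4]
      refine hFr _ (abs_le.2 ⟨(Complex.neg_pi_lt_arg w).le, h4.le⟩)
    · show Is (G ((Complex.arg w : ℝ) : Real.Angle)) _
      have h5 : ((Complex.arg w : ℝ) : Real.Angle) = ((-Real.pi : ℝ) : Real.Angle) := by
        rw [h4, Real.Angle.coe_neg, Real.Angle.neg_coe_pi]
      rw [h5, hGv _ le_rfl (by linarith), h4, Complex.exp_pi_mul_I]
      have h6 := hFr (-Real.pi) (by rw [abs_neg, abs_of_pos hpi])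
      have h7 : Complex.exp (((-Real.pi : ℝ) : ℂ) * Complex.I) = -1 := by
        push_cast
        rw [neg_mul, Complex.exp_neg, Complex.exp_pi_mul_I]
        norm_num
      rw [h7] at h6
      exact h6

end LFA_

theorem p_LFA (h_LFT : T_LFT) (h_ISB : T_ISB) (h_PRJ : T_PRJ) (h_EXT : T_EXT) : T_LFA := by
  intro a b g R₀ R hR₀ hR hg
  obtain ⟨hrep, -, -, hsmul, -, -⟩ := h_ISB a
  obtain ⟨s, hs, hsr⟩ := LFA_.circle h_LFT h_ISB g R₀ hR₀ hg
  have hcont : ContinuousOn (fun w => prj (g w).1) {w : ℂ | w ≠ 0} :=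
    (h_PRJ a b).2.2.1.comp_continuousOn hg
  have hc : ∀ i k, ContinuousOn (fun w : ℂ => prj (g w).1 i k) {w : ℂ | w ≠ 0} := fun i k =>
    (continuous_apply k).comp_continuousOn ((continuous_apply i).comp_continuousOn hcont)
  obtain ⟨F, hF⟩ : ∃ F : ℂ × ℂ → ℂ, F = fun z : ℂ × ℂ =>
    ∑ i, ∑ k, prj (g z.1).1 i k * prj (g z.2).1 k i := ⟨_, rfl⟩
  have hFc : ContinuousOn F ({w : ℂ | w ≠ 0} ×ˢ {w : ℂ | w ≠ 0}) := by
    rw [hF]
    refine continuousOn_finsetSum _ fun i _ => continuousOn_finsetSum _ fun k _ => ?_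
    exact ((hc i k).comp continuousOn_fst fun z hz => hz.1).mul
      ((hc k i).comp continuousOn_snd fun z hz => hz.2)
  have hop : IsOpen ({w : ℂ | w ≠ 0} ×ˢ {w : ℂ | w ≠ 0}) := isOpen_ne.prod isOpen_ne
  have hW : IsOpen (({w : ℂ | w ≠ 0} ×ˢ {w : ℂ | w ≠ 0}) ∩ F ⁻¹' {0}ᶜ) :=
    hFc.isOpen_inter_preimage hop isOpen_compl_singleton
  have hK : IsCompact ((fun z : ℂ => (z, z)) '' (Metric.closedBall (0 : ℂ) R ∩
      {w : ℂ | R₀ ≤ ‖w‖})) :=
    ((isCompact_closedBall (0 : ℂ) R).inter_right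
      (isClosed_le continuous_const continuous_norm)).image (by fun_prop)
  obtain ⟨δ, hδ, hth⟩ := hK.exists_thickening_subset_open hW (by
    rintro _ ⟨z, ⟨-, hz⟩, rfl⟩
    have hz0 : z ≠ 0 := norm_pos_iff.1 (lt_of_lt_of_le hR₀ hz)
    refine ⟨⟨hz0, hz0⟩, ?_⟩
    obtain ⟨v, hv⟩ := hrep (g z).1
    have hN := LFT_norm v hv.1
    show F (z, z) ≠ 0
    rw [hF]
    show (∑ i, ∑ k, prj (g z).1 i k * prj (g z).1 k i) ≠ 0
    rw [LFT_trace (b := b) h_PRJ _ _ v v hv hv]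
    have h1 : (∑ k, (starRingEnd ℂ) (v k) * v k) = ∑ l, v l * (starRingEnd ℂ) (v l) :=
      Finset.sum_congr rfl fun l _ => mul_comm _ _
    rw [h1]
    exact div_ne_zero (mul_ne_zero hN hN) (mul_ne_zero hN hN))
  have hclose : ∀ z z' : ℂ, R₀ ≤ ‖z‖ → ‖z‖ ≤ R → ‖z' - z‖ < δ →
      ∑ i, ∑ k, prj (g z).1 i k * prj (g z').1 k i ≠ 0 := by
    intro z z' hz hz1 hzz
    have h0 : (z, z') ∈ Metric.thickening δ ((fun z : ℂ => (z, z)) ''
        (Metric.closedBall (0 : ℂ) R ∩ {w : ℂ | R₀ ≤ ‖w‖})) := by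
      rw [Metric.mem_thickening_iff]
      refine ⟨(z, z), ⟨z, ⟨by simpa using hz1, hz⟩, rfl⟩, ?_⟩
      rw [Prod.dist_eq, dist_self, dist_eq_norm]
      simpa [hδ] using hzz
    have h1 : F (z, z') ≠ 0 := (hth h0).2
    rw [hF] at h1
    exact h1
  obtain ⟨n, hn⟩ := exists_nat_gt ((R - R₀) / δ)
  set K : ℕ := n + 1 with hKdef
  have hKpos : (0 : ℝ) < K := by rw [hKdef]; positivity
  have hRK : (R - R₀) / K < δ := by
    rw [div_lt_iff₀ hKpos]
    rw [div_lt_iff₀ hδ] at hn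
    have : (n : ℝ) < K := by rw [hKdef]; push_cast; linarith
    nlinarith
  -- the radii
  obtain ⟨cl, hcl⟩ : ∃ cl : ℂ → ℝ, cl = fun w : ℂ => max R₀ (min ‖w‖ R) := ⟨_, rfl⟩
  have hcl0 : ∀ w, R₀ ≤ cl w := fun w => by rw [hcl]; exact le_max_left _ _
  have hcl1 : ∀ w, cl w ≤ R := fun w => by
    rw [hcl]
    exact max_le hR.le (min_le_right _ _)
  have hclc : Continuous cl := by
    rw [hcl]
    exact continuous_const.max (continuous_norm.min continuous_const)
  obtain ⟨p, hp⟩ : ∃ p : ℕ → ℂ → ℂ, p = fun (k : ℕ) (w : ℂ) =>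
    (((R₀ + (cl w - R₀) * ((k : ℝ) / K)) / ‖w‖ : ℝ) : ℂ) * w := ⟨_, rfl⟩
  have hpn : ∀ k (w : ℂ), w ≠ 0 → ‖p k w‖ = R₀ + (cl w - R₀) * ((k : ℝ) / K) := by
    intro k w hw
    have hw0 : 0 < ‖w‖ := norm_pos_iff.2 hw
    have h1 : 0 ≤ R₀ + (cl w - R₀) * ((k : ℝ) / K) := by
      have h2 := mul_nonneg (sub_nonneg.2 (hcl0 w)) (by positivity : (0 : ℝ) ≤ (k : ℝ) / K)
      linarith
    rw [hp]
    show ‖(((R₀ + (cl w - R₀) * ((k : ℝ) / K)) / ‖w‖ : ℝ) : ℂ) * w‖ = _
    rw [norm_mul, Complex.norm_real, Real.norm_eq_abs, abs_of_nonneg (div_nonneg h1 hw0.le)]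
    field_simp
  have hplo : ∀ k (w : ℂ), w ≠ 0 → R₀ ≤ ‖p k w‖ := by
    intro k w hw
    rw [hpn k w hw]
    have h2 := mul_nonneg (sub_nonneg.2 (hcl0 w)) (by positivity : (0 : ℝ) ≤ (k : ℝ) / K)
    linarith
  have hp0 : ∀ k (w : ℂ), w ≠ 0 → p k w ≠ 0 := fun k w hw =>
    norm_pos_iff.1 (lt_of_lt_of_le hR₀ (hplo k w hw))
  have hpc : ∀ k, ContinuousOn (p k) {w : ℂ | w ≠ 0} := by
    intro k
    rw [hp]
    refine ContinuousOn.mul ?_ continuousOn_id
    refine Complex.continuous_ofReal.comp_continuousOn ?_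
    refine ContinuousOn.div ?_ continuous_norm.continuousOn fun w hw => norm_ne_zero_iff.2 hw
    exact (continuous_const.add ((hclc.sub continuous_const).mul continuous_const)).continuousOn
  have hcp : ∀ k i l, ContinuousOn (fun w : ℂ => prj (g (p k w)).1 i l) {w : ℂ | w ≠ 0} :=
    fun k i l => (hc i l).comp (hpc k) fun w hw => hp0 k w hw
  -- the sequence
  let f : ℕ → ℂ → Vec a := fun k => Nat.rec s
    (fun k h w i => ∑ l, prj (g (p (k + 1) w)).1 i l * h w l) k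
  have hf0 : f 0 = s := rfl
  have hfs : ∀ k, f (k + 1) = fun w i => ∑ l, prj (g (p (k + 1) w)).1 i l * f k w l :=
    fun k => rfl
  have hfc : ∀ k, ContinuousOn (f k) {w : ℂ | w ≠ 0} := by
    intro k
    induction k with
    | zero => rw [hf0]; exact hs
    | succ k ih =>
      rw [hfs]
      refine continuousOn_pi.2 fun i => continuousOn_finsetSum _ fun l _ => ?_
      exact (hcp (k + 1) i l).mul ((continuous_apply l).comp_continuousOn ih)
  have hfr : ∀ k, k ≤ K → ∀ w : ℂ, w ≠ 0 → Is (f k w) (g (p k w)).1 := by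
    intro k
    induction k with
    | zero =>
      intro _ w hw
      have h1 : p 0 w = ((R₀ / ‖w‖ : ℝ) : ℂ) * w := by
        rw [hp]
        show (((R₀ + (cl w - R₀) * (((0 : ℕ) : ℝ) / K)) / ‖w‖ : ℝ) : ℂ) * w = _
        rw [Nat.cast_zero, zero_div, mul_zero, add_zero]
      rw [hf0, h1]
      exact hsr w hw
    | succ k ih =>
      intro hk w hw
      have hw0 : 0 < ‖w‖ := norm_pos_iff.2 hw
      have h1 := ih (by omega) w hw
      obtain ⟨v, hv⟩ := hrep (g (p (k + 1) w)).1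
      have hz1 : ‖p k w‖ ≤ R := by
        rw [hpn k w hw]
        have h2 : (k : ℝ) / K ≤ 1 := by
          rw [div_le_one hKpos]
          exact_mod_cast (by omega : k ≤ K)
        have h3 := mul_le_mul_of_nonneg_left h2 (sub_nonneg.2 (hcl0 w))
        have h4 := hcl1 w
        linarith
      have hz2 : ‖p (k + 1) w - p k w‖ < δ := by
        have h2 : p (k + 1) w - p k w = (((cl w - R₀) / K / ‖w‖ : ℝ) : ℂ) * w := by
          rw [hp]
          show (((R₀ + (cl w - R₀) * (((k + 1 : ℕ) : ℝ) / K)) / ‖w‖ : ℝ) : ℂ) * w -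
            (((R₀ + (cl w - R₀) * ((k : ℝ) / K)) / ‖w‖ : ℝ) : ℂ) * w = _
          rw [← sub_mul, ← Complex.ofReal_sub]
          congr 2
          push_cast
          ring
        rw [h2, norm_mul, Complex.norm_real, Real.norm_eq_abs,
          abs_of_nonneg (div_nonneg (div_nonneg (sub_nonneg.2 (hcl0 w)) hKpos.le) hw0.le),
          div_mul_cancel₀ _ hw0.ne']
        calc (cl w - R₀) / K ≤ (R - R₀) / K := by
              have := hcl1 w
              gcongr
          _ < δ := hRK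
      have h3 := hclose _ _ (hplo k w hw) hz1 hz2
      rw [LFT_trace (b := b) h_PRJ _ _ _ v h1 hv] at h3
      have h4 : (∑ i, f k w i * (starRingEnd ℂ) (v i)) ≠ 0 := by
        intro h0
        rw [h0, zero_mul, zero_div] at h3
        exact h3 rfl
      have hN := LFT_norm v hv.1
      have h5 : f (k + 1) w = ((∑ i, f k w i * (starRingEnd ℂ) (v i)) /
          ∑ l, v l * (starRingEnd ℂ) (v l)) • v := by
        rw [hfs]
        funext i
        simp only [Pi.smul_apply, smul_eq_mul]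
        have h6 : ∀ l, prj (g (p (k + 1) w)).1 i l =
            v i * (starRingEnd ℂ) (v l) / ∑ l, v l * (starRingEnd ℂ) (v l) :=
          fun l => (h_PRJ a b).1 _ v hv i l
        simp_rw [h6]
        rw [Finset.sum_div, Finset.sum_mul]
        refine Finset.sum_congr rfl fun l _ => ?_
        ring
      rw [h5]
      exact hsmul v _ _ (div_ne_zero h4 hN) hv
  obtain ⟨σ, hσ, hσe⟩ := h_EXT a (f K) R₀ hR₀ (hfc K)
  refine ⟨σ, hσ, fun w hw1 hw2 => ?_⟩
  have hw0 : 0 < ‖w‖ := lt_of_lt_of_le hR₀ hw1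
  have hw : w ≠ 0 := norm_pos_iff.1 hw0
  have h := hfr K le_rfl w hw
  have h1 : cl w = ‖w‖ := by
    rw [hcl]
    show max R₀ (min ‖w‖ R) = ‖w‖
    rw [min_eq_left hw2, max_eq_right hw1]
  have h2 : p K w = w := by
    rw [hp]
    show (((R₀ + (cl w - R₀) * ((K : ℝ) / K)) / ‖w‖ : ℝ) : ℂ) * w = w
    rw [h1, div_self hKpos.ne', mul_one, add_sub_cancel, div_self hw0.ne', Complex.ofReal_one,
      one_mul]
  rw [hσe w hw1]
  rwa [h2] at h

end Pool.Agent.ARC
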