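import Pool.Agent.ARC.Targets

set_option autoImplicit false

/-!
# ARC: p_LIN, linear substitution in a binary form
-/

namespace Pool.Agent.ARC

theorem p_LIN (h_MVP : T_MVP) (h_FRM : T_FRM) : T_LIN := by
  intro p c α β γ δ
  let Q : MvPolynomial (Fin 2) ℂ := ∑ k ∈ Finset.range (p + 1),
    MvPolynomial.C (c k) *
      (MvPolynomial.C α * MvPolynomial.X 0 + MvPolynomial.C β * MvPolynomial.X 1) ^ k *
      (MvPolynomial.C γ * MvPolynomial.X 0 + MvPolynomial.C δ * MvPolynomial.X 1) ^ (p - k)
  have hQ : ∀ s t : ℂ, MvPolynomial.eval ![s, t] Q =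
      form p c (α * s + β * t) (γ * s + δ * t) := by
    intro s t
    simp only [Q, form, map_sum, map_mul, map_pow, map_add, MvPolynomial.eval_C,
      MvPolynomial.eval_X, Matrix.cons_val_zero, Matrix.cons_val_one]
  obtain ⟨c', hc'⟩ := h_MVP p Q (by
    intro r s t
    rw [hQ, hQ, show α * (r * s) + β * (r * t) = r * (α * s + β * t) by ring,
      show γ * (r * s) + δ * (r * t) = r * (γ * s + δ * t) by ring]
    exact h_FRM.1 p c r _ _)
  exact ⟨c', fun s t => by rw [← hQ, hc']⟩

end Pool.Agent.ARC
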