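import Pool.Agent.ARC.Targets3

set_option autoImplicit false

/-!
# ARC: the target T_LIF
-/

noncomputable section

open Filter Topology

namespace Pool.Agent.ARC

namespace LIF_

/-- Lebesgue number form of the hypothesis. -/
def Leb {X E : Type} [TopologicalSpace X] [MetricSpace E] (q : X → E) (ε lam : ℝ) : Prop :=
  ∀ x : X, ∃ N : Set E, SimplyConnectedSpace {z : X // q z ∈ N} ∧
      (∀ z, dist (q z) (q x) < lam → q z ∈ N) ∧ ∀ z, q z ∈ N → dist (q z) (q x) < ε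

theorem leb {X E : Type} [TopologicalSpace X] [CompactSpace X] [MetricSpace E]
    (q : X → E) (hq : Continuous q)
    (H : ∀ x₀ : X, ∀ ε : ℝ, 0 < ε → ∃ N ∈ 𝓝[Set.range q] (q x₀), N ⊆ Metric.ball (q x₀) ε ∧
      SimplyConnectedSpace {x : X // q x ∈ N}) (ε : ℝ) (hε : 0 < ε) :
    ∃ lam : ℝ, 0 < lam ∧ Leb q ε lam := by
  choose N hN hNb hNs using fun x₀ => H x₀ (ε / 2) (by linarith)
  have hr : ∀ x₀, ∃ r > 0, Metric.ball (q x₀) r ∩ Set.range q ⊆ N x₀ := fun x₀ =>
    Metric.mem_nhdsWithin_iff.mp (hN x₀)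
  choose r hr0 hrN using hr
  have hcomp : IsCompact (Set.range q) := isCompact_range hq
  obtain ⟨lam, hlam, hL⟩ := lebesgue_number_lemma_of_metric hcomp
    (c := fun x₀ => Metric.ball (q x₀) (r x₀)) (fun _ => Metric.isOpen_ball) (by
      rintro _ ⟨x, rfl⟩
      exact Set.mem_iUnion.mpr ⟨x, Metric.mem_ball_self (hr0 x)⟩)
  refine ⟨lam, hlam, fun x => ?_⟩
  obtain ⟨x₀, hx₀⟩ := hL (q x) ⟨x, rfl⟩
  refine ⟨N x₀, hNs x₀, fun z hz => hrN x₀ ⟨hx₀ hz, ⟨z, rfl⟩⟩, fun z hz => ?_⟩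
  have h1 := hNb x₀ hz
  have h2 := hNb x₀ (hrN x₀ ⟨hx₀ (Metric.mem_ball_self hlam), ⟨x, rfl⟩⟩)
  rw [Metric.mem_ball] at h1 h2
  have := dist_triangle_right (q z) (q x) (q x₀)
  linarith

theorem Leb.mono {X E : Type} [TopologicalSpace X] [MetricSpace E] {q : X → E}
    {ε lam lam' : ℝ} (h : Leb q ε lam) (hl : lam' ≤ lam) : Leb q ε lam' := by
  intro x
  obtain ⟨N, hN, h1, h2⟩ := h x
  exact ⟨N, hN, fun z hz => h1 z (lt_of_lt_of_le hz hl), h2⟩

theorem edge {X E : Type} [TopologicalSpace X] [MetricSpace E] {q : X → E}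
    {ε lam : ℝ} (h : Leb q ε lam) (hlam : 0 < lam) (x x' : X) (hd : dist (q x') (q x) < lam) :
    ∃ γ : unitInterval → X, Continuous γ ∧ γ 0 = x ∧ γ 1 = x' ∧
      ∀ s, dist (q (γ s)) (q x) < ε := by
  obtain ⟨N, hN, h1, h2⟩ := h x
  have := hN
  have hx : q x ∈ N := h1 x (by rw [dist_self]; exact hlam)
  have hx' : q x' ∈ N := h1 x' hd
  let γ : Path (⟨x, hx⟩ : {z : X // q z ∈ N}) ⟨x', hx'⟩ := PathConnectedSpace.somePath _ _
  refine ⟨fun s => (γ s).1, continuous_subtype_val.comp γ.continuous, ?_, ?_, ?_⟩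
  · simp
  · simp
  · intro s
    exact h2 _ (γ s).2

theorem face (hFIL : T_FIL) {X E : Type} [TopologicalSpace X] [MetricSpace E] {q : X → E}
    {ε lam : ℝ} (h : Leb q ε lam) (x : X) (b t l r : unitInterval → X)
    (hb : Continuous b) (ht : Continuous t) (hl : Continuous l) (hr : Continuous r)
    (h00 : l 0 = b 0) (h10 : r 0 = b 1) (h01 : l 1 = t 0) (h11 : r 1 = t 1)
    (db : ∀ s, dist (q (b s)) (q x) < lam) (dt : ∀ s, dist (q (t s)) (q x) < lam)
    (dl : ∀ s, dist (q (l s)) (q x) < lam) (dr : ∀ s, dist (q (r s)) (q x) < lam) :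
    ∃ F : unitInterval × unitInterval → X, Continuous F ∧
      (∀ s, F (s, 0) = b s) ∧ (∀ s, F (s, 1) = t s) ∧ (∀ s, F (0, s) = l s) ∧
      (∀ s, F (1, s) = r s) ∧ ∀ p, dist (q (F p)) (q x) < ε := by
  obtain ⟨N, hN, h1, h2⟩ := h x
  have := hN
  let b' : Path (⟨b 0, h1 _ (db 0)⟩ : {z : X // q z ∈ N}) ⟨b 1, h1 _ (db 1)⟩ :=
    { toFun := fun s => ⟨b s, h1 _ (db s)⟩
      continuous_toFun := hb.subtype_mk _
      source' := rfl
      target' := rfl }
  let t' : Path (⟨t 0, h1 _ (dt 0)⟩ : {z : X // q z ∈ N}) ⟨t 1, h1 _ (dt 1)⟩ :=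
    { toFun := fun s => ⟨t s, h1 _ (dt s)⟩
      continuous_toFun := ht.subtype_mk _
      source' := rfl
      target' := rfl }
  let l' : Path (⟨b 0, h1 _ (db 0)⟩ : {z : X // q z ∈ N}) ⟨t 0, h1 _ (dt 0)⟩ :=
    { toFun := fun s => ⟨l s, h1 _ (dl s)⟩
      continuous_toFun := hl.subtype_mk _
      source' := Subtype.ext h00
      target' := Subtype.ext h01 }
  let r' : Path (⟨b 1, h1 _ (db 1)⟩ : {z : X // q z ∈ N}) ⟨t 1, h1 _ (dt 1)⟩ :=
    { toFun := fun s => ⟨r s, h1 _ (dr s)⟩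
      continuous_toFun := hr.subtype_mk _
      source' := Subtype.ext h10
      target' := Subtype.ext h11 }
  obtain ⟨F, hF, f1, f2, f3, f4⟩ := hFIL {z : X // q z ∈ N} _ _ _ _ b' t' l' r'
  refine ⟨fun p => (F p).1, continuous_subtype_val.comp hF, fun s => ?_, fun s => ?_,
    fun s => ?_, fun s => ?_, fun p => h2 _ (F p).2⟩
  · show (F (s, 0)).1 = b s
    rw [f1]; rfl
  · show (F (s, 1)).1 = t s
    rw [f2]; rfl
  · show (F (0, s)).1 = l s
    rw [f3]; rfl
  · show (F (1, s)).1 = r s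
    rw [f4]; rfl

/-- outer vertices of the grid -/
def Out (K : ℤ) (i j : ℤ) : Prop := K ≤ |i| ∨ K ≤ |j|

/-- the grid point -/
def gp (h : ℝ) (i j : ℤ) : ℂ := ((i * h : ℝ) : ℂ) + ((j * h : ℝ) : ℂ) * Complex.I

theorem gp_re (h : ℝ) (i j : ℤ) : (gp h i j).re = i * h := by simp [gp]

theorem gp_im (h : ℝ) (i j : ℤ) : (gp h i j).im = j * h := by simp [gp]

theorem norm_le (z : ℂ) (a b : ℝ) (h1 : |z.re| ≤ a) (h2 : |z.im| ≤ b) : ‖z‖ ≤ a + b :=
  (Complex.norm_le_abs_re_add_abs_im z).trans (add_le_add h1 h2)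

end LIF_

open LIF_ in
theorem p_LIF (hFIL : T_FIL) (hGRD : T_GRD) : T_LIF := by
  intro X E _ _ _ q hq H ε₀ hε₀
  obtain ⟨lam2, hlam2, L2⟩ := leb q hq H (ε₀ / 4) (by linarith)
  obtain ⟨lam1', hlam1', L1'⟩ := leb q hq H (lam2 / 4) (by linarith)
  obtain ⟨lam1, hlam1, hl1, hl2, hl3⟩ : ∃ lam1 : ℝ, 0 < lam1 ∧ lam1 ≤ lam1' ∧ lam1 ≤ lam2 ∧
      lam1 ≤ ε₀ := by
    refine ⟨min lam1' (min lam2 ε₀), ?_, min_le_left _ _,
      (min_le_right _ _).trans (min_le_left _ _), (min_le_right _ _).trans (min_le_right _ _)⟩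
    exact lt_min hlam1' (lt_min hlam2 hε₀)
  have L1 : Leb q (lam2 / 4) lam1 := L1'.mono hl1
  refine ⟨lam1 / 8, by linarith, ?_⟩
  intro D x₁ x₂ hD hδ hD0 hDi
  -- the map on the plane
  have hDc := (OnePoint.continuous_iff D).mp hD
  have hgc : Continuous fun z : ℂ => D (z : OnePoint ℂ) := hDc.2
  have hgl : Tendsto (fun z : ℂ => D (z : OnePoint ℂ)) (cocompact ℂ) (𝓝 (D OnePoint.infty)) := by
    have := hDc.1
    rwa [coclosedCompact_eq_cocompact] at this
  have huc : UniformContinuous fun z : ℂ => D (z : OnePoint ℂ) :=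
    hgc.uniformContinuous_of_tendsto_cocompact hgl
  obtain ⟨m, hm, hmod⟩ := Metric.uniformContinuous_iff.mp huc (lam1 / 8) (by linarith)
  obtain ⟨h, hh, hhm⟩ : ∃ h : ℝ, 0 < h ∧ 2 * h < m := ⟨m / 3, by linarith, by linarith⟩
  have hev : ∀ᶠ z : ℂ in cocompact ℂ, dist (D (z : OnePoint ℂ)) (D OnePoint.infty) < lam1 / 8 :=
    (Metric.tendsto_nhds.mp hgl) (lam1 / 8) (by linarith)
  obtain ⟨R, hR⟩ : ∃ R : ℝ, ∀ z : ℂ, R ≤ ‖z‖ →
      dist (D (z : OnePoint ℂ)) (D OnePoint.infty) < lam1 / 8 := by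
    rw [← Metric.cobounded_eq_cocompact] at hev
    obtain ⟨R, -, hR⟩ := Filter.hasBasis_cobounded_norm.eventually_iff.mp hev
    exact ⟨R, fun z hz => hR hz⟩
  obtain ⟨K, hK1, hKR⟩ : ∃ K : ℤ, 1 ≤ K ∧ R ≤ K * h := by
    obtain ⟨n, hn⟩ := exists_nat_ge (R / h)
    refine ⟨(n : ℤ) + 1, by omega, ?_⟩
    have : R / h ≤ (n : ℝ) + 1 := by linarith
    rw [div_le_iff₀ hh] at this
    push_cast
    exact this
  -- vertices
  have hvx : ∀ i j : ℤ, ∃ x : X, dist (q x) (D (gp h i j : ℂ)) < lam1 / 8 ∧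
      (Out K i j → x = x₂) ∧ (i = 0 → j = 0 → x = x₁) := by
    intro i j
    by_cases ho : Out K i j
    · refine ⟨x₂, ?_, fun _ => rfl, ?_⟩
      · rw [← hDi, dist_comm]
        apply hR
        rcases ho with ho | ho
        · have h1 : (K : ℝ) * h ≤ |(gp h i j).re| := by
            rw [gp_re, abs_mul, abs_of_pos hh]
            have : (K : ℝ) ≤ |(i : ℝ)| := by exact_mod_cast ho
            exact mul_le_mul_of_nonneg_right this hh.le
          exact (hKR.trans h1).trans (Complex.abs_re_le_norm _)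
        · have h1 : (K : ℝ) * h ≤ |(gp h i j).im| := by
            rw [gp_im, abs_mul, abs_of_pos hh]
            have : (K : ℝ) ≤ |(j : ℝ)| := by exact_mod_cast ho
            exact mul_le_mul_of_nonneg_right this hh.le
          exact (hKR.trans h1).trans (Complex.abs_im_le_norm _)
      · rintro rfl rfl
        rcases ho with ho | ho
        · simp at ho; omega
        · simp at ho; omega
    · by_cases hz : i = 0 ∧ j = 0
      · obtain ⟨rfl, rfl⟩ := hz
        refine ⟨x₁, ?_, fun h => absurd h ho, fun _ _ => rfl⟩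
        have : gp h 0 0 = 0 := by simp [gp]
        rw [this, hD0, dist_self]
        linarith
      · obtain ⟨x, hx⟩ := hδ (gp h i j : ℂ)
        exact ⟨x, hx, fun h => absurd h ho, fun h1 h2 => absurd ⟨h1, h2⟩ hz⟩
  choose v hv hvo hv0 using hvx
  have hstep : ∀ i j i' j' : ℤ, |i - i'| ≤ 1 → |j - j'| ≤ 1 →
      dist (q (v i j)) (q (v i' j')) < 3 * (lam1 / 8) := by
    intro i j i' j' hi hj
    have h1 := hv i j
    have h2 := hv i' j'
    have h3 : dist (D (gp h i j : ℂ)) (D (gp h i' j' : ℂ)) < lam1 / 8 := by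
      apply hmod
      rw [dist_eq_norm]
      refine lt_of_le_of_lt (norm_le _ h h ?_ ?_) (by linarith)
      · rw [Complex.sub_re, gp_re, gp_re, ← sub_mul, abs_mul, abs_of_pos hh]
        have : |(i : ℝ) - i'| ≤ 1 := by exact_mod_cast hi
        calc |(i : ℝ) - i'| * h ≤ 1 * h := mul_le_mul_of_nonneg_right this hh.le
          _ = h := one_mul h
      · rw [Complex.sub_im, gp_im, gp_im, ← sub_mul, abs_mul, abs_of_pos hh]
        have : |(j : ℝ) - j'| ≤ 1 := by exact_mod_cast hj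
        calc |(j : ℝ) - j'| * h ≤ 1 * h := mul_le_mul_of_nonneg_right this hh.le
          _ = h := one_mul h
    have h4 := dist_triangle4_right (q (v i j)) (q (v i' j')) (D (gp h i j : ℂ))
      (D (gp h i' j' : ℂ))
    have h5 := dist_triangle4 (q (v i j)) (D (gp h i j : ℂ)) (D (gp h i' j' : ℂ)) (q (v i' j'))
    rw [dist_comm (D (gp h i' j' : ℂ)) (q (v i' j'))] at h5
    linarith
  -- edges
  have hed : ∀ i j i' j' : ℤ, |i - i'| ≤ 1 → |j - j'| ≤ 1 → ∃ γ : unitInterval → X,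
      Continuous γ ∧ γ 0 = v i j ∧ γ 1 = v i' j' ∧
      (∀ s, dist (q (γ s)) (q (v i j)) < lam2 / 4) ∧
      (Out K i j → Out K i' j' → ∀ s, γ s = x₂) := by
    intro i j i' j' hi hj
    by_cases ho : Out K i j ∧ Out K i' j'
    · refine ⟨fun _ => x₂, continuous_const, (hvo i j ho.1).symm, (hvo i' j' ho.2).symm, ?_,
        fun _ _ _ => rfl⟩
      intro s
      rw [hvo i j ho.1, dist_self]
      linarith
    · obtain ⟨γ, hγ, g0, g1, gd⟩ := edge L1 hlam1 (v i j) (v i' j') (by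
        have := hstep i' j' i j (by rw [abs_sub_comm]; exact hi) (by rw [abs_sub_comm]; exact hj)
        linarith)
      exact ⟨γ, hγ, g0, g1, gd, fun h1 h2 => absurd ⟨h1, h2⟩ ho⟩
  have a1 : ∀ i : ℤ, |i - (i + 1)| ≤ 1 := fun i => by rw [abs_le]; omega
  have a0 : ∀ i : ℤ, |i - i| ≤ 1 := fun i => by rw [abs_le]; omega
  have a1' : ∀ i : ℤ, |i + 1 - i| ≤ 1 := fun i => by rw [abs_le]; omega
  choose hE hEc hE0 hE1 hEd hEo using fun i j : ℤ => hed i j (i + 1) j (a1 i) (a0 j)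
  choose vE vEc vE0 vE1 vEd vEo using fun i j : ℤ => hed i j i (j + 1) (a0 i) (a1 j)
  -- faces
  have hfa : ∀ i j : ℤ, ∃ F : unitInterval × unitInterval → X, Continuous F ∧
      (∀ s, F (s, 0) = hE i j s) ∧ (∀ s, F (s, 1) = hE i (j + 1) s) ∧
      (∀ s, F (0, s) = vE i j s) ∧ (∀ s, F (1, s) = vE (i + 1) j s) ∧
      (∀ p, dist (q (F p)) (q (v i j)) < ε₀ / 4) ∧
      (Out K i j → Out K (i + 1) j → Out K i (j + 1) → Out K (i + 1) (j + 1) →
        ∀ p, F p = x₂) := by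
    intro i j
    by_cases ho : Out K i j ∧ Out K (i + 1) j ∧ Out K i (j + 1) ∧ Out K (i + 1) (j + 1)
    · obtain ⟨o1, o2, o3, o4⟩ := ho
      refine ⟨fun _ => x₂, continuous_const, fun s => (hEo i j o1 o2 s).symm,
        fun s => (hEo i (j + 1) o3 o4 s).symm, fun s => (vEo i j o1 o3 s).symm,
        fun s => (vEo (i + 1) j o2 o4 s).symm, fun p => ?_, fun _ _ _ _ _ => rfl⟩
      rw [hvo i j o1, dist_self]
      linarith
    · obtain ⟨F, hF, f1, f2, f3, f4, f5⟩ := face hFIL L2 (v i j) (hE i j) (hE i (j + 1))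
        (vE i j) (vE (i + 1) j) (hEc _ _) (hEc _ _) (vEc _ _) (vEc _ _)
        (by rw [vE0, hE0]) (by rw [vE0, hE1]) (by rw [vE1, hE0]) (by rw [vE1, hE1])
        (fun s => by have := hEd i j s; linarith)
        (fun s => by
          have h1 := hEd i (j + 1) s
          have h2 := hstep i (j + 1) i j (a0 i) (a1' j)
          have h3 := dist_triangle (q (hE i (j + 1) s)) (q (v i (j + 1))) (q (v i j))
          linarith)
        (fun s => by have := vEd i j s; linarith)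
        (fun s => by
          have h1 := vEd (i + 1) j s
          have h2 := hstep (i + 1) j i j (a1' i) (a0 j)
          have h3 := dist_triangle (q (vE (i + 1) j s)) (q (v (i + 1) j)) (q (v i j))
          linarith)
      exact ⟨F, hF, f1, f2, f3, f4, f5, fun o1 o2 o3 o4 => absurd ⟨o1, o2, o3, o4⟩ ho⟩
  choose F hFc hF1 hF2 hF3 hF4 hFd hFo using hfa
  obtain ⟨σ, hσ, hσF⟩ := hGRD X h hh F hFc (fun i j x => by rw [hF1, hF2])
    (fun i j y => by rw [hF3, hF4])
  -- coordinates of a point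
  have hco : ∀ z : ℂ, ∃ (i j : ℤ) (x y : unitInterval), z.re / h = i + x ∧ z.im / h = j + y ∧
      σ z = F i j (x, y) := by
    intro z
    refine ⟨⌊z.re / h⌋, ⌊z.im / h⌋, ⟨Int.fract (z.re / h), Int.fract_nonneg _,
      (Int.fract_lt_one _).le⟩, ⟨Int.fract (z.im / h), Int.fract_nonneg _,
      (Int.fract_lt_one _).le⟩, (Int.floor_add_fract _).symm, (Int.floor_add_fract _).symm, ?_⟩
    rw [← hσF]
    congr 1
    simp only [Int.floor_add_fract]
    rw [div_mul_cancel₀ _ hh.ne', div_mul_cancel₀ _ hh.ne']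
    exact (Complex.re_add_im z).symm
  have hlarge : ∀ z : ℂ, 2 * ((K + 1) * h) ≤ ‖z‖ → σ z = x₂ := by
    intro z hz
    obtain ⟨i, j, x, y, hx, hy, hs⟩ := hco z
    have hx0 := x.2.1
    have hx1 := x.2.2
    have hy0 := y.2.1
    have hy1 := y.2.2
    have hcase : (K + 1) * h ≤ |z.re| ∨ (K + 1) * h ≤ |z.im| := by
      by_contra hcon
      push Not at hcon
      have := Complex.norm_le_abs_re_add_abs_im z
      linarith [hcon.1, hcon.2]
    have hgen : ∀ (w : ℝ) (i : ℤ) (x : ℝ), 0 ≤ x → x ≤ 1 → w / h = i + x →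
        (K + 1) * h ≤ |w| → K ≤ |i| ∧ K ≤ |i + 1| := by
      intro w i x h0 h1 hw hK
      have h2 : (K : ℝ) + 1 ≤ |(i : ℝ) + x| := by
        rw [← hw, abs_div, abs_of_pos hh, le_div_iff₀ hh]
        exact hK
      rcases le_abs.mp h2 with h3 | h3
      · have h4 : (K : ℝ) ≤ i := by linarith
        have h5 : K ≤ i := by exact_mod_cast h4
        exact ⟨h5.trans (le_abs_self i), (by omega : K ≤ i + 1).trans (le_abs_self _)⟩
      · have h4 : (i : ℝ) + 1 ≤ -K := by linarith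
        have h5 : i + 1 ≤ -K := by exact_mod_cast h4
        exact ⟨(by omega : K ≤ -i).trans (neg_le_abs i),
          (by omega : K ≤ -(i + 1)).trans (neg_le_abs _)⟩
    rw [hs]
    rcases hcase with hc | hc
    · obtain ⟨k1, k2⟩ := hgen z.re i x hx0 hx1 hx hc
      exact hFo i j (Or.inl k1) (Or.inl k2) (Or.inl k1) (Or.inl k2) _
    · obtain ⟨k1, k2⟩ := hgen z.im j y hy0 hy1 hy hc
      exact hFo i j (Or.inr k1) (Or.inr k1) (Or.inr k2) (Or.inr k2) _
  -- the map on the sphere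
  let τ : OnePoint ℂ → X := fun t => t.elim x₂ σ
  have hτc : ∀ z : ℂ, τ (z : OnePoint ℂ) = σ z := fun z => rfl
  have hτi : τ OnePoint.infty = x₂ := rfl
  refine ⟨τ, ?_, ?_, hτi, ?_⟩
  · rw [OnePoint.continuous_iff]
    refine ⟨?_, hσ⟩
    rw [coclosedCompact_eq_cocompact]
    have hev2 : ∀ᶠ z : ℂ in cocompact ℂ, τ (z : OnePoint ℂ) = x₂ := by
      rw [← Metric.cobounded_eq_cocompact]
      refine Filter.hasBasis_cobounded_norm.eventually_iff.mpr
        ⟨2 * ((K + 1) * h), trivial, fun z hz => ?_⟩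
      rw [hτc]
      exact hlarge z hz
    rw [hτi]
    exact (tendsto_congr' hev2).mpr tendsto_const_nhds
  · rw [hτc]
    have h0 := hσF 0 0 0 0
    have h1 : (((((0 : ℤ) : ℝ) + ((0 : unitInterval) : ℝ)) * h : ℝ) : ℂ) +
        (((((0 : ℤ) : ℝ) + ((0 : unitInterval) : ℝ)) * h : ℝ) : ℂ) * Complex.I = 0 := by
      simp
    rw [h1] at h0
    rw [h0, hF1, hE0]
    exact hv0 0 0 rfl rfl
  · intro t
    induction t using OnePoint.rec with
    | infty => rw [hτi, hDi, dist_self]; exact hε₀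
    | coe z =>
      rw [hτc]
      obtain ⟨i, j, x, y, hx, hy, hs⟩ := hco z
      rw [hs]
      have h1 := hFd i j (x, y)
      have h2 := hv i j
      have h3 : dist (D (gp h i j : ℂ)) (D (z : OnePoint ℂ)) < lam1 / 8 := by
        apply hmod
        rw [dist_eq_norm]
        refine lt_of_le_of_lt (norm_le _ h h ?_ ?_) (by linarith)
        · rw [Complex.sub_re, gp_re]
          rw [div_eq_iff hh.ne'] at hx
          rw [hx, ← sub_mul, abs_mul, abs_of_pos hh]
          have : |(i : ℝ) - (i + (x : ℝ))| ≤ 1 := by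
            rw [abs_le]; constructor <;> linarith [x.2.1, x.2.2]
          calc |(i : ℝ) - (i + (x : ℝ))| * h ≤ 1 * h := mul_le_mul_of_nonneg_right this hh.le
            _ = h := one_mul h
        · rw [Complex.sub_im, gp_im]
          rw [div_eq_iff hh.ne'] at hy
          rw [hy, ← sub_mul, abs_mul, abs_of_pos hh]
          have : |(j : ℝ) - (j + (y : ℝ))| ≤ 1 := by
            rw [abs_le]; constructor <;> linarith [y.2.1, y.2.2]
          calc |(j : ℝ) - (j + (y : ℝ))| * h ≤ 1 * h := mul_le_mul_of_nonneg_right this hh.le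
            _ = h := one_mul h
      have h4 := dist_triangle4 (q (F i j (x, y))) (q (v i j)) (D (gp h i j : ℂ))
        (D (z : OnePoint ℂ))
      linarith

end Pool.Agent.ARC
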