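import Pool.Agent.ARC.Targets5
import Pool.Agent.ARC.P_LIF

set_option autoImplicit false

/-!
# ARC: the target T_LIT
-/

noncomputable section

open Filter Topology

namespace Pool.Agent.ARC

namespace LIT_

/-- Doubly periodic families of integers with period `K`. -/
def Per {α : Type} (K : ℤ) (f : ℤ → ℤ → α) : Prop :=
  ∀ i j m n : ℤ, f (i + m * K) (j + n * K) = f i j

theorem perChoose {α : Type} (K : ℤ) (P : ℤ → ℤ → α → Prop)
    (hP : ∀ i j m n a, P (i + m * K) (j + n * K) a → P i j a) (h : ∀ i j, ∃ a, P i j a) :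
    ∃ f : ℤ → ℤ → α, (∀ i j, P i j (f i j)) ∧ Per K f := by
  choose f0 hf0 using h
  refine ⟨fun i j => f0 (i % K) (j % K), fun i j => ?_, fun i j m n => ?_⟩
  · apply hP i j (-(i / K)) (-(j / K))
    have e1 : ∀ i : ℤ, i + -(i / K) * K = i % K := fun i => by
      rw [Int.emod_def]
      ring
    rw [e1, e1]
    exact hf0 _ _
  · simp only [Int.add_mul_emod_self_right]

/-- The change of coordinates. -/
def ell (τ z : ℂ) : ℂ :=
  ((z.re - z.im / τ.im * τ.re : ℝ) : ℂ) + ((z.im / τ.im : ℝ) : ℂ) * Complex.I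

theorem ell_re (τ z : ℂ) : (ell τ z).re = z.re - z.im / τ.im * τ.re := by simp [ell]

theorem ell_im (τ z : ℂ) : (ell τ z).im = z.im / τ.im := by simp [ell]

theorem ell_one (τ z : ℂ) : ell τ (z + 1) = ell τ z + 1 := by
  apply Complex.ext
  · rw [Complex.add_re, ell_re, ell_re]
    simp
    ring
  · rw [Complex.add_im, ell_im, ell_im]
    simp

theorem ell_tau (τ z : ℂ) (hτ : 0 < τ.im) : ell τ (z + τ) = ell τ z + Complex.I := by
  have h := hτ.ne'
  apply Complex.ext
  · rw [Complex.add_re, ell_re, ell_re]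
    simp only [Complex.add_re, Complex.add_im, Complex.I_re, add_zero]
    field_simp
    ring
  · rw [Complex.add_im, ell_im, ell_im]
    simp only [Complex.add_im, Complex.I_im]
    field_simp

/-- The data in the coordinates of the lattice. -/
def pb {E : Type} (τ : ℂ) (D : ℂ → E) (w : ℂ) : E := D ((w.re : ℂ) + (w.im : ℂ) * τ)

theorem pb_ell {E : Type} (τ : ℂ) (D : ℂ → E) (hτ : 0 < τ.im) (z : ℂ) :
    pb τ D (ell τ z) = D z := by
  unfold pb
  congr 1
  have h := hτ.ne'
  apply Complex.ext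
  · simp [ell_re, ell_im]
  · simp only [ell_re, ell_im, Complex.add_im, Complex.ofReal_im, Complex.mul_im,
      Complex.ofReal_re]
    field_simp
    ring

theorem pb_one {E : Type} (τ : ℂ) (D : ℂ → E) (h1 : ∀ z, D (z + 1) = D z) (w : ℂ) :
    pb τ D (w + 1) = pb τ D w := by
  unfold pb
  rw [← h1 ((w.re : ℂ) + (w.im : ℂ) * τ)]
  congr 1
  simp
  ring

theorem pb_I {E : Type} (τ : ℂ) (D : ℂ → E) (h1 : ∀ z, D (z + τ) = D z) (w : ℂ) :
    pb τ D (w + Complex.I) = pb τ D w := by
  unfold pb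
  rw [← h1 ((w.re : ℂ) + (w.im : ℂ) * τ)]
  congr 1
  simp
  ring

theorem pb_int {E : Type} (f : ℂ → E) (h1 : ∀ z, f (z + 1) = f z)
    (hI : ∀ z, f (z + Complex.I) = f z) (m n : ℤ) (w : ℂ) :
    f (w + (m + n * Complex.I)) = f w := by
  have p1 : Function.Periodic f 1 := h1
  have p2 : Function.Periodic f Complex.I := hI
  have q1 := (p1.int_mul m)
  have q2 := (p2.int_mul n)
  rw [mul_one] at q1
  rw [← add_assoc, q2, q1]

theorem unif {E : Type} [MetricSpace E] (f : ℂ → E) (hf : Continuous f)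
    (h1 : ∀ z, f (z + 1) = f z) (hI : ∀ z, f (z + Complex.I) = f z) (ε : ℝ) (hε : 0 < ε) :
    ∃ m : ℝ, 0 < m ∧ ∀ z z' : ℂ, ‖z - z'‖ < m → dist (f z) (f z') < ε := by
  have hc : IsCompact (Metric.closedBall (0 : ℂ) 4) := isCompact_closedBall 0 4
  have huc := hc.uniformContinuousOn_of_continuous hf.continuousOn
  rw [Metric.uniformContinuousOn_iff] at huc
  obtain ⟨m, hm, H⟩ := huc ε hε
  refine ⟨min m 1, lt_min hm one_pos, fun z z' hz => ?_⟩
  have hzm : ‖z - z'‖ < m := lt_of_lt_of_le hz (min_le_left _ _)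
  have hz1 : ‖z - z'‖ < 1 := lt_of_lt_of_le hz (min_le_right _ _)
  set c : ℂ := ((-⌊z.re⌋ : ℤ) : ℂ) + ((-⌊z.im⌋ : ℤ) : ℂ) * Complex.I with hcdef
  have e1 : f (z + c) = f z := pb_int f h1 hI _ _ z
  have e2 : f (z' + c) = f z' := pb_int f h1 hI _ _ z'
  rw [← e1, ← e2]
  have hb : ‖z + c‖ ≤ 2 := by
    have hre : |(z + c).re| ≤ 1 := by
      have : (z + c).re = Int.fract z.re := by
        rw [hcdef]
        simp [Int.fract, sub_eq_add_neg]
      rw [this, abs_of_nonneg (Int.fract_nonneg _)]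
      exact (Int.fract_lt_one _).le
    have him : |(z + c).im| ≤ 1 := by
      have : (z + c).im = Int.fract z.im := by
        rw [hcdef]
        simp [Int.fract, sub_eq_add_neg]
      rw [this, abs_of_nonneg (Int.fract_nonneg _)]
      exact (Int.fract_lt_one _).le
    have := LIF_.norm_le (z + c) 1 1 hre him
    linarith
  have hd : (z + c) - (z' + c) = z - z' := by ring
  apply H
  · rw [mem_closedBall_zero_iff]
    linarith
  · rw [mem_closedBall_zero_iff]
    have h3 : z' + c = (z + c) - (z - z') := by ring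
    rw [h3]
    have := norm_sub_le (z + c) (z - z')
    linarith
  · rw [dist_eq_norm, hd]
    exact hzm

end LIT_

open LIF_ LIT_ in
theorem p_LIT (hFIL : T_FIL) (hGRD : T_GRD) : T_LIT := by
  intro X E _ _ _ q hq H ε₀ hε₀
  obtain ⟨lam2, hlam2, L2⟩ := leb q hq H (ε₀ / 4) (by linarith)
  obtain ⟨lam1', hlam1', L1'⟩ := leb q hq H (lam2 / 4) (by linarith)
  obtain ⟨lam1, hlam1, hl1, hl2, hl3⟩ : ∃ lam1 : ℝ, 0 < lam1 ∧ lam1 ≤ lam1' ∧ lam1 ≤ lam2 ∧
      lam1 ≤ ε₀ := by
    refine ⟨min lam1' (min lam2 ε₀), ?_, min_le_left _ _,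
      (min_le_right _ _).trans (min_le_left _ _), (min_le_right _ _).trans (min_le_right _ _)⟩
    exact lt_min hlam1' (lt_min hlam2 hε₀)
  have L1 : Leb q (lam2 / 4) lam1 := L1'.mono hl1
  refine ⟨lam1 / 8, by linarith, ?_⟩
  intro τ D hτ hD hD1 hDτ hδ
  set D' : ℂ → E := pb τ D with hD'
  have hD'c : Continuous D' := by
    rw [hD']
    unfold pb
    fun_prop
  have hP1 : ∀ w, D' (w + 1) = D' w := pb_one τ D hD1
  have hPI : ∀ w, D' (w + Complex.I) = D' w := pb_I τ D hDτ
  have hδ' : ∀ w, ∃ x, dist (q x) (D' w) < lam1 / 8 := fun w => hδ _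
  obtain ⟨m, hm, hmod⟩ := unif D' hD'c hP1 hPI (lam1 / 8) (by linarith)
  obtain ⟨K, hK0, hKm⟩ : ∃ K : ℤ, 0 < K ∧ 2 * (1 / (K : ℝ)) < m := by
    obtain ⟨n, hn⟩ := exists_nat_gt (2 / m)
    have hn0 : (0 : ℝ) < n := lt_trans (by positivity) hn
    refine ⟨n, by exact_mod_cast hn0, ?_⟩
    rw [div_lt_iff₀ hm] at hn
    rw [Int.cast_natCast, mul_one_div, div_lt_iff₀ hn0]
    linarith
  have hKr : (0 : ℝ) < K := by exact_mod_cast hK0
  obtain ⟨h, hhdef⟩ : ∃ h : ℝ, h = 1 / (K : ℝ) := ⟨_, rfl⟩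
  have hh : 0 < h := by rw [hhdef]; positivity
  have hhm : 2 * h < m := by rw [hhdef]; exact hKm
  have hKh : (K : ℝ) * h = 1 := by rw [hhdef]; field_simp
  -- vertices
  have hgp : ∀ i j a b : ℤ, gp h (i + a * K) (j + b * K) = gp h i j + (a + b * Complex.I) := by
    intro i j a b
    apply Complex.ext
    · rw [Complex.add_re, gp_re, gp_re]
      simp only [Int.cast_add, Int.cast_mul, Complex.add_re, Complex.intCast_re, Complex.mul_re,
        Complex.I_re, Complex.intCast_im, Complex.I_im]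
      linear_combination (a : ℝ) * hKh
    · rw [Complex.add_im, gp_im, gp_im]
      simp only [Int.cast_add, Int.cast_mul, Complex.add_im, Complex.intCast_re, Complex.mul_im,
        Complex.I_re, Complex.intCast_im, Complex.I_im]
      linear_combination (b : ℝ) * hKh
  obtain ⟨v, hv, hvp⟩ := perChoose K (fun i j x => dist (q x) (D' (gp h i j)) < lam1 / 8)
    (by
      intro i j a b x hx
      rwa [hgp, pb_int D' hP1 hPI] at hx)
    (fun i j => hδ' _)
  have hstep : ∀ i j i' j' : ℤ, |i - i'| ≤ 1 → |j - j'| ≤ 1 →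
      dist (q (v i j)) (q (v i' j')) < 3 * (lam1 / 8) := by
    intro i j i' j' hi hj
    have h1 := hv i j
    have h2 := hv i' j'
    have h3 : dist (D' (gp h i j)) (D' (gp h i' j')) < lam1 / 8 := by
      apply hmod
      refine lt_of_le_of_lt (norm_le _ h h ?_ ?_) (by linarith)
      · rw [Complex.sub_re, gp_re, gp_re, ← sub_mul, abs_mul, abs_of_pos hh]
        have : |(i : ℝ) - i'| ≤ 1 := by exact_mod_cast hi
        calc |(i : ℝ) - i'| * h ≤ 1 * h := mul_le_mul_of_nonneg_right this hh.le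
          _ = h := one_mul h
      · rw [Complex.sub_im, gp_im, gp_im, ← sub_mul, abs_mul, abs_of_pos hh]
        have : |(j : ℝ) - j'| ≤ 1 := by exact_mod_cast hj
        calc |(j : ℝ) - j'| * h ≤ 1 * h := mul_le_mul_of_nonneg_right this hh.le
          _ = h := one_mul h
    have h5 := dist_triangle4 (q (v i j)) (D' (gp h i j)) (D' (gp h i' j')) (q (v i' j'))
    rw [dist_comm (D' (gp h i' j')) (q (v i' j'))] at h5
    linarith
  -- edges
  have hed : ∀ i j i' j' : ℤ, |i - i'| ≤ 1 → |j - j'| ≤ 1 → ∃ γ : unitInterval → X,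
      Continuous γ ∧ γ 0 = v i j ∧ γ 1 = v i' j' ∧
      ∀ s, dist (q (γ s)) (q (v i j)) < lam2 / 4 := by
    intro i j i' j' hi hj
    exact edge L1 hlam1 (v i j) (v i' j') (by
      have := hstep i' j' i j (by rw [abs_sub_comm]; exact hi) (by rw [abs_sub_comm]; exact hj)
      linarith)
  have a1 : ∀ i : ℤ, |i - (i + 1)| ≤ 1 := fun i => by rw [abs_le]; omega
  have a0 : ∀ i : ℤ, |i - i| ≤ 1 := fun i => by rw [abs_le]; omega
  have a1' : ∀ i : ℤ, |i + 1 - i| ≤ 1 := fun i => by rw [abs_le]; omega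
  have hs1 : ∀ i a : ℤ, i + a * K + 1 = i + 1 + a * K := fun i a => by ring
  obtain ⟨hE, hEP, hEp⟩ := perChoose K (fun i j (γ : unitInterval → X) =>
      Continuous γ ∧ γ 0 = v i j ∧ γ 1 = v (i + 1) j ∧
      ∀ s, dist (q (γ s)) (q (v i j)) < lam2 / 4)
    (by
      intro i j a b x hx
      rwa [hs1, hvp, hvp] at hx)
    (fun i j => hed i j (i + 1) j (a1 i) (a0 j))
  obtain ⟨vE, vEP, vEp⟩ := perChoose K (fun i j (γ : unitInterval → X) =>
      Continuous γ ∧ γ 0 = v i j ∧ γ 1 = v i (j + 1) ∧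
      ∀ s, dist (q (γ s)) (q (v i j)) < lam2 / 4)
    (by
      intro i j a b x hx
      rwa [hs1, hvp, hvp] at hx)
    (fun i j => hed i j i (j + 1) (a0 i) (a1 j))
  have hEc := fun i j => (hEP i j).1
  have hE0 := fun i j => (hEP i j).2.1
  have hE1 := fun i j => (hEP i j).2.2.1
  have hEd := fun i j => (hEP i j).2.2.2
  have vEc := fun i j => (vEP i j).1
  have vE0 := fun i j => (vEP i j).2.1
  have vE1 := fun i j => (vEP i j).2.2.1
  have vEd := fun i j => (vEP i j).2.2.2
  -- faces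
  have hfa : ∀ i j : ℤ, ∃ F : unitInterval × unitInterval → X, Continuous F ∧
      (∀ s, F (s, 0) = hE i j s) ∧ (∀ s, F (s, 1) = hE i (j + 1) s) ∧
      (∀ s, F (0, s) = vE i j s) ∧ (∀ s, F (1, s) = vE (i + 1) j s) ∧
      ∀ p, dist (q (F p)) (q (v i j)) < ε₀ / 4 := by
    intro i j
    exact face hFIL L2 (v i j) (hE i j) (hE i (j + 1))
        (vE i j) (vE (i + 1) j) (hEc _ _) (hEc _ _) (vEc _ _) (vEc _ _)
        (by rw [vE0, hE0]) (by rw [vE0, hE1]) (by rw [vE1, hE0]) (by rw [vE1, hE1])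
        (fun s => by have := hEd i j s; linarith)
        (fun s => by
          have h1 := hEd i (j + 1) s
          have h2 := hstep i (j + 1) i j (a0 i) (a1' j)
          have h3 := dist_triangle (q (hE i (j + 1) s)) (q (v i (j + 1))) (q (v i j))
          linarith)
        (fun s => by have := vEd i j s; linarith)
        (fun s => by
          have h1 := vEd (i + 1) j s
          have h2 := hstep (i + 1) j i j (a1' i) (a0 j)
          have h3 := dist_triangle (q (vE (i + 1) j s)) (q (v (i + 1) j)) (q (v i j))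
          linarith)
  obtain ⟨F, hFP, hFp⟩ := perChoose K (fun i j (F : unitInterval × unitInterval → X) =>
      Continuous F ∧
      (∀ s, F (s, 0) = hE i j s) ∧ (∀ s, F (s, 1) = hE i (j + 1) s) ∧
      (∀ s, F (0, s) = vE i j s) ∧ (∀ s, F (1, s) = vE (i + 1) j s) ∧
      ∀ p, dist (q (F p)) (q (v i j)) < ε₀ / 4)
    (by
      intro i j a b x hx
      rwa [hs1, hs1, hEp, hEp, vEp, vEp, hvp] at hx)
    hfa
  have hFc := fun i j => (hFP i j).1
  have hF1 := fun i j => (hFP i j).2.1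
  have hF2 := fun i j => (hFP i j).2.2.1
  have hF3 := fun i j => (hFP i j).2.2.2.1
  have hF4 := fun i j => (hFP i j).2.2.2.2.1
  have hFd := fun i j => (hFP i j).2.2.2.2.2
  obtain ⟨σ, hσ, hσF⟩ := hGRD X h hh F hFc (fun i j x => by rw [hF1, hF2])
    (fun i j y => by rw [hF3, hF4])
  have hform : ∀ (z : ℂ) (i j : ℤ) (x y : unitInterval), z.re / h = i + x → z.im / h = j + y →
      σ z = F i j (x, y) := by
    intro z i j x y hx hy
    rw [← hσF]
    congr 1
    rw [← hx, ← hy, div_mul_cancel₀ _ hh.ne', div_mul_cancel₀ _ hh.ne']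
    exact (Complex.re_add_im z).symm
  have hco : ∀ z : ℂ, ∃ (i j : ℤ) (x y : unitInterval), z.re / h = i + x ∧
      z.im / h = j + y := by
    intro z
    exact ⟨⌊z.re / h⌋, ⌊z.im / h⌋, ⟨Int.fract (z.re / h), Int.fract_nonneg _,
      (Int.fract_lt_one _).le⟩, ⟨Int.fract (z.im / h), Int.fract_nonneg _,
      (Int.fract_lt_one _).le⟩, (Int.floor_add_fract _).symm, (Int.floor_add_fract _).symm⟩
  have h1h : 1 / h = (K : ℝ) := by
    rw [div_eq_iff hh.ne']
    exact hKh.symm
  have hσ1 : ∀ z, σ (z + 1) = σ z := by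
    intro z
    obtain ⟨i, j, x, y, hx, hy⟩ := hco z
    rw [hform z i j x y hx hy]
    have e := hFp i j 1 0
    rw [zero_mul, add_zero, one_mul] at e
    rw [← e]
    apply hform
    · rw [Complex.add_re, Complex.one_re, add_div, hx, h1h]
      push_cast
      ring
    · rw [Complex.add_im, Complex.one_im, add_zero, hy]
  have hσI : ∀ z, σ (z + Complex.I) = σ z := by
    intro z
    obtain ⟨i, j, x, y, hx, hy⟩ := hco z
    rw [hform z i j x y hx hy]
    have e := hFp i j 0 1
    rw [zero_mul, add_zero, one_mul] at e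
    rw [← e]
    apply hform
    · rw [Complex.add_re, Complex.I_re, add_zero, hx]
    · rw [Complex.add_im, Complex.I_im, add_div, hy, h1h]
      push_cast
      ring
  have hlc : Continuous (ell τ) := by
    unfold ell
    fun_prop
  refine ⟨fun z => σ (ell τ z), hσ.comp hlc, fun z => ?_, fun z => ?_, fun t => ?_⟩
  · simp only
    rw [ell_one, hσ1]
  · simp only
    rw [ell_tau τ z hτ, hσI]
  · simp only
    have ht : D t = D' (ell τ t) := (pb_ell τ D hτ t).symm
    rw [ht]
    generalize ell τ t = z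
    obtain ⟨i, j, x, y, hx, hy⟩ := hco z
    rw [hform z i j x y hx hy]
    have h1 := hFd i j (x, y)
    have h2 := hv i j
    have h3 : dist (D' (gp h i j)) (D' z) < lam1 / 8 := by
      apply hmod
      refine lt_of_le_of_lt (norm_le _ h h ?_ ?_) (by linarith)
      · rw [Complex.sub_re, gp_re]
        rw [div_eq_iff hh.ne'] at hx
        rw [hx, ← sub_mul, abs_mul, abs_of_pos hh]
        have : |(i : ℝ) - (i + (x : ℝ))| ≤ 1 := by
          rw [abs_le]; constructor <;> linarith [x.2.1, x.2.2]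
        calc |(i : ℝ) - (i + (x : ℝ))| * h ≤ 1 * h := mul_le_mul_of_nonneg_right this hh.le
          _ = h := one_mul h
      · rw [Complex.sub_im, gp_im]
        rw [div_eq_iff hh.ne'] at hy
        rw [hy, ← sub_mul, abs_mul, abs_of_pos hh]
        have : |(j : ℝ) - (j + (y : ℝ))| ≤ 1 := by
          rw [abs_le]; constructor <;> linarith [y.2.1, y.2.2]
        calc |(j : ℝ) - (j + (y : ℝ))| * h ≤ 1 * h := mul_le_mul_of_nonneg_right this hh.le
          _ = h := one_mul h
    have h4 := dist_triangle4 (q (F i j (x, y))) (q (v i j)) (D' (gp h i j)) (D' z)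
    linarith

end Pool.Agent.ARC
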