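import Pool.Agent.ARC.Targets2

set_option autoImplicit false

/-!
# ARC: the target T_LOG (winding number and logarithm on a circle)
-/

noncomputable section

open Filter Topology Set Complex

namespace Pool.Agent.ARC

namespace LOG_

theorem log_lift {g : ℝ → ℂ} (hg : Continuous g) (h0 : ∀ x, g x ≠ 0) :
    ∃ L : ℝ → ℂ, Continuous L ∧ ∀ x, cexp (L x) = g x := by
  have hs : IsSimplyConnected (univ : Set ℝ) := by
    have : ContractibleSpace (univ : Set ℝ) :=
      (convex_univ : Convex ℝ (univ : Set ℝ)).contractibleSpace ⟨0, mem_univ _⟩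
    exact SimplyConnectedSpace.ofContractible _
  obtain ⟨f, hf, he⟩ := Complex.exists_continuousOn_eqOn_exp_comp hs isOpen_univ
    hg.continuousOn (by rintro ⟨x, _, hx⟩; exact h0 x hx)
  exact ⟨f, continuousOn_univ.1 hf, fun x => he (mem_univ x)⟩

/-- a continuous function with constant exponential is constant -/
theorem const_of_exp {f : ℝ → ℂ} (hf : Continuous f) {c : ℂ} (h : ∀ x, cexp (f x) = c)
    (x y : ℝ) : f x = f y := by
  have key : ∀ x, ∃ n : ℤ, f x = f y + n * (2 * Real.pi * I) := by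
    intro x
    exact Complex.exp_eq_exp_iff_exists_int.1 ((h x).trans (h y).symm)
  choose n hn using key
  have hnc : Continuous fun x => ((n x : ℤ) : ℝ) := by
    have : (fun x => ((n x : ℤ) : ℝ)) = fun x => ((f x - f y) / (2 * Real.pi * I)).re := by
      funext x
      rw [hn x]
      have hpi : (2 * (Real.pi : ℂ) * I) ≠ 0 := Complex.two_pi_I_ne_zero
      rw [add_sub_cancel_left, mul_div_assoc, div_self hpi, mul_one, Complex.intCast_re]
    rw [this]
    fun_prop
  have hnc' : Continuous n := by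
    rw [Int.isClosedEmbedding_coe_real.isInducing.continuous_iff]
    exact hnc
  have hcn : n x = n y := PreconnectedSpace.constant inferInstance hnc'
  have h1 := hn x
  have h2 := hn y
  rw [hcn] at h1
  rw [h1]
  exact h2.symm

/-- the coordinate of the circle -/
theorem circ_norm (R : ℝ) (hR : 0 < R) (t : ℝ) : ‖(R : ℂ) * cexp (t * I)‖ = R := by
  rw [norm_mul, Complex.norm_exp_ofReal_mul_I, mul_one, Complex.norm_real, Real.norm_eq_abs,
    abs_of_pos hR]

/-- gluing of a periodic function along the argument -/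
theorem glue_arg (lam : ℝ → ℂ) (hc : Continuous lam) (hp : ∀ t, lam (t + 2 * Real.pi) = lam t)
    (R : ℝ) (hR : 0 < R) : Continuous fun z : ℂ => ((‖z‖ / R : ℝ) : ℂ) * lam (arg z) := by
  have hper : Function.Periodic lam (2 * Real.pi) := hp
  have hlc : Continuous (hper.lift) := by
    exact continuous_quot_lift _ hc
  have hcomp : ∀ z : ℂ, lam (arg z) = hper.lift ((arg z : ℝ) : Real.Angle) := by
    intro z
    exact (hper.lift_coe (arg z)).symm
  rw [continuous_iff_continuousAt]
  intro z
  by_cases hz : z = 0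
  · subst hz
    obtain ⟨C, hC⟩ := (isCompact_Icc (a := -Real.pi) (b := Real.pi)).exists_bound_of_continuousOn
      hc.continuousOn
    have h0 : ((‖(0 : ℂ)‖ / R : ℝ) : ℂ) * lam (arg 0) = 0 := by simp
    rw [ContinuousAt, h0]
    have hb : ∀ w : ℂ, ‖((‖w‖ / R : ℝ) : ℂ) * lam (arg w)‖ ≤ ‖w‖ / R * C := by
      intro w
      rw [norm_mul, Complex.norm_real, Real.norm_eq_abs,
        abs_of_nonneg (div_nonneg (norm_nonneg w) hR.le)]
      refine mul_le_mul_of_nonneg_left ?_ (div_nonneg (norm_nonneg w) hR.le)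
      exact hC _ ⟨(Complex.neg_pi_lt_arg w).le, Complex.arg_le_pi w⟩
    refine squeeze_zero_norm hb ?_
    have h1 : Continuous fun w : ℂ => ‖w‖ / R * C := by fun_prop
    have h2 := h1.tendsto 0
    simpa using h2
  · have h1 : ContinuousAt (fun z : ℂ => ((‖z‖ / R : ℝ) : ℂ)) z := by
      have : Continuous fun z : ℂ => ((‖z‖ / R : ℝ) : ℂ) := by fun_prop
      exact this.continuousAt
    have h2 : ContinuousAt (fun z : ℂ => lam (arg z)) z := by
      have h3 : (fun z : ℂ => lam (arg z)) = hper.lift ∘ ((↑) ∘ arg : ℂ → Real.Angle) := by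
        funext w
        exact hcomp w
      rw [h3]
      exact hlc.continuousAt.comp (Complex.continuousAt_arg_coe_angle hz)
    exact h1.mul h2

end LOG_

open LOG_ in
theorem p_LOG : T_LOG := by
  intro θ R hR hθ h0
  have hgc : Continuous fun t : ℝ => θ ((R : ℂ) * cexp (t * I)) := by
    exact hθ.comp (by fun_prop)
  obtain ⟨L, hLc, hL⟩ := log_lift hgc (fun t => h0 _ (circ_norm R hR t))
  have hper : ∀ t : ℝ, cexp (((t + 2 * Real.pi : ℝ) : ℂ) * I) = cexp ((t : ℂ) * I) := by
    intro t
    push_cast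
    rw [add_mul, Complex.exp_add, Complex.exp_two_pi_mul_I, mul_one]
  have hconst : ∀ t : ℝ, L (t + 2 * Real.pi) - L t = L (0 + 2 * Real.pi) - L 0 := by
    intro t
    refine const_of_exp (f := fun t : ℝ => L (t + 2 * Real.pi) - L t) (c := 1)
      (by fun_prop) ?_ t 0
    intro s
    rw [Complex.exp_sub, hL, hL, hper s]
    exact div_self (h0 _ (circ_norm R hR s))
  have hd : ∃ d : ℤ, L (0 + 2 * Real.pi) - L 0 = d * (2 * Real.pi * I) := by
    have h1 : cexp (L (0 + 2 * Real.pi) - L 0) = 1 := by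
      rw [Complex.exp_sub, hL, hL, hper 0]
      exact div_self (h0 _ (circ_norm R hR 0))
    obtain ⟨n, hn⟩ := Complex.exp_eq_one_iff.1 h1
    exact ⟨n, hn⟩
  obtain ⟨d, hd⟩ := hd
  have hlamc : Continuous fun t : ℝ => L t - I * d * t := by fun_prop
  have hlamp : ∀ t : ℝ, (fun t : ℝ => L t - I * d * t) (t + 2 * Real.pi) =
      (fun t : ℝ => L t - I * d * t) t := by
    intro t
    have h1 := hconst t
    rw [hd] at h1
    simp only
    push_cast
    linear_combination h1
  refine ⟨d, _, LOG_.glue_arg (fun t : ℝ => L t - I * d * t) hlamc hlamp R hR, ?_⟩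
  intro z hz
  have hR' : (R : ℂ) ≠ 0 := by
    exact_mod_cast hR.ne'
  have h1 : (R : ℂ) * cexp ((arg z : ℂ) * I) = z := by
    rw [← hz]
    exact Complex.norm_mul_exp_arg_mul_I z
  have h2 : z / R = cexp ((arg z : ℂ) * I) := by
    rw [div_eq_iff hR', mul_comm]
    exact h1.symm
  have h3 : ((‖z‖ / R : ℝ) : ℂ) = 1 := by
    rw [hz, div_self hR.ne', Complex.ofReal_one]
  have h4 := hL (arg z)
  rw [h1] at h4
  rw [h2, ← Complex.exp_int_mul, ← Complex.exp_add, h3, one_mul, ← h4]
  congr 1
  ring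

end Pool.Agent.ARC
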