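import Pool.Agent.ARC.Targets3

set_option autoImplicit false

/-!
# ARC: MAI, the main theorem for open maps with the factorisation property
-/

open Filter Topology

namespace Pool.Agent.ARC

theorem p_MAI (h_TYP : T_TYP) (h_T12 : T_T12) (h_TY1 : T_TY1) (h_SWP : T_SWP) (h_JRC : T_JRC) :
    T_MAI := by
  intro a b c d X Y φ hX hXc hφ hφX hopen hfac hne hch hsc hY m n j hj
  have hopen' : ∀ U : Set (PP a b), IsOpen U →
      ∃ V : Set (PP c d), IsOpen V ∧ φ '' (X ∩ U) = φ '' X ∩ V := by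
    intro U hU
    obtain ⟨V, hV, h⟩ := hopen U hU
    exact ⟨V, hV, by rw [hφX]; exact h⟩
  have hs := h_SWP a b m n X j
  rcases h_TYP a b c d m n X φ j hX hXc hφ hopen' hch hj.1 with h1 | h1
  · exact h_TY1 a b c d m n X Y φ j hX hφ hφX hne hch hfac hsc hj h1 hY
  rcases h_TYP a b c d n m X φ (fun x => (j x).swap) hX hXc hφ hopen' hch (hs.1 hj.1) with h2 | h2
  · exact hs.2.2.2 (h_TY1 a b c d n m X Y φ (fun x => (j x).swap) hX hφ hφX hne hch hfac hsc
      (hs.2.1 hj) h2 hY)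
  · intro U hU hjU x hx y hy hxy
    obtain ⟨x₁, hx₁, rfl⟩ := hx
    obtain ⟨x₂, hx₂, rfl⟩ := hy
    exact h_JRC m n U _ _ (h_T12 a b c d m n X φ j U hXc hj.1 hU hjU hch h2 h1 x₁ hx₁ x₂ hx₂) hxy

end Pool.Agent.ARC
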