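import Pool.Agent.ARC.Targets3

set_option autoImplicit false

/-!
# ARC: target `T_MET`
-/

noncomputable section

namespace Pool.Agent.ARC

namespace MET_

/-- The index set of the two projection matrices. -/
abbrev Idx (a b : ℕ) : Type := (Fin (a + 1) × Fin (a + 1)) ⊕ (Fin (b + 1) × Fin (b + 1))

/-- The two projection matrices as one function. -/
def pair {a b : ℕ} (x : PP a b) (i : Idx a b) : ℂ :=
  Sum.elim (fun u => prj x.1 u.1 u.2) (fun u => prj x.2 u.1 u.2) i

theorem pair_inj {a b : ℕ} (h_PRJ : T_PRJ) (x y : PP a b) (h : pair x = pair y) : x = y := by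
  have h1 : prj x.1 = prj y.1 := by
    funext i k
    exact congrFun h (Sum.inl (i, k))
  have h2 : prj x.2 = prj y.2 := by
    funext i k
    exact congrFun h (Sum.inr (i, k))
  exact Prod.ext ((h_PRJ a a).2.1 _ _ h1) ((h_PRJ b b).2.1 _ _ h2)

theorem pair_cont {a b : ℕ} (h_PRJ : T_PRJ) (i : Idx a b) :
    Continuous fun x : PP a b => pair x i := by
  obtain ⟨-, -, h3, h4, -⟩ := h_PRJ a b
  rcases i with u | u
  · exact (continuous_apply u.2).comp ((continuous_apply u.1).comp h3)
  · exact (continuous_apply u.2).comp ((continuous_apply u.1).comp h4)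

end MET_

/-- MET. An injective continuous map to a space of complex vectors. -/
theorem p_MET (h_PRJ : T_PRJ) : T_MET := by
  intro a b
  refine ⟨Fintype.card (MET_.Idx a b),
    fun x m => MET_.pair x ((Fintype.equivFin (MET_.Idx a b)).symm m), ?_, ?_⟩
  · exact continuous_pi fun m => MET_.pair_cont h_PRJ _
  · intro x y h
    apply MET_.pair_inj h_PRJ
    funext i
    have h2 := congrFun h (Fintype.equivFin (MET_.Idx a b) i)
    simpa using h2

end Pool.Agent.ARC
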