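import Pool.Agent.ARC.Targets

set_option autoImplicit false

/-!
# ARC-MIX: exchange of components is continuous
-/

noncomputable section

open Filter Topology

namespace Pool.Agent.ARC

theorem p_MIX (h_CAT : T_CAT) (h_CHT : T_CHT) : T_MIX := by
  intro a b c d
  rw [continuous_iff_continuousAt]
  intro z₀
  obtain ⟨i₁, j₁, N₁, f₁, g₁, hN₁, hz₁, -, hrep₁, hf₁, hg₁⟩ := h_CHT a b z₀.1
  obtain ⟨i₂, j₂, N₂, f₂, g₂, hN₂, hz₂, -, hrep₂, hf₂, hg₂⟩ := h_CHT c d z₀.2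
  have c₁ : ContinuousAt f₁ z₀.1 := hf₁.continuousAt (hN₁.mem_nhds hz₁)
  have c₂ : ContinuousAt g₂ z₀.2 := hg₂.continuousAt (hN₂.mem_nhds hz₂)
  have t₁ : Tendsto (fun z : PP a b × PP c d => f₁ z.1) (𝓝 z₀) (𝓝 (f₁ z₀.1)) :=
    c₁.tendsto.comp continuous_fst.continuousAt.tendsto
  have t₂ : Tendsto (fun z : PP a b × PP c d => g₂ z.2) (𝓝 z₀) (𝓝 (g₂ z₀.2)) :=
    c₂.tendsto.comp continuous_snd.continuousAt.tendsto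
  refine h_CAT a d (PP a b × PP c d) (𝓝 z₀) (fun z => (z.1.1, z.2.2)) (z₀.1.1, z₀.2.2)
    (fun z => f₁ z.1) (fun z => g₂ z.2) (f₁ z₀.1) (g₂ z₀.2) t₁ t₂
    (hrep₁ z₀.1 hz₁).1 (hrep₂ z₀.2 hz₂).2.1 ?_
  have e₁ : ∀ᶠ z : PP a b × PP c d in 𝓝 z₀, z.1 ∈ N₁ :=
    continuous_fst.continuousAt.eventually (hN₁.mem_nhds hz₁)
  have e₂ : ∀ᶠ z : PP a b × PP c d in 𝓝 z₀, z.2 ∈ N₂ :=
    continuous_snd.continuousAt.eventually (hN₂.mem_nhds hz₂)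
  filter_upwards [e₁, e₂] with z h1 h2
  exact ⟨(hrep₁ z.1 h1).1, (hrep₂ z.2 h2).2.1⟩

end Pool.Agent.ARC
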