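import Pool.Agent.ARC.Targets5

set_option autoImplicit false

noncomputable section

open Filter Topology

namespace Pool.Agent.ARC

theorem MTX_card (b : ℕ) :
    Fintype.card (Fin (b * b + 2 * b + 1)) = Fintype.card (Fin (b + 1) × Fin (b + 1)) := by
  simp only [Fintype.card_fin, Fintype.card_prod]
  ring

/-- The numbering of the entries of a matrix. -/
def MTX_E (b : ℕ) : Fin (b * b + 2 * b + 1) ≃ Fin (b + 1) × Fin (b + 1) :=
  Fintype.equivOfCardEq (MTX_card b)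

/-- The entries of the projection matrix as a vector. -/
def MTX_Φ {b : ℕ} (y : Projectivization ℂ (Vec b)) : Vec (b * b + 2 * b) :=
  fun k => prj y (MTX_E b k).1 (MTX_E b k).2

/-- The set of the pairs such that some column gives a point of the cone. -/
def MTX_O {a b : ℕ} (U : Set (PP a b)) : Set (Vec a × Vec (b * b + 2 * b)) :=
  {z | ∃ l : Fin (b + 1), (z.1, fun i => z.2 ((MTX_E b).symm (i, l))) ∈ cone U}

theorem MTX_open {a b : ℕ} (U : Set (PP a b)) (hU : IsOpenP U) : IsOpen (MTX_O U) := by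
  have : MTX_O U = ⋃ l : Fin (b + 1),
      (fun z : Vec a × Vec (b * b + 2 * b) =>
        ((z.1, fun i => z.2 ((MTX_E b).symm (i, l))) : Vec a × Vec b)) ⁻¹' cone U := by
    ext z
    simp [MTX_O]
  rw [this]
  refine isOpen_iUnion fun l => IsOpen.preimage ?_ hU
  refine continuous_fst.prodMk (continuous_pi fun i => ?_)
  exact (continuous_apply _).comp continuous_snd

theorem MTX_conic (h_CNC : T_CNC) {a b : ℕ} (U : Set (PP a b)) : Conic (MTX_O U) := by
  rintro x y v w hx hy ⟨l, hl⟩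
  exact ⟨l, (h_CNC a b U).1 x y _ _ hx hy hl⟩

theorem MTX_sum {b : ℕ} (w : Vec b) (hw : w ≠ 0) :
    ∑ l, w l * (starRingEnd ℂ) (w l) ≠ 0 := by
  have h : ∑ l, w l * (starRingEnd ℂ) (w l) = ((∑ l, ‖w l‖ ^ 2 : ℝ) : ℂ) := by
    push_cast
    refine Finset.sum_congr rfl fun l _ => ?_
    rw [Complex.mul_conj, Complex.normSq_eq_norm_sq]
    push_cast
    rfl
  rw [h]
  have : 0 < ∑ l, ‖w l‖ ^ 2 := by
    obtain ⟨i, hi⟩ := Function.ne_iff.1 hw
    refine Finset.sum_pos' (fun _ _ => by positivity) ⟨i, Finset.mem_univ _, ?_⟩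
    have : 0 < ‖w i‖ := norm_pos_iff.2 hi
    positivity
  exact_mod_cast this.ne'

theorem MTX_key (h_PRJ : T_PRJ) (h_CNC : T_CNC) {a b : ℕ} (U : Set (PP a b)) (v : Vec a)
    (y : Projectivization ℂ (Vec b)) (w : Vec b) (hw : Is w y) :
    (v, MTX_Φ y) ∈ MTX_O U ↔ (v, w) ∈ cone U := by
  have hw0 : w ≠ 0 := by
    obtain ⟨h, -⟩ := hw
    exact h
  have hS := MTX_sum w hw0
  have hcol : ∀ l : Fin (b + 1), (fun i => MTX_Φ y ((MTX_E b).symm (i, l))) =
      ((starRingEnd ℂ) (w l) / ∑ l, w l * (starRingEnd ℂ) (w l)) • w := by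
    intro l
    funext i
    simp only [MTX_Φ, Equiv.apply_symm_apply, Pi.smul_apply, smul_eq_mul]
    rw [(h_PRJ b b).1 y w hw i l]
    ring
  constructor
  · rintro ⟨l, hl⟩
    simp only at hl
    rw [hcol l] at hl
    have hc : ((starRingEnd ℂ) (w l) / ∑ l, w l * (starRingEnd ℂ) (w l)) ≠ 0 := by
      intro h0
      have := ((h_CNC a b U).2.2 _ _ hl).2
      rw [h0, zero_smul] at this
      exact this rfl
    have := (h_CNC a b U).1 1 _ _ _ one_ne_zero (inv_ne_zero hc) hl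
    rw [one_smul, smul_smul, inv_mul_cancel₀ hc, one_smul] at this
    exact this
  · intro h
    obtain ⟨l, hl⟩ := Function.ne_iff.1 hw0
    refine ⟨l, ?_⟩
    simp only
    rw [hcol l]
    have hc : ((starRingEnd ℂ) (w l) / ∑ l, w l * (starRingEnd ℂ) (w l)) ≠ 0 := by
      refine div_ne_zero ?_ hS
      simpa using hl
    have := (h_CNC a b U).1 1 _ _ _ one_ne_zero hc h
    rwa [one_smul] at this

theorem MTX_cone {a b : ℕ} (U : Set (PP a b)) (v : Vec a)
    (y : Projectivization ℂ (Vec b)) (w : Vec b) (hw : Is w y) :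
    (v, w) ∈ cone U ↔ ∃ x ∈ U, Is v x.1 ∧ x.2 = y := by
  constructor
  · rintro ⟨x, hx, h1, h2⟩
    exact ⟨x, hx, h1, is_unique h2 hw⟩
  · rintro ⟨x, hx, h1, rfl⟩
    exact ⟨x, hx, h1, hw⟩

theorem p_MTX (h_PRJ : T_PRJ) (h_CNC : T_CNC) (h_ISB : T_ISB) (h_SHO : T_SHO) : T_MTX := by
  intro a b U hU
  refine ⟨b * b + 2 * b, MTX_O U, MTX_Φ, MTX_open U hU, MTX_conic h_CNC U, ?_, ?_, ?_⟩
  · have := (h_PRJ a b).2.2.2.1
    refine continuous_pi fun k => ?_
    exact (continuous_apply _).comp ((continuous_apply _).comp this)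
  · intro v y
    obtain ⟨w, hw⟩ := (h_ISB b).1 y
    rw [MTX_key h_PRJ h_CNC U v y w hw, MTX_cone U v y w hw]
  · intro v y
    obtain ⟨w, hw⟩ := (h_ISB b).1 y
    rw [← MTX_cone (Sharp U) v y w hw, (h_SHO a b U hU).2.1]
    constructor
    · rintro ⟨m, A, hm, hA, h⟩
      exact ⟨m, A, hm, hA, fun s t hst => (MTX_key h_PRJ h_CNC U _ y w hw).1 (h s t hst)⟩
    · rintro ⟨m, A, hm, hA, h⟩
      exact ⟨m, A, hm, hA, fun s t hst => (MTX_key h_PRJ h_CNC U _ y w hw).2 (h s t hst)⟩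

end Pool.Agent.ARC
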