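import Pool.Agent.ARC.Targets

set_option autoImplicit false

/-!
# ARC: MVP, homogeneous polynomials in two variables are binary forms
-/

namespace Pool.Agent.ARC

namespace MVP_

theorem ev (Q : MvPolynomial (Fin 2) ℂ) (s t : ℂ) :
    MvPolynomial.eval ![s, t] Q = ∑ m ∈ Q.support, Q.coeff m * (s ^ m 0 * t ^ m 1) := by
  rw [MvPolynomial.eval_eq']
  apply Finset.sum_congr rfl
  intro m _
  rw [Fin.prod_univ_two]
  rfl

/-- The exponent. -/
noncomputable def ex (N i : ℕ) : Fin 2 →₀ ℕ := Finsupp.single 0 i + Finsupp.single 1 (N - i)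

theorem ex0 (N i : ℕ) : ex N i 0 = i := by simp [ex]
theorem ex1 (N i : ℕ) : ex N i 1 = N - i := by simp [ex]

theorem ex_inj (N : ℕ) : Function.Injective (ex N) := by
  intro i j h
  have h1 := congrArg (fun m : Fin 2 →₀ ℕ => m 0) h
  simpa only [ex0] using h1

theorem eq_ex {N : ℕ} {m : Fin 2 →₀ ℕ} (h : m 0 + m 1 = N) : ex N (m 0) = m := by
  ext i
  fin_cases i
  · exact ex0 N (m 0)
  · show ex N (m 0) 1 = m 1
    rw [ex1]
    omega

theorem top (N : ℕ) (Q : MvPolynomial (Fin 2) ℂ)
    (h : ∀ r s t : ℂ, MvPolynomial.eval ![r * s, r * t] Q =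
      r ^ N * MvPolynomial.eval ![s, t] Q) (s t : ℂ) :
    MvPolynomial.eval ![s, t] Q =
      ∑ m ∈ Q.support.filter (fun m => m 0 + m 1 = N), Q.coeff m * (s ^ m 0 * t ^ m 1) := by
  have h1 : (∑ m ∈ Q.support, Polynomial.monomial (m 0 + m 1)
      (Q.coeff m * (s ^ m 0 * t ^ m 1)) : Polynomial ℂ) =
      Polynomial.monomial N (MvPolynomial.eval ![s, t] Q) := by
    apply Polynomial.funext
    intro r
    rw [Polynomial.eval_finset_sum, Polynomial.eval_monomial, mul_comm, ← h, ev]
    apply Finset.sum_congr rfl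
    intro m _
    rw [Polynomial.eval_monomial]
    ring
  have h2 := congrArg (fun P : Polynomial ℂ => P.coeff N) h1
  simp only [Polynomial.finset_sum_coeff, Polynomial.coeff_monomial, if_true] at h2
  rw [← h2, Finset.sum_filter]

end MVP_

open MVP_ in
theorem p_MVP : T_MVP := by
  classical
  intro N Q h
  refine ⟨fun i => Q.coeff (ex N i), ?_⟩
  intro s t
  rw [top N Q h s t]
  unfold form
  have h1 : ∑ i ∈ Finset.range (N + 1), Q.coeff (ex N i) * s ^ i * t ^ (N - i) =
      ∑ m ∈ (Finset.range (N + 1)).image (ex N), Q.coeff m * (s ^ m 0 * t ^ m 1) := by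
    rw [Finset.sum_image (fun x _ y _ hxy => ex_inj N hxy)]
    apply Finset.sum_congr rfl
    intro i _
    rw [ex0, ex1]
    ring
  rw [h1]
  apply Finset.sum_subset
  · intro m hm
    rw [Finset.mem_filter] at hm
    rw [Finset.mem_image]
    refine ⟨m 0, ?_, eq_ex hm.2⟩
    rw [Finset.mem_range]
    omega
  · intro m hm hm'
    rw [Finset.mem_image] at hm
    obtain ⟨i, hi, rfl⟩ := hm
    rw [Finset.mem_range] at hi
    have h2 : ex N i ∉ Q.support := by
      intro h3
      apply hm'
      rw [Finset.mem_filter, ex0, ex1]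
      exact ⟨h3, by omega⟩
    rw [MvPolynomial.notMem_support_iff] at h2
    rw [h2, zero_mul]

end Pool.Agent.ARC
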