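import Pool.Agent.ARC.Targets5
import Pool.Agent.ARC.P_LIF

set_option autoImplicit false

/-!
# ARC: the target T_NOD
-/

noncomputable section

open Filter Topology

namespace Pool.Agent.ARC

/-- NOD. -/
theorem p_NOD : T_NOD := by
  intro X E _ _ _ q hq H ε₀ hε₀
  obtain ⟨lam, hlam, L⟩ := LIF_.leb q hq H ε₀ hε₀
  refine ⟨lam, hlam, fun x x' hd => ?_⟩
  obtain ⟨γ, hγ, g0, g1, gd⟩ := LIF_.edge L hlam x x' (by rw [dist_comm]; exact hd)
  exact ⟨⟨⟨γ, hγ⟩, g0, g1⟩, gd⟩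

end Pool.Agent.ARC
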