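import Pool.Agent.ARC.Targets

set_option autoImplicit false

/-!
# ARC: a morphism from the projective line through two distinct points joins them (T_NRM)
-/

noncomputable section

open Filter Topology

namespace Pool.Agent.ARC

namespace NRM_

/-- Scaling of the arguments of a vector of forms. -/
theorem vform_smul (hF : T_FRM) {a : ℕ} (p : ℕ) (A : Fin (a + 1) → ℕ → ℂ) (r s t : ℂ) :
    vform p A (r * s) (r * t) = r ^ p • vform p A s t := by
  funext i
  simp only [vform, Pi.smul_apply, smul_eq_mul]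
  exact hF.1 p (A i) r s t

/-- If the determinant vanishes then the second pair is a multiple of the first one. -/
theorem exists_mul {s₁ t₁ s₂ t₂ : ℂ} (h1 : (s₁, t₁) ≠ (0, 0)) (h2 : (s₂, t₂) ≠ (0, 0))
    (h : s₁ * t₂ = s₂ * t₁) : ∃ r : ℂ, r ≠ 0 ∧ s₂ = r * s₁ ∧ t₂ = r * t₁ := by
  by_cases hs : s₁ = 0
  · have ht : t₁ ≠ 0 := by
      intro ht
      exact h1 (by rw [hs, ht])
    have hs2 : s₂ = 0 := by
      rw [hs, zero_mul] at h
      rcases mul_eq_zero.1 h.symm with h' | h'
      · exact h'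
      · exact absurd h' ht
    refine ⟨t₂ / t₁, ?_, ?_, ?_⟩
    · intro h0
      rcases div_eq_zero_iff.1 h0 with h' | h'
      · exact h2 (by rw [hs2, h'])
      · exact ht h'
    · rw [hs2, hs, mul_zero]
    · rw [div_mul_cancel₀ _ ht]
  · refine ⟨s₂ / s₁, ?_, ?_, ?_⟩
    · intro h0
      rcases div_eq_zero_iff.1 h0 with h' | h'
      · rw [h', zero_mul] at h
        rcases mul_eq_zero.1 h with h'' | h''
        · exact hs h''
        · exact h2 (by rw [h', h''])
      · exact hs h'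
    · rw [div_mul_cancel₀ _ hs]
    · rw [div_mul_eq_mul_div, eq_div_iff hs]
      linear_combination h

/-- Proportional parameters represent the same point. -/
theorem same (hF : T_FRM) (hI : T_ISB) {a : ℕ} (p : ℕ) (A : Fin (a + 1) → ℕ → ℂ)
    {x y : Projectivization ℂ (Vec a)} {s₁ t₁ s₂ t₂ r : ℂ} (hr : r ≠ 0) (hs : s₂ = r * s₁)
    (ht : t₂ = r * t₁) (h1 : Is (vform p A s₁ t₁) x) (h2 : Is (vform p A s₂ t₂) y) : x = y := by
  rw [hs, ht, vform_smul hF] at h2
  exact is_unique ((hI a).2.2.2.1 _ _ _ (pow_ne_zero p hr) h1) h2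

end NRM_

open NRM_ in
/-- A morphism from the projective line into `U` through two distinct points joins them. -/
theorem p_NRM (h_LIN : T_LIN) (h_FRM : T_FRM) (h_ISB : T_ISB) : T_NRM := by
  intro a b p q U A B x y s₁ t₁ s₂ t₂ hU h1 h2 hx1 hx2 hy1 hy2 hxy
  have hdet : s₁ * t₂ ≠ s₂ * t₁ := by
    intro h
    obtain ⟨r, hr, hs, ht⟩ := exists_mul h1 h2 h
    exact hxy (Prod.ext (same h_FRM h_ISB p A hr hs ht hx1 hy1)
      (same h_FRM h_ISB q B hr hs ht hx2 hy2))
  choose A' hA' using fun i => h_LIN p (A i) s₂ s₁ t₂ t₁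
  choose B' hB' using fun i => h_LIN q (B i) s₂ s₁ t₂ t₁
  have eA : ∀ s t : ℂ, vform p A' s t = vform p A (s₂ * s + s₁ * t) (t₂ * s + t₁ * t) := by
    intro s t
    funext i
    exact (hA' i s t).symm
  have eB : ∀ s t : ℂ, vform q B' s t = vform q B (s₂ * s + s₁ * t) (t₂ * s + t₁ * t) := by
    intro s t
    funext i
    exact (hB' i s t).symm
  refine ⟨A', B', ?_, ?_, ?_, ?_, ?_⟩
  · intro s t hst
    rw [eA, eB]
    apply hU
    intro h0
    have e1 : s₂ * s + s₁ * t = 0 := congrArg Prod.fst h0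
    have e2 : t₂ * s + t₁ * t = 0 := congrArg Prod.snd h0
    have d1 : (s₁ * t₂ - s₂ * t₁) * s = 0 := by linear_combination s₁ * e2 - t₁ * e1
    have d2 : (s₁ * t₂ - s₂ * t₁) * t = 0 := by linear_combination t₂ * e1 - s₂ * e2
    have hd : s₁ * t₂ - s₂ * t₁ ≠ 0 := sub_ne_zero.2 hdet
    have hs : s = 0 := (mul_eq_zero.1 d1).resolve_left hd
    have ht : t = 0 := (mul_eq_zero.1 d2).resolve_left hd
    exact hst (by rw [hs, ht])
  · rw [eA]
    simpa using hx1
  · rw [eB]
    simpa using hx2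
  · rw [eA]
    simpa using hy1
  · rw [eB]
    simpa using hy2

end Pool.Agent.ARC
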