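import Pool.Agent.ARC.Targets

set_option autoImplicit false

/-!
# ARC: a binary form without zeros is a constant
-/

namespace Pool.Agent.ARC

/-- NZD. -/
theorem p_NZD : T_NZD := by
  intro q c h
  by_contra hq
  have hc : c q ≠ 0 := by
    have h1 := h 1 0 (by simp)
    have h2 : form q c 1 0 = c q := by
      unfold form
      rw [Finset.sum_eq_single q]
      · simp
      · intro i hi hne
        have hlt : i < q := lt_of_le_of_ne (by simpa [Nat.lt_succ_iff] using hi) hne
        rw [zero_pow (Nat.sub_ne_zero_of_lt hlt), mul_zero]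
      · intro hn
        exact absurd (Finset.mem_range.2 (Nat.lt_succ_self q)) hn
    rwa [h2] at h1
  set P : Polynomial ℂ := ∑ i ∈ Finset.range (q + 1), Polynomial.C (c i) * Polynomial.X ^ i
    with hP
  have hcoef : P.coeff q = c q := by
    rw [hP, Polynomial.finsetSum_coeff]
    rw [Finset.sum_eq_single q]
    · simp
    · intro i _ hne
      rw [Polynomial.coeff_C_mul_X_pow, if_neg (Ne.symm hne)]
    · intro hn
      exact absurd (Finset.mem_range.2 (Nat.lt_succ_self q)) hn
  have hdeg : P.degree ≠ 0 := by
    intro h0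
    have h1 : P.natDegree = 0 := Polynomial.natDegree_eq_of_degree_eq_some h0
    have h2 : P.coeff q = 0 :=
      Polynomial.coeff_eq_zero_of_natDegree_lt (by rw [h1]; exact Nat.pos_of_ne_zero hq)
    exact hc (hcoef ▸ h2)
  obtain ⟨s, hs⟩ := IsAlgClosed.exists_root P hdeg
  refine h s 1 (by simp) ?_
  unfold form
  have h3 : P.eval s = 0 := hs
  rw [hP, Polynomial.eval_finsetSum] at h3
  rw [← h3]
  exact Finset.sum_congr rfl fun i _ => by simp

end Pool.Agent.ARC
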