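import Pool.Agent.ARC.Targets

/-!
# ARC, OPS: submersions are open
-/

set_option autoImplicit false

open Filter Topology

namespace Pool.Agent.ARC

/-- OPS: submersions are open. -/
theorem p_OPS (h_RCO : T_RCO) : T_OPS := by
  intro a b c d X Y φ hXY hS U hU
  refine ⟨⋃₀ {V' : Set (PP c d) | IsOpen V' ∧ Y ∩ V' ⊆ φ '' (X ∩ U)},
    isOpen_sUnion fun V' hV' => hV'.1, ?_⟩
  apply Set.Subset.antisymm
  · rintro _ ⟨x, ⟨hx, hxU⟩, rfl⟩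
    have hyY : φ x ∈ Y := by
      rw [← hXY]
      exact ⟨x, hx, rfl⟩
    obtain ⟨V₁, s, hV₁, hxV, hs, hs2, hs3⟩ := hS x hx
    have hV₁' : IsOpen V₁ := hV₁
    have hc : ContinuousOn s (Y ∩ V₁) := h_RCO c d a b (Y ∩ V₁) s hs
    have hcw : ContinuousWithinAt s (Y ∩ V₁) (φ x) := hc _ ⟨hyY, hxV⟩
    have hUn : U ∈ 𝓝 (s (φ x)) := by
      rw [hs3]
      exact hU.mem_nhds hxU
    obtain ⟨V₂, hV₂, hxV₂, hsub⟩ := mem_nhdsWithin.1 (hcw hUn)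
    refine ⟨hyY, V₁ ∩ V₂, ⟨hV₁'.inter hV₂, ?_⟩, hxV, hxV₂⟩
    rintro y ⟨hy1, hy2, hy3⟩
    have h1 := hs2 y ⟨hy1, hy2⟩
    exact ⟨s y, ⟨h1.1, hsub ⟨hy3, hy1, hy2⟩⟩, h1.2⟩
  · rintro y ⟨hy, V', ⟨-, hV'⟩, hyV⟩
    exact hV' ⟨hy, hyV⟩

end Pool.Agent.ARC
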