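import Pool.Agent.ARC.Targets5

set_option autoImplicit false

/-!
# ARC, PAS: a path in a slice which consists of sharp points
-/

open Filter Topology

namespace Pool.Agent.ARC

namespace PAS_

theorem symm (h_SYM : T_SYM) {a b : ℕ} {U : Set (PP a b)} {x y : PP a b} (h : Joined U x y) :
    Joined U y x := by
  obtain ⟨p, q, h⟩ := h
  exact ⟨p, q, (h_SYM a b U).1 p q x y h⟩

theorem trans (h_JTR : T_JTR) {a b : ℕ} {U : Set (PP a b)} (hU : IsOpenP U) {x y z : PP a b}
    (h : Joined U x y) (h' : Joined U y z) : Joined U x z := by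
  obtain ⟨p, q, h⟩ := h
  obtain ⟨p', q', h'⟩ := h'
  exact ⟨_, _, h_JTR a b p q p' q' U x y z hU h h'⟩

end PAS_

/-- PAS. A path in a slice which consists of sharp points. -/
theorem p_PAS (h_SHN : T_SHN) (h_JTR : T_JTR) (h_SYM : T_SYM) : T_PAS := by
  intro a b U γ hU hγ hS h2
  have hsymm : Std.Symm (fun s t => Joined U (γ s) (γ t)) :=
    ⟨fun x y hxy => PAS_.symm h_SYM hxy⟩
  refine PreconnectedSpace.induction₂ (fun s t => Joined U (γ s) (γ t)) ?_ ?_ 0 1
  · intro s
    obtain ⟨N, hN, hsN, hj⟩ := h_SHN a b U (γ s) hU (hS s)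
    have hopen : IsOpen (γ ⁻¹' N) := hγ.isOpen_preimage N hN
    filter_upwards [hopen.mem_nhds hsN] with t ht
    exact hj (γ t) ht ((h2 t).trans (h2 s).symm)
  · exact ⟨fun x y z hxy hyz => PAS_.trans h_JTR hU hxy hyz⟩

end Pool.Agent.ARC

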