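import Pool.Agent.ARC.Targets

set_option autoImplicit false

/-!
# ARC: the target T_PGR
-/

open Filter Topology

namespace Pool.Agent.ARC

/-- Derivatives of high order vanish at the origin. -/
lemma PGR_zero (f : ℂ → ℂ) (C : ℝ) (N : ℕ) (hf : Differentiable ℂ f)
    (hb : ∀ z : ℂ, ‖f z‖ ≤ C * (1 + ‖z‖) ^ N) (n : ℕ) (hn : N < n) :
    iteratedDeriv n f 0 = 0 := by
  have hC : 0 ≤ C := by
    have h := hb 0
    rw [norm_zero, add_zero, one_pow, mul_one] at h
    exact le_trans (norm_nonneg _) h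
  have h1 : ∀ R : ℝ, 1 ≤ R → ‖iteratedDeriv n f 0‖ ≤ (n.factorial * (C * 2 ^ N)) * R⁻¹ := by
    intro R hR
    have hR0 : 0 < R := by linarith
    have h2 := Complex.norm_iteratedDeriv_le_of_forall_mem_sphere_norm_le (c := 0) (R := R)
      (C := C * (2 * R) ^ N) (f := f) n hR0 hf.diffContOnCl (by
        intro z hz
        rw [mem_sphere_zero_iff_norm] at hz
        refine le_trans (hb z) ?_
        rw [hz]
        apply mul_le_mul_of_nonneg_left _ hC
        apply pow_le_pow_left₀ (by linarith)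
        linarith)
    refine le_trans h2 ?_
    rw [div_le_iff₀ (pow_pos hR0 n), mul_pow]
    obtain ⟨m, rfl⟩ : ∃ m, n = N + 1 + m := ⟨n - (N + 1), by omega⟩
    have h3 : R⁻¹ * R ^ (N + 1 + m) = R ^ N * R ^ m := by
      rw [pow_add, pow_succ]
      field_simp
    have h4 : (1 : ℝ) ≤ R ^ m := one_le_pow₀ hR
    have h5 : (0 : ℝ) ≤ R ^ N := pow_nonneg hR0.le N
    have h6 : (((N + 1 + m).factorial : ℝ) * (C * 2 ^ N)) * R⁻¹ * R ^ (N + 1 + m) =
        (((N + 1 + m).factorial : ℝ) * (C * 2 ^ N)) * (R ^ N * R ^ m) := by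
      rw [mul_assoc, h3]
    rw [h6]
    have h7 : (0 : ℝ) ≤ ((N + 1 + m).factorial : ℝ) * (C * 2 ^ N) := by positivity
    calc ((N + 1 + m).factorial : ℝ) * (C * (2 ^ N * R ^ N))
        = (((N + 1 + m).factorial : ℝ) * (C * 2 ^ N)) * R ^ N := by ring
      _ ≤ (((N + 1 + m).factorial : ℝ) * (C * 2 ^ N)) * (R ^ N * R ^ m) := by
          apply mul_le_mul_of_nonneg_left _ h7
          nlinarith
  have h8 : Tendsto (fun R : ℝ => (n.factorial * (C * 2 ^ N)) * R⁻¹) atTop (𝓝 0) := by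
    have := tendsto_inv_atTop_zero.const_mul ((n.factorial : ℝ) * (C * 2 ^ N))
    rwa [mul_zero] at this
  have h9 : ‖iteratedDeriv n f 0‖ ≤ 0 :=
    ge_of_tendsto h8 (eventually_atTop.mpr ⟨1, h1⟩)
  exact norm_le_zero_iff.mp h9

theorem p_PGR : T_PGR := by
  intro f C N hf hb
  refine ⟨∑ n ∈ Finset.range (N + 1),
    Polynomial.C ((n.factorial : ℂ)⁻¹ * iteratedDeriv n f 0) * Polynomial.X ^ n, ?_⟩
  intro z
  rw [← Complex.taylorSeries_eq_of_entire' 0 z hf, Polynomial.eval_finsetSum]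
  rw [tsum_eq_sum (s := Finset.range (N + 1))]
  · apply Finset.sum_congr rfl
    intro n _
    rw [Polynomial.eval_mul, Polynomial.eval_C, Polynomial.eval_pow, Polynomial.eval_X, sub_zero]
  · intro n hn
    rw [Finset.mem_range, not_lt] at hn
    rw [PGR_zero f C N hf hb n (by omega), mul_zero, zero_mul]

end Pool.Agent.ARC
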