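import Pool.Agent.ARC.Targets5

set_option autoImplicit false

/-!
# ARC, PSR: a Poincaré series
-/

noncomputable section

open Filter Topology

namespace Pool.Agent.ARC

namespace PSR_

/-- The coefficient of `F (q ^ k x)`. -/
def A (q c₀ : ℂ) (D k : ℕ) (x : ℂ) : ℂ := ∏ i ∈ Finset.range k, (c₀ * (q ^ i * x) ^ D)

/-- The coefficient of `F (x / q ^ m)`. -/
def B (q c₀ : ℂ) (D m : ℕ) (x : ℂ) : ℂ := ∏ i ∈ Finset.range m, (c₀ * (x / q ^ (i + 1)) ^ D)⁻¹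

/-- Bound for `A`. -/
def al (q c₀ : ℝ) (D k : ℕ) : ℝ := ∏ i ∈ Finset.range k, (c₀ * (q ^ i / q) ^ D)

/-- Bound for `B`. -/
def be (q c₀ : ℝ) (D m : ℕ) : ℝ := ∏ i ∈ Finset.range m, (c₀ * (q / q ^ (i + 1)) ^ D)⁻¹

theorem A_norm {q c₀ x : ℂ} {D : ℕ} (hq : 0 < ‖q‖) (hx : ‖q‖ * ‖x‖ ≤ 1) (k : ℕ) :
    ‖A q c₀ D k x‖ ≤ al ‖q‖ ‖c₀‖ D k := by
  unfold A al
  rw [norm_prod]
  refine Finset.prod_le_prod (fun i _ => norm_nonneg _) fun i _ => ?_
  rw [norm_mul, norm_pow, norm_mul, norm_pow]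
  refine mul_le_mul_of_nonneg_left ?_ (norm_nonneg _)
  refine pow_le_pow_left₀ (by positivity) ?_ D
  rw [le_div_iff₀ hq]
  have h1 : ‖q‖ ^ i * ‖x‖ * ‖q‖ = ‖q‖ ^ i * (‖q‖ * ‖x‖) := by ring
  rw [h1]
  have h2 : 0 ≤ ‖q‖ ^ i := by positivity
  nlinarith

theorem B_norm {q c₀ x : ℂ} {D : ℕ} (hq : 0 < ‖q‖) (hc : c₀ ≠ 0) (hx : ‖q‖ ≤ ‖x‖) (m : ℕ) :
    ‖B q c₀ D m x‖ ≤ be ‖q‖ ‖c₀‖ D m := by
  unfold B be
  rw [norm_prod]
  refine Finset.prod_le_prod (fun i _ => norm_nonneg _) fun i _ => ?_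
  rw [norm_inv, norm_mul, norm_pow, norm_div, norm_pow]
  have hc0 : 0 < ‖c₀‖ := norm_pos_iff.2 hc
  have h1 : 0 < ‖q‖ ^ (i + 1) := by positivity
  refine inv_anti₀ (by positivity) ?_
  refine mul_le_mul_of_nonneg_left ?_ (norm_nonneg _)
  refine pow_le_pow_left₀ (by positivity) ?_ D
  exact div_le_div_of_nonneg_right hx h1.le

theorem al_pos {q c₀ : ℝ} (hq : 0 < q) (hc : 0 < c₀) (D k : ℕ) : 0 < al q c₀ D k :=
  Finset.prod_pos fun i _ => by positivity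

theorem be_pos {q c₀ : ℝ} (hq : 0 < q) (hc : 0 < c₀) (D k : ℕ) : 0 < be q c₀ D k :=
  Finset.prod_pos fun i _ => by positivity

theorem pow_tendsto {q : ℝ} (hq : 0 < q) (hq1 : q < 1) {D : ℕ} (hD : 1 ≤ D) (c : ℝ) :
    Tendsto (fun n : ℕ => c * (q ^ n / q) ^ D) atTop (𝓝 0) := by
  have h1 : Tendsto (fun n : ℕ => q ^ n) atTop (𝓝 0) :=
    tendsto_pow_atTop_nhds_zero_of_lt_one hq.le hq1
  have h2 : Tendsto (fun n : ℕ => q ^ n / q) atTop (𝓝 (0 / q)) := h1.div_const q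
  have h3 : Tendsto (fun n : ℕ => c * (q ^ n / q) ^ D) atTop (𝓝 (c * (0 / q) ^ D)) :=
    (h2.pow D).const_mul c
  rwa [zero_div, zero_pow (by omega), mul_zero] at h3

theorem al_summable {q c₀ : ℝ} (hq : 0 < q) (hq1 : q < 1) (hc : 0 < c₀) {D : ℕ} (hD : 1 ≤ D) :
    Summable (al q c₀ D) := by
  refine summable_of_ratio_test_tendsto_lt_one (l := 0) one_pos
    (Eventually.of_forall fun n => (al_pos hq hc D n).ne') ?_
  refine (pow_tendsto hq hq1 hD c₀).congr fun n => ?_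
  have h1 := al_pos hq hc D n
  have h2 := al_pos hq hc D (n + 1)
  rw [Real.norm_of_nonneg h1.le, Real.norm_of_nonneg h2.le, eq_div_iff h1.ne']
  unfold al
  rw [Finset.prod_range_succ, mul_comm]

theorem be_summable {q c₀ : ℝ} (hq : 0 < q) (hq1 : q < 1) (hc : 0 < c₀) {D : ℕ} (hD : 1 ≤ D) :
    Summable (be q c₀ D) := by
  refine summable_of_ratio_test_tendsto_lt_one (l := 0) one_pos
    (Eventually.of_forall fun n => (be_pos hq hc D n).ne') ?_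
  have h0 := (pow_tendsto hq hq1 hD c₀⁻¹).comp (tendsto_add_atTop_nat 1)
  refine h0.congr fun n => ?_
  have h1 := be_pos hq hc D n
  have h2 := be_pos hq hc D (n + 1)
  rw [Real.norm_of_nonneg h1.le, Real.norm_of_nonneg h2.le, eq_div_iff h1.ne']
  unfold be
  rw [Finset.prod_range_succ, mul_comm]
  congr 1
  rw [mul_inv, ← inv_pow, inv_div]
  rfl

theorem A_diff (q c₀ : ℂ) (D k : ℕ) : Differentiable ℂ (A q c₀ D k) := by
  induction k with
  | zero =>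
    have h : A q c₀ D 0 = fun _ => 1 := by
      funext x
      simp [A]
    rw [h]
    exact differentiable_const _
  | succ k ih =>
    have h : A q c₀ D (k + 1) = fun x => A q c₀ D k x * (c₀ * (q ^ k * x) ^ D) := by
      funext x
      simp [A, Finset.prod_range_succ]
    rw [h]
    fun_prop

theorem B_diff {q c₀ : ℂ} (hq : q ≠ 0) (hc : c₀ ≠ 0) (D k : ℕ) {x : ℂ} (hx : x ≠ 0) :
    DifferentiableAt ℂ (B q c₀ D k) x := by
  induction k with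
  | zero =>
    have h : B q c₀ D 0 = fun _ => 1 := by
      funext x
      simp [B]
    rw [h]
    exact differentiableAt_const _
  | succ k ih =>
    have h : B q c₀ D (k + 1) = fun x => B q c₀ D k x * (c₀ * (x / q ^ (k + 1)) ^ D)⁻¹ := by
      funext x
      simp [B, Finset.prod_range_succ]
    rw [h]
    have h1 : c₀ * (x / q ^ (k + 1)) ^ D ≠ 0 :=
      mul_ne_zero hc (pow_ne_zero _ (div_ne_zero hx (pow_ne_zero _ hq)))
    have h2 : DifferentiableAt ℂ (fun x => c₀ * (x / q ^ (k + 1)) ^ D) x := by fun_prop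
    exact ih.mul (h2.inv h1)

theorem A_succ (q c₀ : ℂ) (D k : ℕ) (x : ℂ) :
    A q c₀ D (k + 1) x = (c₀ * x ^ D) * A q c₀ D k (q * x) := by
  unfold A
  rw [Finset.prod_range_succ', pow_zero, one_mul, mul_comm]
  congr 1
  refine Finset.prod_congr rfl fun i _ => ?_
  rw [pow_succ, mul_assoc]

theorem B_succ {q c₀ : ℂ} (hq : q ≠ 0) (hc : c₀ ≠ 0) (D k : ℕ) {x : ℂ} (hx : x ≠ 0) :
    (c₀ * x ^ D) * B q c₀ D (k + 1) (q * x) = B q c₀ D k x := by
  unfold B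
  rw [Finset.prod_range_succ']
  have h1 : q * x / q ^ (0 + 1) = x := by
    rw [zero_add, pow_one]
    field_simp
  have h2 : c₀ * x ^ D ≠ 0 := mul_ne_zero hc (pow_ne_zero _ hx)
  rw [h1, mul_comm, mul_assoc, inv_mul_cancel₀ h2, mul_one]
  refine Finset.prod_congr rfl fun i _ => ?_
  have h3 : q * x / q ^ (i + 1 + 1) = x / q ^ (i + 1) := by
    rw [pow_succ q (i + 1)]
    field_simp
  rw [h3]

theorem exists_delta {r t : ℝ} (hr : 0 < r) (h1 : r < t) (h2 : r * t < 1) :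
    ∃ δ : ℝ, 0 < δ ∧ r * (1 + δ) < t ∧ r * t < 1 - δ := by
  refine ⟨min ((t / r - 1) / 2) ((1 - r * t) / 2), ?_, ?_, ?_⟩
  · have h3 : 1 < t / r := (one_lt_div hr).2 h1
    exact lt_min (by linarith) (by linarith)
  · have h3 : min ((t / r - 1) / 2) ((1 - r * t) / 2) ≤ (t / r - 1) / 2 := min_le_left _ _
    have h4 : r * (1 + (t / r - 1) / 2) = (r + t) / 2 := by
      field_simp
      ring
    have h5 := mul_le_mul_of_nonneg_left h3 hr.le
    linarith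
  · have h3 : min ((t / r - 1) / 2) ((1 - r * t) / 2) ≤ (1 - r * t) / 2 := min_le_right _ _
    linarith

end PSR_

open PSR_ in
/-- PSR. A Poincaré series. -/
theorem p_PSR : T_PSR := by
  intro a q c₀ D hq0 hq1 hc hD
  have hq : q ≠ 0 := norm_pos_iff.1 hq0
  have hc0 : 0 < ‖c₀‖ := norm_pos_iff.2 hc
  have hsA : Summable fun j => al ‖q‖ ‖c₀‖ D (j + 2) :=
    (summable_nat_add_iff 2).2 (al_summable hq0 hq1 hc0 hD)
  have hsB : Summable fun j => be ‖q‖ ‖c₀‖ D (j + 1) :=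
    (summable_nat_add_iff 1).2 (be_summable hq0 hq1 hc0 hD)
  refine ⟨∑' j, al ‖q‖ ‖c₀‖ D (j + 2) + ∑' j, be ‖q‖ ‖c₀‖ D (j + 1), ?_, ?_⟩
  · exact add_nonneg (tsum_nonneg fun j => (al_pos hq0 hc0 D _).le)
      (tsum_nonneg fun j => (be_pos hq0 hc0 D _).le)
  intro F hF hbd
  -- bounds of the terms
  have hU : ∀ δ K : ℝ, 0 < δ →
      (∀ x : ℂ, x ≠ 0 → (‖x‖ ≤ ‖q‖ * (1 - δ) ∨ 1 + δ ≤ ‖x‖) → ‖F x‖ ≤ K) →
      ∀ x : ℂ, ‖q‖ * (1 + δ) ≤ ‖x‖ → ‖q‖ * ‖x‖ ≤ 1 - δ → ∀ j : ℕ,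
      ‖A q c₀ D (j + 2) x • F (q ^ (j + 2) * x)‖ ≤ al ‖q‖ ‖c₀‖ D (j + 2) * K := by
    intro δ K hδ hK x h1 h2 j
    have hx0 : 0 < ‖x‖ := lt_of_lt_of_le (by positivity) h1
    have hx : x ≠ 0 := norm_pos_iff.1 hx0
    rw [norm_smul]
    refine mul_le_mul (A_norm hq0 (by linarith) _) ?_ (norm_nonneg _) (al_pos hq0 hc0 D _).le
    refine hK _ (mul_ne_zero (pow_ne_zero _ hq) hx) (Or.inl ?_)
    rw [norm_mul, norm_pow]
    have h3 : ‖q‖ ^ (j + 2) * ‖x‖ = ‖q‖ ^ (j + 1) * (‖q‖ * ‖x‖) := by ring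
    rw [h3]
    have h4 : ‖q‖ ^ (j + 1) ≤ ‖q‖ := by
      calc ‖q‖ ^ (j + 1) ≤ ‖q‖ ^ 1 := pow_le_pow_of_le_one hq0.le hq1.le (by omega)
        _ = ‖q‖ := pow_one _
    exact mul_le_mul h4 h2 (by positivity) hq0.le
  have hV : ∀ δ K : ℝ, 0 < δ →
      (∀ x : ℂ, x ≠ 0 → (‖x‖ ≤ ‖q‖ * (1 - δ) ∨ 1 + δ ≤ ‖x‖) → ‖F x‖ ≤ K) →
      ∀ x : ℂ, ‖q‖ * (1 + δ) ≤ ‖x‖ → ‖q‖ * ‖x‖ ≤ 1 - δ → ∀ j : ℕ,
      ‖B q c₀ D (j + 1) x • F (x / q ^ (j + 1))‖ ≤ be ‖q‖ ‖c₀‖ D (j + 1) * K := by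
    intro δ K hδ hK x h1 h2 j
    have hx0 : 0 < ‖x‖ := lt_of_lt_of_le (by positivity) h1
    have hx : x ≠ 0 := norm_pos_iff.1 hx0
    rw [norm_smul]
    refine mul_le_mul (B_norm hq0 hc (by nlinarith) _) ?_ (norm_nonneg _)
      (be_pos hq0 hc0 D _).le
    refine hK _ (div_ne_zero hx (pow_ne_zero _ hq)) (Or.inr ?_)
    rw [norm_div, norm_pow, le_div_iff₀ (by positivity)]
    have h4 : ‖q‖ ^ (j + 1) ≤ ‖q‖ := by
      calc ‖q‖ ^ (j + 1) ≤ ‖q‖ ^ 1 := pow_le_pow_of_le_one hq0.le hq1.le (by omega)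
        _ = ‖q‖ := pow_one _
    have h5 := mul_le_mul_of_nonneg_left h4 (show 0 ≤ 1 + δ by linarith)
    linarith
  -- summability
  have hsum : ∀ x : ℂ, ‖q‖ < ‖x‖ → ‖q‖ * ‖x‖ < 1 →
      Summable (fun j : ℕ => A q c₀ D (j + 2) x • F (q ^ (j + 2) * x)) ∧
      Summable (fun j : ℕ => B q c₀ D (j + 1) x • F (x / q ^ (j + 1))) := by
    intro x h1 h2
    obtain ⟨δ, hδ, h3, h4⟩ := exists_delta hq0 h1 h2
    obtain ⟨K, hK⟩ := hbd δ hδ
    exact ⟨Summable.of_norm_bounded (hsA.mul_right K) (hU δ K hδ hK x h3.le h4.le),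
      Summable.of_norm_bounded (hsB.mul_right K) (hV δ K hδ hK x h3.le h4.le)⟩
  have hFat : ∀ y : ℂ, y ≠ 0 → ‖y‖ ≠ 1 → ‖y‖ ≠ ‖q‖ → DifferentiableAt ℂ F y := by
    intro y h1 h2 h3
    refine hF.differentiableAt (IsOpen.mem_nhds ?_ ⟨h1, h2, h3⟩)
    exact (isOpen_ne_fun continuous_id continuous_const).inter
      ((isOpen_ne_fun continuous_norm continuous_const).inter
        (isOpen_ne_fun continuous_norm continuous_const))
  refine ⟨fun x => ∑' j : ℕ, A q c₀ D (j + 2) x • F (q ^ (j + 2) * x) +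
    ∑' j : ℕ, B q c₀ D (j + 1) x • F (x / q ^ (j + 1)), ?_, ?_, ?_⟩
  · -- differentiability
    intro x₀ hx₀
    obtain ⟨δ, hδ, h3, h4⟩ := exists_delta hq0 hx₀.1 hx₀.2
    obtain ⟨K, hK⟩ := hbd δ hδ
    have hWo : IsOpen {x : ℂ | ‖q‖ * (1 + δ) < ‖x‖ ∧ ‖q‖ * ‖x‖ < 1 - δ} :=
      (isOpen_lt continuous_const continuous_norm).inter
        (isOpen_lt (continuous_const.mul continuous_norm) continuous_const)
    have hd1 : DifferentiableOn ℂ (fun x => ∑' j : ℕ, A q c₀ D (j + 2) x • F (q ^ (j + 2) * x))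
        {x : ℂ | ‖q‖ * (1 + δ) < ‖x‖ ∧ ‖q‖ * ‖x‖ < 1 - δ} := by
      refine Complex.differentiableOn_tsum_of_summable_norm (hsA.mul_right K) ?_ hWo ?_
      · intro j x hx
        have hx0 : 0 < ‖x‖ := lt_trans (by positivity) hx.1
        have hxn : x ≠ 0 := norm_pos_iff.1 hx0
        have h5 : ‖q ^ (j + 2) * x‖ < ‖q‖ := by
          rw [norm_mul, norm_pow]
          have h3 : ‖q‖ ^ (j + 2) * ‖x‖ = ‖q‖ ^ (j + 1) * (‖q‖ * ‖x‖) := by ring
          rw [h3]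
          have h4 : ‖q‖ ^ (j + 1) ≤ ‖q‖ := by
            calc ‖q‖ ^ (j + 1) ≤ ‖q‖ ^ 1 := pow_le_pow_of_le_one hq0.le hq1.le (by omega)
              _ = ‖q‖ := pow_one _
          calc ‖q‖ ^ (j + 1) * (‖q‖ * ‖x‖) ≤ ‖q‖ * (‖q‖ * ‖x‖) :=
                mul_le_mul_of_nonneg_right h4 (by positivity)
            _ < ‖q‖ * 1 := mul_lt_mul_of_pos_left (by linarith [hx.2]) hq0
            _ = ‖q‖ := mul_one _
        have h6 : DifferentiableAt ℂ F (q ^ (j + 2) * x) :=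
          hFat _ (mul_ne_zero (pow_ne_zero _ hq) hxn) (by linarith) h5.ne
        have h7 : DifferentiableAt ℂ (fun x => F (q ^ (j + 2) * x)) x :=
          DifferentiableAt.comp x h6 (by fun_prop)
        exact ((A_diff q c₀ D (j + 2) x).smul h7).differentiableWithinAt
      · intro j x hx
        exact hU δ K hδ hK x hx.1.le hx.2.le j
    have hd2 : DifferentiableOn ℂ (fun x => ∑' j : ℕ, B q c₀ D (j + 1) x • F (x / q ^ (j + 1)))
        {x : ℂ | ‖q‖ * (1 + δ) < ‖x‖ ∧ ‖q‖ * ‖x‖ < 1 - δ} := by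
      refine Complex.differentiableOn_tsum_of_summable_norm (hsB.mul_right K) ?_ hWo ?_
      · intro j x hx
        have hx0 : 0 < ‖x‖ := lt_trans (by positivity) hx.1
        have hxn : x ≠ 0 := norm_pos_iff.1 hx0
        have h5 : 1 < ‖x / q ^ (j + 1)‖ := by
          rw [norm_div, norm_pow, lt_div_iff₀ (by positivity), one_mul]
          have h4 : ‖q‖ ^ (j + 1) ≤ ‖q‖ := by
            calc ‖q‖ ^ (j + 1) ≤ ‖q‖ ^ 1 := pow_le_pow_of_le_one hq0.le hq1.le (by omega)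
              _ = ‖q‖ := pow_one _
          have h8 : ‖q‖ * 1 ≤ ‖q‖ * (1 + δ) := mul_le_mul_of_nonneg_left (by linarith) hq0.le
          linarith [hx.1]
        have h6 : DifferentiableAt ℂ F (x / q ^ (j + 1)) :=
          hFat _ (div_ne_zero hxn (pow_ne_zero _ hq)) h5.ne' (by linarith)
        have h7 : DifferentiableAt ℂ (fun x => F (x / q ^ (j + 1))) x :=
          DifferentiableAt.comp x h6 (by fun_prop)
        exact ((B_diff hq hc D (j + 1) hxn).smul h7).differentiableWithinAt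
      · intro j x hx
        exact hV δ K hδ hK x hx.1.le hx.2.le j
    have h9 := hWo.mem_nhds (show x₀ ∈ {x : ℂ | ‖q‖ * (1 + δ) < ‖x‖ ∧ ‖q‖ * ‖x‖ < 1 - δ} from
      ⟨h3, h4⟩)
    exact ((hd1.differentiableAt h9).add (hd2.differentiableAt h9)).differentiableWithinAt
  · -- the bound
    intro δ K hδ hK x h1 h2
    have e1 : ‖∑' j : ℕ, A q c₀ D (j + 2) x • F (q ^ (j + 2) * x)‖ ≤
        ∑' j, al ‖q‖ ‖c₀‖ D (j + 2) * K :=
      tsum_of_norm_bounded (hsA.mul_right K).hasSum (hU δ K hδ hK x h1 h2)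
    have e2 : ‖∑' j : ℕ, B q c₀ D (j + 1) x • F (x / q ^ (j + 1))‖ ≤
        ∑' j, be ‖q‖ ‖c₀‖ D (j + 1) * K :=
      tsum_of_norm_bounded (hsB.mul_right K).hasSum (hV δ K hδ hK x h1 h2)
    rw [tsum_mul_right] at e1 e2
    calc _ ≤ _ := norm_add_le _ _
      _ ≤ (∑' j, al ‖q‖ ‖c₀‖ D (j + 2)) * K + (∑' j, be ‖q‖ ‖c₀‖ D (j + 1)) * K :=
          add_le_add e1 e2
      _ = _ := by ring
  · -- the functional equation
    intro x h1 h2
    have hx0 : 0 < ‖x‖ := by linarith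
    have hx : x ≠ 0 := norm_pos_iff.1 hx0
    obtain ⟨s1, s2⟩ := hsum x (by linarith) h2
    have hqx : ‖q * x‖ = ‖q‖ * ‖x‖ := norm_mul _ _
    obtain ⟨s3, s4⟩ := hsum (q * x) (by rw [hqx]; nlinarith) (by rw [hqx]; nlinarith)
    have t1 : (c₀ * x ^ D) • ∑' j : ℕ, A q c₀ D (j + 2) (q * x) • F (q ^ (j + 2) * (q * x)) =
        ∑' j : ℕ, A q c₀ D (j + 1 + 2) x • F (q ^ (j + 1 + 2) * x) := by
      rw [← s3.tsum_const_smul]
      refine tsum_congr fun j => ?_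
      rw [smul_smul, ← A_succ]
      congr 2
      ring
    have t2 : (c₀ * x ^ D) • ∑' j : ℕ, B q c₀ D (j + 1) (q * x) • F (q * x / q ^ (j + 1)) =
        ∑' j : ℕ, B q c₀ D j x • F (x / q ^ j) := by
      rw [← s4.tsum_const_smul]
      refine tsum_congr fun j => ?_
      rw [smul_smul, B_succ hq hc D j hx]
      congr 2
      rw [pow_succ]
      field_simp
    have s5 : Summable fun j : ℕ => B q c₀ D j x • F (x / q ^ j) :=
      (summable_nat_add_iff 1).1 s2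
    have t3 := s1.tsum_eq_zero_add
    have t4 := s5.tsum_eq_zero_add
    have a2 : A q c₀ D (0 + 2) x • F (q ^ (0 + 2) * x) =
        (c₀ * x ^ D) • (c₀ * (q * x) ^ D) • F (q * (q * x)) := by
      rw [smul_smul, A_succ, A_succ]
      have h3 : A q c₀ D 0 (q * (q * x)) = 1 := by simp [A]
      rw [h3, mul_one]
      congr 2
      ring
    have b0 : B q c₀ D 0 x • F (x / q ^ 0) = F x := by
      have h3 : B q c₀ D 0 x = 1 := by simp [B]
      rw [h3, one_smul, pow_zero, div_one]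
    beta_reduce
    rw [smul_add, smul_add, smul_add, t1, t2, t4, b0, t3, a2]
    abel

end Pool.Agent.ARC
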