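import Pool.Agent.ARC.Targets

set_option autoImplicit false

open Filter Topology

namespace Pool.Agent.ARC

theorem p_RCO (h_CAT : T_CAT) (h_CHT : T_CHT) : T_RCO := by
  intro a b c d X f hf x hx
  obtain ⟨i, j, N, f₁, g₁, hN, hxN, -, hrep, hfc, hgc⟩ := h_CHT a b x
  obtain ⟨h1, h2, -, -⟩ := hrep x hxN
  obtain ⟨O, F, G, hO, hmem, hF, hG, hFG⟩ := hf x hx (f₁ x) (g₁ x) h1 h2
  have cf : ContinuousAt f₁ x := hfc.continuousAt (hN.mem_nhds hxN)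
  have cg : ContinuousAt g₁ x := hgc.continuousAt (hN.mem_nhds hxN)
  have cF : ContinuousAt F (f₁ x, g₁ x) := (hF.differentiableAt (hO.mem_nhds hmem)).continuousAt
  have cG : ContinuousAt G (f₁ x, g₁ x) := (hG.differentiableAt (hO.mem_nhds hmem)).continuousAt
  have cpair : Tendsto (fun y => (f₁ y, g₁ y)) (𝓝[X] x) (𝓝 (f₁ x, g₁ x)) :=
    (cf.prodMk cg).tendsto.mono_left nhdsWithin_le_nhds
  refine h_CAT c d (PP a b) (𝓝[X] x) f (f x) (fun y => F (f₁ y, g₁ y)) (fun y => G (f₁ y, g₁ y))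
    (F (f₁ x, g₁ x)) (G (f₁ x, g₁ x)) (cF.tendsto.comp cpair) (cG.tendsto.comp cpair)
    (hFG x hx _ _ hmem h1 h2).1 (hFG x hx _ _ hmem h1 h2).2 ?_
  filter_upwards [self_mem_nhdsWithin, mem_nhdsWithin_of_mem_nhds (hN.mem_nhds hxN),
    cpair (hO.mem_nhds hmem)] with y hyX hyN hyO
  exact hFG y hyX _ _ hyO (hrep y hyN).1 (hrep y hyN).2.1

end Pool.Agent.ARC
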