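import Pool.Agent.ARC.Targets

set_option autoImplicit false

/-!
# ARC: target RIG, maps constant on the fibres of a submersion factor
-/

noncomputable section

open Filter Topology

namespace Pool.Agent.ARC

theorem p_RIG (hR : T_RRC) : T_RIG := by
  classical
  intro a b c d k l X Y φ f hφ hsub hf hfib
  let g : PP c d → PP k l := fun y =>
    if h : ∃ x, x ∈ X ∧ φ x = y then f h.choose else Classical.arbitrary _
  have hg : ∀ x ∈ X, g (φ x) = f x := by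
    intro x hx
    have h : ∃ x', x' ∈ X ∧ φ x' = φ x := ⟨x, hx, rfl⟩
    have h1 : g (φ x) = f h.choose := dif_pos h
    rw [h1]
    exact hfib _ h.choose_spec.1 _ hx h.choose_spec.2
  refine ⟨g, ?_, fun x hx => (hg x hx).symm⟩
  intro y hy v₀ w₀ hv₀ hw₀
  rw [← hφ] at hy
  obtain ⟨x, hx, rfl⟩ := hy
  obtain ⟨V, s, hVo, hxV, hs, hsX, -⟩ := hsub x hx
  have hY : φ x ∈ Y := hφ ▸ ⟨x, hx, rfl⟩
  have hcomp : HolOn (Y ∩ V) (f ∘ s) :=
    (hR c d a b k l (Y ∩ V) X s f hs).1 hf (fun y hy => (hsX y hy).1)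
  obtain ⟨O, F, G, hO, hvO, hF, hG, hrep⟩ := hcomp (φ x) ⟨hY, hxV⟩ v₀ w₀ hv₀ hw₀
  refine ⟨O ∩ cone V, F, G, hO.inter hVo, ⟨hvO, φ x, hxV, hv₀, hw₀⟩,
    hF.mono Set.inter_subset_left, hG.mono Set.inter_subset_left, ?_⟩
  intro y hyY v w hvw hv hw
  obtain ⟨y', hy'V, hv', hw'⟩ := hvw.2
  have e : y' = y := Prod.ext (is_unique hv' hv) (is_unique hw' hw)
  subst e
  have hs1 := hsX y' ⟨hyY, hy'V⟩
  have e2 : g y' = f (s y') := by
    have := hg (s y') hs1.1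
    rwa [hs1.2] at this
  rw [e2]
  exact hrep y' ⟨hyY, hy'V⟩ v w hvw.1 hv hw

end Pool.Agent.ARC
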