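import Pool.Agent.ARC.Targets2

set_option autoImplicit false

open Filter Topology

namespace Pool.Agent.ARC

namespace ROO_

theorem mem_iff (n : ℕ) (hn : 1 ≤ n) (ω : ℂ) : ω ∈ rts n ↔ ω ^ n = -1 := by
  have hn0 : (n : ℂ) ≠ 0 := by
    have : n ≠ 0 := by omega
    exact_mod_cast this
  have hπ : (Real.pi : ℂ) ≠ 0 := by exact_mod_cast Real.pi_ne_zero
  unfold rts
  rw [Finset.mem_image]
  constructor
  · rintro ⟨l, -, rfl⟩
    rw [← Complex.exp_nat_mul]
    have : (n : ℂ) * ((((Real.pi * (2 * l + 1) / n : ℝ) : ℂ)) * Complex.I)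
        = (Real.pi : ℂ) * Complex.I + (l : ℤ) * (2 * Real.pi * Complex.I) := by
      push_cast
      field_simp
      ring
    rw [this, Complex.exp_add, Complex.exp_int_mul_two_pi_mul_I, Complex.exp_pi_mul_I]
    ring
  · intro h
    have h0 : ω ≠ 0 := by
      rintro rfl
      rw [zero_pow (by omega)] at h
      norm_num at h
    have h1 : Complex.exp (n * Complex.log ω) = Complex.exp (Real.pi * Complex.I) := by
      rw [Complex.exp_nat_mul, Complex.exp_log h0, h, Complex.exp_pi_mul_I]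
    rw [Complex.exp_eq_exp_iff_exists_int] at h1
    obtain ⟨k, hk⟩ := h1
    have hnz : (n : ℤ) ≠ 0 := by
      have : n ≠ 0 := by omega
      exact_mod_cast this
    have hr0 : 0 ≤ k % (n : ℤ) := Int.emod_nonneg k hnz
    have hr1 : k % (n : ℤ) < n := Int.emod_lt_of_pos k (by omega)
    have hdm := Int.emod_add_mul_ediv k (n : ℤ)
    refine ⟨(k % (n : ℤ)).toNat, ?_, ?_⟩
    · rw [Finset.mem_range]
      omega
    · have e : Complex.log ω = (((Real.pi * (2 * ((k % (n : ℤ)).toNat : ℕ) + 1) / n : ℝ) : ℂ))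
          * Complex.I + (k / (n : ℤ) : ℤ) * (2 * Real.pi * Complex.I) := by
        have hc : (((k % (n : ℤ)).toNat : ℕ) : ℂ) = ((k % (n : ℤ) : ℤ) : ℂ) := by
          have : (((k % (n : ℤ)).toNat : ℕ) : ℤ) = k % (n : ℤ) := Int.toNat_of_nonneg hr0
          exact_mod_cast congrArg (fun z : ℤ => (z : ℂ)) this
        have hk' : (k : ℂ) = ((k % (n : ℤ) : ℤ) : ℂ) + (n : ℂ) * ((k / (n : ℤ) : ℤ) : ℂ) := by
          exact_mod_cast congrArg (fun z : ℤ => (z : ℂ)) hdm.symm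
        have : Complex.log ω = ((Real.pi : ℂ) * Complex.I + k * (2 * Real.pi * Complex.I)) / n := by
          rw [← hk]
          field_simp
        rw [this, hk']
        push_cast
        rw [hc]
        field_simp
        ring
      rw [← Complex.exp_log h0, e, Complex.exp_add, Complex.exp_int_mul_two_pi_mul_I, mul_one]

theorem norm_of_mem (n : ℕ) (ω : ℂ) (h : ω ∈ rts n) : ‖ω‖ = 1 := by
  unfold rts at h
  rw [Finset.mem_image] at h
  obtain ⟨l, -, rfl⟩ := h
  exact Complex.norm_exp_ofReal_mul_I _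

theorem nonempty (n : ℕ) (hn : 1 ≤ n) : (rts n).Nonempty := by
  unfold rts
  apply Finset.Nonempty.image
  rw [Finset.nonempty_range_iff]
  omega

/-- the comparison root -/
theorem comp (n : ℕ) (hn : 1 ≤ n) (x : ℂ) (hx : x ≠ 0) :
    ∃ ω₀ ∈ rts n, ‖x - ω₀‖ = ‖Complex.exp (Complex.log (-x ^ n) / n) - 1‖ := by
  have hn0 : (n : ℂ) ≠ 0 := by
    have : n ≠ 0 := by omega
    exact_mod_cast this
  have hxn : -x ^ n ≠ 0 := neg_ne_zero.mpr (pow_ne_zero n hx)
  set α := Complex.log (-x ^ n) / n with hα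
  have hp : (x * Complex.exp (-α)) ^ n = -1 := by
    rw [mul_pow, ← Complex.exp_nat_mul]
    have : (n : ℂ) * -α = -Complex.log (-x ^ n) := by
      rw [hα]
      field_simp
    rw [this, Complex.exp_neg, Complex.exp_log hxn]
    field_simp
  have hm := (mem_iff n hn _).mpr hp
  refine ⟨_, hm, ?_⟩
  have h1 := norm_of_mem n _ hm
  have e : x - x * Complex.exp (-α) = (x * Complex.exp (-α)) * (Complex.exp α - 1) := by
    have : Complex.exp (-α) * Complex.exp α = 1 := by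
      rw [← Complex.exp_add]
      simp
    linear_combination (-x) * this
  rw [e, norm_mul, h1, one_mul]

theorem bound1 (n : ℕ) (hn : 1 ≤ n) (x : ℂ) (hx : x ≠ 0) :
    ‖Complex.exp (Complex.log (-x ^ n) / n) - 1‖ ≤ |‖x‖ - 1| + Real.pi / n := by
  have hnr : (0 : ℝ) < n := by exact_mod_cast hn
  have hn0 : (n : ℂ) ≠ 0 := by
    have : n ≠ 0 := by omega
    exact_mod_cast this
  have hxp : 0 < ‖x‖ := norm_pos_iff.mpr hx
  set L := Complex.log (-x ^ n) with hL
  have hre : L.re = n * Real.log ‖x‖ := by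
    rw [hL, Complex.log_re, norm_neg, norm_pow, Real.log_pow]
  have him : |L.im| ≤ Real.pi := by
    rw [hL, Complex.log_im]
    exact Complex.abs_arg_le_pi _
  have e : L / n = ((Real.log ‖x‖ : ℝ) : ℂ) + Complex.I * ((L.im / n : ℝ) : ℂ) := by
    have : L = ((n * Real.log ‖x‖ : ℝ) : ℂ) + (L.im : ℂ) * Complex.I := by
      rw [← hre]
      exact (Complex.re_add_im L).symm
    rw [this]
    push_cast
    simp only [Complex.add_im, Complex.mul_im, Complex.natCast_re,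
      Complex.natCast_im, Complex.ofReal_re, Complex.ofReal_im, Complex.I_re, Complex.I_im]
    field_simp
    simp
    ring
  rw [e, Complex.exp_add]
  have ex : Complex.exp ((Real.log ‖x‖ : ℝ) : ℂ) = ((‖x‖ : ℝ) : ℂ) := by
    rw [← Complex.ofReal_exp, Real.exp_log hxp]
  rw [ex]
  set E := Complex.exp (Complex.I * ((L.im / n : ℝ) : ℂ)) with hE
  have hEn : ‖E‖ = 1 := by
    rw [hE, mul_comm]
    exact Complex.norm_exp_ofReal_mul_I _
  have hE1 : ‖E - 1‖ ≤ Real.pi / n := by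
    refine (Real.norm_exp_I_mul_ofReal_sub_one_le (x := L.im / n)).trans ?_
    rw [Real.norm_eq_abs, abs_div, abs_of_pos hnr]
    gcongr
  calc ‖((‖x‖ : ℝ) : ℂ) * E - 1‖ = ‖((‖x‖ - 1 : ℝ) : ℂ) * E + (E - 1)‖ := by
        congr 1
        push_cast
        ring
    _ ≤ ‖((‖x‖ - 1 : ℝ) : ℂ) * E‖ + ‖E - 1‖ := norm_add_le _ _
    _ ≤ |‖x‖ - 1| + Real.pi / n := by
        rw [norm_mul, hEn, mul_one, Complex.norm_real, Real.norm_eq_abs]
        gcongr

theorem bound2 (n : ℕ) (hn : 1 ≤ n) (x : ℂ) (h : ‖1 + x ^ n‖ < 1 / 2) :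
    n * ‖Complex.exp (Complex.log (-x ^ n) / n) - 1‖ ≤ 3 * ‖1 + x ^ n‖ := by
  have hnr : (0 : ℝ) < n := by exact_mod_cast hn
  have hn1 : (1 : ℝ) ≤ n := by exact_mod_cast hn
  have h1 : ‖Complex.log (-x ^ n)‖ ≤ 3 / 2 * ‖1 + x ^ n‖ := by
    have := Complex.norm_log_one_add_half_le_self (z := -(1 + x ^ n)) (by
      rw [norm_neg]
      exact h.le)
    rw [norm_neg] at this
    have e : (1 : ℂ) + -(1 + x ^ n) = -x ^ n := by ring
    rw [e] at this
    exact this
  have h2 : ‖Complex.log (-x ^ n) / n‖ = ‖Complex.log (-x ^ n)‖ / n := by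
    rw [norm_div, Complex.norm_natCast]
  have h3 : ‖Complex.log (-x ^ n) / n‖ ≤ 1 := by
    rw [h2, div_le_one hnr]
    linarith
  have h4 := Complex.norm_exp_sub_one_le h3
  rw [h2] at h4
  calc n * ‖Complex.exp (Complex.log (-x ^ n) / n) - 1‖
      ≤ n * (2 * (‖Complex.log (-x ^ n)‖ / n)) := by gcongr
    _ = 2 * ‖Complex.log (-x ^ n)‖ := by field_simp
    _ ≤ 3 * ‖1 + x ^ n‖ := by linarith

theorem bern1 (n : ℕ) (r : ℝ) (h0 : 0 < r) (h1 : r ≤ 1) : n * (1 - r) * r ^ n ≤ 1 := by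
  have hb := one_add_mul_le_pow (a := 1 / r - 1) (by
    have : 0 < 1 / r := by positivity
    linarith) n
  have e : (1 + (1 / r - 1)) ^ n = 1 / r ^ n := by
    rw [add_sub_cancel, one_div, one_div, inv_pow]
  rw [e] at hb
  have hrn : 0 < r ^ n := by positivity
  have h2 : n * (1 - r) ≤ 1 / r ^ n := by
    have h3 : (1 - r) ≤ 1 / r - 1 := by
      rw [le_sub_iff_add_le, le_div_iff₀ h0]
      nlinarith
    have h4 : (n : ℝ) * (1 - r) ≤ n * (1 / r - 1) := by gcongr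
    linarith
  calc n * (1 - r) * r ^ n ≤ 1 / r ^ n * r ^ n := by gcongr
    _ = 1 := by field_simp

theorem bern2 (n : ℕ) (r : ℝ) (h1 : 1 ≤ r) : n * (r - 1) ≤ r ^ n - 1 := by
  have hb := one_add_mul_le_pow (a := r - 1) (by linarith) n
  rw [add_sub_cancel] at hb
  linarith

end ROO_

open ROO_ in
theorem p_ROO : T_ROO := by
  intro n hn
  refine ⟨mem_iff n hn, ?_, norm_of_mem n, ?_⟩
  · unfold rts
    refine Finset.card_image_le.trans ?_
    rw [Finset.card_range]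
  intro x
  have hnr : (0 : ℝ) < n := by exact_mod_cast hn
  have hn1 : (1 : ℝ) ≤ n := by exact_mod_cast hn
  have hπ := Real.pi_lt_d2
  have hπ0 := Real.pi_pos
  obtain ⟨ω, hω, hmin⟩ := Finset.exists_min_image (rts n) (fun ω => ‖x - ω‖) (nonempty n hn)
  refine ⟨ω, hω, hmin, ?_⟩
  by_cases hx : x = 0
  · subst hx
    have h1 := norm_of_mem n ω hω
    rw [zero_sub, norm_neg, h1, norm_zero]
    refine ⟨?_, ?_, ?_⟩
    · have : (0 : ℝ) < 4 / n := by positivity
      norm_num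
      exact this.le
    · intro _
      rw [zero_pow (by omega), mul_zero]
      positivity
    · intro h
      norm_num at h
  obtain ⟨ω₀, hω₀, hc⟩ := comp n hn x hx
  have hle : ‖x - ω‖ ≤ ‖Complex.exp (Complex.log (-x ^ n) / n) - 1‖ := by
    rw [← hc]
    exact hmin ω₀ hω₀
  have hb1 : ‖x - ω‖ ≤ |‖x‖ - 1| + Real.pi / n := hle.trans (bound1 n hn x hx)
  have hxp : 0 < ‖x‖ := norm_pos_iff.mpr hx
  have hnn : 0 ≤ ‖1 + x ^ n‖ := norm_nonneg _
  refine ⟨?_, ?_, ?_⟩
  · refine hb1.trans ?_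
    gcongr
    linarith
  · intro hr
    have hrn : ‖x‖ ^ n ≤ 1 := pow_le_one₀ hxp.le hr
    have hrn0 : 0 < ‖x‖ ^ n := by positivity
    rcases lt_or_ge ‖1 + x ^ n‖ (1 / 2) with h | h
    · have h2 := bound2 n hn x h
      have h3 : n * ‖x - ω‖ ≤ 3 * ‖1 + x ^ n‖ := by
        refine le_trans ?_ h2
        gcongr
      calc n * ‖x - ω‖ * ‖x‖ ^ n ≤ n * ‖x - ω‖ * 1 := by gcongr
        _ ≤ 9 * ‖1 + x ^ n‖ := by linarith
    · have h4 : n * ‖x - ω‖ ≤ n * (1 - ‖x‖) + Real.pi := by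
        have e : |‖x‖ - 1| = 1 - ‖x‖ := by
          rw [abs_sub_comm, abs_of_nonneg (by linarith)]
        rw [e] at hb1
        calc n * ‖x - ω‖ ≤ n * ((1 - ‖x‖) + Real.pi / n) := by gcongr
          _ = n * (1 - ‖x‖) + Real.pi := by field_simp
      have h5 := bern1 n ‖x‖ hxp hr
      calc n * ‖x - ω‖ * ‖x‖ ^ n ≤ (n * (1 - ‖x‖) + Real.pi) * ‖x‖ ^ n := by gcongr
        _ = n * (1 - ‖x‖) * ‖x‖ ^ n + Real.pi * ‖x‖ ^ n := by ring
        _ ≤ 1 + Real.pi * 1 := by gcongr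
        _ ≤ 9 * ‖1 + x ^ n‖ := by linarith
  · intro hr
    rcases lt_or_ge ‖1 + x ^ n‖ (1 / 2) with h | h
    · have h2 := bound2 n hn x h
      have h3 : n * ‖x - ω‖ ≤ 3 * ‖1 + x ^ n‖ := by
        refine le_trans ?_ h2
        gcongr
      linarith
    · have h4 : n * ‖x - ω‖ ≤ n * (‖x‖ - 1) + Real.pi := by
        have e : |‖x‖ - 1| = ‖x‖ - 1 := abs_of_nonneg (by linarith)
        rw [e] at hb1
        calc n * ‖x - ω‖ ≤ n * ((‖x‖ - 1) + Real.pi / n) := by gcongr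
          _ = n * (‖x‖ - 1) + Real.pi := by field_simp
      have h5 := bern2 n ‖x‖ hr
      have h6 : ‖x‖ ^ n - 1 ≤ ‖1 + x ^ n‖ := by
        have := norm_sub_norm_le (x ^ n) (-1 : ℂ)
        rw [norm_pow, norm_neg, norm_one, sub_neg_eq_add, add_comm] at this
        linarith
      nlinarith

end Pool.Agent.ARC
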