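import Pool.Agent.ARC.Targets

set_option autoImplicit false

noncomputable section

namespace Pool.Agent.ARC

theorem RRC_.restrict {a b c d : ℕ} {X X' : Set (PP a b)} {f : PP a b → PP c d}
    (hf : HolOn X f) (h : X' ⊆ X) : HolOn X' f := by
  intro x hx v₀ w₀ hv hw
  obtain ⟨O, F, G, hO, hm, hF, hG, hI⟩ := hf x (h hx) v₀ w₀ hv hw
  exact ⟨O, F, G, hO, hm, hF, hG, fun y hy v w hvw h1 h2 => hI y (h hy) v w hvw h1 h2⟩

theorem RRC_.comp {a b c d e k : ℕ} {X : Set (PP a b)} {Y : Set (PP c d)}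
    {f : PP a b → PP c d} {g : PP c d → PP e k} (hf : HolOn X f) (hg : HolOn Y g)
    (hXY : ∀ x ∈ X, f x ∈ Y) : HolOn X (g ∘ f) := by
  intro x hx v₀ w₀ hv hw
  obtain ⟨O, F, G, hO, hm, hF, hG, hI⟩ := hf x hx v₀ w₀ hv hw
  obtain ⟨h1, h2⟩ := hI x hx v₀ w₀ hm hv hw
  obtain ⟨O', F', G', hO', hm', hF', hG', hI'⟩ :=
    hg (f x) (hXY x hx) (F (v₀, w₀)) (G (v₀, w₀)) h1 h2
  have hFG : DifferentiableOn ℂ (fun z => (F z, G z)) O := hF.prodMk hG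
  have hopen : IsOpen (O ∩ (fun z => (F z, G z)) ⁻¹' O') :=
    hFG.continuousOn.isOpen_inter_preimage hO hO'
  refine ⟨O ∩ (fun z => (F z, G z)) ⁻¹' O', fun z => F' (F z, G z), fun z => G' (F z, G z),
    hopen, ⟨hm, hm'⟩, ?_, ?_, ?_⟩
  · exact hF'.comp (hFG.mono Set.inter_subset_left) (fun z hz => hz.2)
  · exact hG'.comp (hFG.mono Set.inter_subset_left) (fun z hz => hz.2)
  · intro y hy v w hvw h3 h4
    obtain ⟨h5, h6⟩ := hI y hy v w hvw.1 h3 h4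
    exact hI' (f y) (hXY y hy) (F (v, w)) (G (v, w)) hvw.2 h5 h6

theorem p_RRC : T_RRC := by
  intro a b c d e k X Y f g hf
  exact ⟨fun hg hXY => RRC_.comp hf hg hXY, fun X' h => RRC_.restrict hf h⟩

end Pool.Agent.ARC
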