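import Pool.Agent.ARC.Targets5

set_option autoImplicit false

/-!
# ARC, target RTE: points joined by a rational curve are joined by an elliptic curve
-/

noncomputable section

open Filter Topology

namespace Pool.Agent.ARC

namespace RTE_

/-- The square lattice. -/
def sq : PeriodPair where
  ω₁ := 1
  ω₂ := Complex.I
  indep := by
    have h := Complex.basisOneI.linearIndependent
    rwa [Complex.coe_basisOneI] at h

theorem vform_scale (h_FRM : T_FRM) {a : ℕ} (p : ℕ) (A : Fin (a + 1) → ℕ → ℂ) (r s t : ℂ) :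
    vform p A (r * s) (r * t) = r ^ p • vform p A s t := by
  funext i
  show form p (A i) (r * s) (r * t) = r ^ p * form p (A i) s t
  exact h_FRM.1 p (A i) r s t

theorem vform_diff {a : ℕ} (p : ℕ) (A : Fin (a + 1) → ℕ → ℂ) (g h : ℂ → ℂ) (N : Set ℂ)
    (hg : DifferentiableOn ℂ g N) (hh : DifferentiableOn ℂ h N) :
    DifferentiableOn ℂ (fun z => vform p A (g z) (h z)) N := by
  rw [differentiableOn_pi]
  intro i
  show DifferentiableOn ℂ
    (fun z => ∑ j ∈ Finset.range (p + 1), A i j * g z ^ j * h z ^ (p - j)) N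
  refine DifferentiableOn.fun_sum fun j _ => ?_
  exact ((hg.pow j).const_mul (A i j)).mul (hh.pow (p - j))

/-- The function near a lattice point. -/
def near (c l z : ℂ) : ℂ :=
  (z - l) ^ 2 * sq.weierstrassPExcept l z + 1 - (z - l) ^ 2 / l ^ 2 - (z - l) ^ 2 * c

theorem near_eq (c l z : ℂ) (hl : l ∈ sq.lattice) (hz : z ≠ l) :
    near c l z = (z - l) ^ 2 * (sq.weierstrassP z - c) := by
  have h := sq.ite_eq_one_sub_sq_mul_weierstrassP l hl z
  rw [if_neg hz] at h
  unfold near
  rw [← h]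
  ring

theorem near_self (c l : ℂ) : near c l l = 1 := by
  unfold near
  simp

theorem near_diff (c l : ℂ) : DifferentiableOn ℂ (near c l) ((sq.lattice : Set ℂ) \ {l})ᶜ := by
  have h := sq.differentiableOn_weierstrassPExcept l
  have h2 : Differentiable ℂ (fun z : ℂ => (z - l) ^ 2) := by fun_prop
  exact (((h2.differentiableOn.mul h).add_const 1).sub (h2.differentiableOn.div_const _)).sub
    (h2.differentiableOn.mul_const c)

end RTE_

open RTE_ in
/-- Target RTE. -/
theorem p_RTE (h_ISB : T_ISB) (h_FRM : T_FRM) : T_RTE := by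
  intro a b U x y hJ
  obtain ⟨p, q, A, B, hU, hx1, hx2, hy1, hy2⟩ := hJ
  by_cases hxy : x = y
  · subst hxy
    exact Relation.ReflTransGen.refl
  set c : ℂ := sq.weierstrassP (1 / 2) with hc
  have hyU : y ∈ U := by
    obtain ⟨u, hu, h1, h2⟩ := hU 1 0 (by simp)
    have : u = y := Prod.ext (is_unique h1 hy1) (is_unique h2 hy2)
    rwa [this] at hu
  have hex : ∀ z : ℂ, ∃ u : PP a b, u ∈ U ∧ (z ∈ sq.lattice → u = y) ∧
      (z ∉ sq.lattice → Is (vform p A (sq.weierstrassP z - c) 1) u.1 ∧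
        Is (vform q B (sq.weierstrassP z - c) 1) u.2) := by
    intro z
    by_cases hz : z ∈ sq.lattice
    · exact ⟨y, hyU, fun _ => rfl, fun h => (h hz).elim⟩
    · obtain ⟨u, hu, h1, h2⟩ := hU (sq.weierstrassP z - c) 1 (by simp)
      exact ⟨u, hu, fun h => (hz h).elim, fun _ => ⟨h1, h2⟩⟩
  choose f hfU hfy hfo using hex
  have hper : ∀ l ∈ sq.lattice, ∀ z, f (z + l) = f z := by
    intro l hl z
    by_cases hz : z ∈ sq.lattice
    · rw [hfy z hz, hfy _ (add_mem hz hl)]
    · have hz' : z + l ∉ sq.lattice := fun h => hz (by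
        have := sub_mem h hl
        rwa [add_sub_cancel_right] at this)
      obtain ⟨h1, h2⟩ := hfo z hz
      obtain ⟨h3, h4⟩ := hfo _ hz'
      have e := sq.weierstrassP_add_coe z ⟨l, hl⟩
      rw [e] at h3 h4
      exact Prod.ext (is_unique h3 h1) (is_unique h4 h2)
  have hhalf : (1 / 2 : ℂ) ∉ sq.lattice := sq.ω₁_div_two_notMem_lattice
  have hfx : f (1 / 2) = x := by
    obtain ⟨h1, h2⟩ := hfo _ hhalf
    rw [← hc, sub_self] at h1 h2
    exact Prod.ext (is_unique h1 hx1) (is_unique h2 hx2)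
  have hf0 : f 0 = y := hfy 0 (zero_mem _)
  have hol : HolC f := by
    intro z₀
    by_cases hz₀ : z₀ ∈ sq.lattice
    · refine ⟨((sq.lattice : Set ℂ) \ {z₀})ᶜ, fun z => vform p A (near c z₀ z) ((z - z₀) ^ 2),
        fun z => vform q B (near c z₀ z) ((z - z₀) ^ 2), sq.isOpen_compl_lattice_sdiff, by simp,
        ?_, ?_, ?_⟩
      · exact vform_diff p A _ _ _ (near_diff c z₀) (by fun_prop)
      · exact vform_diff q B _ _ _ (near_diff c z₀) (by fun_prop)
      · intro z hz
        by_cases hzz : z = z₀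
        · subst hzz
          show Is (vform p A (near c z z) ((z - z) ^ 2)) (f z).1 ∧
            Is (vform q B (near c z z) ((z - z) ^ 2)) (f z).2
          rw [near_self, sub_self, zero_pow two_ne_zero, hfy z hz₀]
          exact ⟨hy1, hy2⟩
        · have hzn : z ∉ sq.lattice := fun h => hz ⟨h, hzz⟩
          obtain ⟨h1, h2⟩ := hfo z hzn
          have hne : (z - z₀) ^ 2 ≠ 0 := pow_ne_zero 2 (sub_ne_zero.2 hzz)
          have e1 : vform p A (near c z₀ z) ((z - z₀) ^ 2) =
              ((z - z₀) ^ 2) ^ p • vform p A (sq.weierstrassP z - c) 1 := by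
            rw [near_eq c z₀ z hz₀ hzz, ← vform_scale h_FRM, mul_one]
          have e2 : vform q B (near c z₀ z) ((z - z₀) ^ 2) =
              ((z - z₀) ^ 2) ^ q • vform q B (sq.weierstrassP z - c) 1 := by
            rw [near_eq c z₀ z hz₀ hzz, ← vform_scale h_FRM, mul_one]
          show Is (vform p A (near c z₀ z) ((z - z₀) ^ 2)) (f z).1 ∧
            Is (vform q B (near c z₀ z) ((z - z₀) ^ 2)) (f z).2
          rw [e1, e2]
          exact ⟨(h_ISB a).2.2.2.1 _ _ _ (pow_ne_zero p hne) h1,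
            (h_ISB b).2.2.2.1 _ _ _ (pow_ne_zero q hne) h2⟩
    · have hd : DifferentiableOn ℂ (fun z => sq.weierstrassP z - c) ((sq.lattice : Set ℂ))ᶜ :=
        sq.differentiableOn_weierstrassP.sub_const c
      refine ⟨((sq.lattice : Set ℂ))ᶜ, fun z => vform p A (sq.weierstrassP z - c) 1,
        fun z => vform q B (sq.weierstrassP z - c) 1, sq.isClosed_lattice.isOpen_compl, hz₀,
        vform_diff p A _ _ _ hd (by fun_prop), vform_diff q B _ _ _ hd (by fun_prop), ?_⟩
      intro z hz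
      exact hfo z hz
  refine Relation.ReflTransGen.single ⟨Set.range f, ⟨Complex.I, f, ?_, hol, ?_, ?_, rfl, ?_⟩, ?_,
    ⟨1 / 2, hfx⟩, ⟨0, hf0⟩⟩
  · rw [Complex.I_im]; exact one_pos
  · exact hper 1 sq.ω₁_mem_lattice
  · exact hper Complex.I sq.ω₂_mem_lattice
  · exact ⟨x, ⟨1 / 2, hfx⟩, y, ⟨0, hf0⟩, hxy⟩
  · rintro _ ⟨z, rfl⟩
    exact hfU z

end Pool.Agent.ARC
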