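import Pool.Agent.ARC.Targets3

set_option autoImplicit false

namespace Pool.Agent.ARC

open Filter Topology

theorem p_SCQ : T_SCQ := by
  intro a b c d X Y φ E _ θ hX hφ hXY hθ hinj hsc x₀ ε hε
  have hy0 : φ x₀ ∈ Y := by
    rw [← hXY]
    exact ⟨x₀, x₀.2, rfl⟩
  have hYc : IsCompact Y := by
    rw [← hXY]
    exact hX.image_of_continuousOn hφ
  have h1 : θ ⁻¹' Metric.ball (θ (φ x₀)) ε ∈ 𝓝[Y] (φ x₀) :=
    (hθ _ hy0) (Metric.ball_mem_nhds _ hε)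
  obtain ⟨N, hNo, hN0, hN⟩ := mem_nhdsWithin.1 h1
  obtain ⟨N', hN'N, hN'o, hN'0, hS⟩ := hsc _ hy0 N hNo hN0
  refine ⟨θ '' (Y ∩ N'), ?_, ?_, ?_⟩
  · have hC : IsClosed (θ '' (Y \ N')) :=
      ((hYc.diff hN'o).image_of_continuousOn (hθ.mono Set.diff_subset)).isClosed
    have h0 : θ (φ x₀) ∉ θ '' (Y \ N') := by
      rintro ⟨y, ⟨hy, hyN⟩, he⟩
      have : y = φ x₀ := hinj hy hy0 he
      rw [this] at hyN
      exact hyN hN'0
    apply mem_nhdsWithin.2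
    refine ⟨(θ '' (Y \ N'))ᶜ, hC.isOpen_compl, h0, ?_⟩
    rintro z ⟨hz, ⟨x, rfl⟩⟩
    have hyx : φ x ∈ Y := by
      rw [← hXY]
      exact ⟨x, x.2, rfl⟩
    by_cases hx : φ x ∈ N'
    · exact ⟨φ x, ⟨hyx, hx⟩, rfl⟩
    · exact absurd ⟨φ x, ⟨hyx, hx⟩, rfl⟩ hz
  · rintro _ ⟨y, ⟨hy, hyN⟩, rfl⟩
    exact hN ⟨hN'N hyN, hy⟩
  · have hpred : (fun x : X => θ (φ x) ∈ θ '' (Y ∩ N')) = (fun x : X => φ x ∈ N') := by
      funext x
      apply propext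
      have hyx : φ x ∈ Y := by
        rw [← hXY]
        exact ⟨x, x.2, rfl⟩
      constructor
      · rintro ⟨y, ⟨hy, hyN⟩, he⟩
        have : y = φ x := hinj hy hyx he
        rwa [← this]
      · intro hx
        exact ⟨φ x, ⟨hyx, hx⟩, rfl⟩
    change SimplyConnectedSpace (Subtype fun x : X => θ (φ x) ∈ θ '' (Y ∩ N'))
    rw [hpred]
    exact hS

end Pool.Agent.ARC
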