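import Pool.Agent.ARC.Targets

set_option autoImplicit false

/-!
# ARC: target SEG

An embedding into a product of projective spaces with prescribed holomorphic second component.
-/

noncomputable section

open Filter Topology

namespace Pool.Agent.ARC

namespace SEG_

/-- Numbering of the pairs of indices. -/
def E (c d : ℕ) : Fin (c * d + c + d + 1) ≃ Fin (c + 1) × Fin (d + 1) :=
  (finCongr (by ring : c * d + c + d + 1 = (c + 1) * (d + 1))).trans finProdFinEquiv.symm

/-- The Segre vector. -/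
def seg {c d : ℕ} (v : Vec c) (w : Vec d) : Vec (c * d + c + d) :=
  fun k => v ((E c d) k).1 * w ((E c d) k).2

theorem seg_symm {c d : ℕ} (v : Vec c) (w : Vec d) (i : Fin (c + 1)) (j : Fin (d + 1)) :
    seg v w ((E c d).symm (i, j)) = v i * w j := by
  simp [seg]

theorem ex_ne {a : ℕ} {v : Vec a} (hv : v ≠ 0) : ∃ i, v i ≠ 0 := by
  by_contra hc
  push Not at hc
  exact hv (funext hc)

theorem seg_ne {c d : ℕ} {v : Vec c} {w : Vec d} (hv : v ≠ 0) (hw : w ≠ 0) : seg v w ≠ 0 := by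
  obtain ⟨i, hi⟩ := ex_ne hv
  obtain ⟨j, hj⟩ := ex_ne hw
  intro h
  have := congrFun h ((E c d).symm (i, j))
  rw [seg_symm] at this
  exact mul_ne_zero hi hj this

theorem seg_smul {c d : ℕ} (x y : ℂ) (v : Vec c) (w : Vec d) :
    seg (x • v) (y • w) = (x * y) • seg v w := by
  funext k
  simp only [seg, Pi.smul_apply, smul_eq_mul]
  ring

theorem seg_diff (c d : ℕ) : Differentiable ℂ (fun z : Vec c × Vec d => seg z.1 z.2) := by
  rw [differentiable_pi]
  intro k
  have h1 : Differentiable ℂ (fun z : Vec c × Vec d => z.1 ((E c d) k).1) :=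
    (differentiable_pi.1 differentiable_fst) _
  have h2 : Differentiable ℂ (fun z : Vec c × Vec d => z.2 ((E c d) k).2) :=
    (differentiable_pi.1 differentiable_snd) _
  exact h1.mul h2

end SEG_

open SEG_

/-- Target SEG. -/
theorem p_SEG (h_ISB : T_ISB) : T_SEG := by
  intro c d n Y g hg
  have hex : ∀ (a : ℕ) (p : Projectivization ℂ (Vec a)), ∃ v, Is v p := fun a => (h_ISB a).1
  have hsc : ∀ (a : ℕ) (v : Vec a) (p : Projectivization ℂ (Vec a)) (x : ℂ), x ≠ 0 → Is v p →
      Is (x • v) p := fun a => (h_ISB a).2.2.2.1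
  have hpr : ∀ (a : ℕ) (v w : Vec a) (p : Projectivization ℂ (Vec a)), Is v p → Is w p →
      ∃ x : ℂ, x ≠ 0 ∧ w = x • v := fun a => (h_ISB a).2.2.2.2.1
  have hne : ∀ {a : ℕ} {v : Vec a} {p : Projectivization ℂ (Vec a)}, Is v p → v ≠ 0 :=
    fun h => h.1
  -- the embedding
  obtain ⟨e, he1, he2⟩ : ∃ e : PP c d → PP (c * d + c + d) n,
      (∀ (y : PP c d) (v : Vec c) (w : Vec d), Is v y.1 → Is w y.2 → Is (seg v w) (e y).1) ∧
      ∀ y, (e y).2 = (g y).2 := by
    refine ⟨fun y => (Projectivization.mk ℂ (seg y.1.rep y.2.rep)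
      (seg_ne y.1.rep_nonzero y.2.rep_nonzero), (g y).2), ?_, fun y => rfl⟩
    intro y v w hv hw
    have h1 : Is y.1.rep y.1 := ⟨y.1.rep_nonzero, y.1.mk_rep⟩
    have h2 : Is y.2.rep y.2 := ⟨y.2.rep_nonzero, y.2.mk_rep⟩
    obtain ⟨x, hx, rfl⟩ := hpr _ _ _ _ h1 hv
    obtain ⟨x', hx', rfl⟩ := hpr _ _ _ _ h2 hw
    rw [seg_smul]
    exact hsc _ _ _ _ (mul_ne_zero hx hx') ⟨_, rfl⟩
  -- the key computation
  have key : ∀ (y : PP c d) (v : Vec c) (w : Vec d) (z : Vec (c * d + c + d))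
      (k : Fin (c * d + c + d + 1)), Is v y.1 → Is w y.2 → Is z (e y).1 → z k ≠ 0 →
      Is (fun i => z ((E c d).symm (i, ((E c d) k).2))) y.1 ∧
      Is (fun j => z ((E c d).symm (((E c d) k).1, j))) y.2 := by
    intro y v w z k hv hw hz hk
    obtain ⟨x, hx, rfl⟩ := hpr _ _ _ _ (he1 y v w hv hw) hz
    have hk' : x * (v ((E c d) k).1 * w ((E c d) k).2) ≠ 0 := hk
    have hv' : v ((E c d) k).1 ≠ 0 := fun h => hk' (by rw [h]; ring)
    have hw' : w ((E c d) k).2 ≠ 0 := fun h => hk' (by rw [h]; ring)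
    constructor
    · have : (fun i => (x • seg v w) ((E c d).symm (i, ((E c d) k).2))) =
          (x * w ((E c d) k).2) • v := by
        funext i
        simp only [Pi.smul_apply, smul_eq_mul, seg_symm]
        ring
      rw [this]
      exact hsc _ _ _ _ (mul_ne_zero hx hw') hv
    · have : (fun j => (x • seg v w) ((E c d).symm (((E c d) k).1, j))) =
          (x * v ((E c d) k).1) • w := by
        funext i
        simp only [Pi.smul_apply, smul_eq_mul, seg_symm]
        ring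
      rw [this]
      exact hsc _ _ _ _ (mul_ne_zero hx hv') hw
  have hinj : Function.Injective e := by
    intro y y' hyy
    obtain ⟨v, hv⟩ := hex _ y.1
    obtain ⟨w, hw⟩ := hex _ y.2
    obtain ⟨v', hv'⟩ := hex _ y'.1
    obtain ⟨w', hw'⟩ := hex _ y'.2
    have hz := he1 y v w hv hw
    obtain ⟨k, hk⟩ := ex_ne (hne hz)
    obtain ⟨a1, a2⟩ := key y v w _ k hv hw hz hk
    rw [hyy] at hz
    obtain ⟨b1, b2⟩ := key y' v' w' _ k hv' hw' hz hk
    exact Prod.ext (is_unique a1 b1) (is_unique a2 b2)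
  have hone : ∀ a : ℕ, (fun _ : Fin (a + 1) => (1 : ℂ)) ≠ 0 := fun a h =>
    one_ne_zero (congrFun h 0)
  have : Nonempty (PP c d) :=
    ⟨(Projectivization.mk ℂ _ (hone c), Projectivization.mk ℂ _ (hone d))⟩
  refine ⟨c * d + c + d, e, ⟨?_, Function.invFun e, ?_, fun x _ =>
    Function.leftInverse_invFun hinj x⟩, fun y _ => he2 y⟩
  · intro x hx v₀ w₀ hv₀ hw₀
    obtain ⟨O, F, G, hO, hm, hF, hG, hh⟩ := hg x hx v₀ w₀ hv₀ hw₀
    refine ⟨O, fun z => seg z.1 z.2, G, hO, hm, (seg_diff c d).differentiableOn, hG, ?_⟩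
    intro y hy v w hvw hv hw
    refine ⟨he1 y v w hv hw, ?_⟩
    rw [he2]
    exact (hh y hy v w hvw hv hw).2
  · rintro _ ⟨x, hx, rfl⟩ z₀ w₀ hz₀ hw₀
    obtain ⟨k, hk⟩ := ex_ne (hne hz₀)
    refine ⟨{z | z.1 k ≠ 0}, fun z => fun i => z.1 ((E c d).symm (i, ((E c d) k).2)),
      fun z => fun j => z.1 ((E c d).symm (((E c d) k).1, j)), ?_, hk, ?_, ?_, ?_⟩
    · exact isOpen_ne_fun ((continuous_apply k).comp continuous_fst) continuous_const
    · apply Differentiable.differentiableOn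
      rw [differentiable_pi]
      intro i
      exact (differentiable_pi.1 differentiable_fst) _
    · apply Differentiable.differentiableOn
      rw [differentiable_pi]
      intro i
      exact (differentiable_pi.1 differentiable_fst) _
    · rintro _ ⟨y, hy, rfl⟩ z w' hzw hz hw'
      obtain ⟨v, hv⟩ := hex _ y.1
      obtain ⟨w, hw⟩ := hex _ y.2
      rw [Function.leftInverse_invFun hinj y]
      exact key y v w z k hv hw hz hzw

end Pool.Agent.ARC
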