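import Pool.Agent.ARC.Targets2

set_option autoImplicit false

/-!
# ARC: SHJ, sharp points and joined points (MP_1c7abc_ag)
-/

noncomputable section

namespace Pool.Agent.ARC

namespace SHJ_

/-- A form of degree `0` is constant. -/
theorem form_zero (c : ℕ → ℂ) (s t : ℂ) : form 0 c s t = c 0 := by
  simp [form]

theorem vform_zero {a : ℕ} (A : Fin (a + 1) → ℕ → ℂ) (s t : ℂ) :
    vform 0 A s t = fun i => A i 0 := by
  funext i
  exact form_zero (A i) s t

end SHJ_

theorem p_SHJ : T_SHJ := by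
  intro a b U x
  constructor
  · rintro ⟨v, w, hv, hw, m, A, hm, hA, hU⟩
    have h10 : ((1 : ℂ), (0 : ℂ)) ≠ (0, 0) := by
      intro h
      exact one_ne_zero (Prod.ext_iff.mp h).1
    obtain ⟨y, -, hy1, hy2⟩ := hU 1 0 h10
    have hB : ∀ s t : ℂ, vform 0 (fun i _ => w i : Fin (b + 1) → ℕ → ℂ) s t = w :=
      fun s t => SHJ_.vform_zero _ s t
    refine ⟨m, y, hm, A, fun i _ => w i, ?_, ?_, ?_, hy1, ?_⟩
    · intro s t hst
      rw [hB]
      exact hU s t hst
    · rw [hA]
      exact hv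
    · rw [hB]
      exact hw
    · rw [hB]
      exact hy2
  · rintro ⟨m, y, hm, A, B, hU, h1, h2, -, -⟩
    refine ⟨vform m A 0 1, vform 0 B 0 1, h1, h2, m, A, hm, rfl, ?_⟩
    intro s t hst
    have h3 := hU s t hst
    rw [SHJ_.vform_zero] at h3 ⊢
    exact h3

end Pool.Agent.ARC
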