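import Pool.Agent.ARC.Targets2

set_option autoImplicit false

/-!
# ARC, SHN: the neighbourhood in the slice of a sharp point
-/

open Filter Topology

namespace Pool.Agent.ARC

/-- SHN. The neighbourhood in the slice of a sharp point. -/
theorem p_SHN (h_SHJ : T_SHJ) (h_PER : T_PER) (h_JTR : T_JTR) (h_SYM : T_SYM) : T_SHN := by
  intro a b U x hU hx
  obtain ⟨m, y, hm, hj⟩ := (h_SHJ a b U x).mp hx
  obtain ⟨N, hN, hxN, hN'⟩ := h_PER a b m 0 U x y hU hj
  refine ⟨N, hN, hxN, fun x' hx' h2 => ?_⟩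
  have h3 : JoinedD U m 0 x' y := hN' x' hx' (Or.inl hm) (Or.inr h2)
  exact ⟨_, _, h_JTR a b m 0 m 0 U x y x' hU hj ((h_SYM a b U).1 m 0 x' y h3)⟩

end Pool.Agent.ARC
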