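import Pool.Agent.ARC.Targets2

set_option autoImplicit false

/-!
# ARC: SHO, the set of sharp points is open
-/

noncomputable section

open Filter Topology

namespace Pool.Agent.ARC

namespace SHO_

theorem cone_sharp (h_BUO : T_BUO) (h_CNC : T_CNC) (h_ISB : T_ISB) {a b : ℕ}
    {U : Set (PP a b)} (hU : IsOpenP U) : cone (Sharp U) = Bub (cone U) := by
  obtain ⟨hc1, hc2, hc3⟩ := h_CNC a b U
  obtain ⟨hO, hC, hS⟩ := h_BUO a b (cone U) hc1 hU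
  obtain ⟨-, hex, -, -, hpr, -⟩ := h_ISB a
  obtain ⟨-, hex', -, -, hpr', -⟩ := h_ISB b
  ext z
  obtain ⟨v, w⟩ := z
  constructor
  · rintro ⟨x, ⟨v', w', hv', hw', hB⟩, hv, hw⟩
    obtain ⟨c, hc, rfl⟩ := hpr v' v x.1 hv' hv
    obtain ⟨c', hc', rfl⟩ := hpr' w' w x.2 hw' hw
    exact hC c c' v' w' hc hc' hB
  · intro hB
    obtain ⟨hv0, hw0⟩ := hc3 v w (hS hB)
    obtain ⟨p, hp⟩ := hex v hv0
    obtain ⟨q, hq⟩ := hex' w hw0
    exact ⟨(p, q), ⟨v, w, hp, hq, hB⟩, hp, hq⟩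

end SHO_

theorem p_SHO (h_BUO : T_BUO) (h_CNC : T_CNC) (h_ISB : T_ISB) : T_SHO := by
  intro a b U hU
  have h := SHO_.cone_sharp h_BUO h_CNC h_ISB hU
  obtain ⟨hc1, hc2, hc3⟩ := h_CNC a b U
  obtain ⟨hO, hC, hS⟩ := h_BUO a b (cone U) hc1 hU
  refine ⟨?_, h, ?_⟩
  · show IsOpen (cone (Sharp U))
    rw [h]
    exact hO
  · rintro x ⟨v, w, hv, hw, hB⟩
    exact (hc2 x v w hv hw).mp (hS hB)

end Pool.Agent.ARC

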