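import Pool.Agent.ARC.Targets2

set_option autoImplicit false

/-!
# ARC: SHP, in type 1 every point of the image is sharp (MP_1c7abc_ag)
-/

noncomputable section

namespace Pool.Agent.ARC

theorem p_SHP (h_CHN : T_CHN) (h_SLI : T_SLI) (h_SLJ : T_SLJ) (h_SHJ : T_SHJ) (h_SYM : T_SYM) :
    T_SHP := by
  intro a b c d m n X φ j U hj hinj hU hjU hfib hch hconst
  rintro _ ⟨x, hx, rfl⟩
  obtain ⟨x', hx', hne, hφ⟩ := hfib x hx
  have hU' : IsOpenP {z : PP m n | (z.1, (j x).2) ∈ U} := h_SLI m n n U (j x).2 hU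
  have hFU : j '' {z | z ∈ X ∧ φ z = φ x} ⊆ {z : PP m n | (z.1, (j x).2) ∈ U} := by
    rintro _ ⟨z, ⟨hz, hzφ⟩, rfl⟩
    have h2 : (j z).2 = (j x).2 := hconst z hz x hx hzφ
    show ((j z).1, (j x).2) ∈ U
    rw [← h2]
    exact hjU ⟨z, hz, rfl⟩
  obtain ⟨p, q, hJ⟩ := h_CHN a b m n X {z | z ∈ X ∧ φ z = φ x} j
    {z : PP m n | (z.1, (j x).2) ∈ U} x x' hj (fun z hz => hz.1) hFU hU' ⟨hx, rfl⟩
    (hch x hx x' hx' hφ.symm)
  have hjne : j x ≠ j x' := fun h => hne (hinj hx hx' h).symm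
  have h2 : (j x).2 = (j x').2 := hconst x hx x' hx' hφ.symm
  have h1 : (j x).1 ≠ (j x').1 := fun h => hjne (Prod.ext h h2)
  have hp : 1 ≤ p := ((h_SYM m n {z : PP m n | (z.1, (j x).2) ∈ U}).2.2.2.2 p q (j x) (j x')
    hJ).1 h1
  have hJ' : JoinedD U p 0 ((j x).1, (j x).2) ((j x').1, (j x).2) :=
    h_SLJ m n n p q U (j x).2 (j x) (j x') hJ
  exact (h_SHJ m n U (j x)).2 ⟨p, ((j x').1, (j x).2), hp, hJ'⟩

end Pool.Agent.ARC
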