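import Pool.Agent.ARC.Targets

set_option autoImplicit false

noncomputable section

open Filter Topology

namespace Pool.Agent.ARC

/-- SLI. Slices of open sets are open. -/
theorem p_SLI (h_CNC : T_CNC) (h_ISB : T_ISB) : T_SLI := by
  intro a b c U y hU
  obtain ⟨w, hw⟩ := (h_ISB b).1 y
  have hset : cone {x : PP a c | (x.1, y) ∈ U} =
      {z : Vec a × Vec c | z.2 ≠ 0} ∩ {z : Vec a × Vec c | (z.1, w) ∈ cone U} := by
    ext z
    constructor
    · rintro ⟨x, hx, h1, h2⟩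
      exact ⟨h2.1, (((h_CNC a b U).2.1 (x.1, y) z.1 w h1 hw).2 hx)⟩
    · rintro ⟨h2, h1⟩
      have hz1 : z.1 ≠ 0 := ((h_CNC a b U).2.2 z.1 w h1).1
      obtain ⟨p, hp⟩ := (h_ISB a).2.1 z.1 hz1
      obtain ⟨q, hq⟩ := (h_ISB c).2.1 z.2 h2
      exact ⟨(p, q), ((h_CNC a b U).2.1 (p, y) z.1 w hp hw).1 h1, hp, hq⟩
  have hU' : IsOpen (cone U) := hU
  show IsOpen (cone {x : PP a c | (x.1, y) ∈ U})
  rw [hset]
  refine (isOpen_ne_fun continuous_snd continuous_const).inter ?_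
  exact hU'.preimage (continuous_fst.prodMk continuous_const)

end Pool.Agent.ARC
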