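import Pool.Agent.ARC.Targets

set_option autoImplicit false

/-!
# ARC: joining in a slice (SLJ)
-/

namespace Pool.Agent.ARC

namespace SLJ_

theorem vform_zero {b : ℕ} (w : Vec b) (s t : ℂ) : vform 0 (fun i _ => w i) s t = w := by
  funext i
  simp [vform, form]

end SLJ_

theorem p_SLJ (h_ISB : T_ISB) : T_SLJ := by
  intro a b c p q U y x x' h
  obtain ⟨A, B, h0, h1, -, h3, -⟩ := h
  obtain ⟨w, hw⟩ := (h_ISB b).1 y
  refine ⟨A, fun i _ => w i, ?_, h1, ?_, h3, ?_⟩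
  · intro s t hst
    obtain ⟨z, hz, hz1, -⟩ := h0 s t hst
    rw [SLJ_.vform_zero]
    exact ⟨(z.1, y), hz, hz1, hw⟩
  · rw [SLJ_.vform_zero]
    exact hw
  · rw [SLJ_.vform_zero]
    exact hw

end Pool.Agent.ARC
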