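import Pool.Agent.ARC.Targets3

/-!
# ARC: target SMO, the main theorem for submersions
-/

set_option autoImplicit false

open Filter Topology

namespace Pool.Agent.ARC

theorem p_SMO (h_MAI : T_MAI) (h_OPS : T_OPS) (h_RIG : T_RIG) : T_SMO := by
  intro a b c d X Y φ hXc hXp hφ hXY hS hne hch hsc hY
  exact h_MAI a b c d X Y φ hXc hXp hφ hXY (h_OPS a b c d X Y φ hXY hS)
    (fun k l f hf hc => h_RIG a b c d k l X Y φ f hXY hS hf hc) hne hch hsc hY

end Pool.Agent.ARC
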