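import Pool.Agent.ARC.Targets5

set_option autoImplicit false

/-!
# ARC: p_SWN, exchange of the two factors (elliptic version)
-/

noncomputable section

open Filter Topology

namespace Pool.Agent.ARC

namespace SWN_

theorem holC_swap {c d : ℕ} {f : ℂ → PP d c} (hf : HolC f) :
    HolC (fun z => ((f z).swap : PP c d)) := by
  intro z₀
  obtain ⟨N, F, G, hN, hz, hF, hG, h⟩ := hf z₀
  exact ⟨N, G, F, hN, hz, hG, hF, fun z hzN => ⟨(h z hzN).2, (h z hzN).1⟩⟩

theorem ell_swap {c d : ℕ} {C : Set (PP d c)} (hC : EllCurve C) :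
    EllCurve {z : PP c d | z.swap ∈ C} := by
  obtain ⟨τ, f, hτ, hf, h1, h2, hCe, u, hu, v, hv, huv⟩ := hC
  refine ⟨τ, fun z => (f z).swap, hτ, holC_swap hf, ?_, ?_, ?_, ?_⟩
  · intro z
    show (f (z + 1)).swap = (f z).swap
    rw [h1]
  · intro z
    show (f (z + τ)).swap = (f z).swap
    rw [h2]
  · rw [hCe]
    ext z
    constructor
    · rintro ⟨t, ht⟩
      refine ⟨t, ?_⟩
      show (f t).swap = z
      rw [ht, Prod.swap_swap]
    · rintro ⟨t, rfl⟩
      refine ⟨t, ?_⟩
      show f t = (f t).swap.swap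
      rw [Prod.swap_swap]
  · refine ⟨u.swap, ?_, v.swap, ?_, ?_⟩
    · show u.swap.swap ∈ C
      rw [Prod.swap_swap]
      exact hu
    · show v.swap.swap ∈ C
      rw [Prod.swap_swap]
      exact hv
    · intro h
      exact huv (Prod.swap_injective h)

end SWN_

open SWN_ in
theorem p_SWN (h_SWP : T_SWP) : T_SWN := by
  intro a b c d X j h U hU hsub x hx y hy
  obtain ⟨x', hx', rfl⟩ := hx
  obtain ⟨y', hy', rfl⟩ := hy
  have hc := h {z : PP d c | z.swap ∈ U} ((h_SWP a b c d X j).2.2.1 U hU)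
    (by
      rintro z ⟨w, hw, rfl⟩
      show (j w).swap.swap ∈ U
      rw [Prod.swap_swap]
      exact hsub ⟨w, hw, rfl⟩)
    (j x').swap ⟨x', hx', rfl⟩ (j y').swap ⟨y', hy', rfl⟩
  have hl : ChainE U ((j x').swap.swap) ((j y').swap.swap) := by
    refine Relation.ReflTransGen.lift (Prod.swap : PP d c → PP c d) ?_ _ _ hc
    rintro u v ⟨C, hC, hCU, huC, hvC⟩
    refine ⟨{z : PP c d | z.swap ∈ C}, ell_swap hC, ?_, ?_, ?_⟩
    · intro z hz
      have h1 := hCU hz
      change z.swap.swap ∈ U at h1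
      rwa [Prod.swap_swap] at h1
    · show u.swap.swap ∈ C
      rw [Prod.swap_swap]
      exact huC
    · show v.swap.swap ∈ C
      rw [Prod.swap_swap]
      exact hvC
  rwa [Prod.swap_swap, Prod.swap_swap] at hl

end Pool.Agent.ARC
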