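import Pool.Agent.ARC.Targets

set_option autoImplicit false

/-!
# ARC: p_SWP, exchange of the two factors
-/

noncomputable section

open Filter Topology

namespace Pool.Agent.ARC

namespace SWP_

theorem hol {a b c d : ℕ} {X : Set (PP a b)} {j : PP a b → PP c d} (h : HolOn X j) :
    HolOn X (fun x => ((j x).swap : PP d c)) := by
  intro x hx v₀ w₀ hv hw
  obtain ⟨O, F, G, hO, hm, hF, hG, hh⟩ := h x hx v₀ w₀ hv hw
  exact ⟨O, G, F, hO, hm, hG, hF, fun y hy v w hvw h1 h2 =>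
    ⟨(hh y hy v w hvw h1 h2).2, (hh y hy v w hvw h1 h2).1⟩⟩

theorem cswap (a b : ℕ) : Continuous (Prod.swap : Vec a × Vec b → Vec b × Vec a) :=
  continuous_swap

theorem dswap (a b : ℕ) : Differentiable ℂ (Prod.swap : Vec a × Vec b → Vec b × Vec a) :=
  differentiable_snd.prodMk differentiable_fst

theorem holInv {a b c d : ℕ} {Y : Set (PP c d)} {g : PP c d → PP a b} (h : HolOn Y g)
    (Z : Set (PP d c)) (hZ : ∀ z ∈ Z, z.swap ∈ Y) :
    HolOn Z (fun z : PP d c => g z.swap) := by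
  intro z hz v₀ w₀ hv hw
  obtain ⟨O, F, G, hO, hm, hF, hG, hh⟩ := h z.swap (hZ z hz) w₀ v₀ hw hv
  refine ⟨Prod.swap ⁻¹' O, fun p => F p.swap, fun p => G p.swap, hO.preimage (cswap _ _), hm,
    ?_, ?_, ?_⟩
  · exact hF.comp (dswap _ _).differentiableOn (fun p hp => hp)
  · exact hG.comp (dswap _ _).differentiableOn (fun p hp => hp)
  · intro y hy v w hvw h1 h2
    exact hh y.swap (hZ y hy) w v hvw h2 h1

theorem cone_swap {c d : ℕ} (U : Set (PP c d)) :
    cone {x : PP d c | x.swap ∈ U} = Prod.swap ⁻¹' cone U := by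
  ext z
  constructor
  · rintro ⟨x, hx, h1, h2⟩
    exact ⟨x.swap, hx, h2, h1⟩
  · rintro ⟨x, hx, h1, h2⟩
    refine ⟨x.swap, ?_, h2, h1⟩
    show x.swap.swap ∈ U
    rw [Prod.swap_swap]
    exact hx

theorem open_swap {c d : ℕ} {U : Set (PP c d)} (hU : IsOpenP U) :
    IsOpenP {x : PP d c | x.swap ∈ U} := by
  show IsOpen (cone {x : PP d c | x.swap ∈ U})
  rw [cone_swap]
  exact IsOpen.preimage (cswap _ _) hU

theorem rat_swap {c d : ℕ} {C : Set (PP d c)} (hC : RatCurve C) :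
    RatCurve {z : PP c d | z.swap ∈ C} := by
  obtain ⟨p, q, A, B, hA, hB, hCe, u, hu, v, hv, huv⟩ := hC
  refine ⟨q, p, B, A, hB, hA, ?_, ?_⟩
  · rw [hCe]
    ext z
    constructor
    · rintro ⟨s, t, hst, h1, h2⟩
      exact ⟨s, t, hst, h2, h1⟩
    · rintro ⟨s, t, hst, h1, h2⟩
      exact ⟨s, t, hst, h2, h1⟩
  · refine ⟨u.swap, ?_, v.swap, ?_, ?_⟩
    · show u.swap.swap ∈ C
      rw [Prod.swap_swap]
      exact hu
    · show v.swap.swap ∈ C
      rw [Prod.swap_swap]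
      exact hv
    · intro h
      exact huv (Prod.swap_injective h)

end SWP_

open SWP_ in
theorem p_SWP : T_SWP := by
  intro a b c d X j
  refine ⟨hol, ?_, fun U hU => open_swap hU, ?_⟩
  · rintro ⟨hj, g, hg, hinv⟩
    refine ⟨hol hj, fun z => g z.swap, holInv hg _ ?_, ?_⟩
    · rintro z ⟨x, hx, rfl⟩
      refine ⟨x, hx, ?_⟩
      show j x = (j x).swap.swap
      rw [Prod.swap_swap]
    · intro x hx
      show g (j x).swap.swap = x
      rw [Prod.swap_swap]
      exact hinv x hx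
  · intro h U hU hsub x hx y hy hxy
    obtain ⟨x', hx', rfl⟩ := hx
    obtain ⟨y', hy', rfl⟩ := hy
    obtain ⟨C, hC, hCU, hxC, hyC⟩ := h {z : PP d c | z.swap ∈ U} (open_swap hU)
      (by
        rintro z ⟨w, hw, rfl⟩
        show (j w).swap.swap ∈ U
        rw [Prod.swap_swap]
        exact hsub ⟨w, hw, rfl⟩)
      (j x').swap ⟨x', hx', rfl⟩ (j y').swap ⟨y', hy', rfl⟩
      (fun he => hxy (Prod.swap_injective he))
    refine ⟨{z : PP c d | z.swap ∈ C}, rat_swap hC, ?_, hxC, hyC⟩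
    intro z hz
    have h1 := hCU hz
    change z.swap.swap ∈ U at h1
    rwa [Prod.swap_swap] at h1

end Pool.Agent.ARC
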