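import Pool.Agent.ARC.Targets

set_option autoImplicit false

/-!
# ARC, SYM: symmetry, reflexivity, monotonicity, members, and the degrees
-/

noncomputable section

open Filter Topology

namespace Pool.Agent.ARC

namespace SYM_

theorem form_rev (p : ℕ) (c : ℕ → ℂ) (s t : ℂ) :
    form p (fun k => c (p - k)) s t = form p c t s := by
  unfold form
  rw [← Finset.sum_range_reflect]
  refine Finset.sum_congr rfl fun j hj => ?_
  rw [Finset.mem_range] at hj
  have h1 : p + 1 - 1 - j = p - j := by omega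
  have h2 : p - (p - j) = j := by omega
  simp only [h1, h2]
  ring

theorem vform_rev {a : ℕ} (p : ℕ) (A : Fin (a + 1) → ℕ → ℂ) (s t : ℂ) :
    vform p (fun i k => A i (p - k)) s t = vform p A t s := by
  funext i
  exact form_rev p (A i) s t

theorem form_zero (c : ℕ → ℂ) (s t : ℂ) : form 0 c s t = c 0 := by
  simp [form]

theorem vform_zero {a : ℕ} (A : Fin (a + 1) → ℕ → ℂ) (s t : ℂ) :
    vform 0 A s t = fun i => A i 0 := by
  funext i
  exact form_zero (A i) s t

theorem ex_is {a : ℕ} (p : Projectivization ℂ (Vec a)) : ∃ v, Is v p :=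
  ⟨p.rep, p.rep_nonzero, p.mk_rep⟩

theorem swap_ne {s t : ℂ} (h : (s, t) ≠ ((0 : ℂ), (0 : ℂ))) : (t, s) ≠ ((0 : ℂ), (0 : ℂ)) := by
  intro h1
  apply h
  rw [Prod.mk.injEq] at h1 ⊢
  exact ⟨h1.2, h1.1⟩

end SYM_

open SYM_ in
theorem p_SYM : T_SYM := by
  intro a b U
  refine ⟨?_, ?_, ?_, ?_, ?_⟩
  · rintro p q x y ⟨A, B, h, h1, h2, h3, h4⟩
    refine ⟨fun i k => A i (p - k), fun i k => B i (q - k), ?_, ?_, ?_, ?_, ?_⟩
    · intro s t hst
      rw [vform_rev, vform_rev]
      exact h t s (swap_ne hst)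
    · rw [vform_rev]; exact h3
    · rw [vform_rev]; exact h4
    · rw [vform_rev]; exact h1
    · rw [vform_rev]; exact h2
  · intro x hx
    obtain ⟨v, hv⟩ := ex_is x.1
    obtain ⟨w, hw⟩ := ex_is x.2
    refine ⟨fun i _ => v i, fun i _ => w i, ?_, ?_, ?_, ?_, ?_⟩
    · intro s t _
      rw [vform_zero, vform_zero]
      exact ⟨x, hx, hv, hw⟩
    · rw [vform_zero]; exact hv
    · rw [vform_zero]; exact hw
    · rw [vform_zero]; exact hv
    · rw [vform_zero]; exact hw
  · rintro V p q x y hUV ⟨A, B, h, h1, h2, h3, h4⟩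
    refine ⟨A, B, ?_, h1, h2, h3, h4⟩
    intro s t hst
    obtain ⟨z, hz, hz1, hz2⟩ := h s t hst
    exact ⟨z, hUV hz, hz1, hz2⟩
  · rintro p q x y ⟨A, B, h, h1, h2, h3, h4⟩
    constructor
    · obtain ⟨z, hz, hz1, hz2⟩ := h 0 1 (by simp)
      have : x = z := Prod.ext (is_unique h1 hz1) (is_unique h2 hz2)
      rw [this]
      exact hz
    · obtain ⟨z, hz, hz1, hz2⟩ := h 1 0 (by simp)
      have : y = z := Prod.ext (is_unique h3 hz1) (is_unique h4 hz2)
      rw [this]
      exact hz
  · rintro p q x y ⟨A, B, h, h1, h2, h3, h4⟩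
    constructor
    · intro hne
      by_contra hp
      have hp0 : p = 0 := by omega
      subst hp0
      rw [vform_zero] at h1 h3
      exact hne (is_unique h1 h3)
    · intro hne
      by_contra hq
      have hq0 : q = 0 := by omega
      subst hq0
      rw [vform_zero] at h2 h4
      exact hne (is_unique h2 h4)

end Pool.Agent.ARC
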