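import Pool.Agent.ARC.Targets

/-!
# ARC, target T12: joining when both components are nonconstant on every fibre
-/

set_option autoImplicit false

open Filter Topology

namespace Pool.Agent.ARC

/-- The target T12. -/
theorem p_T12 (h_CHN : T_CHN) (h_JTR : T_JTR) (h_SYM : T_SYM) (h_PER : T_PER)
    (h_RCO : T_RCO) : T_T12 := by
  intro a b c d m n X φ j U hX hj hU hjU hch h1 h2
  obtain ⟨sy, -, -, -, dg⟩ := h_SYM m n U
  have hfib : ∀ x ∈ X, ∀ x' ∈ X, φ x = φ x' → Joined U (j x) (j x') := by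
    intro x hx x' hx' h
    refine h_CHN a b m n X {z | z ∈ X ∧ φ z = φ x} j U x x' hj (fun z hz => hz.1) ?_ hU
      ⟨hx, rfl⟩ (hch x hx x' hx' h)
    rintro _ ⟨z, hz, rfl⟩
    exact hjU ⟨z, hz.1, rfl⟩
  have step1 : ∀ x ∈ X, ∃ (y : PP m n) (p q : ℕ), 1 ≤ p ∧ 1 ≤ q ∧ JoinedD U p q (j x) y := by
    intro x hx
    obtain ⟨x', hx', hφ', hj1⟩ := h1 x hx
    obtain ⟨x'', hx'', hφ'', hj2⟩ := h2 x hx
    obtain ⟨p, q, hpq⟩ := hfib x hx x' hx' hφ'.symm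
    have hp : 1 ≤ p := (dg p q _ _ hpq).1 (Ne.symm hj1)
    by_cases h : (j x').2 = (j x).2
    · obtain ⟨p', q', hpq'⟩ := hfib x' hx' x'' hx'' (hφ'.trans hφ''.symm)
      have hq : 1 ≤ q' := (dg p' q' _ _ hpq').2 (by rw [h]; exact Ne.symm hj2)
      exact ⟨j x'', p + p', q + q', by omega, by omega,
        h_JTR m n p q p' q' U (j x) (j x') (j x'') hU hpq hpq'⟩
    · exact ⟨j x', p, q, hp, (dg p q _ _ hpq).2 (Ne.symm h), hpq⟩
  have step2 : ∀ x ∈ X, ∀ᶠ x' in 𝓝[X] x, Joined U (j x) (j x') := by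
    intro x hx
    obtain ⟨y, p, q, hp, hq, hpq⟩ := step1 x hx
    obtain ⟨N, hN, hxN, hall⟩ := h_PER m n p q U (j x) y hU hpq
    have hN' : IsOpen N := hN
    have hc : ContinuousWithinAt j X x := h_RCO a b m n X j hj x hx
    have ht : ∀ᶠ x' in 𝓝[X] x, j x' ∈ N := hc.eventually (hN'.mem_nhds hxN)
    filter_upwards [ht] with x' hx'
    have h3 : JoinedD U p q (j x') y := hall (j x') hx' (Or.inl hp) (Or.inl hq)
    exact ⟨p + p, q + q, h_JTR m n p q p q U (j x) y (j x') hU hpq (sy p q _ _ h3)⟩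
  intro x hx x' hx'
  refine hX.induction₂ (fun u v => Joined U (j u) (j v)) step2 ?_ ?_ hx hx'
  · rintro u v w _ _ _ ⟨p, q, hpq⟩ ⟨p', q', hpq'⟩
    exact ⟨p + p', q + q', h_JTR m n p q p' q' U _ _ _ hU hpq hpq'⟩
  · rintro u v _ _ ⟨p, q, hpq⟩
    exact ⟨p, q, sy p q _ _ hpq⟩

end Pool.Agent.ARC
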