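import Pool.Agent.ARC.Targets

set_option autoImplicit false

/-!
# ARC, TB2: a tube lemma
-/

namespace Pool.Agent.ARC

theorem p_TB2 : T_TB2 := by
  intro X S Z _ _ _ _ _ α β W hα hβ hW
  have h1 : IsClosed ({q : X × S | α q.1 = β q.2} ∩ Wᶜ) :=
    (isClosed_eq (hα.comp continuous_fst) (hβ.comp continuous_snd)).inter hW.isClosed_compl
  have h2 := isClosedMap_snd_of_compactSpace _ h1
  have h3 : {s | ∀ x, α x = β s → (x, s) ∈ W} =
      (Prod.snd '' ({q : X × S | α q.1 = β q.2} ∩ Wᶜ))ᶜ := by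
    ext s
    constructor
    · rintro hs ⟨⟨x, s'⟩, ⟨hx, hxW⟩, rfl⟩
      exact hxW (hs x hx)
    · intro hs x hx
      by_contra hW'
      exact hs ⟨(x, s), ⟨hx, hW'⟩, rfl⟩
  rw [h3]
  exact h2.isOpen_compl

end Pool.Agent.ARC
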