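import Pool.Agent.ARC.Targets5
import Pool.Agent.ARC.P_COR

set_option autoImplicit false

noncomputable section

/-!
# ARC: TOR, the gluing on a torus
-/

open Filter Topology Polynomial

namespace Pool.Agent.ARC

namespace TOR_

open COR_ in
/-- The gluing across the unit circle, with an additional small error. -/
theorem glE (h_ROO : T_ROO) (h_SUM : T_SUM) {a b : ℕ} (O : Set (Vec a × Vec b)) (M : ℕ)
    (ε C : ℝ) (hcon : Conic O) (hM : 2 ≤ M) (hε : 0 < ε) :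
    ∃ κ C' η : ℝ, 0 < κ ∧ κ ≤ 1 / 2 ∧ 0 < C' ∧ 0 < η ∧ ∀ (W : ℂ → Vec b) (G P : Fin (a + 1) → Polynomial ℂ),
      ContinuousOn W {x | x ≠ 0} → (∀ x : ℂ, ‖x‖ = 1 → BD O M ε C (pv G x) (W x)) →
      (∀ x : ℂ, ‖x‖ = 1 → ‖pv P x - pv G x‖ ≤ η) →
      ∃ Q : ℂ → ℕ → Vec a, (∀ ω : ℂ, ‖ω‖ = 1 → ∀ j, ‖Q ω j‖ ≤ C') ∧
      ∃ δ₀ : ℝ, 0 < δ₀ ∧ δ₀ < 1 ∧ ∀ δ : ℝ, 0 < δ → δ ≤ δ₀ → ∀ ε' : ℝ, 0 < ε' →
      ∃ n₀ : ℕ, ∀ n ≥ n₀, 1 ≤ n ∧
        (∀ x : ℂ, 1 - δ ≤ ‖x‖ → ‖x‖ ≤ 1 + δ → ∀ E : Vec a, ‖E‖ ≤ ε / 8 →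
          (pv (gl κ n M 0 G P Q) x + (1 + x ^ n) ^ M • E, W x) ∈ O) ∧
        (∀ x : ℂ, ‖x‖ ≤ 1 - δ → 1 + x ^ n ≠ 0 ∧
          ‖((1 + x ^ n) ^ M)⁻¹ • pv (gl κ n M 0 G P Q) x - pv P x‖ ≤ ε') ∧
        (∀ x : ℂ, 1 + δ ≤ ‖x‖ → 1 + x ^ n ≠ 0 ∧
          ‖((1 + x ^ n) ^ M)⁻¹ • pv (gl κ n M 0 G P Q) x - pv G x‖ ≤ ε') := by
  set C' := max C 1 with hC'
  have hC'1 : 1 ≤ C' := le_max_right _ _
  have hC'0 : 0 < C' := by linarith
  have hM0 : (0 : ℝ) < M := by exact_mod_cast (by omega : 0 < M)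
  obtain ⟨κ, hκ, hκ2, hκε⟩ : ∃ κ : ℝ, 0 < κ ∧ κ ≤ 1 / 2 ∧ 2 * M * C' * κ ^ 2 ≤ ε / 4 := by
    refine ⟨min (1 / 2) (ε / (8 * M * C')), by positivity, min_le_left _ _, ?_⟩
    set κ := min (1 / 2) (ε / (8 * M * C'))
    have h1 : κ ≤ 1 / 2 := min_le_left _ _
    have h2 : κ ≤ ε / (8 * M * C') := min_le_right _ _
    have h0 : 0 < κ := by positivity
    have h3 : κ * (8 * M * C') ≤ ε := by rwa [le_div_iff₀ (by positivity)] at h2
    nlinarith [mul_pos hM0 hC'0, mul_pos (mul_pos hM0 hC'0) h0]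
  refine ⟨κ, C', min (ε / 8) (κ * ε / 40), hκ, hκ2, hC'0, by positivity, ?_⟩
  set η := min (ε / 8) (κ * ε / 40) with hηdef
  have hη : 0 < η := by positivity
  have hη1 : η ≤ ε / 8 := min_le_left _ _
  have hη2 : η ≤ κ * ε / 40 := min_le_right _ _
  intro W G P hW hBD hPL
  -- the bubbles
  have hQex : ∀ ω : ℂ, ∃ Q : ℕ → Vec a, ‖ω‖ = 1 → (∀ j, ‖Q j‖ ≤ C') ∧
      ∀ (u e : Vec a) (w : Vec b), ‖u - pv G ω‖ < ε → ‖e‖ < ε → ‖w - W ω‖ < ε →
      ∀ s t : ℂ, (s, t) ≠ (0, 0) →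
      (t ^ M • u + (s * t ^ (M - 1)) • e + ∑ j ∈ Finset.Icc 2 M, (s ^ j * t ^ (M - j)) • Q j,
        w) ∈ O := by
    intro ω
    by_cases h : ‖ω‖ = 1
    · obtain ⟨Q, h1, h2⟩ := hBD ω h
      exact ⟨Q, fun _ => ⟨fun j => (h1 j).trans (le_max_left _ _), h2⟩⟩
    · exact ⟨0, fun h' => absurd h' h⟩
  choose Q hQ using hQex
  refine ⟨Q, fun ω h => (hQ ω h).1, ?_⟩
  -- uniform continuity near the circle
  set K : Set ℂ := {x | 1 / 2 ≤ ‖x‖ ∧ ‖x‖ ≤ 2} with hKdef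
  have hKc : IsCompact K := by
    refine Metric.isCompact_of_isClosed_isBounded ?_ ?_
    · exact (isClosed_le continuous_const continuous_norm).inter
        (isClosed_le continuous_norm continuous_const)
    · refine (Metric.isBounded_closedBall (x := (0 : ℂ)) (r := 2)).subset ?_
      intro x hx
      rw [mem_closedBall_zero_iff]
      exact hx.2
  have hpvc : ∀ R : Fin (a + 1) → Polynomial ℂ, Continuous (pv R) := fun R =>
    continuous_pi fun i => (R i).continuous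
  have hK0 : ∀ x ∈ K, x ≠ 0 := by
    intro x hx h
    have := hx.1
    rw [h, norm_zero] at this
    linarith
  have hu1 := Metric.uniformContinuousOn_iff.mp
    (hKc.uniformContinuousOn_of_continuous (hpvc G).continuousOn)
  have hu2 := Metric.uniformContinuousOn_iff.mp
    (hKc.uniformContinuousOn_of_continuous (hW.mono fun x hx => hK0 x hx))
  have hu3 := Metric.uniformContinuousOn_iff.mp
    (hKc.uniformContinuousOn_of_continuous ((hpvc P).sub (hpvc G)).continuousOn)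
  obtain ⟨δ₁, hδ₁, hu1⟩ := hu1 (ε / 8) (by positivity)
  obtain ⟨δ₂, hδ₂, hu2⟩ := hu2 ε hε
  obtain ⟨δ₃, hδ₃, hu3⟩ := hu3 η hη
  refine ⟨min (1 / 4) (min (δ₁ / 4) (min (δ₂ / 4) (δ₃ / 4))), by positivity,
    lt_of_le_of_lt (min_le_left _ _) (by norm_num), ?_⟩
  intro δ hδ hδ0 ε' hε'
  have hδ4 : δ ≤ 1 / 4 := hδ0.trans (min_le_left _ _)
  have hδ1 : δ ≤ δ₁ / 4 := hδ0.trans ((min_le_right _ _).trans (min_le_left _ _))
  have hδ2 : δ ≤ δ₂ / 4 :=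
    hδ0.trans ((min_le_right _ _).trans ((min_le_right _ _).trans (min_le_left _ _)))
  have hδ3 : δ ≤ δ₃ / 4 :=
    hδ0.trans ((min_le_right _ _).trans ((min_le_right _ _).trans (min_le_right _ _)))
  -- bounds
  obtain ⟨KP, NP, hKP, hNP, hgP⟩ := growth P
  obtain ⟨KG, NG, hKG, hNG, hgG⟩ := growth G
  obtain ⟨K1, hK1⟩ : ∃ K1 : ℝ, ∀ x : ℂ, ‖x‖ ≤ 1 → ‖pv P x‖ ≤ K1 ∧ ‖pv G x‖ ≤ K1 := by
    have hc : IsCompact (Metric.closedBall (0 : ℂ) 1) := isCompact_closedBall 0 1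
    obtain ⟨B1, hB1⟩ := hc.exists_bound_of_continuousOn (hpvc P).continuousOn
    obtain ⟨B2, hB2⟩ := hc.exists_bound_of_continuousOn (hpvc G).continuousOn
    refine ⟨max B1 B2, fun x hx => ?_⟩
    have hx' : x ∈ Metric.closedBall (0 : ℂ) 1 := by rwa [mem_closedBall_zero_iff]
    exact ⟨(hB1 x hx').trans (le_max_left _ _), (hB2 x hx').trans (le_max_right _ _)⟩
  have hρ1 : (0 : ℝ) ≤ 1 - δ := by linarith
  have hρ1' : 1 - δ < 1 := by linarith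
  have hρ2 : 1 < 1 + δ := by linarith
  set N := max NP NG with hN
  -- large n
  have ev1 : ∀ᶠ n : ℕ in atTop, 1 ≤ n ∧ N < n := by
    filter_upwards [eventually_ge_atTop 1, eventually_gt_atTop N]
      with n h1 h3 using ⟨h1, h3⟩
  have tinv : Tendsto (fun n : ℕ => (n : ℝ)⁻¹) atTop (𝓝 0) :=
    tendsto_inv_atTop_zero.comp tendsto_natCast_atTop_atTop
  have ev2 : ∀ᶠ n : ℕ in atTop, 4 / (n : ℝ) ≤ δ := by
    have h := (tinv.const_mul 4)
    rw [mul_zero] at h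
    filter_upwards [h.eventually (gt_mem_nhds hδ)] with n hn
    rw [div_eq_mul_inv]
    exact hn.le
  have ev3 : ∀ᶠ n : ℕ in atTop, κ / (n * δ) ≤ 1 := by
    have h := (tinv.const_mul (κ / δ))
    rw [mul_zero] at h
    filter_upwards [h.eventually (gt_mem_nhds one_pos)] with n hn
    have : κ / (n * δ) = κ / δ * (n : ℝ)⁻¹ := by
      rw [mul_comm, ← div_div, div_eq_mul_inv (κ / δ)]
    rw [this]
    exact hn.le
  have ev4 : ∀ᶠ n : ℕ in atTop, M * C' * κ ^ 2 / δ ^ 2 / n ≤ ε' / 2 := by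
    have h := (tinv.const_mul (M * C' * κ ^ 2 / δ ^ 2))
    rw [mul_zero] at h
    filter_upwards [h.eventually (gt_mem_nhds (half_pos hε'))] with n hn
    rw [div_eq_mul_inv _ (n : ℝ)]
    exact hn.le
  have tp1 : Tendsto (fun n : ℕ => (1 - δ) ^ n) atTop (𝓝 0) :=
    tendsto_pow_atTop_nhds_zero_of_lt_one hρ1 hρ1'
  have ev5 : ∀ᶠ n : ℕ in atTop, (1 - δ) ^ n ≤ 1 / 2 := by
    filter_upwards [tp1.eventually (gt_mem_nhds (by norm_num : (0 : ℝ) < 1 / 2))] with n hn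
    exact hn.le
  have ev6 : ∀ᶠ n : ℕ in atTop, 2 * K1 * ((1 - δ) ^ n + (1 - δ) ^ (n - 0)) ≤ ε' / 2 := by
    have h := (tp1.add (tp1.comp (tendsto_sub_atTop_nat 0))).const_mul (2 * K1)
    rw [add_zero, mul_zero] at h
    filter_upwards [h.eventually (gt_mem_nhds (half_pos hε'))] with n hn
    exact hn.le
  have ev7 : ∀ᶠ n : ℕ in atTop, 2 ≤ (1 + δ) ^ n :=
    (tendsto_pow_atTop_atTop_of_one_lt hρ2).eventually_ge_atTop 2
  have ev8 : ∀ᶠ n : ℕ in atTop, 4 * max KP KG * ((1 + δ)⁻¹) ^ (n - N) ≤ ε' / 2 := by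
    have t2 : Tendsto (fun n : ℕ => ((1 + δ)⁻¹) ^ n) atTop (𝓝 0) :=
      tendsto_pow_atTop_nhds_zero_of_lt_one (by positivity) (inv_lt_one_of_one_lt₀ hρ2)
    have h := (t2.comp (tendsto_sub_atTop_nat N)).const_mul (4 * max KP KG)
    rw [mul_zero] at h
    filter_upwards [h.eventually (gt_mem_nhds (half_pos hε'))] with n hn
    exact hn.le
  obtain ⟨n₀, hn₀⟩ := eventually_atTop.mp
    (ev1.and (ev2.and (ev3.and (ev4.and (ev5.and (ev6.and (ev7.and ev8)))))))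
  refine ⟨n₀, fun n hn => ?_⟩
  obtain ⟨⟨hn1, hNn⟩, e2, e3, e4, e5, e6, e7, e8⟩ := hn₀ n hn
  obtain ⟨hroot, hcard, hnorm, hnear⟩ := h_ROO n hn1
  have hr : ∀ ω ∈ rts n, ω ^ n = -1 := fun ω h => (hroot ω).mp h
  have hQb : ∀ ω ∈ rts n, ∀ j, ‖Q ω j‖ ≤ C' := fun ω h => (hQ ω (hnorm ω h)).1
  have hdegs : ∀ i, (P i).natDegree < n := by
    intro i
    have h1 := hNP i
    have h2 : NP ≤ N := le_max_left _ _
    omega
  refine ⟨hn1, ?_, ?_, ?_⟩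
  · -- annulus
    intro x hx1 hx2 E hE
    have hxK : x ∈ K := ⟨by linarith, by linarith⟩
    have hx0 : x ≠ 0 := hK0 x hxK
    by_cases hroot0 : 1 + x ^ n = 0
    · have hxr : x ∈ rts n := (hroot x).mpr (by
        have : x ^ n = -1 := by linear_combination hroot0
        exact this)
      rw [pv_gl_root κ n M 0 hn1 hM hr G P Q x hxr, hroot0, zero_pow (by omega), zero_smul,
        add_zero]
      have h1 := (hQ x (hnorm x hxr)).2 (pv G x) 0 (W x) (by rw [sub_self, norm_zero]; exact hε)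
        (by rw [norm_zero]; exact hε) (by rw [sub_self, norm_zero]; exact hε) 1 0 (by simp)
      have h2 : (0 : ℂ) ^ M • pv G x + ((1 : ℂ) * 0 ^ (M - 1)) • (0 : Vec a) +
          ∑ j ∈ Finset.Icc 2 M, ((1 : ℂ) ^ j * 0 ^ (M - j)) • Q x j = Q x M := by
        rw [zero_pow (by omega), zero_smul, smul_zero, zero_add, zero_add]
        rw [Finset.sum_eq_single M]
        · rw [Nat.sub_self, pow_zero, one_pow, one_mul, one_smul]
        · intro j hj hne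
          have hj' := Finset.mem_Icc.mp hj
          have : M - j ≠ 0 := by omega
          rw [zero_pow this, mul_zero, zero_smul]
        · intro h
          exact absurd (Finset.mem_Icc.mpr ⟨hM, le_refl M⟩) h
      rw [h2] at h1
      have h3 := hcon ((-(κ : ℂ)) ^ M) 1 _ _
        (pow_ne_zero M (neg_ne_zero.mpr (by exact_mod_cast hκ.ne'))) one_ne_zero h1
      rwa [one_smul] at h3
    · obtain ⟨ω, hω, hmin, hdist, hk1, hk2⟩ := hnear x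
      have hne : x ≠ ω := by
        intro h
        apply hroot0
        rw [h, hr ω hω]
        ring
      have hxω : ‖x - ω‖ ≤ 2 * δ := by
        have h1 : |‖x‖ - 1| ≤ δ := abs_le.mpr ⟨by linarith, by linarith⟩
        linarith
      have hωn := hnorm ω hω
      have hωK : ω ∈ K := ⟨by rw [hωn]; norm_num, by rw [hωn]; norm_num⟩
      have hmain := near O hcon n M hn1 hM ε C' κ η hC'0.le hκ hκ2 hκε hη hη1 hη2 hε
        (pv P x + E) (pv G x + E) (pv G ω) (W x) (W ω) Q x ω hnorm hω hQb hroot0 hne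
        (h_SUM n x ω hn1 hω hmin) hk1 hk2 ?_ ?_ ?_ (hQ ω hωn).2
      · have h1 : pv (gl κ n M 0 G P Q) x + (1 + x ^ n) ^ M • E =
            (1 + x ^ n) ^ M • ((1 + x ^ n)⁻¹ • (pv P x + E + x ^ n • (pv G x + E)) +
              ∑ ω ∈ rts n, ∑ j ∈ Finset.Icc 2 M, (xi κ n ω x) ^ j • Q ω j) := by
          rw [pv_gl_nonroot κ n M 0 hn1 hM hr G P Q x hroot0, ← smul_add, Nat.sub_zero]
          congr 1
          have h2 : E = (1 + x ^ n)⁻¹ • ((1 + x ^ n) • E) := by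
            rw [smul_smul, inv_mul_cancel₀ hroot0, one_smul]
          have h3 : (1 + x ^ n)⁻¹ • (pv P x + E + x ^ n • (pv G x + E)) =
              (1 + x ^ n)⁻¹ • (pv P x + x ^ n • pv G x) + (1 + x ^ n)⁻¹ • ((1 + x ^ n) • E) := by
            rw [← smul_add]
            congr 1
            rw [smul_add, add_smul, one_smul]
            abel
          rw [h3, ← h2]
          abel
        rw [h1]
        exact hmain
      · -- closeness of P and L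
        have hxn : 0 < ‖x‖ := norm_pos_iff.mpr hx0
        set y : ℂ := x / ‖x‖ with hy
        have hyn : ‖y‖ = 1 := by
          rw [hy, norm_div, Complex.norm_real, norm_norm, div_self hxn.ne']
        have hyK : y ∈ K := ⟨by rw [hyn]; norm_num, by rw [hyn]; norm_num⟩
        have hxy : dist x y < δ₃ := by
          have h1 : x - y = ((‖x‖ - 1 : ℝ) : ℂ) * y := by
            rw [hy]
            have : ((‖x‖ : ℝ) : ℂ) ≠ 0 := by exact_mod_cast hxn.ne'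
            push_cast
            field_simp
          rw [dist_eq_norm, h1, norm_mul, hyn, mul_one, Complex.norm_real, Real.norm_eq_abs]
          have h1 : |‖x‖ - 1| ≤ δ := abs_le.mpr ⟨by linarith, by linarith⟩
          linarith
        have h2 := hu3 x hxK y hyK hxy
        have h3 := hPL y hyn
        rw [dist_eq_norm] at h2
        have h4 := norm_add_le ((pv P x - pv G x) - (pv P y - pv G y)) (pv P y - pv G y)
        rw [sub_add_cancel] at h4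
        have h5 : ‖(pv P x - pv G x) - (pv P y - pv G y)‖ < η := h2
        rw [add_sub_add_right_eq_sub]
        linarith
      · have h1 : dist x ω < δ₁ := by rw [dist_eq_norm]; linarith
        have h2 := hu1 x hxK ω hωK h1
        rw [dist_eq_norm] at h2
        have h3 : pv G x + E - pv G ω = (pv G x - pv G ω) + E := by abel
        rw [h3]
        have h4 := norm_add_le (pv G x - pv G ω) E
        linarith
      · have h1 : dist x ω < δ₂ := by rw [dist_eq_norm]; linarith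
        have h2 := hu2 x hxK ω hωK h1
        rwa [dist_eq_norm] at h2
  · -- inside
    intro x hx
    obtain ⟨h1, h2⟩ := inside n 0 P G (1 - δ) K1 hρ1 e5 x hx (hK1 x (by linarith)).1
      (hK1 x (by linarith)).2
    have hfar : ∀ ω ∈ rts n, δ ≤ ‖x - ω‖ := by
      intro ω hω
      have := norm_sub_norm_le ω x
      rw [hnorm ω hω, norm_sub_rev] at this
      linarith
    have h3 := far_bound n M hn1 κ C' δ hκ.le hC'0.le hδ e3 hcard hnorm Q hQb x hfar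
    refine ⟨h1, ?_⟩
    rw [pv_gl_nonroot κ n M 0 hn1 hM hr G P Q x h1, smul_smul,
      inv_mul_cancel₀ (pow_ne_zero M h1), one_smul]
    have h4 : (1 + x ^ n)⁻¹ • (pv P x + x ^ (n - 0) • pv G x) +
        ∑ ω ∈ rts n, ∑ j ∈ Finset.Icc 2 M, (xi κ n ω x) ^ j • Q ω j - pv P x =
        ((1 + x ^ n)⁻¹ • (pv P x + x ^ (n - 0) • pv G x) - pv P x) +
        ∑ ω ∈ rts n, ∑ j ∈ Finset.Icc 2 M, (xi κ n ω x) ^ j • Q ω j := by abel
    rw [h4]
    refine (norm_add_le _ _).trans ?_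
    linarith
  · -- outside
    intro x hx
    have hx1 : 1 ≤ ‖x‖ := by linarith
    have hP' : ‖pv P x‖ ≤ max KP KG * ‖x‖ ^ N :=
      (hgP N x (le_max_left _ _) hx1).trans
        (mul_le_mul_of_nonneg_right (le_max_left _ _) (by positivity))
    have hL' : ‖pv G x‖ ≤ max KP KG * ‖x‖ ^ N :=
      (hgG N x (le_max_right _ _) hx1).trans
        (mul_le_mul_of_nonneg_right (le_max_right _ _) (by positivity))
    obtain ⟨h1, h2⟩ := outside n N (by omega) (pv P x) (pv G x) (1 + δ) (max KP KG) hρ2 e7 x hx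
      hP' hL'
    have hfar : ∀ ω ∈ rts n, δ ≤ ‖x - ω‖ := by
      intro ω hω
      have := norm_sub_norm_le x ω
      rw [hnorm ω hω] at this
      linarith
    have h3 := far_bound n M hn1 κ C' δ hκ.le hC'0.le hδ e3 hcard hnorm Q hQb x hfar
    refine ⟨h1, ?_⟩
    rw [pv_gl_nonroot κ n M 0 hn1 hM hr G P Q x h1, smul_smul,
      inv_mul_cancel₀ (pow_ne_zero M h1), one_smul, Nat.sub_zero]
    have h4 : (1 + x ^ n)⁻¹ • (pv P x + x ^ n • pv G x) +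
        ∑ ω ∈ rts n, ∑ j ∈ Finset.Icc 2 M, (xi κ n ω x) ^ j • Q ω j - pv G x =
        ((1 + x ^ n)⁻¹ • (pv P x + x ^ n • pv G x) - pv G x) +
        ∑ ω ∈ rts n, ∑ j ∈ Finset.Icc 2 M, (xi κ n ω x) ^ j • Q ω j := by abel
    rw [h4]
    refine (norm_add_le _ _).trans ?_
    linarith

/-- A neighbourhood of a compact family. -/
theorem thick {a b : ℕ} (O : Set (Vec a × Vec b)) (hO : IsOpen O) (A : Set ℂ) (hA : IsCompact A)
    (f : ℂ → Vec a) (W : ℂ → Vec b) (hf : ContinuousOn f A) (hW : ContinuousOn W A)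
    (h : ∀ x ∈ A, (f x, W x) ∈ O) :
    ∃ ε₁ : ℝ, 0 < ε₁ ∧ ∀ x ∈ A, ∀ v : Vec a, ‖v - f x‖ < ε₁ → (v, W x) ∈ O := by
  have hc : IsCompact ((fun x => (f x, W x)) '' A) := hA.image_of_continuousOn (hf.prodMk hW)
  obtain ⟨ε₁, hε₁, hsub⟩ := hc.exists_thickening_subset_open hO (by
    rintro _ ⟨x, hx, rfl⟩
    exact h x hx)
  refine ⟨ε₁, hε₁, fun x hx v hv => hsub ?_⟩
  rw [Metric.mem_thickening_iff]
  refine ⟨(f x, W x), ⟨x, hx, rfl⟩, ?_⟩
  rw [Prod.dist_eq, dist_self, max_lt_iff, dist_eq_norm]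
  exact ⟨hv, hε₁⟩

open COR_ in
/-- The sum of the bubbles. -/
def bs {a : ℕ} (κ : ℝ) (n M : ℕ) (Q : ℂ → ℕ → Vec a) (x : ℂ) : Vec a :=
  ∑ ω ∈ rts n, ∑ j ∈ Finset.Icc 2 M, (xi κ n ω x) ^ j • Q ω j

/-- The function of the Poincaré series. -/
def F₀ {a : ℕ} (κ : ℝ) (n M : ℕ) (q : ℂ) (P : Fin (a + 1) → Polynomial ℂ)
    (Q : ℂ → ℕ → Vec a) (x : ℂ) : Vec a :=
  ((1 + x ^ n)⁻¹ - (1 + (x / q) ^ n)⁻¹) • pv P x + bs κ n M Q x

theorem ne_lt (n : ℕ) (hn : 1 ≤ n) (x : ℂ) (hx : ‖x‖ ≠ 1) : 1 + x ^ n ≠ 0 := by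
  intro h
  have h1 : x ^ n = -1 := by linear_combination h
  have h2 : ‖x‖ ^ n = 1 := by rw [← norm_pow, h1, norm_neg, norm_one]
  exact hx ((pow_eq_one_iff_of_nonneg (norm_nonneg _) (by omega)).mp h2)

theorem chi_in (n : ℕ) (ρ : ℝ) (hρn : ρ ^ n ≤ 1 / 2) (x : ℂ) (hx : ‖x‖ ≤ ρ) :
    ‖(1 + x ^ n)⁻¹ - 1‖ ≤ 2 * ρ ^ n := by
  have h1 : ‖x ^ n‖ ≤ ρ ^ n := by
    rw [norm_pow]
    exact pow_le_pow_left₀ (norm_nonneg _) hx n
  have h2 : 1 / 2 ≤ ‖1 + x ^ n‖ := by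
    have := norm_sub_norm_le (1 : ℂ) (-(x ^ n))
    rw [norm_neg, sub_neg_eq_add, norm_one] at this
    linarith
  have h3 : 1 + x ^ n ≠ 0 := by
    intro h
    rw [h, norm_zero] at h2
    linarith
  have h4 : (1 + x ^ n)⁻¹ - 1 = -(x ^ n) * (1 + x ^ n)⁻¹ := by
    field_simp
    ring
  rw [h4, norm_mul, norm_neg, norm_inv]
  have h6 : ‖1 + x ^ n‖⁻¹ ≤ 2 := by
    rw [inv_le_comm₀ (by linarith) (by norm_num)]
    linarith
  calc ‖x ^ n‖ * ‖1 + x ^ n‖⁻¹ ≤ ρ ^ n * 2 :=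
        mul_le_mul h1 h6 (by positivity) ((norm_nonneg _).trans h1)
    _ = 2 * ρ ^ n := by ring

theorem chi_out (n : ℕ) (ρ : ℝ) (hρ : 1 < ρ) (hρn : 2 ≤ ρ ^ n) (x : ℂ) (hx : ρ ≤ ‖x‖) :
    ‖(1 + x ^ n)⁻¹‖ ≤ 2 * (‖x‖ ^ n)⁻¹ := by
  have h1 : ρ ^ n ≤ ‖x‖ ^ n := pow_le_pow_left₀ (by linarith) hx n
  have h2 : ‖x‖ ^ n / 2 ≤ ‖1 + x ^ n‖ := by
    have := norm_sub_norm_le (x ^ n) (-(1 : ℂ))
    rw [norm_neg, sub_neg_eq_add, norm_one, norm_pow, add_comm] at this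
    linarith
  have hpos : 0 < ‖x‖ ^ n := by linarith
  rw [norm_inv]
  calc ‖1 + x ^ n‖⁻¹ ≤ (‖x‖ ^ n / 2)⁻¹ := inv_anti₀ (by positivity) h2
    _ = 2 * (‖x‖ ^ n)⁻¹ := by rw [inv_div, div_eq_mul_inv]

open COR_ in
theorem bs_diff {a : ℕ} (κ : ℝ) (n M : ℕ) (Q : ℂ → ℕ → Vec a)
    (hnorm : ∀ ω ∈ rts n, ‖ω‖ = 1) (x : ℂ) (hx : ‖x‖ ≠ 1) (hn : 1 ≤ n) :
    DifferentiableAt ℂ (bs κ n M Q) x := by
  unfold bs
  refine DifferentiableAt.fun_sum fun ω hω => DifferentiableAt.fun_sum fun j _ => ?_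
  refine DifferentiableAt.smul_const ?_ _
  refine DifferentiableAt.pow ?_ j
  unfold xi
  have h1 : x - ω ≠ 0 := by
    intro h
    apply hx
    rw [sub_eq_zero.mp h]
    exact hnorm ω hω
  have hn0 : (n : ℂ) ≠ 0 := by exact_mod_cast (by omega : n ≠ 0)
  refine DifferentiableAt.div (by fun_prop) (by fun_prop) (mul_ne_zero hn0 h1)

theorem pv_diff {a : ℕ} (P : Fin (a + 1) → Polynomial ℂ) : Differentiable ℂ (pv P) := by
  rw [show pv P = fun x => pv P x from rfl]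
  unfold pv
  rw [differentiable_pi]
  intro i
  exact (P i).differentiable

theorem F_diff {a : ℕ} (κ : ℝ) (n M : ℕ) (q : ℂ) (P : Fin (a + 1) → Polynomial ℂ)
    (Q : ℂ → ℕ → Vec a) (hnorm : ∀ ω ∈ rts n, ‖ω‖ = 1) (hn : 1 ≤ n) (hq : q ≠ 0) (x : ℂ)
    (hx : ‖x‖ ≠ 1) (hx' : ‖x‖ ≠ ‖q‖) : DifferentiableAt ℂ (F₀ κ n M q P Q) x := by
  have h1 : DifferentiableAt ℂ (fun x : ℂ => (1 + x ^ n)⁻¹ - (1 + (x / q) ^ n)⁻¹) x := by
    refine DifferentiableAt.sub ?_ ?_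
    · exact DifferentiableAt.inv (by fun_prop) (ne_lt n hn x hx)
    · refine DifferentiableAt.inv (by fun_prop) (ne_lt n hn (x / q) ?_)
      rw [norm_div]
      intro h
      apply hx'
      rwa [div_eq_one_iff_eq (norm_ne_zero_iff.mpr hq)] at h
  exact (h1.smul ((pv_diff P) x)).add (bs_diff κ n M Q hnorm x hx hn)

open COR_ in
theorem bs_far {a : ℕ} (κ C' : ℝ) (n M : ℕ) (Q : ℂ → ℕ → Vec a) (hκ : 0 < κ) (hC' : 0 < C')
    (hn : 1 ≤ n) (hcard : (rts n).card ≤ n) (hnorm : ∀ ω ∈ rts n, ‖ω‖ = 1)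
    (hQ : ∀ ω ∈ rts n, ∀ j, ‖Q ω j‖ ≤ C') (δ : ℝ) (hδ : 0 < δ) (hκδ : κ / (n * δ) ≤ 1) (x : ℂ)
    (hx : ‖x‖ ≤ 1 - δ ∨ 1 + δ ≤ ‖x‖) : ‖bs κ n M Q x‖ ≤ M * C' * κ ^ 2 / δ ^ 2 / n := by
  refine far_bound n M hn κ C' δ hκ.le hC'.le hδ hκδ hcard hnorm Q hQ x ?_
  intro ω hω
  rcases hx with hx | hx
  · have := norm_sub_norm_le ω x
    rw [hnorm ω hω, norm_sub_rev] at this
    linarith
  · have := norm_sub_norm_le x ω
    rw [hnorm ω hω] at this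
    linarith

/-- The bound of the function away from the circles. -/
theorem F_far {a : ℕ} (κ C' : ℝ) (n M : ℕ) (q : ℂ) (P : Fin (a + 1) → Polynomial ℂ)
    (Q : ℂ → ℕ → Vec a) (hκ : 0 < κ) (hC' : 0 < C')
    (hn : 1 ≤ n) (hcard : (rts n).card ≤ n) (hnorm : ∀ ω ∈ rts n, ‖ω‖ = 1)
    (hQ : ∀ ω ∈ rts n, ∀ j, ‖Q ω j‖ ≤ C') (hq0 : 0 < ‖q‖) (hq1 : ‖q‖ < 1) (K1 KP : ℝ) (N : ℕ)
    (hK1 : ∀ x : ℂ, ‖x‖ ≤ 1 → ‖pv P x‖ ≤ K1) (hKP : ∀ x : ℂ, 1 ≤ ‖x‖ → ‖pv P x‖ ≤ KP * ‖x‖ ^ N)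
    (hNn : N ≤ n) (δ : ℝ) (hδ : 0 < δ) (hκδ : κ / (n * δ) ≤ 1) (h5 : (1 - δ) ^ n ≤ 1 / 2)
    (h7 : 2 ≤ (1 + δ) ^ n) (hKP0 : 0 ≤ KP) (hK10 : 0 ≤ K1) (h5' : 0 ≤ (1 - δ) ^ n) (x : ℂ)
    (hx : x ≠ 0)
    (hx' : ‖x‖ ≤ ‖q‖ * (1 - δ) ∨ 1 + δ ≤ ‖x‖) :
    ‖F₀ κ n M q P Q x‖ ≤ 4 * K1 * (1 - δ) ^ n + 4 * KP * ((1 + δ)⁻¹) ^ (n - N) +
      M * C' * κ ^ 2 / δ ^ 2 / n := by
  unfold F₀
  rcases hx' with hx' | hx'
  · have hδ1 : 0 < 1 - δ := by
      have : 0 < ‖x‖ := norm_pos_iff.mpr hx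
      by_contra hcon
      push Not at hcon
      have : ‖q‖ * (1 - δ) ≤ 0 := mul_nonpos_of_nonneg_of_nonpos hq0.le hcon
      linarith
    have hx1 : ‖x‖ ≤ 1 - δ := hx'.trans (by nlinarith)
    have hx2 : ‖x / q‖ ≤ 1 - δ := by
      rw [norm_div, div_le_iff₀ hq0, mul_comm]
      exact hx'
    have b1 := chi_in n (1 - δ) h5 x hx1
    have b2 := chi_in n (1 - δ) h5 (x / q) hx2
    have b3 : ‖(1 + x ^ n)⁻¹ - (1 + (x / q) ^ n)⁻¹‖ ≤ 4 * (1 - δ) ^ n := by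
      have h : (1 + x ^ n)⁻¹ - (1 + (x / q) ^ n)⁻¹ =
          ((1 + x ^ n)⁻¹ - 1) - ((1 + (x / q) ^ n)⁻¹ - 1) := by ring
      rw [h]
      refine (norm_sub_le _ _).trans ?_
      linarith
    have b4 := hK1 x (by linarith)
    have b5 := bs_far κ C' n M Q hκ hC' hn hcard hnorm hQ δ hδ hκδ x (Or.inl hx1)
    refine (norm_add_le _ _).trans ?_
    rw [norm_smul]
    have b6 : ‖(1 + x ^ n)⁻¹ - (1 + (x / q) ^ n)⁻¹‖ * ‖pv P x‖ ≤ 4 * (1 - δ) ^ n * K1 :=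
      mul_le_mul b3 b4 (norm_nonneg _) (by positivity)
    have b7 : 0 ≤ 4 * KP * ((1 + δ)⁻¹) ^ (n - N) := by positivity
    linarith
  · have hx1 : 1 < ‖x‖ := by linarith
    have hx0 : 0 < ‖x‖ := by linarith
    have hxq : ‖x‖ ≤ ‖x / q‖ := by
      rw [norm_div, le_div_iff₀ hq0]
      nlinarith
    have b1 := chi_out n (1 + δ) (by linarith) h7 x hx'
    have b2 := chi_out n (1 + δ) (by linarith) h7 (x / q) (hx'.trans hxq)
    have b2' : ‖(1 + (x / q) ^ n)⁻¹‖ ≤ 2 * (‖x‖ ^ n)⁻¹ := by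
      refine b2.trans (mul_le_mul_of_nonneg_left ?_ (by norm_num))
      exact inv_anti₀ (by positivity) (pow_le_pow_left₀ hx0.le hxq n)
    have b3 : ‖(1 + x ^ n)⁻¹ - (1 + (x / q) ^ n)⁻¹‖ ≤ 4 * (‖x‖ ^ n)⁻¹ := by
      refine (norm_sub_le _ _).trans ?_
      linarith
    have b4 := hKP x hx1.le
    have b5 := bs_far κ C' n M Q hκ hC' hn hcard hnorm hQ δ hδ hκδ x (Or.inr hx')
    refine (norm_add_le _ _).trans ?_
    rw [norm_smul]
    have b6 : ‖(1 + x ^ n)⁻¹ - (1 + (x / q) ^ n)⁻¹‖ * ‖pv P x‖ ≤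
        4 * KP * ((1 + δ)⁻¹) ^ (n - N) := by
      calc ‖(1 + x ^ n)⁻¹ - (1 + (x / q) ^ n)⁻¹‖ * ‖pv P x‖
          ≤ (4 * (‖x‖ ^ n)⁻¹) * (KP * ‖x‖ ^ N) :=
            mul_le_mul b3 b4 (norm_nonneg _) (by positivity)
        _ = 4 * KP * (‖x‖⁻¹) ^ (n - N) := by
            have : ‖x‖ ^ n = ‖x‖ ^ (n - N) * ‖x‖ ^ N := by
              rw [← pow_add]
              congr 1
              omega
            rw [this, inv_pow]
            field_simp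
        _ ≤ 4 * KP * ((1 + δ)⁻¹) ^ (n - N) := by
            refine mul_le_mul_of_nonneg_left ?_ (by positivity)
            exact pow_le_pow_left₀ (by positivity) (inv_anti₀ (by linarith) hx') _
    have b7 : 0 ≤ 4 * K1 * (1 - δ) ^ n := by positivity
    linarith

theorem F_bdd {a : ℕ} (κ C' : ℝ) (n M : ℕ) (q : ℂ) (P : Fin (a + 1) → Polynomial ℂ)
    (Q : ℂ → ℕ → Vec a) (hκ : 0 < κ) (hκ2 : κ ≤ 1 / 2) (hC' : 0 < C')
    (hn : 1 ≤ n) (hcard : (rts n).card ≤ n) (hnorm : ∀ ω ∈ rts n, ‖ω‖ = 1)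
    (hQ : ∀ ω ∈ rts n, ∀ j, ‖Q ω j‖ ≤ C') (hq0 : 0 < ‖q‖) (hq1 : ‖q‖ < 1) (K1 KP : ℝ) (N : ℕ)
    (hK1 : ∀ x : ℂ, ‖x‖ ≤ 1 → ‖pv P x‖ ≤ K1) (hKP : ∀ x : ℂ, 1 ≤ ‖x‖ → ‖pv P x‖ ≤ KP * ‖x‖ ^ N)
    (hNn : N ≤ n) (hKP0 : 0 ≤ KP) (hK10 : 0 ≤ K1) (δ : ℝ) (hδ : 0 < δ) :
    ∃ K : ℝ, ∀ x : ℂ, x ≠ 0 → (‖x‖ ≤ ‖q‖ * (1 - δ) ∨ 1 + δ ≤ ‖x‖) →
      ‖F₀ κ n M q P Q x‖ ≤ K := by
  have hq : q ≠ 0 := norm_pos_iff.mp hq0
  have hlt : ‖q‖ * (1 - δ) < ‖q‖ := by nlinarith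
  have hc1 : IsCompact (Metric.closedBall (0 : ℂ) (‖q‖ * (1 - δ))) := isCompact_closedBall 0 _
  obtain ⟨B1, hB1⟩ := hc1.exists_bound_of_continuousOn (f := F₀ κ n M q P Q) (by
    intro x hx
    rw [mem_closedBall_zero_iff] at hx
    exact (F_diff κ n M q P Q hnorm hn hq x (by linarith) (by
      exact (lt_of_le_of_lt hx hlt).ne)).continuousAt.continuousWithinAt)
  have hc2 : IsCompact {x : ℂ | 1 + δ ≤ ‖x‖ ∧ ‖x‖ ≤ 2} := by
    refine Metric.isCompact_of_isClosed_isBounded ?_ ?_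
    · exact (isClosed_le continuous_const continuous_norm).inter
        (isClosed_le continuous_norm continuous_const)
    · refine (Metric.isBounded_closedBall (x := (0 : ℂ)) (r := 2)).subset ?_
      intro x hx
      rw [mem_closedBall_zero_iff]
      exact hx.2
  obtain ⟨B2, hB2⟩ := hc2.exists_bound_of_continuousOn (f := F₀ κ n M q P Q) (by
    intro x hx
    have h1 : 1 + δ ≤ ‖x‖ := hx.1
    exact (F_diff κ n M q P Q hnorm hn hq x (by linarith) (by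
      linarith)).continuousAt.continuousWithinAt)
  set B3 : ℝ := 4 * K1 * (1 - 1) ^ n + 4 * KP * ((1 + 1)⁻¹) ^ (n - N) +
      M * C' * κ ^ 2 / 1 ^ 2 / n with hB3
  refine ⟨max B1 (max B2 B3), fun x hx hx' => ?_⟩
  rcases hx' with h | h
  · exact (hB1 x (by rwa [mem_closedBall_zero_iff])).trans (le_max_left _ _)
  · rcases le_total ‖x‖ 2 with h2 | h2
    · exact (hB2 x ⟨h, h2⟩).trans ((le_max_left _ _).trans (le_max_right _ _))
    · refine (F_far κ C' n M q P Q hκ hC' hn hcard hnorm hQ hq0 hq1 K1 KP N hK1 hKP hNn 1 one_pos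
        ?_ ?_ ?_ hKP0 hK10 ?_ x hx (Or.inr (by linarith))).trans
        ((le_max_right _ _).trans (le_max_right _ _))
      · rw [mul_one]
        have : (1 : ℝ) ≤ n := by exact_mod_cast hn
        rw [div_le_one (by linarith)]
        linarith
      · rw [sub_self, zero_pow (by omega)]
        norm_num
      · calc (2 : ℝ) = (1 + 1) ^ 1 := by norm_num
          _ ≤ (1 + 1) ^ n := pow_le_pow_right₀ (by norm_num) hn
      · rw [sub_self]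
        positivity

end TOR_

open COR_ TOR_ in
theorem p_TOR (h_PSR : T_PSR) (h_ROO : T_ROO) (h_SUM : T_SUM) : T_TOR := by
  intro a b O M ε C hO hcon hM hε
  obtain ⟨κ, C', η, hκ, hκ2, hC', hη, hgl⟩ := glE h_ROO h_SUM O M ε C hcon hM hε
  refine ⟨η, hη, ?_⟩
  intro q c₀ D W P hq0 hq1 hc₀ hD hW hWq hBD hPL hPO δ hδ hδq ε' hε'
  have hq : q ≠ 0 := norm_pos_iff.mp hq0
  have hδ1 : δ < 1 := by
    by_contra h
    push Not at h
    have : 0 < ‖q‖ * (1 + δ) := by positivity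
    linarith
  have hpvc : ∀ R : Fin (a + 1) → Polynomial ℂ, Continuous (pv R) := fun R =>
    continuous_pi fun i => (R i).continuous
  obtain ⟨G, hG⟩ : ∃ G : Fin (a + 1) → Polynomial ℂ,
      ∀ x, pv G x = (c₀ * x ^ D) • pv P (q * x) := by
    refine ⟨fun i => Polynomial.C c₀ * X ^ D * (P i).comp (Polynomial.C q * X), fun x => ?_⟩
    funext i
    simp only [pv, eval_mul, eval_C, eval_pow, eval_X, eval_comp, Pi.smul_apply, smul_eq_mul]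
  obtain ⟨Q, hQ, δ₀, hδ₀, hδ₀1, hgl⟩ := hgl W G P hW (fun x hx => by rw [hG]; exact hBD x hx)
    (fun x hx => by rw [hG]; exact hPL x hx)
  obtain ⟨S, hS, hPSR⟩ := h_PSR a q c₀ D hq0 hq1 hc₀ hD
  -- compact sets
  have hA1 : IsCompact {x : ℂ | ‖q‖ ≤ ‖x‖ ∧ ‖x‖ ≤ 1} := by
    refine Metric.isCompact_of_isClosed_isBounded ?_ ?_
    · exact (isClosed_le continuous_const continuous_norm).inter
        (isClosed_le continuous_norm continuous_const)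
    · refine (Metric.isBounded_closedBall (x := (0 : ℂ)) (r := 1)).subset ?_
      intro x hx
      rw [mem_closedBall_zero_iff]
      exact hx.2
  have hA2 : IsCompact {x : ℂ | 1 ≤ ‖x‖ ∧ ‖q‖ * ‖x‖ ≤ 1} := by
    refine Metric.isCompact_of_isClosed_isBounded ?_ ?_
    · exact (isClosed_le continuous_const continuous_norm).inter
        (isClosed_le (continuous_const.mul continuous_norm) continuous_const)
    · refine (Metric.isBounded_closedBall (x := (0 : ℂ)) (r := 1 / ‖q‖)).subset ?_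
      intro x hx
      rw [mem_closedBall_zero_iff, le_div_iff₀ hq0, mul_comm]
      exact hx.2
  obtain ⟨ε₁, hε₁, hth1⟩ := thick O hO _ hA1 (pv P) W (hpvc P).continuousOn
    (hW.mono (by
      rintro x ⟨hx, -⟩ h0
      rw [h0, norm_zero] at hx
      linarith)) (fun x hx => hPO x hx.1 hx.2)
  obtain ⟨ε₂, hε₂, hth2⟩ := thick O hO _ hA2 (pv G) W (hpvc G).continuousOn
    (hW.mono (by
      rintro x ⟨hx, -⟩ h0
      rw [h0, norm_zero] at hx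
      linarith)) (by
      rintro x ⟨hx1, hx2⟩
      have hx0 : x ≠ 0 := by
        intro h0
        rw [h0, norm_zero] at hx1
        linarith
      have h1 := hPO (q * x) (by rw [norm_mul]; nlinarith) (by rw [norm_mul]; exact hx2)
      rw [hWq x hx0] at h1
      have h2 := hcon (c₀ * x ^ D) 1 _ _ (mul_ne_zero hc₀ (pow_ne_zero D hx0)) one_ne_zero h1
      rw [one_smul] at h2
      rw [hG]
      exact h2)
  -- bounds
  obtain ⟨KP, N, hKP0, hNP, hgP⟩ := growth P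
  obtain ⟨K1, hK10, hK1⟩ : ∃ K1 : ℝ, 0 ≤ K1 ∧ ∀ x : ℂ, ‖q‖ * ‖x‖ ≤ 1 →
      ‖pv P x‖ ≤ K1 ∧ ‖pv G x‖ ≤ K1 := by
    have hc : IsCompact (Metric.closedBall (0 : ℂ) (1 / ‖q‖)) := isCompact_closedBall 0 _
    obtain ⟨B1, hB1⟩ := hc.exists_bound_of_continuousOn (hpvc P).continuousOn
    obtain ⟨B2, hB2⟩ := hc.exists_bound_of_continuousOn (hpvc G).continuousOn
    refine ⟨max 0 (max B1 B2), le_max_left _ _, fun x hx => ?_⟩
    have hx' : x ∈ Metric.closedBall (0 : ℂ) (1 / ‖q‖) := by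
      rw [mem_closedBall_zero_iff, le_div_iff₀ hq0, mul_comm]
      exact hx
    exact ⟨(hB1 x hx').trans ((le_max_left _ _).trans (le_max_right _ _)),
      (hB2 x hx').trans ((le_max_right _ _).trans (le_max_right _ _))⟩
  have hK1' : ∀ x : ℂ, ‖x‖ ≤ 1 → ‖pv P x‖ ≤ K1 := fun x hx =>
    (hK1 x (by nlinarith [norm_nonneg x])).1
  -- the error
  set δ' : ℝ := min δ δ₀ with hδ'
  have hδ'0 : 0 < δ' := lt_min hδ hδ₀
  have hδ'δ : δ' ≤ δ := min_le_left _ _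
  set ε₃ : ℝ := min (ε / 8) (min (ε₁ / 4) (min (ε₂ / 4) (ε' / 4))) with hε₃
  have hε₃0 : 0 < ε₃ := by positivity
  have e31 : ε₃ ≤ ε / 8 := min_le_left _ _
  have e32 : ε₃ ≤ ε₁ / 4 := (min_le_right _ _).trans (min_le_left _ _)
  have e33 : ε₃ ≤ ε₂ / 4 := (min_le_right _ _).trans ((min_le_right _ _).trans (min_le_left _ _))
  have e34 : ε₃ ≤ ε' / 4 := (min_le_right _ _).trans ((min_le_right _ _).trans (min_le_right _ _))
  obtain ⟨n₁, hn₁⟩ := hgl δ' hδ'0 (min_le_right _ _) ε₃ hε₃0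
  have tinv : Tendsto (fun n : ℕ => (n : ℝ)⁻¹) atTop (𝓝 0) :=
    tendsto_inv_atTop_zero.comp tendsto_natCast_atTop_atTop
  have tp1 : Tendsto (fun n : ℕ => (1 - δ) ^ n) atTop (𝓝 0) :=
    tendsto_pow_atTop_nhds_zero_of_lt_one (by linarith) (by linarith)
  have tp2 : Tendsto (fun n : ℕ => ((1 + δ)⁻¹) ^ n) atTop (𝓝 0) :=
    tendsto_pow_atTop_nhds_zero_of_lt_one (by positivity) (inv_lt_one_of_one_lt₀ (by linarith))
  have tb : Tendsto (fun n : ℕ => M * C' * κ ^ 2 / δ ^ 2 / (n : ℝ)) atTop (𝓝 0) := by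
    have h := (tinv.const_mul (M * C' * κ ^ 2 / δ ^ 2))
    rw [mul_zero] at h
    refine h.congr fun n => ?_
    rw [div_eq_mul_inv _ (n : ℝ)]
  have tK : Tendsto (fun n : ℕ => 4 * K1 * (1 - δ) ^ n + 4 * KP * ((1 + δ)⁻¹) ^ (n - N) +
      M * C' * κ ^ 2 / δ ^ 2 / n) atTop (𝓝 0) := by
    have h := ((tp1.const_mul (4 * K1)).add
      ((tp2.comp (tendsto_sub_atTop_nat N)).const_mul (4 * KP))).add tb
    simpa using h
  have tE : Tendsto (fun n : ℕ => K1 * (2 * ((1 + δ)⁻¹) ^ n) + K1 * (2 * (1 - δ) ^ n) +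
      ‖c₀‖ * (‖q‖⁻¹) ^ D * (M * C' * κ ^ 2 / δ ^ 2 / n) +
      S * (4 * K1 * (1 - δ) ^ n + 4 * KP * ((1 + δ)⁻¹) ^ (n - N) +
      M * C' * κ ^ 2 / δ ^ 2 / n)) atTop (𝓝 0) := by
    have h := ((((tp2.const_mul 2).const_mul K1).add ((tp1.const_mul 2).const_mul K1)).add
      (tb.const_mul (‖c₀‖ * (‖q‖⁻¹) ^ D))).add (tK.const_mul S)
    simpa using h
  have ev3 : ∀ᶠ n : ℕ in atTop, κ / (n * δ) ≤ 1 := by
    have h := (tinv.const_mul (κ / δ))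
    rw [mul_zero] at h
    filter_upwards [h.eventually (gt_mem_nhds one_pos)] with n hn
    have : κ / (n * δ) = κ / δ * (n : ℝ)⁻¹ := by
      rw [mul_comm, ← div_div, div_eq_mul_inv (κ / δ)]
    rw [this]
    exact hn.le
  obtain ⟨n, hnn₁, hnN, e3, e5, e7, eE⟩ : ∃ n : ℕ, n₁ ≤ n ∧ N ≤ n ∧ κ / (n * δ) ≤ 1 ∧
      (1 - δ) ^ n ≤ 1 / 2 ∧ 2 ≤ (1 + δ) ^ n ∧
      K1 * (2 * ((1 + δ)⁻¹) ^ n) + K1 * (2 * (1 - δ) ^ n) +
      ‖c₀‖ * (‖q‖⁻¹) ^ D * (M * C' * κ ^ 2 / δ ^ 2 / n) +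
      S * (4 * K1 * (1 - δ) ^ n + 4 * KP * ((1 + δ)⁻¹) ^ (n - N) +
      M * C' * κ ^ 2 / δ ^ 2 / n) ≤ ε₃ := by
    have := ((eventually_ge_atTop n₁).and ((eventually_ge_atTop N).and (ev3.and
      ((tp1.eventually (gt_mem_nhds (by norm_num : (0 : ℝ) < 1 / 2))).and
      (((tendsto_pow_atTop_atTop_of_one_lt (by linarith : 1 < 1 + δ)).eventually_ge_atTop 2).and
      (tE.eventually (gt_mem_nhds hε₃0)))))))
    obtain ⟨n, h1, h2, h3, h4, h5, h6⟩ := this.exists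
    exact ⟨n, h1, h2, h3, h4.le, h5, h6.le⟩
  obtain ⟨hn1, hnear, hin, hout⟩ := hn₁ n hnn₁
  obtain ⟨hroot, hcard, hnorm, -⟩ := h_ROO n hn1
  have hr : ∀ ω ∈ rts n, ω ^ n = -1 := fun ω h => (hroot ω).mp h
  have hQb : ∀ ω ∈ rts n, ∀ j, ‖Q ω j‖ ≤ C' := fun ω h => hQ ω (hnorm ω h)
  have hKPn : ∀ x : ℂ, 1 ≤ ‖x‖ → ‖pv P x‖ ≤ KP * ‖x‖ ^ N := fun x hx => hgP N x le_rfl hx
  obtain ⟨R, hRd, hRb, hRf⟩ := hPSR (F₀ κ n M q P Q)
    (fun x hx => (F_diff κ n M q P Q hnorm hn1 hq x hx.2.1 hx.2.2).differentiableWithinAt)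
    (fun δ'' hδ'' => F_bdd κ C' n M q P Q hκ hκ2 hC' hn1 hcard hnorm hQb hq0 hq1 K1 KP N hK1'
      hKPn hnN hKP0 hK10 δ'' hδ'')
  set E : ℂ → Vec a := fun x => -((1 + (x / q) ^ n)⁻¹) • pv P x +
    ((1 + (q * x) ^ n)⁻¹ - 1) • pv G x + (c₀ * x ^ D) • bs κ n M Q (q * x) + R x with hE
  -- the error bound
  have hEb : ∀ x : ℂ, ‖q‖ * (1 + δ) ≤ ‖x‖ → ‖q‖ * ‖x‖ ≤ 1 - δ → ‖E x‖ ≤ ε₃ := by
    intro x hx1 hx2
    have hxq : 1 + δ ≤ ‖x / q‖ := by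
      rw [norm_div, le_div_iff₀ hq0, mul_comm]
      exact hx1
    have hqx : ‖q * x‖ ≤ 1 - δ := by rw [norm_mul]; exact hx2
    have b1 := chi_out n (1 + δ) (by linarith) e7 (x / q) hxq
    have b1' : ‖(1 + (x / q) ^ n)⁻¹‖ ≤ 2 * ((1 + δ)⁻¹) ^ n := by
      refine b1.trans (mul_le_mul_of_nonneg_left ?_ (by norm_num))
      rw [inv_pow]
      exact inv_anti₀ (by positivity) (pow_le_pow_left₀ (by linarith) hxq n)
    have b2 := chi_in n (1 - δ) e5 (q * x) hqx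
    obtain ⟨b3, b4⟩ := hK1 x (by linarith)
    have b5 := bs_far κ C' n M Q hκ hC' hn1 hcard hnorm hQb δ hδ e3 (q * x) (Or.inl hqx)
    have b6 := hRb δ _ hδ (fun y hy hy' => F_far κ C' n M q P Q hκ hC' hn1 hcard hnorm hQb hq0
      hq1 K1 KP N hK1' hKPn hnN δ hδ e3 e5 e7 hKP0 hK10 (pow_nonneg (by linarith) n) y hy hy')
      x hx1 hx2
    have c1 : ‖-((1 + (x / q) ^ n)⁻¹) • pv P x‖ ≤ K1 * (2 * ((1 + δ)⁻¹) ^ n) := by
      rw [norm_smul, norm_neg, mul_comm]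
      exact mul_le_mul b3 b1' (norm_nonneg _) hK10
    have c2 : ‖((1 + (q * x) ^ n)⁻¹ - 1) • pv G x‖ ≤ K1 * (2 * (1 - δ) ^ n) := by
      rw [norm_smul, mul_comm]
      exact mul_le_mul b4 b2 (norm_nonneg _) hK10
    have c3 : ‖(c₀ * x ^ D) • bs κ n M Q (q * x)‖ ≤
        ‖c₀‖ * (‖q‖⁻¹) ^ D * (M * C' * κ ^ 2 / δ ^ 2 / n) := by
      rw [norm_smul, norm_mul, norm_pow]
      refine mul_le_mul ?_ b5 (norm_nonneg _) (by positivity)
      refine mul_le_mul_of_nonneg_left ?_ (norm_nonneg _)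
      refine pow_le_pow_left₀ (norm_nonneg _) ?_ D
      rw [← one_div, le_div_iff₀ hq0, mul_comm]
      linarith
    have t1 := norm_add_le (-((1 + (x / q) ^ n)⁻¹) • pv P x + ((1 + (q * x) ^ n)⁻¹ - 1) • pv G x +
      (c₀ * x ^ D) • bs κ n M Q (q * x)) (R x)
    have t2 := norm_add_le (-((1 + (x / q) ^ n)⁻¹) • pv P x + ((1 + (q * x) ^ n)⁻¹ - 1) • pv G x)
      ((c₀ * x ^ D) • bs κ n M Q (q * x))
    have t3 := norm_add_le (-((1 + (x / q) ^ n)⁻¹) • pv P x) (((1 + (q * x) ^ n)⁻¹ - 1) • pv G x)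
    show ‖-((1 + (x / q) ^ n)⁻¹) • pv P x + ((1 + (q * x) ^ n)⁻¹ - 1) • pv G x +
      (c₀ * x ^ D) • bs κ n M Q (q * x) + R x‖ ≤ ε₃
    linarith
  -- the identity
  have hid : ∀ x : ℂ, 1 + x ^ n ≠ 0 →
      pv (gl κ n M 0 G P Q) x + (1 + x ^ n) ^ M • E x =
      (1 + x ^ n) ^ M • (F₀ κ n M q P Q x + (c₀ * x ^ D) • F₀ κ n M q P Q (q * x) + R x) := by
    intro x hx
    rw [pv_gl_nonroot κ n M 0 hn1 hM hr G P Q x hx, ← smul_add]
    congr 1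
    have h1 : q * x / q = x := by field_simp
    simp only [hE, F₀, h1, Nat.sub_zero]
    have h2 : ∑ ω ∈ rts n, ∑ j ∈ Finset.Icc 2 M, (xi κ n ω x) ^ j • Q ω j = bs κ n M Q x := rfl
    rw [h2]
    have h3 : (c₀ * x ^ D) • (((1 + (q * x) ^ n)⁻¹ - (1 + x ^ n)⁻¹) • pv P (q * x) +
        bs κ n M Q (q * x)) = ((1 + (q * x) ^ n)⁻¹ - (1 + x ^ n)⁻¹) • pv G x +
        (c₀ * x ^ D) • bs κ n M Q (q * x) := by
      rw [smul_add, hG, smul_comm (c₀ * x ^ D)]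
    rw [h3]
    have h4 : (1 + x ^ n)⁻¹ • (pv P x + x ^ n • pv G x) =
        (1 + x ^ n)⁻¹ • pv P x + (1 - (1 + x ^ n)⁻¹) • pv G x := by
      rw [smul_add, smul_smul]
      congr 2
      field_simp
      ring
    rw [h4]
    module
  refine ⟨fun x => pv (gl κ n M 0 G P Q) x + (1 + x ^ n) ^ M • E x, ?_, ?_, ?_, ?_⟩
  · -- differentiability
    intro x hx
    have hx1 : ‖q‖ < ‖x‖ := hx.1
    have hx2 : ‖q‖ * ‖x‖ < 1 := hx.2
    have hxq : ‖x / q‖ ≠ 1 := by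
      rw [norm_div]
      intro h
      rw [div_eq_one_iff_eq hq0.ne'] at h
      linarith
    have hqx : ‖q * x‖ ≠ 1 := by
      rw [norm_mul]
      linarith
    have d1' : DifferentiableAt ℂ (fun x : ℂ => (1 + (x / q) ^ n)⁻¹) x :=
      DifferentiableAt.inv (by fun_prop) (ne_lt n hn1 _ hxq)
    have d1 : DifferentiableAt ℂ (fun x : ℂ => -((1 + (x / q) ^ n)⁻¹)) x := d1'.neg
    have d2' : DifferentiableAt ℂ (fun x : ℂ => (1 + (q * x) ^ n)⁻¹) x :=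
      DifferentiableAt.inv (by fun_prop) (ne_lt n hn1 _ hqx)
    have d2 : DifferentiableAt ℂ (fun x : ℂ => (1 + (q * x) ^ n)⁻¹ - 1) x := d2'.sub_const 1
    have d3 : DifferentiableAt ℂ (fun x : ℂ => bs κ n M Q (q * x)) x := by
      have := bs_diff κ n M Q hnorm (q * x) hqx hn1
      exact DifferentiableAt.comp (g := bs κ n M Q) (f := fun x : ℂ => q * x) x this
        (by fun_prop)
    have d4 : DifferentiableAt ℂ (fun x : ℂ => c₀ * x ^ D) x := by fun_prop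
    have d5 : DifferentiableAt ℂ (fun x : ℂ => (1 + x ^ n) ^ M) x := by fun_prop
    have hR := hRd x hx
    have d6 : DifferentiableWithinAt ℂ E {x | ‖q‖ < ‖x‖ ∧ ‖q‖ * ‖x‖ < 1} x :=
      (((d1.smul ((pv_diff P) x)).add (d2.smul ((pv_diff G) x))).add
        (d4.smul d3)).differentiableWithinAt.add hR
    exact ((pv_diff (gl κ n M 0 G P Q)) x).differentiableWithinAt.add
      (d5.differentiableWithinAt.smul d6)
  · -- values in O
    intro x hx1 hx2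
    have hEx := hEb x hx1 hx2
    by_cases h1 : ‖x‖ ≤ 1 - δ'
    · obtain ⟨h2, h3⟩ := hin x h1
      have h4 := hth1 x ⟨by nlinarith, by linarith⟩
        (((1 + x ^ n) ^ M)⁻¹ • (pv (gl κ n M 0 G P Q) x + (1 + x ^ n) ^ M • E x)) (by
          rw [smul_add, smul_smul, inv_mul_cancel₀ (pow_ne_zero M h2), one_smul]
          have h5 := norm_add_le (((1 + x ^ n) ^ M)⁻¹ • pv (gl κ n M 0 G P Q) x - pv P x) (E x)
          have h6 : ((1 + x ^ n) ^ M)⁻¹ • pv (gl κ n M 0 G P Q) x + E x - pv P x =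
            (((1 + x ^ n) ^ M)⁻¹ • pv (gl κ n M 0 G P Q) x - pv P x) + E x := by abel
          rw [h6]
          linarith)
      have h5 := hcon ((1 + x ^ n) ^ M) 1 _ _ (pow_ne_zero M h2) one_ne_zero h4
      rwa [smul_smul, mul_inv_cancel₀ (pow_ne_zero M h2), one_smul, one_smul] at h5
    · by_cases h1' : 1 + δ' ≤ ‖x‖
      · obtain ⟨h2, h3⟩ := hout x h1'
        have h4 := hth2 x ⟨by linarith, by linarith⟩
          (((1 + x ^ n) ^ M)⁻¹ • (pv (gl κ n M 0 G P Q) x + (1 + x ^ n) ^ M • E x)) (by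
            rw [smul_add, smul_smul, inv_mul_cancel₀ (pow_ne_zero M h2), one_smul]
            have h5 := norm_add_le (((1 + x ^ n) ^ M)⁻¹ • pv (gl κ n M 0 G P Q) x - pv G x) (E x)
            have h6 : ((1 + x ^ n) ^ M)⁻¹ • pv (gl κ n M 0 G P Q) x + E x - pv G x =
              (((1 + x ^ n) ^ M)⁻¹ • pv (gl κ n M 0 G P Q) x - pv G x) + E x := by abel
            rw [h6]
            linarith)
        have h5 := hcon ((1 + x ^ n) ^ M) 1 _ _ (pow_ne_zero M h2) one_ne_zero h4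
        rwa [smul_smul, mul_inv_cancel₀ (pow_ne_zero M h2), one_smul, one_smul] at h5
      · push Not at h1 h1'
        exact hnear x h1.le h1'.le (E x) (hEx.trans e31)
  · -- functional equation
    intro x hx1 hx2
    have hx0 : x ≠ 0 := by
      intro h0
      rw [h0, norm_zero] at hx1
      linarith
    have h1 : 1 + x ^ n ≠ 0 := ne_lt n hn1 x (by linarith)
    have h2 : 1 + (q * x) ^ n ≠ 0 := ne_lt n hn1 (q * x) (by rw [norm_mul]; linarith)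
    refine ⟨(1 + x ^ n) ^ M * ((1 + (q * x) ^ n) ^ M)⁻¹ * (c₀ * x ^ D), ?_, ?_⟩
    · exact mul_ne_zero (mul_ne_zero (pow_ne_zero M h1) (inv_ne_zero (pow_ne_zero M h2)))
        (mul_ne_zero hc₀ (pow_ne_zero D hx0))
    · show pv (gl κ n M 0 G P Q) x + (1 + x ^ n) ^ M • E x = _ •
        (pv (gl κ n M 0 G P Q) (q * x) + (1 + (q * x) ^ n) ^ M • E (q * x))
      rw [hid x h1, hid (q * x) h2, hRf x hx1 hx2, smul_smul, smul_smul]
      congr 1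
      have h3 := pow_ne_zero M h2
      field_simp
  · -- closeness
    intro x hx1 hx2
    obtain ⟨h2, h3⟩ := hin x (by linarith)
    refine ⟨((1 + x ^ n) ^ M)⁻¹, inv_ne_zero (pow_ne_zero M h2), ?_⟩
    have hEx := hEb x hx1 (by nlinarith [norm_nonneg x])
    show ‖((1 + x ^ n) ^ M)⁻¹ • (pv (gl κ n M 0 G P Q) x + (1 + x ^ n) ^ M • E x) - pv P x‖ ≤ ε'
    rw [smul_add, smul_smul, inv_mul_cancel₀ (pow_ne_zero M h2), one_smul]
    have h5 := norm_add_le (((1 + x ^ n) ^ M)⁻¹ • pv (gl κ n M 0 G P Q) x - pv P x) (E x)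
    have h6 : ((1 + x ^ n) ^ M)⁻¹ • pv (gl κ n M 0 G P Q) x + E x - pv P x =
      (((1 + x ^ n) ^ M)⁻¹ • pv (gl κ n M 0 G P Q) x - pv P x) + E x := by abel
    rw [h6]
    linarith

end Pool.Agent.ARC
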