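import Pool.Agent.ARC.Targets

set_option autoImplicit false

/-!
# ARC-TUB: the glued morphism stays in a neighbourhood of the two curves
-/

noncomputable section

open Filter Topology

namespace Pool.Agent.ARC

namespace TUB_

/-- The bracket in the expansion of the glued form near the second curve. -/
def psi (d e : ℕ) (c c' : ℕ → ℂ) (ρ α β : ℂ) : ℂ :=
  form e c' α β + β ^ e * (form d c 1 (ρ * β) - c d)

theorem psi_glue (h_FRM : T_FRM) (h_GLU : T_GLU) (d e : ℕ) (c c' : ℕ → ℂ) (h : c d = c' 0)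
    (ρ α β : ℂ) :
    form (d + e) (glue d (ρ * α) c c') 1 (ρ * β) = ρ ^ e * psi d e c c' ρ α β := by
  rw [h_GLU d e (ρ * α) c c' h, psi, mul_one, h_FRM.1 e c' ρ α β, one_pow]
  ring

theorem cont_form (h_FRM : T_FRM) {X : Type} [TopologicalSpace X] (p : ℕ) (c : ℕ → ℂ)
    {f g : X → ℂ} (hf : Continuous f) (hg : Continuous g) :
    Continuous fun x => form p c (f x) (g x) :=
  (h_FRM.2.1 p c).comp (hf.prodMk hg)

theorem cont_psi (h_FRM : T_FRM) (d e : ℕ) (c c' : ℕ → ℂ) :
    Continuous fun z : ℂ × (ℂ × ℂ) => psi d e c c' z.1 z.2.1 z.2.2 := by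
  unfold psi
  have h1 := cont_form h_FRM (X := ℂ × (ℂ × ℂ)) e c' (f := fun z => z.2.1) (g := fun z => z.2.2)
    (by fun_prop) (by fun_prop)
  have h2 := cont_form h_FRM (X := ℂ × (ℂ × ℂ)) d c (f := fun _ => 1)
    (g := fun z => z.1 * z.2.2) (by fun_prop) (by fun_prop)
  have h3 : Continuous fun z : ℂ × (ℂ × ℂ) => z.2.2 ^ e := by fun_prop
  exact h1.add (h3.mul (h2.sub continuous_const))

theorem psi_zero (h_FRM : T_FRM) (d e : ℕ) (c c' : ℕ → ℂ) (α β : ℂ) :
    psi d e c c' 0 α β = form e c' α β := by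
  rw [psi, zero_mul, (h_FRM.2.2.1 d c).2, sub_self, mul_zero, add_zero]

theorem glue_one (h_GLU : T_GLU) (d e : ℕ) (c c' : ℕ → ℂ) (h : c d = c' 0) (r s : ℂ) :
    form (d + e) (glue d r c c') s 1 =
      form d c s 1 + s ^ d * form e c' (r * s) 1 - c d * s ^ d := by
  rw [h_GLU d e r c c' h, one_pow, one_mul, mul_one]

theorem glue_zero (h_FRM : T_FRM) (h_GLU : T_GLU) (d e : ℕ) (c c' : ℕ → ℂ) (h : c d = c' 0)
    (s : ℂ) : form (d + e) (glue d 0 c c') s 1 = form d c s 1 := by
  rw [glue_one h_GLU d e c c' h, zero_mul, (h_FRM.2.2.1 e c').1, h]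
  ring

theorem cont_glue (h_FRM : T_FRM) (h_GLU : T_GLU) (d e : ℕ) (c c' : ℕ → ℂ) (h : c d = c' 0) :
    Continuous fun z : ℂ × ℂ => form (d + e) (glue d z.1 c c') z.2 1 := by
  have h0 : (fun z : ℂ × ℂ => form (d + e) (glue d z.1 c c') z.2 1) = fun z : ℂ × ℂ =>
      form d c z.2 1 + z.2 ^ d * form e c' (z.1 * z.2) 1 - c d * z.2 ^ d := by
    funext z
    exact glue_one h_GLU d e c c' h z.1 z.2
  rw [h0]
  have h1 := cont_form h_FRM (X := ℂ × ℂ) d c (f := fun z => z.2) (g := fun _ => 1)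
    (by fun_prop) (by fun_prop)
  have h2 := cont_form h_FRM (X := ℂ × ℂ) e c' (f := fun z => z.1 * z.2) (g := fun _ => 1)
    (by fun_prop) (by fun_prop)
  have h3 : Continuous fun z : ℂ × ℂ => z.2 ^ d := by fun_prop
  exact (h1.add (h3.mul h2)).sub (continuous_const.mul h3)

theorem vform_smul (h_FRM : T_FRM) {a : ℕ} (p : ℕ) (A : Fin (a + 1) → ℕ → ℂ) (x s t : ℂ) :
    vform p A (x * s) (x * t) = x ^ p • vform p A s t := by
  funext i
  exact h_FRM.1 p (A i) x s t

end TUB_

open TUB_ in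
theorem p_TUB (h_FRM : T_FRM) (h_GLU : T_GLU) : T_TUB := by
  intro a b d e d' e' O A A' B B' hO hC hA hB h1 h2
  -- near the second curve
  have e1 : ∀ᶠ ρ : ℂ in 𝓝 0, ∀ z ∈ Metric.sphere (0 : ℂ × ℂ) 1,
      (((fun i => psi d e (A i) (A' i) ρ z.1 z.2 : Vec a),
        (fun i => psi d' e' (B i) (B' i) ρ z.1 z.2 : Vec b)) : Vec a × Vec b) ∈ O := by
    refine IsCompact.eventually_forall_of_forall_eventually (isCompact_sphere _ _) ?_
    intro z hz
    have hc : Continuous fun w : ℂ × (ℂ × ℂ) =>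
        (((fun i => psi d e (A i) (A' i) w.1 w.2.1 w.2.2 : Vec a),
          (fun i => psi d' e' (B i) (B' i) w.1 w.2.1 w.2.2 : Vec b)) : Vec a × Vec b) :=
      (continuous_pi fun i => cont_psi h_FRM d e (A i) (A' i)).prodMk
        (continuous_pi fun i => cont_psi h_FRM d' e' (B i) (B' i))
    refine hc.continuousAt.eventually_mem (hO.mem_nhds ?_)
    have hz0 : (z.1, z.2) ≠ ((0 : ℂ), (0 : ℂ)) := by
      intro h
      have h3 : z = 0 := h
      rw [h3, mem_sphere_zero_iff_norm, norm_zero] at hz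
      exact zero_ne_one hz
    have h3 := h2 z.1 z.2 hz0
    have h4 : ((vform e A' z.1 z.2, vform e' B' z.1 z.2) : Vec a × Vec b) =
        (((fun i => psi d e (A i) (A' i) 0 z.1 z.2 : Vec a),
        (fun i => psi d' e' (B i) (B' i) 0 z.1 z.2 : Vec b)) : Vec a × Vec b) := by
      refine Prod.ext ?_ ?_
      · funext i
        exact (psi_zero h_FRM d e (A i) (A' i) z.1 z.2).symm
      · funext i
        exact (psi_zero h_FRM d' e' (B i) (B' i) z.1 z.2).symm
    rw [h4] at h3
    exact h3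
  obtain ⟨ρ0, hρ0, h3⟩ := Metric.eventually_nhds_iff.1 e1
  -- near the first curve
  have e2 : ∀ᶠ r : ℂ in 𝓝 0, ∀ s ∈ Metric.closedBall (0 : ℂ) (1 / ρ0),
      ((vform (d + e) (fun i => glue d r (A i) (A' i)) s 1,
        vform (d' + e') (fun i => glue d' r (B i) (B' i)) s 1) : Vec a × Vec b) ∈ O := by
    refine IsCompact.eventually_forall_of_forall_eventually (isCompact_closedBall _ _) ?_
    intro s _
    have hc : Continuous fun w : ℂ × ℂ =>
        ((vform (d + e) (fun i => glue d w.1 (A i) (A' i)) w.2 1,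
        vform (d' + e') (fun i => glue d' w.1 (B i) (B' i)) w.2 1) : Vec a × Vec b) :=
      (continuous_pi fun i => cont_glue h_FRM h_GLU d e (A i) (A' i) (hA i)).prodMk
        (continuous_pi fun i => cont_glue h_FRM h_GLU d' e' (B i) (B' i) (hB i))
    refine hc.continuousAt.eventually_mem (hO.mem_nhds ?_)
    have h4 := h1 s 1 (fun h => one_ne_zero (congrArg Prod.snd h))
    have h5 : ((vform d A s 1, vform d' B s 1) : Vec a × Vec b) =
        ((vform (d + e) (fun i => glue d 0 (A i) (A' i)) s 1,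
        vform (d' + e') (fun i => glue d' 0 (B i) (B' i)) s 1) : Vec a × Vec b) := by
      refine Prod.ext ?_ ?_
      · funext i
        exact (glue_zero h_FRM h_GLU d e (A i) (A' i) (hA i) s).symm
      · funext i
        exact (glue_zero h_FRM h_GLU d' e' (B i) (B' i) (hB i) s).symm
    rw [h5] at h4
    exact h4
  have e3 : ∀ᶠ r : ℂ in 𝓝 0, ‖r‖ < ρ0 := by
    refine Metric.eventually_nhds_iff.2 ⟨ρ0, hρ0, fun y hy => ?_⟩
    rw [dist_zero_right] at hy
    exact hy
  obtain ⟨r, ⟨h4, h5⟩, hr⟩ := (((e2.and e3).filter_mono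
    (nhdsWithin_le_nhds (s := {(0 : ℂ)}ᶜ))).and self_mem_nhdsWithin).exists
  have hr0 : r ≠ 0 := hr
  refine ⟨r, hr0, fun s t hst => ?_⟩
  -- scaling
  have hscale : ∀ x s t : ℂ, x ≠ 0 →
      ((vform (d + e) (fun i => glue d r (A i) (A' i)) s t,
        vform (d' + e') (fun i => glue d' r (B i) (B' i)) s t) : Vec a × Vec b) ∈ O →
      ((vform (d + e) (fun i => glue d r (A i) (A' i)) (x * s) (x * t),
        vform (d' + e') (fun i => glue d' r (B i) (B' i)) (x * s) (x * t)) :
          Vec a × Vec b) ∈ O := by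
    intro x s t hx h
    rw [vform_smul h_FRM, vform_smul h_FRM]
    exact hC _ _ _ _ (pow_ne_zero _ hx) (pow_ne_zero _ hx) h
  rcases lt_or_ge ‖t‖ (ρ0 * ‖s‖) with hlt | hge
  · have hs : s ≠ 0 := by
      rintro rfl
      rw [norm_zero, mul_zero] at hlt
      exact absurd hlt (not_lt.2 (norm_nonneg t))
    have hsn : 0 < ‖s‖ := norm_pos_iff.2 hs
    -- the point `(1, t / s)`
    have key : ((vform (d + e) (fun i => glue d r (A i) (A' i)) 1 (t / s),
        vform (d' + e') (fun i => glue d' r (B i) (B' i)) 1 (t / s)) : Vec a × Vec b) ∈ O := by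
      set u : ℝ := max ‖r‖ ‖t / s‖ with hu
      have hu0 : 0 < u := lt_of_lt_of_le (norm_pos_iff.2 hr0) (le_max_left _ _)
      have hu1 : u < ρ0 := by
        refine max_lt h5 ?_
        rw [norm_div, div_lt_iff₀ hsn]
        exact hlt
      have huc : (u : ℂ) ≠ 0 := by exact_mod_cast hu0.ne'
      have h6 := h3 (y := (u : ℂ)) (by
        rw [dist_zero_right, Complex.norm_real, Real.norm_of_nonneg hu0.le]
        exact hu1) (r / u, (t / s) / u) (by
        rw [mem_sphere_zero_iff_norm, Prod.norm_def]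
        change max ‖r / (u : ℂ)‖ ‖t / s / (u : ℂ)‖ = 1
        rw [norm_div, norm_div (t / s), Complex.norm_real, Real.norm_of_nonneg hu0.le,
          max_div_div_right hu0.le, ← hu, div_self hu0.ne'])
      have h7 := hC ((u : ℂ) ^ e) ((u : ℂ) ^ e') _ _ (pow_ne_zero _ huc) (pow_ne_zero _ huc) h6
      have e4 : (u : ℂ) * (r / u) = r := by field_simp
      have e5 : (u : ℂ) * (t / s / u) = t / s := by field_simp
      have e6 : ((vform (d + e) (fun i => glue d r (A i) (A' i)) 1 (t / s),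
          vform (d' + e') (fun i => glue d' r (B i) (B' i)) 1 (t / s)) : Vec a × Vec b) =
          ((u : ℂ) ^ e • (fun i => psi d e (A i) (A' i) u (r / u) (t / s / u) : Vec a),
            (u : ℂ) ^ e' • (fun i => psi d' e' (B i) (B' i) u (r / u) (t / s / u) :
              Vec b)) := by
        refine Prod.ext ?_ ?_
        · funext i
          have h8 := psi_glue h_FRM h_GLU d e (A i) (A' i) (hA i) u (r / u) (t / s / u)
          rw [e4, e5] at h8
          exact h8
        · funext i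
          have h8 := psi_glue h_FRM h_GLU d' e' (B i) (B' i) (hB i) u (r / u) (t / s / u)
          rw [e4, e5] at h8
          exact h8
      rw [e6]
      exact h7
    have h6 := hscale s 1 (t / s) hs key
    rw [mul_one, mul_div_cancel₀ _ hs] at h6
    exact h6
  · have ht : t ≠ 0 := by
      rintro rfl
      rw [norm_zero] at hge
      have hs : s ≠ 0 := fun h => hst (by rw [h])
      have : 0 < ρ0 * ‖s‖ := mul_pos hρ0 (norm_pos_iff.2 hs)
      linarith
    have htn : 0 < ‖t‖ := norm_pos_iff.2 ht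
    have key := h4 (s / t) (by
      rw [mem_closedBall_zero_iff, norm_div, div_le_div_iff₀ htn hρ0, one_mul, mul_comm]
      exact hge)
    have h6 := hscale t (s / t) 1 ht key
    rw [mul_one, mul_div_cancel₀ _ ht] at h6
    exact h6

end Pool.Agent.ARC
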