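import Pool.Agent.ARC.Targets3

set_option autoImplicit false

/-!
# ARC: p_TY1, the second component is constant on the fibres
-/

open Filter Topology

namespace Pool.Agent.ARC

namespace TY1_

lemma pos_dist {Z : Type} [TopologicalSpace Z] [CompactSpace Z] (K : Set Z)
    (hK : IsClosed K) (D : Z → ℝ) (hD : Continuous D) (hpos : ∀ z ∈ K, 0 < D z) :
    ∃ ε : ℝ, 0 < ε ∧ ∀ z, D z < ε → z ∉ K := by
  rcases K.eq_empty_or_nonempty with h | h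
  · exact ⟨1, one_pos, fun z _ hz => by rw [h] at hz; exact hz⟩
  · obtain ⟨z₀, hz₀, hmin⟩ := hK.isCompact.exists_isMinOn h hD.continuousOn
    refine ⟨D z₀, hpos z₀ hz₀, fun z hz hzK => ?_⟩
    exact absurd (hmin hzK) (not_le.2 hz)

end TY1_

theorem p_TY1 (h_ISB : T_ISB) (h_CNC : T_CNC) (h_FST : T_FST) (h_SEG : T_SEG) (h_RCO : T_RCO)
    (h_MIX : T_MIX) (h_COM : T_COM) (h_MET : T_MET) (h_CUC : T_CUC)
    (h_NRM : T_NRM) (h_CHN : T_CHN) (h_JRC : T_JRC) (h_SHO : T_SHO) (h_SHP : T_SHP)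
    (h_HPR : T_HPR) (h_LIF : T_LIF) (h_SCQ : T_SCQ) : T_TY1 := by
  intro a b c d m n X Y φ j hXc hφ hXY hfib hchain hfac hsc hj hj2 hY U hU hjU p₁ hp₁ p₂ hp₂ hne
  obtain ⟨x₁, hx₁, rfl⟩ := hp₁
  obtain ⟨x₂, hx₂, rfl⟩ := hp₂
  obtain ⟨gi, -, hgi⟩ := hj.2
  have hjinj : Set.InjOn j X := by
    intro x hx y hy hxy
    rw [← hgi x hx, ← hgi y hy, hxy]
  have hφY : ∀ x ∈ X, φ x ∈ Y := fun x hx => hXY ▸ ⟨x, hx, rfl⟩
  by_cases hy12 : φ x₁ = φ x₂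
  · have h1 : Joined U (j x₁) (j x₂) := by
      refine h_CHN a b m n X {z | z ∈ X ∧ φ z = φ x₁} j U x₁ x₂ hj.1 (fun z hz => hz.1) ?_ hU
        ⟨hx₁, rfl⟩ (hchain x₁ hx₁ x₂ hx₂ hy12)
      rintro _ ⟨z, hz, rfl⟩
      exact hjU ⟨z, hz.1, rfl⟩
    exact h_JRC m n U _ _ h1 hne
  -- the embedding of the base
  obtain ⟨f, hfH, hf2, hf1⟩ := h_FST a b m n X j hj.1
  obtain ⟨g, hgH, hg⟩ := hfac 0 n f hfH (fun x hx x' hx' hxx =>
    Prod.ext (hf1 x x') (by rw [hf2, hf2]; exact hj2 x hx x' hx' hxx))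
  obtain ⟨M, e, heE, he2⟩ := h_SEG c d n Y g hgH
  have hej : ∀ x ∈ X, (e (φ x)).2 = (j x).2 := by
    intro x hx
    rw [he2 _ (hφY x hx), ← hg x hx, hf2]
  obtain ⟨ei, -, hei⟩ := heE.2
  have heinj : Set.InjOn e Y := by
    intro x hx y hy hxy
    rw [← hei x hx, ← hei y hy, hxy]
  have hSo : IsOpenP (Sharp U) := (h_SHO m n U hU).1
  have hjS : j '' X ⊆ Sharp U := h_SHP a b c d m n X φ j U hj.1 hjinj hU hjU hfib hchain hj2
  obtain ⟨k, θ, hθc, hθi⟩ := h_MET M n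
  have : CompactSpace (PP M n) := h_COM M n
  have : CompactSpace X := isCompact_iff_compactSpace.1 hXc
  have hφc : ContinuousOn φ X := h_RCO _ _ _ _ X φ hφ
  have hjc : ContinuousOn j X := h_RCO _ _ _ _ X j hj.1
  have hec : ContinuousOn e Y := h_RCO _ _ _ _ Y e heE.1
  have hφc' : Continuous fun x : X => φ x := continuousOn_iff_continuous_domRestrict.1 hφc
  have hjc' : Continuous fun x : X => j x := continuousOn_iff_continuous_domRestrict.1 hjc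
  have heφc : ContinuousOn (fun x => e (φ x)) X := hec.comp hφc (fun x hx => hφY x hx)
  have heφc' : Continuous fun x : X => e (φ x) := continuousOn_iff_continuous_domRestrict.1 heφc
  let q : X → (Fin k → ℂ) := fun x => θ (e (φ x))
  have hq : Continuous q := hθc.comp heφc'
  -- step 3
  have hstep3 : ∃ ε₀ : ℝ, 0 < ε₀ ∧ ∀ (x : X) (v : PP M n), dist (q x) (θ v) < ε₀ →
      (((j x).1, v.2) : PP m n) ∈ Sharp U := by
    have hF : Continuous fun z : X × PP M n => (((j z.1).1, z.2.2) : PP m n) :=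
      (h_MIX m n M n).comp ((hjc'.comp continuous_fst).prodMk continuous_snd)
    have hSo' : IsOpen (Sharp U) := hSo
    obtain ⟨ε₀, h0, h1⟩ := TY1_.pos_dist ((fun z : X × PP M n =>
      (((j z.1).1, z.2.2) : PP m n)) ⁻¹' (Sharp U)ᶜ) (hSo'.isClosed_compl.preimage hF)
      (fun z => dist (q z.1) (θ z.2))
      ((hq.comp continuous_fst).dist (hθc.comp continuous_snd)) (by
        rintro ⟨x, v⟩ hz
        rcases dist_nonneg.lt_or_eq (a := (0 : ℝ)) (b := dist (q x) (θ v)) with h | h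
        · exact h
        · exfalso
          have h2 : e (φ x) = v := hθi (dist_eq_zero.1 h.symm)
          apply hz
          change (((j x).1, v.2) : PP m n) ∈ Sharp U
          rw [← h2, hej x x.2]
          exact hjS ⟨x, x.2, rfl⟩)
    refine ⟨ε₀, h0, fun x v hxv => ?_⟩
    by_contra hcon
    exact h1 (x, v) hxv hcon
  obtain ⟨ε₀, hε₀, h3⟩ := hstep3
  -- step 4
  obtain ⟨δ, hδ, hL⟩ := h_LIF X (Fin k → ℂ) q hq
    (h_SCQ a b c d X Y φ (Fin k → ℂ) (fun y => θ (e y)) hXc hφc hXY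
      (hθc.comp_continuousOn hec) (fun y hy y' hy' hyy => heinj hy hy' (hθi hyy)) hsc) ε₀ hε₀
  let V : Set (PP M n) := {v | ∃ y ∈ Y, dist (θ (e y)) (θ v) < δ}
  have hVo : IsOpen V := by
    have h4 : V = ⋃ y ∈ Y, {v | dist (θ (e y)) (θ v) < δ} := by
      ext v
      simp only [V, Set.mem_ofPred_eq, Set.mem_iUnion, exists_prop]
    rw [h4]
    exact isOpen_biUnion fun y _ => isOpen_lt (continuous_const.dist hθc) continuous_const
  have heV : e '' Y ⊆ V := by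
    rintro _ ⟨y, hy, rfl⟩
    exact ⟨y, hy, by rw [dist_self]; exact hδ⟩
  -- step 5
  have hene : e (φ x₁) ≠ e (φ x₂) := fun h => hy12 (heinj (hφY x₁ hx₁) (hφY x₂ hx₂) h)
  obtain ⟨C, ⟨p₀, q₀, A₀, B₀, hA₀, hB₀, hCe, -⟩, hCV, hC1, hC2⟩ := hY M n e heE V hVo heV
    (e (φ x₁)) ⟨_, hφY x₁ hx₁, rfl⟩ (e (φ x₂)) ⟨_, hφY x₂ hx₂, rfl⟩ hene
  rw [hCe] at hC1 hC2
  obtain ⟨s₁, t₁, hst₁, hs11, hs12⟩ := hC1
  obtain ⟨s₂, t₂, hst₂, hs21, hs22⟩ := hC2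
  obtain ⟨A, B, hAB, hA1, hB1, hA2, hB2⟩ := h_NRM M n p₀ q₀ V A₀ B₀ (e (φ x₁)) (e (φ x₂))
    s₁ t₁ s₂ t₂ (by
      intro s t hst
      obtain ⟨P, hP⟩ := (h_ISB M).2.1 _ (hA₀ s t hst)
      obtain ⟨P', hP'⟩ := (h_ISB n).2.1 _ (hB₀ s t hst)
      have h5 : ((P, P') : PP M n) ∈ V := hCV (by
        rw [hCe]
        exact ⟨s, t, hst, hP, hP'⟩)
      exact ⟨(P, P'), h5, hP, hP'⟩) hst₁ hst₂ hs11 hs12 hs21 hs22 hene
  obtain ⟨D, hDc, hD1, hD2, hD3⟩ := h_CUC M n p₀ q₀ A B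
    (fun s t hst => ((h_CNC M n V).2.2 _ _ (hAB s t hst)).1)
    (fun s t hst => ((h_CNC M n V).2.2 _ _ (hAB s t hst)).2)
  have hDV : ∀ t, D t ∈ V := by
    intro t
    induction t using OnePoint.rec with
    | infty => exact ((h_CNC M n V).2.1 _ _ _ hD2 hD3).1 (hAB 1 0 (by simp))
    | coe z => exact ((h_CNC M n V).2.1 _ _ _ (hD1 z).1 (hD1 z).2).1 (hAB z 1 (by simp))
  have hD0 : D ((0 : ℂ) : OnePoint ℂ) = e (φ x₁) :=
    Prod.ext (is_unique (hD1 0).1 hA1) (is_unique (hD1 0).2 hB1)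
  have hDi : D OnePoint.infty = e (φ x₂) := Prod.ext (is_unique hD2 hA2) (is_unique hD3 hB2)
  obtain ⟨σ, hσc, hσ0, hσi, hσ⟩ := hL (fun t => θ (D t)) ⟨x₁, hx₁⟩ ⟨x₂, hx₂⟩
    (hθc.comp hDc) (by
      intro t
      obtain ⟨y, hy, hyd⟩ := hDV t
      rw [← hXY] at hy
      obtain ⟨x, hx, rfl⟩ := hy
      exact ⟨⟨x, hx⟩, hyd⟩) (by
      change θ (D _) = θ (e (φ x₁))
      rw [hD0]) (by
      change θ (D _) = θ (e (φ x₂))
      rw [hDi])
  -- step 6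
  have hτc : Continuous fun t : OnePoint ℂ => (((j (σ t)).1, (D t).2) : PP m n) :=
    (h_MIX m n M n).comp ((hjc'.comp hσc).prodMk hDc)
  have h6 := h_HPR m n U (fun t => (((j (σ t)).1, (D t).2) : PP m n)) hU hτc
    (fun t => h3 (σ t) (D t) (hσ t)) q₀ B (fun z => (hD1 z).2) hD3
  have h7 : (((j (σ ((0 : ℂ) : OnePoint ℂ))).1, (D ((0 : ℂ) : OnePoint ℂ)).2) : PP m n) =
      j x₁ := by
    rw [hσ0, hD0]
    exact Prod.ext rfl (hej x₁ hx₁)
  have h8 : (((j (σ OnePoint.infty)).1, (D OnePoint.infty).2) : PP m n) = j x₂ := by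
    rw [hσi, hDi]
    exact Prod.ext rfl (hej x₂ hx₂)
  simp only [h7, h8] at h6
  exact h_JRC m n U _ _ h6 hne

end Pool.Agent.ARC
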