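import Pool.Agent.ARC.Targets5

set_option autoImplicit false

/-!
# ARC: p_TYE, the second component is constant on the fibres, elliptic version
-/

open Filter Topology

namespace Pool.Agent.ARC

namespace TYE_

lemma pos_dist {Z : Type} [TopologicalSpace Z] [CompactSpace Z] (K : Set Z)
    (hK : IsClosed K) (D : Z → ℝ) (hD : Continuous D) (hpos : ∀ z ∈ K, 0 < D z) :
    ∃ ε : ℝ, 0 < ε ∧ ∀ z, D z < ε → z ∉ K := by
  rcases K.eq_empty_or_nonempty with h | h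
  · exact ⟨1, one_pos, fun z _ hz => by rw [h] at hz; exact hz⟩
  · obtain ⟨z₀, hz₀, hmin⟩ := hK.isCompact.exists_isMinOn h hD.continuousOn
    refine ⟨D z₀, hpos z₀ hz₀, fun z hz hzK => ?_⟩
    exact absurd (hmin hzK) (not_le.2 hz)

end TYE_

theorem p_TYE (h_FST : T_FST) (h_SEG : T_SEG) (h_RCO : T_RCO)
    (h_MIX : T_MIX) (h_COM : T_COM) (h_MET : T_MET) (h_SHO : T_SHO) (h_SHP : T_SHP)
    (h_SCQ : T_SCQ) (h_NOD : T_NOD) (h_LIT : T_LIT) (h_PAS : T_PAS) (h_RTE : T_RTE)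
    (h_CHE : T_CHE) (h_HCC : T_HCC) (h_HPA : T_HPA) : T_TYE := by
  intro a b c d m n X Y φ j hXc hφ hXY hfib hchain hfac hsc hj hj2 hY U hU hjU p₁ hp₁ p₂ hp₂
  obtain ⟨x₁, hx₁, rfl⟩ := hp₁
  obtain ⟨x₂, hx₂, rfl⟩ := hp₂
  obtain ⟨gi, -, hgi⟩ := hj.2
  have hjinj : Set.InjOn j X := by
    intro x hx y hy hxy
    rw [← hgi x hx, ← hgi y hy, hxy]
  have hφY : ∀ x ∈ X, φ x ∈ Y := fun x hx => hXY ▸ ⟨x, hx, rfl⟩
  -- the embedding of the base
  obtain ⟨f, hfH, hf2, hf1⟩ := h_FST a b m n X j hj.1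
  obtain ⟨g, hgH, hg⟩ := hfac 0 n f hfH (fun x hx x' hx' hxx =>
    Prod.ext (hf1 x x') (by rw [hf2, hf2]; exact hj2 x hx x' hx' hxx))
  obtain ⟨M, e, heE, he2⟩ := h_SEG c d n Y g hgH
  have hej : ∀ x ∈ X, (e (φ x)).2 = (j x).2 := by
    intro x hx
    rw [he2 _ (hφY x hx), ← hg x hx, hf2]
  obtain ⟨ei, -, hei⟩ := heE.2
  have heinj : Set.InjOn e Y := by
    intro x hx y hy hxy
    rw [← hei x hx, ← hei y hy, hxy]
  have hSo : IsOpenP (Sharp U) := (h_SHO m n U hU).1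
  have hjS : j '' X ⊆ Sharp U := h_SHP a b c d m n X φ j U hj.1 hjinj hU hjU hfib hchain hj2
  obtain ⟨k, θ, hθc, hθi⟩ := h_MET M n
  have : CompactSpace (PP M n) := h_COM M n
  have : CompactSpace X := isCompact_iff_compactSpace.1 hXc
  have hφc : ContinuousOn φ X := h_RCO _ _ _ _ X φ hφ
  have hjc : ContinuousOn j X := h_RCO _ _ _ _ X j hj.1
  have hec : ContinuousOn e Y := h_RCO _ _ _ _ Y e heE.1
  have hφc' : Continuous fun x : X => φ x := continuousOn_iff_continuous_domRestrict.1 hφc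
  have hjc' : Continuous fun x : X => j x := continuousOn_iff_continuous_domRestrict.1 hjc
  have heφc : ContinuousOn (fun x => e (φ x)) X := hec.comp hφc (fun x hx => hφY x hx)
  have heφc' : Continuous fun x : X => e (φ x) := continuousOn_iff_continuous_domRestrict.1 heφc
  let q : X → (Fin k → ℂ) := fun x => θ (e (φ x))
  have hq : Continuous q := hθc.comp heφc'
  -- step 3
  have hstep3 : ∃ ε₀ : ℝ, 0 < ε₀ ∧ ∀ (x : X) (v : PP M n), dist (q x) (θ v) < ε₀ →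
      (((j x).1, v.2) : PP m n) ∈ Sharp U := by
    have hF : Continuous fun z : X × PP M n => (((j z.1).1, z.2.2) : PP m n) :=
      (h_MIX m n M n).comp ((hjc'.comp continuous_fst).prodMk continuous_snd)
    have hSo' : IsOpen (Sharp U) := hSo
    obtain ⟨ε₀, h0, h1⟩ := TYE_.pos_dist ((fun z : X × PP M n =>
      (((j z.1).1, z.2.2) : PP m n)) ⁻¹' (Sharp U)ᶜ) (hSo'.isClosed_compl.preimage hF)
      (fun z => dist (q z.1) (θ z.2))
      ((hq.comp continuous_fst).dist (hθc.comp continuous_snd)) (by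
        rintro ⟨x, v⟩ hz
        rcases dist_nonneg.lt_or_eq (a := (0 : ℝ)) (b := dist (q x) (θ v)) with h | h
        · exact h
        · exfalso
          have h2 : e (φ x) = v := hθi (dist_eq_zero.1 h.symm)
          apply hz
          change (((j x).1, v.2) : PP m n) ∈ Sharp U
          rw [← h2, hej x x.2]
          exact hjS ⟨x, x.2, rfl⟩)
    refine ⟨ε₀, h0, fun x v hxv => ?_⟩
    by_contra hcon
    exact h1 (x, v) hxv hcon
  obtain ⟨ε₀, hε₀, h3⟩ := hstep3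
  have hqN := h_SCQ a b c d X Y φ (Fin k → ℂ) (fun y => θ (e y)) hXc hφc hXY
      (hθc.comp_continuousOn hec) (fun y hy y' hy' hyy => heinj hy hy' (hθi hyy)) hsc
  -- step 4
  obtain ⟨δN, hδN, hN⟩ := h_NOD X (Fin k → ℂ) q hq hqN (ε₀ / 2) (half_pos hε₀)
  obtain ⟨ε₁, hε₁, h1a, h1b⟩ : ∃ ε₁ : ℝ, 0 < ε₁ ∧ ε₁ ≤ ε₀ / 2 ∧ ε₁ ≤ δN / 2 :=
    ⟨min (ε₀ / 2) (δN / 2), lt_min (half_pos hε₀) (half_pos hδN), min_le_left _ _,
      min_le_right _ _⟩
  obtain ⟨δ, hδ, hL⟩ := h_LIT X (Fin k → ℂ) q hq hqN ε₁ hε₁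
  let V : Set (PP M n) := {v | ∃ y ∈ Y, dist (θ (e y)) (θ v) < δ}
  have hVo : IsOpen V := by
    have h4 : V = ⋃ y ∈ Y, {v | dist (θ (e y)) (θ v) < δ} := by
      ext v
      simp only [V, Set.mem_ofPred_eq, Set.mem_iUnion, exists_prop]
    rw [h4]
    exact isOpen_biUnion fun y _ => isOpen_lt (continuous_const.dist hθc) continuous_const
  have heV : e '' Y ⊆ V := by
    rintro _ ⟨y, hy, rfl⟩
    exact ⟨y, hy, by rw [dist_self]; exact hδ⟩
  -- step 5
  have h5 : ∀ (u : PP M n) (x x' : X), dist (q x) (θ u) < ε₁ → dist (q x') (θ u) < ε₁ →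
      ChainE U (((j x).1, u.2) : PP m n) (((j x').1, u.2) : PP m n) := by
    intro u x x' hx hx'
    have hxx : dist (q x) (q x') < δN := by
      have := dist_triangle_right (q x) (q x') (θ u)
      linarith
    obtain ⟨γ, hγ⟩ := hN x x' hxx
    have hc : Continuous fun s : unitInterval => (((j (γ s)).1, u.2) : PP m n) :=
      (h_MIX m n M n).comp ((hjc'.comp γ.continuous).prodMk continuous_const)
    have h := h_PAS m n U (fun s => (((j (γ s)).1, u.2) : PP m n)) hU hc (fun s => by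
      apply h3 (γ s) u
      have h6 := dist_triangle (q (γ s)) (q x) (θ u)
      have h7 := hγ s
      linarith) (fun s => rfl)
    simp only [γ.source, γ.target] at h
    exact h_RTE m n U _ _ h
  -- step 6
  have h6 : ∀ (C : Set (PP M n)), EllCurve C → C ⊆ V → ∀ u ∈ C, ∀ u' ∈ C, ∃ x x' : X,
      dist (q x) (θ u) < ε₁ ∧ dist (q x') (θ u') < ε₁ ∧
      ChainE U (((j x).1, u.2) : PP m n) (((j x').1, u'.2) : PP m n) := by
    rintro C ⟨τ, D, hτ, hD, hD1, hDτ, rfl, -⟩ hCV _ ⟨t, rfl⟩ _ ⟨t', rfl⟩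
    have hDc : Continuous D := h_HCC M n D hD
    obtain ⟨σ, hσc, hσ1, hστ, hσ⟩ := hL τ (fun z => θ (D z)) hτ (hθc.comp hDc)
      (fun z => by rw [hD1]) (fun z => by rw [hDτ]) (fun z => by
        obtain ⟨y, hy, hyd⟩ := hCV ⟨z, rfl⟩
        rw [← hXY] at hy
        obtain ⟨x, hx, rfl⟩ := hy
        exact ⟨⟨x, hx⟩, hyd⟩)
    refine ⟨σ t, σ t', hσ t, hσ t', ?_⟩
    have hfc : Continuous fun z : ℂ => (((j (σ z)).1, (D z).2) : PP m n) :=
      (h_MIX m n M n).comp ((hjc'.comp hσc).prodMk hDc)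
    exact h_HPA m n U τ (fun z => (((j (σ z)).1, (D z).2) : PP m n)) hU hτ hfc
      (fun z => by simp only [hD1, hσ1]) (fun z => by simp only [hDτ, hστ])
      (fun z => h3 (σ z) (D z) (by have := hσ z; linarith)) (fun z₀ => by
        obtain ⟨N, F, G, hN, hz, hF, hG, h⟩ := hD z₀
        exact ⟨N, G, hN, hz, hG, fun z hz' => (h z hz').2⟩) t t'
  -- step 7
  have hch : ChainE V (e (φ x₁)) (e (φ x₂)) := hY M n e heE V hVo heV
    (e (φ x₁)) ⟨_, hφY x₁ hx₁, rfl⟩ (e (φ x₂)) ⟨_, hφY x₂ hx₂, rfl⟩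
  have h7 : ∀ u : PP M n, ChainE V (e (φ x₁)) u → ∀ x : X, dist (q x) (θ u) < ε₁ →
      ChainE U (j x₁) (((j x).1, u.2) : PP m n) := by
    intro u hu
    induction hu with
    | refl =>
      intro x hx
      have h := h5 (e (φ x₁)) ⟨x₁, hx₁⟩ x (by
        change dist (θ (e (φ x₁))) (θ (e (φ x₁))) < ε₁
        rw [dist_self]
        exact hε₁) hx
      have h8 : (((j x₁).1, (e (φ x₁)).2) : PP m n) = j x₁ := Prod.ext rfl (hej x₁ hx₁)
      change ChainE U (((j x₁).1, (e (φ x₁)).2) : PP m n) _ at h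
      rwa [h8] at h
    | tail _ hstep ih =>
      obtain ⟨C, hC, hCV, hu1, hu2⟩ := hstep
      intro x hx
      obtain ⟨y, y', hy, hy', hyy⟩ := h6 C hC hCV _ hu1 _ hu2
      exact (h_CHE m n U).2.1 _ _ _ ((h_CHE m n U).2.1 _ _ _ (ih y hy) hyy) (h5 _ y' x hy' hx)
  have h9 := h7 _ hch ⟨x₂, hx₂⟩ (by
    change dist (θ (e (φ x₂))) (θ (e (φ x₂))) < ε₁
    rw [dist_self]
    exact hε₁)
  have h8 : (((j x₂).1, (e (φ x₂)).2) : PP m n) = j x₂ := Prod.ext rfl (hej x₂ hx₂)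
  change ChainE U _ (((j x₂).1, (e (φ x₂)).2) : PP m n) at h9
  rwa [h8] at h9

end Pool.Agent.ARC
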