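import Pool.Agent.ARC.Targets

set_option autoImplicit false

/-!
# ARC-TYP: the second component of `j` is constant on every fibre or on no fibre
-/

noncomputable section

open Filter Topology

namespace Pool.Agent.ARC

namespace TYP_

/-- The points whose second component does not lie on a coordinate hyperplane. -/
def NN (m n : ℕ) (i : Fin (n + 1)) : Set (PP m n) := {u | ∀ w, Is w u.2 → w i ≠ 0}

theorem open_NN (h_ISB : T_ISB) (m n : ℕ) (i : Fin (n + 1)) : IsOpen (NN m n i) := by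
  change IsOpen (cone (NN m n i))
  have h1 : cone (NN m n i) = {z : Vec m × Vec n | z.1 ≠ 0} ∩ {z | z.2 i ≠ 0} := by
    ext z
    constructor
    · rintro ⟨x, hx, hz1, hz2⟩
      exact ⟨hz1.1, hx z.2 hz2⟩
    · rintro ⟨hz1, hz2⟩
      have hz3 : z.2 ≠ 0 := by
        intro h
        apply hz2
        rw [h]
        rfl
      obtain ⟨p, hp⟩ := (h_ISB m).2.1 z.1 hz1
      obtain ⟨q, hq⟩ := (h_ISB n).2.1 z.2 hz3
      refine ⟨(p, q), ?_, hp, hq⟩
      intro w hw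
      obtain ⟨c, hc, hcw⟩ := (h_ISB n).2.2.2.2.1 z.2 w q hq hw
      rw [hcw]
      exact mul_ne_zero hc hz2
  rw [h1]
  exact (isOpen_ne_fun continuous_fst continuous_const).inter
    (isOpen_ne_fun ((continuous_apply i).comp continuous_snd) continuous_const)

end TYP_

open TYP_ in
theorem p_TYP (h_RCO : T_RCO) (h_CHT : T_CHT) (h_PRJ : T_PRJ) (h_TB2 : T_TB2) (h_CON : T_CON)
    (h_ISB : T_ISB) : T_TYP := by
  intro a b c d m n X φ j hXc hXp hφ hop hch hj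
  have hφc := h_RCO a b c d X φ hφ
  have hjc := h_RCO a b m n X j hj
  set E : Set (PP a b) := {x | x ∈ X ∧ ∀ x' ∈ X, φ x' = φ x → (j x').2 = (j x).2} with hE
  -- the points of `E` are inner points
  have hin : ∀ x₀ ∈ E, ∃ U : Set (PP a b), IsOpen U ∧ x₀ ∈ U ∧ X ∩ U ⊆ E := by
    intro x₀ hx₀
    obtain ⟨i0, i, N, -, -, -, hxN, hN, -⟩ := h_CHT m n (j x₀)
    have hx₀N : j x₀ ∈ NN m n i := ((hN (j x₀)).1 hxN).2
    have : CompactSpace X := isCompact_iff_compactSpace.1 hXc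
    have : T2Space (PP c d) := (h_PRJ c d).2.2.2.2
    have hα : Continuous fun x : X => φ x := continuousOn_iff_continuous_domRestrict.1 hφc
    have hj' : Continuous fun x : X => j x := continuousOn_iff_continuous_domRestrict.1 hjc
    have hW : IsOpen {p : X × X | j p.1 ∈ NN m n i} :=
      (open_NN h_ISB m n i).preimage (hj'.comp continuous_fst)
    have h1 := h_TB2 X X (PP c d) (fun x => φ x) (fun x => φ x) _ hα hα hW
    obtain ⟨U, hU, hU2⟩ := isOpen_induced_iff.1 h1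
    refine ⟨U, hU, ?_, ?_⟩
    · have h2 : (⟨x₀, hx₀.1⟩ : X) ∈ Subtype.val ⁻¹' U := by
        rw [hU2]
        intro x hx w hw
        have h3 := hx₀.2 x.1 x.2 hx
        change Is w (j x.1).2 at hw
        rw [h3] at hw
        exact hx₀N w hw
      exact h2
    · rintro y ⟨hyX, hyU⟩
      have h2 : (⟨y, hyX⟩ : X) ∈ Subtype.val ⁻¹' U := hyU
      rw [hU2] at h2
      refine ⟨hyX, fun x' hx' hxy => ?_⟩
      have h3 := hch y hyX x' hx' hxy.symm
      have h4 : ∀ z, ChainIn {z | z ∈ X ∧ φ z = φ y} y z → (j z).2 = (j y).2 := by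
        intro z hz
        induction hz with
        | refl => rfl
        | tail _ hst ih =>
          obtain ⟨C, hC, hCs, hu, hv⟩ := hst
          rw [← ih]
          refine h_CON a b m n X C j i hj hC (fun z hz => (hCs hz).1) ?_ _ hv _ hu
          intro x hx w hw
          exact h2 ⟨x, (hCs hx).1⟩ (hCs hx).2 w hw
      exact h4 x' h3
  -- the other points of `X` are inner points of the complement
  have hout : ∀ x₀ ∈ X, x₀ ∉ E → ∃ U : Set (PP a b), IsOpen U ∧ x₀ ∈ U ∧ ∀ y ∈ X ∩ U, y ∉ E := by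
    intro x₀ hx₀ hx₀E
    obtain ⟨x₁, hx₁, hφ1, hne⟩ : ∃ x₁ ∈ X, φ x₁ = φ x₀ ∧ (j x₁).2 ≠ (j x₀).2 := by
      by_contra hcon
      exact hx₀E ⟨hx₀, fun x' hx' hxx => by
        by_contra h
        exact hcon ⟨x', hx', hxx, h⟩⟩
    have hg : ContinuousOn (fun y => prj (j y).2) X := (h_PRJ m n).2.2.2.1.comp_continuousOn hjc
    have hne' : prj (j x₀).2 ≠ prj (j x₁).2 := fun h => hne ((h_PRJ n m).2.1 _ _ h).symm
    obtain ⟨A₀, A₁, hA₀, hA₁, h0, h1, hdis⟩ := t2_separation hne'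
    obtain ⟨U₀, hU₀, hU₀'⟩ := continuousOn_iff'.1 hg A₀ hA₀
    obtain ⟨U₁, hU₁, hU₁'⟩ := continuousOn_iff'.1 hg A₁ hA₁
    obtain ⟨V, hV, hV'⟩ := hop U₁ hU₁
    obtain ⟨U₂, hU₂, hU₂'⟩ := continuousOn_iff'.1 hφc V hV
    have hx1U : x₁ ∈ U₁ := by
      have : x₁ ∈ U₁ ∩ X := by
        rw [← hU₁']
        exact ⟨h1, hx₁⟩
      exact this.1
    have hφV : φ x₀ ∈ V := by
      have : φ x₁ ∈ φ '' X ∩ V := by
        rw [← hV']
        exact ⟨x₁, ⟨hx₁, hx1U⟩, rfl⟩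
      rw [← hφ1]
      exact this.2
    refine ⟨U₀ ∩ U₂, hU₀.inter hU₂, ⟨?_, ?_⟩, ?_⟩
    · have : x₀ ∈ U₀ ∩ X := by
        rw [← hU₀']
        exact ⟨h0, hx₀⟩
      exact this.1
    · have : x₀ ∈ U₂ ∩ X := by
        rw [← hU₂']
        exact ⟨hφV, hx₀⟩
      exact this.1
    · rintro y ⟨hyX, hy0, hy2⟩ hyE
      have hyV : y ∈ φ ⁻¹' V ∩ X := by
        rw [hU₂']
        exact ⟨hy2, hyX⟩
      have hyA : y ∈ (fun y => prj (j y).2) ⁻¹' A₀ ∩ X := by
        rw [hU₀']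
        exact ⟨hy0, hyX⟩
      have h3 : φ y ∈ φ '' (X ∩ U₁) := by
        rw [hV']
        exact ⟨⟨y, hyX, rfl⟩, hyV.1⟩
      obtain ⟨y', ⟨hy'X, hy'U⟩, hyy⟩ := h3
      have hyA' : y' ∈ (fun y => prj (j y).2) ⁻¹' A₁ ∩ X := by
        rw [hU₁']
        exact ⟨hy'U, hy'X⟩
      have h4 := hyE.2 y' hy'X hyy
      refine Set.disjoint_left.1 hdis hyA.1 ?_
      have h5 := hyA'.1
      change prj (j y').2 ∈ A₁ at h5
      rw [h4] at h5
      exact h5
  -- connectedness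
  have h1 := isPreconnected_iff_subset_of_disjoint.1 hXp (⋃₀ {U | IsOpen U ∧ X ∩ U ⊆ E})
    (⋃₀ {U | IsOpen U ∧ ∀ y ∈ X ∩ U, y ∉ E}) (isOpen_sUnion fun U hU => hU.1)
    (isOpen_sUnion fun U hU => hU.1)
    (by
      intro x hx
      by_cases hxE : x ∈ E
      · obtain ⟨U, hU, hxU, hs⟩ := hin x hxE
        exact Or.inl ⟨U, ⟨hU, hs⟩, hxU⟩
      · obtain ⟨U, hU, hxU, hs⟩ := hout x hx hxE
        exact Or.inr ⟨U, ⟨hU, hs⟩, hxU⟩)
    (by
      rw [Set.eq_empty_iff_forall_notMem]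
      rintro x ⟨hxX, ⟨U, ⟨_, hU⟩, hxU⟩, U', ⟨_, hU'⟩, hxU'⟩
      exact hU' x ⟨hxX, hxU'⟩ (hU ⟨hxX, hxU⟩))
  rcases h1 with h1 | h1
  · left
    intro x hx x' hx' hxx
    obtain ⟨U, ⟨_, hU⟩, hxU⟩ := h1 hx
    exact ((hU ⟨hx, hxU⟩).2 x' hx' hxx.symm).symm
  · right
    intro x hx
    obtain ⟨U, ⟨_, hU⟩, hxU⟩ := h1 hx
    have h2 := hU x ⟨hx, hxU⟩
    by_contra hcon
    refine h2 ⟨hx, fun x' hx' hxx => ?_⟩
    by_contra h
    exact hcon ⟨x', hx', hxx, h⟩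

end Pool.Agent.ARC
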