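import Pool.Agent.ARC.Targets2

set_option autoImplicit false

/-!
# ARC: UNI, uniform bubbles on compact sets
-/

noncomputable section

open Filter Topology

namespace Pool.Agent.ARC

namespace UNI_

theorem BD_mono {a b : ℕ} {O : Set (Vec a × Vec b)} {M : ℕ} {ε C ε' C' : ℝ} {u₀ : Vec a}
    {w₀ : Vec b} (h : BD O M ε C u₀ w₀) (hε : ε' ≤ ε) (hC : C ≤ C') : BD O M ε' C' u₀ w₀ := by
  obtain ⟨Q, hQ, hB⟩ := h
  exact ⟨Q, fun j => (hQ j).trans hC, fun u e w hu he hw s t hst =>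
    hB u e w (hu.trans_le hε) (he.trans_le hε) (hw.trans_le hε) s t hst⟩

/-- The coefficients. -/
def QQ {a : ℕ} (m l : ℕ) (A : Fin (a + 1) → ℕ → ℂ) (j : ℕ) : Vec a :=
  if 2 * l ∣ j ∧ j ≤ 2 * l * m then fun i => A i (j / (2 * l)) else 0

theorem QQ_norm {a : ℕ} (m l : ℕ) (A : Fin (a + 1) → ℕ → ℂ) (j : ℕ) :
    ‖QQ m l A j‖ ≤ ∑ k ∈ Finset.range (m + 1), ‖(fun i => A i k : Vec a)‖ := by
  unfold QQ
  split_ifs with h
  · have hk : j / (2 * l) ∈ Finset.range (m + 1) := by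
      rw [Finset.mem_range, Nat.lt_succ_iff]
      exact Nat.div_le_of_le_mul h.2
    exact Finset.single_le_sum (f := fun k => ‖(fun i => A i k : Vec a)‖)
      (fun k _ => norm_nonneg _) hk
  · rw [norm_zero]
    exact Finset.sum_nonneg fun k _ => norm_nonneg _

theorem QQ_sum {a : ℕ} (m l : ℕ) (hl : 1 ≤ l) (A : Fin (a + 1) → ℕ → ℂ) (s t : ℂ) :
    (t ^ (2 * l * m)) • (fun i => A i 0 : Vec a) +
      ∑ j ∈ Finset.Icc 2 (2 * l * m), (s ^ j * t ^ (2 * l * m - j)) • QQ m l A j =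
      vform m A (s ^ (2 * l)) (t ^ (2 * l)) := by
  have h1 : ∑ j ∈ Finset.Icc 2 (2 * l * m), (s ^ j * t ^ (2 * l * m - j)) • QQ m l A j =
      ∑ k ∈ Finset.Icc 1 m, (s ^ (2 * l * k) * t ^ (2 * l * m - 2 * l * k)) •
        (fun i => A i k : Vec a) := by
    have hinj : Set.InjOn (fun k => 2 * l * k) (Finset.Icc 1 m : Finset ℕ) := by
      intro x _ y _ hxy
      exact Nat.eq_of_mul_eq_mul_left (by omega) hxy
    have hsub : (Finset.Icc 1 m).image (fun k => 2 * l * k) ⊆ Finset.Icc 2 (2 * l * m) := by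
      intro j hj
      rw [Finset.mem_image] at hj
      obtain ⟨k, hk, rfl⟩ := hj
      rw [Finset.mem_Icc] at hk ⊢
      constructor
      · have : 2 * 1 * 1 ≤ 2 * l * k := Nat.mul_le_mul (Nat.mul_le_mul le_rfl hl) hk.1
        omega
      · exact Nat.mul_le_mul le_rfl hk.2
    rw [← Finset.sum_subset hsub, Finset.sum_image hinj]
    · refine Finset.sum_congr rfl fun k hk => ?_
      rw [Finset.mem_Icc] at hk
      congr 1
      unfold QQ
      rw [if_pos ⟨Dvd.intro k rfl, Nat.mul_le_mul le_rfl hk.2⟩]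
      rw [Nat.mul_div_cancel_left k (by omega : 0 < 2 * l)]
    · intro j hj hj'
      unfold QQ
      rw [if_neg, smul_zero]
      rintro ⟨⟨k, hk⟩, hle⟩
      apply hj'
      rw [Finset.mem_image]
      rw [Finset.mem_Icc] at hj
      refine ⟨k, ?_, hk.symm⟩
      rw [Finset.mem_Icc]
      constructor
      · by_contra hcon
        have : k = 0 := by omega
        subst this
        omega
      · rw [hk] at hle
        exact Nat.le_of_mul_le_mul_left hle (by omega)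
  rw [h1]
  have h2 : Finset.range (m + 1) = insert 0 (Finset.Icc 1 m) := by
    ext k
    simp only [Finset.mem_range, Finset.mem_insert, Finset.mem_Icc]
    omega
  funext i
  simp only [vform, form, Pi.add_apply, Pi.smul_apply, smul_eq_mul, Finset.sum_apply]
  rw [h2, Finset.sum_insert (by simp)]
  congr 1
  · rw [pow_zero, mul_one, Nat.sub_zero, ← pow_mul]
    ring
  · refine Finset.sum_congr rfl fun k hk => ?_
    rw [← pow_mul, ← pow_mul, ← Nat.mul_sub]
    ring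

/-- A bubble at one point is uniform in a neighbourhood. -/
theorem loc (h1 : T_CPT) {a b : ℕ} {O : Set (Vec a × Vec b)} (hO : IsOpen O) (hC : Conic O)
    {z₀ : Vec a × Vec b} (hz : z₀ ∈ Bub O) :
    ∃ (m : ℕ) (ε C : ℝ), 1 ≤ m ∧ 0 < ε ∧ ∀ l : ℕ, 1 ≤ l → ∀ z ∈ Metric.ball z₀ ε,
      BD O (2 * l * m) ε C z.1 z.2 := by
  obtain ⟨m, A, hm, hA0, hA⟩ := hz
  have hB : ∀ s t : ℂ, vform 0 (fun i _ => z₀.2 i) s t = z₀.2 := by
    intro s t
    funext i
    simp [vform, form]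
  obtain ⟨ε₀, hε₀, hε⟩ := (h1 a b m 0 O A (fun i _ => z₀.2 i) hC).1 hO (by
    intro s t hst
    rw [hB]
    exact hA s t hst)
  have hA0' : (fun i => A i 0 : Vec a) = z₀.1 := by
    rw [← hA0]
    funext i
    simp only [vform, form]
    rw [Finset.sum_eq_single 0]
    · simp
    · intro k _ hk
      rw [zero_pow hk]
      ring
    · intro h
      exact absurd (Finset.mem_range.2 (Nat.succ_pos m)) h
  refine ⟨m, ε₀ / 4, ∑ k ∈ Finset.range (m + 1), ‖(fun i => A i k : Vec a)‖, hm, by linarith,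
    ?_⟩
  intro l hl z hzb
  have hd1 : ‖z.1 - z₀.1‖ < ε₀ / 4 := by
    rw [Metric.mem_ball, Prod.dist_eq] at hzb
    have := lt_of_le_of_lt (le_max_left _ _) hzb
    rwa [dist_eq_norm] at this
  have hd2 : ‖z.2 - z₀.2‖ < ε₀ / 4 := by
    rw [Metric.mem_ball, Prod.dist_eq] at hzb
    have := lt_of_le_of_lt (le_max_right _ _) hzb
    rwa [dist_eq_norm] at this
  have hM : 2 ≤ 2 * l * m := by
    have : 2 * 1 * 1 ≤ 2 * l * m := Nat.mul_le_mul (Nat.mul_le_mul le_rfl hl) hm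
    omega
  refine ⟨QQ m l A, QQ_norm m l A, ?_⟩
  intro u e w hu he hw
  have hunit : ∀ s t : ℂ, max ‖s‖ ‖t‖ = 1 →
      (t ^ (2 * l * m) • u + (s * t ^ (2 * l * m - 1)) • e +
        ∑ j ∈ Finset.Icc 2 (2 * l * m), (s ^ j * t ^ (2 * l * m - j)) • QQ m l A j, w) ∈ O := by
    intro s t hst
    have hs : ‖s‖ ≤ 1 := hst ▸ le_max_left _ _
    have ht : ‖t‖ ≤ 1 := hst ▸ le_max_right _ _
    have hmax : max ‖s ^ (2 * l)‖ ‖t ^ (2 * l)‖ = 1 := by
      rw [norm_pow, norm_pow]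
      rcases max_choice ‖s‖ ‖t‖ with h | h
      · have h' : ‖s‖ = 1 := by rw [← h]; exact hst
        rw [h', one_pow]
        exact max_eq_left (pow_le_one₀ (norm_nonneg _) ht)
      · have h' : ‖t‖ = 1 := by rw [← h]; exact hst
        rw [h', one_pow]
        exact max_eq_right (pow_le_one₀ (norm_nonneg _) hs)
    refine hε (s ^ (2 * l)) (t ^ (2 * l)) hmax _ _ ?_ ?_
    · rw [← QQ_sum m l hl A s t, hA0']
      have hid : t ^ (2 * l * m) • u + (s * t ^ (2 * l * m - 1)) • e +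
          ∑ j ∈ Finset.Icc 2 (2 * l * m), (s ^ j * t ^ (2 * l * m - j)) • QQ m l A j -
          (t ^ (2 * l * m) • z₀.1 +
          ∑ j ∈ Finset.Icc 2 (2 * l * m), (s ^ j * t ^ (2 * l * m - j)) • QQ m l A j) =
          t ^ (2 * l * m) • ((u - z.1) + (z.1 - z₀.1)) + (s * t ^ (2 * l * m - 1)) • e := by
        rw [smul_add, smul_sub, smul_sub]
        abel
      rw [hid]
      have n1 : ‖t ^ (2 * l * m)‖ ≤ 1 := by
        rw [norm_pow]
        exact pow_le_one₀ (norm_nonneg _) ht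
      have n2 : ‖s * t ^ (2 * l * m - 1)‖ ≤ 1 := by
        rw [norm_mul, norm_pow]
        exact mul_le_one₀ hs (by positivity) (pow_le_one₀ (norm_nonneg _) ht)
      calc ‖t ^ (2 * l * m) • ((u - z.1) + (z.1 - z₀.1)) + (s * t ^ (2 * l * m - 1)) • e‖
          ≤ ‖t ^ (2 * l * m) • ((u - z.1) + (z.1 - z₀.1))‖ +
            ‖(s * t ^ (2 * l * m - 1)) • e‖ := norm_add_le _ _
        _ ≤ ‖(u - z.1) + (z.1 - z₀.1)‖ + ‖e‖ := by
            rw [norm_smul, norm_smul]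
            exact add_le_add (mul_le_of_le_one_left (norm_nonneg _) n1)
              (mul_le_of_le_one_left (norm_nonneg _) n2)
        _ ≤ ‖u - z.1‖ + ‖z.1 - z₀.1‖ + ‖e‖ := by
            gcongr
            exact norm_add_le _ _
        _ < ε₀ := by linarith
    · rw [hB]
      calc ‖w - z₀.2‖ = ‖(w - z.2) + (z.2 - z₀.2)‖ := by rw [sub_add_sub_cancel]
        _ ≤ ‖w - z.2‖ + ‖z.2 - z₀.2‖ := norm_add_le _ _
        _ < ε₀ := by linarith
  intro s t hst
  have hr : 0 < max ‖s‖ ‖t‖ := by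
    by_contra hcon
    push Not at hcon
    have h1' : ‖s‖ ≤ 0 := (le_max_left _ _).trans hcon
    have h2' : ‖t‖ ≤ 0 := (le_max_right _ _).trans hcon
    exact hst (Prod.ext (norm_le_zero_iff.1 h1') (norm_le_zero_iff.1 h2'))
  set r : ℝ := max ‖s‖ ‖t‖ with hrd
  have hrC : (r : ℂ) ≠ 0 := Complex.ofReal_ne_zero.2 hr.ne'
  have hs' : s = r * (s / r) := by field_simp
  have ht' : t = r * (t / r) := by field_simp
  have hnr : ‖(r : ℂ)‖ = r := by
    rw [Complex.norm_real, Real.norm_eq_abs, abs_of_pos hr]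
  have hmx : max ‖s / (r : ℂ)‖ ‖t / (r : ℂ)‖ = 1 := by
    rw [norm_div, norm_div, hnr, max_div_div_right hr.le, ← hrd, div_self hr.ne']
  have key := hC ((r : ℂ) ^ (2 * l * m)) 1 _ _ (pow_ne_zero _ hrC) one_ne_zero
    (hunit (s / r) (t / r) hmx)
  rw [one_smul] at key
  convert key using 2
  rw [smul_add, smul_add, Finset.smul_sum, smul_smul, smul_smul]
  have e1 : t ^ (2 * l * m) = (r : ℂ) ^ (2 * l * m) * (t / r) ^ (2 * l * m) := by
    rw [← mul_pow, ← ht']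
  have e2 : s * t ^ (2 * l * m - 1) =
      (r : ℂ) ^ (2 * l * m) * (s / r * (t / r) ^ (2 * l * m - 1)) := by
    obtain ⟨n, hn⟩ : ∃ n, 2 * l * m = n + 1 := ⟨2 * l * m - 1, by omega⟩
    rw [hn, Nat.add_sub_cancel]
    conv_lhs => rw [hs', ht']
    rw [mul_pow, pow_succ]
    ring
  congr 1
  · rw [← e1, ← e2]
  · refine Finset.sum_congr rfl fun j hj => ?_
    rw [Finset.mem_Icc] at hj
    rw [smul_smul]
    congr 1
    obtain ⟨n, hn⟩ : ∃ n, 2 * l * m = n + j := ⟨2 * l * m - j, by omega⟩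
    rw [hn, Nat.add_sub_cancel]
    conv_lhs => rw [hs', ht']
    rw [mul_pow, mul_pow, pow_add]
    ring

end UNI_

open UNI_ in
theorem p_UNI (h_CPT : T_CPT) : T_UNI := by
  intro a b O K hO hC hK hcpt
  have key : ∃ (m : ℕ) (ε C : ℝ), 1 ≤ m ∧ 0 < ε ∧ ∀ l : ℕ, 1 ≤ l → ∀ z ∈ K,
      BD O (2 * l * m) ε C z.1 z.2 := by
    refine IsCompact.induction_on (p := fun S : Set (Vec a × Vec b) =>
      ∃ (m : ℕ) (ε C : ℝ), 1 ≤ m ∧ 0 < ε ∧ ∀ l : ℕ, 1 ≤ l → ∀ z ∈ S,
      BD O (2 * l * m) ε C z.1 z.2) hcpt ?_ ?_ ?_ ?_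
    · exact ⟨1, 1, 0, le_rfl, one_pos, fun l _ z hz => absurd hz (Set.notMem_empty z)⟩
    · rintro S T hST ⟨m, ε, C, hm, hε, h⟩
      exact ⟨m, ε, C, hm, hε, fun l hl z hz => h l hl z (hST hz)⟩
    · rintro S T ⟨m, ε, C, hm, hε, h⟩ ⟨m', ε', C', hm', hε', h'⟩
      refine ⟨m * m', min ε ε', max C C', Nat.mul_pos hm hm', lt_min hε hε', ?_⟩
      rintro l hl z (hz | hz)
      · have := h (l * m') (Nat.mul_pos hl hm') z hz
        rw [show 2 * (l * m') * m = 2 * l * (m * m') by ring] at this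
        exact BD_mono this (min_le_left _ _) (le_max_left _ _)
      · have := h' (l * m) (Nat.mul_pos hl hm) z hz
        rw [show 2 * (l * m) * m' = 2 * l * (m * m') by ring] at this
        exact BD_mono this (min_le_right _ _) (le_max_right _ _)
    · intro z hz
      obtain ⟨m, ε, C, hm, hε, h⟩ := loc h_CPT hO hC (hK hz)
      exact ⟨Metric.ball z ε, mem_nhdsWithin_of_mem_nhds (Metric.ball_mem_nhds z hε), m, ε, C,
        hm, hε, h⟩
  obtain ⟨m, ε, C, hm, hε, h⟩ := key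
  refine ⟨2 * 1 * m, ε, C, by omega, hε, fun z hz => h 1 le_rfl z hz⟩

end Pool.Agent.ARC
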