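import Pool.Agent.ARC.P_APX
import Pool.Agent.ARC.P_ASM
import Pool.Agent.ARC.P_BDS
import Pool.Agent.ARC.P_BUO
import Pool.Agent.ARC.P_CAT
import Pool.Agent.ARC.P_CHA
import Pool.Agent.ARC.P_CHB
import Pool.Agent.ARC.P_CHE
import Pool.Agent.ARC.P_CHN
import Pool.Agent.ARC.P_CHT
import Pool.Agent.ARC.P_CLO
import Pool.Agent.ARC.P_CNC
import Pool.Agent.ARC.P_COM
import Pool.Agent.ARC.P_CON
import Pool.Agent.ARC.P_COR
import Pool.Agent.ARC.P_CPT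
import Pool.Agent.ARC.P_CUC
import Pool.Agent.ARC.P_CUR
import Pool.Agent.ARC.P_DES
import Pool.Agent.ARC.P_DIV
import Pool.Agent.ARC.P_EMB
import Pool.Agent.ARC.P_EXT
import Pool.Agent.ARC.P_FIL
import Pool.Agent.ARC.P_FIN
import Pool.Agent.ARC.P_FRM
import Pool.Agent.ARC.P_FST
import Pool.Agent.ARC.P_GA1
import Pool.Agent.ARC.P_GAG
import Pool.Agent.ARC.P_GCD
import Pool.Agent.ARC.P_GEE
import Pool.Agent.ARC.P_GEN
import Pool.Agent.ARC.P_GLU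
import Pool.Agent.ARC.P_GRD
import Pool.Agent.ARC.P_GSB
import Pool.Agent.ARC.P_GST
import Pool.Agent.ARC.P_HCC
import Pool.Agent.ARC.P_HP1
import Pool.Agent.ARC.P_HPA
import Pool.Agent.ARC.P_HPR
import Pool.Agent.ARC.P_HPT
import Pool.Agent.ARC.P_INF
import Pool.Agent.ARC.P_ISB
import Pool.Agent.ARC.P_JCU
import Pool.Agent.ARC.P_JRC
import Pool.Agent.ARC.P_JTR
import Pool.Agent.ARC.P_LFA
import Pool.Agent.ARC.P_LFT
import Pool.Agent.ARC.P_LIF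
import Pool.Agent.ARC.P_LIN
import Pool.Agent.ARC.P_LIT
import Pool.Agent.ARC.P_LOG
import Pool.Agent.ARC.P_MAI
import Pool.Agent.ARC.P_MET
import Pool.Agent.ARC.P_MIX
import Pool.Agent.ARC.P_MTX
import Pool.Agent.ARC.P_MVP
import Pool.Agent.ARC.P_NOD
import Pool.Agent.ARC.P_NRM
import Pool.Agent.ARC.P_NZD
import Pool.Agent.ARC.P_OPS
import Pool.Agent.ARC.P_PAS
import Pool.Agent.ARC.P_PER
import Pool.Agent.ARC.P_PGR
import Pool.Agent.ARC.P_PRJ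
import Pool.Agent.ARC.P_PSR
import Pool.Agent.ARC.P_RCO
import Pool.Agent.ARC.P_RIG
import Pool.Agent.ARC.P_ROO
import Pool.Agent.ARC.P_RRC
import Pool.Agent.ARC.P_RTE
import Pool.Agent.ARC.P_SCQ
import Pool.Agent.ARC.P_SEG
import Pool.Agent.ARC.P_SHJ
import Pool.Agent.ARC.P_SHN
import Pool.Agent.ARC.P_SHO
import Pool.Agent.ARC.P_SHP
import Pool.Agent.ARC.P_SLI
import Pool.Agent.ARC.P_SLJ
import Pool.Agent.ARC.P_SMO
import Pool.Agent.ARC.P_SUM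
import Pool.Agent.ARC.P_SWN
import Pool.Agent.ARC.P_SWP
import Pool.Agent.ARC.P_SYM
import Pool.Agent.ARC.P_T12
import Pool.Agent.ARC.P_TB2
import Pool.Agent.ARC.P_TOR
import Pool.Agent.ARC.P_TUB
import Pool.Agent.ARC.P_TY1
import Pool.Agent.ARC.P_TYE
import Pool.Agent.ARC.P_TYP
import Pool.Agent.ARC.P_UNI

set_option autoImplicit false

/-!
# ARC: assembly of the targets
-/

namespace Pool.Agent.ARC

theorem a_CAT : T_CAT := p_CAT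

theorem a_ISB : T_ISB := p_ISB

theorem a_CHT : T_CHT := p_CHT a_ISB

theorem a_RCO : T_RCO := p_RCO a_CAT a_CHT

theorem a_PRJ : T_PRJ := p_PRJ a_ISB

theorem a_TB2 : T_TB2 := p_TB2

theorem a_FRM : T_FRM := p_FRM

theorem a_PGR : T_PGR := p_PGR

theorem a_GA1 : T_GA1 := p_GA1 a_PGR a_ISB

theorem a_DIV : T_DIV := p_DIV

theorem a_GCD : T_GCD := p_GCD a_DIV a_FRM

theorem a_GAG : T_GAG := p_GAG a_GA1 a_GCD a_FRM a_ISB

theorem a_CUR : T_CUR := p_CUR a_ISB a_FRM a_GAG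

theorem a_NZD : T_NZD := p_NZD

theorem a_CON : T_CON := p_CON a_CUR a_NZD

theorem a_TYP : T_TYP := p_TYP a_RCO a_CHT a_PRJ a_TB2 a_CON a_ISB

theorem a_OPS : T_OPS := p_OPS a_RCO

theorem a_RRC : T_RRC := p_RRC

theorem a_RIG : T_RIG := p_RIG a_RRC

theorem a_SWP : T_SWP := p_SWP

theorem a_RGS : T_RGS := p_RGS a_TYP a_OPS a_RIG a_SWP

theorem a_MVP : T_MVP := p_MVP

theorem a_LIN : T_LIN := p_LIN a_MVP a_FRM

theorem a_NRM : T_NRM := p_NRM a_LIN a_FRM a_ISB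

theorem a_SYM : T_SYM := p_SYM

theorem a_JCU : T_JCU := p_JCU a_CUR a_NRM a_SYM

theorem a_CNC : T_CNC := p_CNC a_ISB

theorem a_GLU : T_GLU := p_GLU

theorem a_TUB : T_TUB := p_TUB a_FRM a_GLU

theorem a_JTR : T_JTR := p_JTR a_ISB a_CNC a_FRM a_TUB

theorem a_CHN : T_CHN := p_CHN a_JCU a_JTR a_SYM

theorem a_CPT : T_CPT := p_CPT a_FRM

theorem a_PER : T_PER := p_PER a_ISB a_CNC a_FRM a_CPT

theorem a_T12 : T_T12 := p_T12 a_CHN a_JTR a_SYM a_PER a_RCO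

theorem a_FST : T_FST := p_FST

theorem a_SEG : T_SEG := p_SEG a_ISB

theorem a_MIX : T_MIX := p_MIX a_CAT a_CHT

theorem a_COM : T_COM := p_COM

theorem a_MET : T_MET := p_MET a_PRJ

theorem a_CUC : T_CUC := p_CUC a_CAT a_ISB a_FRM

theorem a_JRC : T_JRC := p_JRC

theorem a_BUO : T_BUO := p_BUO a_CPT a_FRM

theorem a_SHO : T_SHO := p_SHO a_BUO a_CNC a_ISB

theorem a_SLI : T_SLI := p_SLI a_CNC a_ISB

theorem a_SLJ : T_SLJ := p_SLJ a_ISB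

theorem a_SHJ : T_SHJ := p_SHJ

theorem a_SHP : T_SHP := p_SHP a_CHN a_SLI a_SLJ a_SHJ a_SYM

theorem a_SHN : T_SHN := p_SHN a_SHJ a_PER a_JTR a_SYM

theorem a_UNI : T_UNI := p_UNI a_CPT

theorem a_BDS : T_BDS := p_BDS

theorem a_ROO : T_ROO := p_ROO

theorem a_SUM : T_SUM := p_SUM

theorem a_COR : T_COR := p_COR a_ROO a_SUM

theorem a_INF : T_INF := p_INF a_COR a_FRM

theorem a_GST : T_GST := p_GST a_COR

theorem a_APX : T_APX := p_APX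

theorem a_CHA : T_CHA := p_CHA a_BUO a_UNI a_BDS a_GST a_APX

theorem a_LFT : T_LFT := p_LFT a_PRJ a_ISB

theorem a_LOG : T_LOG := p_LOG

theorem a_HPR : T_HPR := p_HPR a_ISB a_CNC a_FRM a_CPT a_CHT a_SHO a_SHN a_SYM a_JTR a_UNI a_BDS
  a_INF a_CHA a_LFT a_LOG

theorem a_FIL : T_FIL := p_FIL

theorem a_GRD : T_GRD := p_GRD

theorem a_LIF : T_LIF := p_LIF a_FIL a_GRD

theorem a_SCQ : T_SCQ := p_SCQ

theorem a_TY1 : T_TY1 := p_TY1 a_ISB a_CNC a_FST a_SEG a_RCO a_MIX a_COM a_MET a_CUC a_NRM a_CHN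
  a_JRC a_SHO a_SHP a_HPR a_LIF a_SCQ

theorem a_GEN : T_GEN := p_GEN a_RGS a_T12 a_TY1 a_SWP a_JRC

theorem a_NOD : T_NOD := p_NOD

theorem a_LIT : T_LIT := p_LIT a_FIL a_GRD

theorem a_PAS : T_PAS := p_PAS a_SHN a_JTR a_SYM

theorem a_RTE : T_RTE := p_RTE a_ISB a_FRM

theorem a_CHE : T_CHE := p_CHE

theorem a_HCC : T_HCC := p_HCC a_CAT

theorem a_MTX : T_MTX := p_MTX a_PRJ a_CNC a_ISB a_SHO

theorem a_DES : T_DES := p_DES

theorem a_EXT : T_EXT := p_EXT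

theorem a_LFA : T_LFA := p_LFA a_LFT a_ISB a_PRJ a_EXT

theorem a_CLO : T_CLO := p_CLO a_LFA a_LOG a_ISB a_EXT

theorem a_GSB : T_GSB := p_GSB a_COR

theorem a_CHB : T_CHB := p_CHB a_BUO a_UNI a_BDS a_GSB a_APX

theorem a_PSR : T_PSR := p_PSR

theorem a_TOR : T_TOR := p_TOR a_PSR a_ROO a_SUM

theorem a_HP1 : T_HP1 := p_HP1 a_UNI a_BDS a_EXT a_CHB a_TOR

theorem a_ASM : T_ASM := p_ASM a_ISB

theorem a_HPT : T_HPT := p_HPT a_MTX a_DES a_CLO a_HP1 a_ASM a_SHN a_RTE a_CHE a_CNC a_ISB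

theorem a_HPA : T_HPA := p_HPA a_HPT a_CHE

theorem a_TYE : T_TYE := p_TYE a_FST a_SEG a_RCO a_MIX a_COM a_MET a_SHO a_SHP a_SCQ a_NOD a_LIT
  a_PAS a_RTE a_CHE a_HCC a_HPA

theorem a_SWN : T_SWN := p_SWN a_SWP

theorem a_GEE : T_GEE := p_GEE a_RGS a_T12 a_TYE a_SWP a_SWN a_RTE

theorem a_EMB : T_EMB := p_EMB a_RRC

theorem a_FIN : T_FIN := p_FIN a_EMB a_JTR a_SYM a_JRC a_CHN a_JCU

theorem a_MAI : T_MAI := p_MAI a_TYP a_T12 a_TY1 a_SWP a_JRC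

theorem a_SMO : T_SMO := p_SMO a_MAI a_OPS a_RIG

end Pool.Agent.ARC
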