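import Mathlib

set_option autoImplicit false

/-!
# ARC: approximate rational connectedness of fibrations, definitions

Project ARC (MP_1c7abc_ag, Q1, rational version). Paper proof: `Pool/Agent/ARC/Blueprint.md`.
-/

noncomputable section

namespace Pool.Agent.ARC

/-- Homogeneous coordinate vectors of `ℙ^a`. -/
abbrev Vec (a : ℕ) : Type := Fin (a + 1) → ℂ

/-- The product `ℙ^a × ℙ^b` of two complex projective spaces. -/
abbrev PP (a b : ℕ) : Type := Projectivization ℂ (Vec a) × Projectivization ℂ (Vec b)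

/-- `v` is a vector of homogeneous coordinates of the point `p`. -/
def Is {a : ℕ} (v : Vec a) (p : Projectivization ℂ (Vec a)) : Prop :=
  ∃ h : v ≠ 0, Projectivization.mk ℂ v h = p

/-- The pairs of vectors which represent points of `U`. -/
def cone {a b : ℕ} (U : Set (PP a b)) : Set (Vec a × Vec b) :=
  {z | ∃ x ∈ U, Is z.1 x.1 ∧ Is z.2 x.2}

/-- `U` is open in the Euclidean topology of `ℙ^a × ℙ^b` (the quotient topology). -/
def IsOpenP {a b : ℕ} (U : Set (PP a b)) : Prop := IsOpen (cone U)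

theorem is_unique {a : ℕ} {v : Vec a} {p q : Projectivization ℂ (Vec a)} (hp : Is v p)
    (hq : Is v q) : p = q := by
  obtain ⟨h, rfl⟩ := hp
  obtain ⟨h', rfl⟩ := hq
  rfl

theorem cone_univ {a b : ℕ} : cone (Set.univ : Set (PP a b)) = {z | z.1 ≠ 0 ∧ z.2 ≠ 0} := by
  ext z
  constructor
  · rintro ⟨x, -, ⟨h1, -⟩, ⟨h2, -⟩⟩
    exact ⟨h1, h2⟩
  · rintro ⟨h1, h2⟩
    exact ⟨(Projectivization.mk ℂ z.1 h1, Projectivization.mk ℂ z.2 h2), trivial,
      ⟨h1, rfl⟩, ⟨h2, rfl⟩⟩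

theorem cone_inter {a b : ℕ} (U V : Set (PP a b)) : cone (U ∩ V) = cone U ∩ cone V := by
  ext z
  constructor
  · rintro ⟨x, hx, h1, h2⟩
    exact ⟨⟨x, hx.1, h1, h2⟩, ⟨x, hx.2, h1, h2⟩⟩
  · rintro ⟨⟨x, hx, h1, h2⟩, ⟨y, hy, h3, h4⟩⟩
    have : x = y := Prod.ext (is_unique h1 h3) (is_unique h2 h4)
    subst this
    exact ⟨x, ⟨hx, hy⟩, h1, h2⟩

theorem cone_sUnion {a b : ℕ} (S : Set (Set (PP a b))) :
    cone (⋃₀ S) = ⋃ U ∈ S, cone U := by
  ext z
  simp only [Set.mem_iUnion]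
  constructor
  · rintro ⟨x, ⟨U, hU, hx⟩, h1, h2⟩
    exact ⟨U, hU, x, hx, h1, h2⟩
  · rintro ⟨U, hU, x, hx, h1, h2⟩
    exact ⟨x, ⟨U, hU, hx⟩, h1, h2⟩

/-- The Euclidean topology of `ℙ^a × ℙ^b`: a set is open if `IsOpenP` holds. -/
instance topPP (a b : ℕ) : TopologicalSpace (PP a b) where
  IsOpen U := IsOpenP U
  isOpen_univ := by
    show IsOpen (cone (Set.univ : Set (PP a b)))
    rw [cone_univ]
    exact (isOpen_ne_fun continuous_fst continuous_const).inter
      (isOpen_ne_fun continuous_snd continuous_const)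
  isOpen_inter U V hU hV := by
    show IsOpen (cone (U ∩ V))
    rw [cone_inter]
    exact IsOpen.inter hU hV
  isOpen_sUnion S hS := by
    show IsOpen (cone (⋃₀ S))
    rw [cone_sUnion]
    exact isOpen_biUnion hS

/-- `f` is a holomorphic map on `A ⊆ ℙ^a × ℙ^b` with values in `ℙ^c × ℙ^d`: near every pair of
vectors representing a point of `A` it is given, in homogeneous coordinates, by two vectors of
holomorphic functions of the homogeneous coordinates. (For projective varieties the holomorphic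
maps are the regular maps.) -/
def HolOn {a b c d : ℕ} (A : Set (PP a b)) (f : PP a b → PP c d) : Prop :=
  ∀ x ∈ A, ∀ v₀ w₀, Is v₀ x.1 → Is w₀ x.2 →
    ∃ (O : Set (Vec a × Vec b)) (F : Vec a × Vec b → Vec c) (G : Vec a × Vec b → Vec d),
      IsOpen O ∧ (v₀, w₀) ∈ O ∧ DifferentiableOn ℂ F O ∧ DifferentiableOn ℂ G O ∧
      ∀ y ∈ A, ∀ v w, (v, w) ∈ O → Is v y.1 → Is w y.2 →
        Is (F (v, w)) (f y).1 ∧ Is (G (v, w)) (f y).2

/-- `j` embeds `X` in `ℙ^c × ℙ^d`: it is holomorphic with a holomorphic inverse on the image. -/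
def IsEmb {a b c d : ℕ} (X : Set (PP a b)) (j : PP a b → PP c d) : Prop :=
  HolOn X j ∧ ∃ g : PP c d → PP a b, HolOn (j '' X) g ∧ ∀ x ∈ X, g (j x) = x

/-- The binary form `∑ c_i s^i t^(p-i)` of degree `p`. -/
def form (p : ℕ) (c : ℕ → ℂ) (s t : ℂ) : ℂ :=
  ∑ i ∈ Finset.range (p + 1), c i * s ^ i * t ^ (p - i)

/-- A vector of binary forms of degree `p`. -/
def vform {a : ℕ} (p : ℕ) (A : Fin (a + 1) → ℕ → ℂ) (s t : ℂ) : Vec a := fun i => form p (A i) s t

/-- The forms have no common zero on `ℙ^1`. -/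
def NoZero {a : ℕ} (p : ℕ) (A : Fin (a + 1) → ℕ → ℂ) : Prop :=
  ∀ s t : ℂ, (s, t) ≠ (0, 0) → vform p A s t ≠ 0

/-- The image of the morphism from `ℙ^1` to `ℙ^a × ℙ^b` given by the forms `A` and `B`. -/
def curve {a b : ℕ} (p q : ℕ) (A : Fin (a + 1) → ℕ → ℂ) (B : Fin (b + 1) → ℕ → ℂ) :
    Set (PP a b) :=
  {x | ∃ s t : ℂ, (s, t) ≠ (0, 0) ∧ Is (vform p A s t) x.1 ∧ Is (vform q B s t) x.2}

/-- Rational curves in `ℙ^a × ℙ^b`: images of nonconstant morphisms from `ℙ^1`. -/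
def RatCurve {a b : ℕ} (C : Set (PP a b)) : Prop :=
  ∃ (p q : ℕ) (A : Fin (a + 1) → ℕ → ℂ) (B : Fin (b + 1) → ℕ → ℂ),
    NoZero p A ∧ NoZero q B ∧ C = curve p q A B ∧ C.Nontrivial

/-- Approximate rational connectedness in the naive sense: every Euclidean neighbourhood of `X`
contains a rational curve through any two given points of `X`. -/
def Naive {a b : ℕ} (X : Set (PP a b)) : Prop :=
  ∀ U : Set (PP a b), IsOpenP U → X ⊆ U → ∀ x ∈ X, ∀ y ∈ X, x ≠ y →
    ∃ C, RatCurve C ∧ C ⊆ U ∧ x ∈ C ∧ y ∈ C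

/-- Approximate rational connectedness in the strong sense: the naive property for every
embedding in a product of two projective spaces. -/
def Strong {a b : ℕ} (X : Set (PP a b)) : Prop :=
  ∀ (c d : ℕ) (j : PP a b → PP c d), IsEmb X j → Naive (j '' X)

/-- `x` and `y` are joined by a chain of rational curves inside `F`. -/
def ChainIn {a b : ℕ} (F : Set (PP a b)) (x y : PP a b) : Prop :=
  Relation.ReflTransGen (fun u v => ∃ C, RatCurve C ∧ C ⊆ F ∧ u ∈ C ∧ v ∈ C) x y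

end Pool.Agent.ARC
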