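import Pool.Agent.ARC.Targets2

set_option autoImplicit false

noncomputable section

open Filter Topology

namespace Pool.Agent.ARC

namespace APX_

/-- the double sum -/
def ds (c : ℕ → ℕ → ℂ) (M : ℕ) (z : ℂ) : ℂ :=
  ∑ i ∈ Finset.range M, ∑ j ∈ Finset.range M, (z ^ i * (starRingEnd ℂ) z ^ j) * c i j

/-- functions given by double sums -/
def Q {s : Set ℂ} (g : C(s, ℂ)) : Prop :=
  ∃ (J : ℕ) (c : ℕ → ℕ → ℂ), ∀ M, J ≤ M → ∀ z : s, g z = ds c M z

theorem Q_add {s : Set ℂ} {g h : C(s, ℂ)} (hg : Q g) (hh : Q h) : Q (g + h) := by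
  obtain ⟨J, c, hc⟩ := hg
  obtain ⟨J', c', hc'⟩ := hh
  refine ⟨max J J', fun i j => c i j + c' i j, fun M hM z => ?_⟩
  rw [ContinuousMap.add_apply, hc M (le_trans (le_max_left _ _) hM),
    hc' M (le_trans (le_max_right _ _) hM)]
  simp only [ds, mul_add, Finset.sum_add_distrib]

theorem Q_smul {s : Set ℂ} {g : C(s, ℂ)} (a : ℂ) (hg : Q g) : Q (a • g) := by
  obtain ⟨J, c, hc⟩ := hg
  refine ⟨J, fun i j => a * c i j, fun M hM z => ?_⟩
  rw [ContinuousMap.smul_apply, hc M hM, smul_eq_mul]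
  simp only [ds, Finset.mul_sum]
  refine Finset.sum_congr rfl fun i _ => Finset.sum_congr rfl fun j _ => ?_
  ring

theorem Q_zero {s : Set ℂ} : Q (0 : C(s, ℂ)) :=
  ⟨0, fun _ _ => 0, fun M _ z => by simp [ds]⟩

theorem Q_mon {s : Set ℂ} (m n : ℕ) :
    Q ((ContinuousMap.restrict s (.id ℂ)) ^ m *
      (star (ContinuousMap.restrict s (.id ℂ))) ^ n) := by
  refine ⟨max m n + 1, fun i j => if i = m ∧ j = n then 1 else 0, fun M hM z => ?_⟩
  have hm : m ∈ Finset.range M := Finset.mem_range.2 (by omega)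
  have hn : n ∈ Finset.range M := Finset.mem_range.2 (by omega)
  unfold ds
  rw [Finset.sum_eq_single_of_mem m hm, Finset.sum_eq_single_of_mem n hn]
  · simp
  · intro j _ hj
    simp [hj]
  · intro i _ hi
    refine Finset.sum_eq_zero fun j _ => ?_
    simp [hi]

theorem scalar (R : ℝ) (f : ℂ → ℂ) (hf : Continuous f) (ε : ℝ) (hε : 0 < ε) :
    ∃ (J : ℕ) (c : ℕ → ℕ → ℂ), ∀ M, J ≤ M → ∀ z : ℂ, ‖z‖ ≤ R → ‖f z - ds c M z‖ ≤ ε := by
  set s : Set ℂ := Metric.closedBall 0 R with hs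
  have : CompactSpace s := isCompact_iff_compactSpace.1 (isCompact_closedBall _ _)
  set X : C(s, ℂ) := ContinuousMap.restrict s (.id ℂ) with hX
  set F : C(s, ℂ) := ContinuousMap.restrict s ⟨f, hf⟩ with hF
  have h1 : F ∈ StarAlgebra.elemental ℂ X := by
    rw [hX, ContinuousMap.elemental_id_eq_top]
    exact StarSubalgebra.mem_top
  have h2 : F ∈ closure ((StarAlgebra.adjoin ℂ ({X} : Set C(s, ℂ))) : Set C(s, ℂ)) := h1
  obtain ⟨g, hg, hd⟩ := Metric.mem_closure_iff.1 h2 ε hε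
  have hg2 : g ∈ (StarAlgebra.adjoin ℂ ({X} : Set C(s, ℂ))).toSubalgebra := hg
  rw [StarAlgebra.adjoin_toSubalgebra] at hg2
  have hg3 : g ∈ Subalgebra.toSubmodule (Algebra.adjoin ℂ
      (({X} : Set C(s, ℂ)) ∪ star ({X} : Set C(s, ℂ)))) := hg2
  rw [Algebra.adjoin_eq_span] at hg3
  have hQ : Q g := by
    refine Submodule.span_induction (p := fun g _ => Q g) ?_ Q_zero
      (fun _ _ _ _ h h' => Q_add h h') (fun a _ _ h => Q_smul a h) hg3
    intro x hx
    rw [Set.star_singleton, Set.singleton_union] at hx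
    have hx2 : x ∈ Submonoid.closure ({X, star X} : Set C(s, ℂ)) := hx
    rw [Submonoid.mem_closure_pair] at hx2
    obtain ⟨m, n, rfl⟩ := hx2
    exact Q_mon m n
  obtain ⟨J, c, hc⟩ := hQ
  refine ⟨J, c, fun M hM z hz => ?_⟩
  have hz' : z ∈ s := by rw [hs, Metric.mem_closedBall, dist_zero_right]; exact hz
  have h3 : ‖F - g‖ ≤ ε := by
    rw [← dist_eq_norm]
    exact hd.le
  have h4 := (ContinuousMap.norm_coe_le_norm (F - g) ⟨z, hz'⟩).trans h3
  rw [ContinuousMap.sub_apply, hc M hM] at h4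
  exact h4

end APX_

open APX_ in
theorem p_APX : T_APX := by
  intro a R σ hσ ε hε
  have h : ∀ k : Fin (a + 1), ∃ (J : ℕ) (c : ℕ → ℕ → ℂ), ∀ M, J ≤ M → ∀ z : ℂ, ‖z‖ ≤ R →
      ‖σ z k - ds c M z‖ ≤ ε := fun k =>
    scalar R (fun z => σ z k) ((continuous_apply k).comp hσ) ε hε
  choose J c hc using h
  set M := Finset.univ.sup J with hM
  refine ⟨M, fun i j k => c k i j, fun z hz => ?_⟩
  rw [pi_norm_le_iff_of_nonneg hε.le]
  intro k
  have h1 := hc k M (Finset.le_sup (Finset.mem_univ k)) z hz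
  have e : (σ z - ∑ i ∈ Finset.range M, ∑ j ∈ Finset.range M,
      (z ^ i * (starRingEnd ℂ) z ^ j) • (fun k => c k i j : Vec a)) k = σ z k - ds (c k) M z := by
    simp [ds, Finset.sum_apply]
  rw [e]
  exact h1

end Pool.Agent.ARC
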