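import Pool.Agent.ARC.Targets

/-!
# ARC: compactness of the projective line (CPT)
-/

set_option autoImplicit false

noncomputable section

namespace Pool.Agent.ARC

theorem CPT_hom (h : T_FRM) {a : ℕ} (p : ℕ) (A : Fin (a + 1) → ℕ → ℂ) (r s t : ℂ) :
    vform p A (r * s) (r * t) = r ^ p • vform p A s t := by
  funext i
  exact h.1 p (A i) r s t

theorem CPT_cont (h : T_FRM) {a : ℕ} (p : ℕ) (A : Fin (a + 1) → ℕ → ℂ) :
    Continuous fun z : ℂ × ℂ => vform p A z.1 z.2 :=
  continuous_pi fun i => h.2.1 p (A i)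

theorem p_CPT (h_FRM : T_FRM) : T_CPT := by
  intro a b p q O A B hO
  refine ⟨?_, ?_⟩
  · intro hopen hmem
    have hK : IsCompact (Metric.sphere (0 : ℂ × ℂ) 1) := isCompact_sphere 0 1
    have hF : Continuous fun z : ℂ × ℂ => (vform p A z.1 z.2, vform q B z.1 z.2) :=
      (CPT_cont h_FRM p A).prodMk (CPT_cont h_FRM q B)
    have hsub : (fun z : ℂ × ℂ => (vform p A z.1 z.2, vform q B z.1 z.2)) ''
        Metric.sphere (0 : ℂ × ℂ) 1 ⊆ O := by
      rintro _ ⟨z, hz, rfl⟩
      apply hmem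
      intro h0
      rw [mem_sphere_zero_iff_norm] at hz
      have h1 : z = 0 := h0
      rw [h1, norm_zero] at hz
      exact zero_ne_one hz
    obtain ⟨ε, hε, hth⟩ := (hK.image hF).exists_thickening_subset_open hopen hsub
    refine ⟨ε, hε, ?_⟩
    intro s t hst v w hv hw
    apply hth
    rw [Metric.mem_thickening_iff]
    refine ⟨(vform p A s t, vform q B s t), ⟨(s, t), ?_, rfl⟩, ?_⟩
    · rw [mem_sphere_zero_iff_norm]
      exact hst
    · rw [Prod.dist_eq, dist_eq_norm, dist_eq_norm]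
      exact max_lt hv hw
  · intro hmem s t hst
    set r : ℝ := max ‖s‖ ‖t‖ with hr
    have hr0 : 0 < r := by
      rw [hr, lt_max_iff]
      by_contra hcon
      push Not at hcon
      have h1 : s = 0 := norm_le_zero_iff.1 hcon.1
      have h2 : t = 0 := norm_le_zero_iff.1 hcon.2
      exact hst (by rw [h1, h2])
    have hrC : (r : ℂ) ≠ 0 := by exact_mod_cast hr0.ne'
    have hn : max ‖s / r‖ ‖t / r‖ = 1 := by
      rw [norm_div, norm_div, Complex.norm_real, Real.norm_of_nonneg hr0.le,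
        max_div_div_right hr0.le, ← hr, div_self hr0.ne']
    have h1 := hmem (s / r) (t / r) hn
    have h2 := hO ((r : ℂ) ^ p) ((r : ℂ) ^ q) _ _ (pow_ne_zero p hrC) (pow_ne_zero q hrC) h1
    rw [← CPT_hom h_FRM p A, ← CPT_hom h_FRM q B, mul_div_cancel₀ s hrC,
      mul_div_cancel₀ t hrC] at h2
    exact h2

end Pool.Agent.ARC
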