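import Pool.Agent.ARC.Targets

set_option autoImplicit false

namespace Pool.Agent.ARC

theorem p_GLU : T_GLU := by
  intro d e r c c' h0 s t
  have e1 : d + e + 1 = (d + 1) + e := by omega
  have h1 : form (d + e) (glue d r c c') s t =
      t ^ e * form d c s t + ∑ k ∈ Finset.range e, c' (k + 1) * (r * s) ^ (k + 1) *
        t ^ (e - (k + 1)) * s ^ d := by
    unfold form
    rw [e1, Finset.sum_range_add, Finset.mul_sum]
    congr 1
    · refine Finset.sum_congr rfl fun i hi => ?_
      have hi' : i ≤ d := by
        have := Finset.mem_range.1 hi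
        omega
      unfold glue
      rw [if_pos hi']
      have e2 : d + e - i = (d - i) + e := by omega
      rw [e2, pow_add]
      ring
    · refine Finset.sum_congr rfl fun k hk => ?_
      have hk' := Finset.mem_range.1 hk
      unfold glue
      rw [if_neg (by omega)]
      have e2 : d + 1 + k - d = k + 1 := by omega
      have e3 : d + e - (d + 1 + k) = e - (k + 1) := by omega
      have e4 : d + 1 + k = d + (k + 1) := by omega
      rw [e2, e3, e4, pow_add s, mul_pow]
      ring
  have h2 : form e c' (r * s) t = c' 0 * t ^ e + ∑ k ∈ Finset.range e,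
      c' (k + 1) * (r * s) ^ (k + 1) * t ^ (e - (k + 1)) := by
    unfold form
    rw [Finset.sum_range_succ']
    simp only [pow_zero, mul_one, Nat.sub_zero]
    ring
  rw [h1, h2, ← Finset.sum_mul, h0]
  ring

end Pool.Agent.ARC
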