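import Pool.Agent.ARC.Targets

/-!
# ARC: target PRJ, projection matrices and the Hausdorff property
-/

set_option autoImplicit false

open Filter Topology

namespace Pool.Agent.ARC

namespace PRJ_

/-- The square of the norm. -/
noncomputable def nn {a : ℕ} (v : Vec a) : ℂ := ∑ l, v l * (starRingEnd ℂ) (v l)

theorem nn_ne {a : ℕ} {v : Vec a} (hv : v ≠ 0) : nn v ≠ 0 := by
  intro h
  have h1 : ∑ l, Complex.normSq (v l) = 0 := by
    have h2 : nn v = ((∑ l, Complex.normSq (v l) : ℝ) : ℂ) := by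
      unfold nn
      push_cast
      exact Finset.sum_congr rfl fun l _ => Complex.mul_conj _
    rw [h2] at h
    exact_mod_cast h
  rw [Finset.sum_eq_zero_iff_of_nonneg fun l _ => Complex.normSq_nonneg _] at h1
  refine hv (funext fun l => ?_)
  exact Complex.normSq_eq_zero.1 (h1 l (Finset.mem_univ l))

theorem is_rep {a : ℕ} (p : Projectivization ℂ (Vec a)) : Is p.rep p :=
  ⟨p.rep_nonzero, p.mk_rep⟩

/-- The formula. -/
noncomputable def fm {a : ℕ} (v : Vec a) (i k : Fin (a + 1)) : ℂ :=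
  v i * (starRingEnd ℂ) (v k) / nn v

theorem one (h_ISB : T_ISB) {a : ℕ} (p : Projectivization ℂ (Vec a)) (v : Vec a) (hv : Is v p) :
    prj p = fm v := by
  obtain ⟨c, hc, rfl⟩ := (h_ISB a).2.2.2.2.1 p.rep v p (is_rep p) hv
  funext i k
  have hcc : (starRingEnd ℂ) c ≠ 0 := (map_ne_zero _).2 hc
  have h1 : nn (c • p.rep) = c * (starRingEnd ℂ) c * nn p.rep := by
    unfold nn
    rw [Finset.mul_sum]
    refine Finset.sum_congr rfl fun l _ => ?_
    rw [Pi.smul_apply, smul_eq_mul, map_mul]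
    ring
  have h2 : nn p.rep ≠ 0 := nn_ne p.rep_nonzero
  unfold fm
  rw [h1, Pi.smul_apply, Pi.smul_apply, smul_eq_mul, smul_eq_mul, map_mul]
  change p.rep i * (starRingEnd ℂ) (p.rep k) / nn p.rep = _
  field_simp

theorem inj (h_ISB : T_ISB) {a : ℕ} (p q : Projectivization ℂ (Vec a)) (h : prj p = prj q) :
    p = q := by
  have hv := is_rep p
  have hw := is_rep q
  rw [one h_ISB p _ hv, one h_ISB q _ hw] at h
  obtain ⟨k, hk⟩ : ∃ k, p.rep k ≠ 0 := by
    by_contra hcon
    push Not at hcon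
    exact p.rep_nonzero (funext hcon)
  have hα : (starRingEnd ℂ) (p.rep k) / nn p.rep ≠ 0 :=
    div_ne_zero ((map_ne_zero _).2 hk) (nn_ne p.rep_nonzero)
  have key : ∀ i, (starRingEnd ℂ) (p.rep k) / nn p.rep * p.rep i =
      (starRingEnd ℂ) (q.rep k) / nn q.rep * q.rep i := by
    intro i
    have h1 := congrFun (congrFun h i) k
    unfold fm at h1
    calc (starRingEnd ℂ) (p.rep k) / nn p.rep * p.rep i =
          p.rep i * (starRingEnd ℂ) (p.rep k) / nn p.rep := by ring
      _ = q.rep i * (starRingEnd ℂ) (q.rep k) / nn q.rep := h1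
      _ = _ := by ring
  have h2 : Is q.rep p := by
    refine (h_ISB a).2.2.2.2.2 p.rep q.rep p hv q.rep_nonzero fun i j => ?_
    refine mul_left_cancel₀ hα ?_
    calc (starRingEnd ℂ) (p.rep k) / nn p.rep * (p.rep i * q.rep j) =
          ((starRingEnd ℂ) (p.rep k) / nn p.rep * p.rep i) * q.rep j := by ring
      _ = ((starRingEnd ℂ) (q.rep k) / nn q.rep * q.rep i) * q.rep j := by rw [key i]
      _ = ((starRingEnd ℂ) (q.rep k) / nn q.rep * q.rep j) * q.rep i := by ring
      _ = ((starRingEnd ℂ) (p.rep k) / nn p.rep * p.rep j) * q.rep i := by rw [key j]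
      _ = _ := by ring
  exact (h_ISB a).2.2.1 q.rep p q h2 hw

theorem nn_cont {a : ℕ} : Continuous fun v : Vec a => nn v := by
  unfold nn
  refine continuous_finsetSum _ fun l _ => ?_
  exact (continuous_apply l).mul (Complex.continuous_conj.comp (continuous_apply l))

theorem fm_cont {a : ℕ} : ContinuousOn (fun v : Vec a => fm v) {v | v ≠ 0} := by
  refine continuousOn_pi.2 fun i => continuousOn_pi.2 fun k => ?_
  unfold fm
  refine ContinuousOn.div ?_ nn_cont.continuousOn fun v hv => nn_ne hv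
  exact ((continuous_apply i).mul
    (Complex.continuous_conj.comp (continuous_apply k))).continuousOn

theorem c1 (h_ISB : T_ISB) (a b : ℕ) : Continuous fun x : PP a b => prj x.1 := by
  rw [continuous_def]
  intro V hV
  change IsOpen (cone ((fun x : PP a b => prj x.1) ⁻¹' V))
  have hs : IsOpen {z : Vec a × Vec b | z.1 ≠ 0 ∧ z.2 ≠ 0} :=
    (isOpen_ne_fun continuous_fst continuous_const).inter
      (isOpen_ne_fun continuous_snd continuous_const)
  have hf : ContinuousOn (fun z : Vec a × Vec b => fm z.1) {z | z.1 ≠ 0 ∧ z.2 ≠ 0} :=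
    fm_cont.comp continuous_fst.continuousOn fun z hz => hz.1
  have h := hf.isOpen_inter_preimage hs hV
  convert h using 1
  ext z
  constructor
  · rintro ⟨x, hx, h1, h2⟩
    refine ⟨⟨h1.1, h2.1⟩, ?_⟩
    have h3 : prj x.1 ∈ V := hx
    rw [one h_ISB _ _ h1] at h3
    exact h3
  · rintro ⟨⟨h1, h2⟩, h3⟩
    refine ⟨(Projectivization.mk ℂ z.1 h1, Projectivization.mk ℂ z.2 h2), ?_,
      ⟨h1, rfl⟩, ⟨h2, rfl⟩⟩
    change prj (Projectivization.mk ℂ z.1 h1) ∈ V
    rw [one h_ISB _ z.1 ⟨h1, rfl⟩]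
    exact h3

theorem c2 (h_ISB : T_ISB) (a b : ℕ) : Continuous fun x : PP a b => prj x.2 := by
  rw [continuous_def]
  intro V hV
  change IsOpen (cone ((fun x : PP a b => prj x.2) ⁻¹' V))
  have hs : IsOpen {z : Vec a × Vec b | z.1 ≠ 0 ∧ z.2 ≠ 0} :=
    (isOpen_ne_fun continuous_fst continuous_const).inter
      (isOpen_ne_fun continuous_snd continuous_const)
  have hf : ContinuousOn (fun z : Vec a × Vec b => fm z.2) {z | z.1 ≠ 0 ∧ z.2 ≠ 0} :=
    fm_cont.comp continuous_snd.continuousOn fun z hz => hz.2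
  have h := hf.isOpen_inter_preimage hs hV
  convert h using 1
  ext z
  constructor
  · rintro ⟨x, hx, h1, h2⟩
    refine ⟨⟨h1.1, h2.1⟩, ?_⟩
    have h3 : prj x.2 ∈ V := hx
    rw [one h_ISB _ _ h2] at h3
    exact h3
  · rintro ⟨⟨h1, h2⟩, h3⟩
    refine ⟨(Projectivization.mk ℂ z.1 h1, Projectivization.mk ℂ z.2 h2), ?_,
      ⟨h1, rfl⟩, ⟨h2, rfl⟩⟩
    change prj (Projectivization.mk ℂ z.2 h2) ∈ V
    rw [one h_ISB _ z.2 ⟨h2, rfl⟩]
    exact h3

end PRJ_

open PRJ_ in
theorem p_PRJ (h_ISB : T_ISB) : T_PRJ := by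
  intro a b
  refine ⟨fun p v hv i k => ?_, inj h_ISB, c1 h_ISB a b, c2 h_ISB a b, ?_⟩
  · rw [one h_ISB p v hv]
    rfl
  · refine T2Space.of_injective_continuous
      (f := fun x : PP a b => (prj x.1, prj x.2)) ?_ ((c1 h_ISB a b).prodMk (c2 h_ISB a b))
    intro x y hxy
    rw [Prod.mk.injEq] at hxy
    exact Prod.ext (inj h_ISB _ _ hxy.1) (inj h_ISB _ _ hxy.2)

end Pool.Agent.ARC
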