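import Pool.Agent.ARC.Targets2

set_option autoImplicit false

/-!
# ARC, job SUM: the other roots are far in the mean
-/

noncomputable section

open Filter Topology

namespace Pool.Agent.ARC

namespace SUM_

/-- The `l`-th root of `-1`. -/
def E (n l : ℕ) : ℂ := Complex.exp (((Real.pi * (2 * l + 1) / n : ℝ) : ℂ) * Complex.I)

lemma norm_sub_exp (α β : ℝ) : ‖Complex.exp ((α : ℂ) * Complex.I) -
    Complex.exp ((β : ℂ) * Complex.I)‖ = 2 * |Real.sin ((α - β) / 2)| := by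
  have h1 : Complex.exp ((α : ℂ) * Complex.I) - Complex.exp ((β : ℂ) * Complex.I) =
      Complex.exp ((β : ℂ) * Complex.I) *
        (Complex.exp (Complex.I * ((α - β : ℝ) : ℂ)) - 1) := by
    rw [mul_sub, mul_one, ← Complex.exp_add]
    congr 2
    push_cast
    ring
  rw [h1, norm_mul, Complex.norm_exp_ofReal_mul_I, one_mul,
    Complex.norm_exp_I_mul_ofReal_sub_one, norm_mul, Real.norm_eq_abs, Real.norm_eq_abs]
  norm_num

/-- The distance of two different roots. -/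
lemma dist_lower {n l m : ℕ} (hl : l < n) (hml : m < l) :
    4 * (min (l - m) (n - (l - m)) : ℕ) / (n : ℝ) ≤ ‖E n l - E n m‖ := by
  have hn : (0 : ℝ) < n := by
    have : 0 < n := by omega
    exact_mod_cast this
  obtain ⟨d, hd⟩ : ∃ d, d = l - m := ⟨_, rfl⟩
  have hd0 : 0 < d := by omega
  have hdn : d < n := by omega
  have hdR : (d : ℝ) = (l : ℝ) - m := by
    rw [hd, Nat.cast_sub hml.le]
  have hang : (Real.pi * (2 * l + 1) / n - Real.pi * (2 * m + 1) / n) / 2 =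
      Real.pi * d / n := by
    rw [hdR]
    field_simp
    ring
  unfold E
  rw [norm_sub_exp, hang, ← hd]
  have hpi := Real.pi_pos
  have key : ∀ e : ℕ, (2 * e : ℝ) ≤ n → 2 * (e : ℝ) / n ≤ Real.sin (Real.pi * e / n) := by
    intro e he
    have h1 : 0 ≤ Real.pi * e / n := by positivity
    have h2 : Real.pi * e / n ≤ Real.pi / 2 := by
      rw [div_le_div_iff₀ hn (by norm_num)]
      nlinarith
    have h3 := Real.mul_le_sin h1 h2
    have h4 : 2 / Real.pi * (Real.pi * e / n) = 2 * e / n := by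
      field_simp
    rw [h4] at h3
    exact h3
  rcases le_or_gt (2 * d) n with h | h
  · have h1 : min d (n - d) = d := by omega
    rw [h1]
    have h2 := key d (by exact_mod_cast h)
    have h3 := le_abs_self (Real.sin (Real.pi * d / n))
    have h4 : 4 * (d : ℝ) / n = 2 * (2 * d / n) := by ring
    rw [h4]
    linarith
  · have h1 : min d (n - d) = n - d := by omega
    rw [h1]
    have h2 := key (n - d) (by
      have : 2 * (n - d) ≤ n := by omega
      exact_mod_cast this)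
    have h5 : Real.pi * ((n - d : ℕ) : ℝ) / n = Real.pi - Real.pi * d / n := by
      rw [Nat.cast_sub hdn.le]
      field_simp
    rw [h5, Real.sin_pi_sub] at h2
    have h3 := le_abs_self (Real.sin (Real.pi * d / n))
    have h4 : 4 * ((n - d : ℕ) : ℝ) / n = 2 * (2 * ((n - d : ℕ) : ℝ) / n) := by ring
    rw [h4]
    linarith

lemma sumd (n : ℕ) (g : ℕ → ℕ) (s : Finset ℕ) (hg : ∀ l ∈ s, g l ∈ Finset.Ioo 0 n)
    (hi : Set.InjOn g s) : ∑ l ∈ s, (((g l : ℕ) : ℝ) ^ 2)⁻¹ ≤ 2 := by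
  have h1 : ∑ l ∈ s, (((g l : ℕ) : ℝ) ^ 2)⁻¹ = ∑ k ∈ s.image g, ((k : ℝ) ^ 2)⁻¹ :=
    (Finset.sum_image (f := fun k : ℕ => ((k : ℝ) ^ 2)⁻¹) hi).symm
  rw [h1]
  have h2 : s.image g ⊆ Finset.Ioo 0 n := Finset.image_subset_iff.2 hg
  have h3 : ∑ k ∈ s.image g, ((k : ℝ) ^ 2)⁻¹ ≤ ∑ k ∈ Finset.Ioo 0 n, ((k : ℝ) ^ 2)⁻¹ :=
    Finset.sum_le_sum_of_subset_of_nonneg h2 fun _ _ _ => by positivity
  have h4 : ∑ k ∈ Finset.Ioo 0 n, ((k : ℝ) ^ 2)⁻¹ ≤ 2 / ((0 : ℕ) + 1 : ℝ) :=
    sum_Ioo_inv_sq_le 0 n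
  simp at h4
  linarith

/-- The estimate of one term. -/
lemma term {n : ℕ} {x : ℂ} {d : ℕ} {ω ω' : ℂ} (hn : 0 < n) (hd : 0 < d) (hdn : d < n)
    (h1 : 4 * (min d (n - d) : ℕ) / (n : ℝ) ≤ ‖ω - ω'‖) (h2 : ‖x - ω‖ ≤ ‖x - ω'‖) :
    (1 / (n * ‖x - ω'‖)) ^ 2 ≤
      1 / 4 * (((d : ℝ) ^ 2)⁻¹ + (((n - d : ℕ) : ℝ) ^ 2)⁻¹) := by
  have hnR : (0 : ℝ) < n := by exact_mod_cast hn
  have h3 : ‖ω - ω'‖ ≤ 2 * ‖x - ω'‖ := by
    calc ‖ω - ω'‖ = ‖(x - ω') - (x - ω)‖ := by congr 1; ring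
      _ ≤ ‖x - ω'‖ + ‖x - ω‖ := norm_sub_le _ _
      _ ≤ 2 * ‖x - ω'‖ := by linarith
  obtain ⟨μ, hμ⟩ : ∃ μ, μ = min d (n - d) := ⟨_, rfl⟩
  have hμ0 : 0 < μ := by omega
  have hμR : (0 : ℝ) < μ := by exact_mod_cast hμ0
  rw [← hμ] at h1
  have h4 : 2 * (μ : ℝ) ≤ n * ‖x - ω'‖ := by
    have h5 : 4 * (μ : ℝ) / n ≤ 2 * ‖x - ω'‖ := h1.trans h3
    rw [div_le_iff₀ hnR] at h5
    nlinarith
  have h6 : 1 / (n * ‖x - ω'‖) ≤ 1 / (2 * (μ : ℝ)) :=
    one_div_le_one_div_of_le (by positivity) h4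
  have h7 : (1 / (n * ‖x - ω'‖)) ^ 2 ≤ (1 / (2 * (μ : ℝ))) ^ 2 :=
    pow_le_pow_left₀ (by positivity) h6 2
  have h8 : (1 / (2 * (μ : ℝ))) ^ 2 = 1 / 4 * ((μ : ℝ) ^ 2)⁻¹ := by
    field_simp
    norm_num
  rw [h8] at h7
  refine h7.trans ?_
  have h9 : 0 ≤ ((d : ℝ) ^ 2)⁻¹ := by positivity
  have h10 : 0 ≤ (((n - d : ℕ) : ℝ) ^ 2)⁻¹ := by positivity
  rcases min_choice d (n - d) with h | h
  · rw [hμ, h]
    linarith
  · rw [hμ, h]
    linarith

end SUM_

theorem p_SUM : T_SUM := by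
  intro n x ω hn hω hx
  have hrts : rts n = (Finset.range n).image (SUM_.E n) := rfl
  rw [hrts, Finset.mem_image] at hω
  obtain ⟨m, hm, rfl⟩ := hω
  rw [Finset.mem_range] at hm
  have hnR : (0 : ℝ) < n := by exact_mod_cast (show 0 < n by omega)
  -- the distances to `E n m`
  have hdist : ∀ l, l < n → l ≠ m →
      4 * (min ((l - m) + (m - l)) (n - ((l - m) + (m - l))) : ℕ) / (n : ℝ) ≤
        ‖SUM_.E n m - SUM_.E n l‖ := by
    intro l hl hne
    rcases lt_or_gt_of_ne hne with h | h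
    · have h1 : (l - m) + (m - l) = m - l := by omega
      rw [h1]
      exact SUM_.dist_lower hm h
    · have h1 : (l - m) + (m - l) = l - m := by omega
      rw [h1, norm_sub_rev]
      exact SUM_.dist_lower hl h
  have hterm : ∀ l ∈ (Finset.range n).erase m, (1 / (n * ‖x - SUM_.E n l‖)) ^ 2 ≤
      1 / 4 * (((((l - m) + (m - l) : ℕ) : ℝ) ^ 2)⁻¹ +
        (((n - ((l - m) + (m - l)) : ℕ) : ℝ) ^ 2)⁻¹) := by
    intro l hl
    rw [Finset.mem_erase, Finset.mem_range] at hl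
    obtain ⟨hne, hl⟩ := hl
    refine SUM_.term (by omega) (by omega) (by omega) (hdist l hl hne) (hx _ ?_)
    rw [hrts]
    exact Finset.mem_image_of_mem _ (Finset.mem_range.2 hl)
  -- reduction to a sum over the indices
  have hsub : (rts n).erase (SUM_.E n m) ⊆ ((Finset.range n).erase m).image (SUM_.E n) := by
    intro z hz
    rw [Finset.mem_erase, hrts, Finset.mem_image] at hz
    obtain ⟨hz1, l, hl, rfl⟩ := hz
    refine Finset.mem_image.2 ⟨l, Finset.mem_erase.2 ⟨?_, hl⟩, rfl⟩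
    rintro rfl
    exact hz1 rfl
  have h1 : ∑ ω' ∈ (rts n).erase (SUM_.E n m), (1 / (n * ‖x - ω'‖)) ^ 2 ≤
      ∑ ω' ∈ ((Finset.range n).erase m).image (SUM_.E n), (1 / (n * ‖x - ω'‖)) ^ 2 :=
    Finset.sum_le_sum_of_subset_of_nonneg hsub fun _ _ _ => by positivity
  have h2 : ∑ ω' ∈ ((Finset.range n).erase m).image (SUM_.E n), (1 / (n * ‖x - ω'‖)) ^ 2 ≤
      ∑ l ∈ (Finset.range n).erase m, (1 / (n * ‖x - SUM_.E n l‖)) ^ 2 := by
    rw [Finset.sum_image]
    intro l hl l' hl' hEE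
    rw [Finset.mem_coe, Finset.mem_erase, Finset.mem_range] at hl hl'
    by_contra hne
    rcases lt_or_gt_of_ne hne with h | h
    · have h3 := SUM_.dist_lower hl'.2 h
      rw [hEE, sub_self, norm_zero] at h3
      have h4 : 0 < min (l' - l) (n - (l' - l)) := by omega
      have h5 : (0 : ℝ) < (min (l' - l) (n - (l' - l)) : ℕ) := by exact_mod_cast h4
      have h6 : 0 < 4 * ((min (l' - l) (n - (l' - l)) : ℕ) : ℝ) / n := by positivity
      linarith
    · have h3 := SUM_.dist_lower hl.2 h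
      rw [hEE, sub_self, norm_zero] at h3
      have h4 : 0 < min (l - l') (n - (l - l')) := by omega
      have h5 : (0 : ℝ) < (min (l - l') (n - (l - l')) : ℕ) := by exact_mod_cast h4
      have h6 : 0 < 4 * ((min (l - l') (n - (l - l')) : ℕ) : ℝ) / n := by positivity
      linarith
  have h3 := Finset.sum_le_sum hterm
  have hsplit : (Finset.range n).erase m = Finset.range m ∪ Finset.Ioo m n := by
    ext l
    simp only [Finset.mem_erase, Finset.mem_range, Finset.mem_union, Finset.mem_Ioo]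
    omega
  have hdisj : Disjoint (Finset.range m) (Finset.Ioo m n) := by
    rw [Finset.disjoint_left]
    intro l hl hl'
    rw [Finset.mem_range] at hl
    rw [Finset.mem_Ioo] at hl'
    omega
  have hb : ∀ g : ℕ → ℕ, (∀ l, l < n → l ≠ m → g l ∈ Finset.Ioo 0 n) →
      Set.InjOn g (Finset.range m : Finset ℕ) → Set.InjOn g (Finset.Ioo m n : Finset ℕ) →
      ∑ l ∈ (Finset.range n).erase m, (((g l : ℕ) : ℝ) ^ 2)⁻¹ ≤ 4 := by
    intro g hg hi1 hi2
    rw [hsplit, Finset.sum_union hdisj]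
    have h4 := SUM_.sumd n g (Finset.range m) (fun l hl => by
      rw [Finset.mem_range] at hl
      exact hg l (by omega) (by omega)) hi1
    have h5 := SUM_.sumd n g (Finset.Ioo m n) (fun l hl => by
      rw [Finset.mem_Ioo] at hl
      exact hg l (by omega) (by omega)) hi2
    linarith
  have hA := hb (fun l => (l - m) + (m - l)) (fun l h4 h5 => by
      rw [Finset.mem_Ioo]; omega)
    (fun l hl l' hl' h => by
      rw [Finset.mem_coe, Finset.mem_range] at hl hl'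
      simp only at h
      omega)
    (fun l hl l' hl' h => by
      rw [Finset.mem_coe, Finset.mem_Ioo] at hl hl'
      simp only at h
      omega)
  have hB := hb (fun l => n - ((l - m) + (m - l))) (fun l h4 h5 => by
      rw [Finset.mem_Ioo]; omega)
    (fun l hl l' hl' h => by
      rw [Finset.mem_coe, Finset.mem_range] at hl hl'
      simp only at h
      omega)
    (fun l hl l' hl' h => by
      rw [Finset.mem_coe, Finset.mem_Ioo] at hl hl'
      simp only at h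
      omega)
  rw [← Finset.mul_sum, Finset.sum_add_distrib] at h3
  refine (h1.trans h2).trans (h3.trans ?_)
  linarith

end Pool.Agent.ARC
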