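import Pool.Agent.ARC.Defs

set_option autoImplicit false

/-!
# ARC targets, part 1: algebra, joined points, topology

Every target has its proof in the docstring. Overview: `Pool/Agent/ARC/Blueprint.md`.
-/

noncomputable section

open Filter Topology

namespace Pool.Agent.ARC

/-- `x` and `y` are joined in `U` with degrees `(p, q)`: there is a morphism `ℙ^1 → U`, given by
binary forms of degrees `p` and `q`, with value `x` at `[0 : 1]` and value `y` at `[1 : 0]`
(constant morphisms are allowed). -/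
def JoinedD {a b : ℕ} (U : Set (PP a b)) (p q : ℕ) (x y : PP a b) : Prop :=
  ∃ (A : Fin (a + 1) → ℕ → ℂ) (B : Fin (b + 1) → ℕ → ℂ),
    (∀ s t : ℂ, (s, t) ≠ (0, 0) → (vform p A s t, vform q B s t) ∈ cone U) ∧
    Is (vform p A 0 1) x.1 ∧ Is (vform q B 0 1) x.2 ∧
    Is (vform p A 1 0) y.1 ∧ Is (vform q B 1 0) y.2

/-- `x` and `y` are joined in `U`. -/
def Joined {a b : ℕ} (U : Set (PP a b)) (x y : PP a b) : Prop := ∃ p q : ℕ, JoinedD U p q x y

/-- Invariance under scaling of both components. -/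
def Conic {a b : ℕ} (O : Set (Vec a × Vec b)) : Prop :=
  ∀ (x y : ℂ) (v : Vec a) (w : Vec b), x ≠ 0 → y ≠ 0 → (v, w) ∈ O → (x • v, y • w) ∈ O

/-! ## Algebra of forms and regular maps -/

/-- ISB. Basic facts on `Is`. PROOF. `Projectivization.rep`, `Projectivization.mk_eq_mk_iff'`. For
the item with cross products: `v i ≠ 0` for some `i`; then `w i ≠ 0` (otherwise `v i * w j = 0` for
all `j`, so `w = 0`) and `v = (v i / w i) • w`. The last item from the others. -/
def T_ISB : Prop := ∀ (a : ℕ),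
  (∀ p : Projectivization ℂ (Vec a), ∃ v, Is v p) ∧
  (∀ v : Vec a, v ≠ 0 → ∃ p, Is v p) ∧
  (∀ (v : Vec a) (p q : Projectivization ℂ (Vec a)), Is v p → Is v q → p = q) ∧
  (∀ (v : Vec a) (p : Projectivization ℂ (Vec a)) (c : ℂ), c ≠ 0 → Is v p → Is (c • v) p) ∧
  (∀ (v w : Vec a) (p : Projectivization ℂ (Vec a)), Is v p → Is w p →
    ∃ c : ℂ, c ≠ 0 ∧ w = c • v) ∧
  (∀ (v w : Vec a) (p : Projectivization ℂ (Vec a)), Is v p → w ≠ 0 →
    (∀ i j, v i * w j = v j * w i) → Is w p)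

/-- CNC. Cones are conic, and membership in terms of representatives. Uses T_ISB. -/
def T_CNC : Prop := ∀ (a b : ℕ) (U : Set (PP a b)), Conic (cone U) ∧
  (∀ (x : PP a b) (v : Vec a) (w : Vec b), Is v x.1 → Is w x.2 → ((v, w) ∈ cone U ↔ x ∈ U)) ∧
  (∀ (v : Vec a) (w : Vec b), (v, w) ∈ cone U → v ≠ 0 ∧ w ≠ 0)

/-- FRM. Elementary facts on binary forms. PROOF. Unfold; finite sums; `c i * (r s)^i * (r t)^(p-i)
= r^p * ..` for `i ≤ p`. The product: coefficients `e k = ∑ i ∈ range (k+1), c i * c' (k-i)` with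
`c, c'` cut off above `p, q` (or: the polynomials `∑ c i X^i`, `Polynomial.coeff_mul`, and compare
for `t ≠ 0` after division by `t^(p+q)`, then `t = 0` by continuity or directly). Vanishing
product: at `t = 1` the polynomials `P = ∑_(i ≤ p) c i X^i` and `Q` satisfy `P Q = 0` (infinite
field), so `P = 0` or `Q = 0`, all the coefficients up to `p` (or up to `q`) are zero. -/
def T_FRM : Prop :=
  (∀ (p : ℕ) (c : ℕ → ℂ) (r s t : ℂ), form p c (r * s) (r * t) = r ^ p * form p c s t) ∧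
  (∀ (p : ℕ) (c : ℕ → ℂ), Continuous fun z : ℂ × ℂ => form p c z.1 z.2) ∧
  (∀ (p : ℕ) (c : ℕ → ℂ), form p c 0 1 = c 0 ∧ form p c 1 0 = c p) ∧
  (∀ (p q : ℕ) (c c' : ℕ → ℂ), ∃ e : ℕ → ℂ, ∀ s t : ℂ,
    form p c s t * form q c' s t = form (p + q) e s t) ∧
  (∀ (p q : ℕ) (c c' : ℕ → ℂ), (∀ s t : ℂ, form p c s t * form q c' s t = 0) →
    (∀ s t : ℂ, form p c s t = 0) ∨ (∀ s t : ℂ, form q c' s t = 0))

/-- NZD. A form without zeros is a constant. PROOF. If `q ≥ 1`: `c q = form q c 1 0 ≠ 0`, so the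
polynomial `∑_(i ≤ q) c i X^i` has degree `q ≥ 1` and a root `s`; `(s, 1)` is a zero. -/
def T_NZD : Prop := ∀ (q : ℕ) (c : ℕ → ℂ),
  (∀ s t : ℂ, (s, t) ≠ (0, 0) → form q c s t ≠ 0) → q = 0

/-- MVP. A polynomial in two variables which is homogeneous of degree `N` as a function is a binary
form. PROOF. For fixed `s, t` the polynomial `∑_k λ^k Q_k(s,t) - λ^N Q(s,t)` in `λ` vanishes
identically (`Q_k = Q.homogeneousComponent k`, `∑ Q_k = Q`), so `Q_N(s,t) = Q(s,t)` (infinite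
field). And `Q_N` is a combination of the monomials `X_0^i X_1^(N-i)`: take
`c i = Q.coeff (single 0 i + single 1 (N-i))`. -/
def T_MVP : Prop := ∀ (N : ℕ) (Q : MvPolynomial (Fin 2) ℂ),
  (∀ r s t : ℂ, MvPolynomial.eval ![r * s, r * t] Q = r ^ N * MvPolynomial.eval ![s, t] Q) →
  ∃ c : ℕ → ℂ, ∀ s t : ℂ, MvPolynomial.eval ![s, t] Q = form N c s t

/-- LIN. Linear substitution. Uses T_MVP, T_FRM. PROOF. `Q = bind₁ ![α X_0 + β X_1,
γ X_0 + δ X_1] (∑_k C (c k) X_0^k X_1^(p-k))` and T_MVP. -/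
def T_LIN : Prop := ∀ (p : ℕ) (c : ℕ → ℂ) (α β γ δ : ℂ),
  ∃ c' : ℕ → ℂ, ∀ s t : ℂ, form p c (α * s + β * t) (γ * s + δ * t) = form p c' s t

/-- DIV. Division by a linear form. PROOF. `t₀ ≠ 0`: `P = ∑_(i ≤ N+1) c i X^i` has the root
`x₀ = s₀/t₀`, `P = (X - x₀) R`, `natDegree R ≤ N`; `c' = (1/t₀) R.coeff`: the identity holds for
`t = 1`, so for `t ≠ 0` by homogeneity (T_FRM), so everywhere by continuity (T_FRM; or directly
from `c i = R.coeff (i-1) - x₀ R.coeff i`). `t₀ = 0`: `s₀ ≠ 0` and `c (N+1) = 0`, so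
`form (N+1) c s t = t * form N c s t`; take `c' i = - c i / s₀`. -/
def T_DIV : Prop := ∀ (N : ℕ) (c : ℕ → ℂ) (s₀ t₀ : ℂ), (s₀, t₀) ≠ (0, 0) →
  form (N + 1) c s₀ t₀ = 0 →
  ∃ c' : ℕ → ℂ, ∀ s t : ℂ, form (N + 1) c s t = (t₀ * s - s₀ * t) * form N c' s t

/-- GCD. Removal of the common zeros. Uses T_DIV, T_FRM. PROOF. Induction on `N`. If the vector has
no common zero take `N' = N` and the constant form `1` (degree 0). Otherwise let `(s₀, t₀)` be a
common zero. `N ≥ 1` (for `N = 0` the forms are constants, all zero, against the hypothesis).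
T_DIV for every component: `T_i = (t₀ s - s₀ t) T'_i`, `T'` of degree `N - 1`, not identically
zero; apply the induction hypothesis to `T'` and multiply the form `g` by the linear form
(T_FRM, product of forms; `t₀ s - s₀ t = form 1 c s t` with `c 0 = -s₀`, `c 1 = t₀`). -/
def T_GCD : Prop := ∀ (a N : ℕ) (T : Fin (a + 1) → ℕ → ℂ), (∃ s t : ℂ, vform N T s t ≠ 0) →
  ∃ (N' K : ℕ) (T' : Fin (a + 1) → ℕ → ℂ) (g : ℕ → ℂ), NoZero N' T' ∧
    ∀ s t : ℂ, vform N T s t = form K g s t • vform N' T' s t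

/-- PGR. An entire function of polynomial growth is a polynomial. PROOF. Cauchy estimates: all
derivatives of order `> N` vanish at `0` (`Complex.norm_iteratedDeriv_le_of_forall_mem_sphere_norm_le`
on large circles), and `f` is the sum of its Taylor series at `0`
(`Complex.hasSum_taylorSeries_of_entire` or a similar lemma). -/
def T_PGR : Prop := ∀ (f : ℂ → ℂ) (C : ℝ) (N : ℕ), Differentiable ℂ f →
  (∀ z : ℂ, ‖f z‖ ≤ C * (1 + ‖z‖) ^ N) → ∃ P : Polynomial ℂ, ∀ z : ℂ, f z = P.eval z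

/-- GA1. A holomorphic map from `ℙ^1` to `ℙ^c` is given by polynomials outside a finite set. Uses
T_PGR, T_ISB. PROOF. Choose `i` such that the `i`-th coordinate of `g 0 1` is not zero. Let `Z` be the
set of the `z` such that the `i`-th coordinate of `g z 1` vanishes, `Z'` the set of the points with
a neighbourhood contained in `Z`. At every point `z₀` there is a local lift `F` of `z ↦ g z 1`
holomorphic near `z₀`, and `F i` vanishes identically near `z₀` or has no zero in a punctured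
neighbourhood of `z₀` (`AnalyticAt.eventually_eq_zero_or_eventually_ne_zero`). So `Z'` is open and
closed, `0 ∉ Z'`, `ℂ` is connected: `Z' = ∅`, and `Z` is discrete and closed. In the same way for
`w ↦ g 1 w` at `w = 0` (`g 1 w = g (1/w) 1`): `Z` is bounded. So `Z` is finite. For `k` let
`m_k z = (k-th coordinate) / (i-th coordinate)` of `g z 1`, differentiable on `ℂ ∖ Z`. Near
`z₁ ∈ Z`: `F i = (z - z₁)^m h`, `h z₁ ≠ 0`, so `(z - z₁)^m m_k` is bounded near `z₁`; near infinity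
`‖m_k z‖ ≤ C ‖z‖^m` (the same at `w = 0`). `q z = ∏_(z₁ ∈ Z) (z - z₁)^m` with `m` large: `q m_k`
extends to an entire function (removable singularities) of polynomial growth: a polynomial `P k`
(T_PGR). For `z ∉ Z` the vector `(P k z)_k = q z • (m_k z)_k` represents `g z 1`. -/
def T_GA1 : Prop := ∀ (c : ℕ) (g : ℂ → ℂ → Projectivization ℂ (Vec c)),
  (∀ r s t : ℂ, r ≠ 0 → (s, t) ≠ (0, 0) → g (r * s) (r * t) = g s t) →
  (∀ s₀ t₀ : ℂ, (s₀, t₀) ≠ (0, 0) → ∃ (O : Set (ℂ × ℂ)) (F : ℂ × ℂ → Vec c), IsOpen O ∧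
    (s₀, t₀) ∈ O ∧ DifferentiableOn ℂ F O ∧ ∀ z ∈ O, z ≠ (0, 0) → Is (F z) (g z.1 z.2)) →
  ∃ (Z : Finset ℂ) (P : Fin (c + 1) → Polynomial ℂ),
    ∀ z : ℂ, z ∉ Z → Is (fun k => (P k).eval z) (g z 1)

/-- GAG. A holomorphic map from `ℙ^1` to `ℙ^c` is given by binary forms. Uses T_GA1, T_GCD, T_FRM,
T_ISB. PROOF. T_GA1; `N` the maximum of the degrees, `T k` the coefficients of `P k`: the forms of
degree `N` with `vform N T z 1 = (P k z)_k`. T_GCD: `T = g' T'`, `T'` without common zero. For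
`(s₀, t₀) ≠ 0` let `F` be the local lift: the functions `F_k T'_l - F_l T'_k` are continuous near
`(s₀, t₀)` and vanish at all `(s, t)` with `t ≠ 0`, `s/t ∉ Z` and `g'(s,t) ≠ 0`, a dense set (or:
there are such points arbitrarily close to `(s₀, t₀)`, `g'` has finitely many zeros up to scaling),
so also at `(s₀, t₀)`; T_ISB (cross products). -/
def T_GAG : Prop := ∀ (c : ℕ) (g : ℂ → ℂ → Projectivization ℂ (Vec c)),
  (∀ r s t : ℂ, r ≠ 0 → (s, t) ≠ (0, 0) → g (r * s) (r * t) = g s t) →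
  (∀ s₀ t₀ : ℂ, (s₀, t₀) ≠ (0, 0) → ∃ (O : Set (ℂ × ℂ)) (F : ℂ × ℂ → Vec c), IsOpen O ∧
    (s₀, t₀) ∈ O ∧ DifferentiableOn ℂ F O ∧ ∀ z ∈ O, z ≠ (0, 0) → Is (F z) (g z.1 z.2)) →
  ∃ (p : ℕ) (A : Fin (c + 1) → ℕ → ℂ), ∀ s t : ℂ, (s, t) ≠ (0, 0) → Is (vform p A s t) (g s t)

/-- CUR. A holomorphic map composed with a morphism from `ℙ^1` is a morphism from `ℙ^1`. Uses T_ISB,
T_CNC, T_FRM, T_GAG. PROOF. `g s t = (f x).1` for the point `x` represented by
`(vform p A s t, vform q B s t)`; it is invariant under scaling, and near `(s₀, t₀)` it has the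
holomorphic lift `F (vform p A s t, vform q B s t)`, `F` from `HolOn` (polynomial functions are
differentiable). T_GAG. The same for the second component. -/
def T_CUR : Prop := ∀ (a b c d p q : ℕ) (X : Set (PP a b)) (f : PP a b → PP c d)
  (A : Fin (a + 1) → ℕ → ℂ) (B : Fin (b + 1) → ℕ → ℂ), HolOn X f →
  (∀ s t : ℂ, (s, t) ≠ (0, 0) → (vform p A s t, vform q B s t) ∈ cone X) →
  ∃ (p' q' : ℕ) (A' : Fin (c + 1) → ℕ → ℂ) (B' : Fin (d + 1) → ℕ → ℂ),
    NoZero p' A' ∧ NoZero q' B' ∧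
    ∀ (s t : ℂ) (x : PP a b), (s, t) ≠ (0, 0) → Is (vform p A s t) x.1 →
      Is (vform q B s t) x.2 → Is (vform p' A' s t) (f x).1 ∧ Is (vform q' B' s t) (f x).2

/-- RRC. Holomorphic maps compose, and restrict. PROOF. `F`, `G` of `f` at `(v₀, w₀)`; `F'`, `G'` of
`g` at `(F (v₀, w₀), G (v₀, w₀))`; take `F' (F z, G z)`, `G' (F z, G z)` on the intersection of `O`
with the preimage of `O'` (open because `F, G` are continuous on the open set `O`). -/
def T_RRC : Prop := ∀ (a b c d e k : ℕ) (X : Set (PP a b)) (Y : Set (PP c d))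
  (f : PP a b → PP c d) (g : PP c d → PP e k), HolOn X f →
  (HolOn Y g → (∀ x ∈ X, f x ∈ Y) → HolOn X (g ∘ f)) ∧ (∀ X' ⊆ X, HolOn X' f)

/-- SWP. Exchange of the two factors. Uses T_ISB. PROOF. `F` and `G` are exchanged; for the inverse
compose `F, G` with the exchange of the variables. The cone of the preimage under `Prod.swap` is the
preimage of the cone. The last item: for `U ⊇ j '' X` use the swapped set, and exchange the two
vectors of forms of the rational curve. -/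
def T_SWP : Prop := ∀ (a b c d : ℕ) (X : Set (PP a b)) (j : PP a b → PP c d),
  (HolOn X j → HolOn X (fun x => (j x).swap)) ∧
  (IsEmb X j → IsEmb X (fun x => (j x).swap)) ∧
  (∀ U : Set (PP c d), IsOpenP U → IsOpenP {x : PP d c | x.swap ∈ U}) ∧
  (Naive ((fun x => (j x).swap) '' X) → Naive (j '' X))

/-- SEG. An embedding into `ℙ^M × ℙ^n` with prescribed holomorphic second component. Uses T_ISB.
PROOF. `M + 1 = (c + 1) (d + 1)`, `E : Fin (M + 1) ≃ Fin (c + 1) × Fin (d + 1)`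
(`Fintype.equivOfCardEq`). `e y = ([v_(E k).1 * w_(E k).2]_k, (g y).2)` for representatives `v, w` of
`y` (the vector is nonzero, and its class does not depend on the representatives). Holomorphic: the
bilinear vector, and the `G` of `g`. Inverse on the image, at a pair `(z₀, w₀)` representing
`e y`: choose `i₀, j₀` with `(z₀)_(E.symm (i₀, j₀)) ≠ 0`, `O = {z_(E.symm (i₀, j₀)) ≠ 0}`,
`F_i = z_(E.symm (i, j₀))`, `G_j = z_(E.symm (i₀, j))`: if `z` represents `(e y').1`,
`z_k = c v'_(E k).1 w'_(E k).2` with `c ≠ 0`, then `F = (c w' j₀) v'`, `G = (c v' i₀) w'` with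
nonzero factors. As inverse take any function with `inv (e y) = y`: `e` is injective on `Y` by the
same computation (`Function.invFunOn`; `Y` empty is trivial). -/
def T_SEG : Prop := ∀ (c d n : ℕ) (Y : Set (PP c d)) (g : PP c d → PP 0 n), HolOn Y g →
  ∃ (M : ℕ) (e : PP c d → PP M n), IsEmb Y e ∧ ∀ y ∈ Y, (e y).2 = (g y).2

/-- FST. Forgetting the first component. Uses T_ISB. PROOF. The first vector of functions is the
constant `1 : Vec 0`. -/
def T_FST : Prop := ∀ (a b c d : ℕ) (X : Set (PP a b)) (j : PP a b → PP c d), HolOn X j →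
  ∃ f : PP a b → PP 0 d, HolOn X f ∧ (∀ x, (f x).2 = (j x).2) ∧ ∀ x y, (f x).1 = (f y).1

/-! ## Joined points -/

/-- NRM. A morphism from `ℙ^1` into `U` through two distinct points joins them. Uses T_LIN, T_FRM,
T_ISB. PROOF. `(s₁,t₁)` and `(s₂,t₂)` are linearly independent (if one is a multiple of the other
then the points are equal, by homogeneity). Substitute `(s,t) ↦ t (s₁,t₁) + s (s₂,t₂)` (T_LIN for
every component): `[0:1] ↦ [s₁:t₁]`, `[1:0] ↦ [s₂:t₂]`, and `(s,t) ≠ 0` goes to a nonzero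
vector. -/
def T_NRM : Prop := ∀ (a b p q : ℕ) (U : Set (PP a b)) (A : Fin (a + 1) → ℕ → ℂ)
  (B : Fin (b + 1) → ℕ → ℂ) (x y : PP a b) (s₁ t₁ s₂ t₂ : ℂ),
  (∀ s t : ℂ, (s, t) ≠ (0, 0) → (vform p A s t, vform q B s t) ∈ cone U) →
  (s₁, t₁) ≠ (0, 0) → (s₂, t₂) ≠ (0, 0) → Is (vform p A s₁ t₁) x.1 → Is (vform q B s₁ t₁) x.2 →
  Is (vform p A s₂ t₂) y.1 → Is (vform q B s₂ t₂) y.2 → x ≠ y → JoinedD U p q x y

/-- The coefficients of the glued form: `c` followed by `c' k * r^k`. -/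
def glue (d : ℕ) (r : ℂ) (c c' : ℕ → ℂ) : ℕ → ℂ :=
  fun i => if i ≤ d then c i else c' (i - d) * r ^ (i - d)

/-- GLU. The glued form. PROOF. Split the sum over `i ≤ d + e` into `i ≤ d` and `i = d + k`,
`1 ≤ k ≤ e`. -/
def T_GLU : Prop := ∀ (d e : ℕ) (r : ℂ) (c c' : ℕ → ℂ), c d = c' 0 → ∀ s t : ℂ,
  form (d + e) (glue d r c c') s t =
    t ^ e * form d c s t + s ^ d * form e c' (r * s) t - c d * s ^ d * t ^ e

/-- TUB. The glued morphism stays in a neighbourhood of the two curves. Uses T_FRM, T_GLU. PROOF. Put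
`H r s t = (vform (d+e) (glued A A') s t, vform (d'+e') (glued B B') s t)`. Since `O` is
invariant under nonzero scaling in each component, it is enough to treat `(s,t)` with
`max |s| |t| = 1`, and if `|s| = 1` one may divide by `s`.
(1) Near `[1:0]`: `H r 1 t` has first component `vform e A' r t + t^e (vform d A 1 t - v)`,
`v = A(d) = vform d A 1 0`. With `(r, t) = ρ (α, β)`, `ρ > 0`, `max |α| |β| = 1`, it is
`ρ^e • (vform e A' α β + β^e (vform d A 1 (ρ β) - v))`, and similarly for the second component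
with `ρ^e'`. The pair `Ψ(ρ, α, β)` of the two brackets is continuous and
`Ψ(0, α, β) = (vform e A' α β, vform e' B' α β) ∈ O`. The sphere `max |α| |β| = 1` is compact:
`IsCompact.eventually_forall_of_forall_eventually` gives `ρ₀ > 0` such that `Ψ(ρ, α, β) ∈ O` for
`0 ≤ ρ ≤ ρ₀`. So `H r 1 t ∈ O` whenever `0 < max |r| |t| ≤ ρ₀`.
(2) On the compact set `max |s| |t| = 1`, `|t| ≥ ρ₀` (`ρ₀ ≤ 1`): `H r s t` is continuous in
`(r, s, t)` and `H 0 s t = (t^e • vform d A s t, t^e' • vform d' B s t) ∈ O` (T_GLU; `c' 0 = c d`).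
So there is `r₀ > 0` with `H r s t ∈ O` for `|r| ≤ r₀`. Take `0 < r ≤ min r₀ ρ₀`. -/
def T_TUB : Prop := ∀ (a b d e d' e' : ℕ) (O : Set (Vec a × Vec b))
  (A A' : Fin (a + 1) → ℕ → ℂ) (B B' : Fin (b + 1) → ℕ → ℂ), IsOpen O → Conic O →
  (∀ i, A i d = A' i 0) → (∀ i, B i d' = B' i 0) →
  (∀ s t : ℂ, (s, t) ≠ (0, 0) → (vform d A s t, vform d' B s t) ∈ O) →
  (∀ s t : ℂ, (s, t) ≠ (0, 0) → (vform e A' s t, vform e' B' s t) ∈ O) →
  ∃ r : ℂ, r ≠ 0 ∧ ∀ s t : ℂ, (s, t) ≠ (0, 0) →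
    (vform (d + e) (fun i => glue d r (A i) (A' i)) s t,
      vform (d' + e') (fun i => glue d' r (B i) (B' i)) s t) ∈ O

/-- JTR. Transitivity. Uses T_ISB, T_CNC, T_FRM, T_TUB. PROOF. Let `(p,q,A,B)` join `x, y` and
`(p',q',A',B')` join `y, z`. `vform p A 1 0 = (A_i p)_i` and `vform p' A' 0 1 = (A'_i 0)_i` both
represent `y.1`: multiply `A'` by a nonzero constant such that they are equal (T_ISB); the same for
`B'`. `cone U` is invariant under scaling (T_CNC). T_TUB gives `r ≠ 0`. The glued vector at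
`(0,1)` is `A_i 0` (coefficient `0`), at `(1,0)` it is the coefficient at `p + p'`:
`A'_i p' * r^p'` if `p' ≥ 1`, and `A_i p = A'_i 0` if `p' = 0`. -/
def T_JTR : Prop := ∀ (a b p q p' q' : ℕ) (U : Set (PP a b)) (x y z : PP a b), IsOpenP U →
  JoinedD U p q x y → JoinedD U p' q' y z → JoinedD U (p + p') (q + q') x z

/-- SYM. Symmetry, reflexivity, monotonicity, members, and the degrees. Uses T_ISB, T_CNC, T_FRM.
PROOF. Symmetry: reversed coefficients `A' i k = A i (p - k)`: `form p c' s t = form p c t s`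
(`Finset.sum_range_reflect`). Reflexivity: constant forms. Members: evaluate at `(0,1)`, `(1,0)`.
Degrees: a vector of forms of degree `0` is constant, so `x.1 = y.1`. -/
def T_SYM : Prop := ∀ (a b : ℕ) (U : Set (PP a b)),
  (∀ (p q : ℕ) (x y : PP a b), JoinedD U p q x y → JoinedD U p q y x) ∧
  (∀ x ∈ U, JoinedD U 0 0 x x) ∧
  (∀ (V : Set (PP a b)) (p q : ℕ) (x y : PP a b), U ⊆ V → JoinedD U p q x y →
    JoinedD V p q x y) ∧
  (∀ (p q : ℕ) (x y : PP a b), JoinedD U p q x y → x ∈ U ∧ y ∈ U) ∧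
  (∀ (p q : ℕ) (x y : PP a b), JoinedD U p q x y → (x.1 ≠ y.1 → 1 ≤ p) ∧ (x.2 ≠ y.2 → 1 ≤ q))

/-- CPT. Compactness of `ℙ^1`. Uses T_FRM. PROOF. (1) The set `K` of the pairs `(s, t)` with
`max ‖s‖ ‖t‖ = 1` is compact, its image under the continuous map `(vform p A, vform q B)` is a
compact subset of the open set `O`: `IsCompact.exists_thickening_subset_open` (the metric of the
product is the maximum). (2) `(s, t) = r • (s', t')` with `r = max ‖s‖ ‖t‖ > 0`, and homogeneity. -/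
def T_CPT : Prop := ∀ (a b p q : ℕ) (O : Set (Vec a × Vec b)) (A : Fin (a + 1) → ℕ → ℂ)
  (B : Fin (b + 1) → ℕ → ℂ), Conic O →
  (IsOpen O → (∀ s t : ℂ, (s, t) ≠ (0, 0) → (vform p A s t, vform q B s t) ∈ O) →
    ∃ ε : ℝ, 0 < ε ∧ ∀ s t : ℂ, max ‖s‖ ‖t‖ = 1 → ∀ (v : Vec a) (w : Vec b),
      ‖v - vform p A s t‖ < ε → ‖w - vform q B s t‖ < ε → (v, w) ∈ O) ∧
  ((∀ s t : ℂ, max ‖s‖ ‖t‖ = 1 → (vform p A s t, vform q B s t) ∈ O) →
    ∀ s t : ℂ, (s, t) ≠ (0, 0) → (vform p A s t, vform q B s t) ∈ O)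

/-- PER. One end point can be moved (in the first factor if `p ≥ 1`, in the second factor if
`q ≥ 1`). Uses T_ISB, T_CNC, T_FRM, T_CPT. PROOF. Let `A, B` join `x` to `y` and `ε` from T_CPT for
`O = cone U`. `N` = the set of the points `x'` which have representatives `v, w` with
`‖v - vform p A 0 1‖ < ε`, `‖w - vform q B 0 1‖ < ε`. It is open: its cone is the union over
nonzero `c, c'` of the open sets `{(v, w) | ‖c v - ..‖ < ε, ‖c' w - ..‖ < ε, v ≠ 0, w ≠ 0}`
(T_ISB). For `x' ∈ N` with these `v, w`: if `p ≥ 1` replace the coefficients `A i 0` by `v i`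
(this adds `t^p • (v - vform p A 0 1)`, of norm `< ε` for `max ‖s‖ ‖t‖ = 1`, and does not change
the value at `(1, 0)`), if `p = 0` keep `A` (`x'.1 = x.1`). The same for `B`. T_CPT (2). -/
def T_PER : Prop := ∀ (a b p q : ℕ) (U : Set (PP a b)) (x y : PP a b), IsOpenP U →
  JoinedD U p q x y → ∃ N : Set (PP a b), IsOpenP N ∧ x ∈ N ∧
    ∀ x' ∈ N, (1 ≤ p ∨ x'.1 = x.1) → (1 ≤ q ∨ x'.2 = x.2) → JoinedD U p q x' y

/-- JRC. Joined distinct points lie on a rational curve. Uses T_ISB. PROOF. `C = curve p q A B`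
(`NoZero` because representatives are nonzero); `C ⊆ U`: a point of `C` is represented by a pair in
`cone U`, so it is the point of `U` given there (T_ISB). -/
def T_JRC : Prop := ∀ (a b : ℕ) (U : Set (PP a b)) (x y : PP a b), Joined U x y → x ≠ y →
  ∃ C, RatCurve C ∧ C ⊆ U ∧ x ∈ C ∧ y ∈ C

/-- JCU. The image of a rational curve in `X` under a regular map joins its points. Uses T_CUR,
T_NRM, T_SYM, T_CNC, T_ISB. PROOF. `C = curve p q A B ⊆ X`, `u, v ∈ C`. If `f u = f v`: T_SYM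
(reflexivity). Otherwise T_CUR gives forms for `f ∘ h`, which represent points of `f '' X ⊆ U`, and
T_NRM. -/
def T_JCU : Prop := ∀ (a b c d : ℕ) (X C : Set (PP a b)) (f : PP a b → PP c d)
  (U : Set (PP c d)) (u v : PP a b), HolOn X f → f '' X ⊆ U → RatCurve C → C ⊆ X → u ∈ C →
  v ∈ C → Joined U (f u) (f v)

/-- CHN. Chains. Uses T_JCU, T_JTR, T_SYM. PROOF. Induction on the chain
(`Relation.ReflTransGen`); `f` is regular on the subset `F` of `X`; T_JCU with `X := F`. -/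
def T_CHN : Prop := ∀ (a b c d : ℕ) (X F : Set (PP a b)) (f : PP a b → PP c d)
  (U : Set (PP c d)) (u v : PP a b), HolOn X f → F ⊆ X → f '' F ⊆ U → IsOpenP U → u ∈ F →
  ChainIn F u v → Joined U (f u) (f v)

/-- CON. If the second component of a regular map avoids a coordinate hyperplane along a rational
curve then it is constant on the curve. Uses T_CUR, T_NZD, T_CNC, T_ISB, T_FRM. PROOF. T_CUR: forms `B'` of
degree `q'` representing the second component; the component `B' i` has no zero, so `q' = 0`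
(T_NZD) and `vform 0 B' s t` does not depend on `(s, t)`. -/
def T_CON : Prop := ∀ (a b c d : ℕ) (X C : Set (PP a b)) (f : PP a b → PP c d)
  (i : Fin (d + 1)), HolOn X f → RatCurve C → C ⊆ X →
  (∀ x ∈ C, ∀ w, Is w (f x).2 → w i ≠ 0) → ∀ u ∈ C, ∀ v ∈ C, (f u).2 = (f v).2

/-! ## Topology of `ℙ^a × ℙ^b` -/

/-- CAT. A criterion of convergence. PROOF. `tendsto_nhds`: if `U` is open (that is
`IsOpen (cone U)`) and `x ∈ U` then `(v₀, w₀) ∈ cone U`, so `(v t, w t) ∈ cone U` eventually, and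
`g t ∈ U` by uniqueness of the represented point (`is_unique`). -/
def T_CAT : Prop := ∀ (a b : ℕ) (T : Type) (l : Filter T) (g : T → PP a b) (x : PP a b)
  (v : T → Vec a) (w : T → Vec b) (v₀ : Vec a) (w₀ : Vec b), Tendsto v l (𝓝 v₀) →
  Tendsto w l (𝓝 w₀) → Is v₀ x.1 → Is w₀ x.2 →
  (∀ᶠ t in l, Is (v t) (g t).1 ∧ Is (w t) (g t).2) → Tendsto g l (𝓝 x)

/-- CHT. Affine charts. Uses T_ISB. PROOF. `i, j` with nonzero coordinates of `x₀`;
`N` as stated, `cone N = {z | z.1 i ≠ 0 ∧ z.2 j ≠ 0}` is open; `f x = (v i)⁻¹ • v` with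
`v = x.1.rep`, and `f` composed with the projection is `z ↦ (z.1 i)⁻¹ • z.1`. Continuity on `N`:
for `V` open the cone of `N ∩ f⁻¹ V` is `{z | z.1 i ≠ 0, z.2 j ≠ 0, (z.1 i)⁻¹ • z.1 ∈ V}`, open. -/
def T_CHT : Prop := ∀ (a b : ℕ) (x₀ : PP a b), ∃ (i : Fin (a + 1)) (j : Fin (b + 1))
  (N : Set (PP a b)) (f : PP a b → Vec a) (g : PP a b → Vec b), IsOpen N ∧ x₀ ∈ N ∧
  (∀ x, x ∈ N ↔ (∀ v, Is v x.1 → v i ≠ 0) ∧ ∀ w, Is w x.2 → w j ≠ 0) ∧
  (∀ x ∈ N, Is (f x) x.1 ∧ Is (g x) x.2 ∧ f x i = 1 ∧ g x j = 1) ∧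
  ContinuousOn f N ∧ ContinuousOn g N

/-- The matrix `v v^* / |v|^2` of the orthogonal projection to the line `p = [v]`. -/
def prj {a : ℕ} (p : Projectivization ℂ (Vec a)) (i k : Fin (a + 1)) : ℂ :=
  p.rep i * (starRingEnd ℂ) (p.rep k) / ∑ l, p.rep l * (starRingEnd ℂ) (p.rep l)

/-- PRJ. The projection matrices, and the Hausdorff property. Uses T_ISB. PROOF. (1) `v = c • rep`,
the factor `c * conj c` cancels. (2) injective: `v i conj (v k) / |v|^2 = w i conj (w k) / |w|^2`;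
choose `k` with `v k ≠ 0`; then `v = const • w`. (3), (4) continuity in the quotient topology: the
preimage of an open set `V` has the cone `{z | z.1 ≠ 0, z.2 ≠ 0, (formula in z.1) ∈ V}`, open
since the formula is continuous on `z.1 ≠ 0`. (5) `T2Space.of_injective_continuous` (or
`of_continuous_injective`) for the map `x ↦ (prj x.1, prj x.2)`. -/
def T_PRJ : Prop := ∀ (a b : ℕ),
  (∀ (p : Projectivization ℂ (Vec a)) (v : Vec a), Is v p → ∀ i k,
    prj p i k = v i * (starRingEnd ℂ) (v k) / ∑ l, v l * (starRingEnd ℂ) (v l)) ∧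
  (∀ p q : Projectivization ℂ (Vec a), prj p = prj q → p = q) ∧
  (Continuous fun x : PP a b => prj x.1) ∧ (Continuous fun x : PP a b => prj x.2) ∧
  T2Space (PP a b)

/-- COM. Compactness. Uses T_ISB. PROOF. The image of the compact set of the pairs of vectors of norm
`1` under the continuous projection from the pairs of nonzero vectors (every point has
representatives of norm `1`). -/
def T_COM : Prop := ∀ (a b : ℕ), CompactSpace (PP a b)

/-- RCO. Holomorphic maps are continuous. Uses T_CAT, T_CHT, T_ISB. PROOF. At `x ∈ X` take the chart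
functions `f₁, g₁` at `x` and `F, G` of `HolOn` at `(f₁ x, g₁ x)`; `y ↦ F (f₁ y, g₁ y)` is
continuous at `x` (`F` is continuous on the open set `O`). T_CAT with `l = 𝓝[X] x`. -/
def T_RCO : Prop := ∀ (a b c d : ℕ) (X : Set (PP a b)) (f : PP a b → PP c d),
  HolOn X f → ContinuousOn f X

/-- MIX. Exchange of components is continuous. Uses T_CAT, T_CHT. PROOF. Local lifts from T_CHT at
`z.1` and at `z.2`, T_CAT. -/
def T_MIX : Prop := ∀ (a b c d : ℕ),
  Continuous fun z : PP a b × PP c d => ((z.1.1, z.2.2) : PP a d)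

/-- SLI. Slices. Uses T_CNC, T_ISB. PROOF. Let `w` represent `y`. The cone of the set is
`{z | z.2 ≠ 0} ∩ {z | (z.1, w) ∈ cone U}`. -/
def T_SLI : Prop := ∀ (a b c : ℕ) (U : Set (PP a b)) (y : Projectivization ℂ (Vec b)),
  IsOpenP U → IsOpenP {x : PP a c | (x.1, y) ∈ U}

/-- SLJ. Joining in a slice. Uses T_CNC, T_ISB. PROOF. If `A, B` join `x` and `x'` in the slice set,
and `w` represents `y`, then `A` and the constant forms `w` of degree `0` join `(x.1, y)` and
`(x'.1, y)` in `U`. -/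
def T_SLJ : Prop := ∀ (a b c p q : ℕ) (U : Set (PP a b)) (y : Projectivization ℂ (Vec b))
  (x x' : PP a c), JoinedD {z : PP a c | (z.1, y) ∈ U} p q x x' →
  JoinedD U p 0 (x.1, y) (x'.1, y)

/-- TB2. A tube lemma. PROOF. The complement is the projection to `S` of the closed set
`{(x, s) | α x = β s} ∩ Wᶜ`; `isClosedMap_snd_of_compactSpace`. -/
def T_TB2 : Prop := ∀ (X S Z : Type) [TopologicalSpace X] [TopologicalSpace S]
  [TopologicalSpace Z] [CompactSpace X] [T2Space Z] (α : X → Z) (β : S → Z) (W : Set (X × S)),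
  Continuous α → Continuous β → IsOpen W → IsOpen {s | ∀ x, α x = β s → (x, s) ∈ W}

/-- CUC. A morphism from `ℙ^1` as a continuous map on the one point compactification of `ℂ`. Uses
T_CAT, T_ISB, T_FRM. PROOF. Define `D z` and `D ∞` as the points represented by the vectors.
Continuity at `z : ℂ`: T_CAT (the embedding `ℂ → OnePoint ℂ` is open:
`OnePoint.continuousAt_coe`). At `∞`: `OnePoint.continuousAt_infty'` or
`OnePoint.tendsto_nhds_infty`: for `z → ∞` (`z ≠ 0`) the vector `vform p A 1 (1/z) =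
z^(-p) • vform p A z 1` represents the same point as `vform p A z 1` and tends to
`vform p A 1 0`. -/
def T_CUC : Prop := ∀ (a b p q : ℕ) (A : Fin (a + 1) → ℕ → ℂ) (B : Fin (b + 1) → ℕ → ℂ),
  NoZero p A → NoZero q B → ∃ D : OnePoint ℂ → PP a b, Continuous D ∧
    (∀ z : ℂ, Is (vform p A z 1) (D z).1 ∧ Is (vform q B z 1) (D z).2) ∧
    Is (vform p A 1 0) (D OnePoint.infty).1 ∧ Is (vform q B 1 0) (D OnePoint.infty).2

/-! ## Submersions -/

/-- `φ` is a submersion onto `Y`: through every point of `X` there is a local holomorphic section. -/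
def Sub {a b c d : ℕ} (X : Set (PP a b)) (Y : Set (PP c d)) (φ : PP a b → PP c d) : Prop :=
  ∀ x ∈ X, ∃ (V : Set (PP c d)) (s : PP c d → PP a b), IsOpenP V ∧ φ x ∈ V ∧ HolOn (Y ∩ V) s ∧
    (∀ y ∈ Y ∩ V, s y ∈ X ∧ φ (s y) = y) ∧ s (φ x) = x

/-- OPS. Submersions are open. Uses T_RCO. PROOF. `V` = the union of all open sets `V'` such that
`Y ∩ V' ⊆ φ '' (X ∩ U)`. For `x ∈ X ∩ U` let `s` be the section through `x` on `Y ∩ V₁`; it is
continuous within `Y ∩ V₁` at `φ x` (T_RCO) and `s (φ x) = x ∈ U`, so there is an open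
`V₂ ∋ φ x` with `s (Y ∩ V₁ ∩ V₂) ⊆ U`; `V' = V₁ ∩ V₂`. -/
def T_OPS : Prop := ∀ (a b c d : ℕ) (X : Set (PP a b)) (Y : Set (PP c d)) (φ : PP a b → PP c d),
  φ '' X = Y → Sub X Y φ →
  ∀ U : Set (PP a b), IsOpen U → ∃ V : Set (PP c d), IsOpen V ∧ φ '' (X ∩ U) = Y ∩ V

/-- RIG. Holomorphic maps constant on the fibres of a submersion factor. Uses T_ISB. PROOF. Choose
`g` with `g (φ x) = f x` for `x ∈ X` (choice; well defined). Holomorphic on `Y`: at `y = φ x` and
`(v₀, w₀)` representing `y` take the section `s` through `x` on `Y ∩ V`; `g = f ∘ s` on `Y ∩ V`,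
`V` open (`cone V` is open); compose as in T_RRC. -/
def T_RIG : Prop := ∀ (a b c d k l : ℕ) (X : Set (PP a b)) (Y : Set (PP c d))
  (φ : PP a b → PP c d) (f : PP a b → PP k l), φ '' X = Y → Sub X Y φ → HolOn X f →
  (∀ x ∈ X, ∀ x' ∈ X, φ x = φ x' → f x = f x') →
  ∃ g : PP c d → PP k l, HolOn Y g ∧ ∀ x ∈ X, f x = g (φ x)

/-! ## Types of fibres -/

/-- TYP. The second component of `j` is constant on every fibre of `φ` or on no fibre. Uses T_RCO,
T_CHT, T_PRJ, T_TB2, T_CON, T_ISB, T_CNC. PROOF. `E = {x ∈ X | ∀ x' ∈ X, φ x' = φ x →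
(j x').2 = (j x).2}`. `E` is open in `X`: let `x₀ ∈ E` and `N` the chart set of T_CHT at `j x₀` (only
the condition on the second component is needed: `i'` with nonzero coordinate of `(j x₀).2`;
`N' = {u | ∀ w, Is w u.2 → w i' ≠ 0}` is open). All `x'` in the fibre of `x₀` have `j x' ∈ N'`. By
T_TB2 (with the compact space `X`, `S = X`, `α = β = φ`) the set of the `x ∈ X` all of whose
fibre is mapped to `N'` is open. For such `x`: by T_CON the second component of `j` is constant on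
every rational curve in the fibre, so (chains) on the fibre: `x ∈ E`. `X ∖ E` is open in `X`: let
`x₁` be in the fibre of `x₀` with `(j x₁).2 ≠ (j x₀).2`. The functions `y ↦ prj (j y).2` are
continuous on `X` and different at `x₀, x₁` (T_PRJ): there are disjoint open sets, so open sets
`U₀ ∋ x₀`, `U₁ ∋ x₁` with `(j y).2 ≠ (j y').2` for `y ∈ U₀ ∩ X, y' ∈ U₁ ∩ X`. `φ '' (X ∩ U₁)
= φ '' X ∩ V`, `φ x₀ = φ x₁ ∈ V`. The points `y ∈ X ∩ U₀` with `φ y ∈ V` form a neighbourhood of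
`x₀` in `X` (T_RCO) and are not in `E`. `X` is preconnected, so `E = X` or `E = ∅`. -/
def T_TYP : Prop := ∀ (a b c d m n : ℕ) (X : Set (PP a b)) (φ : PP a b → PP c d)
  (j : PP a b → PP m n), IsCompact X → IsPreconnected X → HolOn X φ →
  (∀ U : Set (PP a b), IsOpen U → ∃ V : Set (PP c d), IsOpen V ∧ φ '' (X ∩ U) = φ '' X ∩ V) →
  (∀ x ∈ X, ∀ x' ∈ X, φ x = φ x' → ChainIn {z | z ∈ X ∧ φ z = φ x} x x') → HolOn X j →
  (∀ x ∈ X, ∀ x' ∈ X, φ x = φ x' → (j x).2 = (j x').2) ∨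
    (∀ x ∈ X, ∃ x' ∈ X, φ x' = φ x ∧ (j x').2 ≠ (j x).2)

/-- T12. If both components of `j` are nonconstant on every fibre then all points are joined. Uses
T_CHN, T_JTR, T_SYM, T_PER, T_RCO. PROOF. Let `x ∈ X`. There are `x', x''` in its fibre with
`(j x').1 ≠ (j x).1` and `(j x'').2 ≠ (j x).2`. By T_CHN (with the fibre) `j x, j x', j x''` are
joined in `U`. There is `y` with `JoinedD U p q (j x) y`, `p ≥ 1`, `q ≥ 1`: if
`(j x').2 ≠ (j x).2` take `y = j x'` (degrees: T_SYM); otherwise `(j x').2 ≠ (j x'').2`, take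
`y = j x''` and T_JTR (degree `≥ 1` in the first factor from `j x` to `j x'`, in the second from
`j x'` to `j x''`). T_PER: all points of a neighbourhood of `j x` are joined to `y`, so to `j x`
(T_JTR, T_SYM). By T_RCO the points of `X` near `x` are joined to `x` (through `j`).
`IsPreconnected.induction₂` with the relation `Joined U (j x) (j x')` (transitive T_JTR,
symmetric T_SYM). -/
def T_T12 : Prop := ∀ (a b c d m n : ℕ) (X : Set (PP a b)) (φ : PP a b → PP c d)
  (j : PP a b → PP m n) (U : Set (PP m n)), IsPreconnected X → HolOn X j → IsOpenP U →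
  j '' X ⊆ U →
  (∀ x ∈ X, ∀ x' ∈ X, φ x = φ x' → ChainIn {z | z ∈ X ∧ φ z = φ x} x x') →
  (∀ x ∈ X, ∃ x' ∈ X, φ x' = φ x ∧ (j x').1 ≠ (j x).1) →
  (∀ x ∈ X, ∃ x' ∈ X, φ x' = φ x ∧ (j x').2 ≠ (j x).2) →
  ∀ x ∈ X, ∀ x' ∈ X, Joined U (j x) (j x')

end Pool.Agent.ARC
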