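import Pool.Agent.ARC.Targets

set_option autoImplicit false

/-!
# ARC targets, part 2: bubbles and the gluing of holomorphic vectors

Every target has its proof in the docstring. Overview: `Pool/Agent/ARC/Blueprint.md`.
-/

noncomputable section

open Filter Topology

namespace Pool.Agent.ARC

/-- A vector of polynomials in one variable as a function. -/
def pv {a : ℕ} (P : Fin (a + 1) → Polynomial ℂ) (z : ℂ) : Vec a := fun i => (P i).eval z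

/-- The pairs `(u, w)` such that `O` contains the values of a vector of forms of degree `m ≥ 1` with
value `u` at `[0:1]`, paired with the fixed vector `w` (a rational curve through `[u]`, a bubble). -/
def Bub {a b : ℕ} (O : Set (Vec a × Vec b)) : Set (Vec a × Vec b) :=
  {z | ∃ (m : ℕ) (A : Fin (a + 1) → ℕ → ℂ), 1 ≤ m ∧ vform m A 0 1 = z.1 ∧
    ∀ s t : ℂ, (s, t) ≠ (0, 0) → (vform m A s t, z.2) ∈ O}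

/-- The set of the points of `U` which lie on a rational curve in `U` whose second component is
constant. -/
def Sharp {a b : ℕ} (U : Set (PP a b)) : Set (PP a b) :=
  {x | ∃ v w, Is v x.1 ∧ Is w x.2 ∧ (v, w) ∈ Bub (cone U)}

/-- Uniform bubble at `(u₀, w₀)`: degree `M`, no term of degree `1`, all small perturbations of the
terms of degree `0` and `1` and of `w₀` are allowed. -/
def BD {a b : ℕ} (O : Set (Vec a × Vec b)) (M : ℕ) (ε C : ℝ) (u₀ : Vec a) (w₀ : Vec b) : Prop :=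
  ∃ Q : ℕ → Vec a, (∀ j, ‖Q j‖ ≤ C) ∧ ∀ (u e : Vec a) (w : Vec b), ‖u - u₀‖ < ε → ‖e‖ < ε →
    ‖w - w₀‖ < ε → ∀ s t : ℂ, (s, t) ≠ (0, 0) →
    (t ^ M • u + (s * t ^ (M - 1)) • e + ∑ j ∈ Finset.Icc 2 M, (s ^ j * t ^ (M - j)) • Q j, w) ∈ O

/-- The `n`-th roots of `-1`. -/
def rts (n : ℕ) : Finset ℂ := (Finset.range n).image fun l : ℕ =>
  Complex.exp (((Real.pi * (2 * l + 1) / n : ℝ) : ℂ) * Complex.I)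

/-- BUO. Uses T_CPT, T_FRM. PROOF. Open: `m, A` at `(u₀, w₀)`, `ε` from T_CPT (with the constant
vector `w₀` as forms of degree `0`). For `‖u - u₀‖, ‖w - w₀‖ < ε` replace `A i 0` by `u i`
(this adds `t^m • (u - u₀)`, norm `< ε` on `max ‖s‖ ‖t‖ = 1`), T_CPT (2). Conic: scale the forms.
`Bub O ⊆ O`: `(s, t) = (0, 1)`. -/
def T_BUO : Prop := ∀ (a b : ℕ) (O : Set (Vec a × Vec b)), Conic O → IsOpen O →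
  IsOpen (Bub O) ∧ Conic (Bub O) ∧ Bub O ⊆ O

/-- SHO. Uses T_BUO, T_CNC, T_ISB. PROOF. `cone (Sharp U) = Bub (cone U)` because `Bub (cone U)` is
conic and contained in `cone U`. -/
def T_SHO : Prop := ∀ (a b : ℕ) (U : Set (PP a b)), IsOpenP U →
  IsOpenP (Sharp U) ∧ cone (Sharp U) = Bub (cone U) ∧ Sharp U ⊆ U

/-- SHJ. Sharp points and joined points. Uses T_CNC, T_ISB, T_FRM. PROOF. The constant vector `w` as a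
vector of forms of degree `0`; a vector of forms `B` of degree `0` is constant. -/
def T_SHJ : Prop := ∀ (a b : ℕ) (U : Set (PP a b)) (x : PP a b),
  (x ∈ Sharp U ↔ ∃ (m : ℕ) (y : PP a b), 1 ≤ m ∧ JoinedD U m 0 x y)

/-- SHN. The neighbourhood in the slice of a sharp point. Uses T_SHJ, T_PER, T_JTR, T_SYM. PROOF.
`JoinedD U m 0 x y`; T_PER gives `N`; for `x' ∈ N` with `x'.2 = x.2`: `JoinedD U m 0 x' y`, and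
`x` to `y` to `x'`. -/
def T_SHN : Prop := ∀ (a b : ℕ) (U : Set (PP a b)) (x : PP a b), IsOpenP U → x ∈ Sharp U →
  ∃ N : Set (PP a b), IsOpenP N ∧ x ∈ N ∧ ∀ x' ∈ N, x'.2 = x.2 → Joined U x x'

/-- SHP. In type 1 (second component of `j` constant on the fibres) every point of `j '' X` is sharp.
Uses T_CHN, T_SLI, T_SLJ, T_SHJ, T_SYM. PROOF. Let `x ∈ X`, `x' ≠ x` in its fibre, `y = (j x).2`.
`U' = {z | (z.1, y) ∈ U}` (T_SLI, `c = n`) contains `j '' (fibre)`. T_CHN in `U'`: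
`JoinedD U' p q (j x) (j x')`; `j x ≠ j x'` (injectivity) and the second components agree, so
`(j x).1 ≠ (j x').1` and `p ≥ 1` (T_SYM). T_SLJ and T_SHJ. -/
def T_SHP : Prop := ∀ (a b c d m n : ℕ) (X : Set (PP a b)) (φ : PP a b → PP c d)
  (j : PP a b → PP m n) (U : Set (PP m n)), HolOn X j → Set.InjOn j X → IsOpenP U →
  j '' X ⊆ U → (∀ x ∈ X, ∃ x' ∈ X, x' ≠ x ∧ φ x' = φ x) →
  (∀ x ∈ X, ∀ x' ∈ X, φ x = φ x' → ChainIn {z | z ∈ X ∧ φ z = φ x} x x') →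
  (∀ x ∈ X, ∀ x' ∈ X, φ x = φ x' → (j x).2 = (j x').2) → j '' X ⊆ Sharp U

/-- UNI. Uniform bubbles on compact sets. Uses T_CPT, T_FRM. PROOF. Let `z₀ = (u₀, w₀) ∈ K`, `m, A` as
in `Bub`, `ε₀` from T_CPT (constant `w₀`). For every `l ≥ 1` put `M = 2 l m`,
`Q (2 l k) = (A i k)_i` for `1 ≤ k ≤ m`, all other `Q j = 0`. Then
`t^M u₀ + ∑ s^j t^(M-j) Q j = vform m A (s^(2l)) (t^(2l))`, and `max ‖s‖ ‖t‖ = 1` implies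
`max ‖s^(2l)‖ ‖t^(2l)‖ = 1`. The perturbations `t^M (u - u₀) + s t^(M-1) e` have norm
`< 2 ε₀/2`: with `ε = ε₀/2` all members with `max ‖s‖ ‖t‖ = 1` are in `O`; for the other
`(s, t)` use homogeneity of degree `M` and `Conic O`. So `BD O (2 l m) (ε₀/2) C₀ u₀ w₀` for all
`l ≥ 1` with `C₀ = ∑_k ‖(A i k)_i‖`, and `BD O (2 l m) (ε₀/4) C₀ u w` for
`‖u - u₀‖, ‖w - w₀‖ < ε₀/4`. Compactness: finitely many `z_i`, `M = 2 ∏ m_i`, `ε` the minimum,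
`C` the sum. (Empty `K`: `M = 2`, `ε = 1`.) -/
def T_UNI : Prop := ∀ (a b : ℕ) (O K : Set (Vec a × Vec b)), IsOpen O → Conic O → K ⊆ Bub O →
  IsCompact K → ∃ (M : ℕ) (ε C : ℝ), 2 ≤ M ∧ 0 < ε ∧ ∀ z ∈ K, BD O M ε C z.1 z.2

/-- BDS. Change of the base point of a uniform bubble. PROOF. (1) Multiply `Q` by `θ` (modulus 1):
`O` is conic, `‖u - θ u₀‖ = ‖θ⁻¹ u - u₀‖`. (2) the triangle inequality. (3) `s, t = 0, 1`. (4)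
`s, t = 1, 0`. -/
def T_BDS : Prop := ∀ (a b : ℕ) (O : Set (Vec a × Vec b)) (M : ℕ) (ε C : ℝ) (u₀ u₁ : Vec a)
  (w₀ w₁ : Vec b) (θ θ' : ℂ), Conic O → 2 ≤ M → 0 < ε → BD O M ε C u₀ w₀ →
  (‖θ‖ = 1 → ‖θ'‖ = 1 → BD O M ε C (θ • u₀) (θ' • w₀)) ∧
  (‖u₁ - u₀‖ ≤ ε / 2 → ‖w₁ - w₀‖ ≤ ε / 2 → BD O M (ε / 2) C u₁ w₁) ∧
  (‖u₁ - u₀‖ < ε → ‖w₁ - w₀‖ < ε → (u₁, w₁) ∈ O)

/-- ROO. The nearest `n`-th root of `-1`. PROOF. `rts n` consists of `n` elements of modulus 1 with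
`ω ^ n = -1`, and contains every solution (`card = n`, or: `x = exp (i θ)`, `n θ = π + 2 π l'`,
reduce `l'` mod `n`). Let `ω` be a nearest element (`Finset.exists_min_image`). For `x ≠ 0` put
`α = Complex.log (-x^n) / n`, `ω₀ = x * exp (-α)`: `ω₀^n = x^n / (-x^n) = -1`, and
`‖x - ω‖ ≤ ‖x - ω₀‖ = ‖exp α - 1‖` (`‖ω₀‖ = 1`). `α = log ‖x‖ + i β`, `|β| ≤ π / n`, so
`ω₀ = (x / ‖x‖) exp (-iβ)` and `‖x - ω₀‖ ≤ |‖x‖ - 1| + ‖1 - exp (-iβ)‖ ≤ |‖x‖ - 1| + π/n`.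
Case A: `‖1 + x^n‖ < 1/2`: `‖log (-x^n)‖ ≤ (3/2) ‖1 + x^n‖` (`Complex.norm_log_one_add_half_le_self`
with `-x^n = 1 + (-(1 + x^n))`), `‖exp α - 1‖ ≤ 2 ‖α‖` (`‖α‖ ≤ 1`), so
`n ‖x - ω‖ ≤ 3 ‖1 + x^n‖`, both inequalities follow. Case B: `‖1 + x^n‖ ≥ 1/2`. If
`r = ‖x‖ ≤ 1`: `n ‖x - ω‖ r^n ≤ n (1 - r) r^n + π ≤ 1 + π ≤ 9 ‖1 + x^n‖`, where
`n (1 - r) r^n ≤ 1` because `r^(-n) ≥ 1 + n (1/r - 1) ≥ n (1 - r)` (Bernoulli). If `r ≥ 1`: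
`‖1 + x^n‖ ≥ r^n - 1 ≥ n (r - 1)`, so `n ‖x - ω‖ ≤ n (r - 1) + π ≤ (1 + 2 π) ‖1 + x^n‖`. For
`x = 0`: `‖x - ω‖ = 1`, `0^n = 0`. -/
def T_ROO : Prop := ∀ n : ℕ, 1 ≤ n →
  (∀ ω : ℂ, ω ∈ rts n ↔ ω ^ n = -1) ∧ (rts n).card ≤ n ∧ (∀ ω ∈ rts n, ‖ω‖ = 1) ∧
  ∀ x : ℂ, ∃ ω ∈ rts n, (∀ ω' ∈ rts n, ‖x - ω‖ ≤ ‖x - ω'‖) ∧
    ‖x - ω‖ ≤ |‖x‖ - 1| + 4 / n ∧
    (‖x‖ ≤ 1 → n * ‖x - ω‖ * ‖x‖ ^ n ≤ 9 * ‖1 + x ^ n‖) ∧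
    (1 ≤ ‖x‖ → n * ‖x - ω‖ ≤ 9 * ‖1 + x ^ n‖)

/-- SUM. The other roots are far in the mean. PROOF. `‖x - ω'‖ ≥ ‖ω - ω'‖ / 2` since
`‖ω - ω'‖ ≤ ‖x - ω‖ + ‖x - ω'‖ ≤ 2 ‖x - ω'‖`. For `ω = ω_m`, `ω' = ω_l` (indices in
`range n`): `‖ω_l - ω_m‖ = 2 |sin (π (l - m) / n)| ≥ 4 min (|l-m|, n - |l-m|) / n` (Jordan:
`Real.mul_le_sin`). So the sum is at most `∑_(l ≠ m) 1 / (4 min(..)^2)
≤ (1/4) ∑_(l ≠ m) (1/|l-m|^2 + 1/(n-|l-m|)^2) ≤ (1/4) (4 + 4) = 2`, using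
`∑_(k=1)^n 1/k^2 ≤ 2`. -/
def T_SUM : Prop := ∀ (n : ℕ) (x ω : ℂ), 1 ≤ n → ω ∈ rts n →
  (∀ ω' ∈ rts n, ‖x - ω‖ ≤ ‖x - ω'‖) →
  ∑ ω' ∈ (rts n).erase ω, (1 / (n * ‖x - ω'‖)) ^ 2 ≤ 2

/-- COR. The gluing across the unit circle. Uses T_ROO, T_SUM. PROOF. Replace `C` by `max C 1`. Choose
`0 < κ ≤ 1/2` with `2 M C κ^2 ≤ ε / 4` and `η = min (ε / 8) (κ ε / 40)`. For `ω` with `‖ω‖ = 1`
let `Q^ω` be the data of `BD` at `(L ω, W ω)`. For `n ≥ J`, `n > deg P` put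
`g_ω(x) = (κ ω / n) ∑_(i < n) x^i ω^(n-1-i)`, a polynomial in `x` with `(x - ω) g_ω(x) =
(κ ω / n) (1 + x^n)` for `ω ∈ rts n`; `g_ω(ω) = -κ`, `g_ω(ω') = 0` for the other roots. Put
`P'(x) = (1 + x^n)^(M-1) (P(x) + x^(n-J) G(x)) + ∑_(ω ∈ rts n) ∑_(j = 2)^M
(1 + x^n)^(M-j) g_ω(x)^j Q^ω_j`. For `1 + x^n ≠ 0` and `ξ_ω = κ ω / (n (x - ω))`, for `x ≠ 0`,
`P'(x) / (1 + x^n)^M = P(x) χ₁ + L(x) χ₂ + ∑_ω Q^ω(ξ_ω)`, `χ₁ = 1/(1 + x^n)`,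
`χ₂ = x^n/(1 + x^n)`, `Q^ω(ξ) = ∑_j ξ^j Q^ω_j`, `‖Q^ω(ξ)‖ ≤ M C ‖ξ‖^2` for `‖ξ‖ ≤ 1`.
Annulus: `δ₀` such that (for all `δ ≤ δ₀`) for `‖x‖ ∈ [1-2δ, 1+2δ]`: `‖P(x) - L(x)‖ ≤ 2 η`, and
`‖L(x) - L(y)‖ ≤ ε/4`, `‖W(x) - W(y)‖ < ε` when moreover `‖y‖ = 1`, `‖x - y‖ ≤ 2 δ`
(compactness). Let `4/n ≤ δ`, `‖x‖ ∈ [1-δ, 1+δ]`, `ω` the nearest root: `‖x - ω‖ ≤ 2 δ`. If
`x` is a root then `x = ω` and `P'(x) = (-κ)^M Q^ω_M`, `(Q^ω_M, W x) ∈ O` (take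
`(s, t) = (1, 0)` in BD). Otherwise, if `‖x‖ ≤ 1`: `P'/(1+x^n)^M = u + ξ_ω e + Q^ω(ξ_ω)`
with `u = P(x) + ∑_(ω' ≠ ω) Q^ω'(ξ_ω')`, `‖u - L(ω)‖ ≤ 2 η + ε/4 + 2 M C κ^2 < ε` (T_SUM;
`‖ξ_ω'‖ ≤ 2 κ ≤ 1`), `e = (L - P)(x) χ₂ / ξ_ω`, `‖e‖ ≤ 2 η n ‖x - ω‖ ‖x‖^n / (κ ‖1 + x^n‖)
≤ 18 η / κ < ε` (T_ROO). If `‖x‖ ≥ 1`: `u = L(x) + ∑..`, `e = (P - L)(x) χ₁ / ξ_ω`. So BD at
`ω` with `(s, t) = (ξ_ω, 1)`. Inside, `‖x‖ ≤ 1 - δ`: `(L - P) χ₂ → 0` uniformly (`‖x^n L(x)‖ =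
‖x^(n-J) G(x)‖`), `‖ξ_ω‖ ≤ κ/(n δ)`, so `‖∑_ω Q^ω(ξ_ω)‖ ≤ n M C (κ/(n δ))^2 → 0`. Outside,
`‖x‖ ≥ 1 + δ`: the same for `ξ_ω`, and `‖(P - L)(x) χ₁(x)‖ ≤ const ‖x‖^(D' - n) → 0` uniformly,
`D'` the maximum of `D` and the degrees of `P`. Degrees: `(1+x^n)^(M-1) P` has degree
`≤ n (M-1) + deg P < n M + D`; `(1+x^n)^(M-1) x^(n-J) G` has degree `≤ n M + D` and its coefficient
at `n M + D` is that of `G` at `J + D`; the others have degree `≤ n (M-j) + (n-1) j = n M - j`. -/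
def T_COR : Prop := ∀ (a b : ℕ) (O : Set (Vec a × Vec b)) (M : ℕ) (ε C : ℝ), Conic O → 2 ≤ M →
  0 < ε → ∃ η : ℝ, 0 < η ∧ ∀ (W : ℂ → Vec b) (L : ℂ → Vec a) (J D : ℕ)
  (G P : Fin (a + 1) → Polynomial ℂ), Continuous W → (∀ x : ℂ, x ≠ 0 → x ^ J • L x = pv G x) →
  (∀ i, (G i).natDegree ≤ J + D) → (∀ x : ℂ, ‖x‖ = 1 → BD O M ε C (L x) (W x)) →
  (∀ x : ℂ, ‖x‖ = 1 → ‖pv P x - L x‖ ≤ η) →
  ∃ δ₀ : ℝ, 0 < δ₀ ∧ δ₀ < 1 ∧ ∀ δ : ℝ, 0 < δ → δ ≤ δ₀ → ∀ ε' : ℝ, 0 < ε' →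
  ∃ n₀ : ℕ, ∀ n ≥ n₀, ∃ P' : Fin (a + 1) → Polynomial ℂ,
    (∀ x : ℂ, 1 - δ ≤ ‖x‖ → ‖x‖ ≤ 1 + δ → (pv P' x, W x) ∈ O) ∧
    (∀ x : ℂ, ‖x‖ ≤ 1 - δ →
      ‖pv P' x - (1 + x ^ n) ^ M • pv P x‖ ≤ ε' * ‖(1 + x ^ n) ^ M‖) ∧
    (∀ x : ℂ, 1 + δ ≤ ‖x‖ → ‖pv P' x - (1 + x ^ n) ^ M • L x‖ ≤ ε' * ‖(1 + x ^ n) ^ M‖) ∧
    (∀ i, (P' i).natDegree ≤ n * M + D) ∧
    ∀ i, (P' i).coeff (n * M + D) = (G i).coeff (J + D)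

/-- GST. One gluing step. Uses T_COR, T_BDS. PROOF. `η` from T_COR, with `D` the maximum of the
degrees of the `G i`. Choose `δ ≤ min δ₀ (R₁ - 1)`. The compact sets
`{(P x, W x) | ‖x‖ ≤ 1}`, `{(L x, W x) | 1 ≤ ‖x‖ ≤ R₁}` are contained in `O` (`L` is continuous
for `x ≠ 0`): there is `ε₁ > 0` such that their `ε₁`-neighbourhoods are contained in `O`
(`IsCompact.exists_thickening_subset_open`). T_COR with small `ε'` and large `n`: for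
`‖x‖ ≤ 1 - δ` the vector `P'(x)/(1+x^n)^M` is `ε₁`-close to `P(x)` and `1 + x^n ≠ 0`; for
`1 + δ ≤ ‖x‖ ≤ R₁` it is close to `L(x)`; `O` is conic. At `0`: `1 + 0^n = 1`. At `‖x‖ = R₁`,
with `k = n M`: `‖P'(x) - x^k L(x)‖ ≤ ‖P'(x) - (1+x^n)^M L(x)‖ + ‖(1+x^n)^M - x^(nM)‖ ‖L(x)‖`,
and divided by `‖x‖^k` this is at most `ε'' (1 + R₁^(-n))^M + ((1 + R₁^(-n))^M - 1) sup ‖L‖`,
arbitrarily small. -/
def T_GST : Prop := ∀ (a b : ℕ) (O : Set (Vec a × Vec b)) (M : ℕ) (ε C : ℝ), IsOpen O →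
  Conic O → 2 ≤ M → 0 < ε → ∃ η : ℝ, 0 < η ∧ ∀ (W : ℂ → Vec b) (L : ℂ → Vec a) (J : ℕ)
  (G P : Fin (a + 1) → Polynomial ℂ), Continuous W → (∀ x : ℂ, x ≠ 0 → x ^ J • L x = pv G x) →
  (∀ x : ℂ, ‖x‖ = 1 → BD O M ε C (L x) (W x)) →
  (∀ x : ℂ, ‖x‖ ≤ 1 → (pv P x, W x) ∈ O) → (∀ x : ℂ, ‖x‖ = 1 → ‖pv P x - L x‖ ≤ η) →
  ∀ R₁ : ℝ, 1 < R₁ → (∀ x : ℂ, 1 ≤ ‖x‖ → ‖x‖ ≤ R₁ → (L x, W x) ∈ O) → ∀ ε' : ℝ, 0 < ε' →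
  ∃ (k : ℕ) (P' : Fin (a + 1) → Polynomial ℂ),
    (∀ x : ℂ, ‖x‖ ≤ R₁ → (pv P' x, W x) ∈ O) ∧ ‖pv P' 0 - pv P 0‖ ≤ ε' ∧
    ∀ x : ℂ, ‖x‖ = R₁ → ‖pv P' x - x ^ k • L x‖ ≤ ε' * ‖x‖ ^ k

/-- INF. The last gluing step, with a holomorphic vector up to infinity. Uses T_COR, T_BDS, T_FRM,
T_CPT. PROOF. `η` from T_COR. `W x = vform q B x 1`, `L x = x^k₀ • vform p₂ A₂ x 1`, `J = |k₀|`,
`G = X^(J + k₀) * (∑_k A₂ i k X^k)`, of degree `≤ J + k₀ + p₂ = J + D`. T_COR gives `δ = δ₀`, `n`, `P'`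
(with small `ε''`), `natDegree ≤ N = n M + D`: `A' i k = (P' i).coeff k`, degree `N`, so
`vform N A' x 1 = pv P' x` and `vform N A' 1 0 = coeff N = (G i).coeff (J + D) = A₂ i p₂ =
vform p₂ A₂ 1 0`. `(s, t)` with `t ≠ 0`: `x = s/t`, by homogeneity it is enough that
`(pv P' x, vform q B x 1) ∈ O`. For `‖x‖ ≤ 1 - δ`: `P'(x)/(1+x^n)^M` is close to `P(x)`, and the
compact set `{(P x, W x) | ‖x‖ ≤ 1}` is contained in `O`. Annulus: T_COR. `‖x‖ ≥ 1 + δ`: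
`L(x) = x^D vform p₂ A₂ 1 (1/x)`, `W x = x^q vform q B 1 (1/x)`, so
`P'(x) / ((1+x^n)^M x^D)` is `ε''`-close to `vform p₂ A₂ 1 (1/x)` (`‖x‖^D ≥ 1`), and the compact
set `{(vform p₂ A₂ 1 y, vform q B 1 y) | ‖y‖ ≤ 1}` is contained in `O`. `t = 0`: hypothesis at
`(1, 0)`. Value at `(0, 1)`: `P'(0)`, `1 + 0^n = 1`. -/
def T_INF : Prop := ∀ (a b : ℕ) (O : Set (Vec a × Vec b)) (M : ℕ) (ε C : ℝ), IsOpen O →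
  Conic O → 2 ≤ M → 0 < ε → ∃ η : ℝ, 0 < η ∧ ∀ (q : ℕ) (B : Fin (b + 1) → ℕ → ℂ) (p₂ : ℕ)
  (A₂ : Fin (a + 1) → ℕ → ℂ) (k₀ : ℤ) (D : ℕ) (P : Fin (a + 1) → Polynomial ℂ),
  (D : ℤ) = k₀ + p₂ →
  (∀ s t : ℂ, ‖t‖ ≤ ‖s‖ → s ≠ 0 → (vform p₂ A₂ s t, vform q B s t) ∈ O) →
  (∀ x : ℂ, ‖x‖ = 1 → BD O M ε C (x ^ k₀ • vform p₂ A₂ x 1) (vform q B x 1)) →
  (∀ x : ℂ, ‖x‖ ≤ 1 → (pv P x, vform q B x 1) ∈ O) →
  (∀ x : ℂ, ‖x‖ = 1 → ‖pv P x - x ^ k₀ • vform p₂ A₂ x 1‖ ≤ η) → ∀ ε' : ℝ, 0 < ε' →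
  ∃ (p' : ℕ) (A' : Fin (a + 1) → ℕ → ℂ),
    (∀ s t : ℂ, (s, t) ≠ (0, 0) → (vform p' A' s t, vform q B s t) ∈ O) ∧
    ‖vform p' A' 0 1 - pv P 0‖ ≤ ε' ∧ vform p' A' 1 0 = vform p₂ A₂ 1 0

/-- APX. Polynomials in `z` and its conjugate are dense. PROOF. Componentwise. The set `s` = closed
ball is compact, `ContinuousMap.elemental_id_eq_top s`: the closure of the star subalgebra generated
by the identity is everything. The functions `∑_(i, j < J) c i j z^i conj(z)^j` form a star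
subalgebra (induction `StarAlgebra.adjoin_induction` or closure under sums, products, conjugates,
scalars) which contains the identity. -/
def T_APX : Prop := ∀ (a : ℕ) (R : ℝ) (σ : ℂ → Vec a), Continuous σ → ∀ ε : ℝ, 0 < ε →
  ∃ (J : ℕ) (c : ℕ → ℕ → Vec a), ∀ z : ℂ, ‖z‖ ≤ R →
    ‖σ z - ∑ i ∈ Finset.range J, ∑ j ∈ Finset.range J,
      (z ^ i * (starRingEnd ℂ) z ^ j) • c i j‖ ≤ ε

/-- CHA. Approximation of a continuous family on a disc. Uses T_BUO, T_UNI, T_BDS, T_GST, T_APX.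
PROOF. `K₀ = {(σ z, w z) | ‖z‖ ≤ R}` is compact in the open set `Bub O` (T_BUO); let
`K ⊆ Bub O` be a compact closed `ρ₀`-neighbourhood of `K₀`, `M, ε₂, C` from T_UNI for `K`, `η` from
T_GST, `η₁ = min η ε / 2`, and `ε₁ ≤ ρ₀/4, η₁/4` such that `‖v - σ 0‖ ≤ ε₁` implies `v ∈ O₀`.
T_APX: `p(z) = ∑ z^i conj(z)^j c_ij`, `‖σ - p‖ ≤ ε₁` on `‖z‖ ≤ R`. For `r > 0` put
`L_r(z) = ∑_(i,j) r^(2j) z^i z^(-j) c_ij`, so `L_r(z) = p(z)` if `‖z‖ = r`, and `z^J L_r(z)` is a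
polynomial vector. Let `0 < r₀ < R` with `‖p(z) - p(0)‖ ≤ ε₁` for `‖z‖ ≤ r₀`. `(r, z) ↦ L_r(z)`
is uniformly continuous on `r₀ ≤ r, ‖z‖ ≤ R`: `δ₀ > 0` with `‖L_r(z) - L_r'(z)‖ ≤ ε₁` for
`|r - r'| ≤ δ₀`. Radii `r_l = r₀ + l (R - r₀)/m`, step `≤ δ₀`. Claim S(l): there are `k` and `P`
with `(P z, w z) ∈ O` for `‖z‖ ≤ r_l`, `P 0 ∈ O₀`, `‖P z - z^k L_(r_l) z‖ ≤ η₁ ‖z‖^k` for
`‖z‖ = r_l`. S(0): `P` the constant `p(0)`, `k = 0`; `‖p(0) - σ(z)‖ ≤ 2 ε₁` for `‖z‖ ≤ r₀`, so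
`(p(0), w z) ∈ K ⊆ O`. Step: `r = r_l`, `r' = r_(l+1)`; T_GST for `W x = w (r x)`,
`L x = x^k L_r'(r x)`, `P̃ x = r^(-k) P(r x)`, `R₁ = r'/r`. On `‖x‖ = 1`:
`‖L_r'(r x) - σ(r x)‖ ≤ 2 ε₁`, so `(L_r'(r x), w(r x)) ∈ K`, T_UNI and T_BDS (1) (factor `x^k` of
modulus 1); `‖P̃ x - L x‖ ≤ η₁ + ε₁ ≤ η`. For `1 ≤ ‖x‖ ≤ R₁`, `z = r x`:
`‖L_r'(z) - L_‖z‖(z)‖ ≤ ε₁`, so `(L_r' z, w z) ∈ K ⊆ O`. T_GST with small `ε'` gives `k'`, `P̃'`;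
`P'(z) = r^(k+k') P̃'(z/r)`: values in `O` for `‖z‖ ≤ r'`; `P̃(0) ∈ O₀` (scaling), `P̃'(0)` is
close to it, so `P'(0) ∈ O₀`; for `‖z‖ = r'`: `‖P' z - z^(k+k') L_r' z‖ ≤ r^(k+k') ε' ‖z/r‖^k'
= ε' r^k ‖z‖^k' ≤ η₁ ‖z‖^(k+k')`. At `l = m`: `L_R(z) = p(z)` on `‖z‖ = R`, and
`η₁ + ε₁ ≤ ε`. -/
def T_CHA : Prop := ∀ (a b : ℕ) (O : Set (Vec a × Vec b)), IsOpen O → Conic O →
  ∀ (R : ℝ) (σ : ℂ → Vec a) (w : ℂ → Vec b), 0 < R → Continuous σ → Continuous w →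
  (∀ z : ℂ, ‖z‖ ≤ R → (σ z, w z) ∈ Bub O) → ∀ O₀ : Set (Vec a), IsOpen O₀ →
  (∀ (c : ℂ) (v : Vec a), c ≠ 0 → v ∈ O₀ → c • v ∈ O₀) → σ 0 ∈ O₀ → ∀ ε : ℝ, 0 < ε →
  ∃ (k : ℕ) (P : Fin (a + 1) → Polynomial ℂ), (∀ z : ℂ, ‖z‖ ≤ R → (pv P z, w z) ∈ O) ∧
    pv P 0 ∈ O₀ ∧ ∀ z : ℂ, ‖z‖ = R → ‖pv P z - z ^ k • σ z‖ ≤ ε * ‖z‖ ^ k

/-- LFT. Lift of a continuous map on a disc. Uses T_PRJ, T_ISB. PROOF. For `x : PP a b` let `Π x` be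
the matrix `prj x.1`, continuous in `x` (T_PRJ), `Π x u = (⟨v, u⟩ / |v|^2) v` for a representative
`v` of `x.1`. The function `T(z, z') = ∑_(i,k) prj (τ z).1 i k * prj (τ z').1 k i =
|⟨v, v'⟩|^2 / (|v|^2 |v'|^2)` is continuous on `ℂ × ℂ` and equals `1` for `z = z'`. Uniform
continuity on the compact set `‖z‖, ‖z'‖ ≤ R`: `δ > 0` with `T(z, z') ≠ 0` for
`‖z - z'‖ ≤ δ`. Let `K ≥ 1`, `R / K ≤ δ`, `f₀ z = v₀` a representative of `(τ 0).1`,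
`f_(k+1) z = Π (τ ((k+1) z / K)) (f_k z)`. By induction `f_k` is continuous and `f_k z` represents
`(τ (k z / K)).1` for `‖z‖ ≤ R` (nonzero because the two lines are not orthogonal). `f = f_K`. -/
def T_LFT : Prop := ∀ (a b : ℕ) (τ : ℂ → PP a b) (R : ℝ), Continuous τ →
  ∃ f : ℂ → Vec a, Continuous f ∧ ∀ z : ℂ, ‖z‖ ≤ R → Is (f z) (τ z).1

/-- LOG. Winding number and logarithm on a circle. PROOF. `t ↦ θ (R exp (i t))` is a continuous map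
from `ℝ` to `ℂ ∖ 0`; lift it through `Complex.exp` (`Complex.isCoveringMapOn_exp`,
`IsCoveringMapOn.existsUnique_continuousMap_lifts` or the lemma of
`Mathlib/Analysis/Complex/BranchLogRoot.lean`, `ℝ` is simply connected and locally path
connected): `Λ : ℝ → ℂ` continuous, `exp (Λ t) = θ (R exp (i t))`. `(Λ (t + 2π) - Λ t) / (2 π i)`
is an integer and continuous, so constant `= d`. `λ t = Λ t - i d t` is continuous and `2π`-periodic,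
so it is `λ' ∘ coe` with `λ' : Real.Angle → ℂ` continuous (`Function.Periodic.lift`).
`μ z = (‖z‖ / R) * λ' (arg z)`, continuous at `z ≠ 0` by `Complex.continuousAt_arg_coe_angle`, and
at `0` because `λ'` is bounded (compactness of `Real.Angle` or of `[-π, π]`). For `‖z‖ = R`,
`z = R exp (i t)`: `(z/R)^d exp (μ z) = exp (i d t + λ t) = θ z`. -/
def T_LOG : Prop := ∀ (θ : ℂ → ℂ) (R : ℝ), 0 < R → Continuous θ → (∀ z : ℂ, ‖z‖ = R → θ z ≠ 0) →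
  ∃ (d : ℤ) (μ : ℂ → ℂ), Continuous μ ∧
    ∀ z : ℂ, ‖z‖ = R → θ z = (z / R) ^ d * Complex.exp (μ z)

/-- HPR. The h-principle: a continuous map from the sphere to `U` whose second component is a
morphism and which passes through sharp points only can be replaced by a morphism. Uses T_ISB, T_CNC,
T_FRM, T_CPT, T_CHT, T_SHO, T_SHN, T_SYM, T_JTR, T_UNI, T_BDS, T_INF, T_CHA, T_LFT, T_LOG. PROOF.
`O = cone U`, `w z = vform q B z 1`, `w∞ = vform q B 1 0`.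
(1) At `∞`: chart of T_CHT at `τ ∞`, `i, N, f₁`; `v∞ = f₁ (τ ∞)`. `(v∞, w∞) ∈ Bub O` (T_SHO):
`m ≥ 1` and `A∞` with `vform m A∞ 0 1 = v∞`, `(vform m A∞ s t, w∞) ∈ O`. T_CPT: `ε₃ > 0` with
`(vform m A∞ s t, w) ∈ O` for `‖w - w∞‖ < ε₃`, `max ‖s‖ ‖t‖ = 1`, so for all `(s, t) ≠ 0`.
T_UNI for `K = {(v∞, w∞)}`: `M, ε, C`; T_INF for `M, ε/2, C`: `η`.
(2) `R > 0` such that for `‖z‖ ≥ R`: `τ z ∈ N`, `‖f₁ (τ z) - v∞‖ ≤ η/4`, and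
`‖vform q B 1 (1/z) - w∞‖ < min (ε/2) ε₃` (continuity at `∞`, `OnePoint`).
(3) T_LFT: `f` continuous, `f z` represents `(τ z).1` for `‖z‖ ≤ R`. `θ z = f z i` is nonzero
on `‖z‖ = R` and there `f z = θ z • f₁ (τ z)` (`f₁ .. i = 1`). T_LOG: `d, μ`.
`σ z = exp (-μ z) • f z`: continuous, represents `(τ z).1` for `‖z‖ ≤ R`, and on `‖z‖ = R` it is
`(z/R)^d • f₁ (τ z)`. So `(σ z, w z) ∈ Bub O` for `‖z‖ ≤ R` (T_SHO).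
(4) `N₀` from T_SHN at `τ 0`; `O₀ = {v | (v, w 0) ∈ cone N₀}`, open and conic, `σ 0 ∈ O₀`. T_CHA
(with `ε := η/4`): `k, P`. Put `P̃ x = R^(-k) P(R x)`: on `‖x‖ = 1`:
`‖P̃ x - x^(k+d) v∞‖ ≤ η/4 + η/4`.
(5) `l ≥ 1` with `l m ≥ |d|`; `p₂ = l m`; `A₂` the coefficients of `vform m A∞ ((s/R₂)^l) (t^l)`
(`A₂ i (l k) = A∞ i k / R₂^(l k)`, the others zero), `R₂ ≥ 1` so large that
`‖vform p₂ A₂ x 1 - v∞‖ ≤ min (η/4) (ε/2)` for `‖x‖ = 1`. `k₀ = k + d`, `D = k + d + p₂ ≥ 0`.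
`B' i j = B i j * R^(-(q-j))` for `j ≤ q`: `vform q B' s t = vform q B s (t/R)`. Hypotheses of
T_INF (with `B'`): for `‖t‖ ≤ ‖s‖`: `vform q B' s t = s^q vform q B 1 (t/(sR))` and
`‖vform q B 1 (t/(sR)) - w∞‖ < ε₃` (`1/z = t/(sR)`, or `t = 0`), `O` conic. BD on the circle:
`vform q B' x 1 = x^q vform q B 1 (1/(R x))`, T_BDS (2), then (1) with `θ = x^k₀`, `θ' = x^q`.
`(P̃ x, vform q B' x 1) ∈ O` for `‖x‖ ≤ 1` (scaling of `(P(Rx), w(Rx))`). Distance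
`≤ 3 η/4`. T_INF gives `p', A'` with `vform p' A' 0 1` close to `P̃ 0 ∈ O₀`, so in `O₀`.
(6) `A'' i j = A' i j R^(p'-j)`: `vform p' A'' s t = vform p' A' s (R t)`, and
`vform q B' s (R t) = vform q B s t`. So `A'', B` join the point `u₀ = ([A''(0,1)], (τ 0).2)` of
`N₀` and the point `u∞ = ([A∞(1,0)], (τ ∞).2)` in `U`. `Joined U (τ 0) u₀` (T_SHN), and `A∞` with
the constant `w∞` joins `τ ∞` to `u∞`. T_JTR, T_SYM. -/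
def T_HPR : Prop := ∀ (a b : ℕ) (U : Set (PP a b)) (τ : OnePoint ℂ → PP a b), IsOpenP U →
  Continuous τ → (∀ t, τ t ∈ Sharp U) → ∀ (q : ℕ) (B : Fin (b + 1) → ℕ → ℂ),
  (∀ z : ℂ, Is (vform q B z 1) (τ z).2) → Is (vform q B 1 0) (τ OnePoint.infty).2 →
  Joined U (τ ((0 : ℂ) : OnePoint ℂ)) (τ OnePoint.infty)

end Pool.Agent.ARC
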