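import Pool.Agent.ARC.Targets2

set_option autoImplicit false

/-!
# ARC targets, part 3: approximate lifting of maps of the sphere, and the theorems

Every target has its proof in the docstring. Overview: `Pool/Agent/ARC/Blueprint.md`.
-/

noncomputable section

open Filter Topology

namespace Pool.Agent.ARC

/-- FIL. Filling a square in a simply connected space. PROOF. The paths `α = l.trans t` and
`β = b.trans r` from `p00` to `p11` are homotopic (`SimplyConnectedSpace.paths_homotopic`): `H`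
continuous on the square, `H (0, τ) = α τ`, `H (1, τ) = β τ`, `H (s, 0) = p00`, `H (s, 1) = p11`.
Put `u = x + y`, `m = min u (2 - u)`, `F (x, y) = H ((x - y + m) / (2 m), u / 2)` if `m ≠ 0`, and
`p00`, `p11` at the corners `(0, 0)`, `(1, 1)`. On the left side `x = 0`: `m = y`, `F = α (y/2) =
l y`; on the top `y = 1`: `u = 1 + x`, `m = 1 - x = -(x - y)`, `F = α ((1 + x)/2) = t x`; on the
bottom and on the right `(x - y + m)/(2 m) = 1` and `F = β (u/2)`. Continuity at the corner `(0,0)`: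
for an open `V ∋ p00` the tube lemma gives `τ₀ > 0` with `H (s, τ) ∈ V` for all `s` and `τ < τ₀`. -/
def T_FIL : Prop := ∀ (S : Type) [TopologicalSpace S] [SimplyConnectedSpace S]
  (p00 p10 p01 p11 : S) (b : Path p00 p10) (t : Path p01 p11) (l : Path p00 p01)
  (r : Path p10 p11), ∃ F : unitInterval × unitInterval → S, Continuous F ∧
  (∀ x, F (x, 0) = b x) ∧ (∀ x, F (x, 1) = t x) ∧ (∀ y, F (0, y) = l y) ∧ ∀ y, F (1, y) = r y

/-- GRD. A map of the plane from a grid. PROOF. Cells `c_(i,j) = [i h, (i+1) h] × [j h, (j+1) h]`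
(real and imaginary part), `F_(i,j)` the continuous maps of the unit square. Put
`σ z = F_(i,j) (x/h - i, y/h - j)` with `i = ⌊x/h⌋`, `j = ⌊y/h⌋` (`z = x + i y`). By the
compatibility on the common edges `σ = F_(i,j) (x/h - i, y/h - j)` on the whole closed cell, so `σ` is
continuous on every closed cell, and the cells are a locally finite closed cover
(`LocallyFinite.continuous`). -/
def T_GRD : Prop := ∀ (S : Type) [TopologicalSpace S] (h : ℝ), 0 < h →
  ∀ F : ℤ → ℤ → unitInterval × unitInterval → S, (∀ i j, Continuous (F i j)) →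
  (∀ i j x, F i (j + 1) (x, 0) = F i j (x, 1)) → (∀ i j y, F (i + 1) j (0, y) = F i j (1, y)) →
  ∃ σ : ℂ → S, Continuous σ ∧ ∀ (i j : ℤ) (x y : unitInterval),
    σ (((i + x) * h : ℝ) + ((j + y) * h : ℝ) * Complex.I) = F i j (x, y)

/-- LIF. Approximate lifting of maps of the sphere. Uses T_FIL, T_GRD. PROOF. `R = range q`,
compact. (a) For every `e ∈ R` choose `N_e` for `ε₀/8`. Lebesgue number `λ₂ > 0`: for every
`e ∈ R` there is `e'` with `ball e λ₂ ∩ R ⊆ N_e'` (compactness of `R`). (b) For every `e ∈ R`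
choose `N¹_e` for `λ₂/8`, Lebesgue number `λ₁ > 0`, `λ₁ ≤ λ₂/8`, `λ₁ ≤ ε₀/8`. `δ = λ₁/8`. Let
`D` be given; `K, h` with `dist (D z) (D ∞) < λ₁/8` for `‖z‖ ≥ (K - 1) h` and
`dist (D z) (D z') < λ₁/8` for `‖z - z'‖ ≤ 2 h`, `‖z‖ ≤ 2 (K + 2) h` (uniform continuity).
Vertices `z_(i,j) = h (i + j I)`: `x_(i,j) = x₂` if `max |i| |j| ≥ K` (outer), `x₁` if `i = j = 0`,
otherwise a point with `dist (q x_(i,j)) (D z_(i,j)) < δ`. In all cases this distance is
`< λ₁/8`. Edges: neighbouring vertices have `dist (q x) (q x') < λ₁`, both are in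
`ball (q x) λ₁ ∩ R ⊆ N¹_e'`: choose a path from `x` to `x'` in the path connected space
`{x // q x ∈ N¹_e'}`; between outer vertices the constant path. On it `dist (q p) (q x) < λ₂/4`.
Faces: all points `p` of the four edges satisfy `dist (q p) (q x_(i,j)) < λ₂`, so they are in
`N_e'`: T_FIL in `{x // q x ∈ N_e'}`; the constant map if the four vertices are outer. On the face
`dist (q p) (q x_(i,j)) < ε₀/4`, so `dist (q p) (D z) < ε₀/4 + λ₁/8 + λ₁/8 < ε₀`. T_GRD gives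
`σ` on `ℂ`; `σ z = x₂` for `‖z‖` large, so with `σ ∞ = x₂` it is continuous on `OnePoint ℂ`
(`OnePoint.continuous_iff` or `OnePoint.continuousAt_infty'`). -/
def T_LIF : Prop := ∀ (X E : Type) [TopologicalSpace X] [CompactSpace X] [MetricSpace E]
  (q : X → E), Continuous q →
  (∀ x₀ : X, ∀ ε : ℝ, 0 < ε → ∃ N ∈ 𝓝[Set.range q] (q x₀), N ⊆ Metric.ball (q x₀) ε ∧
    SimplyConnectedSpace {x : X // q x ∈ N}) → ∀ ε₀ : ℝ, 0 < ε₀ → ∃ δ : ℝ, 0 < δ ∧
  ∀ (D : OnePoint ℂ → E) (x₁ x₂ : X), Continuous D → (∀ t, ∃ x, dist (q x) (D t) < δ) →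
    D ((0 : ℂ) : OnePoint ℂ) = q x₁ → D OnePoint.infty = q x₂ →
    ∃ σ : OnePoint ℂ → X, Continuous σ ∧ σ ((0 : ℂ) : OnePoint ℂ) = x₁ ∧
      σ OnePoint.infty = x₂ ∧ ∀ t, dist (q (σ t)) (D t) < ε₀

/-- SCQ. The hypothesis of T_LIF from the simply connected preimages of neighbourhoods in `Y`. PROOF. By
continuity there is an open `N ∋ φ x₀` with `dist (θ y) (θ (φ x₀)) < ε` for `y ∈ Y ∩ N`. The
hypothesis gives `N' ⊆ N`. The set `θ '' (Y ∩ N')` has the preimage `{x | φ x ∈ N'}` (injectivity).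
It is a neighbourhood of `θ (φ x₀)` in `range = θ '' Y`: the set `θ '' (Y ∖ N')` is compact (`Y` is
compact, `N'` open), so closed, and does not contain `θ (φ x₀)`. -/
def T_SCQ : Prop := ∀ (a b c d : ℕ) (X : Set (PP a b)) (Y : Set (PP c d)) (φ : PP a b → PP c d)
  (E : Type) [MetricSpace E] (θ : PP c d → E), IsCompact X → ContinuousOn φ X → φ '' X = Y →
  ContinuousOn θ Y → Set.InjOn θ Y →
  (∀ y ∈ Y, ∀ N : Set (PP c d), IsOpen N → y ∈ N → ∃ N' ⊆ N, IsOpen N' ∧ y ∈ N' ∧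
    SimplyConnectedSpace {x : X // φ x ∈ N'}) →
  ∀ x₀ : X, ∀ ε : ℝ, 0 < ε → ∃ N ∈ 𝓝[Set.range fun x : X => θ (φ x)] (θ (φ x₀)),
    N ⊆ Metric.ball (θ (φ x₀)) ε ∧ SimplyConnectedSpace {x : X // θ (φ x) ∈ N}

/-- MET. Uses T_PRJ. PROOF. The pair of the projection matrices, as one vector (`Fintype.equivFin`). -/
def T_MET : Prop := ∀ (a b : ℕ), ∃ (k : ℕ) (θ : PP a b → (Fin k → ℂ)), Continuous θ ∧
  Function.Injective θ

/-- TY1. Type 1: the second component of `j` is constant on the fibres. Uses T_ISB, T_CNC, T_FRM, T_FST,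
T_SEG, T_RCO, T_MIX, T_PRJ, T_COM, T_MET, T_CUC, T_NRM, T_CHN, T_SYM, T_JRC, T_SHO, T_SHP, T_HPR,
T_LIF, T_SCQ. PROOF. Let `U` be open, `j '' X ⊆ U`, `x₁, x₂ ∈ X`, `j x₁ ≠ j x₂`.
(1) T_FST for `j`, and the hypothesis on factorisation: `g` holomorphic on `Y` with
`(g (φ x)).2 = (j x).2`. T_SEG: `e : PP c d → PP M n` embeds `Y`, `(e (φ x)).2 = (j x).2`.
(2) `S = Sharp U` is open and contains `j '' X` (T_SHO, T_SHP).
(3) `θ` from T_MET for `PP M n`. There is `ε₀ > 0` such that for `x ∈ X`, `v : PP M n`,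
`dist (θ (e (φ x))) (θ v) < ε₀` implies `((j x).1, v.2) ∈ S`: the set of the pairs `(x, v)` in the
compact space `X × PP M n` with `((j x).1, v.2) ∉ S` is closed (T_MIX, T_RCO), and the distance is
positive on it (distance `0` means `v = e (φ x)`, and then `((j x).1, v.2) = j x ∈ S`).
(4) T_LIF for `q x = θ (e (φ x))` on `X` (T_SCQ, with `θ ∘ e` in the place of `θ`): `δ`.
`V = {v | ∃ y ∈ Y, dist (θ (e y)) (θ v) < δ}` is open and contains `e '' Y`.
(5) `y_i = φ x_i`. If `y₁ = y₂`: T_CHN in the fibre (T_RRC for the restriction), T_JRC. Otherwise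
`e y₁ ≠ e y₂`, and the naive property of `e '' Y` (`Strong Y`) gives a rational curve in `V` through
both; T_NRM: forms `A₀, B` of degrees `p₀, q` with values in `cone V`, `(0,1) ↦ e y₁`,
`(1,0) ↦ e y₂`. T_CUC: `D` continuous on `OnePoint ℂ`, with `D t ∈ V`, `D 0 = e y₁`,
`D ∞ = e y₂`. T_LIF for `θ ∘ D`: `σ` with values in `X`, `σ 0 = x₁`, `σ ∞ = x₂`.
(6) `τ t = ((j (σ t)).1, (D t).2)` is continuous (T_MIX, T_RCO) with values in `S` by (3), and
`τ 0 = ((j x₁).1, (e y₁).2) = j x₁`, `τ ∞ = j x₂`. T_HPR, T_JRC. -/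
def T_TY1 : Prop := ∀ (a b c d m n : ℕ) (X : Set (PP a b)) (Y : Set (PP c d))
  (φ : PP a b → PP c d) (j : PP a b → PP m n), IsCompact X → HolOn X φ → φ '' X = Y →
  (∀ x ∈ X, ∃ x' ∈ X, x' ≠ x ∧ φ x' = φ x) →
  (∀ x ∈ X, ∀ x' ∈ X, φ x = φ x' → ChainIn {z | z ∈ X ∧ φ z = φ x} x x') →
  (∀ (k l : ℕ) (f : PP a b → PP k l), HolOn X f →
    (∀ x ∈ X, ∀ x' ∈ X, φ x = φ x' → f x = f x') →
    ∃ g : PP c d → PP k l, HolOn Y g ∧ ∀ x ∈ X, f x = g (φ x)) →
  (∀ y ∈ Y, ∀ N : Set (PP c d), IsOpen N → y ∈ N → ∃ N' ⊆ N, IsOpen N' ∧ y ∈ N' ∧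
    SimplyConnectedSpace {x : X // φ x ∈ N'}) →
  IsEmb X j → (∀ x ∈ X, ∀ x' ∈ X, φ x = φ x' → (j x).2 = (j x').2) → Strong Y →
  Naive (j '' X)

/-- MAI. The main theorem for open maps with the factorisation property. Uses T_TYP, T_T12, T_TY1,
T_SWP, T_JRC. PROOF. Let `j` be an embedding. T_TYP for `j` and for `swap ∘ j`. If the second
component is constant on the fibres: T_TY1. If the first component is constant on the fibres: T_TY1
for `swap ∘ j` and T_SWP. Otherwise both are nonconstant on every fibre: T_T12 and T_JRC. -/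
def T_MAI : Prop := ∀ (a b c d : ℕ) (X : Set (PP a b)) (Y : Set (PP c d))
  (φ : PP a b → PP c d), IsCompact X → IsPreconnected X → HolOn X φ → φ '' X = Y →
  (∀ U : Set (PP a b), IsOpen U → ∃ V : Set (PP c d), IsOpen V ∧ φ '' (X ∩ U) = Y ∩ V) →
  (∀ (k l : ℕ) (f : PP a b → PP k l), HolOn X f →
    (∀ x ∈ X, ∀ x' ∈ X, φ x = φ x' → f x = f x') →
    ∃ g : PP c d → PP k l, HolOn Y g ∧ ∀ x ∈ X, f x = g (φ x)) →
  (∀ x ∈ X, ∃ x' ∈ X, x' ≠ x ∧ φ x' = φ x) →
  (∀ x ∈ X, ∀ x' ∈ X, φ x = φ x' → ChainIn {z | z ∈ X ∧ φ z = φ x} x x') →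
  (∀ y ∈ Y, ∀ N : Set (PP c d), IsOpen N → y ∈ N → ∃ N' ⊆ N, IsOpen N' ∧ y ∈ N' ∧
    SimplyConnectedSpace {x : X // φ x ∈ N'}) →
  Strong Y → Strong X

/-- SMO. The main theorem for submersions (smooth morphisms). Uses T_MAI, T_OPS, T_RIG. -/
def T_SMO : Prop := ∀ (a b c d : ℕ) (X : Set (PP a b)) (Y : Set (PP c d))
  (φ : PP a b → PP c d), IsCompact X → IsPreconnected X → HolOn X φ → φ '' X = Y → Sub X Y φ →
  (∀ x ∈ X, ∃ x' ∈ X, x' ≠ x ∧ φ x' = φ x) →
  (∀ x ∈ X, ∀ x' ∈ X, φ x = φ x' → ChainIn {z | z ∈ X ∧ φ z = φ x} x x') →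
  (∀ y ∈ Y, ∀ N : Set (PP c d), IsOpen N → y ∈ N → ∃ N' ⊆ N, IsOpen N' ∧ y ∈ N' ∧
    SimplyConnectedSpace {x : X // φ x ∈ N'}) →
  Strong Y → Strong X

/-- EMB. Embeddings compose. Uses T_RRC. PROOF. The inverse of `j ∘ s` on `j (s Z)` is
`s⁻¹ ∘ j⁻¹`; holomorphic on the image by T_RRC. -/
def T_EMB : Prop := ∀ (a b c d e k : ℕ) (Z : Set (PP e k)) (X : Set (PP a b))
  (s : PP e k → PP a b) (j : PP a b → PP c d), IsEmb Z s → IsEmb X j → s '' Z ⊆ X →
  IsEmb Z (j ∘ s)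

/-- FIN. The case of a strongly connected multisection (no hypothesis on `φ` besides the chains).
Uses T_EMB, T_JTR, T_SYM, T_JRC, T_CHN, T_JCU, T_ISB. PROOF. Let `j` be an embedding of `X`, `U` open
with `j '' X ⊆ U`, and `x, y` in `X`, `j x ≠ j y`. There is `z ∈ Z` with `φ (s z) = φ x` and the
chain in the fibre from `x` to `s z` gives `Joined U (j x) (j (s z))` (T_CHN). In the same way for
`y` and `z'`. `j ∘ s` is an embedding of `Z` (T_EMB) and `Z` is strongly connected: if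
`j (s z) ≠ j (s z')` there is a rational curve in `U` through both, and T_JCU for the identity map
(holomorphic) of `ℙ^c × ℙ^d` with `X := U` gives `Joined U (j (s z)) (j (s z'))`. T_JTR, T_JRC. -/
def T_FIN : Prop := ∀ (a b c d e k : ℕ) (X : Set (PP a b)) (Y : Set (PP c d)) (Z : Set (PP e k))
  (φ : PP a b → PP c d) (s : PP e k → PP a b), HolOn X φ → φ '' X = Y →
  (∀ x ∈ X, ∀ x' ∈ X, φ x = φ x' → ChainIn {z | z ∈ X ∧ φ z = φ x} x x') →
  IsEmb Z s → s '' Z ⊆ X → φ '' (s '' Z) = Y → Strong Z → Strong X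

end Pool.Agent.ARC
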