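import Pool.Agent.ARC.Targets3

set_option autoImplicit false

/-!
# ARC targets, part 4: the general form of the main theorem
-/

noncomputable section

open Filter Topology

namespace Pool.Agent.ARC

/-- The rigidity property: every holomorphic map from `X` to a product of two projective spaces
which is constant on one fibre of `φ` is the composition of `φ` and a holomorphic map on `Y`. -/
def Rigid {a b c d : ℕ} (X : Set (PP a b)) (Y : Set (PP c d)) (φ : PP a b → PP c d) : Prop :=
  ∀ (k l : ℕ) (f : PP a b → PP k l), HolOn X f → ∀ x₀ ∈ X,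
    (∀ x ∈ X, φ x = φ x₀ → f x = f x₀) →
    ∃ g : PP c d → PP k l, HolOn Y g ∧ ∀ x ∈ X, f x = g (φ x)

/-- RGS. Submersions are rigid. Uses T_TYP, T_OPS, T_RIG, T_SWP. PROOF. `φ` is open (T_OPS). T_TYP for
`f` and for `swap ∘ f`: if `f` is constant on one fibre, then both components are constant on every
fibre. T_RIG. -/
def T_RGS : Prop := ∀ (a b c d : ℕ) (X : Set (PP a b)) (Y : Set (PP c d))
  (φ : PP a b → PP c d), IsCompact X → IsPreconnected X → HolOn X φ → φ '' X = Y → Sub X Y φ →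
  (∀ x ∈ X, ∀ x' ∈ X, φ x = φ x' → ChainIn {z | z ∈ X ∧ φ z = φ x} x x') → Rigid X Y φ

/-- GEN. The main theorem, rational version. Uses T_RGS, T_T12, T_TY1, T_SWP, T_JRC. PROOF. Let `j` be
an embedding. If the second component of `j` is constant on one fibre then it is constant on all
fibres (rigidity for the map `x ↦ (pt, (j x).2)` to `ℙ^0 × ℙ^n`): T_TY1. The same for the first
component (T_SWP). Otherwise T_T12 and T_JRC. -/
def T_GEN : Prop := ∀ (a b c d : ℕ) (X : Set (PP a b)) (Y : Set (PP c d))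
  (φ : PP a b → PP c d), IsCompact X → IsPreconnected X → HolOn X φ → φ '' X = Y →
  (Sub X Y φ ∨ Rigid X Y φ) → (∀ x ∈ X, ∃ x' ∈ X, x' ≠ x ∧ φ x' = φ x) →
  (∀ x ∈ X, ∀ x' ∈ X, φ x = φ x' → ChainIn {z | z ∈ X ∧ φ z = φ x} x x') →
  (∀ y ∈ Y, ∀ N : Set (PP c d), IsOpen N → y ∈ N → ∃ N' ⊆ N, IsOpen N' ∧ y ∈ N' ∧
    SimplyConnectedSpace {x : X // φ x ∈ N'}) →
  Strong Y → Strong X

end Pool.Agent.ARC
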