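import Pool.Agent.ARC.Targets4

set_option autoImplicit false

/-!
# ARC targets, part 5: the elliptic version

Every target has its proof in the docstring. The new point is the h-principle for maps from a
complex torus: `T_TOR` (gluing on a torus with a Poincaré series), `T_HP1`, `T_HPT`.
-/

noncomputable section

open Filter Topology

namespace Pool.Agent.ARC

/-- `f : ℂ → ℙ^a × ℙ^b` is holomorphic: near every point it is given, in homogeneous coordinates, by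
two vectors of holomorphic functions. -/
def HolC {a b : ℕ} (f : ℂ → PP a b) : Prop :=
  ∀ z₀ : ℂ, ∃ (N : Set ℂ) (F : ℂ → Vec a) (G : ℂ → Vec b), IsOpen N ∧ z₀ ∈ N ∧
    DifferentiableOn ℂ F N ∧ DifferentiableOn ℂ G N ∧
    ∀ z ∈ N, Is (F z) (f z).1 ∧ Is (G z) (f z).2

/-- Elliptic curves in `ℙ^a × ℙ^b`: images of nonconstant holomorphic maps from a complex torus
`ℂ / (ℤ + ℤ τ)`. -/
def EllCurve {a b : ℕ} (C : Set (PP a b)) : Prop :=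
  ∃ (τ : ℂ) (f : ℂ → PP a b), 0 < τ.im ∧ HolC f ∧ (∀ z, f (z + 1) = f z) ∧
    (∀ z, f (z + τ) = f z) ∧ C = Set.range f ∧ C.Nontrivial

/-- `x` and `y` are joined by a chain of elliptic curves inside `U`. -/
def ChainE {a b : ℕ} (U : Set (PP a b)) (x y : PP a b) : Prop :=
  Relation.ReflTransGen (fun u v => ∃ C, EllCurve C ∧ C ⊆ U ∧ u ∈ C ∧ v ∈ C) x y

/-- Approximate elliptic connectedness in the naive sense: every Euclidean neighbourhood of `X`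
contains a chain of elliptic curves joining any two given points of `X`. -/
def NaiveE {a b : ℕ} (X : Set (PP a b)) : Prop :=
  ∀ U : Set (PP a b), IsOpenP U → X ⊆ U → ∀ x ∈ X, ∀ y ∈ X, ChainE U x y

/-- Approximate elliptic connectedness in the strong sense: the naive property for every
embedding in a product of two projective spaces. -/
def StrongE {a b : ℕ} (X : Set (PP a b)) : Prop :=
  ∀ (c d : ℕ) (j : PP a b → PP c d), IsEmb X j → NaiveE (j '' X)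

/-! ## Elementary facts -/

/-- HCC. Holomorphic maps are continuous. Uses T_CAT. PROOF. `F, G` are continuous at `z₀`. -/
def T_HCC : Prop := ∀ (a b : ℕ) (f : ℂ → PP a b), HolC f → Continuous f

/-- CHE. Chains: symmetric, transitive, monotone. -/
def T_CHE : Prop := ∀ (a b : ℕ) (U : Set (PP a b)),
  (∀ x y, ChainE U x y → ChainE U y x) ∧
  (∀ x y z, ChainE U x y → ChainE U y z → ChainE U x z) ∧
  (∀ (V : Set (PP a b)) (x y : PP a b), U ⊆ V → ChainE U x y → ChainE V x y)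

/-- SWN. Exchange of the two factors. Uses T_SWP. PROOF. As in T_SWP: for `U ⊇ j '' X` use the
swapped set; if `f` is holomorphic then `z ↦ (f z).swap` is holomorphic, with the same periods and
with the swapped image. -/
def T_SWN : Prop := ∀ (a b c d : ℕ) (X : Set (PP a b)) (j : PP a b → PP c d),
  NaiveE ((fun x => (j x).swap) '' X) → NaiveE (j '' X)

/-- RTE. Points joined by a rational curve are joined by an elliptic curve. Uses T_ISB, T_CNC,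
T_FRM. PROOF. `x = y`: reflexivity. Let `A, B` (degrees `p, q`) join `x` and `y`. Take the
`PeriodPair` with periods `1` and `I` (`Mathlib/Analysis/SpecialFunctions/Elliptic/Weierstrass`),
`z₀ = 1/2` (not in the lattice, `ω₁_div_two_notMem_lattice`), `c = ℘ z₀`. Let `f z` be the point
represented by `(vform p A (℘ z - c) 1, vform q B (℘ z - c) 1)` for `z` outside the lattice, and by
`(vform p A 1 0, vform q B 1 0)` (that is, `y`) for `z` in the lattice. Outside the lattice (an open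
set) `℘` is differentiable. Near a lattice point `l`: `g z = (z - l)^2 (℘ z - c)` agrees for
`z ≠ l` with `1 + (z - l)^2 (℘[L - l] z - c')`, differentiable near `l` with value `1` at `l`
(`weierstrassPExcept_add` or `weierstrassPExcept_def`); and `vform p A (g z) ((z - l)^2) =
(z - l)^(2p) • vform p A (℘ z - c) 1` (T_FRM) for `z ≠ l`; at `z = l` it is `vform p A 1 0`. Periods
`1`, `I` (`weierstrassP_add_coe`). `f (1/2) = x`, `f 0 = y`. The range is in `U` (T_CNC), and it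
is nontrivial since `x ≠ y`. -/
def T_RTE : Prop := ∀ (a b : ℕ) (U : Set (PP a b)) (x y : PP a b), Joined U x y → ChainE U x y

/-- PAS. A path in a slice which consists of sharp points. Uses T_SHN, T_JTR, T_SYM. PROOF. The
relation `Joined U (γ s) (γ s')` is an equivalence relation (T_SYM, T_JTR), and every `s` has a
neighbourhood of equivalent `s'` (T_SHN, continuity, the second components are equal). The unit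
interval is connected (`IsPreconnected.induction₂`). -/
def T_PAS : Prop := ∀ (a b : ℕ) (U : Set (PP a b)) (γ : unitInterval → PP a b), IsOpenP U →
  Continuous γ → (∀ s, γ s ∈ Sharp U) → (∀ s, (γ s).2 = (γ 0).2) → Joined U (γ 0) (γ 1)

/-- NOD. Nearby points of the base are joined by short paths upstairs. PROOF. `R = range q`,
compact. For every `e ∈ R` choose `N_e` for `ε₀/4`. Lebesgue number `δ > 0`: for every `e ∈ R`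
there is `e'` with `ball e δ ∩ R ⊆ N_e'`. For `dist (q x) (q x') < δ` both points `x, x'` are in the
path connected space `{x // q x ∈ N_e'}`. On the path `dist (q (γ s)) (q x) < ε₀/2`. -/
def T_NOD : Prop := ∀ (X E : Type) [TopologicalSpace X] [CompactSpace X] [MetricSpace E]
  (q : X → E), Continuous q →
  (∀ x₀ : X, ∀ ε : ℝ, 0 < ε → ∃ N ∈ 𝓝[Set.range q] (q x₀), N ⊆ Metric.ball (q x₀) ε ∧
    SimplyConnectedSpace {x : X // q x ∈ N}) → ∀ ε₀ : ℝ, 0 < ε₀ → ∃ δ : ℝ, 0 < δ ∧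
  ∀ x x' : X, dist (q x) (q x') < δ → ∃ γ : Path x x', ∀ s, dist (q (γ s)) (q x) < ε₀

/-- LIT. Approximate lifting of maps of a torus. Uses T_FIL, T_GRD. PROOF. As T_LIF, with doubly
periodic data. (a), (b) as in T_LIF: `N_e` for `ε₀/8`, Lebesgue number `λ₂`; `N¹_e` for `λ₂/8`,
Lebesgue number `λ₁ ≤ λ₂/8, ε₀/8`; `δ = λ₁/8`. Put `D' (x + y I) = D (x + y τ)` (`x, y` real),
continuous with periods `1` and `I`, so uniformly continuous: `K ≥ 1` such that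
`dist (D' z) (D' z') < λ₁/8` for `‖z - z'‖ ≤ 2/K`. `h = 1/K`. For `0 ≤ i, j < K` choose `x_(i,j)`
with `dist (q x_(i,j)) (D' ((i + j I) h)) < δ` and extend with period `K` in `i` and in `j`; the
paths on the edges and the fillings of the faces (T_FIL) are chosen for `0 ≤ i, j < K` and extended
periodically (use `i % K`, `j % K`). T_GRD gives `σ'`, with periods `1` and `I` by the formula
(every `z` is `((i + x) h) + ((j + y) h) I`). `σ z = σ' (ℓ z)` with the real linear map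
`ℓ (x + y τ) = x + y I`, `y = im z / im τ`, `x = re z - y re τ`. -/
def T_LIT : Prop := ∀ (X E : Type) [TopologicalSpace X] [CompactSpace X] [MetricSpace E]
  (q : X → E), Continuous q →
  (∀ x₀ : X, ∀ ε : ℝ, 0 < ε → ∃ N ∈ 𝓝[Set.range q] (q x₀), N ⊆ Metric.ball (q x₀) ε ∧
    SimplyConnectedSpace {x : X // q x ∈ N}) → ∀ ε₀ : ℝ, 0 < ε₀ → ∃ δ : ℝ, 0 < δ ∧
  ∀ (τ : ℂ) (D : ℂ → E), 0 < τ.im → Continuous D → (∀ z, D (z + 1) = D z) →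
    (∀ z, D (z + τ) = D z) → (∀ t, ∃ x, dist (q x) (D t) < δ) →
    ∃ σ : ℂ → X, Continuous σ ∧ (∀ z, σ (z + 1) = σ z) ∧ (∀ z, σ (z + τ) = σ z) ∧
      ∀ t, dist (q (σ t)) (D t) < ε₀

/-- DES. A continuous function with period `1` as a function of `w = exp (2 π i z)`. PROOF.
`g w = f (Complex.log w / (2 π I))`. Continuous at `w₀ ≠ 0` in the slit plane; at `w₀ < 0` use
`g w = f ((Complex.log (-w) + π I) / (2 π I))` near `w₀` (periodicity: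
`exp (2 π I z) = exp (2 π I z')` implies `z - z' ∈ ℤ`, `Complex.exp_eq_exp_iff_exists_int`). -/
def T_DES : Prop := ∀ (S : Type) [TopologicalSpace S] (f : ℂ → S), Continuous f →
  (∀ z, f (z + 1) = f z) → ∃ g : ℂ → S, ContinuousOn g {w | w ≠ 0} ∧
    ∀ z, g (Complex.exp (2 * Real.pi * Complex.I * z)) = f z

/-- EXT. Continuous extension to the origin. PROOF. `w' z = min 1 (‖z‖ / r) • w (max ‖z‖ r / ‖z‖ *
z)`; continuous at `z ≠ 0`, and at `0` because `w` is bounded on the circle `‖z‖ = r`. -/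
def T_EXT : Prop := ∀ (b : ℕ) (w : ℂ → Vec b) (r : ℝ), 0 < r → ContinuousOn w {z | z ≠ 0} →
  ∃ w' : ℂ → Vec b, Continuous w' ∧ ∀ z, r ≤ ‖z‖ → w' z = w z

/-- MTX. The second component as a point of a vector space. Uses T_PRJ, T_CNC, T_ISB, T_SHO. PROOF.
`n + 1 = (b + 1) (b + 1)`, `E : Fin (n + 1) ≃ Fin (b + 1) × Fin (b + 1)` (`Fintype.equivOfCardEq`).
`Φ y k = prj y (E k).1 (E k).2`, and `O` = the set of the `(v, u)` such that for some `l` the pair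
`(v, (u (E.symm (i, l)))_i)` is in `cone U`: open and conic. If `w` represents `y`, the column `l`
of `prj y` is `(conj (w l) / |w|^2) • w`; it is zero or represents `y`, and for some `l` it is not
zero. So `(v, Φ y) ∈ O ↔ (v, w) ∈ cone U` (T_CNC). The same equivalence for the values of a form
shows `(v, Φ y) ∈ Bub O ↔ (v, w) ∈ Bub (cone U) = cone (Sharp U)` (T_SHO). -/
def T_MTX : Prop := ∀ (a b : ℕ) (U : Set (PP a b)), IsOpenP U →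
  ∃ (n : ℕ) (O : Set (Vec a × Vec n)) (Φ : Projectivization ℂ (Vec b) → Vec n),
    IsOpen O ∧ Conic O ∧ (Continuous fun x : PP a b => Φ x.2) ∧
    (∀ v y, (v, Φ y) ∈ O ↔ ∃ x ∈ U, Is v x.1 ∧ x.2 = y) ∧
    ∀ v y, (v, Φ y) ∈ Bub O ↔ ∃ x ∈ Sharp U, Is v x.1 ∧ x.2 = y

/-! ## Lifts on an annulus -/

/-- LFA. Lift of a continuous map on an annulus. Uses T_LFT, T_LOG, T_ISB. PROOF. Put
`τ z = g (exp (2 π I z))`, continuous on `ℂ`. T_LFT on a large disc: `f` continuous with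
`Is (f z) (τ z).1` for `‖z‖ ≤ R'`, `R'` so large that the disc contains all `z = x + I y` with
`-1 ≤ x ≤ 2`, `y₁ ≤ y ≤ y₂`, where `exp (- 2 π y₂) = R₀`, `exp (- 2 π y₁) = R`. For
`y₁ ≤ y ≤ y₂`: `f (1 + I y) = θ y • f (I y)` with `θ y ≠ 0` continuous
(`θ y = ⟨f (I y), f (1 + I y)⟩ / |f (I y)|^2`). A continuous logarithm: `θ y = exp (l y)`,
`l` continuous on `[y₁, y₂]` (T_LOG for the function of `z`, `‖z‖ = 1`, given by `θ` at the affine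
function of `re z` which maps `[-1, 1]` to `[y₁, y₂]`; on the upper half circle
`z = exp (I t)`, `t = arccos (re z)`, so `z^d exp (μ z) = exp (I d t + μ z)`). For `0 ≤ x ≤ 1`:
`F (x + I y) = exp (- x l y) • f (x + I y)`, so `F (1 + I y) = F (I y)`; for `w` in the annulus
`σ₀ w = F (x + I y)` with `w = exp (2 π I (x + I y))`, `0 ≤ x < 1`: continuous (the map
`[0,1] × [y₁,y₂] → annulus` is a closed surjective map, so a quotient map, `IsQuotientMap`). Finally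
`σ w = min 1 (‖w‖/R₀) • σ₀ (the point of the annulus on the same ray with modulus
max R₀ (min ‖w‖ R))`. -/
def T_LFA : Prop := ∀ (a b : ℕ) (g : ℂ → PP a b) (R₀ R : ℝ), 0 < R₀ → R₀ < R →
  ContinuousOn g {w | w ≠ 0} →
  ∃ σ : ℂ → Vec a, Continuous σ ∧ ∀ w, R₀ ≤ ‖w‖ → ‖w‖ ≤ R → Is (σ w) (g w).1

/-- CLO. The closing condition. Uses T_LFA, T_LOG, T_ISB. PROOF. `R = 1 / ‖q‖`, T_LFA with
`R₀ = 1`: `σ₁`. For `‖w‖ = R` the vectors `σ₁ w` and `σ₁ (q w)` represent the same point: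
`σ₁ (q w) = θ w • σ₁ w`, `θ w = ⟨σ₁ w, σ₁ (q w)⟩ / |σ₁ w|^2 ≠ 0` continuous on the circle (for
T_LOG extend `θ` to `ℂ` by `θ w = t ⟨..⟩/|..|^2` at the point of the circle on the same ray,
`t = min 1 ‖w‖`, or by `z ↦ θ (R z / ‖z‖) * (‖z‖/R)`). T_LOG: `θ w = (w / R)^d * exp (μ w)` for
`‖w‖ = R`. Put `ψ w = 1` for `‖w‖ ≤ 1`, `ψ w = 0` for `‖w‖ ≥ R`, continuous, and
`σ w = exp (- ψ w * μ (R (w / ‖w‖) (‖q‖ / q))) • σ₁ w` for `‖w‖ ≥ 1`, extended continuously to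
`‖w‖ < 1` (T_EXT does it). For `‖w‖ = R`: `σ w = σ₁ w`, `‖q w‖ = 1` and the argument of `μ` at
`q w` is `R (q w) (‖q‖ / q) = w`, so `σ (q w) = exp (- μ w) θ w • σ₁ w = (w / R)^d • σ w`. -/
def T_CLO : Prop := ∀ (a b : ℕ) (g : ℂ → PP a b) (q : ℂ), 0 < ‖q‖ → ‖q‖ < 1 →
  ContinuousOn g {w | w ≠ 0} → (∀ w, w ≠ 0 → g (q * w) = g w) →
  ∃ (d : ℤ) (σ : ℂ → Vec a), Continuous σ ∧
    (∀ w, 1 ≤ ‖w‖ → ‖q‖ * ‖w‖ ≤ 1 → Is (σ w) (g w).1) ∧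
    ∀ w, ‖q‖ * ‖w‖ = 1 → σ (q * w) = ((‖q‖ : ℂ) * w) ^ d • σ w

/-! ## Gluing on a torus -/

/-- PSR. A Poincaré series. PROOF. For `k ∈ ℤ` put
`a_k(x) = c₀^k q^(D k (k-1)/2) x^(D k) • F (q^k x)`, so `a_0 = F`, `a_1 = (c₀ x^D) • F (q x)` and
`a_(k+1)(x) = (c₀ x^D) • a_k(q x)`. `R = ∑_(k ≥ 2) a_k + ∑_(k ≤ -1) a_k`. Let
`‖q‖ (1 + δ) ≤ ‖x‖`, `‖q‖ ‖x‖ ≤ 1 - δ`. For `k ≥ 2`: `‖q^k x‖ ≤ ‖q‖ (1 - δ)`, and for
`k = -m ≤ -1`: `‖q^k x‖ ≥ 1 + δ`. So `‖F (q^k x)‖ ≤ K`; the coefficients are at most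
`‖c₀‖^k ‖q‖^(D k (k-3)/2)` for `k ≥ 2` (`‖x‖ ≤ 1/‖q‖`) and `‖c₀‖^(-m) ‖q‖^(D m (m-1)/2)` for
`k = -m` (`‖x‖ ≥ ‖q‖`), summable; `S` is the sum of both series. Locally uniform convergence:
`R` is differentiable on the open annulus (`differentiableOn_tsum_of_summable_norm` on the smaller
annuli; `F` is differentiable at the points `q^k x`). The functional equation: both sides are
`∑_(k ∈ ℤ) a_k(x)`, shift the index. (It is convenient to use two sequences indexed by `ℕ`.) -/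
def T_PSR : Prop := ∀ (a : ℕ) (q c₀ : ℂ) (D : ℕ), 0 < ‖q‖ → ‖q‖ < 1 → c₀ ≠ 0 → 1 ≤ D →
  ∃ S : ℝ, 0 ≤ S ∧ ∀ F : ℂ → Vec a,
    DifferentiableOn ℂ F {x | x ≠ 0 ∧ ‖x‖ ≠ 1 ∧ ‖x‖ ≠ ‖q‖} →
    (∀ δ : ℝ, 0 < δ → ∃ K : ℝ, ∀ x : ℂ, x ≠ 0 → (‖x‖ ≤ ‖q‖ * (1 - δ) ∨ 1 + δ ≤ ‖x‖) →
      ‖F x‖ ≤ K) →
    ∃ R : ℂ → Vec a, DifferentiableOn ℂ R {x | ‖q‖ < ‖x‖ ∧ ‖q‖ * ‖x‖ < 1} ∧
      (∀ δ K : ℝ, 0 < δ → (∀ x : ℂ, x ≠ 0 → (‖x‖ ≤ ‖q‖ * (1 - δ) ∨ 1 + δ ≤ ‖x‖) → ‖F x‖ ≤ K) →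
        ∀ x : ℂ, ‖q‖ * (1 + δ) ≤ ‖x‖ → ‖q‖ * ‖x‖ ≤ 1 - δ → ‖R x‖ ≤ S * K) ∧
      ∀ x : ℂ, 1 < ‖x‖ → ‖q‖ * ‖x‖ < 1 →
        F x + (c₀ * x ^ D) • F (q * x) + R x = (c₀ * x ^ D) •
          (F (q * x) + (c₀ * (q * x) ^ D) • F (q * (q * x)) + R (q * x))

/-- TOR. The gluing on a torus. Uses T_PSR, T_ROO, T_SUM (and the lemmas of `P_COR.lean`, namespace
`COR_`: `gl`, `pv_gl_nonroot`, `pv_gl_root`, `far_bound`, `inside`, `outside`, `near`). PROOF.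
Replace `C` by `max C 1`; `κ ≤ 1/2` with `2 M C κ^2 ≤ ε/4`, `η = min (ε/16) (κ ε/40)`. `Q^ω` the
data of BD at `L ω`, where `L x = (c₀ x^D) • P(q x)`, a vector of polynomials `G` (`J = 0` in
`gl`). `χ(x) = 1/(1 + x^n)`, `B(x) = ∑_(ω ∈ rts n) ∑_(j=2)^M (xi κ n ω x)^j • Q^ω_j`, `F(x) = P(x)
(χ(x) - χ(x/q)) + B(x)`. T_PSR gives `S` (independent of `n`) and `R`. Put `E(x) = -P(x) χ(x/q) +
L(x) (χ(q x) - 1) + (c₀ x^D) • B(q x) + R(x)` and `H(x) = pv (gl κ n M 0 G P Q) x + (1 + x^n)^M •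
E(x)`, so, if `1 + x^n ≠ 0`, `H(x) = (1 + x^n)^M • (P χ + L (1 - χ) + B + E)(x)`, which is `(1 +
x^n)^M • (F x + (c₀ x^D) • F (q x) + R x)`. `H` is differentiable on the open annulus `‖q‖ < ‖x‖ <
1/‖q‖` (there `‖x/q‖ > 1`, `‖q x‖ < 1`). The functional equation of T_PSR gives `H x = c • H (q x)`
with `c = (1 + x^n)^M (1 + (q x)^n)^(-M) c₀ x^D`. For `n → ∞` the error `E` tends to `0` uniformly
on `‖q‖ (1 + δ) ≤ ‖x‖ ≤ (1 - δ)/‖q‖`: `‖χ(x/q)‖ ≤ 1/((1+δ)^n - 1)`, `‖χ(q x) - 1‖ ≤ 2 (1-δ)^n`,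
`B(q x)` by `far_bound`; and `‖F x‖ ≤ K_n → 0` for `‖x‖ ≤ ‖q‖ (1-δ)` (`χ(x), χ(x/q) → 1`) and for
`‖x‖ ≥ 1 + δ` (`‖P(x)‖ ≤ K ‖x‖^N`, `‖χ(x)‖, ‖χ(x/q)‖ ≤ 2 ‖x‖^(-n)`), so `‖R‖ ≤ S K_n`. Choose `δ' ≤
δ` such that for `1 - 2δ' ≤ ‖x‖ ≤ 1 + 2δ'`: `‖P x - L x‖ ≤ 2 η`, and `‖L x - L y‖ ≤ ε/8`, `‖W x - W
y‖ < ε` if `‖y‖ = 1`, `‖x - y‖ ≤ 2δ'`. Let `4/n ≤ δ'`. For `1 - δ' ≤ ‖x‖ ≤ 1 + δ'`, `x` not a root:
`near` with `p = P x + E x`, `l = L x + E x` (`χ E + (1 - χ) E = E`); `x` a root: `pv_gl_root`. For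
`‖q‖ (1+δ) ≤ ‖x‖ ≤ 1 - δ'`: `H(x)/(1+x^n)^M` is close to `P x`, compact set `{(P x, W x) | ‖q‖ ≤
‖x‖ ≤ 1} ⊆ O` (thickening), `O` conic. For `1 + δ' ≤ ‖x‖ ≤ (1-δ)/‖q‖`: it is close to `L x`, and
`(L x, W x) ∈ O` since `(P(q x), W(q x)) ∈ O`; compact set. -/
def T_TOR : Prop := ∀ (a b : ℕ) (O : Set (Vec a × Vec b)) (M : ℕ) (ε C : ℝ), IsOpen O →
  Conic O → 2 ≤ M → 0 < ε → ∃ η : ℝ, 0 < η ∧ ∀ (q c₀ : ℂ) (D : ℕ) (W : ℂ → Vec b)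
  (P : Fin (a + 1) → Polynomial ℂ), 0 < ‖q‖ → ‖q‖ < 1 → c₀ ≠ 0 → 1 ≤ D →
  ContinuousOn W {x | x ≠ 0} → (∀ x, x ≠ 0 → W (q * x) = W x) →
  (∀ x : ℂ, ‖x‖ = 1 → BD O M ε C ((c₀ * x ^ D) • pv P (q * x)) (W x)) →
  (∀ x : ℂ, ‖x‖ = 1 → ‖pv P x - (c₀ * x ^ D) • pv P (q * x)‖ ≤ η) →
  (∀ x : ℂ, ‖q‖ ≤ ‖x‖ → ‖x‖ ≤ 1 → (pv P x, W x) ∈ O) →
  ∀ δ : ℝ, 0 < δ → ‖q‖ * (1 + δ) < 1 - δ → ∀ ε' : ℝ, 0 < ε' →
  ∃ H : ℂ → Vec a, DifferentiableOn ℂ H {x | ‖q‖ < ‖x‖ ∧ ‖q‖ * ‖x‖ < 1} ∧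
    (∀ x : ℂ, ‖q‖ * (1 + δ) ≤ ‖x‖ → ‖q‖ * ‖x‖ ≤ 1 - δ → (H x, W x) ∈ O) ∧
    (∀ x : ℂ, 1 < ‖x‖ → ‖q‖ * ‖x‖ < 1 → ∃ c : ℂ, c ≠ 0 ∧ H x = c • H (q * x)) ∧
    ∀ x : ℂ, ‖q‖ * (1 + δ) ≤ ‖x‖ → ‖x‖ ≤ 1 - δ → ∃ c : ℂ, c ≠ 0 ∧ ‖c • H x - pv P x‖ ≤ ε'

/-- GSB. One gluing step on an annulus. Uses T_COR, T_BDS. PROOF. As T_GST (see `P_GST.lean`): `η`
from T_COR; `δ ≤ min δ₀ (R₁ - 1)` and `δ ≤ (1 - R₂)/2`; the compact sets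
`{(P x, W x) | R₂ ≤ ‖x‖ ≤ 1}` and `{(L x, W x) | 1 ≤ ‖x‖ ≤ R₁}` are contained in `O`, thickening
`ε₁`; T_COR with small `ε'` and `n ≥ K`. For `‖x‖ ≤ R₂`: `‖P' x - P x‖ ≤
ε'' (1 + R₂^n)^M + ((1 + R₂^n)^M - 1) sup ‖P‖`. `k = n M ≥ K`. -/
def T_GSB : Prop := ∀ (a b : ℕ) (O : Set (Vec a × Vec b)) (M : ℕ) (ε C : ℝ), IsOpen O →
  Conic O → 2 ≤ M → 0 < ε → ∃ η : ℝ, 0 < η ∧ ∀ (W : ℂ → Vec b) (L : ℂ → Vec a) (J : ℕ)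
  (G P : Fin (a + 1) → Polynomial ℂ), Continuous W → (∀ x : ℂ, x ≠ 0 → x ^ J • L x = pv G x) →
  (∀ x : ℂ, ‖x‖ = 1 → BD O M ε C (L x) (W x)) → ∀ R₂ : ℝ, 0 < R₂ → R₂ < 1 →
  (∀ x : ℂ, R₂ ≤ ‖x‖ → ‖x‖ ≤ 1 → (pv P x, W x) ∈ O) →
  (∀ x : ℂ, ‖x‖ = 1 → ‖pv P x - L x‖ ≤ η) →
  ∀ R₁ : ℝ, 1 < R₁ → (∀ x : ℂ, 1 ≤ ‖x‖ → ‖x‖ ≤ R₁ → (L x, W x) ∈ O) → ∀ ε' : ℝ, 0 < ε' →
  ∀ K : ℕ, ∃ (k : ℕ) (P' : Fin (a + 1) → Polynomial ℂ), K ≤ k ∧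
    (∀ x : ℂ, R₂ ≤ ‖x‖ → ‖x‖ ≤ R₁ → (pv P' x, W x) ∈ O) ∧
    (∀ x : ℂ, ‖x‖ ≤ R₂ → ‖pv P' x - pv P x‖ ≤ ε') ∧
    ∀ x : ℂ, ‖x‖ = R₁ → ‖pv P' x - x ^ k • L x‖ ≤ ε' * ‖x‖ ^ k

/-- CHB. Approximation of a continuous family on an annulus. Uses T_BUO, T_UNI, T_BDS, T_GSB, T_APX.
PROOF. As T_CHA (see `P_CHA.lean`). `K₀ = {(σ z, w z) | R₀ ≤ ‖z‖ ≤ R}` is compact in `Bub O`, `K` a
compact closed `ρ₀`-neighbourhood in `Bub O`, `M, ε₂, C` from T_UNI, `η` from T_GSB,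
`η₁ = min η ε / 2`, `ε₁ ≤ ρ₀/4, η₁/4, ε/4`. T_APX on `‖z‖ ≤ R`: `p(z) = ∑ z^i conj(z)^j c_ij`,
`‖σ - p‖ ≤ ε₁`; `L_r(z) = ∑ r^(2j) z^i z^(-j) c_ij`, and `J` such that `z^J L_r(z)` is a
polynomial. `δ₀` with `‖L_r(z) - L_r'(z)‖ ≤ ε₁` for `|r - r'| ≤ δ₀`, `R₀ ≤ ‖z‖ ≤ R`,
`r, r' ∈ [R₀, R]`. Radii `r_l = R₀ + l (R - R₀)/m`, step `≤ δ₀`, `m ≥ 2`. Claim S(l), `1 ≤ l ≤ m`:
`γ > 0`, `k`, `P` with `(P z, w z) ∈ O` for `R₀ ≤ ‖z‖ ≤ r_l`,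
`‖P z - z^J L_(R₀) z‖ ≤ ε₁ (l/m) ‖z‖^J` for `‖z‖ = R₀`,
`‖P z - γ z^k L_(r_l) z‖ ≤ η₁ γ ‖z‖^k` for `‖z‖ = r_l`, and `J + K ≤ k` if `l ≥ 2`. S(1): `γ = 1`,
`k = J`, `P z = z^J L_(R₀) z`. The step from `l` to `l + 1`, `r = r_l`, `r' = r_(l+1)`: T_GSB with
`W x = w (r x)`, `L x = x^k L_r' (r x)`, `P̃ x = (γ r^k)⁻¹ P(r x)`, `R₂ = R₀/r`, `R₁ = r'/r`, small
`ε'`, and `K + J` for `K`, exactly as in T_CHA; it gives `k', P̃'`, and the new data are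
`P' z = γ r^k P̃'(z/r)`, `k + k'`, `γ' = γ r^(-k')` (in this way `P'` is close to `P` on
`‖z‖ = R₀`). -/
def T_CHB : Prop := ∀ (a b : ℕ) (O : Set (Vec a × Vec b)), IsOpen O → Conic O →
  ∀ (R₀ R : ℝ) (σ : ℂ → Vec a) (w : ℂ → Vec b), 0 < R₀ → R₀ < R → Continuous σ →
  Continuous w → (∀ z : ℂ, R₀ ≤ ‖z‖ → ‖z‖ ≤ R → (σ z, w z) ∈ Bub O) → ∀ ε : ℝ, 0 < ε →
  ∀ K : ℕ, ∃ (J k : ℕ) (γ : ℝ) (P : Fin (a + 1) → Polynomial ℂ), J + K ≤ k ∧ 0 < γ ∧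
    (∀ z : ℂ, R₀ ≤ ‖z‖ → ‖z‖ ≤ R → (pv P z, w z) ∈ O) ∧
    (∀ z : ℂ, ‖z‖ = R₀ → ‖pv P z - z ^ J • σ z‖ ≤ ε * ‖z‖ ^ J) ∧
    ∀ z : ℂ, ‖z‖ = R → ‖pv P z - ((γ : ℂ) * z ^ k) • σ z‖ ≤ ε * (γ * ‖z‖ ^ k)

/-- HP1. The h-principle on a torus, for vectors. Uses T_UNI, T_BDS, T_EXT, T_CHB, T_TOR. PROOF. `R
= 1/‖q‖`. `K₀ = {(σ w, W w) | 1 ≤ ‖w‖ ≤ R}`, compact in `Bub O`: T_UNI gives `M, ε₂, C`. `η` from
T_TOR for `M, ε₂/2, C`. `ε_B ≤ η/6, ε₂/6, ε/2`. T_CHB (with T_EXT for `W`, `R₀ = 1`, `K = |d| +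
1`): `J, k, γ, P`. `D = k - J - d ≥ 1`. By continuity and compactness there is a small `δ₁ > 0`,
with `ρ = R (1 - δ₁)`, such that `(P z, W z) ∈ O` for `1 - δ₁ ≤ ‖z‖ ≤ R`; `‖P z - γ z^k • σ z‖ ≤ 2
ε_B γ ‖z‖^k` for `R (1 - δ₁) ≤ ‖z‖ ≤ R`; `‖P z - z^J • σ z‖ ≤ 2 ε_B ‖z‖^J` for `1 - δ₁ ≤ ‖z‖ ≤ 1`;
and for `‖x‖ = 1`: `‖σ (ρ x) - σ (R x)‖ ≤ ε_B`, `‖σ (q ρ x) - σ (q R x)‖ ≤ ε_B`, `‖W (ρ x) - W (R
x)‖ ≤ ε₂/2`. Put `P̃ x = (γ ρ^k)⁻¹ P(ρ x)` and `c₀ = γ ρ^k (q ρ)^(-J)`. For `‖x‖ = 1`: `σ (q R x) =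
x^d • σ (R x)` (hypothesis, `w = R x`), so `‖P̃ x - x^k σ (R x)‖ ≤ 3 ε_B` and `‖(c₀ x^D) P̃ (q x) -
x^k σ (R x)‖ ≤ 3 ε_B`. T_TOR for `P̃`, `x ↦ W (ρ x)`, `c₀`, `D`: BD at `((c₀ x^D) P̃ (q x), W (ρ
x))` by T_BDS (1) (factor `x^k`) and (2) from BD at `(σ (R x), W (R x))`; `‖q‖ ≤ ‖x‖ ≤ 1` gives `1
- δ₁ ≤ ‖ρ x‖ ≤ R`. Choose `δ > 0` with `1 + δ < 1/(1 - δ₁)` and `‖q‖/(1 - δ₁) < 1 - δ` (`1/ρ =
‖q‖/(1 - δ₁)`). On `‖w‖ = 1`, `x = w/ρ`: `P̃ x = (γ ρ^k)⁻¹ P w` is `(γ ρ^k)⁻¹ ε_B`-close to `(γ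
ρ^k)⁻¹ w^J σ w`; take `ε'` of T_TOR small. -/
def T_HP1 : Prop := ∀ (a n : ℕ) (O : Set (Vec a × Vec n)) (q : ℂ) (W : ℂ → Vec n)
  (σ : ℂ → Vec a) (d : ℤ), IsOpen O → Conic O → 0 < ‖q‖ → ‖q‖ < 1 →
  ContinuousOn W {x | x ≠ 0} → (∀ x, x ≠ 0 → W (q * x) = W x) → Continuous σ →
  (∀ w, 1 ≤ ‖w‖ → ‖q‖ * ‖w‖ ≤ 1 → (σ w, W w) ∈ Bub O) →
  (∀ w, ‖q‖ * ‖w‖ = 1 → σ (q * w) = ((‖q‖ : ℂ) * w) ^ d • σ w) → ∀ ε : ℝ, 0 < ε →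
  ∃ (ρ δ : ℝ) (H : ℂ → Vec a), 0 < ρ ∧ 0 < δ ∧ ‖q‖ * (1 + δ) < 1 / ρ ∧ 1 / ρ < 1 - δ ∧
    DifferentiableOn ℂ H {x | ‖q‖ < ‖x‖ ∧ ‖q‖ * ‖x‖ < 1} ∧
    (∀ x : ℂ, ‖q‖ * (1 + δ) ≤ ‖x‖ → ‖q‖ * ‖x‖ ≤ 1 - δ → (H x, W (ρ * x)) ∈ O) ∧
    (∀ x : ℂ, 1 < ‖x‖ → ‖q‖ * ‖x‖ < 1 → ∃ c : ℂ, c ≠ 0 ∧ H x = c • H (q * x)) ∧
    ∀ w : ℂ, ‖w‖ = 1 → ∃ c : ℂ, c ≠ 0 ∧ ‖c • H (w / ρ) - σ w‖ ≤ ε

/-- ASM. From a vector on an annulus to a holomorphic map from the torus. Uses T_ISB. PROOF.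
`q = exp (2 π I τ)`, `0 < ‖q‖ < 1`, `x(z) = exp (2 π I z) / ρ`, so `x(z + 1) = x(z)` and
`x(z + τ) = q x(z)`. `A = {x | ‖q‖ (1 + δ) < ‖x‖, ‖q‖ ‖x‖ < 1 - δ}`. Since
`‖q‖ (1 + δ) < 1 - δ`, for every `z` there is `k ∈ ℤ` with `q^k x(z) ∈ A`, and the set of these `k`
consists of one or two consecutive integers (`x, q^2 x ∈ A` is impossible: `‖q^2 x‖ > ‖q‖ (1 + δ)`
and `‖q‖ ‖x‖ < 1 - δ`). If `y, q y ∈ A` then `‖y‖ > 1 + δ > 1` and `H y = c • H (q y)`. So the class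
of `H (q^k x(z))` does not depend on `k`: this is `(F z).1`, and `(F z).2 = (f z).2`. `H` does not
vanish on `A` and `F z ∈ U`: hypothesis at `z + k τ` (`(f (z + k τ)).2 = (f z).2`). Local
representation: the same `k` near `z₀` (`A` is open), and the local representation of the second
component of `f`. -/
def T_ASM : Prop := ∀ (a b : ℕ) (U : Set (PP a b)) (τ : ℂ) (f : ℂ → PP a b) (ρ δ : ℝ)
  (H : ℂ → Vec a), 0 < τ.im → (∀ z, f (z + 1) = f z) → (∀ z, f (z + τ) = f z) →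
  (∀ z₀ : ℂ, ∃ (N : Set ℂ) (G : ℂ → Vec b), IsOpen N ∧ z₀ ∈ N ∧ DifferentiableOn ℂ G N ∧
    ∀ z ∈ N, Is (G z) (f z).2) → 0 < ρ → 0 < δ → ∀ q : ℂ,
  q = Complex.exp (2 * Real.pi * Complex.I * τ) → ‖q‖ * (1 + δ) < 1 - δ →
  DifferentiableOn ℂ H {x | ‖q‖ < ‖x‖ ∧ ‖q‖ * ‖x‖ < 1} →
  (∀ z x : ℂ, x = Complex.exp (2 * Real.pi * Complex.I * z) / ρ → ‖q‖ * (1 + δ) ≤ ‖x‖ →
    ‖q‖ * ‖x‖ ≤ 1 - δ → ∃ y ∈ U, Is (H x) y.1 ∧ y.2 = (f z).2) →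
  (∀ x : ℂ, 1 < ‖x‖ → ‖q‖ * ‖x‖ < 1 → ∃ c : ℂ, c ≠ 0 ∧ H x = c • H (q * x)) →
  ∃ F : ℂ → PP a b, HolC F ∧ (∀ z, F (z + 1) = F z) ∧ (∀ z, F (z + τ) = F z) ∧ (∀ z, F z ∈ U) ∧
    (∀ z, (F z).2 = (f z).2) ∧
    ∀ z x : ℂ, x = Complex.exp (2 * Real.pi * Complex.I * z) / ρ → ‖q‖ * (1 + δ) < ‖x‖ →
      ‖q‖ * ‖x‖ < 1 - δ → Is (H x) (F z).1

/-- HPT. The h-principle on a torus. Uses T_MTX, T_DES, T_CLO, T_HP1, T_ASM, T_SHN, T_SHO, T_RTE,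
T_CHE, T_CNC, T_ISB. PROOF. `q = exp (2 π I τ)`; T_MTX: `n, O, Φ`; T_DES: `g` with
`g (exp (2 π I z)) = f z`, so `g (q w) = g w`; `W w = Φ (g w).2`. T_CLO: `d, σ`. T_MTX:
`(σ w, W w) ∈ Bub O` on `1 ≤ ‖w‖ ≤ 1/‖q‖`. Let `w₁ = exp (2 π I x)`, `‖w₁‖ = 1`. T_SHN at `f 0` and
at `f x`: open sets `N₀, N₁`; for vectors `v` with `‖v - σ 1‖ ≤ ε` the pair of `v` and a vector
representing `(f 0).2` is in `cone N₀`, and for `‖v - σ w₁‖ ≤ ε` the same with `N₁`, `f x`. T_HP1: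
`ρ, δ, H`. T_ASM (T_MTX for `(H x, W (ρ x)) ∈ O`): `F`. At `z = 0` and at `z = x`:
`‖x(z)‖ = 1/ρ`, so `H (1/ρ)` represents `(F 0).1`, a multiple of it is `ε`-close to `σ 1`:
`F 0 ∈ N₀`, `(F 0).2 = (f 0).2`, `Joined U (f 0) (F 0)`; the same for `x`. T_RTE. If `F 0 = F x`
this is enough; otherwise `Set.range F` is an elliptic curve in `U` which contains both. -/
def T_HPT : Prop := ∀ (a b : ℕ) (U : Set (PP a b)) (τ : ℂ) (f : ℂ → PP a b), IsOpenP U →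
  0 < τ.im → Continuous f → (∀ z, f (z + 1) = f z) → (∀ z, f (z + τ) = f z) →
  (∀ z, f z ∈ Sharp U) →
  (∀ z₀ : ℂ, ∃ (N : Set ℂ) (G : ℂ → Vec b), IsOpen N ∧ z₀ ∈ N ∧ DifferentiableOn ℂ G N ∧
    ∀ z ∈ N, Is (G z) (f z).2) → ∀ x : ℝ, ChainE U (f 0) (f x)

/-- HPA. All points of the torus. Uses T_HPT, T_CHE. PROOF. `z' - z = x + y τ` with real `x, y`.
T_HPT for `u ↦ f (z + u)` gives the chain from `f z` to `f (z + x)`. T_HPT for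
`u ↦ f (z + x + τ u)`, with periods `1` and `-1/τ` (`0 < (-1/τ).im`), gives the chain from
`f (z + x)` to `f (z + x + y τ)`. -/
def T_HPA : Prop := ∀ (a b : ℕ) (U : Set (PP a b)) (τ : ℂ) (f : ℂ → PP a b), IsOpenP U →
  0 < τ.im → Continuous f → (∀ z, f (z + 1) = f z) → (∀ z, f (z + τ) = f z) →
  (∀ z, f z ∈ Sharp U) →
  (∀ z₀ : ℂ, ∃ (N : Set ℂ) (G : ℂ → Vec b), IsOpen N ∧ z₀ ∈ N ∧ DifferentiableOn ℂ G N ∧
    ∀ z ∈ N, Is (G z) (f z).2) → ∀ z z' : ℂ, ChainE U (f z) (f z')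

/-- TYE. Type 1, elliptic version. Uses T_ISB, T_FST, T_SEG, T_RCO, T_MIX, T_COM, T_MET, T_SHO,
T_SHP, T_SCQ, T_NOD, T_LIT, T_PAS, T_RTE, T_CHE, T_HCC, T_HPA. PROOF (see `P_TY1.lean` for
(1)-(3)). Let `U` be open, `j '' X ⊆ U`, `x₁, x₂ ∈ X`. (1) `g`, and `e : PP c d → PP M n` embeds
`Y`, `(e (φ x)).2 = (j x).2`. (2) `S = Sharp U` is open and contains `j '' X`. (3) `θ` from T_MET,
`ε₀ > 0` such that for `x ∈ X`, `v : PP M n`, `dist (θ (e (φ x))) (θ v) < ε₀` implies `((j x).1,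
v.2) ∈ S`. Let `q x = θ (e (φ x))` on `X` (T_SCQ). (4) `δ_N` from T_NOD for `ε₀/2`, `ε₁ = min
(ε₀/2) (δ_N/2)`, `δ ≤ ε₁` from T_LIT for `ε₁`. `V = {v | ∃ y ∈ Y, dist (θ (e y)) (θ v) < δ}` is
open and contains `e '' Y`. Call `(u, x)` good if `x ∈ X` and `dist (q x) (θ u) < ε₁`, and let
`π(u, x) = ((j x).1, u.2)`, a point of `S`. (5) If `(u, x)` and `(u, x')` are good then `π(u, x)`
and `π(u, x')` are joined: `dist (q x) (q x') < δ_N`, T_NOD gives a path `γ` from `x` to `x'` with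
`dist (q (γ s)) (θ u) < ε₀`, so `s ↦ π(u, γ s)` is a path in `S` (continuous: T_RCO, T_MIX), T_PAS.
(6) Let `C = range D ⊆ V` be an elliptic curve. T_LIT for `θ ∘ D` (T_HCC): `σ : ℂ → X`, `(D t, σ
t)` good for all `t`. `f t = π(D t, σ t)` is continuous, periodic, with values in `S`, its second
component is that of `D`: T_HPA. (7) `StrongE Y`: `ChainE V (e (φ x₁)) (e (φ x₂))`. By induction on
the chain: for every `u` of the chain and every `x` with `(u, x)` good, `ChainE U (π(e (φ x₁), x₁))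
(π(u, x))`: start by (5); step from `u = D t` to `u' = D t'`: (6) for `σ t, σ t'`, then (5) at
`u'`. At the end `u = e (φ x₂)`, `x = x₂`, and `π(e (φ x_i), x_i) = j x_i`. -/
def T_TYE : Prop := ∀ (a b c d m n : ℕ) (X : Set (PP a b)) (Y : Set (PP c d))
  (φ : PP a b → PP c d) (j : PP a b → PP m n), IsCompact X → HolOn X φ → φ '' X = Y →
  (∀ x ∈ X, ∃ x' ∈ X, x' ≠ x ∧ φ x' = φ x) →
  (∀ x ∈ X, ∀ x' ∈ X, φ x = φ x' → ChainIn {z | z ∈ X ∧ φ z = φ x} x x') →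
  (∀ (k l : ℕ) (f : PP a b → PP k l), HolOn X f →
    (∀ x ∈ X, ∀ x' ∈ X, φ x = φ x' → f x = f x') →
    ∃ g : PP c d → PP k l, HolOn Y g ∧ ∀ x ∈ X, f x = g (φ x)) →
  (∀ y ∈ Y, ∀ N : Set (PP c d), IsOpen N → y ∈ N → ∃ N' ⊆ N, IsOpen N' ∧ y ∈ N' ∧
    SimplyConnectedSpace {x : X // φ x ∈ N'}) →
  IsEmb X j → (∀ x ∈ X, ∀ x' ∈ X, φ x = φ x' → (j x).2 = (j x').2) → StrongE Y →
  NaiveE (j '' X)

/-- GEE. The main theorem, elliptic version. Uses T_RGS, T_T12, T_TYE, T_SWP, T_SWN, T_RTE. PROOF.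
As `P_GEN.lean`, with T_TYE in the place of T_TY1; if both components of `j` are nonconstant on
every fibre: T_T12 and T_RTE. -/
def T_GEE : Prop := ∀ (a b c d : ℕ) (X : Set (PP a b)) (Y : Set (PP c d))
  (φ : PP a b → PP c d), IsCompact X → IsPreconnected X → HolOn X φ → φ '' X = Y →
  (Sub X Y φ ∨ Rigid X Y φ) → (∀ x ∈ X, ∃ x' ∈ X, x' ≠ x ∧ φ x' = φ x) →
  (∀ x ∈ X, ∀ x' ∈ X, φ x = φ x' → ChainIn {z | z ∈ X ∧ φ z = φ x} x x') →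
  (∀ y ∈ Y, ∀ N : Set (PP c d), IsOpen N → y ∈ N → ∃ N' ⊆ N, IsOpen N' ∧ y ∈ N' ∧
    SimplyConnectedSpace {x : X // φ x ∈ N'}) →
  StrongE Y → StrongE X

end Pool.Agent.ARC
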